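import Mathlib

/-! Transcendence of `π`, from the analytic part of Lindemann-Weierstrass in Mathlib. -/

open Polynomial Complex Filter Topology

namespace Pool.Agent.Lib.PiTranscendental

/-- A nonzero algebraic complex number is a root of an integer polynomial with nonzero
constant term. -/
lemma exists_int_poly (s : ℂ) (hs : IsAlgebraic ℚ s) (h0 : s ≠ 0) :
    ∃ f : ℤ[X], f.eval 0 ≠ 0 ∧ aeval s f = 0 := by
  have hs' : IsAlgebraic ℤ s := (IsFractionRing.isAlgebraic_iff ℤ ℚ ℂ).2 hs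
  obtain ⟨p, hp0, hp⟩ := hs'
  -- divide by the largest power of X
  obtain ⟨q, hq1, hq2⟩ : ∃ q : ℤ[X], p = X ^ (p.rootMultiplicity 0) * q ∧ q.eval 0 ≠ 0 := by
    obtain ⟨q, hq⟩ := p.exists_eq_pow_rootMultiplicity_mul_and_not_dvd hp0 0
    refine ⟨q, by simpa using hq.1, ?_⟩
    intro h
    apply hq.2
    rw [dvd_iff_isRoot]
    exact h
  refine ⟨q, hq2, ?_⟩
  rw [hq1, map_mul, map_pow, aeval_X] at hp
  rcases mul_eq_zero.1 hp with h | h
  · exact absurd (eq_zero_of_pow_eq_zero h) h0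
  · exact h

/-- Galois-invariant algebraic integers in a Galois extension of `ℚ` are integers. -/
lemma exists_int_of_fixed {L : Type} [Field L] [Algebra ℚ L] [FiniteDimensional ℚ L]
    [IsGalois ℚ L] (x : L) (hx : IsIntegral ℤ x) (hfix : ∀ τ : L ≃ₐ[ℚ] L, τ x = x) :
    ∃ n : ℤ, x = n := by
  obtain ⟨q, hq⟩ := (IsGalois.mem_range_algebraMap_iff_fixed x).2 hfix
  have hq' : IsIntegral ℤ q := by
    have : Function.Injective (algebraMap ℚ L) := (algebraMap ℚ L).injective
    rw [← hq] at hx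
    exact (isIntegral_algebraMap_iff this).1 hx
  obtain ⟨n, hn⟩ := IsIntegrallyClosed.isIntegral_iff.1 hq'
  refine ⟨n, ?_⟩
  rw [← hq, ← hn]
  simp

theorem main_false {L : Type} [Field L] [Algebra ℚ L] [FiniteDimensional ℚ L]
    [IsGalois ℚ L] (φ : L →ₐ[ℚ] ℂ) (R : Finset L)
    (hR : ∀ τ : L ≃ₐ[ℚ] L, ∀ x ∈ R, τ x ∈ R) (x₀ : L) (hx₀R : x₀ ∈ R)
    (hx₀ : exp (φ x₀) = -1) : False := by
  classical
  let σ : Finset L → L := fun S => ∑ x ∈ S, x
  have hprod : ∏ x ∈ R, (1 + exp (φ x)) = 0 := by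
    apply Finset.prod_eq_zero hx₀R
    rw [hx₀]
    ring
  have hsum : ∑ S ∈ R.powerset, exp (φ (σ S)) = 0 := by
    rw [Finset.prod_one_add] at hprod
    rw [← hprod]
    apply Finset.sum_congr rfl
    intro S _
    rw [map_sum, exp_sum]
  let P1 := R.powerset.filter (fun S => σ S ≠ 0)
  let P0 := R.powerset.filter (fun S => ¬ σ S ≠ 0)
  let k := P0.card
  have hk : 0 < k := by
    apply Finset.card_pos.2
    exact ⟨∅, by simp [P0, σ]⟩
  have hsum1 : (k : ℂ) + ∑ S ∈ P1, exp (φ (σ S)) = 0 := by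
    rw [← hsum, ← Finset.sum_filter_add_sum_filter_not R.powerset (fun S => σ S ≠ 0), add_comm]
    congr 1
    rw [Finset.sum_congr rfl (g := fun _ => (1 : ℂ))]
    · simp [k, P0]
    · intro S hS
      have : σ S = 0 := by simpa using (Finset.mem_filter.1 hS).2
      rw [this]
      simp
  -- the integer polynomial
  have hf : ∀ S ∈ P1, ∃ f : ℤ[X], f.eval 0 ≠ 0 ∧ aeval (φ (σ S)) f = 0 := by
    intro S hS
    apply exists_int_poly
    · exact (Algebra.IsAlgebraic.isAlgebraic (R := ℚ) (σ S)).algHom φ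
    · have := (Finset.mem_filter.1 hS).2
      intro h
      apply this
      exact (map_eq_zero φ).1 h
  choose! fS hfS0 hfS using hf
  let f : ℤ[X] := ∏ S ∈ P1, fS S
  have hf0 : f.eval 0 ≠ 0 := by
    simp only [f, eval_prod]
    exact Finset.prod_ne_zero_iff.2 hfS0
  have hfne : f ≠ 0 := by
    intro h
    rw [h] at hf0
    simp at hf0
  have hroot : ∀ S ∈ P1, φ (σ S) ∈ f.aroots ℂ := by
    intro S hS
    rw [mem_aroots]
    refine ⟨hfne, ?_⟩
    simp only [f, map_prod]
    exact Finset.prod_eq_zero hS (hfS S hS)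
  -- common denominator
  obtain ⟨a, ha0, ha⟩ := exists_integral_multiples ℤ ℚ R
  have haσ : ∀ S ∈ R.powerset, IsIntegral ℤ ((a : L) * σ S) := by
    intro S hS
    have : (a : L) * σ S = ∑ x ∈ S, (a : L) * x := by
      simp only [σ, Finset.mul_sum]
    rw [this]
    apply IsIntegral.sum
    intro x hx
    have := ha x (Finset.mem_powerset.1 hS hx)
    rwa [zsmul_eq_mul] at this
  -- the permutation argument
  have hτσ : ∀ (τ : L ≃ₐ[ℚ] L) (S : Finset L), τ (σ S) = σ (S.map (τ.toEquiv.toEmbedding)) := by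
    intro τ S
    simp [σ]
  have hmem : ∀ (τ : L ≃ₐ[ℚ] L) (S : Finset L), S ∈ P1 → S.map (τ.toEquiv.toEmbedding) ∈ P1 := by
    intro τ S hS
    rw [Finset.mem_filter] at hS ⊢
    refine ⟨?_, ?_⟩
    · rw [Finset.mem_powerset] at hS ⊢
      intro y hy
      rw [Finset.mem_map] at hy
      obtain ⟨x, hx, rfl⟩ := hy
      exact hR τ x (hS.1 hx)
    · rw [← hτσ]
      intro h
      exact hS.2 ((map_eq_zero τ).1 h)
  have hperm : ∀ (τ : L ≃ₐ[ℚ] L) (g : ℤ[X]),
      τ (∑ S ∈ P1, aeval (σ S) g) = ∑ S ∈ P1, aeval (σ S) g := by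
    intro τ g
    rw [map_sum]
    refine Finset.sum_bij' (fun S _ => S.map τ.toEquiv.toEmbedding)
      (fun S _ => S.map τ.symm.toEquiv.toEmbedding) ?_ ?_ ?_ ?_ ?_
    · intro S hS
      exact hmem τ S hS
    · intro S hS
      exact hmem τ.symm S hS
    · intro S _
      ext x
      simp
    · intro S _
      ext x
      simp
    · intro S _
      rw [← hτσ]
      exact (aeval_algHom_apply ((τ : L →ₐ[ℚ] L).restrictScalars ℤ) (σ S) g).symm
  -- integrality
  have hintg : ∀ (g : ℤ[X]) (N : ℕ), g.natDegree ≤ N → ∃ n : ℤ,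
      (a : L) ^ N * ∑ S ∈ P1, aeval (σ S) g = n := by
    intro g N hN
    apply exists_int_of_fixed
    · rw [Finset.mul_sum]
      apply IsIntegral.sum
      intro S hS
      have hS' : S ∈ R.powerset := (Finset.mem_filter.1 hS).1
      rw [aeval_eq_sum_range' (Nat.lt_succ_of_le hN), Finset.mul_sum]
      apply IsIntegral.sum
      intro i hi
      have hi' : i ≤ N := Nat.lt_succ_iff.1 (Finset.mem_range.1 hi)
      have : (a : L) ^ N * (g.coeff i • (σ S) ^ i) =
          (g.coeff i : L) * ((a : L) ^ (N - i) * ((a : L) * σ S) ^ i) := by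
        rw [zsmul_eq_mul, mul_pow]
        have : (a : L) ^ N = (a : L) ^ (N - i) * (a : L) ^ i := by
          rw [← pow_add, Nat.sub_add_cancel hi']
        rw [this]; ring
      rw [this]
      apply IsIntegral.mul
      · exact isIntegral_algebraMap (R := ℤ) (A := L) (x := g.coeff i)
      · apply IsIntegral.mul
        · exact (isIntegral_algebraMap (R := ℤ) (A := L) (x := a)).pow _
        · exact (haσ S hS').pow _
    · intro τ
      rw [map_mul, hperm τ g, map_pow]
      congr 2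
      simp
  obtain ⟨c, hc⟩ := LindemannWeierstrass.exp_polynomial_approx f hf0
  -- choose a large prime
  set D := f.natDegree with hD
  set B : ℝ := |(a : ℝ)| ^ D * |c| with hB
  have hlim : Tendsto (fun n : ℕ => (P1.card : ℝ) * B * (B ^ n / (n.factorial : ℝ))) atTop (𝓝 0) := by
    have := (FloorSemiring.tendsto_pow_div_factorial_atTop B).const_mul ((P1.card : ℝ) * B)
    simpa using this
  obtain ⟨n₀, hn₀⟩ := (hlim.eventually (gt_mem_nhds (show (0 : ℝ) < 1 by norm_num))).exists_forall_of_atTop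
  obtain ⟨p, hp1, hp⟩ := Nat.exists_infinite_primes
    (n₀ + 1 + ((eval 0 f).natAbs + 1) + (a.natAbs + 1) + (k + 1))
  obtain ⟨n, hn, g, hg, happ⟩ := hc p (by omega) hp
  have hgN : g.natDegree ≤ p * D := le_trans hg (Nat.sub_le _ _)
  obtain ⟨J, hJ⟩ := hintg g (p * D) hgN
  -- the integer
  set Z : ℤ := a ^ (p * D) * n * k + p * J with hZ
  have hZ0 : Z ≠ 0 := by
    intro h
    have hdvd : (p : ℤ) ∣ a ^ (p * D) * n * k := by
      refine ⟨-J, ?_⟩
      linarith
    have hpp : Prime (p : ℤ) := Nat.prime_iff_prime_int.1 hp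
    rcases hpp.dvd_or_dvd hdvd with h1 | h1
    · rcases hpp.dvd_or_dvd h1 with h2 | h2
      · have h3 := hpp.dvd_of_dvd_pow h2
        have h4 := Int.natAbs_dvd_natAbs.2 h3
        rw [Int.natAbs_natCast] at h4
        have := Nat.le_of_dvd (Int.natAbs_pos.2 ha0) h4
        omega
      · exact hn h2
    · have h4 : p ∣ k := by exact_mod_cast h1
      have := Nat.le_of_dvd hk h4
      omega
  have hJC : (a : ℂ) ^ (p * D) * ∑ S ∈ P1, aeval (φ (σ S)) g = J := by
    have := congrArg φ hJ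
    rw [map_mul, map_pow, map_sum, map_intCast, map_intCast] at this
    rw [← this]
    congr 1
    apply Finset.sum_congr rfl
    intro S _
    exact aeval_algHom_apply (φ.restrictScalars ℤ) (σ S) g
  have hZC : (Z : ℂ) = -((a : ℂ) ^ (p * D) * ∑ S ∈ P1, (n • exp (φ (σ S)) - p • aeval (φ (σ S)) g)) := by
    have h1 : (k : ℂ) = - ∑ S ∈ P1, exp (φ (σ S)) := by
      linear_combination hsum1
    have h2 : (Z : ℂ) = (a : ℂ) ^ (p * D) * n * k + p * J := by
      rw [hZ]; push_cast; ring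
    rw [h2, ← hJC, h1, Finset.sum_sub_distrib]
    simp only [zsmul_eq_mul, nsmul_eq_mul]
    rw [← Finset.mul_sum, ← Finset.mul_sum]
    ring
  have hbound : ‖(Z : ℂ)‖ ≤ |(a : ℝ)| ^ (p * D) * (P1.card * (c ^ p / ((p - 1).factorial : ℝ))) := by
    rw [hZC, norm_neg, norm_mul, norm_pow]
    have : ‖(a : ℂ)‖ = |(a : ℝ)| := by
      rw [Complex.norm_intCast]
    rw [this]
    apply mul_le_mul_of_nonneg_left _ (by positivity)
    refine (norm_sum_le _ _).trans ?_
    refine (Finset.sum_le_card_nsmul P1 _ (c ^ p / ((p - 1).factorial : ℝ)) ?_).trans ?_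
    · intro S hS
      exact happ (hroot S hS)
    · rw [nsmul_eq_mul]
  have hone : (1 : ℝ) ≤ ‖(Z : ℂ)‖ := by
    rw [Complex.norm_intCast]
    exact_mod_cast Int.one_le_abs hZ0
  have hfinal : |(a : ℝ)| ^ (p * D) * (P1.card * (c ^ p / ((p - 1).factorial : ℝ))) < 1 := by
    obtain ⟨q, rfl⟩ : ∃ q, p = q + 1 := ⟨p - 1, by omega⟩
    have hq := hn₀ q (by omega)
    refine lt_of_le_of_lt ?_ hq
    have e1 : |(a : ℝ)| ^ ((q + 1) * D) = (|(a : ℝ)| ^ D) ^ (q + 1) := by
      rw [← pow_mul, mul_comm]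
    rw [e1, Nat.add_sub_cancel, hB]
    have e2 : c ^ (q + 1) ≤ |c| ^ (q + 1) := by
      rw [← abs_pow]
      exact le_abs_self _
    calc (|(a : ℝ)| ^ D) ^ (q + 1) * (P1.card * (c ^ (q + 1) / (q.factorial : ℝ)))
        ≤ (|(a : ℝ)| ^ D) ^ (q + 1) * (P1.card * (|c| ^ (q + 1) / (q.factorial : ℝ))) := by
          gcongr
      _ = (P1.card : ℝ) * (|(a : ℝ)| ^ D * |c|) * ((|(a : ℝ)| ^ D * |c|) ^ q / (q.factorial : ℝ)) := by
          rw [mul_pow, pow_succ, pow_succ]
          ring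
  linarith

lemma exists_galois_aux (α : ℂ) (hint : IsIntegral ℚ α) {L : Type} [Field L] [Algebra ℚ L]
    [IsSplittingField ℚ L (minpoly ℚ α)] :
    FiniteDimensional ℚ L ∧ IsGalois ℚ L ∧ ∃ (φ : L →ₐ[ℚ] ℂ) (x : L), φ x = α := by
  have hirr : Irreducible (minpoly ℚ α) := minpoly.irreducible hint
  have hfin : FiniteDimensional ℚ L := IsSplittingField.finiteDimensional L (minpoly ℚ α)
  have hsplitC : ((minpoly ℚ α).map (algebraMap ℚ ℂ)).Splits := IsAlgClosed.splits _
  let φ : L →ₐ[ℚ] ℂ := IsSplittingField.lift L (minpoly ℚ α) hsplitC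
  have hG : IsGalois ℚ L :=
    IsGalois.of_separable_splitting_field hirr.separable
  refine ⟨hfin, hG, φ, ?_⟩
  have h1 : ((minpoly ℚ α).aroots L).map φ = (minpoly ℚ α).aroots ℂ := by
    have := (IsSplittingField.splits L (minpoly ℚ α)).roots_map (φ : L →+* ℂ)
    rw [Polynomial.map_map] at this
    have h2 : (φ : L →+* ℂ).comp (algebraMap ℚ L) = algebraMap ℚ ℂ := Subsingleton.elim _ _
    rw [h2] at this
    exact this.symm
  have h2 : α ∈ (minpoly ℚ α).aroots ℂ := by
    rw [mem_aroots]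
    exact ⟨hirr.ne_zero, minpoly.aeval ℚ α⟩
  rw [← h1, Multiset.mem_map] at h2
  obtain ⟨x, hx, hx'⟩ := h2
  exact ⟨x, hx'⟩

lemma exists_galois (α : ℂ) (hint : IsIntegral ℚ α) : ∃ (L : Type) (_ : Field L) (_ : Algebra ℚ L)
    (_ : FiniteDimensional ℚ L) (_ : IsGalois ℚ L) (φ : L →ₐ[ℚ] ℂ) (x : L), φ x = α := by
  have h := @Polynomial.IsSplittingField.splittingField ℚ _ (minpoly ℚ α)
  obtain ⟨h1, h2, φ, x, hx⟩ := @exists_galois_aux α hint (minpoly ℚ α).SplittingField _ _ h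
  exact ⟨(minpoly ℚ α).SplittingField, _, _, h1, h2, φ, x, hx⟩

theorem transcendental_I_mul_pi : Transcendental ℚ (I * (Real.pi : ℂ)) := by
  classical
  intro halg
  obtain ⟨L, _, _, _, _, φ, x₀, hx₀⟩ := exists_galois _ halg.isIntegral
  refine main_false φ (Finset.univ.image (fun τ : L ≃ₐ[ℚ] L => τ x₀)) ?_ x₀ ?_ ?_
  · intro τ x hx
    rw [Finset.mem_image] at hx ⊢
    obtain ⟨τ', _, rfl⟩ := hx
    exact ⟨τ * τ', Finset.mem_univ _, rfl⟩
  · rw [Finset.mem_image]
    exact ⟨1, Finset.mem_univ _, rfl⟩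
  · rw [hx₀, mul_comm, exp_pi_mul_I]

theorem transcendental_pi : Transcendental ℚ (Real.pi : ℂ) := by
  intro h
  apply transcendental_I_mul_pi
  have hI : IsAlgebraic ℚ I := by
    refine IsAlgebraic.of_pow (n := 2) (by norm_num) ?_
    rw [I_sq]
    exact (isAlgebraic_one).neg
  exact hI.mul h

theorem transcendental_real_pi : Transcendental ℚ Real.pi := by
  intro h
  apply transcendental_pi
  exact h.algebraMap (A := ℂ)

end Pool.Agent.Lib.PiTranscendental
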