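import Mathlib
import Pool.Agent.Lib.PiTranscendental

/-! Elimination helpers over the algebraic numbers. -/

open Polynomial

namespace Pool.Agent.Lib.AlgElim

/-- A root of a nonzero polynomial with algebraic coefficients is algebraic. -/
theorem isAlgebraic_of_root {E : Type*} [Field E] [Algebra ℚ E] (P : E[X]) (hP : P ≠ 0)
    (hc : ∀ i, IsAlgebraic ℚ (P.coeff i)) (x : E) (hx : P.eval x = 0) : IsAlgebraic ℚ x := by
  have hA : Algebra.IsAlgebraic ℚ (integralClosure ℚ E) := inferInstance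
  have hl : P ∈ Polynomial.lifts (algebraMap (integralClosure ℚ E) E) := by
    rw [Polynomial.lifts_iff_coeff_lifts]
    intro i
    exact ⟨⟨P.coeff i, (hc i).isIntegral⟩, rfl⟩
  obtain ⟨Q, hQ⟩ := (Polynomial.mem_lifts _).1 hl
  have hx' : IsAlgebraic (integralClosure ℚ E) x := by
    refine ⟨Q, ?_, ?_⟩
    · rintro rfl
      simp at hQ
      exact hP hQ.symm
    · rw [aeval_def, ← eval_map, hQ, hx]
  exact IsAlgebraic.restrictScalars ℚ hx'

/-- The polynomials with algebraic coefficients. -/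
def AlgCoeff {E : Type*} [Field E] [Algebra ℚ E] (P : E[X]) : Prop :=
  ∀ i, IsAlgebraic ℚ (P.coeff i)

section
variable {E : Type*} [Field E] [Algebra ℚ E]

theorem algCoeff_iff (P : E[X]) :
    AlgCoeff P ↔ P ∈ Polynomial.lifts (algebraMap (integralClosure ℚ E) E) := by
  rw [Polynomial.lifts_iff_coeff_lifts]
  constructor
  · intro h i
    exact ⟨⟨P.coeff i, (h i).isIntegral⟩, rfl⟩
  · intro h i
    obtain ⟨y, hy⟩ := h i
    rw [← hy]
    exact isAlgebraic_iff_isIntegral.2 y.2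

theorem AlgCoeff.add {P Q : E[X]} (hP : AlgCoeff P) (hQ : AlgCoeff Q) : AlgCoeff (P + Q) := by
  rw [algCoeff_iff] at *
  exact add_mem hP hQ

theorem AlgCoeff.mul {P Q : E[X]} (hP : AlgCoeff P) (hQ : AlgCoeff Q) : AlgCoeff (P * Q) := by
  rw [algCoeff_iff] at *
  exact mul_mem hP hQ

theorem AlgCoeff.pow {P : E[X]} (hP : AlgCoeff P) (n : ℕ) : AlgCoeff (P ^ n) := by
  rw [algCoeff_iff] at *
  exact pow_mem hP n

theorem AlgCoeff.C {a : E} (ha : IsAlgebraic ℚ a) : AlgCoeff (C a) := by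
  intro i
  rw [coeff_C]
  split_ifs
  · exact ha
  · exact isAlgebraic_zero

theorem AlgCoeff.X : AlgCoeff (X : E[X]) := by
  intro i
  rw [coeff_X]
  split_ifs
  · exact isAlgebraic_one
  · exact isAlgebraic_zero

theorem AlgCoeff.neg {P : E[X]} (hP : AlgCoeff P) : AlgCoeff (-P) := by
  intro i
  rw [coeff_neg]
  exact (hP i).neg

theorem AlgCoeff.sub {P Q : E[X]} (hP : AlgCoeff P) (hQ : AlgCoeff Q) : AlgCoeff (P - Q) := by
  rw [sub_eq_add_neg]
  exact hP.add hQ.neg

theorem AlgCoeff.isAlgebraic_of_root {P : E[X]} (hc : AlgCoeff P) (hP : P ≠ 0) {x : E}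
    (hx : P.eval x = 0) : IsAlgebraic ℚ x :=
  AlgElim.isAlgebraic_of_root P hP hc x hx

theorem isAlgebraic_rat (q : ℚ) : IsAlgebraic ℚ (q : E) := by
  have := isAlgebraic_algebraMap (R := ℚ) (A := E) q
  rwa [eq_ratCast] at this

theorem isAlgebraic_nat (n : ℕ) : IsAlgebraic ℚ (n : E) := by
  have := isAlgebraic_rat (E := E) n
  simpa using this

theorem isAlgebraic_ofNat (n : ℕ) [n.AtLeastTwo] : IsAlgebraic ℚ (OfNat.ofNat n : E) := by
  exact isAlgebraic_nat (E := E) (OfNat.ofNat n)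

theorem isAlgebraic_div {a b : E} (ha : IsAlgebraic ℚ a) (hb : IsAlgebraic ℚ b) :
    IsAlgebraic ℚ (a / b) := by
  rw [div_eq_mul_inv]
  exact ha.mul hb.inv

end

end Pool.Agent.Lib.AlgElim
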