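import Mathlib

/-! Series for the logarithmic derivatives of the Gamma function on `(0, ∞)`, and the first four
derivatives of the Gamma function. -/

open Real Filter Topology Set

namespace Pool.Agent.Lib.GammaDerivs

/-- `T k x = ∑_{i ≥ 0} (i + x)⁻ᵏ`. -/
noncomputable def T (k : ℕ) (x : ℝ) : ℝ := ∑' i : ℕ, 1 / ((i : ℝ) + x) ^ k

/-- `ψ(x)`, by its series. -/
noncomputable def psi (x : ℝ) : ℝ :=
  -eulerMascheroniConstant - 1 / x + ∑' i : ℕ, (1 / ((i : ℝ) + 1) - 1 / ((i : ℝ) + 1 + x))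

lemma summable_T (k : ℕ) (hk : 2 ≤ k) {x : ℝ} (hx : 0 < x) :
    Summable (fun i : ℕ => 1 / ((i : ℝ) + x) ^ k) := by
  have h : Summable (fun i : ℕ => 1 / (((i : ℝ) + 1)) ^ k) := by
    have := (summable_nat_add_iff 1).2 (Real.summable_one_div_nat_pow.2 (by omega : 1 < k))
    simpa using this
  set c := min x 1 with hc
  have hc0 : 0 < c := lt_min hx one_pos
  refine Summable.of_nonneg_of_le (fun i => by positivity) (fun i => ?_)
    (h.mul_left (1 / c ^ k))
  rw [one_div_mul_one_div, ← mul_pow]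
  apply one_div_le_one_div_of_le (by positivity)
  apply pow_le_pow_left₀ (by positivity)
  have h1 : c ≤ x := min_le_left _ _
  have h2 : c ≤ 1 := min_le_right _ _
  have h3 : (0 : ℝ) ≤ i := Nat.cast_nonneg i
  nlinarith

lemma hasDerivAt_T (k : ℕ) (hk : 2 ≤ k) {x : ℝ} (hx : 0 < x) :
    HasDerivAt (T k) (-(k : ℝ) * T (k + 1) x) x := by
  have hx2 : 0 < x / 2 := by linarith
  have key := hasDerivAt_tsum_of_isPreconnected
    (g := fun (i : ℕ) (y : ℝ) => 1 / ((i : ℝ) + y) ^ k)
    (g' := fun (i : ℕ) (y : ℝ) => -(k : ℝ) * (1 / ((i : ℝ) + y) ^ (k + 1)))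
    (u := fun (i : ℕ) => (k : ℝ) * (1 / ((i : ℝ) + x / 2) ^ (k + 1)))
    (t := Ioi (x / 2)) (y := x) (y₀ := x)
    ((summable_T (k + 1) (by omega) hx2).mul_left _) isOpen_Ioi isPreconnected_Ioi ?_ ?_ ?_
    (summable_T k hk hx) ?_
  · rw [tsum_mul_left] at key
    exact key
  · intro i y hy
    have hy' : 0 < (i : ℝ) + y := by
      have : (0 : ℝ) ≤ i := Nat.cast_nonneg i
      have : x / 2 < y := hy
      linarith
    have h1 : HasDerivAt (fun y : ℝ => (i : ℝ) + y) 1 y := by
      simpa using (hasDerivAt_id y).const_add (i : ℝ)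
    have h2 := (h1.fun_pow k).inv (pow_ne_zero k hy'.ne')
    simp only [one_div]
    refine h2.congr_deriv ?_
    obtain ⟨m, rfl⟩ : ∃ m, k = m + 1 := ⟨k - 1, by omega⟩
    simp only [Nat.add_sub_cancel]
    field_simp
    try ring
  · intro i y hy
    have hxy : x / 2 < y := hy
    have hi : (0 : ℝ) ≤ i := Nat.cast_nonneg i
    have hiy : 0 < (i : ℝ) + y := by linarith
    rw [neg_mul, norm_neg, norm_mul, Real.norm_natCast, Real.norm_eq_abs,
      abs_of_nonneg (by positivity)]
    gcongr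
  · exact (by simp only [mem_Ioi]; linarith)
  · exact (by simp only [mem_Ioi]; linarith)

lemma g_nonneg_le {t : ℝ} (ht : 0 ≤ t) : 0 ≤ t - log (1 + t) ∧ t - log (1 + t) ≤ t ^ 2 := by
  constructor
  · have := Real.log_le_sub_one_of_pos (show 0 < 1 + t by linarith)
    linarith
  · have := Real.le_log_one_add_of_nonneg ht
    have h2 : 2 * t / (t + 2) ≥ t - t ^ 2 := by
      rw [ge_iff_le, le_div_iff₀ (by linarith)]
      nlinarith [pow_nonneg ht 3]
    linarith

lemma summable_g {x : ℝ} (hx : 0 ≤ x) :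
    Summable (fun i : ℕ => x / ((i : ℝ) + 1) - log (1 + x / ((i : ℝ) + 1))) := by
  have h : Summable (fun i : ℕ => 1 / (((i : ℝ) + 1)) ^ 2) := by
    have := (summable_nat_add_iff 1).2 (Real.summable_one_div_nat_pow.2 (by norm_num : 1 < 2))
    simpa using this
  refine Summable.of_nonneg_of_le (fun i => (g_nonneg_le (by positivity)).1) (fun i => ?_)
    (h.mul_left (x ^ 2))
  refine (g_nonneg_le (by positivity)).2.trans (le_of_eq ?_)
  rw [div_pow]
  ring

lemma log_Gamma_eq {x : ℝ} (hx : 0 < x) :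
    log (Gamma x) = -eulerMascheroniConstant * x - log x +
      ∑' i : ℕ, (x / ((i : ℝ) + 1) - log (1 + x / ((i : ℝ) + 1))) := by
  have h1 := BohrMollerup.tendsto_log_gamma hx
  have h2 : Tendsto (fun n : ℕ => -(harmonic n - log n) * x - log x +
      ∑ i ∈ Finset.range n, (x / ((i : ℝ) + 1) - log (1 + x / ((i : ℝ) + 1)))) atTop
      (𝓝 (-eulerMascheroniConstant * x - log x +
      ∑' i : ℕ, (x / ((i : ℝ) + 1) - log (1 + x / ((i : ℝ) + 1))))) := by
    refine Tendsto.add (Tendsto.sub_const (Tendsto.mul_const x tendsto_harmonic_sub_log.neg) _) ?_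
    exact (summable_g hx.le).hasSum.tendsto_sum_nat
  refine tendsto_nhds_unique h1 (h2.congr ?_)
  intro n
  unfold BohrMollerup.logGammaSeq
  rw [Finset.sum_range_succ' (fun m : ℕ => log (x + (m : ℝ)))]
  have h3 : ∀ n : ℕ, log (n.factorial : ℝ) - ∑ m ∈ Finset.range n, log (x + ((m + 1 : ℕ) : ℝ)) =
      - ∑ m ∈ Finset.range n, log (1 + x / ((m : ℝ) + 1)) := by
    intro n
    induction n with
    | zero => simp
    | succ n ih =>
      rw [Finset.sum_range_succ, Finset.sum_range_succ, Nat.factorial_succ]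
      push_cast at ih ⊢
      rw [log_mul (by positivity) (by positivity)]
      have h4 : log (1 + x / ((n : ℝ) + 1)) = log (x + ((n : ℝ) + 1)) - log ((n : ℝ) + 1) := by
        rw [← log_div (by positivity) (by positivity)]
        congr 1
        field_simp
        ring
      linarith
  have h5 : (harmonic n : ℝ) * x = ∑ m ∈ Finset.range n, x / ((m : ℝ) + 1) := by
    unfold harmonic
    push_cast
    rw [Finset.sum_mul]
    apply Finset.sum_congr rfl
    intro m _
    rw [div_eq_mul_inv, mul_comm]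
  rw [Finset.sum_sub_distrib, ← h5]
  have h6 := h3 n
  simp only [Nat.cast_zero, add_zero]
  linarith

lemma hasDerivAt_log_Gamma {x : ℝ} (hx : 0 < x) :
    HasDerivAt (fun y => log (Gamma y)) (psi x) x := by
  have key := hasDerivAt_tsum_of_isPreconnected
    (g := fun (i : ℕ) (y : ℝ) => y / ((i : ℝ) + 1) - log (1 + y / ((i : ℝ) + 1)))
    (g' := fun (i : ℕ) (y : ℝ) => 1 / ((i : ℝ) + 1) - 1 / ((i : ℝ) + 1 + y))
    (u := fun (i : ℕ) => (x + 1) * (1 / ((i : ℝ) + 1) ^ 2))
    (t := Ioo 0 (x + 1)) (y := x) (y₀ := x)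
    ((summable_T 2 le_rfl one_pos).mul_left _) isOpen_Ioo isPreconnected_Ioo ?_ ?_ ?_
    (summable_g hx.le) ?_
  · have h1 : HasDerivAt (fun y => -eulerMascheroniConstant * y - log y)
        (-eulerMascheroniConstant - 1 / x) x := by
      have := ((hasDerivAt_id x).const_mul (-eulerMascheroniConstant)).fun_sub
        (hasDerivAt_log hx.ne')
      simpa using this
    have h2 := h1.add key
    refine h2.congr_of_eventuallyEq ?_
    filter_upwards [Ioi_mem_nhds hx] with y hy
    exact log_Gamma_eq hy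
  · intro i y hy
    have hy0 : 0 < y := hy.1
    have hi : (0 : ℝ) < (i : ℝ) + 1 := by positivity
    have h1 : HasDerivAt (fun y : ℝ => y / ((i : ℝ) + 1)) (1 / ((i : ℝ) + 1)) y :=
      (hasDerivAt_id y).div_const _
    have h2 : HasDerivAt (fun y : ℝ => 1 + y / ((i : ℝ) + 1)) (1 / ((i : ℝ) + 1)) y :=
      h1.const_add 1
    have h3 := h1.fun_sub (h2.log (by positivity))
    refine h3.congr_deriv ?_
    field_simp
  · intro i y hy
    have hy0 : 0 < y := hy.1
    have hy1 : y < x + 1 := hy.2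
    have hi : (0 : ℝ) < (i : ℝ) + 1 := by positivity
    have h1 : 1 / ((i : ℝ) + 1) - 1 / ((i : ℝ) + 1 + y) =
        y / (((i : ℝ) + 1) * ((i : ℝ) + 1 + y)) := by
      field_simp
      ring
    rw [h1, Real.norm_eq_abs, abs_of_nonneg (by positivity), mul_one_div]
    apply div_le_div₀ (by linarith) hy1.le (by positivity)
    nlinarith
  · exact ⟨hx, by linarith⟩
  · exact ⟨hx, by linarith⟩

lemma hasDerivAt_Gamma {x : ℝ} (hx : 0 < x) : HasDerivAt Gamma (psi x * Gamma x) x := by
  have h1 := (hasDerivAt_log_Gamma hx).exp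
  have h2 : exp (log (Gamma x)) * psi x = psi x * Gamma x := by
    rw [exp_log (Gamma_pos_of_pos hx), mul_comm]
  rw [h2] at h1
  refine h1.congr_of_eventuallyEq ?_
  filter_upwards [Ioi_mem_nhds hx] with y hy
  rw [exp_log (Gamma_pos_of_pos hy)]

lemma hasDerivAt_psi {x : ℝ} (hx : 0 < x) : HasDerivAt psi (T 2 x) x := by
  have hs : Summable (fun i : ℕ => 1 / ((i : ℝ) + 1) - 1 / ((i : ℝ) + 1 + x)) := by
    refine Summable.of_nonneg_of_le (fun i => ?_) (fun i => ?_)
      ((summable_T 2 le_rfl one_pos).mul_left x)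
    · rw [sub_nonneg]
      apply one_div_le_one_div_of_le (by positivity) (by linarith)
    · have h1 : 1 / ((i : ℝ) + 1) - 1 / ((i : ℝ) + 1 + x) =
          x / (((i : ℝ) + 1) * ((i : ℝ) + 1 + x)) := by
        field_simp
        ring
      rw [h1, mul_one_div]
      apply div_le_div₀ hx.le le_rfl (by positivity)
      have : (0 : ℝ) < (i : ℝ) + 1 := by positivity
      nlinarith
  have key := hasDerivAt_tsum_of_isPreconnected
    (g := fun (i : ℕ) (y : ℝ) => 1 / ((i : ℝ) + 1) - 1 / ((i : ℝ) + 1 + y))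
    (g' := fun (i : ℕ) (y : ℝ) => 1 / ((i : ℝ) + 1 + y) ^ 2)
    (u := fun (i : ℕ) => (1 / ((i : ℝ) + 1) ^ 2))
    (t := Ioi 0) (y := x) (y₀ := x)
    (summable_T 2 le_rfl one_pos) isOpen_Ioi isPreconnected_Ioi ?_ ?_ hx hs hx
  · have h1 : HasDerivAt (fun y => -eulerMascheroniConstant - 1 / y) (1 / x ^ 2) x := by
      have := (hasDerivAt_inv hx.ne').const_sub (-eulerMascheroniConstant)
      simpa [one_div] using this
    have h2 := h1.add key
    have h3 : 1 / x ^ 2 + ∑' i : ℕ, 1 / ((i : ℝ) + 1 + x) ^ 2 = T 2 x := by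
      unfold T
      rw [(summable_T 2 le_rfl hx).tsum_eq_zero_add]
      congr 1
      · simp
      · apply tsum_congr
        intro i
        push_cast
        ring_nf
    rw [h3] at h2
    exact h2
  · intro i y hy
    have hy0 : 0 < y := hy
    have hi : (0 : ℝ) < (i : ℝ) + 1 + y := by positivity
    have h1 : HasDerivAt (fun y : ℝ => (i : ℝ) + 1 + y) 1 y := by
      simpa using (hasDerivAt_id y).const_add ((i : ℝ) + 1)
    have h2 := (h1.inv hi.ne').const_sub (1 / ((i : ℝ) + 1))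
    simp only [one_div] at h2 ⊢
    refine h2.congr_deriv ?_
    field_simp
  · intro i y hy
    have hy0 : 0 < y := hy
    rw [Real.norm_eq_abs, abs_of_nonneg (by positivity)]
    apply one_div_le_one_div_of_le (by positivity)
    apply pow_le_pow_left₀ (by positivity)
    linarith

/-- One step: if the `k`-th derivative is `E * Gamma` on `(0, ∞)` then the next one is
`(E' + psi * E) * Gamma`. -/
lemma iteratedDeriv_step {k : ℕ} {E E' : ℝ → ℝ}
    (h : ∀ x, 0 < x → iteratedDeriv k Gamma x = E x * Gamma x)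
    (hE : ∀ x, 0 < x → HasDerivAt E (E' x) x) {x : ℝ} (hx : 0 < x) :
    iteratedDeriv (k + 1) Gamma x = (E' x + psi x * E x) * Gamma x := by
  rw [iteratedDeriv_succ]
  have h1 : iteratedDeriv k Gamma =ᶠ[𝓝 x] fun y => E y * Gamma y := by
    filter_upwards [Ioi_mem_nhds hx] with y hy
    exact h y hy
  rw [h1.deriv_eq, ((hE x hx).fun_mul (hasDerivAt_Gamma hx)).deriv]
  ring

lemma iteratedDeriv_Gamma_one {x : ℝ} (hx : 0 < x) :
    iteratedDeriv 1 Gamma x = psi x * Gamma x := by
  rw [iteratedDeriv_one, (hasDerivAt_Gamma hx).deriv]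

lemma iteratedDeriv_Gamma_two {x : ℝ} (hx : 0 < x) :
    iteratedDeriv 2 Gamma x = (T 2 x + psi x ^ 2) * Gamma x := by
  rw [iteratedDeriv_step (fun x hx => iteratedDeriv_Gamma_one hx)
    (fun x hx => hasDerivAt_psi hx) hx]
  ring

lemma iteratedDeriv_Gamma_three {x : ℝ} (hx : 0 < x) :
    iteratedDeriv 3 Gamma x = (-2 * T 3 x + 3 * psi x * T 2 x + psi x ^ 3) * Gamma x := by
  rw [iteratedDeriv_step (E' := fun x => -2 * T 3 x + 2 * psi x * T 2 x)
    (fun x hx => iteratedDeriv_Gamma_two hx) (fun x hx => ?_) hx]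
  · ring
  · have h1 := (hasDerivAt_T 2 le_rfl hx).fun_add ((hasDerivAt_psi hx).fun_pow 2)
    refine h1.congr_deriv ?_
    push_cast
    ring

lemma iteratedDeriv_Gamma_four {x : ℝ} (hx : 0 < x) :
    iteratedDeriv 4 Gamma x = (6 * T 4 x - 8 * psi x * T 3 x + 3 * T 2 x ^ 2 +
      6 * psi x ^ 2 * T 2 x + psi x ^ 4) * Gamma x := by
  rw [iteratedDeriv_step (E' := fun x => 6 * T 4 x + 3 * (T 2 x * T 2 x + psi x * (-2 * T 3 x)) +
    3 * psi x ^ 2 * T 2 x) (fun x hx => iteratedDeriv_Gamma_three hx) (fun x hx => ?_) hx]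
  · ring
  · have h1 := (((hasDerivAt_T 3 (by norm_num) hx).const_mul (-2)).fun_add
      (((hasDerivAt_psi hx).const_mul 3).fun_mul (hasDerivAt_T 2 le_rfl hx))).fun_add
      ((hasDerivAt_psi hx).fun_pow 3)
    refine h1.congr_deriv ?_
    push_cast
    ring

lemma T_succ (k : ℕ) (hk : 2 ≤ k) {x : ℝ} (hx : 0 < x) : T k x = 1 / x ^ k + T k (x + 1) := by
  unfold T
  rw [(summable_T k hk hx).tsum_eq_zero_add]
  congr 1
  · simp
  · apply tsum_congr
    intro i
    push_cast
    ring_nf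

/-- The partial sums `∑_{i=1}^n i⁻ʲ`, as rational numbers. -/
def part (j : ℕ) : ℕ → ℚ
  | 0 => 0
  | n + 1 => part j n + 1 / ((n : ℚ) + 1) ^ j

lemma T_nat (k n : ℕ) (hk : 2 ≤ k) : T k ((n : ℝ) + 1) = T k 1 - (part k n : ℝ) := by
  induction n with
  | zero => simp [part]
  | succ n ih =>
    have h := T_succ k hk (x := (n : ℝ) + 1) (by positivity)
    rw [ih] at h
    simp only [part]
    push_cast at h ⊢
    linarith

lemma psi_nat (n : ℕ) : psi ((n : ℝ) + 1) = -eulerMascheroniConstant + (part 1 n : ℝ) := by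
  have h1 := (Real.hasDerivAt_Gamma_nat n).unique (hasDerivAt_Gamma (by positivity))
  have h2 : Gamma ((n : ℝ) + 1) = n.factorial := Real.Gamma_nat_eq_factorial n
  rw [h2] at h1
  have h3 : (harmonic n : ℝ) = (part 1 n : ℝ) := by
    norm_cast
    induction n with
    | zero => simp [part]
    | succ n ih =>
      rw [harmonic_succ, part, ← ih]
      · push_cast
        simp
      · exact (Real.hasDerivAt_Gamma_nat n).unique (hasDerivAt_Gamma (by positivity)) |>.trans
          (by rw [Real.Gamma_nat_eq_factorial])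
      · exact Real.Gamma_nat_eq_factorial n
  have h4 : (n.factorial : ℝ) ≠ 0 := by positivity
  rw [← h3]
  have h5 : (n.factorial : ℝ) * (-eulerMascheroniConstant + (harmonic n : ℝ)) =
    n.factorial * psi ((n : ℝ) + 1) := by rw [h1]; ring
  exact (mul_left_cancel₀ h4 h5).symm

lemma T_two_one : T 2 1 = π ^ 2 / 6 := by
  have h := hasSum_zeta_two.tsum_eq
  have hs : Summable (fun i : ℕ => 1 / ((i : ℝ)) ^ 2) := Real.summable_one_div_nat_pow.2 (by omega)
  rw [hs.tsum_eq_zero_add] at h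
  rw [← h]
  unfold T
  simp only [Nat.cast_zero]
  rw [show (1 : ℝ) / 0 ^ 2 = 0 by simp, zero_add]
  apply tsum_congr
  intro i
  push_cast
  rfl

lemma T_four_one : T 4 1 = π ^ 4 / 90 := by
  have h := hasSum_zeta_four.tsum_eq
  have hs : Summable (fun i : ℕ => 1 / ((i : ℝ)) ^ 4) := Real.summable_one_div_nat_pow.2 (by omega)
  rw [hs.tsum_eq_zero_add] at h
  rw [← h]
  unfold T
  simp only [Nat.cast_zero]
  rw [show (1 : ℝ) / 0 ^ 4 = 0 by simp, zero_add]
  apply tsum_congr
  intro i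
  push_cast
  rfl

end Pool.Agent.Lib.GammaDerivs
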