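import Mathlib
import Pool.Agent.Lib.AlgElim

/-! Weighted places: if some of finitely many complex numbers is transcendental, there is a
valuation ring of `ℂ` containing all algebraic numbers, and a scaling of the numbers by powers of
an element of the maximal ideal (with prescribed positive weights), such that the scaled numbers
lie in the ring and not all of them in the maximal ideal. -/

namespace Pool.Agent.Lib.WeightedPlace

/-- The ring of algebraic numbers in `ℂ`. -/
noncomputable def Qbar : Subring ℂ := (integralClosure ℚ ℂ).toSubring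

lemma mem_Qbar {x : ℂ} : x ∈ Qbar ↔ IsAlgebraic ℚ x := by
  rw [isAlgebraic_iff_isIntegral]
  rfl

instance : IsIntegrallyClosedIn Qbar ℂ := by
  rw [Subring.isIntegrallyClosedIn_iff]
  intro x hx
  rw [mem_Qbar, isAlgebraic_iff_isIntegral]
  have h1 : IsIntegral (integralClosure ℚ ℂ) x := hx
  exact isIntegral_trans x h1

/-- The data given by a weighted place. -/
structure Place {ι : Type*} (x : ι → ℂ) (w : ι → ℕ) where
  /-- the valuation ring -/
  V : ValuationSubring ℂ
  /-- the scaling parameter -/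
  t : ℂ
  alg : ∀ a : ℂ, IsAlgebraic ℚ a → a ∈ V
  t_mem : t ∈ V
  t_lt : V.valuation t < 1
  t_ne : t ≠ 0
  mem : ∀ i, x i * t ^ w i ∈ V
  unit : ∃ i, V.valuation (x i * t ^ w i) = 1

theorem exists_place {ι : Type*} [Finite ι] (x : ι → ℂ) (w : ι → ℕ) (hw : ∀ i, 0 < w i)
    (hx : ∃ i, ¬ IsAlgebraic ℚ (x i)) : Nonempty (Place x w) := by
  classical
  have := Fintype.ofFinite ι
  obtain ⟨i, hi⟩ := hx
  have hi' : x i ∉ Qbar := fun h => hi (mem_Qbar.1 h)
  obtain ⟨V, hV, hxV⟩ := Subring.exists_le_valuationSubring_of_isIntegrallyClosedIn hi'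
  set v := V.valuation with hv
  have hvi : 1 < v (x i) := by
    rw [← not_le, V.valuation_le_one_iff]
    exact hxV
  set N := ∏ j, w j with hN
  have hN0 : 0 < N := Finset.prod_pos fun j _ => hw j
  have hdiv : ∀ j, w j * (N / w j) = N := fun j =>
    Nat.mul_div_cancel' (Finset.dvd_prod_of_mem w (Finset.mem_univ j))
  have hdiv0 : ∀ j, N / w j ≠ 0 := by
    intro j h
    have := hdiv j
    rw [h, mul_zero] at this
    omega
  obtain ⟨j, -, hj⟩ := Finset.exists_max_image Finset.univ (fun j => v (x j) ^ (N / w j))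
    ⟨i, Finset.mem_univ i⟩
  have hvj : 1 < v (x j) := by
    have h1 := hj i (Finset.mem_univ i)
    have h2 : 1 < v (x i) ^ (N / w i) := one_lt_pow₀ hvi (hdiv0 i)
    by_contra h3
    have h4 : v (x j) ^ (N / w j) ≤ 1 := pow_le_one₀ zero_le (not_lt.1 h3)
    exact absurd (h2.trans_le h1) (not_lt.2 h4)
  obtain ⟨u, hu⟩ := IsAlgClosed.exists_pow_nat_eq (x j) (hw j)
  have hvu : 1 < v u := by
    by_contra h3
    have h4 : v u ^ w j ≤ 1 := pow_le_one₀ zero_le (not_lt.1 h3)
    rw [← map_pow, hu] at h4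
    exact absurd hvj (not_lt.2 h4)
  have hu0 : u ≠ 0 := by
    rintro rfl
    simp at hvu
  have hvt : v u⁻¹ < 1 := by
    rw [map_inv₀]
    exact inv_lt_one_of_one_lt₀ hvu
  have key : v (x j * u⁻¹ ^ w j) = 1 := by
    rw [← hu, ← mul_pow, mul_inv_cancel₀ hu0, one_pow, map_one]
  refine ⟨⟨V, u⁻¹, fun a ha => hV (mem_Qbar.2 ha), ?_, hvt, inv_ne_zero hu0, fun l => ?_, ⟨j, key⟩⟩⟩
  · rw [← V.valuation_le_one_iff]
    exact hvt.le
  · rw [← V.valuation_le_one_iff]
    have h1 := hj l (Finset.mem_univ l)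
    have h2 : v (x l * u⁻¹ ^ w l) ^ (N / w l) ≤ 1 := by
      rw [map_mul, mul_pow, map_pow, ← pow_mul, hdiv l]
      have h3 : v (x j * u⁻¹ ^ w j) ^ (N / w j) = 1 := by rw [key, one_pow]
      rw [map_mul, mul_pow, map_pow, ← pow_mul, hdiv j] at h3
      rw [← h3]
      exact mul_le_mul_left h1 _
    by_contra h3
    have h4 := one_lt_pow₀ (not_le.1 h3) (hdiv0 l)
    exact absurd h2 (not_le.2 h4)

namespace Place

variable {ι : Type*} {x : ι → ℂ} {w : ι → ℕ} (P : Place x w)

/-- The residue field. -/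
abbrev kk : Type := IsLocalRing.ResidueField P.V

/-- The residue map. -/
noncomputable def res : P.V →+* P.kk := IsLocalRing.residue P.V

lemma res_eq_zero_iff (a : P.V) : P.res a = 0 ↔ P.V.valuation (a : ℂ) < 1 := by
  unfold res
  rw [IsLocalRing.residue_eq_zero_iff, ValuationSubring.valuation_lt_one_iff]

/-- The scaling parameter as an element of the valuation ring. -/
def T : P.V := ⟨P.t, P.t_mem⟩

lemma res_T : P.res P.T = 0 := by
  rw [res_eq_zero_iff]
  exact P.t_lt

/-- The scaled numbers as elements of the valuation ring. -/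
def X (i : ι) : P.V := ⟨x i * P.t ^ w i, P.mem i⟩

lemma exists_res_ne : ∃ i, P.res (P.X i) ≠ 0 := by
  obtain ⟨i, hi⟩ := P.unit
  refine ⟨i, ?_⟩
  rw [Ne, res_eq_zero_iff]
  change ¬ P.V.valuation (x i * P.t ^ w i) < 1
  rw [hi]
  exact lt_irrefl _

/-- An algebraic number as an element of the valuation ring. -/
def A (a : ℂ) (ha : IsAlgebraic ℚ a) : P.V := ⟨a, P.alg a ha⟩

lemma res_A_eq_zero {a : ℂ} (ha : IsAlgebraic ℚ a) (h : P.res (P.A a ha) = 0) : a = 0 := by
  by_contra h0
  have h1 : P.A a ha * P.A a⁻¹ ha.inv = 1 := by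
    apply Subtype.ext
    change a * a⁻¹ = 1
    exact mul_inv_cancel₀ h0
  have h2 := congrArg P.res h1
  rw [map_mul, h, zero_mul, map_one] at h2
  exact zero_ne_one h2

lemma res_X_of_alg {i : ι} (hw : 0 < w i) (h : IsAlgebraic ℚ (x i)) : P.res (P.X i) = 0 := by
  have h1 : P.X i = P.A (x i) h * P.T ^ w i := by
    apply Subtype.ext
    simp [X, A, T]
  rw [h1, map_mul, map_pow, res_T, zero_pow hw.ne', mul_zero]

instance : CharZero P.kk := by
  refine charZero_of_inj_zero fun n hn => ?_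
  by_contra h0
  have h1 : P.res (P.A (n : ℂ) (AlgElim.isAlgebraic_nat n)) = 0 := by
    rw [← hn]
    have : P.A (n : ℂ) (AlgElim.isAlgebraic_nat n) = (n : P.V) := by
      apply Subtype.ext
      simp [A]
    rw [this, map_natCast]
  have := P.res_A_eq_zero _ h1
  exact h0 (by exact_mod_cast this)

end Place

end Pool.Agent.Lib.WeightedPlace
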