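import Mathlib
import Pool.Agent.Lib.GammaDerivs

/-! The logarithmic moments `m k = ∫_0^∞ e⁻ᵗ (log t)ᵏ dt` of the exponential distribution. -/

open Real Filter Topology Set MeasureTheory Asymptotics

namespace Pool.Agent.Lib.GammaMoments

/-- Functions on `(0, ∞)` whose Mellin transform converges on `re s > 0`, together with those of
all `(log t)ᵏ f t`. -/
structure Good (f : ℝ → ℂ) : Prop where
  loc : LocallyIntegrableOn f (Ioi 0)
  top : ∀ a : ℝ, f =O[atTop] (fun x => x ^ (-a))
  bot : ∀ b : ℝ, 0 < b → f =O[𝓝[>] 0] (fun x => x ^ (-b))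

lemma Good.log_smul {f : ℝ → ℂ} (h : Good f) : Good (fun t => log t • f t) where
  loc := h.loc.continuousOn_smul isOpen_Ioi.isLocallyClosed
    (continuousOn_log.mono (subset_compl_singleton_iff.mpr self_notMem_Ioi))
  top a := isBigO_rpow_top_log_smul (show a < a + 1 by linarith) (h.top (a + 1))
  bot b hb := isBigO_rpow_zero_log_smul (show b / 2 < b by linarith) (h.bot (b / 2) (by linarith))

lemma Good.pow_smul {f : ℝ → ℂ} (h : Good f) (k : ℕ) : Good (fun t => (log t) ^ k • f t) := by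
  induction k with
  | zero => simpa using h
  | succ k ih =>
    have := ih.log_smul
    simpa only [smul_smul, ← pow_succ'] using this

lemma Good.conv {f : ℝ → ℂ} (h : Good f) {s : ℂ} (hs : 0 < s.re) : MellinConvergent f s :=
  mellinConvergent_of_isBigO_rpow h.loc (h.top (s.re + 1)) (by linarith)
    (h.bot (s.re / 2) (by linarith)) (by linarith)

lemma Good.hasDerivAt {f : ℝ → ℂ} (h : Good f) (k : ℕ) {s : ℂ} (hs : 0 < s.re) :
    HasDerivAt (mellin (fun t => (log t) ^ k • f t)) (mellin (fun t => (log t) ^ (k + 1) • f t) s)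
      s := by
  have h1 := (mellin_hasDerivAt_of_isBigO_rpow (h.pow_smul k).loc ((h.pow_smul k).top (s.re + 1))
    (by linarith) ((h.pow_smul k).bot (s.re / 2) (by linarith)) (by linarith)).2
  simpa only [smul_smul, ← pow_succ'] using h1

lemma good_exp : Good (fun t => ((exp (-t) : ℝ) : ℂ)) where
  loc := by
    apply (Continuous.continuousOn ?_).locallyIntegrableOn measurableSet_Ioi
    fun_prop
  top a := by
    refine IsBigO.of_norm_left ?_
    simp only [Complex.norm_real]
    refine IsBigO.norm_left ?_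
    exact (isLittleO_exp_neg_mul_rpow_atTop one_pos (-a)).isBigO.congr_left (by simp)
  bot b hb := by
    have h1 : (fun t : ℝ => ((exp (-t) : ℝ) : ℂ)) =O[𝓝[>] 0] (fun _ => (1 : ℝ)) := by
      apply IsBigO.of_bound 1
      filter_upwards [self_mem_nhdsWithin] with t ht
      have : (0 : ℝ) < t := ht
      rw [Complex.norm_real, norm_of_nonneg (exp_pos _).le]
      simp only [norm_one, mul_one]
      rw [exp_le_one_iff]
      linarith
    refine h1.trans ?_
    apply IsBigO.of_bound 1
    filter_upwards [Ioo_mem_nhdsGT (show (0 : ℝ) < 1 by norm_num)] with t ht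
    rw [norm_one, one_mul, norm_of_nonneg (rpow_nonneg ht.1.le _)]
    exact one_le_rpow_of_pos_of_le_one_of_nonpos ht.1 ht.2.le (by linarith)

lemma good_ind : Good (indicator (Ioc 0 1) (fun _ => 1 : ℝ → ℂ)) where
  loc := by
    apply LocallyIntegrable.locallyIntegrableOn
    apply Integrable.locallyIntegrable
    rw [integrable_indicator_iff measurableSet_Ioc]
    simp
  top a := by
    apply IsBigO.of_bound 0
    filter_upwards [eventually_gt_atTop 1] with t ht
    rw [indicator_of_notMem]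
    · simp
    · intro h
      exact absurd h.2 (not_le.2 ht)
  bot b hb := by
    apply IsBigO.of_bound 1
    filter_upwards [Ioo_mem_nhdsGT (show (0 : ℝ) < 1 by norm_num)] with t ht
    rw [indicator_of_mem (show t ∈ Ioc (0 : ℝ) 1 from ⟨ht.1, ht.2.le⟩)]
    rw [norm_one, one_mul, norm_of_nonneg (rpow_nonneg ht.1.le _)]
    exact one_le_rpow_of_pos_of_le_one_of_nonpos ht.1 ht.2.le (by linarith)

/-- `m k = ∫_0^∞ e⁻ᵗ (log t)ᵏ dt`. -/
noncomputable def m (k : ℕ) : ℝ := ∫ t in Ioi (0 : ℝ), exp (-t) * (log t) ^ k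

/-- `delta k = ∫_0^∞ e⁻ᵗ (log (1 + t))ᵏ dt`; `delta 1` is Gompertz's constant. -/
noncomputable def delta (k : ℕ) : ℝ := ∫ t in Ioi (0 : ℝ), exp (-t) * (log (1 + t)) ^ k

/-- The real Mellin-type integral. -/
noncomputable def M (k : ℕ) (x : ℝ) : ℝ :=
  ∫ t in Ioi (0 : ℝ), t ^ (x - 1) * (exp (-t) * (log t) ^ k)

lemma mellin_ofReal_eq (k : ℕ) (x : ℝ) :
    mellin (fun t => (log t) ^ k • ((exp (-t) : ℝ) : ℂ)) (x : ℂ) = (M k x : ℂ) := by
  unfold mellin M
  rw [← integral_complex_ofReal]
  apply setIntegral_congr_fun measurableSet_Ioi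
  intro t ht
  have ht' : (0 : ℝ) < t := ht
  simp only [smul_eq_mul, Complex.real_smul]
  rw [← Complex.ofReal_one, ← Complex.ofReal_sub, ← Complex.ofReal_cpow ht'.le]
  push_cast
  ring

lemma M_zero {x : ℝ} (hx : 0 < x) : M 0 x = Gamma x := by
  rw [Gamma_eq_integral hx]
  unfold M
  apply setIntegral_congr_fun measurableSet_Ioi
  intro t _
  simp only [pow_zero, mul_one]
  ring

lemma hasDerivAt_M (k : ℕ) {x : ℝ} (hx : 0 < x) : HasDerivAt (M k) (M (k + 1) x) x := by
  have h1 := good_exp.hasDerivAt k (s := (x : ℂ)) (by simpa using hx)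
  have h2 := h1.real_of_complex
  rw [mellin_ofReal_eq, Complex.ofReal_re] at h2
  refine h2.congr_of_eventuallyEq (Eventually.of_forall fun y => ?_)
  simp only
  rw [mellin_ofReal_eq, Complex.ofReal_re]

lemma iteratedDeriv_Gamma (k : ℕ) {x : ℝ} (hx : 0 < x) : iteratedDeriv k Gamma x = M k x := by
  induction k generalizing x with
  | zero => rw [iteratedDeriv_zero, M_zero hx]
  | succ k ih =>
    rw [iteratedDeriv_succ]
    have h1 : iteratedDeriv k Gamma =ᶠ[𝓝 x] M k := by
      filter_upwards [Ioi_mem_nhds hx] with y hy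
      exact ih hy
    rw [h1.deriv_eq, (hasDerivAt_M k hx).deriv]

lemma M_one (k : ℕ) : M k 1 = m k := by
  unfold M m
  apply setIntegral_congr_fun measurableSet_Ioi
  intro t _
  simp

/-- The `k`-th derivative of the Gamma function at `1` is `∫_0^∞ e⁻ᵗ (log t)ᵏ dt`. -/
theorem iteratedDeriv_Gamma_at_one (k : ℕ) : iteratedDeriv k Gamma 1 = m k := by
  rw [iteratedDeriv_Gamma k one_pos, M_one]

theorem m_one : m 1 = -eulerMascheroniConstant := by
  rw [← iteratedDeriv_Gamma_at_one, GammaDerivs.iteratedDeriv_Gamma_one one_pos]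
  have := GammaDerivs.psi_nat 0
  simp only [Nat.cast_zero, zero_add, GammaDerivs.part, Rat.cast_zero, add_zero] at this
  rw [this, Gamma_one, mul_one]

theorem m_two : m 2 = π ^ 2 / 6 + eulerMascheroniConstant ^ 2 := by
  rw [← iteratedDeriv_Gamma_at_one, GammaDerivs.iteratedDeriv_Gamma_two one_pos]
  have := GammaDerivs.psi_nat 0
  simp only [Nat.cast_zero, zero_add, GammaDerivs.part, Rat.cast_zero, add_zero] at this
  rw [this, Gamma_one, GammaDerivs.T_two_one]
  ring

/-- `m 3 = -2 ζ(3) - γ π² / 2 - γ³`, with `ζ(3) = ∑_{i ≥ 0} 1 / (i + 1)³`. -/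
theorem m_three : m 3 = -2 * (∑' i : ℕ, 1 / ((i : ℝ) + 1) ^ 3) -
    eulerMascheroniConstant * π ^ 2 / 2 - eulerMascheroniConstant ^ 3 := by
  rw [← iteratedDeriv_Gamma_at_one, GammaDerivs.iteratedDeriv_Gamma_three one_pos]
  have := GammaDerivs.psi_nat 0
  simp only [Nat.cast_zero, zero_add, GammaDerivs.part, Rat.cast_zero, add_zero] at this
  rw [this, Gamma_one, GammaDerivs.T_two_one]
  unfold GammaDerivs.T
  ring

theorem m_two_sub : m 2 - m 1 ^ 2 = π ^ 2 / 6 := by
  rw [m_two, m_one]; ring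

theorem m_three_cumulant :
    m 3 - 3 * m 1 * m 2 + 2 * m 1 ^ 3 = -2 * (∑' i : ℕ, 1 / ((i : ℝ) + 1) ^ 3) := by
  rw [m_two, m_one, m_three]; ring

/-! ### Splitting the moments at `1` -/

lemma mellin_ind (k : ℕ) {s : ℂ} (hs : 0 < s.re) :
    mellin (fun t => (log t) ^ k • (indicator (Ioc 0 1) (fun _ => 1 : ℝ → ℂ)) t) s =
      (-1) ^ k * k.factorial / s ^ (k + 1) := by
  induction k generalizing s with
  | zero =>
    have := (hasMellin_one_Ioc hs).2
    simp only [pow_zero, one_smul, Nat.factorial_zero, Nat.cast_one, mul_one, zero_add, pow_one]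
    exact this
  | succ k ih =>
    have hs0 : s ≠ 0 := by
      rintro rfl
      simp at hs
    have h1 := good_ind.hasDerivAt k hs
    have h2 : mellin (fun t => (log t) ^ k • (indicator (Ioc 0 1) (fun _ => 1 : ℝ → ℂ)) t) =ᶠ[𝓝 s]
        fun z => (-1) ^ k * k.factorial / z ^ (k + 1) := by
      have : {z : ℂ | 0 < z.re} ∈ 𝓝 s := (isOpen_lt continuous_const Complex.continuous_re).mem_nhds hs
      filter_upwards [this] with z hz
      exact ih hz
    have h3 : HasDerivAt (fun z : ℂ => (-1) ^ k * k.factorial / z ^ (k + 1))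
        ((-1) ^ (k + 1) * (k + 1).factorial / s ^ (k + 1 + 1)) s := by
      have h4 := ((hasDerivAt_pow (k + 1) s).inv (pow_ne_zero _ hs0)).const_mul
        ((-1) ^ k * (k.factorial : ℂ))
      simp only [div_eq_mul_inv]
      refine h4.congr_deriv ?_
      rw [Nat.factorial_succ]
      push_cast
      try simp only [Nat.add_sub_cancel]
      field_simp
      ring
    exact (h1.congr_of_eventuallyEq h2.symm).unique h3

lemma ind_integrand (k n : ℕ) (t : ℝ) (ht : t ∈ Ioi (0 : ℝ)) :
    (t : ℂ) ^ (((n : ℂ) + 1) - 1) • ((log t) ^ k • (indicator (Ioc 0 1) (fun _ => 1 : ℝ → ℂ)) t) =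
      ((indicator (Ioc 0 1) (fun t => t ^ n * (log t) ^ k) t : ℝ) : ℂ) := by
  by_cases h : t ∈ Ioc (0 : ℝ) 1
  · rw [indicator_of_mem h, indicator_of_mem h]
    simp only [add_sub_cancel_right, Complex.cpow_natCast, Complex.real_smul, smul_eq_mul]
    push_cast
    ring
  · rw [indicator_of_notMem h, indicator_of_notMem h]
    simp

lemma integrableOn_pow_mul_log (k n : ℕ) :
    IntegrableOn (fun t : ℝ => t ^ n * (log t) ^ k) (Ioc 0 1) := by
  have h1 := (good_ind.pow_smul k).conv (s := (n : ℂ) + 1) (by simp; positivity)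
  unfold MellinConvergent at h1
  have h2 := (integrableOn_congr_fun (ind_integrand k n) measurableSet_Ioi).1 h1
  have h3 := h2.re
  simp only [RCLike.re_eq_complex_re, Complex.ofReal_re] at h3
  rw [integrable_indicator_iff measurableSet_Ioc] at h3
  unfold IntegrableOn at h3
  rw [Measure.restrict_restrict_of_subset Ioc_subset_Ioi_self] at h3
  exact h3

lemma integral_pow_mul_log (k n : ℕ) :
    ∫ t in Ioc (0 : ℝ) 1, t ^ n * (log t) ^ k = (-1) ^ k * k.factorial / ((n : ℝ) + 1) ^ (k + 1) := by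
  have h1 := mellin_ind k (s := (n : ℂ) + 1) (by simp; positivity)
  unfold mellin at h1
  rw [setIntegral_congr_fun measurableSet_Ioi (ind_integrand k n), integral_complex_ofReal,
    integral_indicator measurableSet_Ioc,
    Measure.restrict_restrict_of_subset Ioc_subset_Ioi_self] at h1
  exact_mod_cast h1

lemma integral_norm_pow_mul_log (k n : ℕ) :
    ∫ t in Ioc (0 : ℝ) 1, ‖t ^ n * (log t) ^ k‖ = k.factorial / ((n : ℝ) + 1) ^ (k + 1) := by
  have h : ∀ t ∈ Ioc (0 : ℝ) 1, ‖t ^ n * (log t) ^ k‖ = (-1) ^ k * (t ^ n * (log t) ^ k) := by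
    intro t ht
    have h1 : log t ≤ 0 := log_nonpos ht.1.le ht.2
    rw [norm_mul, norm_pow, norm_pow, Real.norm_eq_abs, Real.norm_eq_abs, abs_of_pos ht.1,
      abs_of_nonpos h1, neg_pow]
    ring
  rw [setIntegral_congr_fun measurableSet_Ioc h, integral_const_mul, integral_pow_mul_log]
  rw [← mul_div_assoc, ← mul_assoc, ← mul_pow]
  norm_num

lemma integral_Ioc_exp_log (k : ℕ) :
    ∫ t in Ioc (0 : ℝ) 1, exp (-t) * (log t) ^ k =
      (-1) ^ k * k.factorial * ∑' n : ℕ, (-1) ^ n / ((n.factorial : ℝ) * ((n : ℝ) + 1) ^ (k + 1)) := by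
  have h1 : ∀ n : ℕ, Integrable (fun t : ℝ => (-1) ^ n / (n.factorial : ℝ) * (t ^ n * (log t) ^ k))
      (volume.restrict (Ioc (0 : ℝ) 1)) := fun n => (integrableOn_pow_mul_log k n).const_mul _
  have h2 : Summable fun n : ℕ => ∫ t in Ioc (0 : ℝ) 1,
      ‖(-1) ^ n / (n.factorial : ℝ) * (t ^ n * (log t) ^ k)‖ := by
    have : ∀ n : ℕ, ∫ t in Ioc (0 : ℝ) 1, ‖(-1) ^ n / (n.factorial : ℝ) * (t ^ n * (log t) ^ k)‖ =
        1 / (n.factorial : ℝ) * (k.factorial / ((n : ℝ) + 1) ^ (k + 1)) := by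
      intro n
      simp only [norm_mul _ (_ * _)]
      rw [integral_const_mul, integral_norm_pow_mul_log]
      congr 1
      rw [norm_div, norm_pow, norm_neg, norm_one, one_pow, Real.norm_natCast]
    simp only [this]
    have hs : Summable fun n : ℕ => 1 / (n.factorial : ℝ) := by
      simpa using Real.summable_pow_div_factorial 1
    refine Summable.of_nonneg_of_le (fun n => by positivity) (fun n => ?_)
      (hs.mul_right (k.factorial : ℝ))
    apply mul_le_mul_of_nonneg_left _ (by positivity)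
    apply div_le_self (by positivity)
    apply one_le_pow₀
    have : (0 : ℝ) ≤ n := Nat.cast_nonneg n
    linarith
  have h3 := hasSum_integral_of_summable_integral_norm h1 h2
  have h4 : ∀ t : ℝ, (∑' n : ℕ, (-1) ^ n / (n.factorial : ℝ) * (t ^ n * (log t) ^ k)) =
      exp (-t) * (log t) ^ k := by
    intro t
    rw [Real.exp_eq_exp_ℝ, NormedSpace.exp_eq_tsum_div, ← tsum_mul_right]
    apply tsum_congr
    intro n
    rw [neg_pow]
    ring
  simp only [h4] at h3
  rw [← h3.tsum_eq, ← tsum_mul_left]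
  apply tsum_congr
  intro n
  rw [integral_const_mul, integral_pow_mul_log]
  have : (n.factorial : ℝ) ≠ 0 := by positivity
  have h5 : ((n : ℝ) + 1) ≠ 0 := by positivity
  field_simp

lemma integrableOn_exp_log (k : ℕ) :
    IntegrableOn (fun t : ℝ => exp (-t) * (log t) ^ k) (Ioi 0) := by
  have h1 := (good_exp.pow_smul k).conv (s := 1) (by simp)
  unfold MellinConvergent at h1
  have h3 := h1.re
  refine h3.congr ?_
  filter_upwards with t
  simp only [sub_self, Complex.cpow_zero, smul_eq_mul, one_mul, Complex.real_smul,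
    RCLike.re_eq_complex_re, ← Complex.ofReal_mul, Complex.ofReal_re]
  ring

lemma integral_Ioi_one (k : ℕ) :
    ∫ t in Ioi (1 : ℝ), exp (-t) * (log t) ^ k = exp (-1) * delta k := by
  have h1 : ∫ t in Ioi (1 : ℝ), exp (-t) * (log t) ^ k =
      ∫ t in Ioi (0 : ℝ), exp (-(t + 1)) * (log (t + 1)) ^ k := by
    rw [← integral_indicator measurableSet_Ioi, ← integral_indicator measurableSet_Ioi,
      ← integral_add_right_eq_self _ (1 : ℝ)]
    congr 1
    ext t
    by_cases h : 0 < t
    · rw [indicator_of_mem (by simpa using h), indicator_of_mem (by simpa using h)]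
    · rw [indicator_of_notMem (by simpa using h), indicator_of_notMem (by simpa using h)]
  rw [h1]
  unfold delta
  rw [← integral_const_mul]
  congr 1
  ext t
  rw [neg_add, exp_add, add_comm t 1]
  ring

/-- `m k = (-1)ᵏ k! ∑ (-1)ⁿ / (n! (n+1)ᵏ⁺¹) + e⁻¹ δ k`. -/
theorem m_split (k : ℕ) :
    m k = (-1) ^ k * k.factorial *
      (∑' n : ℕ, (-1) ^ n / ((n.factorial : ℝ) * ((n : ℝ) + 1) ^ (k + 1))) + exp (-1) * delta k := by
  unfold m
  rw [← Ioc_union_Ioi_eq_Ioi (zero_le_one' ℝ), setIntegral_union (Set.Ioc_disjoint_Ioi le_rfl)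
    measurableSet_Ioi ((integrableOn_exp_log k).mono_set Ioc_subset_Ioi_self)
    ((integrableOn_exp_log k).mono_set (Ioi_subset_Ioi zero_le_one)), integral_Ioc_exp_log,
    integral_Ioi_one]

end Pool.Agent.Lib.GammaMoments
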