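import Mathlib
import Pool.Agent.Lib.GammaMoments

/-!
# Logarithmic moments of `exp (-α t)` for complex `α`
-/

open Real Filter Topology Set MeasureTheory Asymptotics

namespace Pool.Agent.Lib.IncGamma

open GammaMoments

/-! ### The Mellin transform of `exp (-α t)` -/

lemma norm_cexp_neg_mul (α : ℂ) (t : ℝ) : ‖Complex.exp (-(α * t))‖ = exp (-(α.re * t)) := by
  rw [Complex.norm_exp]
  simp

lemma integrableOn_rpow_exp {s b : ℝ} (hs : 0 < s) (hb : 0 < b) :
    IntegrableOn (fun t : ℝ => t ^ (s - 1) * exp (-(b * t))) (Ioi 0) := by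
  have h := integrableOn_rpow_mul_exp_neg_mul_rpow (p := 1) (s := s - 1) (b := b) (by linarith)
    one_pos hb
  simpa [Real.rpow_one] using h

/-- The Mellin transform as a function of `α` is differentiable. -/
lemma hasDerivAt_mel {s : ℝ} (hs : 0 < s) {α : ℂ} (hα : 0 < α.re) :
    HasDerivAt (fun β : ℂ => ∫ t in Ioi (0 : ℝ), ((t ^ (s - 1) : ℝ) : ℂ) * Complex.exp (-(β * t)))
      (∫ t in Ioi (0 : ℝ), ((t ^ (s - 1) : ℝ) : ℂ) * (-(t : ℂ) * Complex.exp (-(α * t)))) α := by
  have hmeas : ∀ β : ℂ, AEStronglyMeasurable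
      (fun t : ℝ => ((t ^ (s - 1) : ℝ) : ℂ) * Complex.exp (-(β * t))) (volume.restrict (Ioi 0)) := by
    intro β
    refine ContinuousOn.aestronglyMeasurable ?_ measurableSet_Ioi
    refine ContinuousOn.mul ?_ (by fun_prop)
    refine Complex.continuous_ofReal.comp_continuousOn ?_
    exact fun t ht => (Real.continuousAt_rpow_const t _ (Or.inl (ne_of_gt ht))).continuousWithinAt
  have hmeas' : AEStronglyMeasurable
      (fun t : ℝ => ((t ^ (s - 1) : ℝ) : ℂ) * (-(t : ℂ) * Complex.exp (-(α * t))))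
      (volume.restrict (Ioi 0)) := by
    have h1 := (hmeas α).mul
      (Continuous.aestronglyMeasurable (by fun_prop : Continuous fun t : ℝ => -(t : ℂ)))
    refine h1.congr (Eventually.of_forall fun t => ?_)
    simp only [Pi.mul_apply]
    ring
  refine (hasDerivAt_integral_of_dominated_loc_of_deriv_le
    (F := fun (β : ℂ) (t : ℝ) => ((t ^ (s - 1) : ℝ) : ℂ) * Complex.exp (-(β * t)))
    (F' := fun (β : ℂ) (t : ℝ) => ((t ^ (s - 1) : ℝ) : ℂ) * (-(t : ℂ) * Complex.exp (-(β * t))))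
    (s := {β : ℂ | α.re / 2 < β.re})
    (bound := fun t => t ^ ((s + 1) - 1) * exp (-(α.re / 2 * t))) ?_ ?_ ?_ hmeas' ?_ ?_ ?_).2
  · exact (isOpen_lt continuous_const Complex.continuous_re).mem_nhds
      (show α.re / 2 < α.re by linarith)
  · exact Eventually.of_forall hmeas
  · refine (integrableOn_rpow_exp hs hα).mono' (hmeas α) ?_
    filter_upwards [ae_restrict_mem measurableSet_Ioi] with t ht
    rw [norm_mul, norm_cexp_neg_mul, Complex.norm_real, norm_of_nonneg (rpow_nonneg (le_of_lt ht) _)]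
  · filter_upwards [ae_restrict_mem measurableSet_Ioi] with t ht β hβ
    have ht' : (0 : ℝ) < t := ht
    rw [norm_mul, norm_mul, norm_cexp_neg_mul, Complex.norm_real, norm_neg, Complex.norm_real,
      norm_of_nonneg (rpow_nonneg ht'.le _), norm_of_nonneg ht'.le, ← mul_assoc]
    have h1 : t ^ (s - 1) * t = t ^ ((s + 1) - 1) := by
      rw [← Real.rpow_add_one ht'.ne']; congr 1; ring
    rw [h1]
    refine mul_le_mul_of_nonneg_left ?_ (rpow_nonneg ht'.le _)
    rw [exp_le_exp]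
    have : α.re / 2 < β.re := hβ
    nlinarith
  · exact integrableOn_rpow_exp (by linarith) (by linarith)
  · filter_upwards with t β _
    have h1 : HasDerivAt (fun β : ℂ => -(β * t)) (-(t : ℂ)) β := by
      simpa using ((hasDerivAt_id β).mul_const (t : ℂ)).fun_neg
    have h2 := h1.cexp.const_mul ((t ^ (s - 1) : ℝ) : ℂ)
    refine h2.congr_deriv ?_
    ring

/-- `∫₀^∞ t^{s-1} e^{-αt} dt = α^{-s} Γ(s)` for `re α > 0`. -/
theorem mellin_cexp {s : ℝ} (hs : 0 < s) {α : ℂ} (hα : 0 < α.re) :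
    ∫ t in Ioi (0 : ℝ), ((t ^ (s - 1) : ℝ) : ℂ) * Complex.exp (-(α * t)) =
      Complex.exp (-(s * Complex.log α)) * (Gamma s : ℂ) := by
  set U : Set ℂ := {β : ℂ | 0 < β.re} with hU
  have hUo : IsOpen U := isOpen_lt continuous_const Complex.continuous_re
  have hUc : IsPreconnected U := (convex_halfSpace_re_gt 0).isPreconnected
  set f : ℂ → ℂ := fun β => ∫ t in Ioi (0 : ℝ), ((t ^ (s - 1) : ℝ) : ℂ) * Complex.exp (-(β * t))
    with hf
  set g : ℂ → ℂ := fun β => Complex.exp (-(s * Complex.log β)) * (Gamma s : ℂ) with hg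
  have hfa : AnalyticOnNhd ℂ f U := by
    refine DifferentiableOn.analyticOnNhd (fun β hβ => ?_) hUo
    exact (hasDerivAt_mel hs hβ).differentiableAt.differentiableWithinAt
  have hga : AnalyticOnNhd ℂ g U := by
    refine DifferentiableOn.analyticOnNhd (fun β hβ => ?_) hUo
    have hβ' : β ∈ Complex.slitPlane := Or.inl hβ
    have := (Complex.differentiableAt_log hβ').const_mul (s : ℂ)
    exact ((this.neg.cexp).mul_const _).differentiableWithinAt
  have hreal : ∀ r : ℝ, 0 < r → f r = g r := by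
    intro r hr
    have h1 := Complex.integral_cpow_mul_exp_neg_mul_Ioi (a := (s : ℂ)) (by simpa using hs) hr
    have h2 : f r = ∫ t in Ioi (0 : ℝ), (t : ℂ) ^ ((s : ℂ) - 1) * Complex.exp (-(r * t)) := by
      rw [hf]
      refine setIntegral_congr_fun measurableSet_Ioi fun t ht => ?_
      have ht' : (0 : ℝ) < t := ht
      rw [Complex.ofReal_cpow ht'.le]
      push_cast
      rfl
    rw [h2, h1, hg]
    rw [Complex.Gamma_ofReal, one_div, Complex.inv_cpow _ _ (by
      rw [Complex.arg_ofReal_of_nonneg hr.le]; exact pi_pos.ne), Complex.cpow_def_of_ne_zero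
      (by exact_mod_cast hr.ne'), ← Complex.exp_neg, mul_comm (Complex.log _)]
  have hfreq : ∃ᶠ β in 𝓝[≠] (1 : ℂ), f β = g β := by
    have h1 : Tendsto (fun r : ℝ => (r : ℂ)) (𝓝[≠] 1) (𝓝[≠] 1) := by
      rw [tendsto_nhdsWithin_iff]
      refine ⟨?_, ?_⟩
      · exact (Complex.continuous_ofReal.tendsto' 1 1 (by simp)).mono_left nhdsWithin_le_nhds
      · filter_upwards [self_mem_nhdsWithin] with r hr
        intro h
        have h' : (r : ℂ) = 1 := h
        exact hr (by exact_mod_cast h')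
    refine h1.frequently ?_
    refine Eventually.frequently ?_
    filter_upwards [nhdsWithin_le_nhds (Ioi_mem_nhds (zero_lt_one : (0 : ℝ) < 1))] with r hr
    exact hreal r hr
  exact hfa.eqOn_of_preconnected_of_frequently_eq hga hUc (show (1 : ℂ) ∈ U by simp [hU]) hfreq hα

/-! ### Logarithmic moments -/

lemma good_cexp {α : ℂ} (hα : 0 < α.re) : Good (fun t => Complex.exp (-(α * t))) where
  loc := by
    apply (Continuous.continuousOn ?_).locallyIntegrableOn measurableSet_Ioi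
    fun_prop
  top a := by
    refine IsBigO.of_norm_left ?_
    simp only [norm_cexp_neg_mul]
    exact (isLittleO_exp_neg_mul_rpow_atTop hα (-a)).isBigO.congr_left (fun x => by simp)
  bot b hb := by
    have h1 : (fun t : ℝ => Complex.exp (-(α * t))) =O[𝓝[>] 0] (fun _ => (1 : ℝ)) := by
      apply IsBigO.of_bound 1
      filter_upwards [self_mem_nhdsWithin] with t ht
      have : (0 : ℝ) < t := ht
      rw [norm_cexp_neg_mul]
      simp only [norm_one, mul_one]
      rw [exp_le_one_iff]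
      have : 0 < α.re * t := mul_pos hα ht
      linarith
    refine h1.trans ?_
    apply IsBigO.of_bound 1
    filter_upwards [Ioo_mem_nhdsGT (show (0 : ℝ) < 1 by norm_num)] with t ht
    rw [norm_one, one_mul, norm_of_nonneg (rpow_nonneg ht.1.le _)]
    exact one_le_rpow_of_pos_of_le_one_of_nonpos ht.1 ht.2.le (by linarith)

/-- The Mellin transform of `(log t)^k e^{-αt}` at a real point. -/
noncomputable def G (α : ℂ) (k : ℕ) (x : ℝ) : ℂ :=
  mellin (fun t => (log t) ^ k • Complex.exp (-(α * t))) (x : ℂ)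

lemma hasDerivAt_G {α : ℂ} (hα : 0 < α.re) (k : ℕ) {x : ℝ} (hx : 0 < x) :
    HasDerivAt (G α k) (G α (k + 1) x) x := by
  have h1 := (good_cexp hα).hasDerivAt k (s := (x : ℂ)) (by simpa using hx)
  exact h1.comp_ofReal

lemma G_zero {α : ℂ} (hα : 0 < α.re) {x : ℝ} (hx : 0 < x) :
    G α 0 x = Complex.exp (-(x * Complex.log α)) * (M 0 x : ℂ) := by
  rw [M_zero hx, ← mellin_cexp hx hα, G, mellin]
  refine setIntegral_congr_fun measurableSet_Ioi fun t ht => ?_
  have ht' : (0 : ℝ) < t := ht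
  simp only [pow_zero, one_smul, smul_eq_mul]
  rw [Complex.ofReal_cpow ht'.le]
  push_cast
  rfl

lemma hasDerivAt_expfac (l : ℂ) (x : ℝ) :
    HasDerivAt (fun y : ℝ => Complex.exp (-(y * l))) (-l * Complex.exp (-(x * l))) x := by
  have h0 : HasDerivAt (fun y : ℝ => (y : ℂ)) 1 x := Complex.ofRealCLM.hasDerivAt
  have h1 : HasDerivAt (fun y : ℝ => -((y : ℂ) * l)) (-l) x := by
    simpa using (h0.mul_const l).fun_neg
  refine h1.cexp.congr_deriv ?_
  ring

lemma hasDerivAt_Mc (k : ℕ) {x : ℝ} (hx : 0 < x) :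
    HasDerivAt (fun y : ℝ => (M k y : ℂ)) (M (k + 1) x : ℂ) x :=
  (hasDerivAt_M k hx).ofReal_comp

/-- One differentiation step. -/
lemma G_step {α : ℂ} (hα : 0 < α.re) (k : ℕ) {E E' : ℝ → ℂ}
    (h : ∀ y : ℝ, 0 < y → G α k y = Complex.exp (-(y * Complex.log α)) * E y)
    (hE : ∀ y : ℝ, 0 < y → HasDerivAt E (E' y) y) {x : ℝ} (hx : 0 < x) :
    G α (k + 1) x = Complex.exp (-(x * Complex.log α)) * (E' x - Complex.log α * E x) := by
  have h1 := hasDerivAt_G hα k hx
  have h2 : G α k =ᶠ[𝓝 x] fun y => Complex.exp (-(y * Complex.log α)) * E y := by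
    filter_upwards [Ioi_mem_nhds hx] with y hy
    exact h y hy
  have h3 := (hasDerivAt_expfac (Complex.log α) x).mul (hE x hx)
  have h4 := (h1.congr_of_eventuallyEq h2.symm).unique h3
  rw [h4]
  ring

lemma G_one {α : ℂ} (hα : 0 < α.re) {x : ℝ} (hx : 0 < x) :
    G α 1 x = Complex.exp (-(x * Complex.log α)) * ((M 1 x : ℂ) - Complex.log α * (M 0 x : ℂ)) :=
  G_step hα 0 (fun y hy => G_zero hα hy) (fun y hy => hasDerivAt_Mc 0 hy) hx

lemma G_two {α : ℂ} (hα : 0 < α.re) {x : ℝ} (hx : 0 < x) :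
    G α 2 x = Complex.exp (-(x * Complex.log α)) * ((M 2 x : ℂ) - 2 * Complex.log α * (M 1 x : ℂ)
      + Complex.log α ^ 2 * (M 0 x : ℂ)) := by
  rw [G_step hα 1 (fun y hy => G_one hα hy)
    (fun y hy => (hasDerivAt_Mc 1 hy).sub ((hasDerivAt_Mc 0 hy).const_mul _)) hx]
  ring

lemma G_three {α : ℂ} (hα : 0 < α.re) {x : ℝ} (hx : 0 < x) :
    G α 3 x = Complex.exp (-(x * Complex.log α)) * ((M 3 x : ℂ) - 3 * Complex.log α * (M 2 x : ℂ)
      + 3 * Complex.log α ^ 2 * (M 1 x : ℂ) - Complex.log α ^ 3 * (M 0 x : ℂ)) := by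
  rw [G_step hα 2 (fun y hy => G_two hα hy)
    (fun y hy => ((hasDerivAt_Mc 2 hy).sub ((hasDerivAt_Mc 1 hy).const_mul _)).add
      ((hasDerivAt_Mc 0 hy).const_mul _)) hx]
  ring

/-- `∫₀^∞ (log t)^k e^{-αt} dt`. -/
noncomputable def N (k : ℕ) (α : ℂ) : ℂ :=
  ∫ t in Ioi (0 : ℝ), Complex.exp (-(α * t)) * (log t : ℂ) ^ k

lemma G_at_one (α : ℂ) (k : ℕ) : G α k 1 = N k α := by
  rw [G, mellin, N]
  refine setIntegral_congr_fun measurableSet_Ioi fun t _ => ?_
  simp only [Complex.ofReal_one, sub_self, Complex.cpow_zero, one_smul, Complex.real_smul]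
  push_cast
  ring

lemma m_zero : m 0 = 1 := by
  rw [← M_one, M_zero one_pos, Gamma_one]

lemma exp_neg_log {α : ℂ} (hα : 0 < α.re) :
    α * Complex.exp (-(((1 : ℝ) : ℂ) * Complex.log α)) = 1 := by
  have h0 : α ≠ 0 := by rintro rfl; simp at hα
  rw [Complex.ofReal_one, one_mul, Complex.exp_neg, Complex.exp_log h0, mul_inv_cancel₀ h0]

lemma N_one {α : ℂ} (hα : 0 < α.re) : α * N 1 α = (m 1 : ℂ) - Complex.log α := by
  rw [← G_at_one, G_one hα one_pos, ← mul_assoc, exp_neg_log hα, M_one, M_one, m_zero]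
  push_cast
  ring

lemma N_two {α : ℂ} (hα : 0 < α.re) :
    α * N 2 α = (m 2 : ℂ) - 2 * Complex.log α * (m 1 : ℂ) + Complex.log α ^ 2 := by
  rw [← G_at_one, G_two hα one_pos, ← mul_assoc, exp_neg_log hα, M_one, M_one, M_one, m_zero]
  push_cast
  ring

lemma N_three {α : ℂ} (hα : 0 < α.re) :
    α * N 3 α = (m 3 : ℂ) - 3 * Complex.log α * (m 2 : ℂ) + 3 * Complex.log α ^ 2 * (m 1 : ℂ)
      - Complex.log α ^ 3 := by
  rw [← G_at_one, G_three hα one_pos, ← mul_assoc, exp_neg_log hα, M_one, M_one, M_one, M_one,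
    m_zero]
  push_cast
  ring

lemma integrableOn_N (k : ℕ) {α : ℂ} (hα : 0 < α.re) :
    IntegrableOn (fun t : ℝ => Complex.exp (-(α * t)) * (log t : ℂ) ^ k) (Ioi 0) := by
  have h1 := ((good_cexp hα).pow_smul k).conv (s := 1) (by simp)
  unfold MellinConvergent at h1
  refine h1.congr_fun (fun t _ => ?_) measurableSet_Ioi
  simp only [sub_self, Complex.cpow_zero, one_smul, Complex.real_smul]
  push_cast
  ring

/-! ### The part on `(0, 1]` -/

/-- `∑_{n ≥ 1} z^n / (n! n^k)`. -/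
noncomputable def Lc (k : ℕ) (z : ℂ) : ℂ :=
  ∑' n : ℕ, z ^ (n + 1) / (((n + 1).factorial : ℂ) * ((n : ℂ) + 1) ^ k)

lemma integral_Ioc_cexp_log (k : ℕ) (α : ℂ) :
    α * ∫ t in Ioc (0 : ℝ) 1, Complex.exp (-(α * t)) * (log t : ℂ) ^ k =
      -((-1) ^ k * k.factorial * Lc k (-α)) := by
  have h1 : ∀ n : ℕ, Integrable
      (fun t : ℝ => (-α) ^ n / (n.factorial : ℂ) * ((t ^ n * (log t) ^ k : ℝ) : ℂ))
      (volume.restrict (Ioc (0 : ℝ) 1)) := fun n => (integrableOn_pow_mul_log k n).ofReal.const_mul _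
  have hI : ∀ n : ℕ, ∫ t in Ioc (0 : ℝ) 1, (-α) ^ n / (n.factorial : ℂ) *
      ((t ^ n * (log t) ^ k : ℝ) : ℂ) =
      (-α) ^ n / (n.factorial : ℂ) * ((-1) ^ k * k.factorial / ((n : ℂ) + 1) ^ (k + 1)) := by
    intro n
    rw [integral_const_mul, integral_complex_ofReal, integral_pow_mul_log]
    push_cast
    rfl
  have h2 : Summable fun n : ℕ => ∫ t in Ioc (0 : ℝ) 1,
      ‖(-α) ^ n / (n.factorial : ℂ) * ((t ^ n * (log t) ^ k : ℝ) : ℂ)‖ := by
    have : ∀ n : ℕ, ∫ t in Ioc (0 : ℝ) 1,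
        ‖(-α) ^ n / (n.factorial : ℂ) * ((t ^ n * (log t) ^ k : ℝ) : ℂ)‖ =
        ‖α‖ ^ n / (n.factorial : ℝ) * (k.factorial / ((n : ℝ) + 1) ^ (k + 1)) := by
      intro n
      simp only [norm_mul, Complex.norm_real]
      have h := integral_norm_pow_mul_log k n
      rw [integral_const_mul]
      have h' : ∫ t in Ioc (0 : ℝ) 1, ‖t ^ n * log t ^ k‖ = ∫ t in Ioc (0 : ℝ) 1,
        ‖t ^ n‖ * ‖log t ^ k‖ := by simp only [norm_mul]
      simp only [norm_mul] at h
      rw [h]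
      congr 1
      rw [norm_div, norm_pow, norm_neg, Complex.norm_natCast]
    simp only [this]
    have hs : Summable fun n : ℕ => ‖α‖ ^ n / (n.factorial : ℝ) :=
      Real.summable_pow_div_factorial _
    refine Summable.of_nonneg_of_le (fun n => by positivity) (fun n => ?_)
      (hs.mul_right (k.factorial : ℝ))
    apply mul_le_mul_of_nonneg_left _ (by positivity)
    apply div_le_self (by positivity)
    apply one_le_pow₀
    have : (0 : ℝ) ≤ n := Nat.cast_nonneg n
    linarith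
  have h3 := hasSum_integral_of_summable_integral_norm h1 h2
  have h4 : ∀ t : ℝ, (∑' n : ℕ, (-α) ^ n / (n.factorial : ℂ) * ((t ^ n * (log t) ^ k : ℝ) : ℂ)) =
      Complex.exp (-(α * t)) * (log t : ℂ) ^ k := by
    intro t
    rw [Complex.exp_eq_exp_ℂ, NormedSpace.exp_eq_tsum_div, ← tsum_mul_right]
    apply tsum_congr
    intro n
    push_cast
    rw [show -(α * (t : ℂ)) = (-α) * t by ring, mul_pow]
    ring
  simp only [h4] at h3
  simp only [hI] at h3
  rw [← h3.tsum_eq, Lc, ← tsum_mul_left, ← tsum_mul_left, ← tsum_neg]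
  apply tsum_congr
  intro n
  have e1 : (n.factorial : ℂ) ≠ 0 := by exact_mod_cast n.factorial_ne_zero
  have e2 : ((n : ℂ) + 1) ≠ 0 := by exact_mod_cast n.succ_ne_zero
  rw [Nat.factorial_succ, pow_succ (-α) n, pow_succ ((n : ℂ) + 1) k]
  push_cast
  field_simp

/-! ### The part on `(1, ∞)` -/

/-- `T k α = ∫₁^∞ (log t)^k e^{-αt} dt / t`. -/
noncomputable def T (k : ℕ) (α : ℂ) : ℂ :=
  ∫ t in Ioi (1 : ℝ), Complex.exp (-(α * t)) * (log t : ℂ) ^ k / t

lemma integrableOn_T (k : ℕ) {α : ℂ} (hα : 0 < α.re) :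
    IntegrableOn (fun t : ℝ => Complex.exp (-(α * t)) * (log t : ℂ) ^ k / t) (Ioi 1) := by
  have h1 := (integrableOn_N k hα).mono_set (Ioi_subset_Ioi (zero_le_one' ℝ))
  have h2 : AEStronglyMeasurable
      (fun t : ℝ => Complex.exp (-(α * t)) * (log t : ℂ) ^ k / t) (volume.restrict (Ioi 1)) := by
    have h3 : AEStronglyMeasurable (fun t : ℝ => ((t : ℂ))⁻¹) (volume.restrict (Ioi 1)) := by
      refine ContinuousOn.aestronglyMeasurable ?_ measurableSet_Ioi
      intro t ht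
      have ht' : (t : ℂ) ≠ 0 := by
        have : (0 : ℝ) < t := zero_lt_one.trans ht
        exact_mod_cast this.ne'
      exact (Complex.continuous_ofReal.continuousAt.inv₀ ht').continuousWithinAt
    refine (h1.aestronglyMeasurable.mul h3).congr (Eventually.of_forall fun t => ?_)
    simp only [Pi.mul_apply, div_eq_mul_inv]
  refine Integrable.mono h1 h2 ?_
  filter_upwards [ae_restrict_mem measurableSet_Ioi] with t ht
  have ht' : (1 : ℝ) < t := ht
  rw [norm_div, Complex.norm_real, norm_of_nonneg (zero_le_one.trans ht'.le)]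
  exact div_le_self (norm_nonneg _) ht'.le

lemma tendsto_exp_log (k : ℕ) {α : ℂ} (hα : 0 < α.re) :
    Tendsto (fun t : ℝ => Complex.exp (-(α * t)) * (log t : ℂ) ^ k) atTop (𝓝 0) := by
  rw [tendsto_zero_iff_norm_tendsto_zero]
  have h1 : (fun t : ℝ => exp (-(α.re * t))) =o[atTop] fun t : ℝ => t ^ (-((k : ℝ) + 1)) :=
    (isLittleO_exp_neg_mul_rpow_atTop hα _).congr_left (fun x => by simp)
  have h2 : (fun t : ℝ => (log t) ^ k) =O[atTop] fun t : ℝ => t ^ (k : ℝ) := by
    have h3 : (fun t : ℝ => log t) =O[atTop] fun t : ℝ => t := by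
      have := (isLittleO_log_rpow_atTop (zero_lt_one' ℝ)).isBigO
      simpa using this
    refine (h3.pow k).congr_right fun t => ?_
    rw [Real.rpow_natCast]
  have h3 := (h1.isBigO.mul h2)
  have h4 : Tendsto (fun t : ℝ => t ^ (-((k : ℝ) + 1)) * t ^ (k : ℝ)) atTop (𝓝 0) := by
    have h5 := tendsto_rpow_neg_atTop (zero_lt_one' ℝ)
    refine h5.congr' ?_
    filter_upwards [eventually_gt_atTop 0] with t ht
    rw [← Real.rpow_add ht]
    congr 1
    ring
  have h5 := (h3.trans_tendsto h4).norm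
  rw [norm_zero] at h5
  refine h5.congr fun t => ?_
  rw [norm_mul, norm_mul, norm_cexp_neg_mul, norm_pow, norm_pow, Complex.norm_real,
    norm_of_nonneg (exp_pos _).le]

lemma T_eq (k : ℕ) {α : ℂ} (hα : 0 < α.re) :
    α * ∫ t in Ioi (1 : ℝ), Complex.exp (-(α * t)) * (log t : ℂ) ^ (k + 1) =
      (k + 1) * T k α := by
  have hN := (integrableOn_N (k + 1) hα).mono_set (Ioi_subset_Ioi (zero_le_one' ℝ))
  have hT := integrableOn_T k hα
  have h1 := integral_Ioi_of_hasDerivAt_of_tendsto' (a := 1)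
    (f := fun t : ℝ => -(Complex.exp (-(α * t)) * (log t : ℂ) ^ (k + 1)))
    (f' := fun t : ℝ => α * (Complex.exp (-(α * t)) * (log t : ℂ) ^ (k + 1)) -
      (k + 1) * (Complex.exp (-(α * t)) * (log t : ℂ) ^ k / t)) (m := 0) ?_ ?_ ?_
  · simp only [Real.log_one, Complex.ofReal_zero, zero_pow (Nat.succ_ne_zero k), mul_zero, neg_zero,
      sub_zero] at h1
    rw [integral_sub (hN.const_mul α) (hT.const_mul _), integral_const_mul, integral_const_mul,
      sub_eq_zero] at h1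
    exact h1
  · intro t ht
    have ht' : (0 : ℝ) < t := lt_of_lt_of_le zero_lt_one ht
    have e0 : HasDerivAt (fun y : ℝ => (y : ℂ)) 1 t := Complex.ofRealCLM.hasDerivAt
    have e1 : HasDerivAt (fun y : ℝ => -(α * (y : ℂ))) (-α) t := by
      simpa using (e0.const_mul α).fun_neg
    have e2 : HasDerivAt (fun y : ℝ => ((log y : ℝ) : ℂ)) ((t⁻¹ : ℝ) : ℂ) t :=
      (Real.hasDerivAt_log ht'.ne').ofReal_comp
    have e3 := ((e1.cexp).mul (e2.pow (k + 1))).neg
    refine e3.congr_deriv ?_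
    have : (t : ℂ) ≠ 0 := by exact_mod_cast ht'.ne'
    simp only [Pi.pow_apply]
    push_cast
    field_simp
    ring
  · exact (hN.const_mul α).sub (hT.const_mul _)
  · simpa using (tendsto_exp_log (k + 1) hα).neg

lemma T_split (k : ℕ) {α : ℂ} (hα : 0 < α.re) :
    (k + 1) * T k α = α * N (k + 1) α + (-1) ^ (k + 1) * (k + 1).factorial * Lc (k + 1) (-α) := by
  have h1 : N (k + 1) α = (∫ t in Ioc (0 : ℝ) 1, Complex.exp (-(α * t)) * (log t : ℂ) ^ (k + 1)) +
      ∫ t in Ioi (1 : ℝ), Complex.exp (-(α * t)) * (log t : ℂ) ^ (k + 1) := by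
    rw [N, ← Ioc_union_Ioi_eq_Ioi (zero_le_one' ℝ), setIntegral_union (Set.Ioc_disjoint_Ioi le_rfl)
      measurableSet_Ioi ((integrableOn_N (k + 1) hα).mono_set Ioc_subset_Ioi_self)
      ((integrableOn_N (k + 1) hα).mono_set (Ioi_subset_Ioi zero_le_one))]
  rw [← T_eq k hα, h1, mul_add, integral_Ioc_cexp_log]
  ring

theorem T_zero {α : ℂ} (hα : 0 < α.re) :
    T 0 α = (m 1 : ℂ) - Complex.log α - Lc 1 (-α) := by
  have h := T_split 0 hα
  rw [N_one hα] at h
  simp only [Nat.cast_zero, zero_add, one_mul, pow_one, Nat.factorial_one, Nat.cast_one,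
    mul_one] at h
  rw [h]
  ring

theorem T_one {α : ℂ} (hα : 0 < α.re) :
    T 1 α = ((m 2 : ℂ) - 2 * Complex.log α * (m 1 : ℂ) + Complex.log α ^ 2) / 2 + Lc 2 (-α) := by
  have h := T_split 1 hα
  rw [N_two hα] at h
  simp only [Nat.cast_one, Nat.reduceAdd, Nat.factorial_two, Nat.cast_ofNat] at h
  norm_num at h
  linear_combination h / 2

theorem T_two {α : ℂ} (hα : 0 < α.re) :
    T 2 α = ((m 3 : ℂ) - 3 * Complex.log α * (m 2 : ℂ) + 3 * Complex.log α ^ 2 * (m 1 : ℂ)
      - Complex.log α ^ 3) / 3 - 2 * Lc 3 (-α) := by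
  have h := T_split 2 hα
  rw [N_three hα] at h
  simp only [Nat.reduceAdd, Nat.cast_ofNat] at h
  have h6 : ((Nat.factorial 3 : ℕ) : ℂ) = 6 := by norm_num [Nat.factorial]
  rw [h6] at h
  norm_num at h
  linear_combination h / 3

end Pool.Agent.Lib.IncGamma
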