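import Mathlib

/-!
Discrete relative isoperimetric inequality in boxes of `ℤ^d` and the covering lemma
with maximal non-sparse dyadic cubes (helper file for MP_2332c1_an, author helper58).
-/

open scoped ENNReal
open Finset

namespace Pool.Agent.Lib.H58FracMax

/-- unit vector -/
noncomputable def e {d : ℕ} (i : Fin d) : Fin d → ℤ := Pi.single i 1

/-- The box `∏ [a i, a i + l)`. -/
noncomputable def box {d : ℕ} (a : Fin d → ℤ) (l : ℕ) : Finset (Fin d → ℤ) :=
  Fintype.piFinset (fun i => Finset.Ico (a i) (a i + l))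

lemma mem_box {d : ℕ} {a : Fin d → ℤ} {l : ℕ} {m : Fin d → ℤ} :
    m ∈ box a l ↔ ∀ i, a i ≤ m i ∧ m i < a i + l := by
  simp [box, Fintype.mem_piFinset]

lemma card_box {d : ℕ} (a : Fin d → ℤ) (l : ℕ) : (box a l).card = l ^ d := by
  simp [box, Fintype.card_piFinset]

/-- mix of two points -/
def mix {d : ℕ} (S : Finset (Fin d)) (x y : Fin d → ℤ) : Fin d → ℤ :=
  fun j => if j ∈ S then y j else x j

lemma mix_mem {d : ℕ} {a : Fin d → ℤ} {l : ℕ} (S : Finset (Fin d)) {x y : Fin d → ℤ}
    (hx : x ∈ box a l) (hy : y ∈ box a l) : mix S x y ∈ box a l := by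
  rw [mem_box] at *
  intro i
  unfold mix
  split_ifs
  · exact hy i
  · exact hx i

lemma mix_mix {d : ℕ} (S : Finset (Fin d)) (x y : Fin d → ℤ) :
    mix S (mix S x y) (mix S y x) = x := by
  funext j
  unfold mix
  split_ifs <;> rfl

lemma sum_mix {d : ℕ} (a : Fin d → ℤ) (l : ℕ) (S : Finset (Fin d))
    (F : (Fin d → ℤ) → (Fin d → ℤ) → ℝ≥0∞) :
    ∑ x ∈ box a l, ∑ y ∈ box a l, F (mix S x y) (mix S y x)
      = ∑ x ∈ box a l, ∑ y ∈ box a l, F x y := by
  rw [← Finset.sum_product', ← Finset.sum_product']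
  refine Finset.sum_nbij' (fun p => (mix S p.1 p.2, mix S p.2 p.1))
    (fun p => (mix S p.1 p.2, mix S p.2 p.1)) ?_ ?_ ?_ ?_ ?_
  · intro p hp
    rw [Finset.mem_product] at *
    exact ⟨mix_mem S hp.1 hp.2, mix_mem S hp.2 hp.1⟩
  · intro p hp
    rw [Finset.mem_product] at *
    exact ⟨mix_mem S hp.1 hp.2, mix_mem S hp.2 hp.1⟩
  · intro p _
    simp [mix_mix]
  · intro p _
    simp [mix_mix]
  · intro p _
    rfl

lemma update_mem {d : ℕ} {a : Fin d → ℤ} {l : ℕ} {x : Fin d → ℤ} (hx : x ∈ box a l)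
    (i : Fin d) {s : ℤ} (hs : s ∈ Finset.Ico (a i) (a i + l)) :
    Function.update x i s ∈ box a l := by
  rw [mem_box] at *
  intro j
  by_cases h : j = i
  · subst h; simpa using hs
  · simpa [h] using hx j

lemma sum_update {d : ℕ} (a : Fin d → ℤ) (l : ℕ) (i : Fin d) (F : (Fin d → ℤ) → ℝ≥0∞) :
    ∑ x ∈ box a l, ∑ s ∈ Finset.Ico (a i) (a i + l), F (Function.update x i s)
      = l * ∑ x ∈ box a l, F x := by
  rw [← Finset.sum_product']
  have h1 : ∑ p ∈ box a l ×ˢ Finset.Ico (a i) (a i + l), F (Function.update p.1 i p.2)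
      = ∑ p ∈ box a l ×ˢ Finset.Ico (a i) (a i + l), F p.1 := by
    refine Finset.sum_nbij' (fun p => (Function.update p.1 i p.2, p.1 i))
      (fun p => (Function.update p.1 i p.2, p.1 i)) ?_ ?_ ?_ ?_ ?_
    · intro p hp
      rw [Finset.mem_product] at *
      refine ⟨update_mem hp.1 i hp.2, ?_⟩
      rw [Finset.mem_Ico]
      exact (mem_box.mp hp.1) i
    · intro p hp
      rw [Finset.mem_product] at *
      refine ⟨update_mem hp.1 i hp.2, ?_⟩
      rw [Finset.mem_Ico]
      exact (mem_box.mp hp.1) i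
    · intro p _
      simp
    · intro p _
      simp
    · intro p _
      rfl
  rw [h1, Finset.sum_product]
  simp only [Finset.sum_const, Int.card_Ico, nsmul_eq_mul]
  rw [← Finset.mul_sum]
  congr 1
  simp

section Poincare

variable {d : ℕ} (D : (Fin d → ℤ) → (Fin d → ℤ) → ℝ≥0∞) (hD0 : ∀ x, D x x = 0)
  (hDs : ∀ x y, D x y = D y x) (hDt : ∀ x y z, D x z ≤ D x y + D y z)

/-- edge weight inside the box -/
noncomputable def edge (a : Fin d → ℤ) (l : ℕ) (i : Fin d) (n : Fin d → ℤ) : ℝ≥0∞ :=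
  if n + e i ∈ box a l then D n (n + e i) else 0

include hD0 hDt in
lemma line_bound_aux (x : Fin d → ℤ) (i : Fin d) (s : ℤ) (k : ℕ) :
    D (Function.update x i s) (Function.update x i (s + k))
      ≤ ∑ w ∈ Finset.Ico s (s + k), D (Function.update x i w) (Function.update x i (w + 1)) := by
  induction k with
  | zero => simp [hD0]
  | succ k ih =>
    have h1 : Finset.Ico s (s + ((k + 1 : ℕ) : ℤ)) = insert (s + k) (Finset.Ico s (s + k)) := by
      ext w; simp only [Finset.mem_Ico, Finset.mem_insert]; push_cast; omega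
    rw [h1, Finset.sum_insert (by simp)]
    have h2 : s + ((k + 1 : ℕ) : ℤ) = s + k + 1 := by push_cast; ring
    rw [h2]
    calc _ ≤ D (Function.update x i s) (Function.update x i (s + k)) +
          D (Function.update x i (s + k)) (Function.update x i (s + k + 1)) := hDt _ _ _
      _ ≤ _ := by rw [add_comm]; gcongr

include hD0 hDs hDt in
lemma line_bound (a : Fin d → ℤ) (l : ℕ) (x : Fin d → ℤ) (hx : x ∈ box a l) (i : Fin d)
    (t : ℤ) (ht : t ∈ Finset.Ico (a i) (a i + l)) :
    D x (Function.update x i t) ≤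
      ∑ s ∈ Finset.Ico (a i) (a i + l), edge D a l i (Function.update x i s) := by
  have key : ∀ s t : ℤ, s ∈ Finset.Ico (a i) (a i + l) → t ∈ Finset.Ico (a i) (a i + l) → s ≤ t →
      D (Function.update x i s) (Function.update x i t) ≤
      ∑ s ∈ Finset.Ico (a i) (a i + l), edge D a l i (Function.update x i s) := by
    intro s t hs ht hst
    obtain ⟨k, rfl⟩ := Int.le.dest hst
    refine (line_bound_aux D hD0 hDt x i s k).trans ?_
    rw [Finset.mem_Ico] at hs ht
    have h1 : ∑ w ∈ Finset.Ico s (s + k), D (Function.update x i w) (Function.update x i (w + 1))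
        = ∑ w ∈ Finset.Ico s (s + k), edge D a l i (Function.update x i w) := by
      refine Finset.sum_congr rfl fun w hw => ?_
      rw [Finset.mem_Ico] at hw
      have h2 : Function.update x i w + e i = Function.update x i (w + 1) := by
        funext j
        by_cases h : j = i
        · subst h; simp [e]
        · simp [e, h]
      have h3 : Function.update x i (w + 1) ∈ box a l :=
        update_mem hx i (by rw [Finset.mem_Ico]; omega)
      rw [edge, h2, if_pos h3]
    rw [h1]
    refine Finset.sum_le_sum_of_subset ?_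
    intro w hw
    rw [Finset.mem_Ico] at *
    omega
  have hxi : x i ∈ Finset.Ico (a i) (a i + l) := by
    rw [Finset.mem_Ico]; exact (mem_box.mp hx) i
  rcases le_total (x i) t with h | h
  · have := key (x i) t hxi ht h
    rwa [Function.update_eq_self] at this
  · have := key t (x i) ht hxi h
    rw [Function.update_eq_self] at this
    rwa [hDs]

include hD0 hDs hDt in
lemma poincare_aux (a : Fin d → ℤ) (l : ℕ) (S : Finset (Fin d)) :
    ∑ x ∈ box a l, ∑ y ∈ box a l, D x (mix S x y)
      ≤ ∑ i ∈ S, (l : ℝ≥0∞) ^ (d + 1) * ∑ n ∈ box a l, edge D a l i n := by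
  classical
  induction S using Finset.induction_on with
  | empty =>
    have : ∀ x y : Fin d → ℤ, mix ∅ x y = x := by intro x y; funext j; simp [mix]
    simp [this, hD0]
  | insert i S hi ih =>
    rw [Finset.sum_insert hi]
    have h1 : ∑ x ∈ box a l, ∑ y ∈ box a l, D x (mix (insert i S) x y)
        ≤ ∑ x ∈ box a l, ∑ y ∈ box a l, D x (mix S x y) +
          ∑ x ∈ box a l, ∑ y ∈ box a l, D (mix S x y) (mix (insert i S) x y) := by
      rw [← Finset.sum_add_distrib]
      refine Finset.sum_le_sum fun x _ => ?_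
      rw [← Finset.sum_add_distrib]
      exact Finset.sum_le_sum fun y _ => hDt _ _ _
    refine h1.trans ?_
    rw [add_comm]
    refine add_le_add ?_ ih
    have h2 : ∀ x y : Fin d → ℤ, mix (insert i S) x y
        = Function.update (mix S x y) i ((mix S y x) i) := by
      intro x y
      funext j
      by_cases h : j = i
      · subst h; simp [mix, hi]
      · simp [mix, h]
    simp_rw [h2]
    rw [sum_mix a l S (fun x y => D x (Function.update x i (y i)))]
    have h3 : ∀ x ∈ box a l, ∑ y ∈ box a l, D x (Function.update x i (y i))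
        ≤ (l : ℝ≥0∞) ^ d *
          ∑ s ∈ Finset.Ico (a i) (a i + l), edge D a l i (Function.update x i s) := by
      intro x hx
      calc ∑ y ∈ box a l, D x (Function.update x i (y i))
          ≤ ∑ y ∈ box a l,
            ∑ s ∈ Finset.Ico (a i) (a i + l), edge D a l i (Function.update x i s) := by
            refine Finset.sum_le_sum fun y hy => ?_
            refine line_bound D hD0 hDs hDt a l x hx i (y i) ?_
            rw [Finset.mem_Ico]; exact (mem_box.mp hy) i
        _ = _ := by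
          rw [Finset.sum_const, card_box, nsmul_eq_mul]
          push_cast
          rfl
    calc _ ≤ ∑ x ∈ box a l, (l : ℝ≥0∞) ^ d *
          ∑ s ∈ Finset.Ico (a i) (a i + l), edge D a l i (Function.update x i s) :=
          Finset.sum_le_sum h3
      _ = (l : ℝ≥0∞) ^ d * (l * ∑ n ∈ box a l, edge D a l i n) := by
          rw [← Finset.mul_sum, sum_update]
      _ = _ := by rw [pow_succ]; ring

include hD0 hDs hDt in
lemma poincare (a : Fin d → ℤ) (l : ℕ) :
    ∑ x ∈ box a l, ∑ y ∈ box a l, D x y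
      ≤ (l : ℝ≥0∞) ^ (d + 1) * ∑ i, ∑ n ∈ box a l, edge D a l i n := by
  have h := poincare_aux D hD0 hDs hDt a l Finset.univ
  have h1 : ∀ x y : Fin d → ℤ, mix Finset.univ x y = y := by intro x y; funext j; simp [mix]
  simp_rw [h1] at h
  rwa [← Finset.mul_sum] at h

end Poincare

/-- The cut function of a set: `1` if exactly one of the points lies in `E`. -/
noncomputable def cut {d : ℕ} (E : Set (Fin d → ℤ)) (x y : Fin d → ℤ) : ℝ≥0∞ :=
  open Classical in if (x ∈ E ↔ y ∈ E) then 0 else 1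

lemma cut_self {d : ℕ} (E : Set (Fin d → ℤ)) (x : Fin d → ℤ) : cut E x x = 0 := by
  simp [cut]

lemma cut_symm {d : ℕ} (E : Set (Fin d → ℤ)) (x y : Fin d → ℤ) : cut E x y = cut E y x := by
  unfold cut
  congr 1
  rw [eq_iff_iff]
  exact ⟨Iff.symm, Iff.symm⟩

lemma cut_triangle {d : ℕ} (E : Set (Fin d → ℤ)) (x y z : Fin d → ℤ) :
    cut E x z ≤ cut E x y + cut E y z := by
  unfold cut
  by_cases hx : x ∈ E <;> by_cases hy : y ∈ E <;> by_cases hz : z ∈ E <;> simp [hx, hy, hz]

open Classical in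
/-- Relative isoperimetric inequality in a box. -/
lemma isoperimetric {d : ℕ} (E : Set (Fin d → ℤ)) (a : Fin d → ℤ) (l : ℕ) (hl : 0 < l)
    (A : Finset (Fin d → ℤ)) (hA : ∀ x, x ∈ A ↔ x ∈ box a l ∧ x ∈ E)
    (hsp : 2 * A.card ≤ l ^ d) :
    A.card ≤ 2 * (l : ℝ≥0∞) * ∑ i, ∑ n ∈ box a l, edge (cut E) a l i n := by
  have hA' : A = (box a l).filter (· ∈ E) := by ext x; simp [hA]
  set B := (box a l).filter (· ∉ E) with hB
  have hAB : A.card + B.card = l ^ d := by
    rw [← card_box a l, hA', hB]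
    exact Finset.card_filter_add_card_filter_not _
  have hBcard : l ^ d ≤ 2 * B.card := by omega
  have h1 : (A.card : ℝ≥0∞) * B.card ≤ ∑ x ∈ box a l, ∑ y ∈ box a l, cut E x y := by
    calc (A.card : ℝ≥0∞) * B.card = ∑ x ∈ A, ∑ y ∈ B, 1 := by simp
      _ = ∑ x ∈ A, ∑ y ∈ B, cut E x y := by
        refine Finset.sum_congr rfl fun x hx => Finset.sum_congr rfl fun y hy => ?_
        rw [hA] at hx
        rw [hB, Finset.mem_filter] at hy
        simp [cut, hx.2, hy.2]
      _ ≤ ∑ x ∈ A, ∑ y ∈ box a l, cut E x y := by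
        refine Finset.sum_le_sum fun x _ => ?_
        exact Finset.sum_le_sum_of_subset (Finset.filter_subset _ _)
      _ ≤ _ := by
        refine Finset.sum_le_sum_of_subset ?_
        rw [hA']
        exact Finset.filter_subset _ _
  have h2 := h1.trans (poincare (cut E) (cut_self E) (cut_symm E) (cut_triangle E) a l)
  set W := ∑ i, ∑ n ∈ box a l, edge (cut E) a l i n with hW
  have hl0 : (l : ℝ≥0∞) ≠ 0 := by exact_mod_cast hl.ne'
  have hlt : (l : ℝ≥0∞) ≠ ⊤ := ENNReal.natCast_ne_top l
  have h3 : (l : ℝ≥0∞) ^ d * A.card ≤ (l : ℝ≥0∞) ^ d * (2 * (l : ℝ≥0∞) * W) := by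
    calc (l : ℝ≥0∞) ^ d * A.card ≤ (2 * B.card : ℝ≥0∞) * A.card := by
          gcongr
          exact_mod_cast hBcard
      _ = 2 * ((A.card : ℝ≥0∞) * B.card) := by ring
      _ ≤ 2 * ((l : ℝ≥0∞) ^ (d + 1) * W) := by gcongr
      _ = _ := by rw [pow_succ]; ring
  exact (ENNReal.mul_le_mul_iff_right (pow_ne_zero _ hl0) (ENNReal.pow_ne_top hlt)).mp h3

end Pool.Agent.Lib.H58FracMax
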