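import Mathlib
import Pool.Agent.Lib.H58FracMaxIso

/-!
Maximal non-sparse dyadic cubes (helper file for MP_2332c1_an, author helper58).
-/

open scoped ENNReal
open Finset

namespace Pool.Agent.Lib.H58FracMax

/-- dyadic cube of side `2^k` with index `v` -/
noncomputable def cube {d : ℕ} (k : ℕ) (v : Fin d → ℤ) : Finset (Fin d → ℤ) :=
  box (fun i => 2 ^ k * v i) (2 ^ k)

/-- index of the dyadic cube of side `2^k` containing `m` -/
def ind {d : ℕ} (k : ℕ) (m : Fin d → ℤ) : Fin d → ℤ := fun i => m i / 2 ^ k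

lemma mem_cube {d : ℕ} {k : ℕ} {v m : Fin d → ℤ} : m ∈ cube k v ↔ ind k m = v := by
  rw [cube, mem_box, funext_iff]
  refine forall_congr' fun i => ?_
  have h2 : (0 : ℤ) < 2 ^ k := by positivity
  unfold ind
  push_cast
  rw [Int.ediv_eq_iff_of_pos h2]
  constructor
  · rintro ⟨h, h'⟩; constructor <;> linarith
  · rintro ⟨h, h'⟩; constructor <;> linarith

lemma ind_ind {d : ℕ} (k j : ℕ) (m : Fin d → ℤ) : ind j (ind k m) = ind (k + j) m := by
  funext i
  unfold ind
  rw [Int.ediv_ediv_of_nonneg (by positivity), pow_add]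

lemma ind_zero {d : ℕ} (m : Fin d → ℤ) : ind 0 m = m := by
  funext i; simp [ind]

lemma card_cube {d : ℕ} (k : ℕ) (v : Fin d → ℤ) : (cube k v).card = 2 ^ (k * d) := by
  rw [cube, card_box, pow_mul]

open Classical in
/-- number of points of `E` in the cube -/
noncomputable def cnt {d : ℕ} (E : Finset (Fin d → ℤ)) (k : ℕ) (v : Fin d → ℤ) : ℕ :=
  ((cube k v).filter (· ∈ E)).card

/-- The cube `(k, v)` is sparse for `E`. -/
def Sparse {d : ℕ} (E : Finset (Fin d → ℤ)) (k : ℕ) (v : Fin d → ℤ) : Prop :=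
  2 ^ (d + 2) * cnt E k v < 2 ^ (k * d)

/-- maximal non-sparse cube -/
def MaxDense {d : ℕ} (E : Finset (Fin d → ℤ)) (k : ℕ) (v : Fin d → ℤ) : Prop :=
  ¬ Sparse E k v ∧ ∀ j, 1 ≤ j → Sparse E (k + j) (ind j v)

open Classical in
lemma cnt_eq {d : ℕ} (E : Finset (Fin d → ℤ)) (k : ℕ) (v : Fin d → ℤ) :
    (cnt E k v : ℝ≥0∞) = ∑ m ∈ E, if ind k m = v then 1 else 0 := by
  have h1 : (cube k v).filter (· ∈ E) = E.filter (fun m => ind k m = v) := by
    ext m; simp [mem_cube, and_comm]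
  rw [cnt, h1, Finset.sum_boole]

lemma cnt_le {d : ℕ} (E : Finset (Fin d → ℤ)) (k : ℕ) (v : Fin d → ℤ) : cnt E k v ≤ E.card := by
  classical
  unfold cnt
  refine Finset.card_le_card ?_
  intro m hm
  exact (Finset.mem_filter.mp hm).2

lemma cnt_mono {d : ℕ} (E : Finset (Fin d → ℤ)) (k : ℕ) (v : Fin d → ℤ) :
    cnt E k v ≤ cnt E (k + 1) (ind 1 v) := by
  classical
  unfold cnt
  refine Finset.card_le_card ?_
  intro m hm
  rw [Finset.mem_filter] at *
  refine ⟨?_, hm.2⟩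
  rw [mem_cube] at *
  rw [← hm.1, ind_ind]

lemma tsum_cnt {d : ℕ} (E : Finset (Fin d → ℤ)) (k : ℕ) (w : (Fin d → ℤ) → ℝ≥0∞) :
    ∑' v, w v * cnt E k v = ∑ m ∈ E, w (ind k m) := by
  classical
  simp_rw [cnt_eq, Finset.mul_sum]
  rw [Summable.tsum_finsetSum (fun _ _ => ENNReal.summable)]
  refine Finset.sum_congr rfl fun m _ => ?_
  rw [tsum_eq_single (ind k m)]
  · simp
  · intro v hv
    simp [Ne.symm hv]

lemma exists_T {d : ℕ} (hd : 1 ≤ d) (E : Finset (Fin d → ℤ)) (m : Fin d → ℤ) (hm : m ∈ E) :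
    ∃ T : ℕ, MaxDense E T (ind T m) := by
  classical
  obtain ⟨B, hB⟩ : ∃ B : ℕ, ∀ k, B ≤ k → ∀ v, Sparse E k v := by
    refine ⟨2 ^ (d + 2) * E.card, fun k hk v => ?_⟩
    unfold Sparse
    calc 2 ^ (d + 2) * cnt E k v ≤ 2 ^ (d + 2) * E.card := by
          gcongr; exact cnt_le E k v
      _ ≤ k := hk
      _ < 2 ^ k := Nat.lt_two_pow_self
      _ ≤ 2 ^ (k * d) := Nat.pow_le_pow_right (by norm_num) (Nat.le_mul_of_pos_right _ hd)
  have h0 : ¬ Sparse E 0 (ind 0 m) := by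
    unfold Sparse
    have : 1 ≤ cnt E 0 (ind 0 m) := by
      unfold cnt
      rw [Nat.one_le_iff_ne_zero, Finset.card_ne_zero]
      exact ⟨m, by simp [mem_cube, hm]⟩
    have h2 : 1 ≤ 2 ^ (d + 2) := Nat.one_le_two_pow
    simp only [zero_mul, pow_zero]
    nlinarith
  let P : ℕ → Prop := fun k => ¬ Sparse E k (ind k m)
  have hP0 : P 0 := h0
  refine ⟨Nat.findGreatest P B, ?_, ?_⟩
  · exact Nat.findGreatest_spec (P := P) (Nat.zero_le B) hP0
  · intro j hj
    rw [ind_ind]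
    by_cases hle : Nat.findGreatest P B + j ≤ B
    · by_contra hcon
      have : Nat.findGreatest P B + j ≤ Nat.findGreatest P B := Nat.le_findGreatest hle hcon
      omega
    · exact hB _ (by omega) _

lemma maxDense_unique {d : ℕ} (E : Finset (Fin d → ℤ)) (n : Fin d → ℤ) {k k' : ℕ}
    (h : MaxDense E k (ind k n)) (h' : MaxDense E k' (ind k' n)) : k = k' := by
  rcases lt_trichotomy k k' with hlt | heq | hgt
  · exfalso
    obtain ⟨j, rfl⟩ := Nat.exists_eq_add_of_lt hlt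
    have := h.2 (j + 1) (by omega)
    rw [ind_ind] at this
    exact h'.1 this
  · exact heq
  · exfalso
    obtain ⟨j, rfl⟩ := Nat.exists_eq_add_of_lt hgt
    have := h'.2 (j + 1) (by omega)
    rw [ind_ind] at this
    exact h.1 this

lemma geom_tail (T : ℕ) : ∑' k : ℕ, (if T < k then ((2 : ℝ≥0∞) ^ k)⁻¹ else 0) = ((2 : ℝ≥0∞) ^ T)⁻¹ := by
  have h1 : ∑' k : ℕ, (if T < k then ((2 : ℝ≥0∞) ^ k)⁻¹ else 0)
      = ∑' i : ℕ, ((2 : ℝ≥0∞) ^ (i + (T + 1)))⁻¹ := by
    rw [← ENNReal.summable.sum_add_tsum_nat_add' (k := T + 1)]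
    have h2 : ∑ i ∈ Finset.range (T + 1), (if T < i then ((2 : ℝ≥0∞) ^ i)⁻¹ else 0) = 0 := by
      refine Finset.sum_eq_zero fun i hi => ?_
      rw [Finset.mem_range] at hi
      rw [if_neg (by omega)]
    rw [h2, zero_add]
    refine tsum_congr fun i => ?_
    rw [if_pos (by omega)]
  rw [h1]
  have h2 : ∀ i : ℕ, ((2 : ℝ≥0∞) ^ (i + (T + 1)))⁻¹ = ((2 : ℝ≥0∞) ^ (T + 1))⁻¹ * (2⁻¹) ^ i := by
    intro i
    rw [pow_add, ENNReal.mul_inv (by left; positivity) (by left; simp), ← ENNReal.inv_pow, mul_comm]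
  simp_rw [h2]
  rw [ENNReal.tsum_mul_left, ENNReal.tsum_geometric, ENNReal.one_sub_inv_two, inv_inv, pow_succ,
    ENNReal.mul_inv (by left; positivity) (by left; simp), mul_assoc,
    ENNReal.inv_mul_cancel (by norm_num) (by norm_num), mul_one]

lemma geom_shift (T j : ℕ) : ∑' k : ℕ, (if T < k + j then ((2 : ℝ≥0∞) ^ k)⁻¹ else 0)
    ≤ 2 ^ j * ((2 : ℝ≥0∞) ^ T)⁻¹ := by
  have h1 : ∀ k : ℕ, (if T < k + j then ((2 : ℝ≥0∞) ^ k)⁻¹ else 0)
      = 2 ^ j * (if T < k + j then ((2 : ℝ≥0∞) ^ (k + j))⁻¹ else 0) := by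
    intro k
    split_ifs
    · rw [pow_add, ENNReal.mul_inv (by left; positivity) (by left; simp), ← mul_assoc,
        mul_comm (2 ^ j), mul_assoc, ENNReal.mul_inv_cancel (by positivity) (by simp), mul_one]
    · simp
  simp_rw [h1]
  rw [ENNReal.tsum_mul_left]
  gcongr
  rw [← geom_tail T]
  exact ENNReal.tsum_comp_le_tsum_of_injective (add_left_injective j)
    (fun k => if T < k then ((2 : ℝ≥0∞) ^ k)⁻¹ else 0)

open Classical in
/-- **Covering lemma.** -/
lemma cover {d : ℕ} (hd : 1 ≤ d) (E : Finset (Fin d → ℤ)) (j0 : ℕ) :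
    ∑' k : ℕ, ∑' v : Fin d → ℤ,
      (if ∀ j, j0 ≤ j → Sparse E (k + j) (ind j v) then ((2 : ℝ≥0∞) ^ k)⁻¹ else 0) * cnt E k v
    ≤ 2 ^ j0 * (2 * ∑' n : Fin d → ℤ, ∑ i, cut (E : Set (Fin d → ℤ)) n (n + e i)) := by
  -- step 1
  simp_rw [tsum_cnt]
  rw [Summable.tsum_finsetSum (fun _ _ => ENNReal.summable)]
  choose! T hT using exists_T hd E
  -- step 3
  have h3 : ∑ m ∈ E, ∑' k : ℕ,
      (if ∀ j, j0 ≤ j → Sparse E (k + j) (ind j (ind k m)) then ((2 : ℝ≥0∞) ^ k)⁻¹ else 0)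
      ≤ ∑ m ∈ E, 2 ^ j0 * ((2 : ℝ≥0∞) ^ (T m))⁻¹ := by
    refine Finset.sum_le_sum fun m hm => ?_
    refine le_trans (ENNReal.tsum_le_tsum fun k => ?_) (geom_shift (T m) j0)
    by_cases hP : ∀ j, j0 ≤ j → Sparse E (k + j) (ind j (ind k m))
    · rw [if_pos hP, if_pos]
      by_contra hcon
      push Not at hcon
      obtain ⟨i, hi⟩ := Nat.exists_eq_add_of_le hcon
      have h4 := hP (j0 + i) (by omega)
      rw [ind_ind] at h4
      have h5 : k + (j0 + i) = T m := by omega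
      rw [h5] at h4
      exact (hT m hm).1 h4
    · rw [if_neg hP]; exact zero_le
  refine h3.trans ?_
  rw [← Finset.mul_sum]
  gcongr
  -- step 4
  have h4 : ∑ m ∈ E, ((2 : ℝ≥0∞) ^ (T m))⁻¹ ≤
      ∑' k : ℕ, ∑' v : Fin d → ℤ, (if MaxDense E k v then ((2 : ℝ≥0∞) ^ k)⁻¹ else 0) * cnt E k v := by
    simp_rw [tsum_cnt]
    rw [Summable.tsum_finsetSum (fun _ _ => ENNReal.summable)]
    refine Finset.sum_le_sum fun m hm => ?_
    refine le_trans ?_ (ENNReal.le_tsum (T m))
    rw [if_pos (hT m hm)]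
  refine h4.trans ?_
  -- step 5
  set g : (Fin d → ℤ) → ℝ≥0∞ := fun n => ∑ i, cut (E : Set (Fin d → ℤ)) n (n + e i) with hg
  have h5 : ∀ k v, (if MaxDense E k v then ((2 : ℝ≥0∞) ^ k)⁻¹ else 0) * cnt E k v
      ≤ 2 * ∑' n : Fin d → ℤ, (if MaxDense E k (ind k n) ∧ ind k n = v then g n else 0) := by
    intro k v
    by_cases hM : MaxDense E k v
    · rw [if_pos hM]
      have hsp : 2 * ((cube k v).filter (· ∈ E)).card ≤ (2 ^ k) ^ d := by
        have h6 := hM.2 1 le_rfl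
        have h7 := cnt_mono E k v
        unfold Sparse at h6
        have h8 : 2 ^ ((k + 1) * d) = 2 ^ d * 2 ^ (k * d) := by rw [← pow_add]; congr 1; ring
        have h9 : 2 ^ (d + 2) * cnt E k v < 2 ^ d * 2 ^ (k * d) := by
          rw [← h8]
          exact lt_of_le_of_lt (by gcongr) h6
        have h10 : 4 * cnt E k v < 2 ^ (k * d) := by
          have h11 : 2 ^ d * (4 * cnt E k v) < 2 ^ d * 2 ^ (k * d) := by
            calc 2 ^ d * (4 * cnt E k v) = 2 ^ (d + 2) * cnt E k v := by rw [pow_add]; ring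
              _ < _ := h9
          exact lt_of_mul_lt_mul_left h11 (by positivity)
        change 2 * cnt E k v ≤ _
        rw [← pow_mul]
        omega
      have h6 := isoperimetric (E : Set (Fin d → ℤ)) (fun i => 2 ^ k * v i) (2 ^ k) (by positivity)
        ((cube k v).filter (· ∈ E)) (fun x => by simp [cube]) hsp
      calc ((2 : ℝ≥0∞) ^ k)⁻¹ * (cnt E k v : ℝ≥0∞) ≤ ((2 : ℝ≥0∞) ^ k)⁻¹ * (2 * ((2 ^ k : ℕ) : ℝ≥0∞) *
            ∑ i, ∑ n ∈ box (fun i => 2 ^ k * v i) (2 ^ k),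
              edge (cut (E : Set (Fin d → ℤ))) (fun i => 2 ^ k * v i) (2 ^ k) i n) := by
            gcongr
            exact h6
        _ = 2 * ∑ i, ∑ n ∈ box (fun i => 2 ^ k * v i) (2 ^ k),
              edge (cut (E : Set (Fin d → ℤ))) (fun i => 2 ^ k * v i) (2 ^ k) i n := by
            have : (((2 ^ k : ℕ) : ℝ≥0∞)) = (2 : ℝ≥0∞) ^ k := by push_cast; rfl
            rw [this, ← mul_assoc, mul_comm 2 ((2 : ℝ≥0∞) ^ k), ← mul_assoc,
              ENNReal.inv_mul_cancel (by positivity) (by simp), one_mul]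
        _ ≤ 2 * ∑ i, ∑ n ∈ cube k v, cut (E : Set (Fin d → ℤ)) n (n + e i) := by
            gcongr with i _
            refine Finset.sum_le_sum fun n _ => ?_
            unfold edge
            split_ifs
            · exact le_rfl
            · exact zero_le
        _ = 2 * ∑ n ∈ cube k v, g n := by rw [Finset.sum_comm]
        _ = 2 * ∑ n ∈ cube k v,
              (if MaxDense E k (ind k n) ∧ ind k n = v then g n else 0) := by
            congr 1
            refine Finset.sum_congr rfl fun n hn => ?_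
            rw [mem_cube] at hn
            rw [if_pos ⟨by rw [hn]; exact hM, hn⟩]
        _ ≤ _ := by
            gcongr
            exact ENNReal.sum_le_tsum _
    · rw [if_neg hM, zero_mul]; exact zero_le
  calc ∑' k : ℕ, ∑' v : Fin d → ℤ, (if MaxDense E k v then ((2 : ℝ≥0∞) ^ k)⁻¹ else 0) * cnt E k v
      ≤ ∑' k : ℕ, ∑' v : Fin d → ℤ,
        2 * ∑' n : Fin d → ℤ, (if MaxDense E k (ind k n) ∧ ind k n = v then g n else 0) :=
        ENNReal.tsum_le_tsum fun k => ENNReal.tsum_le_tsum fun v => h5 k v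
    _ = 2 * ∑' n : Fin d → ℤ, ∑' k : ℕ, ∑' v : Fin d → ℤ,
          (if MaxDense E k (ind k n) ∧ ind k n = v then g n else 0) := by
        simp_rw [ENNReal.tsum_mul_left]
        congr 1
        have h6 : ∀ k : ℕ, ∑' v : Fin d → ℤ, ∑' n : Fin d → ℤ,
            (if MaxDense E k (ind k n) ∧ ind k n = v then g n else 0)
            = ∑' n : Fin d → ℤ, ∑' v : Fin d → ℤ,
            (if MaxDense E k (ind k n) ∧ ind k n = v then g n else 0) :=
          fun k => ENNReal.tsum_comm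
        simp_rw [h6]
        exact ENNReal.tsum_comm
    _ ≤ 2 * ∑' n : Fin d → ℤ, g n := by
        gcongr with n
        have h6 : ∀ k : ℕ, ∑' v : Fin d → ℤ,
            (if MaxDense E k (ind k n) ∧ ind k n = v then g n else 0)
            = if MaxDense E k (ind k n) then g n else 0 := by
          intro k
          rw [tsum_eq_single (ind k n)]
          · simp
          · intro v hv
            rw [if_neg]
            rintro ⟨_, h⟩
            exact hv h.symm
        simp_rw [h6]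
        by_cases hex : ∃ k, MaxDense E k (ind k n)
        · obtain ⟨k0, hk0⟩ := hex
          rw [tsum_eq_single k0]
          · simp [hk0]
          · intro k hk
            rw [if_neg]
            intro h
            exact hk (maxDense_unique E n h hk0)
        · push Not at hex
          simp [hex]

end Pool.Agent.Lib.H58FracMax
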