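import Mathlib
import Pool.Agent.Lib.H58FracMaxCover

/-!
The key inequality: `∑ 2^{-k} S(k,v) ≤ C * var u` over cubes whose ancestors have geometrically
smaller averages (helper file for MP_2332c1_an, author helper58).
-/

open scoped ENNReal
open Finset MeasureTheory

namespace Pool.Agent.Lib.H58FracMax

variable {d : ℕ}

/-- sum of `u` over the cube -/
noncomputable def S (u : (Fin d → ℤ) → ℝ) (k : ℕ) (v : Fin d → ℤ) : ℝ := ∑ m ∈ cube k v, u m

/-- The cubes whose ancestors have geometrically smaller averages. -/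
def Fam (u : (Fin d → ℤ) → ℝ) (b K : ℝ) (k : ℕ) (v : Fin d → ℤ) : Prop :=
  ∀ j : ℕ, S u (k + j) (ind j v) * b ^ j ≤ K * (2 ^ d) ^ j * S u k v

lemma ofReal_sum_le {ι : Type*} (s : Finset ι) (f : ι → ℝ) :
    ENNReal.ofReal (∑ i ∈ s, f i) ≤ ∑ i ∈ s, ENNReal.ofReal (f i) := by
  classical
  induction s using Finset.induction_on with
  | empty => simp
  | insert i s hi ih =>
    rw [Finset.sum_insert hi, Finset.sum_insert hi]
    exact ENNReal.ofReal_add_le.trans (by gcongr)

lemma S_nonneg {u : (Fin d → ℤ) → ℝ} (hu : ∀ m, 0 ≤ u m) (k : ℕ) (v : Fin d → ℤ) :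
    0 ≤ S u k v := Finset.sum_nonneg fun m _ => hu m

lemma finite_super {u : (Fin d → ℤ) → ℝ} (hs : Summable u) {t : ℝ} (ht : 0 < t) :
    {m | t < u m}.Finite := by
  have h := hs.tendsto_cofinite_zero
  have h2 := h.eventually (gt_mem_nhds ht)
  rw [Filter.eventually_cofinite] at h2
  refine h2.subset ?_
  intro m hm
  simp only [Set.mem_ofPred_eq, not_lt] at *
  exact hm.le

open Classical in
/-- superlevel set -/
noncomputable def E {u : (Fin d → ℤ) → ℝ} (hs : Summable u) (t : ℝ) : Finset (Fin d → ℤ) :=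
  if ht : 0 < t then (finite_super hs ht).toFinset else ∅

lemma mem_E {u : (Fin d → ℤ) → ℝ} (hs : Summable u) {t : ℝ} (ht : 0 < t) (m : Fin d → ℤ) :
    m ∈ E hs t ↔ t < u m := by
  rw [E, dif_pos ht]; simp

lemma cnt_E_mul_le {u : (Fin d → ℤ) → ℝ} (hu : ∀ m, 0 ≤ u m) (hs : Summable u) {t : ℝ}
    (ht : 0 < t) (k : ℕ) (v : Fin d → ℤ) : t * cnt (E hs t) k v ≤ S u k v := by
  classical
  unfold cnt S
  calc t * (((cube k v).filter (· ∈ E hs t)).card : ℝ)
      = ∑ m ∈ (cube k v).filter (· ∈ E hs t), t := by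
        rw [Finset.sum_const, nsmul_eq_mul, mul_comm]
    _ ≤ ∑ m ∈ (cube k v).filter (· ∈ E hs t), u m := by
        refine Finset.sum_le_sum fun m hm => ?_
        rw [Finset.mem_filter, mem_E hs ht] at hm
        exact hm.2.le
    _ ≤ ∑ m ∈ cube k v, u m :=
        Finset.sum_le_sum_of_subset_of_nonneg (Finset.filter_subset _ _) fun m _ _ => hu m

lemma sparse_of_fam {u : (Fin d → ℤ) → ℝ} (hu : ∀ m, 0 ≤ u m) (hs : Summable u) {b K : ℝ}
    (hb : 1 < b) {j0 : ℕ} (hj0 : 2 * K * 2 ^ (d + 2) < b ^ j0) {k : ℕ} {v : Fin d → ℤ}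
    (hF : Fam u b K k v) {t : ℝ} (ht : 0 < t) (hS : S u k v ≤ 2 * t * (2 ^ k) ^ d)
    (hK : 0 ≤ K) : ∀ j, j0 ≤ j → Sparse (E hs t) (k + j) (ind j v) := by
  intro j hj
  have h1 := cnt_E_mul_le hu hs ht (k + j) (ind j v)
  have h2 := hF j
  have hbj : 0 < b ^ j := by positivity
  have h3 : 2 * K * 2 ^ (d + 2) < b ^ j := hj0.trans_le (pow_le_pow_right₀ hb.le hj)
  have h4 : t * cnt (E hs t) (k + j) (ind j v) * b ^ j ≤ K * (2 ^ d) ^ j * (2 * t * (2 ^ k) ^ d) := by
    calc t * cnt (E hs t) (k + j) (ind j v) * b ^ j ≤ S u (k + j) (ind j v) * b ^ j := by gcongr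
      _ ≤ K * (2 ^ d) ^ j * S u k v := h2
      _ ≤ _ := by gcongr
  have h5 : (cnt (E hs t) (k + j) (ind j v) : ℝ) * b ^ j ≤ 2 * K * 2 ^ ((k + j) * d) := by
    have h6 : t * ((cnt (E hs t) (k + j) (ind j v) : ℝ) * b ^ j) ≤ t * (2 * K * 2 ^ ((k + j) * d)) := by
      have h7 : (2 : ℝ) ^ ((k + j) * d) = (2 ^ d) ^ j * (2 ^ k) ^ d := by
        rw [← pow_mul, ← pow_mul, ← pow_add]; congr 1; ring
      rw [h7]
      calc _ = t * cnt (E hs t) (k + j) (ind j v) * b ^ j := by ring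
        _ ≤ _ := h4
        _ = _ := by ring
    exact le_of_mul_le_mul_left h6 ht
  have h8 : ((2 ^ (d + 2) * cnt (E hs t) (k + j) (ind j v) : ℕ) : ℝ) * b ^ j
      < ((2 ^ ((k + j) * d) : ℕ) : ℝ) * b ^ j := by
    push_cast
    calc (2 : ℝ) ^ (d + 2) * cnt (E hs t) (k + j) (ind j v) * b ^ j
        = 2 ^ (d + 2) * (cnt (E hs t) (k + j) (ind j v) * b ^ j) := by ring
      _ ≤ 2 ^ (d + 2) * (2 * K * 2 ^ ((k + j) * d)) := by gcongr
      _ = (2 * K * 2 ^ (d + 2)) * 2 ^ ((k + j) * d) := by ring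
      _ < b ^ j * 2 ^ ((k + j) * d) := by gcongr
      _ = _ := by ring
  have h9 := lt_of_mul_lt_mul_right h8 hbj.le
  unfold Sparse
  exact_mod_cast h9

open Classical in
lemma cnt_E_eq {u : (Fin d → ℤ) → ℝ} (hs : Summable u) {t : ℝ} (ht : 0 < t) (k : ℕ)
    (v : Fin d → ℤ) : (cnt (E hs t) k v : ℝ≥0∞) = ∑ m ∈ cube k v, if t < u m then 1 else 0 := by
  unfold cnt
  rw [Finset.sum_boole]
  congr 3
  ext m
  exact mem_E hs ht m

open Classical in
lemma cut_E {u : (Fin d → ℤ) → ℝ} (hs : Summable u) {t : ℝ} (ht : 0 < t) (x y : Fin d → ℤ) :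
    cut (E hs t : Set (Fin d → ℤ)) x y = if (t < u x ↔ t < u y) then 0 else 1 := by
  unfold cut
  simp [mem_E hs ht]

open Classical in
lemma lintegral_cut (p q : ℝ) :
    ∫⁻ t in Set.Ioi (0 : ℝ), (if (t < p ↔ t < q) then (0 : ℝ≥0∞) else 1) ≤ ENNReal.ofReal |p - q| := by
  have h1 : ∀ t : ℝ, (if (t < p ↔ t < q) then (0 : ℝ≥0∞) else 1)
      ≤ (Set.Ico (min p q) (max p q)).indicator 1 t := by
    intro t
    by_cases h : (t < p ↔ t < q)
    · rw [if_pos h]; exact zero_le
    · rw [if_neg h]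
      have : t ∈ Set.Ico (min p q) (max p q) := by
        rw [Set.mem_Ico]
        by_cases hp : t < p
        · have hq : ¬ t < q := fun hq => h ⟨fun _ => hq, fun _ => hp⟩
          push Not at hq
          exact ⟨min_le_of_right_le hq, lt_max_of_lt_left hp⟩
        · have hq : t < q := by
            by_contra hq
            exact h ⟨fun h1 => absurd h1 hp, fun h1 => absurd h1 hq⟩
          push Not at hp
          exact ⟨min_le_of_left_le hp, lt_max_of_lt_right hq⟩
      rw [Set.indicator_of_mem this]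
      simp
  calc _ ≤ ∫⁻ t in Set.Ioi (0 : ℝ), (Set.Ico (min p q) (max p q)).indicator 1 t :=
        lintegral_mono h1
    _ ≤ ∫⁻ t, (Set.Ico (min p q) (max p q)).indicator 1 t := setLIntegral_le_lintegral _ _
    _ = volume (Set.Ico (min p q) (max p q)) := lintegral_indicator_one measurableSet_Ico
    _ = ENNReal.ofReal |p - q| := by rw [Real.volume_Ico, max_sub_min_eq_abs']

open Classical in
lemma le_lintegral_ind (p c : ℝ) (hc : 0 ≤ c) :
    ENNReal.ofReal (p - c) ≤
      ∫⁻ t in Set.Ioi (0 : ℝ), (if (c ≤ t ∧ t < p) then (1 : ℝ≥0∞) else 0) := by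
  calc ENNReal.ofReal (p - c) = volume (Set.Ioo c p) := by rw [Real.volume_Ioo]
    _ = ∫⁻ t, (Set.Ioo c p).indicator 1 t := (lintegral_indicator_one measurableSet_Ioo).symm
    _ = ∫⁻ t in Set.Ioi (0 : ℝ), (Set.Ioo c p).indicator 1 t := by
        symm
        rw [← lintegral_indicator measurableSet_Ioi]
        congr 1
        funext t
        by_cases ht : t ∈ Set.Ioo c p
        · rw [Set.indicator_of_mem (show t ∈ Set.Ioi (0 : ℝ) from lt_of_le_of_lt hc ht.1)]
        · by_cases h0 : t ∈ Set.Ioi (0 : ℝ)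
          · rw [Set.indicator_of_mem h0]
          · rw [Set.indicator_of_notMem h0, Set.indicator_of_notMem ht]
    _ ≤ _ := by
        refine lintegral_mono fun t => ?_
        by_cases ht : t ∈ Set.Ioo c p
        · rw [Set.indicator_of_mem ht, if_pos ⟨ht.1.le, ht.2⟩]; simp
        · rw [Set.indicator_of_notMem ht]; exact zero_le

open Classical in
lemma meas_ind (p c : ℝ) : Measurable (fun t : ℝ => if (c ≤ t ∧ t < p) then (1 : ℝ≥0∞) else 0) :=
  Measurable.ite measurableSet_Ico measurable_const measurable_const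

open Classical in
lemma S_le_lintegral {u : (Fin d → ℤ) → ℝ} (hu : ∀ m, 0 ≤ u m) (k : ℕ) (v : Fin d → ℤ) :
    ENNReal.ofReal (S u k v) ≤ 2 * ∫⁻ t in Set.Ioi (0 : ℝ),
      ∑ m ∈ cube k v, (if (S u k v / (2 * (2 ^ k) ^ d) ≤ t ∧ t < u m) then (1 : ℝ≥0∞) else 0) := by
  set c := S u k v / (2 * (2 ^ k) ^ d) with hc
  have hc0 : 0 ≤ c := div_nonneg (S_nonneg hu k v) (by positivity)
  rw [lintegral_finsetSum _ (fun m _ => meas_ind (u m) c)]
  have h1 : ENNReal.ofReal (S u k v / 2) ≤ ∑ m ∈ cube k v, ∫⁻ t in Set.Ioi (0 : ℝ),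
      (if (c ≤ t ∧ t < u m) then (1 : ℝ≥0∞) else 0) := by
    calc ENNReal.ofReal (S u k v / 2) = ENNReal.ofReal (∑ m ∈ cube k v, (u m - c)) := by
          congr 1
          rw [Finset.sum_sub_distrib, Finset.sum_const, card_cube, nsmul_eq_mul, hc]
          change _ = S u k v - _
          push_cast
          rw [pow_mul]
          field_simp
          ring
      _ ≤ ∑ m ∈ cube k v, ENNReal.ofReal (u m - c) := ofReal_sum_le _ _
      _ ≤ _ := Finset.sum_le_sum fun m _ => le_lintegral_ind (u m) c hc0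
  calc ENNReal.ofReal (S u k v) = 2 * ENNReal.ofReal (S u k v / 2) := by
        rw [show (2 : ℝ≥0∞) = ENNReal.ofReal 2 by simp, ← ENNReal.ofReal_mul (by norm_num)]
        congr 1; ring
    _ ≤ _ := by gcongr

open Classical in
/-- **Key inequality.** -/
theorem key (hd : 1 ≤ d) (b K : ℝ) (hb : 1 < b) (hK : 0 ≤ K) :
    ∃ C : ℝ≥0∞, C ≠ ⊤ ∧ ∀ u : (Fin d → ℤ) → ℝ, (∀ m, 0 ≤ u m) → Summable u →
      ∑' k : ℕ, ∑' v : Fin d → ℤ,
        (if Fam u b K k v then ((2 : ℝ≥0∞) ^ k)⁻¹ * ENNReal.ofReal (S u k v) else 0)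
      ≤ C * ∑' n : Fin d → ℤ, ∑ i, ENNReal.ofReal |u n - u (n + e i)| := by
  obtain ⟨j0, hj0⟩ := pow_unbounded_of_one_lt (2 * K * 2 ^ (d + 2)) hb
  refine ⟨2 * (2 ^ j0 * 2), by simp [ENNReal.mul_eq_top], fun u hu hs => ?_⟩
  -- the integrand
  let c : ℕ → (Fin d → ℤ) → ℝ := fun k v => S u k v / (2 * (2 ^ k) ^ d)
  let G : ℕ → (Fin d → ℤ) → ℝ → ℝ≥0∞ := fun k v t =>
    (if Fam u b K k v then ((2 : ℝ≥0∞) ^ k)⁻¹ else 0) *
      ∑ m ∈ cube k v, (if (c k v ≤ t ∧ t < u m) then (1 : ℝ≥0∞) else 0)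
  have hGm : ∀ k v, Measurable (G k v) := fun k v =>
    Measurable.const_mul (Finset.measurable_sum _ (fun m _ => meas_ind (u m) (c k v))) _
  have h1 : ∀ k v, (if Fam u b K k v then ((2 : ℝ≥0∞) ^ k)⁻¹ * ENNReal.ofReal (S u k v) else 0)
      ≤ 2 * ∫⁻ t in Set.Ioi (0 : ℝ), G k v t := by
    intro k v
    by_cases hF : Fam u b K k v
    · simp only [G, if_pos hF]
      rw [lintegral_const_mul _ (Finset.measurable_sum _ (fun m _ => meas_ind (u m) (c k v)))]
      calc ((2 : ℝ≥0∞) ^ k)⁻¹ * ENNReal.ofReal (S u k v)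
          ≤ ((2 : ℝ≥0∞) ^ k)⁻¹ * (2 * ∫⁻ t in Set.Ioi (0 : ℝ),
            ∑ m ∈ cube k v, (if (c k v ≤ t ∧ t < u m) then (1 : ℝ≥0∞) else 0)) := by
            gcongr
            exact S_le_lintegral hu k v
        _ = _ := by ring
    · rw [if_neg hF]; exact zero_le
  calc ∑' k : ℕ, ∑' v : Fin d → ℤ,
        (if Fam u b K k v then ((2 : ℝ≥0∞) ^ k)⁻¹ * ENNReal.ofReal (S u k v) else 0)
      ≤ ∑' k : ℕ, ∑' v : Fin d → ℤ, 2 * ∫⁻ t in Set.Ioi (0 : ℝ), G k v t :=
        ENNReal.tsum_le_tsum fun k => ENNReal.tsum_le_tsum fun v => h1 k v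
    _ = 2 * ∫⁻ t in Set.Ioi (0 : ℝ), ∑' k : ℕ, ∑' v : Fin d → ℤ, G k v t := by
        simp_rw [ENNReal.tsum_mul_left]
        congr 1
        rw [lintegral_tsum (fun k => (Measurable.tsum (fun v => hGm k v)).aemeasurable)]
        refine tsum_congr fun k => ?_
        rw [lintegral_tsum (fun v => (hGm k v).aemeasurable)]
    _ ≤ 2 * ∫⁻ t in Set.Ioi (0 : ℝ), 2 ^ j0 * (2 * ∑' n : Fin d → ℤ, ∑ i,
          (if (t < u n ↔ t < u (n + e i)) then (0 : ℝ≥0∞) else 1)) := by
        gcongr 2 * ?_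
        refine setLIntegral_mono' measurableSet_Ioi fun t ht => ?_
        have ht' : 0 < t := ht
        have h2 := cover hd (E hs t) j0
        simp_rw [cut_E hs ht'] at h2
        refine le_trans ?_ h2
        refine ENNReal.tsum_le_tsum fun k => ENNReal.tsum_le_tsum fun v => ?_
        by_cases hc : c k v ≤ t
        · have h3 : ∑ m ∈ cube k v, (if (c k v ≤ t ∧ t < u m) then (1 : ℝ≥0∞) else 0)
              = cnt (E hs t) k v := by
            rw [cnt_E_eq hs ht']
            refine Finset.sum_congr rfl fun m _ => ?_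
            simp [hc]
          simp only [G, h3]
          gcongr
          by_cases hF : Fam u b K k v
          · rw [if_pos hF, if_pos]
            refine sparse_of_fam hu hs hb hj0 hF ht' ?_ hK
            have h4 : S u k v / (2 * (2 ^ k) ^ d) ≤ t := hc
            rw [div_le_iff₀ (by positivity)] at h4
            linarith
          · rw [if_neg hF]; exact zero_le
        · have h3 : ∑ m ∈ cube k v, (if (c k v ≤ t ∧ t < u m) then (1 : ℝ≥0∞) else 0) = 0 := by
            refine Finset.sum_eq_zero fun m _ => ?_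
            rw [if_neg]
            exact fun h => hc h.1
          simp only [G, h3, mul_zero]
          exact zero_le
    _ = 2 * (2 ^ j0 * (2 * ∑' n : Fin d → ℤ, ∑ i, ∫⁻ t in Set.Ioi (0 : ℝ),
          (if (t < u n ↔ t < u (n + e i)) then (0 : ℝ≥0∞) else 1))) := by
        have hm : ∀ p q : ℝ, Measurable (fun t : ℝ => if (t < p ↔ t < q) then (0 : ℝ≥0∞) else 1) := by
          intro p q
          refine Measurable.ite ?_ measurable_const measurable_const
          have : {t : ℝ | t < p ↔ t < q} = (Set.Iio p ∩ Set.Iio q) ∪ ((Set.Iio p)ᶜ ∩ (Set.Iio q)ᶜ) := by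
            ext t
            simp only [Set.mem_ofPred_eq, Set.mem_union, Set.mem_inter_iff, Set.mem_Iio,
              Set.mem_compl_iff]
            tauto
          rw [this]
          exact ((measurableSet_Iio.inter measurableSet_Iio).union
            (measurableSet_Iio.compl.inter measurableSet_Iio.compl))
        have hm2 : ∀ n : Fin d → ℤ, Measurable (fun t : ℝ => ∑ i,
            (if (t < u n ↔ t < u (n + e i)) then (0 : ℝ≥0∞) else 1)) :=
          fun n => Finset.measurable_sum _ (fun i _ => hm _ _)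
        rw [lintegral_const_mul' _ _ (by simp), lintegral_const_mul' _ _ (by simp),
          lintegral_tsum (fun n => (hm2 n).aemeasurable)]
        congr 4
        funext n
        rw [lintegral_finsetSum _ (fun i _ => hm _ _)]
    _ ≤ 2 * (2 ^ j0 * (2 * ∑' n : Fin d → ℤ, ∑ i, ENNReal.ofReal |u n - u (n + e i)|)) := by
        gcongr with n i _
        exact lintegral_cut _ _
    _ = _ := by ring

end Pool.Agent.Lib.H58FracMax
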