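import Mathlib
import Pool.Agent.Lib.H58FracMaxKey

/-!
Summation part: interpolation and counting (helper file for MP_2332c1_an, author helper58).
-/

open scoped ENNReal
open Finset MeasureTheory

namespace Pool.Agent.Lib.H58FracMax

variable {d : ℕ}

/-- `∑ a^q ≤ (∑ a)^q` for `q ≥ 1`. -/
lemma tsum_rpow_le {ι : Type*} (a : ι → ℝ≥0∞) {q : ℝ} (hq : 1 ≤ q) :
    ∑' i, a i ^ q ≤ (∑' i, a i) ^ q := by
  have h1 : ∀ x : ℝ≥0∞, x ^ q = x * x ^ (q - 1) := by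
    intro x
    have := ENNReal.rpow_add_of_nonneg (x := x) 1 (q - 1) zero_le_one (by linarith)
    rw [ENNReal.rpow_one] at this
    rw [← this]; congr 1; ring
  rw [h1 (∑' i, a i), ← ENNReal.tsum_mul_right]
  refine ENNReal.tsum_le_tsum fun i => ?_
  rw [h1]
  gcongr
  exact ENNReal.le_tsum i

/-- interpolation lemma -/
lemma interp {α : ℝ} (hα0 : 0 ≤ α) (hα1 : α < 1) :
    ∃ C : ℝ≥0∞, C ≠ ⊤ ∧ ∀ (a : ℕ → ℝ≥0∞) (A U : ℝ≥0∞), A ≠ ⊤ → U ≠ ⊤ →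
      ∑' k, a k ≤ A → (∀ k, (2 : ℝ≥0∞) ^ k * a k ≤ U) →
      ∑' k, ((2 : ℝ≥0∞) ^ k) ^ α * a k ≤ C * (A ^ (1 - α) * U ^ α) := by
  set ρ : ℝ≥0∞ := (2 : ℝ≥0∞) ^ (-(1 - α)) with hρ
  have hρ1 : ρ < 1 := by
    rw [hρ]
    exact ENNReal.rpow_lt_one_of_one_lt_of_neg (by norm_num) (by linarith)
  refine ⟨1 + (1 - ρ)⁻¹, ?_, fun a A U hA hU hsum hk => ?_⟩
  · refine ENNReal.add_ne_top.mpr ⟨ENNReal.one_ne_top, ?_⟩
    rw [ENNReal.inv_ne_top]
    exact (tsub_pos_of_lt hρ1).ne'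
  by_cases hA0 : A = 0
  · have : ∀ k, a k = 0 := by
      intro k
      have h1 := (ENNReal.le_tsum k).trans hsum
      rw [hA0] at h1
      exact le_antisymm h1 zero_le
    simp [this]
  by_cases hU0 : U = 0
  · have : ∀ k, a k = 0 := by
      intro k
      have h1 := hk k
      rw [hU0] at h1
      have h2 : (2 : ℝ≥0∞) ^ k * a k = 0 := le_antisymm h1 zero_le
      rcases mul_eq_zero.mp h2 with h | h
      · exfalso; exact (pow_ne_zero k (by norm_num : (2 : ℝ≥0∞) ≠ 0)) h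
      · exact h
    simp [this]
  set T : ℝ≥0∞ := U / A with hT
  have hT0 : T ≠ 0 := by rw [hT]; exact (ENNReal.div_pos hU0 hA).ne'
  have hTt : T ≠ ⊤ := by rw [hT]; exact ENNReal.div_ne_top hU hA0
  -- g
  let g : ℕ → ℝ≥0∞ := fun k => if T < 2 ^ k then ((2 : ℝ≥0∞) ^ k / T) ^ (-(1 - α)) else 0
  have hg : ∑' k, g k ≤ (1 - ρ)⁻¹ := by
    obtain ⟨k1, hk1⟩ : ∃ k : ℕ, T < 2 ^ k := by
      obtain ⟨n, hn⟩ := ENNReal.exists_nat_gt hTt
      refine ⟨n, hn.trans ?_⟩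
      have : n < 2 ^ n := Nat.lt_two_pow_self
      exact_mod_cast this
    classical
    let k0 := Nat.find (⟨k1, hk1⟩ : ∃ k : ℕ, T < (2 : ℝ≥0∞) ^ k)
    have hk0 : T < (2 : ℝ≥0∞) ^ k0 := Nat.find_spec (⟨k1, hk1⟩ : ∃ k : ℕ, T < (2 : ℝ≥0∞) ^ k)
    have hk0' : ∀ k < k0, ¬ T < (2 : ℝ≥0∞) ^ k := fun k hk => Nat.find_min _ hk
    rw [← ENNReal.summable.sum_add_tsum_nat_add' (k := k0)]
    have h2 : ∑ i ∈ Finset.range k0, g i = 0 := by
      refine Finset.sum_eq_zero fun i hi => ?_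
      rw [Finset.mem_range] at hi
      simp only [g]
      rw [if_neg (hk0' i hi)]
    rw [h2, zero_add, ← ENNReal.tsum_geometric]
    refine ENNReal.tsum_le_tsum fun i => ?_
    simp only [g]
    split_ifs
    · rw [pow_add, mul_div_assoc]
      rw [ENNReal.mul_rpow_of_ne_top (by simp) (ENNReal.div_ne_top (by simp) hT0)]
      have h3 : ((2 : ℝ≥0∞) ^ i) ^ (-(1 - α)) = ρ ^ i := by
        rw [hρ, ← ENNReal.rpow_natCast, ← ENNReal.rpow_mul, mul_comm, ENNReal.rpow_mul,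
          ENNReal.rpow_natCast]
      rw [h3]
      have h4 : ((2 : ℝ≥0∞) ^ k0 / T) ^ (-(1 - α)) ≤ 1 := by
        rw [ENNReal.rpow_neg, ENNReal.inv_le_one]
        refine ENNReal.one_le_rpow ?_ (by linarith)
        rw [ENNReal.le_div_iff_mul_le (Or.inl hT0) (Or.inl hTt), one_mul]
        exact hk0.le
      calc ρ ^ i * ((2 : ℝ≥0∞) ^ k0 / T) ^ (-(1 - α)) ≤ ρ ^ i * 1 := by gcongr
        _ = ρ ^ i := mul_one _
    · exact zero_le
  have hkey : ∀ k, ((2 : ℝ≥0∞) ^ k) ^ α * a k ≤ T ^ α * a k + U * T ^ (-(1 - α)) * g k := by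
    intro k
    by_cases h : T < 2 ^ k
    · refine le_add_left ?_
      simp only [g, if_pos h]
      have h2k0 : (2 : ℝ≥0∞) ^ k ≠ 0 := by positivity
      have h2kt : (2 : ℝ≥0∞) ^ k ≠ ⊤ := by simp
      have h3 : T ^ (-(1 - α)) * ((2 : ℝ≥0∞) ^ k / T) ^ (-(1 - α)) = ((2 : ℝ≥0∞) ^ k) ^ (-(1 - α)) := by
        rw [← ENNReal.mul_rpow_of_ne_top hTt (ENNReal.div_ne_top h2kt hT0),
          ENNReal.mul_div_cancel hT0 hTt]
      have h4 : ((2 : ℝ≥0∞) ^ k) ^ α = (2 : ℝ≥0∞) ^ k * ((2 : ℝ≥0∞) ^ k) ^ (-(1 - α)) := by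
        conv_rhs => rw [← ENNReal.rpow_one ((2 : ℝ≥0∞) ^ k)]
        rw [ENNReal.rpow_one ((2 : ℝ≥0∞) ^ k)]
        conv_rhs => enter [1]; rw [← ENNReal.rpow_one ((2 : ℝ≥0∞) ^ k)]
        rw [← ENNReal.rpow_add _ _ h2k0 h2kt]
        congr 1; ring
      calc ((2 : ℝ≥0∞) ^ k) ^ α * a k = ((2 : ℝ≥0∞) ^ k * a k) * ((2 : ℝ≥0∞) ^ k) ^ (-(1 - α)) := by
            rw [h4]; ring
        _ ≤ U * ((2 : ℝ≥0∞) ^ k) ^ (-(1 - α)) := by gcongr; exact hk k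
        _ = _ := by rw [← h3]; ring
    · push Not at h
      refine le_add_right ?_
      gcongr
  calc ∑' k, ((2 : ℝ≥0∞) ^ k) ^ α * a k ≤ ∑' k, (T ^ α * a k + U * T ^ (-(1 - α)) * g k) :=
        ENNReal.tsum_le_tsum hkey
    _ = T ^ α * ∑' k, a k + U * T ^ (-(1 - α)) * ∑' k, g k := by
        rw [ENNReal.tsum_add, ENNReal.tsum_mul_left, ENNReal.tsum_mul_left]
    _ ≤ T ^ α * A + U * T ^ (-(1 - α)) * (1 - ρ)⁻¹ := by gcongr
    _ = (1 + (1 - ρ)⁻¹) * (A ^ (1 - α) * U ^ α) := by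
        have h5 : T ^ α * A = A ^ (1 - α) * U ^ α := by
          rw [hT, ENNReal.div_rpow_of_nonneg _ _ hα0]
          have : A = A ^ (1 - α) * A ^ α := by
            rw [← ENNReal.rpow_add _ _ hA0 hA, sub_add_cancel, ENNReal.rpow_one]
          conv_lhs => enter [2]; rw [this]
          have hAα0 : A ^ α ≠ 0 := by
            intro h
            rcases (ENNReal.rpow_eq_zero_iff).mp h with h | h
            · exact hA0 h.1
            · exact hA h.1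
          have hAαt : A ^ α ≠ ⊤ := ENNReal.rpow_ne_top_of_nonneg hα0 hA
          calc U ^ α / A ^ α * (A ^ (1 - α) * A ^ α) = A ^ (1 - α) * (U ^ α / A ^ α * A ^ α) := by ring
            _ = _ := by rw [ENNReal.div_mul_cancel hAα0 hAαt]
        have h6 : U * T ^ (-(1 - α)) = A ^ (1 - α) * U ^ α := by
          rw [ENNReal.rpow_neg, ← ENNReal.inv_rpow, hT, ENNReal.inv_div (Or.inl hA) (Or.inl hA0),
            ENNReal.div_rpow_of_nonneg _ _ (by linarith)]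
          have : U = U ^ α * U ^ (1 - α) := by
            rw [← ENNReal.rpow_add _ _ hU0 hU, add_sub_cancel, ENNReal.rpow_one]
          conv_lhs => enter [1]; rw [this]
          have hU1 : U ^ (1 - α) ≠ 0 := by
            intro h
            rcases (ENNReal.rpow_eq_zero_iff).mp h with h | h
            · exact hU0 h.1
            · exact hU h.1
          have hU2 : U ^ (1 - α) ≠ ⊤ := ENNReal.rpow_ne_top_of_nonneg (by linarith) hU
          calc U ^ α * U ^ (1 - α) * (A ^ (1 - α) / U ^ (1 - α))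
              = U ^ α * (U ^ (1 - α) * (A ^ (1 - α) / U ^ (1 - α))) := by ring
            _ = U ^ α * A ^ (1 - α) := by rw [ENNReal.mul_div_cancel hU1 hU2]
            _ = _ := by ring
        rw [h5, h6]; ring

/-- `ℓ¹` mass of `u` -/
noncomputable def mass (u : (Fin d → ℤ) → ℝ) : ℝ≥0∞ := ∑' n, ENNReal.ofReal (u n)

/-- variation of `u` -/
noncomputable def var (u : (Fin d → ℤ) → ℝ) : ℝ≥0∞ :=
  ∑' n : Fin d → ℤ, ∑ i, ENNReal.ofReal |u n - u (n + e i)|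

lemma mass_ne_top {u : (Fin d → ℤ) → ℝ} (hu : ∀ m, 0 ≤ u m) (hs : Summable u) : mass u ≠ ⊤ := by
  unfold mass
  rw [← ENNReal.ofReal_tsum_of_nonneg hu hs]
  exact ENNReal.ofReal_ne_top

lemma var_ne_top {u : (Fin d → ℤ) → ℝ} (hs : Summable u) : var u ≠ ⊤ := by
  unfold var
  rw [Summable.tsum_finsetSum (fun _ _ => ENNReal.summable)]
  rw [ENNReal.sum_ne_top]
  intro i _
  have h1 : Summable (fun n => |u n - u (n + e i)|) := by
    have h2 : Summable (fun n => u (n + e i)) := hs.comp_injective (add_left_injective (e i))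
    exact (hs.sub h2).abs
  rw [← ENNReal.ofReal_tsum_of_nonneg (fun _ => abs_nonneg _) h1]
  exact ENNReal.ofReal_ne_top

lemma tsum_S {u : (Fin d → ℤ) → ℝ} (hu : ∀ m, 0 ≤ u m) (k : ℕ) :
    ∑' v, ENNReal.ofReal (S u k v) = mass u := by
  classical
  have h1 : ∀ v, ENNReal.ofReal (S u k v)
      = ∑' m : Fin d → ℤ, if ind k m = v then ENNReal.ofReal (u m) else 0 := by
    intro v
    unfold S
    rw [ENNReal.ofReal_sum_of_nonneg (fun m _ => hu m)]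
    rw [tsum_eq_sum (s := cube k v)]
    · refine Finset.sum_congr rfl fun m hm => ?_
      rw [mem_cube] at hm
      rw [if_pos hm]
    · intro m hm
      rw [mem_cube] at hm
      rw [if_neg hm]
  simp_rw [h1]
  rw [ENNReal.tsum_comm]
  refine tsum_congr fun m => ?_
  rw [tsum_eq_single (ind k m)]
  · simp
  · intro v hv
    rw [if_neg (Ne.symm hv)]

/-- near -/
def Near (R : ℕ) (n : Fin d → ℤ) (k : ℕ) (v : Fin d → ℤ) : Prop :=
  ∀ i, |n i - 2 ^ k * v i| ≤ R * 2 ^ k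

open Classical in
lemma tsum_near (R k : ℕ) (v : Fin d → ℤ) :
    ∑' n : Fin d → ℤ, (if Near R n k v then (1 : ℝ≥0∞) else 0) ≤
      ((2 * R + 1 : ℕ) : ℝ≥0∞) ^ d * ((2 : ℝ≥0∞) ^ k) ^ d := by
  let P : Finset (Fin d → ℤ) := box (fun i => 2 ^ k * v i - R * 2 ^ k) ((2 * R + 1) * 2 ^ k)
  have h1 : ∀ n, n ∉ P → (if Near R n k v then (1 : ℝ≥0∞) else 0) = 0 := by
    intro n hn
    rw [if_neg]
    intro h
    apply hn
    simp only [P]
    rw [mem_box]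
    intro i
    have h2 := h i
    rw [abs_le] at h2
    have h3 : (0 : ℤ) < 2 ^ k := by positivity
    push_cast
    constructor
    · linarith
    · nlinarith
  rw [tsum_eq_sum (s := P) (fun n hn => h1 n hn)]
  calc ∑ n ∈ P, (if Near R n k v then (1 : ℝ≥0∞) else 0) ≤ ∑ n ∈ P, 1 := by
        refine Finset.sum_le_sum fun n _ => ?_
        split_ifs <;> simp
    _ = ((2 * R + 1 : ℕ) : ℝ≥0∞) ^ d * ((2 : ℝ≥0∞) ^ k) ^ d := by
        simp only [P, Finset.sum_const, card_box, nsmul_eq_mul, mul_one]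
        push_cast
        rw [mul_pow]

open Classical in
/-- Summation theorem: if the `i`-th increments of `M` are controlled by cubes of the family,
then the endpoint bound holds. -/
theorem summation (hd : 1 ≤ d) {α β q : ℝ} (hα0 : 0 ≤ α) (hα1 : α < 1) (hαβ : α ≤ β)
    (hβ0 : 0 < β) (hβd : β - α < d) (hq : q = d / (d - β + α)) (K : ℝ) (hK : 0 ≤ K) (R : ℕ)
    (C₀ : ℝ≥0∞) (hC₀ : C₀ ≠ ⊤) :
    ∃ C : ℝ≥0∞, C ≠ ⊤ ∧ ∀ u : (Fin d → ℤ) → ℝ, (∀ m, 0 ≤ u m) → Summable u →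
      ∀ g : (Fin d → ℤ) → ℝ≥0∞, (∀ n, g n = 0 ∨ ∃ k v, Fam u ((2 : ℝ) ^ β) K k v ∧ Near R n k v ∧
        g n ≤ C₀ * (((2 : ℝ≥0∞) ^ k) ^ (-(d - β + 1)) * ENNReal.ofReal (S u k v))) →
      ∑' n, g n ^ q ≤ (C * (var u ^ (1 - α) * mass u ^ α)) ^ q := by
  have hdpos : (0 : ℝ) < d := by exact_mod_cast hd
  have hden : 0 < (d : ℝ) - β + α := by linarith
  have hq1 : 1 ≤ q := by
    rw [hq, le_div_iff₀ hden]; linarith
  have hq0 : 0 < q := by linarith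
  have hb : 1 < (2 : ℝ) ^ β := Real.one_lt_rpow (by norm_num) hβ0
  obtain ⟨C₁, hC₁, hkey⟩ := key hd ((2 : ℝ) ^ β) K hb hK
  obtain ⟨C₂, hC₂, hint⟩ := interp hα0 hα1
  set N₀ : ℝ≥0∞ := ((2 * R + 1 : ℕ) : ℝ≥0∞) ^ d with hN₀
  have hN₀t : N₀ ≠ ⊤ := by rw [hN₀]; exact ENNReal.pow_ne_top (ENNReal.natCast_ne_top _)
  refine ⟨N₀ ^ (1 / q) * C₀ * (C₂ * C₁ ^ (1 - α)), ?_, fun u hu hs g hg => ?_⟩
  · refine ENNReal.mul_ne_top (ENNReal.mul_ne_top ?_ hC₀) (ENNReal.mul_ne_top hC₂ ?_)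
    · exact ENNReal.rpow_ne_top_of_nonneg (by positivity) hN₀t
    · exact ENNReal.rpow_ne_top_of_nonneg (by linarith) hC₁
  set F : ℕ → (Fin d → ℤ) → ℝ≥0∞ := fun k v =>
    if Fam u ((2 : ℝ) ^ β) K k v then ENNReal.ofReal (S u k v) else 0 with hF
  -- pointwise bound
  have h1 : ∀ n, g n ^ q ≤ ∑' k : ℕ, ∑' v : Fin d → ℤ,
      (if Near R n k v then (1 : ℝ≥0∞) else 0) *
        (C₀ * (((2 : ℝ≥0∞) ^ k) ^ (-(d - β + 1)) * F k v)) ^ q := by
    intro n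
    rcases hg n with h | ⟨k, v, hFam, hN, hle⟩
    · rw [h, ENNReal.zero_rpow_of_pos hq0]; exact zero_le
    · refine le_trans ?_ (ENNReal.le_tsum k)
      refine le_trans ?_ (ENNReal.le_tsum v)
      rw [if_pos hN, one_mul]
      simp only [hF]
      rw [if_pos hFam]
      exact ENNReal.rpow_le_rpow hle hq0.le
  -- sum over n
  have h2 : ∑' n, g n ^ q ≤ N₀ * C₀ ^ q * ∑' k : ℕ, ∑' v : Fin d → ℤ,
      (((2 : ℝ≥0∞) ^ k) ^ α * (((2 : ℝ≥0∞) ^ k)⁻¹ * F k v)) ^ q := by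
    calc ∑' n, g n ^ q ≤ ∑' n : Fin d → ℤ, ∑' k : ℕ, ∑' v : Fin d → ℤ,
          (if Near R n k v then (1 : ℝ≥0∞) else 0) *
            (C₀ * (((2 : ℝ≥0∞) ^ k) ^ (-(d - β + 1)) * F k v)) ^ q := ENNReal.tsum_le_tsum h1
      _ = ∑' k : ℕ, ∑' v : Fin d → ℤ, ∑' n : Fin d → ℤ,
          (if Near R n k v then (1 : ℝ≥0∞) else 0) *
            (C₀ * (((2 : ℝ≥0∞) ^ k) ^ (-(d - β + 1)) * F k v)) ^ q := by
          rw [ENNReal.tsum_comm]
          refine tsum_congr fun k => ?_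
          rw [ENNReal.tsum_comm]
      _ ≤ ∑' k : ℕ, ∑' v : Fin d → ℤ, (N₀ * ((2 : ℝ≥0∞) ^ k) ^ d) *
            (C₀ * (((2 : ℝ≥0∞) ^ k) ^ (-(d - β + 1)) * F k v)) ^ q := by
          refine ENNReal.tsum_le_tsum fun k => ENNReal.tsum_le_tsum fun v => ?_
          rw [ENNReal.tsum_mul_right]
          gcongr
          exact tsum_near R k v
      _ = ∑' k : ℕ, ∑' v : Fin d → ℤ, (N₀ * C₀ ^ q) *
            (((2 : ℝ≥0∞) ^ k) ^ α * (((2 : ℝ≥0∞) ^ k)⁻¹ * F k v)) ^ q := by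
          refine tsum_congr fun k => tsum_congr fun v => ?_
          have h2k0 : (2 : ℝ≥0∞) ^ k ≠ 0 := by positivity
          have h2kt : (2 : ℝ≥0∞) ^ k ≠ ⊤ := by simp
          rw [ENNReal.mul_rpow_of_nonneg _ _ hq0.le, ENNReal.mul_rpow_of_nonneg _ _ hq0.le,
            ENNReal.mul_rpow_of_nonneg _ _ hq0.le, ENNReal.mul_rpow_of_nonneg _ _ hq0.le]
          have h3 : ((2 : ℝ≥0∞) ^ k) ^ d * (((2 : ℝ≥0∞) ^ k) ^ (-(d - β + 1))) ^ q
              = (((2 : ℝ≥0∞) ^ k) ^ α) ^ q * (((2 : ℝ≥0∞) ^ k)⁻¹) ^ q := by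
            rw [← ENNReal.rpow_natCast ((2 : ℝ≥0∞) ^ k) d, ← ENNReal.rpow_mul, ← ENNReal.rpow_mul,
              ← ENNReal.rpow_neg_one, ← ENNReal.rpow_mul, ← ENNReal.rpow_add _ _ h2k0 h2kt,
              ← ENNReal.rpow_add _ _ h2k0 h2kt]
            congr 1
            rw [hq]
            field_simp
            ring
          calc N₀ * ((2 : ℝ≥0∞) ^ k) ^ d * (C₀ ^ q * ((((2 : ℝ≥0∞) ^ k) ^ (-(d - β + 1))) ^ q * F k v ^ q))
              = N₀ * C₀ ^ q * ((((2 : ℝ≥0∞) ^ k) ^ d * (((2 : ℝ≥0∞) ^ k) ^ (-(d - β + 1))) ^ q)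
                * F k v ^ q) := by ring
            _ = _ := by rw [h3]; ring
      _ = _ := by simp_rw [ENNReal.tsum_mul_left]
  -- the double sum
  set a : ℕ → ℝ≥0∞ := fun k => ∑' v : Fin d → ℤ, ((2 : ℝ≥0∞) ^ k)⁻¹ * F k v with ha
  have h3 : ∑' k : ℕ, ∑' v : Fin d → ℤ,
      (((2 : ℝ≥0∞) ^ k) ^ α * (((2 : ℝ≥0∞) ^ k)⁻¹ * F k v)) ^ q
      ≤ (∑' k, ((2 : ℝ≥0∞) ^ k) ^ α * a k) ^ q := by
    calc _ ≤ ∑' k : ℕ, (((2 : ℝ≥0∞) ^ k) ^ α * a k) ^ q := by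
          refine ENNReal.tsum_le_tsum fun k => ?_
          refine (tsum_rpow_le _ hq1).trans ?_
          rw [ENNReal.tsum_mul_left]
      _ ≤ _ := tsum_rpow_le _ hq1
  have h4 : ∑' k, a k ≤ C₁ * var u := by
    have := hkey u hu hs
    refine le_trans (le_of_eq ?_) this
    refine tsum_congr fun k => tsum_congr fun v => ?_
    simp only [hF]
    split_ifs <;> simp
  have h5 : ∀ k, (2 : ℝ≥0∞) ^ k * a k ≤ mass u := by
    intro k
    simp only [ha]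
    rw [ENNReal.tsum_mul_left, ← mul_assoc, ENNReal.mul_inv_cancel (by positivity) (by simp),
      one_mul, ← tsum_S hu k]
    refine ENNReal.tsum_le_tsum fun v => ?_
    simp only [hF]
    split_ifs
    · exact le_rfl
    · exact zero_le
  have h6 := hint a (C₁ * var u) (mass u) (ENNReal.mul_ne_top hC₁ (var_ne_top hs))
    (mass_ne_top hu hs) h4 h5
  calc ∑' n, g n ^ q ≤ N₀ * C₀ ^ q * (C₂ * ((C₁ * var u) ^ (1 - α) * mass u ^ α)) ^ q := by
        refine h2.trans ?_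
        gcongr
        exact h3.trans (ENNReal.rpow_le_rpow h6 hq0.le)
    _ = (N₀ ^ (1 / q) * C₀ * (C₂ * C₁ ^ (1 - α)) * (var u ^ (1 - α) * mass u ^ α)) ^ q := by
        have h7 : N₀ = (N₀ ^ (1 / q)) ^ q := by
          rw [← ENNReal.rpow_mul, one_div, inv_mul_cancel₀ hq0.ne', ENNReal.rpow_one]
        conv_lhs => enter [1, 1]; rw [h7]
        rw [← ENNReal.mul_rpow_of_nonneg _ _ hq0.le, ← ENNReal.mul_rpow_of_nonneg _ _ hq0.le,
          ENNReal.mul_rpow_of_nonneg _ _ (by linarith : 0 ≤ 1 - α)]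
        congr 1
        ring

end Pool.Agent.Lib.H58FracMax
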