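import Mathlib
import Pool.Agent.Lib.H58FracMaxSum

/-!
From maximal averages over an abstract family of finite sets to dyadic cubes
(helper file for MP_2332c1_an, author helper58).
-/

open scoped ENNReal
open Finset

namespace Pool.Agent.Lib.H58FracMax

variable {d : ℕ}

/-- regularity of the family of averaging sets with constant `C` -/
structure Good (𝒟 : (Fin d → ℤ) → Set (Finset (Fin d → ℤ))) (C : ℝ) : Prop where
  one_le : 1 ≤ C
  size : ∀ n, ∀ B ∈ 𝒟 n, ∃ l : ℝ, 1 ≤ l ∧ l ^ d ≤ C * B.card ∧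
    (∀ m ∈ B, ∀ i, |(m i : ℝ) - n i| ≤ C * l) ∧
    (∀ i, ∃ B' ∈ 𝒟 (n + e i), B ⊆ B' ∧ ((B'.card : ℝ) - B.card) * l ≤ C * B'.card) ∧
    (∀ i, ∃ B' ∈ 𝒟 (n - e i), B ⊆ B' ∧ ((B'.card : ℝ) - B.card) * l ≤ C * B'.card)
  big : ∀ n, ∀ R : ℝ, 1 ≤ R → ∃ B ∈ 𝒟 n, (∀ m : Fin d → ℤ, (∀ i, |(m i : ℝ) - n i| ≤ R) → m ∈ B) ∧
    (B.card : ℝ) ≤ C * R ^ d

/-- fractional average -/
noncomputable def avg (s : ℝ) (u : (Fin d → ℤ) → ℝ) (B : Finset (Fin d → ℤ)) : ℝ :=
  (B.card : ℝ) ^ (-s) * ∑ m ∈ B, u m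

lemma avg_nonneg {s : ℝ} {u : (Fin d → ℤ) → ℝ} (hu : ∀ m, 0 ≤ u m) (B : Finset (Fin d → ℤ)) :
    0 ≤ avg s u B := mul_nonneg (by positivity) (Finset.sum_nonneg fun m _ => hu m)

lemma card_pos_of_size {C l : ℝ} (hl : 1 ≤ l) {B : Finset (Fin d → ℤ)}
    (h : l ^ d ≤ C * B.card) : 0 < (B.card : ℝ) := by
  have h1 : 1 ≤ l ^ d := one_le_pow₀ hl
  by_contra hcon
  have h2 : (B.card : ℝ) = 0 := le_antisymm (not_lt.mp hcon) (Nat.cast_nonneg _)
  rw [h2, mul_zero] at h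
  linarith

/-- one-step comparison -/
lemma step {s : ℝ} (hs1 : s ≤ 1) {C l : ℝ} (hC : 1 ≤ C) (hl : 1 ≤ l)
    {u : (Fin d → ℤ) → ℝ} (hu : ∀ m, 0 ≤ u m) {B B' : Finset (Fin d → ℤ)}
    (hB : l ^ d ≤ C * B.card) (hBB : B ⊆ B') (hcard : ((B'.card : ℝ) - B.card) * l ≤ C * B'.card) :
    avg s u B - avg s u B' ≤ C * (avg s u B / l) := by
  have hBpos := card_pos_of_size hl hB
  have hcle : (B.card : ℝ) ≤ B'.card := by exact_mod_cast Finset.card_le_card hBB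
  have hB'pos : 0 < (B'.card : ℝ) := hBpos.trans_le hcle
  have hlpos : 0 < l := by linarith
  have hsum : ∑ m ∈ B, u m ≤ ∑ m ∈ B', u m :=
    Finset.sum_le_sum_of_subset_of_nonneg hBB fun m _ _ => hu m
  have hsum0 : 0 ≤ ∑ m ∈ B, u m := Finset.sum_nonneg fun m _ => hu m
  -- avg B' ≥ avg B * (|B|/|B'|)
  have h1 : avg s u B * ((B.card : ℝ) / B'.card) ≤ avg s u B' := by
    unfold avg
    have h2 : (B.card : ℝ) ^ (-s) * ((B.card : ℝ) / B'.card) ≤ (B'.card : ℝ) ^ (-s) := by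
      have h3 : ((B.card : ℝ) / B'.card) ≤ ((B.card : ℝ) / B'.card) ^ s := by
        have h4 : (B.card : ℝ) / B'.card ≤ 1 := by
          rw [div_le_one hB'pos]; exact hcle
        have h5 : 0 < (B.card : ℝ) / B'.card := by positivity
        calc ((B.card : ℝ) / B'.card) = ((B.card : ℝ) / B'.card) ^ (1 : ℝ) := by rw [Real.rpow_one]
          _ ≤ _ := Real.rpow_le_rpow_of_exponent_ge h5 h4 hs1
      calc (B.card : ℝ) ^ (-s) * ((B.card : ℝ) / B'.card)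
          ≤ (B.card : ℝ) ^ (-s) * ((B.card : ℝ) / B'.card) ^ s := by gcongr
        _ = (B'.card : ℝ) ^ (-s) := by
          rw [Real.div_rpow hBpos.le hB'pos.le, Real.rpow_neg hBpos.le, Real.rpow_neg hB'pos.le]
          have : (B.card : ℝ) ^ s ≠ 0 := (Real.rpow_pos_of_pos hBpos s).ne'
          field_simp
    calc (B.card : ℝ) ^ (-s) * (∑ m ∈ B, u m) * ((B.card : ℝ) / B'.card)
        = ((B.card : ℝ) ^ (-s) * ((B.card : ℝ) / B'.card)) * ∑ m ∈ B, u m := by ring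
      _ ≤ (B'.card : ℝ) ^ (-s) * ∑ m ∈ B', u m := by
          gcongr
  have h6 : avg s u B - avg s u B' ≤ avg s u B * (((B'.card : ℝ) - B.card) / B'.card) := by
    calc avg s u B - avg s u B' ≤ avg s u B - avg s u B * ((B.card : ℝ) / B'.card) := by linarith
      _ = _ := by field_simp
  refine h6.trans ?_
  have h7 : ((B'.card : ℝ) - B.card) / B'.card ≤ C / l := by
    rw [div_le_div_iff₀ hB'pos hlpos]
    exact hcard
  calc avg s u B * (((B'.card : ℝ) - B.card) / B'.card) ≤ avg s u B * (C / l) := by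
        gcongr
        exact avg_nonneg hu B
    _ = _ := by ring

/-- increments of the maximal function -/
lemma increment {s : ℝ} (hs1 : s ≤ 1) {C : ℝ}
    {𝒟 : (Fin d → ℤ) → Set (Finset (Fin d → ℤ))} (hG : Good 𝒟 C)
    {u : (Fin d → ℤ) → ℝ} (hu : ∀ m, 0 ≤ u m) {M : (Fin d → ℤ) → ℝ}
    (hM : ∀ n, IsLUB {a | ∃ B ∈ 𝒟 n, a = avg s u B} (M n)) (p p' : Fin d → ℤ)
    (hpp : (∃ i, p' = p + e i) ∨ (∃ i, p' = p - e i)) (hlt : M p' < M p) :
    ∃ B ∈ 𝒟 p, ∃ l : ℝ, 1 ≤ l ∧ l ^ d ≤ C * B.card ∧ (∀ m ∈ B, ∀ i, |(m i : ℝ) - p i| ≤ C * l) ∧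
      M p - M p' ≤ 2 * C * (avg s u B / l) ∧ M p ≤ 2 * avg s u B := by
  have hC := hG.one_le
  set η := M p - M p' with hη
  have hηpos : 0 < η := by linarith
  obtain ⟨_, ⟨B, hB, rfl⟩, hlt1⟩ : ∃ a ∈ {a | ∃ B ∈ 𝒟 p, a = avg s u B}, M p - η / 2 < a := by
    by_contra hcon
    push Not at hcon
    have := (hM p).2 (show M p - η / 2 ∈ upperBounds _ from fun a ha => hcon a ha)
    linarith
  have hMp' : 0 ≤ M p' := by
    obtain ⟨B₀, hB₀, -, -⟩ := hG.big p' 1 le_rfl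
    exact (avg_nonneg hu B₀).trans ((hM p').1 ⟨B₀, hB₀, rfl⟩)
  obtain ⟨l, hl, hcard, hloc, hplus, hminus⟩ := hG.size p B hB
  obtain ⟨B', hB', hBB, hc⟩ : ∃ B' ∈ 𝒟 p', B ⊆ B' ∧ ((B'.card : ℝ) - B.card) * l ≤ C * B'.card := by
    rcases hpp with ⟨i, rfl⟩ | ⟨i, rfl⟩
    · exact hplus i
    · exact hminus i
  have h1 := step hs1 hC hl hu hcard hBB hc
  have h2 : avg s u B' ≤ M p' := (hM p').1 ⟨B', hB', rfl⟩
  refine ⟨B, hB, l, hl, hcard, hloc, ?_, ?_⟩
  · have h3 : η / 2 < avg s u B - avg s u B' := by linarith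
    linarith
  · linarith

/-- From a near-maximal averaging set to a dyadic cube of the family. -/
lemma toCube {β : ℝ} (hβ0 : 0 < β) (hβd : β ≤ d) (hd : 1 ≤ d) {C : ℝ}
    {𝒟 : (Fin d → ℤ) → Set (Finset (Fin d → ℤ))} (hG : Good 𝒟 C) (R₀ : ℕ) (hR₀ : 2 * C ≤ R₀) :
    ∃ K C' : ℝ, 0 ≤ K ∧ 0 ≤ C' ∧ ∀ u : (Fin d → ℤ) → ℝ, (∀ m, 0 ≤ u m) →
      ∀ M : (Fin d → ℤ) → ℝ, (∀ n, IsLUB {a | ∃ B ∈ 𝒟 n, a = avg (1 - β / d) u B} (M n)) →
      ∀ p : Fin d → ℤ, ∀ B ∈ 𝒟 p, ∀ l : ℝ, 1 ≤ l → l ^ d ≤ C * B.card →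
        (∀ m ∈ B, ∀ i, |(m i : ℝ) - p i| ≤ C * l) → M p ≤ 2 * avg (1 - β / d) u B →
        ∃ k v, Fam u ((2 : ℝ) ^ β) K k v ∧ Near (R₀ + 1) p k v ∧
          avg (1 - β / d) u B / l ≤ C' * (((2 : ℝ) ^ k) ^ (-(d - β + 1)) * S u k v) := by
  classical
  set s : ℝ := 1 - β / d with hs
  have hdpos : (0 : ℝ) < d := by exact_mod_cast hd
  have hs0 : 0 ≤ s := by rw [hs, sub_nonneg, div_le_one hdpos]; exact hβd
  have hC := hG.one_le
  have hC0 : 0 < C := by linarith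
  set N₀ : ℝ := ((2 * R₀ + 1 : ℕ) : ℝ) ^ d with hN₀
  have hN₀pos : 0 < N₀ := by rw [hN₀]; positivity
  set K : ℝ := 2 * N₀ * (C ^ 2 * ((R₀ : ℝ) + 2) ^ d) ^ s with hK
  refine ⟨K, C ^ s * N₀, by positivity, by positivity, ?_⟩
  intro u hu M hM p B hB l hl hcard hloc hMB
  have hBpos := card_pos_of_size hl hcard
  have hlpos : 0 < l := by linarith
  obtain ⟨k, hk1, hk2⟩ := exists_nat_pow_near hl (by norm_num : (1 : ℝ) < 2)
  -- integer localisation
  have hlocZ : ∀ m ∈ B, ∀ i, |m i - p i| ≤ R₀ * 2 ^ k := by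
    intro m hm i
    have h1 : |(m i : ℝ) - p i| ≤ R₀ * 2 ^ k := by
      calc |(m i : ℝ) - p i| ≤ C * l := hloc m hm i
        _ ≤ C * 2 ^ (k + 1) := by gcongr
        _ = 2 * C * 2 ^ k := by rw [pow_succ]; ring
        _ ≤ R₀ * 2 ^ k := by gcongr
    exact_mod_cast h1
  have h2k : (0 : ℤ) < 2 ^ k := by positivity
  -- set of cube indices
  set V : Finset (Fin d → ℤ) := B.image (ind k) with hV
  have hVsub : V ⊆ box (fun i => ind k p i - R₀) (2 * R₀ + 1) := by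
    intro v hv
    rw [hV, Finset.mem_image] at hv
    obtain ⟨m, hm, rfl⟩ := hv
    rw [mem_box]
    intro i
    have h1 := hlocZ m hm i
    rw [abs_le] at h1
    unfold ind
    constructor
    · rw [Int.le_ediv_iff_mul_le h2k, sub_mul]
      have := Int.ediv_mul_le (p i) h2k.ne'
      linarith [h1.1]
    · have h3 : m i / 2 ^ k < p i / 2 ^ k + R₀ + 1 := by
        rw [Int.ediv_lt_iff_lt_mul h2k, add_mul, add_mul, one_mul]
        have := Int.lt_ediv_add_one_mul_self (p i) h2k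
        rw [add_mul, one_mul] at this
        linarith [h1.2]
      push_cast
      linarith
  have hVcard : (V.card : ℝ) ≤ N₀ := by
    have h1 := Finset.card_le_card hVsub
    rw [card_box] at h1
    rw [hN₀]
    exact_mod_cast h1
  have hBne : B.Nonempty := by
    rw [← Finset.card_pos]
    exact_mod_cast hBpos
  have hVne : V.Nonempty := hBne.image _
  obtain ⟨v, hvV, hvmax⟩ := Finset.exists_max_image V (fun v => S u k v) hVne
  have hsumB : ∑ m ∈ B, u m ≤ N₀ * S u k v := by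
    calc ∑ m ∈ B, u m = ∑ w ∈ V, ∑ m ∈ B with ind k m = w, u m :=
          (Finset.sum_fiberwise_of_maps_to (fun m hm => Finset.mem_image_of_mem _ hm) _).symm
      _ ≤ ∑ w ∈ V, S u k w := by
          refine Finset.sum_le_sum fun w _ => ?_
          unfold S
          refine Finset.sum_le_sum_of_subset_of_nonneg ?_ fun m _ _ => hu m
          intro m hm
          rw [Finset.mem_filter] at hm
          rw [mem_cube]; exact hm.2
      _ ≤ ∑ w ∈ V, S u k v := Finset.sum_le_sum fun w hw => hvmax w hw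
      _ = V.card * S u k v := by rw [Finset.sum_const, nsmul_eq_mul]
      _ ≤ N₀ * S u k v := by
          gcongr
          exact S_nonneg hu k v
  have hnear : ∀ i, |p i - 2 ^ k * v i| ≤ (R₀ + 1) * 2 ^ k := by
    intro i
    rw [hV, Finset.mem_image] at hvV
    obtain ⟨m, hm, rfl⟩ := hvV
    have h1 := hlocZ m hm i
    unfold ind
    have h3 : |m i - 2 ^ k * (m i / 2 ^ k)| ≤ 2 ^ k := by
      have h4 := Int.emod_add_mul_ediv (m i) (2 ^ k)
      have h5 := Int.emod_nonneg (m i) h2k.ne'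
      have h6 := Int.emod_lt_of_pos (m i) h2k
      rw [abs_le]; constructor <;> linarith
    calc |p i - 2 ^ k * (m i / 2 ^ k)| = |(p i - m i) + (m i - 2 ^ k * (m i / 2 ^ k))| := by
          congr 1; ring
      _ ≤ |p i - m i| + |m i - 2 ^ k * (m i / 2 ^ k)| := abs_add_le _ _
      _ ≤ R₀ * 2 ^ k + 2 ^ k := by rw [abs_sub_comm (p i)]; gcongr
      _ = _ := by ring
  refine ⟨k, v, ?_, ?_, ?_⟩
  · -- Fam
    intro j
    set R : ℝ := ((R₀ : ℝ) + 2) * 2 ^ (k + j) with hR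
    have hR1 : 1 ≤ R := by
      rw [hR]
      have h1 : (1 : ℝ) ≤ (R₀ : ℝ) + 2 := by
        have := Nat.cast_nonneg (α := ℝ) R₀; linarith
      have h2 : (1 : ℝ) ≤ 2 ^ (k + j) := one_le_pow₀ (by norm_num)
      nlinarith
    obtain ⟨B'', hB'', hcov, hB''card⟩ := hG.big p R hR1
    have hsub : cube (k + j) (ind j v) ⊆ B'' := by
      intro m hm
      rw [mem_cube] at hm
      refine hcov m fun i => ?_
      have h2kj : (0 : ℤ) < 2 ^ (k + j) := by positivity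
      have h1 : m i / 2 ^ (k + j) = v i / 2 ^ j := congrFun hm i
      have h3 : |m i - 2 ^ k * v i| ≤ 2 ^ (k + j) := by
        have h4 := Int.emod_add_mul_ediv (m i) (2 ^ (k + j))
        have h5 := Int.emod_nonneg (m i) h2kj.ne'
        have h6 := Int.emod_lt_of_pos (m i) h2kj
        have h2j : (0 : ℤ) < 2 ^ j := by positivity
        have h7 := Int.emod_add_mul_ediv (v i) (2 ^ j)
        have h8 := Int.emod_nonneg (v i) h2j.ne'
        have h9 := Int.emod_lt_of_pos (v i) h2j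
        rw [h1] at h4
        have h10 : (2 : ℤ) ^ (k + j) = 2 ^ k * 2 ^ j := pow_add 2 k j
        have h11 : 2 ^ k * v i = 2 ^ k * (v i % 2 ^ j) + 2 ^ (k + j) * (v i / 2 ^ j) := by
          rw [h10]
          calc 2 ^ k * v i = 2 ^ k * (v i % 2 ^ j + 2 ^ j * (v i / 2 ^ j)) := by rw [h7]
            _ = _ := by ring
        have h12 : 0 ≤ 2 ^ k * (v i % 2 ^ j) := by positivity
        have h13 : 2 ^ k * (v i % 2 ^ j) ≤ 2 ^ (k + j) := by
          rw [h10]; gcongr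
        rw [abs_le]
        constructor <;> linarith
      have h4 : |m i - p i| ≤ (R₀ + 2) * 2 ^ (k + j) := by
        have h5 : (2 : ℤ) ^ k ≤ 2 ^ (k + j) := pow_le_pow_right₀ (by norm_num) (by omega)
        calc |m i - p i| = |(m i - 2 ^ k * v i) - (p i - 2 ^ k * v i)| := by congr 1; ring
          _ ≤ |m i - 2 ^ k * v i| + |p i - 2 ^ k * v i| := abs_sub _ _
          _ ≤ 2 ^ (k + j) + (R₀ + 1) * 2 ^ k := by gcongr; exact hnear i
          _ ≤ 2 ^ (k + j) + (R₀ + 1) * 2 ^ (k + j) := by gcongr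
          _ = _ := by ring
      rw [hR]
      exact_mod_cast h4
    have hB''pos : 0 < (B''.card : ℝ) := by
      have h1 : (cube (k + j) (ind j v)).card ≤ B''.card := Finset.card_le_card hsub
      rw [card_cube] at h1
      have h2 : 0 < 2 ^ ((k + j) * d) := by positivity
      exact_mod_cast lt_of_lt_of_le h2 h1
    have h1 : S u (k + j) (ind j v) ≤ ∑ m ∈ B'', u m :=
      Finset.sum_le_sum_of_subset_of_nonneg hsub fun m _ _ => hu m
    have h2 : avg s u B'' ≤ 2 * avg s u B := ((hM p).1 ⟨B'', hB'', rfl⟩).trans hMB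
    have h3 : ∑ m ∈ B'', u m ≤ 2 * ((B''.card : ℝ) / B.card) ^ s * ∑ m ∈ B, u m := by
      unfold avg at h2
      have h4 : (B''.card : ℝ) ^ s * ((B''.card : ℝ) ^ (-s)) = 1 := by
        rw [← Real.rpow_add hB''pos, add_neg_cancel, Real.rpow_zero]
      calc ∑ m ∈ B'', u m = (B''.card : ℝ) ^ s * ((B''.card : ℝ) ^ (-s) * ∑ m ∈ B'', u m) := by
            rw [← mul_assoc, h4, one_mul]
        _ ≤ (B''.card : ℝ) ^ s * (2 * ((B.card : ℝ) ^ (-s) * ∑ m ∈ B, u m)) := by gcongr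
        _ = _ := by
            rw [Real.div_rpow hB''pos.le hBpos.le, Real.rpow_neg hBpos.le]
            ring
    have h4 : (B''.card : ℝ) / B.card ≤ (C ^ 2 * ((R₀ : ℝ) + 2) ^ d) * ((2 : ℝ) ^ j) ^ d := by
      rw [div_le_iff₀ hBpos]
      have h5 : ((2 : ℝ) ^ k) ^ d ≤ C * B.card := by
        refine le_trans ?_ hcard
        gcongr
      calc (B''.card : ℝ) ≤ C * R ^ d := hB''card
        _ = C * ((R₀ : ℝ) + 2) ^ d * ((2 : ℝ) ^ j) ^ d * ((2 : ℝ) ^ k) ^ d := by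
            rw [hR, mul_pow, pow_add, mul_pow]; ring
        _ ≤ C * ((R₀ : ℝ) + 2) ^ d * ((2 : ℝ) ^ j) ^ d * (C * B.card) := by gcongr
        _ = _ := by ring
    have h5 : ((B''.card : ℝ) / B.card) ^ s ≤
        (C ^ 2 * ((R₀ : ℝ) + 2) ^ d) ^ s * (((2 : ℝ) ^ j) ^ d) ^ s := by
      rw [← Real.mul_rpow (by positivity) (by positivity)]
      exact Real.rpow_le_rpow (by positivity) h4 hs0
    have h6 : (((2 : ℝ) ^ j) ^ d) ^ s * ((2 : ℝ) ^ β) ^ j = (2 ^ d) ^ j := by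
      rw [← Real.rpow_natCast ((2 : ℝ) ^ β) j, ← Real.rpow_mul (by norm_num),
        ← pow_mul, ← pow_mul, ← Real.rpow_natCast 2 (j * d), ← Real.rpow_mul (by norm_num),
        ← Real.rpow_add (by norm_num), ← Real.rpow_natCast 2 (d * j)]
      congr 1
      push_cast
      rw [hs]
      field_simp
      ring
    calc S u (k + j) (ind j v) * ((2 : ℝ) ^ β) ^ j
        ≤ (2 * ((B''.card : ℝ) / B.card) ^ s * ∑ m ∈ B, u m) * ((2 : ℝ) ^ β) ^ j := by
          gcongr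
          exact h1.trans h3
      _ ≤ (2 * ((C ^ 2 * ((R₀ : ℝ) + 2) ^ d) ^ s * (((2 : ℝ) ^ j) ^ d) ^ s) * (N₀ * S u k v))
            * ((2 : ℝ) ^ β) ^ j := by
          gcongr
          exact Finset.sum_nonneg fun m _ => hu m
      _ = K * ((((2 : ℝ) ^ j) ^ d) ^ s * ((2 : ℝ) ^ β) ^ j) * S u k v := by rw [hK]; ring
      _ = _ := by rw [h6]
  · intro i
    have := hnear i
    push_cast
    exact this
  · -- average
    unfold avg
    have h5 : ((2 : ℝ) ^ k) ^ d / C ≤ B.card := by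
      rw [div_le_iff₀ hC0, mul_comm]
      refine le_trans ?_ hcard
      gcongr
    have h5pos : 0 < ((2 : ℝ) ^ k) ^ d / C := by positivity
    have h6 : (B.card : ℝ) ^ (-s) ≤ (((2 : ℝ) ^ k) ^ d / C) ^ (-s) :=
      Real.rpow_le_rpow_of_nonpos h5pos h5 (by linarith)
    have h7 : (((2 : ℝ) ^ k) ^ d / C) ^ (-s) = C ^ s * ((2 : ℝ) ^ k) ^ (-(d - β)) := by
      rw [Real.div_rpow (by positivity) hC0.le, Real.rpow_neg hC0.le, div_inv_eq_mul, mul_comm]
      congr 1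
      rw [← Real.rpow_natCast ((2 : ℝ) ^ k) d, ← Real.rpow_mul (by positivity)]
      congr 1
      rw [hs]
      field_simp
    have h8 : ((2 : ℝ) ^ k) ^ (-(d - β)) * ((2 : ℝ) ^ k)⁻¹ = ((2 : ℝ) ^ k) ^ (-(d - β + 1)) := by
      rw [← Real.rpow_neg_one, ← Real.rpow_add (by positivity)]
      congr 1; ring
    have hSnn : 0 ≤ S u k v := S_nonneg hu k v
    calc (B.card : ℝ) ^ (-s) * (∑ m ∈ B, u m) / l
        ≤ (C ^ s * ((2 : ℝ) ^ k) ^ (-(d - β))) * (N₀ * S u k v) * ((2 : ℝ) ^ k)⁻¹ := by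
          rw [div_eq_mul_inv]
          have h9 : l⁻¹ ≤ ((2 : ℝ) ^ k)⁻¹ := by gcongr
          have h10 : (B.card : ℝ) ^ (-s) ≤ C ^ s * ((2 : ℝ) ^ k) ^ (-(d - β)) := by
            rw [← h7]; exact h6
          have h11 : 0 ≤ ∑ m ∈ B, u m := Finset.sum_nonneg fun m _ => hu m
          gcongr
      _ = C ^ s * N₀ * ((((2 : ℝ) ^ k) ^ (-(d - β)) * ((2 : ℝ) ^ k)⁻¹) * S u k v) := by ring
      _ = _ := by rw [h8]

/-- **Abstract endpoint theorem.** -/
theorem abstractBound (hd : 1 ≤ d) {α β q : ℝ} (hα0 : 0 ≤ α) (hα1 : α < 1) (hαβ : α ≤ β)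
    (hβ0 : 0 < β) (hβd : β < d) (hq : q = d / (d - β + α)) {C : ℝ}
    {𝒟 : (Fin d → ℤ) → Set (Finset (Fin d → ℤ))} (hG : Good 𝒟 C) :
    ∃ C' : ℝ≥0∞, C' ≠ ⊤ ∧ ∀ u : (Fin d → ℤ) → ℝ, (∀ m, 0 ≤ u m) → Summable u →
      ∀ M : (Fin d → ℤ) → ℝ, (∀ n, IsLUB {a | ∃ B ∈ 𝒟 n, a = avg (1 - β / d) u B} (M n)) →
      ∀ i, ∑' n, ENNReal.ofReal |M (n + e i) - M n| ^ q ≤
        (C' * (var u ^ (1 - α) * mass u ^ α)) ^ q := by
  have hdpos : (0 : ℝ) < d := by exact_mod_cast hd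
  have hs0 : 0 ≤ 1 - β / d := by rw [sub_nonneg, div_le_one hdpos]; exact hβd.le
  have hs1 : 1 - β / d ≤ 1 := by
    have : 0 ≤ β / d := by positivity
    linarith
  obtain ⟨R₀, hR₀⟩ := exists_nat_ge (2 * C)
  obtain ⟨K, C₁, hK, hC₁, hcube⟩ := toCube hβ0 hβd.le hd hG R₀ hR₀
  have hC := hG.one_le
  obtain ⟨C', hC', hsum⟩ := summation hd hα0 hα1 hαβ hβ0 (by linarith) hq K hK (R₀ + 2)
    (ENNReal.ofReal (2 * C * C₁)) ENNReal.ofReal_ne_top
  refine ⟨C', hC', fun u hu hsu M hM i => ?_⟩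
  refine hsum u hu hsu (fun n => ENNReal.ofReal |M (n + e i) - M n|) fun n => ?_
  -- main case analysis
  have main : ∀ p p' : Fin d → ℤ, ((∃ i, p' = p + e i) ∨ (∃ i, p' = p - e i)) → M p' < M p →
      (∀ k v, Near (R₀ + 1) p k v → Near (R₀ + 2) n k v) →
      ∃ k v, Fam u ((2 : ℝ) ^ β) K k v ∧ Near (R₀ + 2) n k v ∧
        ENNReal.ofReal (M p - M p') ≤ ENNReal.ofReal (2 * C * C₁) *
          (((2 : ℝ≥0∞) ^ k) ^ (-(d - β + 1)) * ENNReal.ofReal (S u k v)) := by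
    intro p p' hpp hlt hnear
    obtain ⟨B, hB, l, hl, hcard, hloc, h1, h2⟩ := increment hs1 hG hu hM p p' hpp hlt
    obtain ⟨k, v, hF, hN, h3⟩ := hcube u hu M hM p B hB l hl hcard hloc h2
    refine ⟨k, v, hF, hnear k v hN, ?_⟩
    have h4 : M p - M p' ≤ 2 * C * C₁ * (((2 : ℝ) ^ k) ^ (-(d - β + 1)) * S u k v) := by
      calc M p - M p' ≤ 2 * C * (avg (1 - β / d) u B / l) := h1
        _ ≤ 2 * C * (C₁ * (((2 : ℝ) ^ k) ^ (-(d - β + 1)) * S u k v)) := by gcongr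
        _ = _ := by ring
    refine (ENNReal.ofReal_le_ofReal h4).trans (le_of_eq ?_)
    rw [ENNReal.ofReal_mul (by positivity)]
    congr 1
    rw [ENNReal.ofReal_mul (by positivity)]
    congr 1
    rw [← ENNReal.ofReal_rpow_of_pos (by positivity), ENNReal.ofReal_pow (by norm_num)]
    simp
  rcases lt_trichotomy (M (n + e i)) (M n) with hlt | heq | hgt
  · right
    have h1 : |M (n + e i) - M n| = M n - M (n + e i) := by
      rw [abs_sub_comm, abs_of_pos (by linarith)]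
    simp only [h1]
    refine main n (n + e i) (Or.inl ⟨i, rfl⟩) hlt fun k v hN j => ?_
    refine (hN j).trans ?_
    push_cast
    gcongr
    norm_num
  · left
    simp [heq]
  · right
    have h1 : |M (n + e i) - M n| = M (n + e i) - M n := abs_of_pos (by linarith)
    simp only [h1]
    refine main (n + e i) n (Or.inr ⟨i, by simp⟩) hgt fun k v hN j => ?_
    have h2 := hN j
    have h3 : |e i j| ≤ 1 := by
      unfold e
      by_cases h : j = i
      · subst h; simp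
      · simp [h]
    have h4 : (1 : ℤ) ≤ 2 ^ k := one_le_pow₀ (by norm_num)
    have h5 : (n + e i) j = n j + e i j := rfl
    rw [h5] at h2
    calc |n j - 2 ^ k * v j| = |(n j + e i j - 2 ^ k * v j) - e i j| := by congr 1; ring
      _ ≤ |n j + e i j - 2 ^ k * v j| + |e i j| := abs_sub _ _
      _ ≤ ((R₀ + 1 : ℕ) : ℤ) * 2 ^ k + 2 ^ k := by linarith
      _ = _ := by push_cast; ring

end Pool.Agent.Lib.H58FracMax
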