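import Mathlib
import Pool.Agent.Lib.H58FracMaxAbs

/-!
Lattice points in dilates of a convex body (helper file for MP_2332c1_an, author helper58).
-/

open scoped ENNReal Pointwise
open Finset MeasureTheory

namespace Pool.Agent.Lib.H58FracMax

variable {d : ℕ}

/-- A lattice point as a real vector. -/
def toR (m : Fin d → ℤ) : Fin d → ℝ := fun i => (m i : ℝ)

/-- coordinatewise floor -/
noncomputable def fl (y : Fin d → ℝ) : Fin d → ℤ := fun i => ⌊y i⌋

/-- lattice points in `x + r K` -/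
def LS (K : Set (Fin d → ℝ)) (x : Fin d → ℝ) (r : ℝ) : Set (Fin d → ℤ) :=
  {m | ∃ z ∈ K, toR m = x + r • z}

/-- translate-dilate -/
def TD (K : Set (Fin d → ℝ)) (x : Fin d → ℝ) (r : ℝ) : Set (Fin d → ℝ) :=
  {y | ∃ z ∈ K, y = x + r • z}

lemma volume_TD (K : Set (Fin d → ℝ)) (x : Fin d → ℝ) {r : ℝ} (hr : 0 ≤ r) :
    volume (TD K x r) = ENNReal.ofReal r ^ d * volume K := by
  have h1 : TD K x r = (fun y => -x + y) ⁻¹' (r • K) := by
    ext y
    simp only [TD, Set.mem_ofPred_eq, Set.mem_preimage, Set.mem_smul_set]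
    constructor
    · rintro ⟨z, hz, rfl⟩
      exact ⟨z, hz, by abel⟩
    · rintro ⟨z, hz, h⟩
      exact ⟨z, hz, by rw [h]; abel⟩
  rw [h1, measure_preimage_add, Measure.addHaar_smul]
  congr 1
  rw [Module.finrank_fin_fun, abs_of_nonneg (by positivity), ENNReal.ofReal_pow hr]

lemma volume_fl (F : Finset (Fin d → ℤ)) : volume {y : Fin d → ℝ | fl y ∈ F} = F.card := by
  have h1 : {y : Fin d → ℝ | fl y ∈ F}
      = ⋃ m ∈ F, Set.pi Set.univ (fun i => Set.Ico (m i : ℝ) (m i + 1)) := by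
    ext y
    simp only [Set.mem_ofPred_eq, Set.mem_iUnion, Set.mem_pi, Set.mem_univ, true_imp_iff,
      exists_prop]
    constructor
    · intro h
      refine ⟨fl y, h, fun i => ?_⟩
      exact ⟨Int.floor_le _, Int.lt_floor_add_one _⟩
    · rintro ⟨m, hm, h⟩
      have : fl y = m := by
        funext i
        exact Int.floor_eq_iff.mpr ⟨(h i).1, (h i).2⟩
      rwa [this]
  rw [h1, measure_biUnion_finset]
  · simp [Real.volume_pi_Ico]
  · intro m _ m' _ hne
    rw [Function.onFun, Set.disjoint_left]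
    intro y hy hy'
    apply hne
    funext i
    simp only [Set.mem_pi, Set.mem_univ, true_imp_iff] at hy hy'
    have h2 : ⌊y i⌋ = m i := Int.floor_eq_iff.mpr ⟨(hy i).1, (hy i).2⟩
    have h3 : ⌊y i⌋ = m' i := Int.floor_eq_iff.mpr ⟨(hy' i).1, (hy' i).2⟩
    rw [← h2, h3]
  · intro m _
    exact MeasurableSet.univ_pi fun i => measurableSet_Ico

/-- Data of a convex body: `K` convex, contains the sup-norm ball of radius `ρ`, contained in the
sup-norm ball of radius `R`. -/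
structure Body (K : Set (Fin d → ℝ)) (ρ R : ℝ) : Prop where
  conv : Convex ℝ K
  rho : 0 < ρ
  inner : ∀ y : Fin d → ℝ, (∀ i, |y i| ≤ ρ) → y ∈ K
  outer : ∀ y ∈ K, ∀ i, |y i| ≤ R

variable {K : Set (Fin d → ℝ)} {ρ R : ℝ}

lemma Body.zero_mem (h : Body K ρ R) : (0 : Fin d → ℝ) ∈ K :=
  h.inner 0 fun i => by simpa using h.rho.le

lemma Body.R_nonneg (h : Body K ρ R) (hd : 1 ≤ d) : 0 ≤ R := by
  have := h.outer 0 h.zero_mem ⟨0, hd⟩
  simpa using this

lemma Body.add_mem (h : Body K ρ R) {r t : ℝ} (hr : 0 ≤ r) (ht : 0 ≤ t) {z w : Fin d → ℝ}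
    (hz : z ∈ K) (hw : w ∈ K) : ∃ y ∈ K, r • z + t • w = (r + t) • y := by
  by_cases h0 : r + t = 0
  · have h1 : r = 0 := by linarith
    have h2 : t = 0 := by linarith
    exact ⟨0, h.zero_mem, by simp [h1, h2]⟩
  · have hpos : 0 < r + t := lt_of_le_of_ne (by linarith) (Ne.symm h0)
    refine ⟨(r / (r + t)) • z + (t / (r + t)) • w, h.conv hz hw (by positivity) (by positivity)
      (by field_simp), ?_⟩
    rw [smul_add, smul_smul, smul_smul]
    congr 2 <;> field_simp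

/-- vectors with sup norm at most `t` lie in `(t/ρ) K` -/
lemma Body.small (h : Body K ρ R) {t : ℝ} (ht : 0 ≤ t) (y : Fin d → ℝ) (hy : ∀ i, |y i| ≤ t) :
    ∃ z ∈ K, y = (t / ρ) • z := by
  have hρ := h.rho
  by_cases h0 : t = 0
  · refine ⟨0, h.zero_mem, ?_⟩
    funext i
    have := hy i
    rw [h0] at this
    have h1 : y i = 0 := abs_eq_zero.mp (le_antisymm this (abs_nonneg _))
    simp [h1]
  · have htpos : 0 < t := lt_of_le_of_ne ht (Ne.symm h0)
    refine ⟨(ρ / t) • y, h.inner _ fun i => ?_, ?_⟩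
    · rw [Pi.smul_apply, smul_eq_mul, abs_mul, abs_of_pos (by positivity)]
      calc ρ / t * |y i| ≤ ρ / t * t := by gcongr; exact hy i
        _ = ρ := by field_simp
    · rw [smul_smul]
      have : t / ρ * (ρ / t) = 1 := by field_simp
      rw [this, one_smul]

lemma Body.volume_ne_top (h : Body K ρ R) : volume K ≠ ⊤ := by
  have h1 : K ⊆ Set.Icc (fun _ => -R) (fun _ => R) := by
    intro y hy
    rw [Set.mem_Icc, Pi.le_def, Pi.le_def]
    exact ⟨fun i => (abs_le.mp (h.outer y hy i)).1, fun i => (abs_le.mp (h.outer y hy i)).2⟩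
  refine ne_top_of_le_ne_top ?_ (measure_mono h1)
  exact (isCompact_Icc.measure_lt_top).ne

lemma Body.volume_pos (h : Body K ρ R) : 0 < volume K := by
  have hρ := h.rho
  have h1 : Set.Icc (fun _ => -ρ) (fun _ => ρ) ⊆ K := by
    intro y hy
    rw [Set.mem_Icc, Pi.le_def, Pi.le_def] at hy
    exact h.inner y fun i => abs_le.mpr ⟨hy.1 i, hy.2 i⟩
  refine lt_of_lt_of_le ?_ (measure_mono h1)
  rw [Real.volume_Icc_pi]
  rw [CanonicallyOrderedAdd.prod_pos]
  intro i _
  rw [ENNReal.ofReal_pos]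
  linarith

lemma Body.finite (h : Body K ρ R) (x : Fin d → ℝ) {r : ℝ} (hr : 0 ≤ r) : (LS K x r).Finite := by
  have h1 : LS K x r ⊆ Set.Icc (fun i => ⌊x i - r * R⌋) (fun i => ⌈x i + r * R⌉) := by
    rintro m ⟨z, hz, hm⟩
    have h2 : ∀ i, |(m i : ℝ) - x i| ≤ r * R := by
      intro i
      have h3 : (m i : ℝ) = x i + r * z i := by
        have := congrFun hm i
        simpa [toR] using this
      rw [h3, add_sub_cancel_left, abs_mul, abs_of_nonneg hr]
      gcongr
      exact h.outer z hz i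
    rw [Set.mem_Icc, Pi.le_def, Pi.le_def]
    constructor
    · intro i
      have h4 := (abs_le.mp (h2 i)).1
      have h5 : ((⌊x i - r * R⌋ : ℤ) : ℝ) ≤ m i := (Int.floor_le _).trans (by linarith)
      exact_mod_cast h5
    · intro i
      have h4 := (abs_le.mp (h2 i)).2
      have h5 : (m i : ℝ) ≤ ((⌈x i + r * R⌉ : ℤ) : ℝ) := le_trans (by linarith) (Int.le_ceil _)
      exact_mod_cast h5
  exact (Set.finite_Icc _ _).subset h1

/-- lattice points as a finset -/
noncomputable def Body.L (h : Body K ρ R) (x : Fin d → ℝ) {r : ℝ} (hr : 0 ≤ r) :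
    Finset (Fin d → ℤ) := (h.finite x hr).toFinset

lemma Body.mem_L (h : Body K ρ R) (x : Fin d → ℝ) {r : ℝ} (hr : 0 ≤ r) (m : Fin d → ℤ) :
    m ∈ h.L x hr ↔ ∃ z ∈ K, toR m = x + r • z := by
  unfold Body.L
  rw [Set.Finite.mem_toFinset]
  rfl

lemma toR_fl_sub (y : Fin d → ℝ) (i : Fin d) : |y i - toR (fl y) i| ≤ 1 := by
  unfold toR fl
  have h1 := Int.floor_le (y i)
  have h2 := Int.lt_floor_add_one (y i)
  rw [abs_le]; constructor <;> linarith

/-- upper count -/
lemma Body.card_le (h : Body K ρ R) (x : Fin d → ℝ) {r : ℝ} (hr : 0 ≤ r) :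
    ((h.L x hr).card : ℝ) ≤ (r + 1 / ρ) ^ d * (volume K).toReal := by
  have hρ := h.rho
  have h1 : {y : Fin d → ℝ | fl y ∈ h.L x hr} ⊆ TD K x (r + 1 / ρ) := by
    intro y hy
    rw [Set.mem_ofPred_eq, h.mem_L] at hy
    obtain ⟨z, hz, hfl⟩ := hy
    obtain ⟨w, hw, hw2⟩ := h.small zero_le_one (y - toR (fl y)) (fun i => toR_fl_sub y i)
    obtain ⟨z', hz', hz2⟩ := h.add_mem hr (by positivity : (0 : ℝ) ≤ 1 / ρ) hz hw
    refine ⟨z', hz', ?_⟩
    calc y = toR (fl y) + (y - toR (fl y)) := by abel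
      _ = x + (r • z + (1 / ρ) • w) := by rw [hfl, ← hw2, hfl]; abel
      _ = _ := by rw [hz2]
  have h2 := measure_mono h1 (μ := volume)
  rw [volume_fl, volume_TD K x (by positivity)] at h2
  have h3 := ENNReal.toReal_mono (ENNReal.mul_ne_top (by simp) h.volume_ne_top) h2
  rw [ENNReal.toReal_natCast, ENNReal.toReal_mul, ENNReal.toReal_pow,
    ENNReal.toReal_ofReal (by positivity)] at h3
  exact h3

/-- lower count -/
lemma Body.le_card (h : Body K ρ R) (x : Fin d → ℝ) {r : ℝ} (hr : 1 / ρ ≤ r) (hr0 : 0 ≤ r) :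
    (r - 1 / ρ) ^ d * (volume K).toReal ≤ ((h.L x hr0).card : ℝ) := by
  have hρ := h.rho
  have h1 : TD K x (r - 1 / ρ) ⊆ {y : Fin d → ℝ | fl y ∈ h.L x hr0} := by
    rintro y ⟨z, hz, hy⟩
    rw [Set.mem_ofPred_eq, h.mem_L]
    obtain ⟨w, hw, hw2⟩ := h.small zero_le_one (toR (fl y) - y) (fun i => by
      rw [Pi.sub_apply, abs_sub_comm]; exact toR_fl_sub y i)
    obtain ⟨z', hz', hz2⟩ := h.add_mem (by linarith : 0 ≤ r - 1 / ρ)
      (by positivity : (0 : ℝ) ≤ 1 / ρ) hz hw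
    refine ⟨z', hz', ?_⟩
    have h3 : toR (fl y) = y + (toR (fl y) - y) := by abel
    rw [h3, hw2]
    calc y + (1 / ρ) • w = x + ((r - 1 / ρ) • z + (1 / ρ) • w) := by rw [hy]; abel
      _ = _ := by rw [hz2, sub_add_cancel]
  have h2 := measure_mono h1 (μ := volume)
  rw [volume_fl, volume_TD K x (by linarith)] at h2
  have h3 := ENNReal.toReal_mono (by simp) h2
  rw [ENNReal.toReal_natCast, ENNReal.toReal_mul, ENNReal.toReal_pow,
    ENNReal.toReal_ofReal (by linarith)] at h3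
  exact h3

/-- `a^d - b^d ≤ d (a-b) a^(d-1)` -/
lemma pow_sub_pow_le {a b : ℝ} (hb : 0 ≤ b) (hab : b ≤ a) (d : ℕ) (hd : 1 ≤ d) :
    a ^ d - b ^ d ≤ d * (a - b) * a ^ (d - 1) := by
  have ha : 0 ≤ a := hb.trans hab
  rw [← (Commute.all a b).mul_geom_sum₂ d]
  have h1 : ∑ i ∈ Finset.range d, a ^ i * b ^ (d - 1 - i) ≤ ∑ i ∈ Finset.range d, a ^ (d - 1) := by
    refine Finset.sum_le_sum fun i hi => ?_
    rw [Finset.mem_range] at hi
    calc a ^ i * b ^ (d - 1 - i) ≤ a ^ i * a ^ (d - 1 - i) := by gcongr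
      _ = a ^ (d - 1) := by rw [← pow_add]; congr 1; omega
  rw [Finset.sum_const, Finset.card_range, nsmul_eq_mul] at h1
  calc (a - b) * ∑ i ∈ Finset.range d, a ^ i * b ^ (d - 1 - i) ≤ (a - b) * (d * a ^ (d - 1)) := by
        have : 0 ≤ a - b := by linarith
        gcongr
    _ = _ := by ring

/-- uniform constants -/
lemma Body.consts (h : Body K ρ R) (hd : 1 ≤ d) : ∃ C : ℝ, 1 ≤ C ∧ 2 * R ≤ C ∧
    (∀ (x : Fin d → ℝ) (r : ℝ) (hr : 0 ≤ r), 1 ≤ (h.L x hr).card →
      (1 + r) ^ d ≤ C * (h.L x hr).card) ∧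
    (∀ (x x' : Fin d → ℝ) (r : ℝ) (hr : 0 ≤ r) (hr' : 0 ≤ r + 1 / ρ),
      h.L x hr ⊆ h.L x' hr' →
      (((h.L x' hr').card : ℝ) - (h.L x hr).card) * (1 + r) ≤ C * (h.L x' hr').card) ∧
    (∀ (x : Fin d → ℝ) (t : ℝ), 1 ≤ t → ∀ (ht : 0 ≤ t / ρ), ((h.L x ht).card : ℝ) ≤ C * t ^ d) := by
  have hρ := h.rho
  set c : ℝ := 1 / ρ with hc
  have hcpos : 0 < c := by positivity
  set v : ℝ := (volume K).toReal with hv
  have hvpos : 0 < v := ENNReal.toReal_pos h.volume_pos.ne' h.volume_ne_top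
  have hdpos : (0 : ℝ) < d := by exact_mod_cast hd
  set C₁ : ℝ := 4 ^ d / v + (2 + 2 * c) ^ d with hC₁
  set C₂ : ℝ := d * (3 * c) * 3 ^ (d - 1) * 2 + (2 + c) with hC₂
  set C₃ : ℝ := (2 * c) ^ d * v with hC₃
  have hC₁0 : 0 ≤ C₁ := by positivity
  have hC₂0 : 0 ≤ C₂ := by positivity
  have hC₃0 : 0 ≤ C₃ := by positivity
  refine ⟨1 + |2 * R| + C₁ + C₂ + C₃, ?_, ?_, ?_, ?_, ?_⟩
  · linarith [abs_nonneg (2 * R)]
  · linarith [le_abs_self (2 * R)]
  · intro x r hr hcard
    have hcard' : (1 : ℝ) ≤ (h.L x hr).card := by exact_mod_cast hcard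
    have hgoal : (1 + r) ^ d ≤ C₁ * (h.L x hr).card := by
      by_cases hbig : 1 + 2 * c ≤ r
      · have h1 := h.le_card x (by linarith : 1 / ρ ≤ r) hr
        have h2 : (1 + r) ^ d ≤ 4 ^ d * (r - c) ^ d := by
          rw [← mul_pow]
          exact pow_le_pow_left₀ (by linarith) (by linarith) d
        calc (1 + r) ^ d ≤ 4 ^ d * (r - c) ^ d := h2
          _ = 4 ^ d / v * ((r - c) ^ d * v) := by field_simp
          _ ≤ 4 ^ d / v * (h.L x hr).card := by gcongr
          _ ≤ C₁ * (h.L x hr).card := by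
            gcongr
            rw [hC₁]
            have : 0 ≤ (2 + 2 * c) ^ d := by positivity
            linarith
      · push Not at hbig
        calc (1 + r) ^ d ≤ (2 + 2 * c) ^ d := by
              apply pow_le_pow_left₀ (by linarith); linarith
          _ ≤ C₁ := by
              rw [hC₁]
              have : 0 ≤ 4 ^ d / v := by positivity
              linarith
          _ = C₁ * 1 := (mul_one _).symm
          _ ≤ _ := by gcongr
    refine hgoal.trans ?_
    gcongr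
    linarith [abs_nonneg (2 * R)]
  · intro x x' r hr hr' hsub
    have hle : ((h.L x hr).card : ℝ) ≤ (h.L x' hr').card := by
      exact_mod_cast Finset.card_le_card hsub
    have hnn : (0 : ℝ) ≤ (h.L x hr).card := Nat.cast_nonneg _
    have hnn' : (0 : ℝ) ≤ (h.L x' hr').card := Nat.cast_nonneg _
    have hgoal : (((h.L x' hr').card : ℝ) - (h.L x hr).card) * (1 + r)
        ≤ C₂ * (h.L x' hr').card := by
      by_cases hbig : 1 + c ≤ r
      · have h1 := h.le_card x (by linarith : 1 / ρ ≤ r) hr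
        have h2 := h.card_le x' hr'
        have h3 := h.le_card x' (by linarith : 1 / ρ ≤ r + 1 / ρ) hr'
        rw [add_sub_cancel_right] at h3
        have h4 : (((h.L x' hr').card : ℝ) - (h.L x hr).card)
            ≤ ((r + c + c) ^ d - (r - c) ^ d) * v := by
          rw [sub_mul]; linarith
        have h5 := pow_sub_pow_le (a := r + c + c) (b := r - c) (by linarith) (by linarith) d hd
        have h6 : (r + c + c) ^ (d - 1) ≤ (3 * r) ^ (d - 1) :=
          pow_le_pow_left₀ (by linarith) (by linarith) _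
        have h7 : (3 * r) ^ (d - 1) * (1 + r) ≤ 3 ^ (d - 1) * 2 * r ^ d := by
          have : r ^ d = r ^ (d - 1) * r := by
            rw [← pow_succ]; congr 1; omega
          rw [mul_pow, this]
          have h8 : 1 + r ≤ 2 * r := by linarith
          calc 3 ^ (d - 1) * r ^ (d - 1) * (1 + r) ≤ 3 ^ (d - 1) * r ^ (d - 1) * (2 * r) := by gcongr
            _ = _ := by ring
        calc (((h.L x' hr').card : ℝ) - (h.L x hr).card) * (1 + r)
            ≤ ((d * ((r + c + c) - (r - c)) * (r + c + c) ^ (d - 1)) * v) * (1 + r) := by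
              have : 0 ≤ 1 + r := by linarith
              gcongr
              exact h4.trans (by gcongr)
          _ = d * (3 * c) * (r + c + c) ^ (d - 1) * v * (1 + r) := by ring
          _ ≤ d * (3 * c) * (3 * r) ^ (d - 1) * v * (1 + r) := by
              have : 0 ≤ 1 + r := by linarith
              gcongr
          _ = d * (3 * c) * v * ((3 * r) ^ (d - 1) * (1 + r)) := by ring
          _ ≤ d * (3 * c) * v * (3 ^ (d - 1) * 2 * r ^ d) := by gcongr
          _ = d * (3 * c) * 3 ^ (d - 1) * 2 * (r ^ d * v) := by ring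
          _ ≤ d * (3 * c) * 3 ^ (d - 1) * 2 * (h.L x' hr').card := by gcongr
          _ ≤ C₂ * (h.L x' hr').card := by
              gcongr
              rw [hC₂]; linarith
      · push Not at hbig
        calc (((h.L x' hr').card : ℝ) - (h.L x hr).card) * (1 + r)
            ≤ (h.L x' hr').card * (2 + c) := by
              have h9 : 0 ≤ 1 + r := by linarith
              have h10 : 1 + r ≤ 2 + c := by linarith
              exact mul_le_mul (by linarith) h10 h9 hnn'
          _ = (2 + c) * (h.L x' hr').card := by ring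
          _ ≤ C₂ * (h.L x' hr').card := by
              gcongr
              rw [hC₂]
              have : 0 ≤ d * (3 * c) * 3 ^ (d - 1) * 2 := by positivity
              linarith
    refine hgoal.trans ?_
    gcongr
    linarith [abs_nonneg (2 * R)]
  · intro x t ht ht0
    have h1 := h.card_le x ht0
    have h2 : (t / ρ + 1 / ρ) ^ d ≤ (2 * c) ^ d * t ^ d := by
      rw [← mul_pow]
      apply pow_le_pow_left₀ (by positivity)
      rw [hc, ← add_div, mul_one_div, div_mul_eq_mul_div]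
      gcongr
      linarith
    calc ((h.L x ht0).card : ℝ) ≤ (t / ρ + 1 / ρ) ^ d * v := h1
      _ ≤ (2 * c) ^ d * t ^ d * v := by gcongr
      _ = C₃ * t ^ d := by rw [hC₃]; ring
      _ ≤ _ := by
        gcongr
        linarith [abs_nonneg (2 * R)]

/-- centered family -/
def cen (K : Set (Fin d → ℝ)) (n : Fin d → ℤ) : Set (Finset (Fin d → ℤ)) :=
  {B | ∃ r : ℝ, 0 ≤ r ∧ (B : Set (Fin d → ℤ)) = LS K (toR n) r}

/-- uncentered family -/
def unc (K : Set (Fin d → ℝ)) (n : Fin d → ℤ) : Set (Finset (Fin d → ℤ)) :=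
  {B | ∃ (x : Fin d → ℝ) (r : ℝ), 0 ≤ r ∧ n ∈ LS K x r ∧ (B : Set (Fin d → ℤ)) = LS K x r}

lemma Body.eq_L (h : Body K ρ R) {x : Fin d → ℝ} {r : ℝ} (hr : 0 ≤ r) {B : Finset (Fin d → ℤ)}
    (hB : (B : Set (Fin d → ℤ)) = LS K x r) : B = h.L x hr := by
  ext m
  rw [h.mem_L]
  constructor
  · intro hm
    have : m ∈ (B : Set (Fin d → ℤ)) := hm
    rw [hB] at this
    exact this
  · intro hm
    have : m ∈ LS K x r := hm
    rw [← hB] at this
    exact this

lemma Body.coe_L (h : Body K ρ R) (x : Fin d → ℝ) {r : ℝ} (hr : 0 ≤ r) :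
    ((h.L x hr : Finset (Fin d → ℤ)) : Set (Fin d → ℤ)) = LS K x r := by
  ext m
  rw [Finset.mem_coe, h.mem_L]
  rfl

lemma toR_add (m n : Fin d → ℤ) : toR (m + n) = toR m + toR n := by
  funext i; simp [toR]

lemma toR_sub (m n : Fin d → ℤ) : toR (m - n) = toR m - toR n := by
  funext i; simp [toR]

lemma abs_e_le (i j : Fin d) : |toR (e i) j| ≤ 1 := by
  unfold toR e
  by_cases h : j = i
  · subst h; simp
  · simp [h]

lemma Body.abs_le (h : Body K ρ R) {x : Fin d → ℝ} {r : ℝ} (hr : 0 ≤ r) {m : Fin d → ℤ}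
    (hm : m ∈ LS K x r) (i : Fin d) : |(m i : ℝ) - x i| ≤ R * r := by
  obtain ⟨z, hz, hmz⟩ := hm
  have h3 : (m i : ℝ) = x i + r * z i := by
    have := congrFun hmz i
    simpa [toR] using this
  rw [h3, add_sub_cancel_left, abs_mul, abs_of_nonneg hr, mul_comm]
  gcongr
  exact h.outer z hz i

/-- big sets -/
lemma Body.big (h : Body K ρ R) (n : Fin d → ℤ) {t : ℝ} (ht : 0 ≤ t) (m : Fin d → ℤ)
    (hm : ∀ i, |(m i : ℝ) - n i| ≤ t) : m ∈ LS K (toR n) (t / ρ) := by
  obtain ⟨z, hz, hz2⟩ := h.small ht (toR m - toR n) (fun i => hm i)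
  exact ⟨z, hz, by rw [← hz2]; abel⟩

lemma Body.good_cen (h : Body K ρ R) (hd : 1 ≤ d) : ∃ C, Good (cen K) C := by
  have hρ := h.rho
  obtain ⟨C, hC1, hCR, hsize, hstep, hbig⟩ := h.consts hd
  have hR0 := h.R_nonneg hd
  refine ⟨C, hC1, ?_, ?_⟩
  · rintro n B ⟨r, hr, hB⟩
    obtain rfl := h.eq_L hr hB
    have hr' : 0 ≤ r + 1 / ρ := by positivity
    have hn : n ∈ h.L (toR n) hr := by
      rw [h.mem_L]; exact ⟨0, h.zero_mem, by simp⟩
    refine ⟨1 + r, by linarith, hsize _ _ _ (Finset.card_pos.mpr ⟨n, hn⟩), ?_, ?_, ?_⟩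
    · intro m hm i
      rw [h.mem_L] at hm
      have h1 := h.abs_le hr hm i
      calc |(m i : ℝ) - n i| ≤ R * r := h1
        _ ≤ C * (1 + r) := by
          have : R ≤ C := by linarith
          gcongr
          linarith
    · intro i
      have hsub : h.L (toR n) hr ⊆ h.L (toR (n + e i)) hr' := by
        intro m hm
        rw [h.mem_L] at *
        obtain ⟨z, hz, hmz⟩ := hm
        obtain ⟨w, hw, hw2⟩ := h.small zero_le_one (-toR (e i)) (fun j => by
          rw [Pi.neg_apply, abs_neg]; exact abs_e_le i j)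
        obtain ⟨y, hy, hy2⟩ := h.add_mem hr (by positivity : (0 : ℝ) ≤ 1 / ρ) hz hw
        refine ⟨y, hy, ?_⟩
        rw [← hy2, ← hw2, hmz, toR_add]; abel
      exact ⟨_, ⟨_, hr', h.coe_L _ hr'⟩, hsub, hstep _ _ _ hr hr' hsub⟩
    · intro i
      have hsub : h.L (toR n) hr ⊆ h.L (toR (n - e i)) hr' := by
        intro m hm
        rw [h.mem_L] at *
        obtain ⟨z, hz, hmz⟩ := hm
        obtain ⟨w, hw, hw2⟩ := h.small zero_le_one (toR (e i)) (fun j => abs_e_le i j)
        obtain ⟨y, hy, hy2⟩ := h.add_mem hr (by positivity : (0 : ℝ) ≤ 1 / ρ) hz hw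
        refine ⟨y, hy, ?_⟩
        rw [← hy2, ← hw2, hmz, toR_sub]; abel
      exact ⟨_, ⟨_, hr', h.coe_L _ hr'⟩, hsub, hstep _ _ _ hr hr' hsub⟩
  · intro n t ht
    have ht0 : 0 ≤ t / ρ := by positivity
    refine ⟨h.L (toR n) ht0, ⟨_, ht0, h.coe_L _ ht0⟩, ?_, hbig _ t ht ht0⟩
    intro m hm
    rw [h.mem_L]
    exact h.big n (by linarith) m hm

lemma Body.good_unc (h : Body K ρ R) (hd : 1 ≤ d) : ∃ C, Good (unc K) C := by
  have hρ := h.rho
  obtain ⟨C, hC1, hCR, hsize, hstep, hbig⟩ := h.consts hd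
  have hR0 := h.R_nonneg hd
  refine ⟨C, hC1, ?_, ?_⟩
  · rintro n B ⟨x, r, hr, hn, hB⟩
    obtain rfl := h.eq_L hr hB
    have hr' : 0 ≤ r + 1 / ρ := by positivity
    have hn' : n ∈ h.L x hr := by
      rw [h.mem_L]; exact hn
    have hsub : h.L x hr ⊆ h.L x hr' := by
      intro m hm
      rw [h.mem_L] at *
      obtain ⟨z, hz, hmz⟩ := hm
      obtain ⟨y, hy, hy2⟩ := h.add_mem hr (by positivity : (0 : ℝ) ≤ 1 / ρ) hz h.zero_mem
      refine ⟨y, hy, ?_⟩
      rw [← hy2, hmz, smul_zero, add_zero]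
    refine ⟨1 + r, by linarith, hsize _ _ _ (Finset.card_pos.mpr ⟨n, hn'⟩), ?_, ?_, ?_⟩
    · intro m hm i
      rw [h.mem_L] at hm
      have h1 := h.abs_le hr hm i
      have h2 := h.abs_le hr hn i
      calc |(m i : ℝ) - n i| = |((m i : ℝ) - x i) - (n i - x i)| := by congr 1; ring
        _ ≤ |(m i : ℝ) - x i| + |(n i : ℝ) - x i| := abs_sub _ _
        _ ≤ R * r + R * r := by gcongr
        _ = 2 * R * r := by ring
        _ ≤ C * (1 + r) := by
          gcongr
          linarith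
    · intro i
      refine ⟨h.L x hr', ⟨x, _, hr', ?_, h.coe_L _ hr'⟩, hsub, hstep _ _ _ hr hr' hsub⟩
      obtain ⟨z, hz, hmz⟩ := hn
      obtain ⟨w, hw, hw2⟩ := h.small zero_le_one (toR (e i)) (fun j => abs_e_le i j)
      obtain ⟨y, hy, hy2⟩ := h.add_mem hr (by positivity : (0 : ℝ) ≤ 1 / ρ) hz hw
      refine ⟨y, hy, ?_⟩
      rw [← hy2, ← hw2, toR_add, hmz]; abel
    · intro i
      refine ⟨h.L x hr', ⟨x, _, hr', ?_, h.coe_L _ hr'⟩, hsub, hstep _ _ _ hr hr' hsub⟩
      obtain ⟨z, hz, hmz⟩ := hn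
      obtain ⟨w, hw, hw2⟩ := h.small zero_le_one (-toR (e i)) (fun j => by
          rw [Pi.neg_apply, abs_neg]; exact abs_e_le i j)
      obtain ⟨y, hy, hy2⟩ := h.add_mem hr (by positivity : (0 : ℝ) ≤ 1 / ρ) hz hw
      refine ⟨y, hy, ?_⟩
      rw [← hy2, ← hw2, toR_sub, hmz]; abel
  · intro n t ht
    have ht0 : 0 ≤ t / ρ := by positivity
    refine ⟨h.L (toR n) ht0, ⟨toR n, _, ht0, ⟨0, h.zero_mem, by simp⟩, h.coe_L _ ht0⟩, ?_,
      hbig _ t ht ht0⟩
    intro m hm
    rw [h.mem_L]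
    exact h.big n (by linarith) m hm

end Pool.Agent.Lib.H58FracMax
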