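import Mathlib

/-!
Gallai's theorem on colourings with few singleton classes (helper80).
-/

set_option autoImplicit false

namespace Pool.Agent.Lib.H80

open SimpleGraph Finset

variable {V : Type*}

/-- Proper colourings as plain functions. -/
def Proper (G : SimpleGraph V) {C : Type*} (c : V → C) : Prop := ∀ u v, G.Adj u v → c u ≠ c v

/-- The vertices which form a colour class on their own. -/
noncomputable def Sing [Fintype V] {C : Type*} (c : V → C) : Finset V := by
  classical exact univ.filter (fun v => ∀ w, c w = c v → w = v)

lemma mem_sing [Fintype V] {C : Type*} {c : V → C} {v : V} :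
    v ∈ Sing c ↔ ∀ w, c w = c v → w = v := by
  simp [Sing]

/-- A colouring with `m + 1` colours of a graph that is not `m`-colourable has, between any two
colour classes, an edge. -/
lemma exists_edge_between {G : SimpleGraph V} {m : ℕ} (hm : ¬ G.Colorable m)
    {c : V → Fin (m + 1)} (hc : Proper G c) {i j : Fin (m + 1)} (hij : i ≠ j) :
    ∃ u v, c u = i ∧ c v = j ∧ G.Adj u v := by
  classical
  by_contra hcon
  push Not at hcon
  apply hm
  have hcard : Fintype.card {x : Fin (m + 1) // x ≠ j} = m := by
    rw [Fintype.card_subtype_compl]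
    simp
  have C : G.Coloring {x : Fin (m + 1) // x ≠ j} := SimpleGraph.Coloring.mk
    (fun v => if h : c v = j then ⟨i, hij⟩ else ⟨c v, h⟩) (by
      intro u v huv h
      by_cases h1 : c u = j <;> by_cases h2 : c v = j
      · exact hc u v huv (h1.trans h2.symm)
      · simp only [h1, h2, dif_pos, dif_neg, not_false_eq_true, Subtype.mk.injEq] at h
        exact hcon v u h.symm h1 huv.symm
      · simp only [h1, h2, dif_pos, dif_neg, not_false_eq_true, Subtype.mk.injEq] at h
        exact hcon u v h h2 huv
      · simp only [h1, h2, dif_neg, not_false_eq_true, Subtype.mk.injEq] at h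
        exact hc u v huv h)
  have := C.colorable
  rwa [hcard] at this

/-- Every colour is used. -/
lemma exists_of_color {G : SimpleGraph V} {m : ℕ} (hm : ¬ G.Colorable m)
    {c : V → Fin (m + 1)} (hc : Proper G c) (i : Fin (m + 1)) : ∃ u, c u = i := by
  classical
  by_contra hcon
  push Not at hcon
  apply hm
  have hcard : Fintype.card {x : Fin (m + 1) // x ≠ i} = m := by
    rw [Fintype.card_subtype_compl]
    simp
  have C : G.Coloring {x : Fin (m + 1) // x ≠ i} := SimpleGraph.Coloring.mk
    (fun v => ⟨c v, hcon v⟩) (by
      intro u v huv h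
      simp only [Subtype.mk.injEq] at h
      exact hc u v huv h)
  have := C.colorable
  rwa [hcard] at this

/-- Two singleton vertices are adjacent. -/
lemma adj_of_sing [Fintype V] {G : SimpleGraph V} {m : ℕ} (hm : ¬ G.Colorable m)
    {c : V → Fin (m + 1)} (hc : Proper G c) {x y : V} (hx : x ∈ Sing c) (hy : y ∈ Sing c)
    (hxy : x ≠ y) : G.Adj x y := by
  rw [mem_sing] at hx hy
  obtain ⟨u, v, hu, hv, huv⟩ := exists_edge_between hm hc (i := c x) (j := c y)
    (fun h => hxy (hy x h))
  rw [hx u hu, hy v hv] at huv
  exact huv

lemma mem_sing_move [Fintype V] [DecidableEq V] {C : Type*} {c : V → C} {x y v : V}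
    (hx : x ∈ Sing c) (hxy : x ≠ y) (hy : y ∉ Sing c) :
    v ∈ Sing (Function.update c y (c x)) ↔
      (v ∈ Sing c ∧ v ≠ x) ∨ (v ≠ y ∧ c v = c y ∧ ∀ w, c w = c y → w = y ∨ w = v) := by
  have hx' := mem_sing.1 hx
  have e1 : Function.update c y (c x) y = c x := Function.update_self ..
  have e2 : ∀ w, w ≠ y → Function.update c y (c x) w = c w := fun w hw =>
    Function.update_of_ne hw _ _
  constructor
  · intro hv
    rw [mem_sing] at hv
    have hvy : v ≠ y := by
      rintro rfl
      exact hxy (hv x (by rw [e1, e2 x hxy]))
    have hvx : v ≠ x := by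
      rintro rfl
      exact hvy (hv y (by rw [e1, e2 v hxy])).symm
    by_cases hc : c v = c y
    · right
      refine ⟨hvy, hc, fun w hw => ?_⟩
      by_cases hwy : w = y
      · exact Or.inl hwy
      · exact Or.inr (hv w (by rw [e2 w hwy, e2 v hvy, hw, hc]))
    · left
      refine ⟨mem_sing.2 (fun w hw => ?_), hvx⟩
      have hwy : w ≠ y := by
        rintro rfl
        exact hc hw.symm
      exact hv w (by rw [e2 w hwy, e2 v hvy, hw])
  · rintro (⟨hv, hvx⟩ | ⟨hvy, hc, hw⟩)
    · have hvy : v ≠ y := by
        rintro rfl
        exact hy hv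
      rw [mem_sing] at hv ⊢
      intro w hw
      rw [e2 v hvy] at hw
      by_cases hwy : w = y
      · subst hwy
        rw [e1] at hw
        exact absurd (hv x hw).symm hvx
      · rw [e2 w hwy] at hw
        exact hv w hw
    · rw [mem_sing]
      intro w h
      rw [e2 v hvy] at h
      by_cases hwy : w = y
      · subst hwy
        rw [e1] at h
        exact absurd (hx' w (hc.symm.trans h.symm)).symm hxy
      · rw [e2 w hwy] at h
        rcases hw w (h.trans hc) with h' | h'
        · exact absurd h' hwy
        · exact h'

lemma proper_move [Fintype V] [DecidableEq V] {G : SimpleGraph V} {C : Type*} {c : V → C}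
    (hc : Proper G c) {x y : V} (hx : x ∈ Sing c) (hxy : ¬ G.Adj x y) :
    Proper G (Function.update c y (c x)) := by
  have hx' := mem_sing.1 hx
  have e1 : Function.update c y (c x) y = c x := Function.update_self ..
  have e2 : ∀ w, w ≠ y → Function.update c y (c x) w = c w := fun w hw =>
    Function.update_of_ne hw _ _
  intro u v huv h
  by_cases hu : u = y
  · subst hu
    have hv : v ≠ u := huv.ne.symm
    rw [e1, e2 v hv] at h
    have := hx' v h.symm
    subst this
    exact hxy huv.symm
  · by_cases hv : v = y
    · subst hv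
      rw [e1, e2 u hu] at h
      have := hx' u h
      subst this
      exact hxy huv
    · rw [e2 u hu, e2 v hv] at h
      exact hc u v huv h

/-- Pairs on which two colourings agree. -/
noncomputable def agr [Fintype V] {C : Type*} (c P : V → C) : Finset (V × V) := by
  classical exact univ.filter (fun p => c p.1 = c p.2 ∧ P p.1 = P p.2)

lemma mem_agr [Fintype V] {C : Type*} {c P : V → C} {p : V × V} :
    p ∈ agr c P ↔ c p.1 = c p.2 ∧ P p.1 = P p.2 := by
  simp [agr]

/-- The exchange lemma. -/
theorem exchange [Fintype V] [DecidableEq V] {G : SimpleGraph V} {m : ℕ} (hm : ¬ G.Colorable m)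
    {s : ℕ} (hs : ∀ c : V → Fin (m + 1), Proper G c → s ≤ (Sing c).card) :
    ∀ (n : ℕ) (c P : V → Fin (m + 1)), Proper G c → (Sing c).card = s → Proper G P →
      Fintype.card (V × V) ≤ (agr c P).card + n → ∀ x ∈ Sing c,
      ∃ z ∈ Sing P, (x ∈ Sing P → z = x) ∧
        (∃ c' : V → Fin (m + 1), Proper G c' ∧ Sing c' = insert z ((Sing c).erase x)) ∧
        (∃ P' : V → Fin (m + 1), Proper G P' ∧ (Sing P' = (Sing P).erase z ∨ Sing P' = insert x ((Sing P).erase z)) ∧
          ∀ u v, c u = c v → P u = P v → P' u = P' v) := by
  intro n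
  induction n with
  | zero =>
    intro c P hc hcs hP hn x hx
    by_cases hxP : x ∈ Sing P
    · refine ⟨x, hxP, fun _ => rfl, ⟨c, hc, ?_⟩, ⟨P, hP, Or.inr ?_, fun _ _ _ h => h⟩⟩
      · rw [Finset.insert_erase hx]
      · rw [Finset.insert_erase hxP]
    · exfalso
      have hxP' := hxP
      rw [mem_sing] at hxP'
      push Not at hxP'
      obtain ⟨y, hy, hyx⟩ := hxP'
      have hall : agr c P = univ := by
        apply Finset.eq_univ_of_card
        exact le_antisymm (Finset.card_le_univ _) (by simpa using hn)
      have : (y, x) ∈ agr c P := by rw [hall]; simp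
      rw [mem_agr] at this
      exact hyx (mem_sing.1 hx y this.1)
  | succ n ih =>
    intro c P hc hcs hP hn x hx
    by_cases hxP : x ∈ Sing P
    · refine ⟨x, hxP, fun _ => rfl, ⟨c, hc, ?_⟩, ⟨P, hP, Or.inr ?_, fun _ _ _ h => h⟩⟩
      · rw [Finset.insert_erase hx]
      · rw [Finset.insert_erase hxP]
    · have hxP' := hxP
      rw [mem_sing] at hxP'
      push Not at hxP'
      obtain ⟨y, hPy, hyx⟩ := hxP'
      have hxy : ¬ G.Adj x y := fun h => hP x y h hPy.symm
      have hyS : y ∉ Sing c := fun h => hxy (adj_of_sing hm hc hx h hyx.symm)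
      have hcyx : c y ≠ c x := fun h => hyx (mem_sing.1 hx y h)
      -- the new colouring
      set c1 := Function.update c y (c x) with hc1
      have hc1P : Proper G c1 := proper_move hc hx hxy
      have e1 : c1 y = c x := Function.update_self ..
      have e2 : ∀ w, w ≠ y → c1 w = c w := fun w hw => Function.update_of_ne hw _ _
      have hmove : ∀ v, v ∈ Sing c1 ↔ (v ∈ Sing c ∧ v ≠ x) ∨
          (v ≠ y ∧ c v = c y ∧ ∀ w, c w = c y → w = y ∨ w = v) := fun v =>
        mem_sing_move hx hyx.symm hyS
      -- the class of `y` has exactly two elements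
      have hz : ∃ z1, z1 ≠ y ∧ c z1 = c y ∧ ∀ w, c w = c y → w = y ∨ w = z1 := by
        by_contra hcon
        push Not at hcon
        have hSing : Sing c1 = (Sing c).erase x := by
          ext v
          rw [hmove, Finset.mem_erase]
          constructor
          · rintro (h | ⟨h1, h2, h3⟩)
            · exact ⟨h.2, h.1⟩
            · obtain ⟨w, hw1, hw2, hw3⟩ := hcon v h1 h2
              rcases h3 w hw1 with h | h
              · exact absurd h hw2
              · exact absurd h hw3
          · rintro ⟨h1, h2⟩
            exact Or.inl ⟨h2, h1⟩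
        have h1 := hs c1 hc1P
        rw [hSing, Finset.card_erase_of_mem hx] at h1
        have h2 : 0 < (Sing c).card := Finset.card_pos.2 ⟨x, hx⟩
        omega
      obtain ⟨z1, hz1y, hcz1, hcls⟩ := hz
      have hz1S : z1 ∉ Sing c := fun h => hz1y (mem_sing.1 h y hcz1.symm).symm
      have hz1x : z1 ≠ x := by
        rintro rfl
        exact hz1S hx
      have hSing1 : Sing c1 = insert z1 ((Sing c).erase x) := by
        ext v
        rw [hmove, Finset.mem_insert, Finset.mem_erase]
        constructor
        · rintro (h | ⟨h1, h2, h3⟩)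
          · exact Or.inr ⟨h.2, h.1⟩
          · left
            rcases hcls v h2 with h | h
            · exact absurd h h1
            · exact h
        · rintro (rfl | ⟨h1, h2⟩)
          · exact Or.inr ⟨hz1y, hcz1, hcls⟩
          · exact Or.inl ⟨h2, h1⟩
      have hz1e : z1 ∉ (Sing c).erase x := fun h => hz1S (Finset.mem_of_mem_erase h)
      have hcard1 : (Sing c1).card = s := by
        rw [hSing1, Finset.card_insert_of_notMem hz1e, Finset.card_erase_of_mem hx]
        have h2 : 0 < (Sing c).card := Finset.card_pos.2 ⟨x, hx⟩
        omega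
      -- `z1` is not in the `P`-class of `y`
      have hPz1 : P z1 ≠ P y := by
        intro h
        obtain ⟨u, v, hu, hv, huv⟩ := exists_edge_between hm hc (i := c x) (j := c y) hcyx.symm
        have hux := mem_sing.1 hx u hu
        subst hux
        rcases hcls v hv with rfl | rfl
        · exact hP _ _ huv hPy.symm
        · exact hP _ _ huv (hPy.symm.trans h.symm)
      -- agreement increases
      have hagr : (agr c P).card < (agr c1 P).card := by
        apply Finset.card_lt_card
        rw [Finset.ssubset_iff_of_subset]
        · refine ⟨(x, y), ?_, ?_⟩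
          · rw [mem_agr]
            exact ⟨by rw [e1, e2 x hyx.symm], hPy.symm⟩
          · rw [mem_agr]
            rintro ⟨h, -⟩
            exact hcyx h.symm
        · rintro ⟨u, v⟩ huv
          rw [mem_agr] at huv ⊢
          obtain ⟨h1, h2⟩ := huv
          refine ⟨?_, h2⟩
          by_cases hu : u = y <;> by_cases hv : v = y
          · rw [hu, hv]
          · subst hu
            rcases hcls v h1.symm with h | h
            · exact absurd h hv
            · subst h
              exact absurd h2.symm hPz1
          · subst hv
            rcases hcls u h1 with h | h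
            · exact absurd h hu
            · subst h
              exact absurd h2 hPz1
          · simp only [e2 u hu, e2 v hv]
            exact h1
      obtain ⟨z, hzP, hzx, ⟨c', hc', hSc'⟩, ⟨P1, hP1, hSP1, hpres⟩⟩ :=
        ih c1 P hc1P hcard1 hP (by omega) z1 (by rw [hSing1]; exact Finset.mem_insert_self _ _)
      have herase : (Sing c1).erase z1 = (Sing c).erase x := by
        rw [hSing1, Finset.erase_insert hz1e]
      refine ⟨z, hzP, fun h => absurd h hxP, ⟨c', hc', by rw [hSc', herase]⟩, ?_⟩
      rcases hSP1 with hSP1 | hSP1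
      · refine ⟨P1, hP1, Or.inl hSP1, ?_⟩
        intro u v h1 h2
        have : (u, v) ∈ agr c1 P := by
          have hmem : (u, v) ∈ agr c P := mem_agr.2 ⟨h1, h2⟩
          rw [mem_agr]
          refine ⟨?_, h2⟩
          by_cases hu : u = y <;> by_cases hv : v = y
          · rw [hu, hv]
          · subst hu
            rcases hcls v h1.symm with h | h
            · exact absurd h hv
            · subst h
              exact absurd h2.symm hPz1
          · subst hv
            rcases hcls u h1 with h | h
            · exact absurd h hu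
            · subst h
              exact absurd h2 hPz1
          · simp only [e2 u hu, e2 v hv]
            exact h1
        rw [mem_agr] at this
        exact hpres u v this.1 this.2
      · -- move `y` to `z1` in `P1`
        have hz1P1 : z1 ∈ Sing P1 := by rw [hSP1]; exact Finset.mem_insert_self _ _
        have hz1y' : ¬ G.Adj z1 y := fun h => hc _ _ h hcz1
        have hxyP1 : P1 x = P1 y := hpres x y (by rw [e1, e2 x hyx.symm]) hPy.symm
        have hyP1 : y ∉ Sing P1 := fun h => hyx (mem_sing.1 h x hxyP1).symm
        have hmove2 : ∀ v, v ∈ Sing (Function.update P1 y (P1 z1)) ↔ (v ∈ Sing P1 ∧ v ≠ z1) ∨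
            (v ≠ y ∧ P1 v = P1 y ∧ ∀ w, P1 w = P1 y → w = y ∨ w = v) := fun v =>
          mem_sing_move hz1P1 hz1y hyP1
        have hSPe : ∀ v, (v ∈ Sing P1 ∧ v ≠ z1) ↔ v ∈ (Sing P).erase z := by
          intro v
          rw [hSP1, Finset.mem_insert, Finset.mem_erase]
          constructor
          · rintro ⟨h | h, h'⟩
            · exact absurd h h'
            · exact h
          · rintro ⟨h1, h2⟩
            refine ⟨Or.inr ⟨h1, h2⟩, ?_⟩
            rintro rfl
            exact h1 (hzx h2).symm
        refine ⟨Function.update P1 y (P1 z1), proper_move hP1 hz1P1 hz1y', ?_, ?_⟩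
        · by_cases hcl : ∀ w, P1 w = P1 y → w = y ∨ w = x
          · right
            ext v
            rw [hmove2, hSPe, Finset.mem_insert, or_comm]
            constructor
            · rintro (⟨h1, h2, h3⟩ | h)
              · left
                rcases hcl v h2 with h | h
                · exact absurd h h1
                · exact h
              · exact Or.inr h
            · rintro (rfl | h)
              · exact Or.inl ⟨hyx.symm, hxyP1, hcl⟩
              · exact Or.inr h
          · left
            ext v
            rw [hmove2, hSPe]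
            constructor
            · rintro (h | ⟨h1, h2, h3⟩)
              · exact h
              · exfalso
                apply hcl
                intro w hw
                rcases h3 w hw with h | h
                · exact Or.inl h
                · right
                  rcases h3 x hxyP1 with h' | h'
                  · exact absurd h' hyx.symm
                  · exact h.trans h'.symm
            · exact fun h => Or.inl h
        · intro u v h1 h2
          by_cases hu : u = y <;> by_cases hv : v = y
          · rw [hu, hv]
          · subst hu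
            rcases hcls v h1.symm with h | h
            · exact absurd h hv
            · subst h
              exact absurd h2.symm hPz1
          · subst hv
            rcases hcls u h1 with h | h
            · exact absurd h hu
            · subst h
              exact absurd h2 hPz1
          · rw [Function.update_of_ne hu, Function.update_of_ne hv]
            exact hpres u v (by rw [e2 u hu, e2 v hv]; exact h1) h2

/-- If the complement is connected and every vertex can be isolated, then there is a colouring with
at most one singleton class. -/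
theorem gallai_core [Fintype V] {G : SimpleGraph V} {m : ℕ} (hm : ¬ G.Colorable m)
    (hcol : G.Colorable (m + 1)) (hconn : Gᶜ.Preconnected)
    (hcrit : (∃ c : V → Fin (m + 1), Proper G c ∧ (Sing c).card = 0) ∨
      ∀ a, ∃ P : V → Fin (m + 1), Proper G P ∧ a ∈ Sing P) :
    ∃ c : V → Fin (m + 1), Proper G c ∧ (Sing c).card ≤ 1 := by
  classical
  rcases hcrit with ⟨c, hc, h0⟩ | hcrit
  · exact ⟨c, hc, by omega⟩
  -- a colouring with the least number of singleton classes
  have hex : ∃ s, ∃ c : V → Fin (m + 1), Proper G c ∧ (Sing c).card = s := by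
    obtain ⟨C⟩ := hcol
    exact ⟨_, C, fun u v huv => C.valid huv, rfl⟩
  obtain ⟨s, ⟨c0, hc0, hcs0⟩, hmin⟩ : ∃ s, (∃ c : V → Fin (m + 1), Proper G c ∧ (Sing c).card = s) ∧
      ∀ c : V → Fin (m + 1), Proper G c → s ≤ (Sing c).card := by
    refine ⟨Nat.find hex, Nat.find_spec hex, fun c hc => Nat.find_min' hex ⟨c, hc, rfl⟩⟩
  refine ⟨c0, hc0, ?_⟩
  by_contra hcon
  push Not at hcon
  obtain ⟨x0, hx0, y0, hy0, hxy0⟩ := Finset.one_lt_card.1 hcon
  have ex : ∀ c P : V → Fin (m + 1), Proper G c → (Sing c).card = s → Proper G P → ∀ x ∈ Sing c,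
      ∃ z ∈ Sing P, (x ∈ Sing P → z = x) ∧
        (∃ c' : V → Fin (m + 1), Proper G c' ∧ Sing c' = insert z ((Sing c).erase x)) ∧
        (∃ P' : V → Fin (m + 1), Proper G P' ∧
          (Sing P' = (Sing P).erase z ∨ Sing P' = insert x ((Sing P).erase z)) ∧
          ∀ u v, c u = c v → P u = P v → P' u = P' v) := fun c P hc hcs hP x hx =>
    exchange hm hmin (Fintype.card (V × V)) c P hc hcs hP (by omega) x hx
  -- the set of vertices isolated by some minimum colouring
  let D : V → Prop := fun v => ∃ c : V → Fin (m + 1), Proper G c ∧ (Sing c).card = s ∧ v ∈ Sing c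
  have hDclosed : ∀ x a, D x → Gᶜ.Adj x a → D a := by
    rintro x a ⟨c, hc, hcs, hx⟩ hxa
    by_contra ha
    -- a colouring isolating `a` with few singleton classes
    have hexa : ∃ t, ∃ P : V → Fin (m + 1), Proper G P ∧ a ∈ Sing P ∧ (Sing P).card = t := by
      obtain ⟨P, hP, haP⟩ := hcrit a
      exact ⟨_, P, hP, haP, rfl⟩
    obtain ⟨P, hP, haP, hPt⟩ := Nat.find_spec hexa
    have hPmin : ∀ Q : V → Fin (m + 1), Proper G Q → a ∈ Sing Q → (Sing P).card ≤ (Sing Q).card := by
      intro Q hQ haQ
      rw [hPt]
      exact Nat.find_min' hexa ⟨Q, hQ, haQ, rfl⟩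
    obtain ⟨z, hzP, -, ⟨c', hc', hSc'⟩, ⟨P', hP', hSP', -⟩⟩ := ex c P hc hcs hP x hx
    have hza : z ≠ a := by
      rintro rfl
      apply ha
      refine ⟨c', hc', ?_, by rw [hSc']; exact Finset.mem_insert_self _ _⟩
      apply le_antisymm _ (hmin c' hc')
      rw [hSc']
      refine (Finset.card_insert_le _ _).trans ?_
      rw [Finset.card_erase_of_mem hx]
      have : 0 < (Sing c).card := Finset.card_pos.2 ⟨x, hx⟩
      omega
    rcases hSP' with hSP' | hSP'
    · have h1 := hPmin P' hP' (by rw [hSP']; exact Finset.mem_erase.2 ⟨hza.symm, haP⟩)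
      rw [hSP', Finset.card_erase_of_mem hzP] at h1
      have : 0 < (Sing P).card := Finset.card_pos.2 ⟨z, hzP⟩
      omega
    · have h1 : a ∈ Sing P' := by
        rw [hSP']
        exact Finset.mem_insert_of_mem (Finset.mem_erase.2 ⟨hza.symm, haP⟩)
      have h2 : x ∈ Sing P' := by
        rw [hSP']
        exact Finset.mem_insert_self _ _
      exact hxa.2 (adj_of_sing hm hP' h2 h1 hxa.1)
  have hreach : ∀ x y, Gᶜ.Reachable x y → D x → D y := by
    rintro x y ⟨w⟩ hx
    induction w with
    | nil => exact hx
    | cons h _ ih => exact ih (hDclosed _ _ hx h)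
  have hD : ∀ y, D y := fun y => hreach x0 y (hconn x0 y) ⟨c0, hc0, hcs0, hx0⟩
  -- the parallel relation
  let par : V → V → Prop := fun x y => ∀ c : V → Fin (m + 1), Proper G c → (Sing c).card = s →
    x ∈ Sing c → y ∈ Sing c → x = y
  have hpartrans : ∀ x y z, par x y → par y z → par x z := by
    intro x y z hxy hyz P hP hPs hxP hzP
    by_contra hne
    obtain ⟨c, hc, hcs, hyc⟩ := hD y
    obtain ⟨z', hz'P, -, -, ⟨P', hP', hSP', -⟩⟩ := ex c P hc hcs hP y hyc
    have hpos : 0 < (Sing P).card := Finset.card_pos.2 ⟨z', hz'P⟩
    rcases hSP' with hSP' | hSP'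
    · have h1 := hmin P' hP'
      rw [hSP', Finset.card_erase_of_mem hz'P] at h1
      omega
    · have hcard : (Sing P').card = s := by
        apply le_antisymm _ (hmin P' hP')
        rw [hSP']
        refine (Finset.card_insert_le _ _).trans ?_
        rw [Finset.card_erase_of_mem hz'P]
        omega
      have hy' : y ∈ Sing P' := by rw [hSP']; exact Finset.mem_insert_self _ _
      by_cases hx' : z' = x
      · have hz : z ∈ Sing P' := by
          rw [hSP']
          refine Finset.mem_insert_of_mem (Finset.mem_erase.2 ⟨?_, hzP⟩)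
          rintro rfl
          exact hne hx'.symm
        have := hyz P' hP' hcard hy' hz
        subst this
        exact hne (hxy P hP hPs hxP hzP)
      · have hx : x ∈ Sing P' := by
          rw [hSP']
          exact Finset.mem_insert_of_mem (Finset.mem_erase.2 ⟨fun h => hx' h.symm, hxP⟩)
        have := hxy P' hP' hcard hx hy'
        subst this
        exact hne (hyz P hP hPs hxP hzP)
  have hparadj : ∀ x y, Gᶜ.Adj x y → par x y := by
    intro x y hxy c hc _ hx hy
    by_contra hne
    exact hxy.2 (adj_of_sing hm hc hx hy hne)
  have hparreach : ∀ x y, Gᶜ.Reachable x y → par x y := by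
    rintro x y ⟨w⟩
    induction w with
    | nil => exact fun _ _ _ _ _ => rfl
    | cons h _ ih => exact hpartrans _ _ _ (hparadj _ _ h) ih
  exact hxy0 (hparreach x0 y0 (hconn x0 y0) c0 hc0 hcs0 hx0 hy0)

/-- Counting vertices by colour classes. -/
lemma card_of_sing [Fintype V] {G : SimpleGraph V} {m : ℕ} (hm : ¬ G.Colorable m)
    {c : V → Fin (m + 1)} (hc : Proper G c) : 2 * (m + 1) ≤ Fintype.card V + (Sing c).card := by
  classical
  have h1 : Fintype.card V = ∑ i : Fin (m + 1), (univ.filter (fun v => c v = i)).card := by
    rw [← Finset.card_univ]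
    exact Finset.card_eq_sum_card_fiberwise (fun _ _ => Finset.mem_coe.2 (Finset.mem_univ _))
  have h2 : (Sing c).card = ∑ i : Fin (m + 1), ((Sing c).filter (fun v => c v = i)).card :=
    Finset.card_eq_sum_card_fiberwise (fun _ _ => Finset.mem_coe.2 (Finset.mem_univ _))
  rw [h1, h2, ← Finset.sum_add_distrib]
  calc 2 * (m + 1) = ∑ _i : Fin (m + 1), 2 := by simp [mul_comm]
    _ ≤ _ := by
      refine Finset.sum_le_sum (fun i _ => ?_)
      obtain ⟨u, hu⟩ := exists_of_color hm hc i
      by_cases hS : u ∈ Sing c
      · have a1 : 0 < (univ.filter (fun v => c v = i)).card :=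
          Finset.card_pos.2 ⟨u, by simp [hu]⟩
        have a2 : 0 < ((Sing c).filter (fun v => c v = i)).card :=
          Finset.card_pos.2 ⟨u, by simp [hu, hS]⟩
        omega
      · have hS' := hS
        rw [mem_sing] at hS'
        push Not at hS'
        obtain ⟨w, hw, hwu⟩ := hS'
        have : 1 < (univ.filter (fun v => c v = i)).card :=
          Finset.one_lt_card.2 ⟨u, by simp [hu], w, by simp [hw, hu], hwu.symm⟩
        omega

end Pool.Agent.Lib.H80
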