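import Mathlib

/-!
# Noncommutative polynomials: words, linear maps given on words, derivations
-/

set_option autoImplicit false

namespace Pool.Agent.H4DM

/-- Noncommutative polynomials over `ℚ` in the letters `α`: finite linear combinations of words,
multiplied by concatenation.  The coefficient of the word `w` in `p` is `p.coeff w`. -/
abbrev NC (α : Type) : Type := MonoidAlgebra ℚ (FreeMonoid α)

/-- The word `l`, seen as a noncommutative polynomial. -/
noncomputable def wd {α : Type} (l : List α) : NC α :=
  MonoidAlgebra.single (FreeMonoid.ofList l) 1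

section words
variable {α : Type}

/-- The coefficient of the word `l`. -/
noncomputable def cf (p : NC α) (l : List α) : ℚ := p.coeff (FreeMonoid.ofList l)

theorem wd_nil : wd ([] : List α) = 1 := rfl

theorem wd_append (l m : List α) : wd (l ++ m) = wd l * wd m := by
  simp [wd, MonoidAlgebra.single_mul_single]

theorem wd_cons (a : α) (l : List α) : wd (a :: l) = wd [a] * wd l := by
  rw [← wd_append]; rfl

theorem cf_wd [DecidableEq α] (l m : List α) : cf (wd l) m = if l = m then 1 else 0 := by
  unfold cf wd
  rw [MonoidAlgebra.coeff_single]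
  by_cases h : l = m
  · subst h; simp
  · rw [if_neg h, Finsupp.single_eq_of_ne]
    intro h'
    exact h (FreeMonoid.ofList.injective h').symm

@[simp] theorem cf_add (p q : NC α) (l : List α) : cf (p + q) l = cf p l + cf q l := rfl
@[simp] theorem cf_sub (p q : NC α) (l : List α) : cf (p - q) l = cf p l - cf q l := rfl
@[simp] theorem cf_neg (p : NC α) (l : List α) : cf (-p) l = -cf p l := rfl
@[simp] theorem cf_smul (c : ℚ) (p : NC α) (l : List α) : cf (c • p) l = c * cf p l := rfl
@[simp] theorem cf_zero (l : List α) : cf (0 : NC α) l = 0 := rfl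

/-- `cf` as a linear functional. -/
noncomputable def cfL (l : List α) : NC α →ₗ[ℚ] ℚ where
  toFun p := cf p l
  map_add' _ _ := rfl
  map_smul' _ _ := rfl

theorem cf_ext {p q : NC α} (h : ∀ l, cf p l = cf q l) : p = q := by
  apply MonoidAlgebra.coeff_injective
  ext w
  exact h w

theorem cf_sum {ι : Type*} (s : Finset ι) (f : ι → NC α) (l : List α) :
    cf (∑ i ∈ s, f i) l = ∑ i ∈ s, cf (f i) l :=
  map_sum (cfL l) f s

variable {M : Type*} [AddCommGroup M] [Module ℚ M]

/-- The linear map with prescribed values on words. -/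
noncomputable def linw (F : List α → M) : NC α →ₗ[ℚ] M :=
  (MonoidAlgebra.basis (FreeMonoid α) ℚ).constr ℚ (fun w => F (FreeMonoid.toList w))

@[simp] theorem linw_wd (F : List α → M) (l : List α) : linw F (wd l) = F l := by
  have : wd l = MonoidAlgebra.basis (FreeMonoid α) ℚ (FreeMonoid.ofList l) := by
    rw [MonoidAlgebra.basis_apply]; rfl
  rw [this, linw, Module.Basis.constr_basis]
  rfl

theorem lin_ext {f g : NC α →ₗ[ℚ] M} (h : ∀ l, f (wd l) = g (wd l)) : f = g := by
  apply (MonoidAlgebra.basis (FreeMonoid α) ℚ).ext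
  intro w
  rw [MonoidAlgebra.basis_apply]
  exact h w

/-- Induction on noncommutative polynomials. -/
theorem nc_induction {p : NC α → Prop} (hw : ∀ l, p (wd l))
    (zero : p 0) (add : ∀ a b, p a → p b → p (a + b))
    (smul : ∀ (c : ℚ) a, p a → p (c • a)) (a : NC α) : p a := by
  have h : a ∈ Submodule.span ℚ (Set.range (MonoidAlgebra.basis (FreeMonoid α) ℚ)) := by
    rw [Module.Basis.span_eq]; trivial
  induction h using Submodule.span_induction with
  | mem x hx =>
    obtain ⟨w, rfl⟩ := hx
    rw [MonoidAlgebra.basis_apply]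
    exact hw w
  | zero => exact zero
  | add x y _ _ hx hy => exact add x y hx hy
  | smul c x _ hx => exact smul c x hx

end words

section deriv
variable {α : Type} {B : Type*} [Ring B] [Algebra ℚ B]

/-- Values on words of the derivation along `θ` with prescribed values on letters. -/
noncomputable def derW (θ : NC α →ₐ[ℚ] B) (φ : α → B) : List α → B
  | [] => 0
  | a :: l => φ a * θ (wd l) + θ (wd [a]) * derW θ φ l

/-- The derivation along `θ` with prescribed values `φ` on letters. -/
noncomputable def derA (θ : NC α →ₐ[ℚ] B) (φ : α → B) : NC α →ₗ[ℚ] B := linw (derW θ φ)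

theorem derW_append (θ : NC α →ₐ[ℚ] B) (φ : α → B) (l m : List α) :
    derW θ φ (l ++ m) = derW θ φ l * θ (wd m) + θ (wd l) * derW θ φ m := by
  induction l with
  | nil => simp [derW, wd_nil]
  | cons a l ih =>
    rw [List.cons_append, derW, ih, derW, wd_append, map_mul, wd_cons a l, map_mul]
    noncomm_ring

theorem derA_mul (θ : NC α →ₐ[ℚ] B) (φ : α → B) (p q : NC α) :
    derA θ φ (p * q) = derA θ φ p * θ q + θ p * derA θ φ q := by
  induction p using nc_induction with
  | hw l =>
    induction q using nc_induction with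
    | hw m => rw [← wd_append, derA, linw_wd, linw_wd, linw_wd, derW_append]
    | zero => simp
    | add a b ha hb => rw [mul_add, map_add, ha, hb, map_add, map_add]; noncomm_ring
    | smul c a ha =>
      rw [mul_smul_comm, map_smul, ha, map_smul, map_smul, mul_smul_comm, mul_smul_comm, smul_add]
  | zero => simp
  | add a b ha hb => rw [add_mul, map_add, ha, hb, map_add, map_add]; noncomm_ring
  | smul c a ha =>
    rw [smul_mul_assoc, map_smul, ha, map_smul, map_smul, smul_mul_assoc, smul_mul_assoc, smul_add]

@[simp] theorem derA_letter (θ : NC α →ₐ[ℚ] B) (φ : α → B) (a : α) :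
    derA θ φ (wd [a]) = φ a := by
  simp [derA, derW, wd_nil]

@[simp] theorem derA_one (θ : NC α →ₐ[ℚ] B) (φ : α → B) : derA θ φ 1 = 0 := by
  rw [← wd_nil]; simp [derA, derW]

/-- A linear map satisfying the Leibniz rule along `θ` is determined by its values on letters. -/
theorem leibniz_ext (θ : NC α →ₐ[ℚ] B) {D E : NC α →ₗ[ℚ] B}
    (hD : ∀ p q, D (p * q) = D p * θ q + θ p * D q)
    (hE : ∀ p q, E (p * q) = E p * θ q + θ p * E q)
    (h : ∀ a, D (wd [a]) = E (wd [a])) : D = E := by
  have one0 : ∀ F : NC α →ₗ[ℚ] B, (∀ p q, F (p * q) = F p * θ q + θ p * F q) → F 1 = 0 := by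
    intro F hF
    have := hF 1 1
    simp only [mul_one, map_one, one_mul] at this
    have h2 : F 1 + F 1 = F 1 + 0 := by rw [add_zero]; exact this.symm
    exact add_left_cancel h2
  apply lin_ext
  intro l
  induction l with
  | nil => rw [wd_nil, one0 D hD, one0 E hE]
  | cons a l ih => rw [wd_cons, hD, hE, h, ih]

/-- The derivation of `NC α` with prescribed values on letters. -/
noncomputable def der (φ : α → NC α) : NC α →ₗ[ℚ] NC α := derA (AlgHom.id ℚ (NC α)) φ

theorem der_mul (φ : α → NC α) (p q : NC α) : der φ (p * q) = der φ p * q + p * der φ q :=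
  derA_mul (AlgHom.id ℚ (NC α)) φ p q

@[simp] theorem der_letter (φ : α → NC α) (a : α) : der φ (wd [a]) = φ a :=
  derA_letter _ _ _

@[simp] theorem der_one (φ : α → NC α) : der φ 1 = 0 := derA_one _ _

theorem der_ext {D E : NC α →ₗ[ℚ] NC α}
    (hD : ∀ p q, D (p * q) = D p * q + p * D q)
    (hE : ∀ p q, E (p * q) = E p * q + p * E q)
    (h : ∀ a, D (wd [a]) = E (wd [a])) : D = E :=
  leibniz_ext (AlgHom.id ℚ (NC α)) (by simpa using hD) (by simpa using hE) h

end deriv

end Pool.Agent.H4DM
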