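import Mathlib
import Pool.Agent.Lib.H4NC

/-!
# The double shuffle Lie algebra and the Ihara bracket: definitions

`NC (Fin 2)` is `ℚ⟨x₀,x₁⟩` and `NC ℕ+` is `ℚ⟨y₁,y₂,…⟩`.
-/

set_option autoImplicit false

open scoped TensorProduct

namespace Pool.Agent.H4DM

noncomputable section

attribute [local instance] LieRing.ofAssociativeRing

theorem ring_add_left {R : Type*} [Ring R] (a b c : R) :
    (a + b) * c - c * (a + b) = (a * c - c * a) + (b * c - c * b) := by
  noncomm_ring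

theorem ring_add_right {R : Type*} [Ring R] (a b c : R) :
    a * (b + c) - (b + c) * a = (a * b - b * a) + (a * c - c * a) := by
  noncomm_ring

theorem ring_jacobi {R : Type*} [Ring R] (a b c : R) :
    a * (b * c - c * b) - (b * c - c * b) * a =
      (a * b - b * a) * c - c * (a * b - b * a) + (b * (a * c - c * a) - (a * c - c * a) * b) := by
  noncomm_ring

/-- The letter `x₀` of `ℚ⟨x₀,x₁⟩`. -/
def x0 : NC (Fin 2) := wd [0]

/-- The letter `x₁` of `ℚ⟨x₀,x₁⟩`. -/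
def x1 : NC (Fin 2) := wd [1]

/-- `Lie[x₀,x₁]`: the Lie subalgebra of `ℚ⟨x₀,x₁⟩` (with the commutator) generated by the
letters, i.e. the smallest subspace containing `x₀`, `x₁` and closed under commutators. -/
def Lie01 : LieSubalgebra ℚ (NC (Fin 2)) :=
  LieSubalgebra.lieSpan ℚ (NC (Fin 2)) {x0, x1}

/-- The derivation `D_f` of `ℚ⟨x₀,x₁⟩` with `D_f(x₀) = 0` and `D_f(x₁) = [x₁,f] = x₁f - fx₁`. -/
def ihDer (f : NC (Fin 2)) : NC (Fin 2) →ₗ[ℚ] NC (Fin 2) :=
  der (fun a => if a = 1 then x1 * f - f * x1 else 0)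

/-- The Ihara bracket `{f,g} = [f,g] + D_f(g) - D_g(f)`, where `[f,g] = fg - gf`. -/
def ihBr (f g : NC (Fin 2)) : NC (Fin 2) :=
  f * g - g * f + ihDer f g - ihDer g f

theorem ihDer_mul (f p q : NC (Fin 2)) : ihDer f (p * q) = ihDer f p * q + p * ihDer f q :=
  der_mul _ p q

theorem ihDer_x0 (f : NC (Fin 2)) : ihDer f x0 = 0 := by
  rw [ihDer, x0, der_letter]; simp

theorem ihDer_x1 (f : NC (Fin 2)) : ihDer f x1 = x1 * f - f * x1 := by
  have h : ihDer f (wd [1]) = if (1 : Fin 2) = 1 then x1 * f - f * x1 else 0 := by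
    rw [ihDer, der_letter]
  rw [if_pos rfl] at h
  exact h

theorem fin2_ext {D E : NC (Fin 2) →ₗ[ℚ] NC (Fin 2)}
    (hD : ∀ p q, D (p * q) = D p * q + p * D q)
    (hE : ∀ p q, E (p * q) = E p * q + p * E q)
    (h0 : D x0 = E x0) (h1 : D x1 = E x1) : D = E := by
  apply der_ext hD hE
  intro a
  fin_cases a
  · exact h0
  · exact h1

theorem ihDer_add (f g : NC (Fin 2)) : ihDer (f + g) = ihDer f + ihDer g := by
  apply fin2_ext (ihDer_mul _)
  · intro p q
    simp only [LinearMap.add_apply, ihDer_mul]; noncomm_ring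
  · simp [ihDer_x0]
  · simp only [LinearMap.add_apply, ihDer_x1]; noncomm_ring

theorem ihDer_smul (c : ℚ) (f : NC (Fin 2)) : ihDer (c • f) = c • ihDer f := by
  apply fin2_ext (ihDer_mul _)
  · intro p q
    simp only [LinearMap.smul_apply, ihDer_mul, smul_add, smul_mul_assoc, mul_smul_comm]
  · simp [ihDer_x0]
  · simp only [LinearMap.smul_apply, ihDer_x1, smul_sub, smul_mul_assoc, mul_smul_comm]

theorem ihDer_ihBr (f g : NC (Fin 2)) :
    ihDer (ihBr f g) = ihDer f ∘ₗ ihDer g - ihDer g ∘ₗ ihDer f := by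
  apply fin2_ext (ihDer_mul _)
  · intro p q
    simp only [LinearMap.sub_apply, LinearMap.comp_apply, ihDer_mul, map_add]
    noncomm_ring
  · simp [ihDer_x0]
  · simp only [LinearMap.sub_apply, LinearMap.comp_apply, ihDer_x1, map_sub, ihDer_mul, ihBr]
    noncomm_ring

/-- The operator `h ↦ f h + D_f(h)`. -/
def sOp (f : NC (Fin 2)) : Module.End ℚ (NC (Fin 2)) :=
  LinearMap.mulLeft ℚ f + ihDer f

theorem sOp_apply (f h : NC (Fin 2)) : sOp f h = f * h + ihDer f h := rfl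

theorem ihDer_one (f : NC (Fin 2)) : ihDer f 1 = 0 := der_one _

theorem sOp_one (f : NC (Fin 2)) : sOp f 1 = f := by
  rw [sOp_apply, ihDer_one]; simp

theorem sOp_add (f g : NC (Fin 2)) : sOp (f + g) = sOp f + sOp g := by
  refine LinearMap.ext fun h => ?_
  simp only [sOp_apply, LinearMap.add_apply, ihDer_add]; noncomm_ring

theorem sOp_smul (c : ℚ) (f : NC (Fin 2)) : sOp (c • f) = c • sOp f := by
  refine LinearMap.ext fun h => ?_
  simp only [sOp_apply, LinearMap.smul_apply, ihDer_smul, smul_add, smul_mul_assoc]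

theorem sOp_injective {f g : NC (Fin 2)} (h : sOp f = sOp g) : f = g := by
  have := congrArg (fun F => F 1) h
  simpa only [sOp_one] using this

theorem sOp_ihBr (f g : NC (Fin 2)) : sOp (ihBr f g) = sOp f * sOp g - sOp g * sOp f := by
  refine LinearMap.ext fun h => ?_
  have h1 : sOp (ihBr f g) h = ihBr f g * h + (ihDer f (ihDer g h) - ihDer g (ihDer f h)) := by
    rw [sOp_apply, ihDer_ihBr]; rfl
  have h2 : (sOp f * sOp g - sOp g * sOp f) h =
      (f * (g * h + ihDer g h) + ihDer f (g * h + ihDer g h)) -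
      (g * (f * h + ihDer f h) + ihDer g (f * h + ihDer f h)) := rfl
  rw [h1, h2, ihBr, map_add, map_add, ihDer_mul, ihDer_mul]
  noncomm_ring

theorem x0_mem : x0 ∈ Lie01 := LieSubalgebra.subset_lieSpan (by simp)
theorem x1_mem : x1 ∈ Lie01 := LieSubalgebra.subset_lieSpan (by simp)

theorem comm_mem {f g : NC (Fin 2)} (hf : f ∈ Lie01) (hg : g ∈ Lie01) : f * g - g * f ∈ Lie01 := by
  have := Lie01.lie_mem hf hg
  rwa [LieRing.of_associative_ring_bracket] at this

theorem ihDer_mem {f g : NC (Fin 2)} (hf : f ∈ Lie01) (hg : g ∈ Lie01) : ihDer f g ∈ Lie01 := by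
  induction hg using LieSubalgebra.lieSpan_induction with
  | mem x hx =>
    rcases hx with rfl | hx
    · rw [ihDer_x0]; exact Lie01.zero_mem
    · rw [Set.mem_singleton_iff] at hx
      subst hx
      rw [ihDer_x1]; exact comm_mem x1_mem hf
  | zero => rw [map_zero]; exact Lie01.zero_mem
  | add a b _ _ ha hb => rw [map_add]; exact Lie01.add_mem ha hb
  | smul c a _ ha => rw [map_smul]; exact Lie01.smul_mem c ha
  | lie a b ha' hb' ha hb =>
    rw [LieRing.of_associative_ring_bracket, map_sub, ihDer_mul, ihDer_mul]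
    have h1 := comm_mem ha hb'
    have h2 := comm_mem ha' hb
    have : ihDer f a * b + a * ihDer f b - (ihDer f b * a + b * ihDer f a) =
      (ihDer f a * b - b * ihDer f a) + (a * ihDer f b - ihDer f b * a) := by noncomm_ring
    rw [this]
    exact Lie01.add_mem h1 h2

theorem ihBr_mem {f g : NC (Fin 2)} (hf : f ∈ Lie01) (hg : g ∈ Lie01) : ihBr f g ∈ Lie01 :=
  Lie01.sub_mem (Lie01.add_mem (comm_mem hf hg) (ihDer_mem hf hg)) (ihDer_mem hg hf)

/-- `Lie[x₀,x₁]` as a vector space, to be equipped with the Ihara bracket. -/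
structure IharaLie : Type where
  /-- The underlying noncommutative polynomial. -/
  val : NC (Fin 2)
  mem : val ∈ Lie01

namespace IharaLie

theorem val_injective : Function.Injective IharaLie.val := by
  rintro ⟨a, _⟩ ⟨b, _⟩ h
  simp only at h
  subst h; rfl

theorem ext' {a b : IharaLie} (h : a.val = b.val) : a = b := val_injective h

instance : Zero IharaLie := ⟨⟨0, Lie01.zero_mem⟩⟩
instance : Add IharaLie := ⟨fun a b => ⟨a.val + b.val, Lie01.add_mem a.mem b.mem⟩⟩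
instance : Neg IharaLie := ⟨fun a => ⟨-a.val, Lie01.neg_mem a.mem⟩⟩
instance : Sub IharaLie := ⟨fun a b => ⟨a.val - b.val, Lie01.sub_mem a.mem b.mem⟩⟩
instance : SMul ℕ IharaLie := ⟨fun n a => ⟨n • a.val, by
  have := Lie01.smul_mem (n : ℚ) a.mem; rwa [Nat.cast_smul_eq_nsmul] at this⟩⟩
instance : SMul ℤ IharaLie := ⟨fun n a => ⟨n • a.val, by
  have := Lie01.smul_mem (n : ℚ) a.mem; rwa [Int.cast_smul_eq_zsmul] at this⟩⟩
instance : SMul ℚ IharaLie := ⟨fun c a => ⟨c • a.val, Lie01.smul_mem c a.mem⟩⟩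

instance : AddCommGroup IharaLie :=
  val_injective.addCommGroup _ rfl (fun _ _ => rfl) (fun _ => rfl) (fun _ _ => rfl)
    (fun _ _ => rfl) (fun _ _ => rfl)

@[simp] theorem val_add (a b : IharaLie) : (a + b).val = a.val + b.val := rfl
@[simp] theorem val_sub (a b : IharaLie) : (a - b).val = a.val - b.val := rfl
@[simp] theorem val_neg (a : IharaLie) : (-a).val = -a.val := rfl
@[simp] theorem val_zero : (0 : IharaLie).val = 0 := rfl
@[simp] theorem val_smul (c : ℚ) (a : IharaLie) : (c • a).val = c • a.val := rfl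

/-- The inclusion into `ℚ⟨x₀,x₁⟩` as an additive map. -/
def valHom : IharaLie →+ NC (Fin 2) where
  toFun := val
  map_zero' := rfl
  map_add' _ _ := rfl

instance : Module ℚ IharaLie :=
  val_injective.module ℚ valHom (fun _ _ => rfl)

/-- The Ihara bracket on `Lie[x₀,x₁]`. -/
instance : Bracket IharaLie IharaLie :=
  ⟨fun f g => ⟨ihBr f.val g.val, ihBr_mem f.mem g.mem⟩⟩

@[simp] theorem val_lie (a b : IharaLie) : ⁅a, b⁆.val = ihBr a.val b.val := rfl

theorem eq_of_sOp {a b : IharaLie} (h : sOp a.val = sOp b.val) : a = b :=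
  ext' (sOp_injective h)

/-- `Lie[x₀,x₁]` with the Ihara bracket is a Lie ring. -/
instance : LieRing IharaLie where
  add_lie a b c := by
    apply eq_of_sOp
    simp only [val_lie, val_add, sOp_ihBr, sOp_add]
    exact ring_add_left _ _ _
  lie_add a b c := by
    apply eq_of_sOp
    simp only [val_lie, val_add, sOp_ihBr, sOp_add]
    exact ring_add_right _ _ _
  lie_self a := by
    apply ext'
    simp [ihBr]
  leibniz_lie a b c := by
    apply eq_of_sOp
    simp only [val_lie, val_add, sOp_ihBr, sOp_add]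
    exact ring_jacobi _ _ _

/-- `Lie[x₀,x₁]` with the Ihara bracket is a Lie algebra over `ℚ`. -/
instance : LieAlgebra ℚ IharaLie where
  lie_smul c a b := by
    apply eq_of_sOp
    simp only [val_lie, val_smul, sOp_ihBr, sOp_smul, smul_sub, mul_smul_comm, smul_mul_assoc]

end IharaLie

/-- The word in `x₀,x₁` attached to a word in the `y_n`:
`y_{n₁}⋯y_{n_r} ↦ x₀^{n₁-1}x₁⋯x₀^{n_r-1}x₁`. -/
def yw : List ℕ+ → List (Fin 2)
  | [] => []
  | n :: t => List.replicate ((n : ℕ) - 1) 0 ++ 1 :: yw t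

open Classical in
/-- The linear map `π_Y : ℚ⟨x₀,x₁⟩ → ℚ⟨Y⟩` sending `x₀^{n₁-1}x₁⋯x₀^{n_r-1}x₁` to
`y_{n₁}⋯y_{n_r}` and every other word (those ending in `x₀`) to `0`. -/
def piY : NC (Fin 2) →ₗ[ℚ] NC ℕ+ :=
  linw (fun l => if h : ∃ t, yw t = l then wd h.choose else 0)

/-- The linear map `ψ ↦ ∑_{n ≥ 2} ((-1)^{n-1}/n) (ψ | x₀^{n-1}x₁) y₁ⁿ`. -/
def corr : NC (Fin 2) →ₗ[ℚ] NC ℕ+ :=
  linw (fun l => if 2 ≤ l.length ∧ l = List.replicate (l.length - 1) 0 ++ [1]
    then ((-1 : ℚ) ^ (l.length - 1) / l.length) • wd (List.replicate l.length 1) else 0)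

/-- `ψ_* = π_Y(ψ) + ∑_{n ≥ 2} ((-1)^{n-1}/n) (ψ | x₀^{n-1}x₁) y₁ⁿ`. -/
def psiStar (ψ : NC (Fin 2)) : NC ℕ+ := piY ψ + corr ψ

/-- The letter `y_n` of `ℚ⟨Y⟩` for `n ≥ 1`, with the convention `y₀ = 1`. -/
def yy : ℕ → NC ℕ+
  | 0 => 1
  | n + 1 => wd [n.succPNat]

/-- The stuffle coproduct `Δ_* : ℚ⟨Y⟩ → ℚ⟨Y⟩ ⊗ ℚ⟨Y⟩`, the algebra homomorphism with
`Δ_*(y_n) = ∑_{i+j=n} y_i ⊗ y_j` (`y₀ = 1`). -/
def stuffleCoproduct : NC ℕ+ →ₐ[ℚ] NC ℕ+ ⊗[ℚ] NC ℕ+ :=
  MonoidAlgebra.lift ℚ (NC ℕ+ ⊗[ℚ] NC ℕ+) (FreeMonoid ℕ+)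
    (FreeMonoid.lift (fun n : ℕ+ =>
      ∑ p ∈ Finset.HasAntidiagonal.antidiagonal (n : ℕ), yy p.1 ⊗ₜ[ℚ] yy p.2))

/-- Membership in the double shuffle Lie algebra `dm`: `ψ ∈ Lie[x₀,x₁]`, the coefficients of `x₀`,
`x₁` and `x₀x₁` in `ψ` vanish, and `ψ_*` is primitive for the stuffle coproduct. -/
def IsDM (ψ : NC (Fin 2)) : Prop :=
  ψ ∈ Lie01 ∧ cf ψ [0] = 0 ∧ cf ψ [1] = 0 ∧ cf ψ [0, 1] = 0 ∧
    stuffleCoproduct (psiStar ψ) = psiStar ψ ⊗ₜ[ℚ] 1 + 1 ⊗ₜ[ℚ] psiStar ψ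

end

end Pool.Agent.H4DM
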