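import Mathlib
import Pool.Agent.Lib.H4DMDefs

/-!
# Decomposition of `ℚ⟨x₀,x₁⟩` by the final run of `x₀`'s
-/

set_option autoImplicit false

open Polynomial

namespace Pool.Agent.H4DM

noncomputable section

/-- Decompose a word as `yw t ++ x₀^b`. -/
def parse : List (Fin 2) → List ℕ+ × ℕ
  | [] => ([], 0)
  | a :: l =>
    if a = 1 then (1 :: (parse l).1, (parse l).2)
    else match (parse l).1 with
      | [] => ([], (parse l).2 + 1)
      | n :: t => ((n + 1) :: t, (parse l).2)

theorem parse_one (l : List (Fin 2)) : parse (1 :: l) = (1 :: (parse l).1, (parse l).2) := by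
  rw [parse, if_pos rfl]

theorem parse_zero_nil {l : List (Fin 2)} (h : (parse l).1 = []) :
    parse (0 :: l) = ([], (parse l).2 + 1) := by
  rw [parse, if_neg (by decide), h]

theorem parse_zero_cons {l : List (Fin 2)} {n : ℕ+} {t : List ℕ+} (h : (parse l).1 = n :: t) :
    parse (0 :: l) = ((n + 1) :: t, (parse l).2) := by
  rw [parse, if_neg (by decide), h]

theorem parse_replicate (b : ℕ) : parse (List.replicate b 0) = ([], b) := by
  induction b with
  | zero => rfl
  | succ b ih =>
    rw [List.replicate_succ, parse_zero_nil (by rw [ih]), ih]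

theorem parse_zeros_one (k : ℕ) (l : List (Fin 2)) :
    parse (List.replicate k 0 ++ 1 :: l) = (k.succPNat :: (parse l).1, (parse l).2) := by
  induction k with
  | zero => rw [List.replicate_zero, List.nil_append, parse_one]; rfl
  | succ k ih =>
    rw [List.replicate_succ, List.cons_append, parse_zero_cons (by rw [ih]), ih]
    rfl

theorem parse_yw_append (t : List ℕ+) (l : List (Fin 2)) :
    parse (yw t ++ l) = (t ++ (parse l).1, (parse l).2) := by
  induction t with
  | nil => rfl
  | cons n t ih =>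
    rw [yw, List.append_assoc, List.cons_append, parse_zeros_one, ih]
    have : ((n : ℕ) - 1).succPNat = n := by
      apply PNat.eq
      have := n.pos
      simp only [Nat.succPNat_coe]
      omega
    rw [this]
    rfl

theorem parse_unparse (t : List ℕ+) (b : ℕ) : parse (yw t ++ List.replicate b 0) = (t, b) := by
  rw [parse_yw_append, parse_replicate]; simp

theorem unparse_parse (l : List (Fin 2)) :
    yw (parse l).1 ++ List.replicate (parse l).2 0 = l := by
  induction l with
  | nil => rfl
  | cons a l ih =>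
    by_cases ha : a = 1
    · subst ha
      rw [parse_one]
      simp only [yw, PNat.one_coe, Nat.sub_self, List.replicate_zero, List.nil_append,
        List.cons_append]
      rw [ih]
    · have ha0 : a = 0 := by
        have := a.isLt
        apply Fin.ext
        have h1 : (a : ℕ) ≠ 1 := fun h => ha (Fin.ext h)
        simp only [Fin.val_zero]
        omega
      subst ha0
      rcases hp : (parse l).1 with _ | ⟨n, t⟩
      · rw [parse_zero_nil hp]
        rw [hp] at ih
        simp only [yw, List.nil_append] at ih ⊢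
        rw [List.replicate_succ, ih]
      · rw [parse_zero_cons hp]
        rw [hp] at ih
        simp only [yw, PNat.add_coe, PNat.one_coe, Nat.add_sub_cancel] at ih ⊢
        have hn : (n : ℕ) = ((n : ℕ) - 1) + 1 := by have := n.pos; omega
        rw [hn, List.replicate_succ]
        simp only [List.cons_append]
        rw [ih]

theorem yw_append (s t : List ℕ+) : yw (s ++ t) = yw s ++ yw t := by
  induction s with
  | nil => rfl
  | cons n s ih => simp [yw, ih]

theorem yw_injective : Function.Injective yw := by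
  intro s t h
  have h1 := parse_unparse s 0
  have h2 := parse_unparse t 0
  rw [h, h2] at h1
  exact (congrArg Prod.fst h1).symm

/-- The algebra embedding `ℚ⟨Y⟩ → ℚ⟨x₀,x₁⟩`, `y_n ↦ x₀^{n-1}x₁`. -/
def jA : NC ℕ+ →ₐ[ℚ] NC (Fin 2) :=
  MonoidAlgebra.lift ℚ (NC (Fin 2)) (FreeMonoid ℕ+) (FreeMonoid.lift (fun n : ℕ+ => wd (yw [n])))

theorem jA_wd (t : List ℕ+) : jA (wd t) = wd (yw t) := by
  induction t with
  | nil => simp [wd_nil, yw]
  | cons n t ih =>
    rw [wd_cons, map_mul, ih, show n :: t = [n] ++ t from rfl, yw_append, wd_append]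
    congr 1
    simp [jA, wd]

theorem wd_replicate_zero (b : ℕ) : wd (List.replicate b (0 : Fin 2)) = x0 ^ b := by
  induction b with
  | zero => simp [wd_nil]
  | succ b ih => rw [List.replicate_succ, wd_cons, ih, pow_succ']; rfl

theorem wd_eq (l : List (Fin 2)) : wd l = jA (wd (parse l).1) * x0 ^ (parse l).2 := by
  rw [jA_wd, ← wd_replicate_zero, ← wd_append, unparse_parse]

/-- Linear maps out of `ℚ⟨x₀,x₁⟩` are determined by their values on `j(t) x₀^b`. -/
theorem lin_ext_j {M : Type*} [AddCommGroup M] [Module ℚ M] {F G : NC (Fin 2) →ₗ[ℚ] M}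
    (h : ∀ (t : NC ℕ+) (b : ℕ), F (jA t * x0 ^ b) = G (jA t * x0 ^ b)) : F = G := by
  apply lin_ext
  intro l
  rw [wd_eq]
  exact h _ _

/-- The decomposition `h = ∑ j(h_b) x₀^b`, recorded as a polynomial in a commuting variable. -/
def Th : NC (Fin 2) →ₗ[ℚ] (NC ℕ+)[X] :=
  linw (fun l => Polynomial.monomial (parse l).2 (wd (parse l).1))

theorem Th_j (t : NC ℕ+) (b : ℕ) : Th (jA t * x0 ^ b) = Polynomial.monomial b t := by
  induction t using nc_induction with
  | hw l =>
    rw [jA_wd, ← wd_replicate_zero, ← wd_append, Th, linw_wd, parse_unparse]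
  | zero => simp
  | add p q hp hq => rw [map_add, add_mul, map_add, hp, hq, map_add]
  | smul c p hp =>
    rw [map_smul, smul_mul_assoc, map_smul, hp, Polynomial.smul_monomial]

theorem Th_mul_x0 (h : NC (Fin 2)) (c : ℕ) : Th (h * x0 ^ c) = Th h * X ^ c := by
  have : Th ∘ₗ LinearMap.mulRight ℚ (x0 ^ c) = (LinearMap.mulRight ℚ (X ^ c : (NC ℕ+)[X])) ∘ₗ Th := by
    apply lin_ext_j
    intro t b
    simp only [LinearMap.comp_apply, LinearMap.mulRight_apply]
    rw [mul_assoc, ← pow_add, Th_j, Th_j, Polynomial.monomial_mul_X_pow]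
  exact LinearMap.congr_fun this h

theorem Th_j_mul (t : NC ℕ+) (h : NC (Fin 2)) : Th (jA t * h) = C t * Th h := by
  have : Th ∘ₗ LinearMap.mulLeft ℚ (jA t) = (LinearMap.mulLeft ℚ (C t : (NC ℕ+)[X])) ∘ₗ Th := by
    apply lin_ext_j
    intro s b
    simp only [LinearMap.comp_apply, LinearMap.mulLeft_apply]
    rw [← mul_assoc, ← map_mul, Th_j, Th_j, Polynomial.C_mul_monomial]
  exact LinearMap.congr_fun this h

/-- `Th` is injective. -/
theorem Th_injective : Function.Injective Th := by
  let inv : (NC ℕ+)[X] →+ NC (Fin 2) :=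
    { toFun := fun p => p.sum (fun b t => jA t * x0 ^ b)
      map_zero' := by simp
      map_add' := fun p q => by
        rw [Polynomial.sum_add_index]
        · intro i; simp
        · intro i a b; rw [map_add, add_mul] }
  have h : ∀ p, inv (Th p) = p := by
    intro p
    have h2 : (inv.toRatLinearMap) ∘ₗ Th = LinearMap.id := by
      apply lin_ext_j
      intro t b
      simp only [LinearMap.comp_apply, LinearMap.id_apply]
      rw [Th_j]
      change (Polynomial.monomial b t).sum (fun b t => jA t * x0 ^ b) = _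
      rw [Polynomial.sum_monomial_index]
      simp
    exact LinearMap.congr_fun h2 p
  exact Function.LeftInverse.injective h

/-- The derivation `x₀ ↦ [f,x₀]`, `x₁ ↦ 0`. -/
def del (f : NC (Fin 2)) : NC (Fin 2) →ₗ[ℚ] NC (Fin 2) :=
  der (fun a => if a = 0 then f * x0 - x0 * f else 0)

theorem del_mul (f p q : NC (Fin 2)) : del f (p * q) = del f p * q + p * del f q := der_mul _ p q

theorem del_x0 (f : NC (Fin 2)) : del f x0 = f * x0 - x0 * f := by
  have h : del f (wd [0]) = if (0 : Fin 2) = 0 then f * x0 - x0 * f else 0 := by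
    rw [del, der_letter]
  rw [if_pos rfl] at h
  exact h

theorem del_x1 (f : NC (Fin 2)) : del f x1 = 0 := by
  have h : del f (wd [1]) = if (1 : Fin 2) = 0 then f * x0 - x0 * f else 0 := by
    rw [del, der_letter]
  rw [if_neg (by decide)] at h
  exact h

theorem sOp_eq (f h : NC (Fin 2)) : sOp f h = h * f + del f h := by
  have : ihDer f = del f + (LinearMap.mulRight ℚ f - LinearMap.mulLeft ℚ f) := by
    apply fin2_ext (ihDer_mul f)
    · intro p q
      simp only [LinearMap.add_apply, LinearMap.sub_apply, LinearMap.mulRight_apply,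
        LinearMap.mulLeft_apply, del_mul]
      noncomm_ring
    · simp only [LinearMap.add_apply, LinearMap.sub_apply, LinearMap.mulRight_apply,
        LinearMap.mulLeft_apply, del_x0, ihDer_x0]
      noncomm_ring
    · simp only [LinearMap.add_apply, LinearMap.sub_apply, LinearMap.mulRight_apply,
        LinearMap.mulLeft_apply, del_x1, ihDer_x1]
      noncomm_ring
  rw [sOp_apply, this]
  simp only [LinearMap.add_apply, LinearMap.sub_apply, LinearMap.mulRight_apply,
        LinearMap.mulLeft_apply]
  noncomm_ring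

theorem del_x0_pow (f : NC (Fin 2)) (n : ℕ) : del f (x0 ^ n) = f * x0 ^ n - x0 ^ n * f := by
  induction n with
  | zero => simp [del]
  | succ n ih => rw [pow_succ, del_mul, ih, del_x0]; noncomm_ring

theorem piY_word (l : List (Fin 2)) :
    piY (wd l) = if (parse l).2 = 0 then wd (parse l).1 else 0 := by
  rw [piY, linw_wd]
  by_cases hb : (parse l).2 = 0
  · have h1 := unparse_parse l
    rw [hb, List.replicate_zero, List.append_nil] at h1
    have hex : ∃ t, yw t = l := ⟨_, h1⟩
    rw [dif_pos hex, if_pos hb]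
    congr 1
    apply yw_injective
    rw [h1]
    exact hex.choose_spec
  · rw [if_neg hb, dif_neg]
    rintro ⟨t, rfl⟩
    have := parse_unparse t 0
    simp only [List.replicate_zero, List.append_nil] at this
    rw [this] at hb
    exact hb rfl

theorem piY_eq (h : NC (Fin 2)) : piY h = (Th h).coeff 0 := by
  induction h using nc_induction with
  | hw l =>
    rw [piY_word, Th, linw_wd, Polynomial.coeff_monomial]
  | zero => simp
  | add p q hp hq => simp [hp, hq]
  | smul c p hp => simp [hp]

theorem parse_append_one (l : List (Fin 2)) : (parse (l ++ [1])).2 = 0 := by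
  have h := unparse_parse l
  conv_lhs => rw [← h, List.append_assoc, parse_yw_append]
  simp only
  have : List.replicate (parse l).2 (0 : Fin 2) ++ [1] =
    List.replicate (parse l).2 0 ++ 1 :: [] := rfl
  rw [this, parse_zeros_one]
  rfl

theorem jA_piY_mul_x1 (g : NC (Fin 2)) : jA (piY (g * x1)) = g * x1 := by
  induction g using nc_induction with
  | hw l =>
    rw [show (x1 : NC (Fin 2)) = wd [1] from rfl, ← wd_append, piY_word,
      if_pos (parse_append_one l)]
    conv_rhs => rw [wd_eq, parse_append_one]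
    simp
  | zero => simp
  | add p q hp hq => rw [add_mul, map_add, map_add, hp, hq]
  | smul c p hp => rw [smul_mul_assoc, map_smul, map_smul, hp]

/-- The derivation of `ℚ⟨Y⟩` induced by `del f`. -/
def delT (f : NC (Fin 2)) : NC ℕ+ →ₗ[ℚ] NC ℕ+ :=
  der (fun n => piY ((f * x0 ^ ((n : ℕ) - 1) - x0 ^ ((n : ℕ) - 1) * f) * x1))

theorem jA_letter (n : ℕ+) : jA (wd [n]) = x0 ^ ((n : ℕ) - 1) * x1 := by
  rw [jA_wd]
  simp only [yw]
  rw [wd_append, wd_replicate_zero]
  rfl

theorem del_jA (f : NC (Fin 2)) (t : NC ℕ+) : del f (jA t) = jA (delT f t) := by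
  have : del f ∘ₗ jA.toLinearMap = jA.toLinearMap ∘ₗ delT f := by
    apply leibniz_ext jA
    · intro p q
      simp only [LinearMap.comp_apply, AlgHom.toLinearMap_apply, map_mul, del_mul]
    · intro p q
      simp only [LinearMap.comp_apply, AlgHom.toLinearMap_apply, delT, der_mul, map_add, map_mul]
    · intro n
      simp only [LinearMap.comp_apply, AlgHom.toLinearMap_apply, jA_letter, del_mul, del_x1,
        del_x0_pow, delT, der_letter, jA_piY_mul_x1]
      simp
  exact LinearMap.congr_fun this t

/-- The exact formula for the Ihara action in terms of the decomposition. -/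
theorem Th_sOp_coeff (f h : NC (Fin 2)) (n : ℕ) :
    (Th (sOp f h)).coeff n = (Th h * Th f).coeff n + delT f ((Th h).coeff n) := by
  let c : (NC ℕ+)[X] →ₗ[ℚ] NC ℕ+ := (Polynomial.lcoeff (NC ℕ+) n).restrictScalars ℚ
  have : c ∘ₗ Th ∘ₗ sOp f =
      c ∘ₗ (LinearMap.mulRight ℚ (Th f)) ∘ₗ Th + delT f ∘ₗ c ∘ₗ Th := by
    apply lin_ext_j
    intro t b
    simp only [LinearMap.comp_apply, LinearMap.add_apply, LinearMap.mulRight_apply]
    have h1 : sOp f (jA t * x0 ^ b) = jA t * (f * x0 ^ b) + jA (delT f t) * x0 ^ b := by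
      rw [sOp_eq, del_mul, del_x0_pow, del_jA]; noncomm_ring
    rw [h1, map_add, Th_j_mul, Th_mul_x0, Th_j, Th_j]
    have h2 : Polynomial.monomial b t * Th f = C t * (Th f * X ^ b) := by
      rw [← Polynomial.C_mul_X_pow_eq_monomial, mul_assoc, Polynomial.X_pow_mul]
    rw [h2, map_add]
    congr 1
    change (Polynomial.monomial b (delT f t)).coeff n = delT f ((Polynomial.monomial b t).coeff n)
    rw [Polynomial.coeff_monomial, Polynomial.coeff_monomial]
    split_ifs
    · rfl
    · simp
  exact LinearMap.congr_fun this h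

/-- The derivation `∂/∂x₀` of `ℚ⟨x₀,x₁⟩`. -/
def d0 : NC (Fin 2) →ₗ[ℚ] NC (Fin 2) := der (fun a => if a = 0 then 1 else 0)

/-- The derivation `∂/∂x₁` of `ℚ⟨x₀,x₁⟩`. -/
def d1 : NC (Fin 2) →ₗ[ℚ] NC (Fin 2) := der (fun a => if a = 1 then 1 else 0)

/-- The derivation of `ℚ⟨Y⟩` with `y_n ↦ (n-1) y_{n-1}`. -/
def dT : NC ℕ+ →ₗ[ℚ] NC ℕ+ := der (fun n => (((n : ℕ) - 1 : ℕ) : ℚ) • yy ((n : ℕ) - 1))

theorem d0_mul (p q : NC (Fin 2)) : d0 (p * q) = d0 p * q + p * d0 q := der_mul _ p q
theorem d1_mul (p q : NC (Fin 2)) : d1 (p * q) = d1 p * q + p * d1 q := der_mul _ p q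
theorem dT_mul (p q : NC ℕ+) : dT (p * q) = dT p * q + p * dT q := der_mul _ p q

theorem d0_x0 : d0 x0 = 1 := by
  have h : d0 (wd [0]) = if (0 : Fin 2) = 0 then 1 else 0 := by rw [d0, der_letter]
  rw [if_pos rfl] at h
  exact h

theorem d0_x1 : d0 x1 = 0 := by
  have h : d0 (wd [1]) = if (1 : Fin 2) = 0 then 1 else 0 := by rw [d0, der_letter]
  rw [if_neg (by decide)] at h
  exact h

theorem d1_x0 : d1 x0 = 0 := by
  have h : d1 (wd [0]) = if (0 : Fin 2) = 1 then 1 else 0 := by rw [d1, der_letter]
  rw [if_neg (by decide)] at h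
  exact h

theorem d1_x1 : d1 x1 = 1 := by
  have h : d1 (wd [1]) = if (1 : Fin 2) = 1 then 1 else 0 := by rw [d1, der_letter]
  rw [if_pos rfl] at h
  exact h

theorem d0_x0_pow (n : ℕ) : d0 (x0 ^ n) = (n : ℚ) • x0 ^ (n - 1) := by
  induction n with
  | zero => simp [d0]
  | succ n ih =>
    rw [pow_succ, d0_mul, ih, d0_x0, mul_one]
    rcases n with _ | n
    · simp
    · rw [smul_mul_assoc, ← pow_succ]
      simp only [Nat.add_sub_cancel]
      push_cast
      rw [show ((n : ℚ) + 1 + 1) = ((n : ℚ) + 1) + 1 from rfl, add_smul ((n : ℚ) + 1) 1, one_smul]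

theorem jA_yy (n : ℕ) : jA (yy (n + 1)) = x0 ^ n * x1 := by
  rw [yy, jA_letter]
  simp

theorem d0_jA (t : NC ℕ+) : d0 (jA t) = jA (dT t) := by
  have : d0 ∘ₗ jA.toLinearMap = jA.toLinearMap ∘ₗ dT := by
    apply leibniz_ext jA
    · intro p q
      simp only [LinearMap.comp_apply, AlgHom.toLinearMap_apply, map_mul, d0_mul]
    · intro p q
      simp only [LinearMap.comp_apply, AlgHom.toLinearMap_apply, dT_mul, map_add, map_mul]
    · intro n
      simp only [LinearMap.comp_apply, AlgHom.toLinearMap_apply, jA_letter, d0_mul, d0_x1,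
        d0_x0_pow, dT, der_letter, mul_zero, add_zero]
      rcases h : ((n : ℕ) - 1) with _ | k
      · simp
      · rw [map_smul, jA_yy, smul_mul_assoc]
        simp
  exact LinearMap.congr_fun this t

theorem Th_d0_coeff (h : NC (Fin 2)) (n : ℕ) :
    (Th (d0 h)).coeff n = dT ((Th h).coeff n) + ((n : ℚ) + 1) • (Th h).coeff (n + 1) := by
  let c : ℕ → (NC ℕ+)[X] →ₗ[ℚ] NC ℕ+ := fun n => (Polynomial.lcoeff (NC ℕ+) n).restrictScalars ℚ
  have : c n ∘ₗ Th ∘ₗ d0 = dT ∘ₗ c n ∘ₗ Th + ((n : ℚ) + 1) • (c (n + 1) ∘ₗ Th) := by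
    apply lin_ext_j
    intro t b
    simp only [LinearMap.comp_apply, LinearMap.add_apply, LinearMap.smul_apply]
    rw [d0_mul, d0_jA, d0_x0_pow, mul_smul_comm, map_add, Th_j, map_smul, Th_j, Th_j]
    change (Polynomial.monomial b (dT t) + (b : ℚ) • Polynomial.monomial (b - 1) t).coeff n =
      dT ((Polynomial.monomial b t).coeff n) + ((n : ℚ) + 1) • (Polynomial.monomial b t).coeff (n + 1)
    rw [Polynomial.coeff_add, Polynomial.coeff_smul]
    simp only [Polynomial.coeff_monomial]
    congr 1
    · split_ifs <;> simp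
    · rcases b with _ | b
      · simp
      · simp only [Nat.add_sub_cancel, add_left_inj]
        split_ifs with hb
        · subst hb; push_cast; rfl
        · simp
  exact LinearMap.congr_fun this h

end

end Pool.Agent.H4DM
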