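import Mathlib
import Pool.Agent.Lib.H4NC

/-!
# Weight gradings on noncommutative polynomials, left quotients
-/

set_option autoImplicit false

open Polynomial

namespace Pool.Agent.H4DM

noncomputable section

section grade
variable {α : Type} (w : α → ℕ)

/-- The weight of a word. -/
def wt (l : List α) : ℕ := (l.map w).sum

@[simp] theorem wt_nil : wt w ([] : List α) = 0 := rfl
@[simp] theorem wt_cons (a : α) (l : List α) : wt w (a :: l) = w a + wt w l := by simp [wt]
@[simp] theorem wt_append (l m : List α) : wt w (l ++ m) = wt w l + wt w m := by simp [wt]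

/-- The grading homomorphism `p ↦ ∑ p_n X^n`. -/
def Gr : NC α →ₐ[ℚ] (NC α)[X] :=
  MonoidAlgebra.lift ℚ ((NC α)[X]) (FreeMonoid α)
    (FreeMonoid.lift (fun a : α => Polynomial.monomial (w a) (wd [a])))

theorem Gr_wd (l : List α) : Gr w (wd l) = Polynomial.monomial (wt w l) (wd l) := by
  induction l with
  | nil => simp [wd_nil]
  | cons a l ih =>
    rw [wd_cons, map_mul, ih, wt_cons]
    have : Gr w (wd [a]) = Polynomial.monomial (w a) (wd [a]) := by
      simp [Gr, wd]
    rw [this, Polynomial.monomial_mul_monomial]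

/-- The weight `n` component. -/
def comp (n : ℕ) : NC α →ₗ[ℚ] NC α :=
  ((Polynomial.lcoeff (NC α) n).restrictScalars ℚ) ∘ₗ (Gr w).toLinearMap

theorem comp_apply (n : ℕ) (p : NC α) : comp w n p = (Gr w p).coeff n := rfl

theorem comp_wd (n : ℕ) (l : List α) : comp w n (wd l) = if wt w l = n then wd l else 0 := by
  rw [comp_apply, Gr_wd, Polynomial.coeff_monomial]

theorem cf_comp (n : ℕ) (p : NC α) (l : List α) :
    cf (comp w n p) l = if wt w l = n then cf p l else 0 := by
  classical
  induction p using nc_induction with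
  | hw m =>
    rw [comp_wd]
    by_cases h : m = l
    · subst h; split_ifs <;> simp
    · have h0 : cf (wd m) l = 0 := by rw [cf_wd, if_neg h]
      rw [h0]
      split_ifs <;> first | exact h0 | rfl
  | zero => simp
  | add a b ha hb => rw [map_add, cf_add, ha, hb, cf_add]; split_ifs <;> simp
  | smul c a ha => rw [map_smul, cf_smul, ha, cf_smul]; split_ifs <;> simp

/-- Homogeneous of weight `n`. -/
def Hg (n : ℕ) (p : NC α) : Prop := ∀ l, cf p l ≠ 0 → wt w l = n

variable {w}

theorem Hg.comp_eq {n : ℕ} {p : NC α} (h : Hg w n p) : comp w n p = p := by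
  apply cf_ext
  intro l
  rw [cf_comp]
  split_ifs with hl
  · rfl
  · by_contra hne
    exact hl (h l (fun h0 => hne h0.symm))

theorem Hg.comp_ne {n m : ℕ} {p : NC α} (h : Hg w n p) (hm : m ≠ n) : comp w m p = 0 := by
  apply cf_ext
  intro l
  rw [cf_comp, cf_zero]
  split_ifs with hl
  · by_contra hne
    exact hm (hl.symm.trans (h l hne))
  · rfl

theorem Hg_comp (n : ℕ) (p : NC α) : Hg w n (comp w n p) := by
  intro l hl
  rw [cf_comp] at hl
  by_contra h
  rw [if_neg h] at hl
  exact hl rfl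

theorem Hg_of_comp {n : ℕ} {p : NC α} (h : comp w n p = p) : Hg w n p := h ▸ Hg_comp n p

theorem Hg.Gr_eq {n : ℕ} {p : NC α} (h : Hg w n p) : Gr w p = Polynomial.monomial n p := by
  ext m : 1
  rw [Polynomial.coeff_monomial, ← comp_apply]
  split_ifs with hm
  · subst hm; exact h.comp_eq
  · exact h.comp_ne (fun h' => hm h'.symm)

theorem Hg_of_Gr {n : ℕ} {p : NC α} (h : Gr w p = Polynomial.monomial n p) : Hg w n p := by
  apply Hg_of_comp
  rw [comp_apply, h, Polynomial.coeff_monomial, if_pos rfl]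

theorem Hg_wd (l : List α) : Hg w (wt w l) (wd l) := Hg_of_Gr (Gr_wd w l)

theorem Hg.zero (n : ℕ) : Hg w n (0 : NC α) := fun _ h => absurd rfl h

theorem Hg.add {n : ℕ} {p q : NC α} (hp : Hg w n p) (hq : Hg w n q) : Hg w n (p + q) :=
  Hg_of_comp (by rw [map_add, hp.comp_eq, hq.comp_eq])

theorem Hg.smul {n : ℕ} {p : NC α} (c : ℚ) (hp : Hg w n p) : Hg w n (c • p) :=
  Hg_of_comp (by rw [map_smul, hp.comp_eq])

theorem Hg.neg {n : ℕ} {p : NC α} (hp : Hg w n p) : Hg w n (-p) :=
  Hg_of_comp (by rw [map_neg, hp.comp_eq])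

theorem Hg.sub {n : ℕ} {p q : NC α} (hp : Hg w n p) (hq : Hg w n q) : Hg w n (p - q) :=
  Hg_of_comp (by rw [map_sub, hp.comp_eq, hq.comp_eq])

theorem Hg.mul {n m : ℕ} {p q : NC α} (hp : Hg w n p) (hq : Hg w m q) : Hg w (n + m) (p * q) :=
  Hg_of_Gr (by rw [map_mul, hp.Gr_eq, hq.Gr_eq, Polynomial.monomial_mul_monomial])

theorem Hg_one : Hg w 0 (1 : NC α) := by
  have := Hg_wd (w := w) ([] : List α)
  rwa [wd_nil] at this

theorem Hg.unique {n m : ℕ} {p : NC α} (hp : Hg w n p) (hq : Hg w m p) (h : p ≠ 0) : n = m := by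
  by_contra hne
  apply h
  rw [← hp.comp_eq]
  exact hq.comp_ne hne

theorem sum_comp (p : NC α) (N : ℕ) (hN : (Gr w p).natDegree < N) :
    ∑ i ∈ Finset.range N, comp w i p = p := by
  apply cf_ext
  intro l
  rw [cf_sum]
  simp only [cf_comp]
  rw [Finset.sum_ite_eq]
  split_ifs with h
  · rfl
  · have h1 : (Gr w p).coeff (wt w l) = 0 := by
      apply Polynomial.coeff_eq_zero_of_natDegree_lt
      rw [Finset.mem_range, not_lt] at h
      omega
    have h2 : cf (comp w (wt w l) p) l = 0 := by rw [comp_apply, h1]; rfl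
    rw [cf_comp, if_pos rfl] at h2
    exact h2.symm

theorem Gr_injective : Function.Injective (Gr w : NC α → (NC α)[X]) := by
  intro p q h
  apply cf_ext
  intro l
  have : cf (comp w (wt w l) p) l = cf (comp w (wt w l) q) l := by
    rw [comp_apply, comp_apply, h]
  rwa [cf_comp, cf_comp, if_pos rfl, if_pos rfl] at this

theorem Gr_ne_zero {p : NC α} (h : p ≠ 0) : Gr w p ≠ 0 := by
  intro h0
  apply h
  apply Gr_injective (w := w)
  rw [h0, map_zero]

theorem exists_cf_ne {p : NC α} (h : p ≠ 0) : ∃ l, cf p l ≠ 0 := by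
  by_contra hc
  push Not at hc
  exact h (cf_ext (fun l => by rw [hc l]; rfl))

/-- Strip the first letter `a`. -/
def lq1 (a : α) : NC α →ₗ[ℚ] NC α := by
  classical
  exact linw (fun l => match l with
    | [] => 0
    | b :: t => if b = a then wd t else 0)

theorem lq1_nil (a : α) : lq1 a (wd ([] : List α)) = 0 := by
  classical
  rw [lq1, linw_wd]

theorem lq1_cons_self (a : α) (t : List α) : lq1 a (wd (a :: t)) = wd t := by
  classical
  rw [lq1, linw_wd]; simp

theorem lq1_cons_ne {a b : α} (h : b ≠ a) (t : List α) : lq1 a (wd (b :: t)) = 0 := by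
  classical
  rw [lq1, linw_wd]; simp [h]

theorem cf_lq1 (a : α) (p : NC α) (l : List α) : cf (lq1 a p) l = cf p (a :: l) := by
  classical
  induction p using nc_induction with
  | hw m =>
    rcases m with _ | ⟨b, t⟩
    · rw [lq1_nil, cf_wd, if_neg (by simp)]; rfl
    · by_cases h : b = a
      · subst h
        rw [lq1_cons_self, cf_wd, cf_wd]
        simp
      · rw [lq1_cons_ne h, cf_wd, if_neg (by simp [h])]; rfl
  | zero => simp
  | add x y hx hy => rw [map_add, cf_add, hx, hy, cf_add]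
  | smul c x hx => rw [map_smul, cf_smul, hx, cf_smul]

theorem lq1_mul (a : α) (p q : NC α) : lq1 a (p * q) = lq1 a p * q + (cf p []) • lq1 a q := by
  classical
  induction p using nc_induction with
  | hw l =>
    rcases l with _ | ⟨b, t⟩
    · rw [lq1_nil, cf_wd, if_pos rfl, wd_nil]; simp
    · rw [cf_wd, if_neg (by simp), zero_smul, add_zero]
      induction q using nc_induction with
      | hw m =>
        rw [← wd_append]
        by_cases h : b = a
        · subst h
          rw [lq1_cons_self, List.cons_append, lq1_cons_self, wd_append]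
        · rw [lq1_cons_ne h, List.cons_append, lq1_cons_ne h, zero_mul]
      | zero => simp
      | add x y hx hy => rw [mul_add, map_add, hx, hy, mul_add]
      | smul c x hx => rw [mul_smul_comm, map_smul, hx, mul_smul_comm]
  | zero => simp
  | add x y hx hy => rw [add_mul, map_add, hx, hy, map_add, cf_add, add_smul]; noncomm_ring
  | smul c x hx =>
    rw [smul_mul_assoc, map_smul, hx, map_smul, cf_smul, smul_add, smul_mul_assoc, mul_smul]

/-- Strip the initial word `v`. -/
def lq : List α → NC α → NC α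
  | [], p => p
  | a :: v, p => lq v (lq1 a p)

theorem cf_lq (v : List α) (p : NC α) (l : List α) : cf (lq v p) l = cf p (v ++ l) := by
  induction v generalizing p with
  | nil => rfl
  | cons a v ih => rw [lq, ih, cf_lq1]; rfl

theorem Hg.lq1 {n : ℕ} {p : NC α} (a : α) (h : Hg w n p) : Hg w (n - w a) (lq1 a p) := by
  intro l hl
  rw [cf_lq1] at hl
  have := h _ hl
  rw [wt_cons] at this
  omega

theorem lq_mul (hw : ∀ a, 1 ≤ w a) (v : List α) {n : ℕ} {p : NC α} (q : NC α) (hp : Hg w n p)
    (hn : wt w v ≤ n) : lq v (p * q) = lq v p * q := by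
  induction v generalizing p n with
  | nil => rfl
  | cons a v ih =>
    rw [wt_cons] at hn
    have ha := hw a
    have h0 : cf p [] = 0 := by
      by_contra h
      have := hp _ h
      simp at this
      omega
    rw [lq, lq, lq1_mul, h0, zero_smul, add_zero]
    exact ih (hp.lq1 a) (by omega)

theorem lq_add (v : List α) (p q : NC α) : lq v (p + q) = lq v p + lq v q := by
  apply cf_ext; intro l; simp [cf_lq]

theorem lq_zero (v : List α) : lq v (0 : NC α) = 0 := by
  apply cf_ext; intro l; simp [cf_lq]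

theorem Hg_zero_eq (hw : ∀ a, 1 ≤ w a) {p : NC α} (hp : Hg w 0 p) : p = (cf p []) • (1 : NC α) := by
  classical
  apply cf_ext
  intro l
  rw [cf_smul, ← wd_nil, cf_wd]
  rcases l with _ | ⟨a, l⟩
  · simp
  · rw [if_neg (by simp), mul_zero]
    by_contra h
    have := hp _ h
    rw [wt_cons] at this
    have := hw a
    omega

theorem lq_self (hw : ∀ a, 1 ≤ w a) {v : List α} {p : NC α} (hp : Hg w (wt w v) p) :
    lq v p = (cf p v) • (1 : NC α) := by
  have h0 : Hg w 0 (lq v p) := by
    intro l hl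
    rw [cf_lq] at hl
    have := hp _ hl
    rw [wt_append] at this
    omega
  rw [Hg_zero_eq hw h0, cf_lq, List.append_nil]

/-- The key divisibility statement in the free algebra. -/
theorem left_quotient (hw : ∀ a, 1 ≤ w a) {n₁ n₂ : ℕ} {η₁ η₂ Φ₁ Φ₂ : NC α}
    (h₁ : Hg w n₁ η₁) (h₂ : Hg w n₂ η₂) (hn : n₂ ≤ n₁) (hη : η₂ ≠ 0)
    (h : η₁ * Φ₁ + η₂ * Φ₂ = 0) : ∃ Q, Φ₂ = Q * Φ₁ := by
  obtain ⟨v, hv⟩ := exists_cf_ne hη
  have hwv : wt w v = n₂ := h₂ v hv
  have h' : lq v (η₁ * Φ₁ + η₂ * Φ₂) = 0 := by rw [h, lq_zero]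
  rw [lq_add, lq_mul hw v Φ₁ h₁ (by omega), lq_mul hw v Φ₂ h₂ (by omega)] at h'
  have hself : lq v η₂ = (cf η₂ v) • (1 : NC α) := lq_self hw (by rw [hwv]; exact h₂)
  rw [hself] at h'
  refine ⟨-((cf η₂ v)⁻¹ • lq v η₁), ?_⟩
  rw [smul_mul_assoc, one_mul] at h'
  have h2 : cf η₂ v • Φ₂ = -(lq v η₁ * Φ₁) := by
    rw [eq_neg_iff_add_eq_zero, add_comm]; exact h'
  have h3 : Φ₂ = (cf η₂ v)⁻¹ • (cf η₂ v • Φ₂) := by
    rw [smul_smul, inv_mul_cancel₀ hv, one_smul]
  rw [h3, h2, neg_mul, smul_mul_assoc, smul_neg]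

end grade

end

end Pool.Agent.H4DM
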