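import Mathlib
import Pool.Agent.Lib.H4DMTheta
import Pool.Agent.Lib.H4Grade

/-!
# Primitive elements for the stuffle coproduct
-/

set_option autoImplicit false

open Polynomial
open scoped TensorProduct

namespace Pool.Agent.H4DM

noncomputable section

/-- The target of the stuffle coproduct. -/
abbrev TT : Type := NC ℕ+ ⊗[ℚ] NC ℕ+

/-- Primitive elements for the stuffle coproduct. -/
def Prim (P : NC ℕ+) : Prop := stuffleCoproduct P = P ⊗ₜ[ℚ] 1 + 1 ⊗ₜ[ℚ] P

theorem Prim.zero : Prim 0 := by simp [Prim]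

theorem Prim.add {P Q : NC ℕ+} (hP : Prim P) (hQ : Prim Q) : Prim (P + Q) := by
  unfold Prim at *
  rw [map_add, hP, hQ, TensorProduct.add_tmul, TensorProduct.tmul_add]
  abel

theorem Prim.smul {P : NC ℕ+} (c : ℚ) (hP : Prim P) : Prim (c • P) := by
  unfold Prim at *
  rw [map_smul, hP, smul_add, TensorProduct.smul_tmul', TensorProduct.tmul_smul]

theorem Prim.neg {P : NC ℕ+} (hP : Prim P) : Prim (-P) := by
  have := hP.smul (-1)
  rwa [neg_one_smul] at this

theorem Prim.sub {P Q : NC ℕ+} (hP : Prim P) (hQ : Prim Q) : Prim (P - Q) := by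
  rw [sub_eq_add_neg]; exact hP.add hQ.neg

theorem Delta_wd_letter (n : ℕ+) : stuffleCoproduct (wd [n]) =
    ∑ p ∈ Finset.HasAntidiagonal.antidiagonal (n : ℕ), yy p.1 ⊗ₜ[ℚ] yy p.2 := by
  simp [stuffleCoproduct, wd]

theorem Delta_yy (n : ℕ) : stuffleCoproduct (yy n) =
    ∑ p ∈ Finset.HasAntidiagonal.antidiagonal n, yy p.1 ⊗ₜ[ℚ] yy p.2 := by
  rcases n with _ | n
  · simp [yy, Algebra.TensorProduct.one_def]
  · rw [yy, Delta_wd_letter]
    simp [Nat.succPNat_coe]

theorem yy_coe (n : ℕ+) : yy (n : ℕ) = wd [n] := by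
  obtain ⟨k, hk⟩ : ∃ k, (n : ℕ) = k + 1 := ⟨(n : ℕ) - 1, by have := n.pos; omega⟩
  rw [hk, yy]
  congr 2
  apply PNat.eq
  rw [hk]; rfl

theorem dT_letter (n : ℕ+) : dT (wd [n]) = (((n : ℕ) - 1 : ℕ) : ℚ) • yy ((n : ℕ) - 1) := by
  rw [dT, der_letter]

theorem dT_one : dT 1 = 0 := der_one _

theorem dT_yy (n : ℕ) : dT (yy n) = ((n - 1 : ℕ) : ℚ) • yy (n - 1) := by
  rcases n with _ | n
  · simp [yy, dT_one]
  · rw [yy, dT_letter]; simp

/-- The coderivation `dT ⊗ 1 + 1 ⊗ dT`. -/
def dTT : TT →ₗ[ℚ] TT := TensorProduct.map dT LinearMap.id + TensorProduct.map LinearMap.id dT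

theorem dTT_tmul (a b : NC ℕ+) : dTT (a ⊗ₜ[ℚ] b) = dT a ⊗ₜ[ℚ] b + a ⊗ₜ[ℚ] dT b := by
  simp [dTT]

theorem dTT_mul (x y : TT) : dTT (x * y) = dTT x * y + x * dTT y := by
  induction x using TensorProduct.induction_on with
  | zero => simp
  | tmul a b =>
    induction y using TensorProduct.induction_on with
    | zero => simp
    | tmul c d =>
      simp only [Algebra.TensorProduct.tmul_mul_tmul, dTT_tmul, dT_mul, add_mul, mul_add,
        TensorProduct.add_tmul, TensorProduct.tmul_add]
      abel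
    | add u v hu hv => rw [mul_add, map_add, hu, hv, map_add]; noncomm_ring
  | add u v hu hv => rw [add_mul, map_add, hu, hv, map_add]; noncomm_ring

theorem dTT_one : dTT 1 = 0 := by
  rw [Algebra.TensorProduct.one_def, dTT_tmul, dT_one]; simp

theorem dTT_Delta_yy (n : ℕ) : dTT (stuffleCoproduct (yy n)) = stuffleCoproduct (dT (yy n)) := by
  rcases n with _ | n
  · simp [yy, dT_one, dTT_one]
  · rw [dT_yy, map_smul, Nat.add_sub_cancel, Delta_yy, Delta_yy, map_sum]
    simp only [dTT_tmul, dT_yy, Finset.sum_add_distrib]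
    rw [Finset.Nat.sum_antidiagonal_succ, Finset.Nat.sum_antidiagonal_succ']
    simp only [Nat.zero_sub, Nat.cast_zero, zero_smul, TensorProduct.zero_tmul,
      TensorProduct.tmul_zero, zero_add, Nat.add_sub_cancel]
    rw [← Finset.sum_add_distrib, Finset.smul_sum]
    apply Finset.sum_congr rfl
    intro p hp
    rw [Finset.HasAntidiagonal.mem_antidiagonal] at hp
    rw [← hp, ← TensorProduct.smul_tmul', TensorProduct.tmul_smul, ← add_smul]
    push_cast
    rfl

theorem Delta_dT (P : NC ℕ+) : stuffleCoproduct (dT P) = dTT (stuffleCoproduct P) := by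
  have : stuffleCoproduct.toLinearMap ∘ₗ dT = dTT ∘ₗ stuffleCoproduct.toLinearMap := by
    apply leibniz_ext stuffleCoproduct
    · intro p q
      simp only [LinearMap.comp_apply, AlgHom.toLinearMap_apply, dT_mul, map_add, map_mul]
    · intro p q
      simp only [LinearMap.comp_apply, AlgHom.toLinearMap_apply, map_mul, dTT_mul]
    · intro n
      simp only [LinearMap.comp_apply, AlgHom.toLinearMap_apply]
      rw [← yy_coe, dTT_Delta_yy]
  exact LinearMap.congr_fun this P

theorem Prim.dT {P : NC ℕ+} (hP : Prim P) : Prim (dT P) := by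
  have h := Delta_dT P
  unfold Prim at *
  rw [h, hP, map_add, dTT_tmul, dTT_tmul, dT_one]
  simp

/-- Contract the first tensor factor with the coefficient functional of `v`. -/
def Lv (v : List ℕ+) : TT →ₗ[ℚ] NC ℕ+ :=
  (TensorProduct.lid ℚ (NC ℕ+)).toLinearMap ∘ₗ TensorProduct.map (cfL v) LinearMap.id

theorem Lv_tmul (v : List ℕ+) (a b : NC ℕ+) : Lv v (a ⊗ₜ[ℚ] b) = cf a v • b := by
  simp only [Lv, LinearMap.comp_apply, TensorProduct.map_tmul, LinearMap.id_apply,
    LinearEquiv.coe_coe, TensorProduct.lid_tmul]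
  rfl

theorem cf_one_nil {α : Type} : cf (1 : NC α) [] = 1 := by
  classical
  rw [← wd_nil, cf_wd, if_pos rfl]

theorem cf_one_cons {α : Type} (a : α) (l : List α) : cf (1 : NC α) (a :: l) = 0 := by
  classical
  rw [← wd_nil, cf_wd, if_neg (by simp)]

theorem cf_one_ne {α : Type} {l : List α} (h : l ≠ []) : cf (1 : NC α) l = 0 := by
  rcases l with _ | ⟨a, l⟩
  · exact absurd rfl h
  · exact cf_one_cons a l

theorem cf_mul_nil {α : Type} (p q : NC α) : cf (p * q) [] = cf p [] * cf q [] := by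
  classical
  induction p using nc_induction with
  | hw l =>
    induction q using nc_induction with
    | hw m =>
      rw [← wd_append, cf_wd, cf_wd, cf_wd]
      by_cases h1 : l = []
      · subst h1; simp
      · simp [h1]
    | zero => simp
    | add a b ha hb => rw [mul_add, cf_add, ha, hb, cf_add]; ring
    | smul c a ha => rw [mul_smul_comm, cf_smul, ha, cf_smul]; ring
  | zero => simp
  | add a b ha hb => rw [add_mul, cf_add, ha, hb, cf_add]; ring
  | smul c a ha => rw [smul_mul_assoc, cf_smul, ha, cf_smul]; ring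

theorem Lv_nil_mul (x y : TT) : Lv [] (x * y) = Lv [] x * Lv [] y := by
  induction x using TensorProduct.induction_on with
  | zero => simp
  | tmul a b =>
    induction y using TensorProduct.induction_on with
    | zero => simp
    | tmul c d =>
      rw [Algebra.TensorProduct.tmul_mul_tmul, Lv_tmul, Lv_tmul, Lv_tmul, cf_mul_nil,
        smul_mul_smul_comm]
    | add u v hu hv => rw [mul_add, map_add, hu, hv, map_add, mul_add]
  | add u v hu hv => rw [add_mul, map_add, hu, hv, map_add, add_mul]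

theorem cf_yy_succ_nil (n : ℕ) : cf (yy (n + 1)) [] = 0 := by
  classical
  rw [yy, cf_wd, if_neg (by simp)]

theorem Lv_nil_Delta (P : NC ℕ+) : Lv [] (stuffleCoproduct P) = P := by
  have : Lv [] ∘ₗ stuffleCoproduct.toLinearMap = LinearMap.id := by
    apply lin_ext
    intro l
    induction l with
    | nil => simp [wd_nil, Algebra.TensorProduct.one_def, Lv_tmul, cf_one_nil]
    | cons n l ih =>
      simp only [LinearMap.comp_apply, AlgHom.toLinearMap_apply, LinearMap.id_apply] at ih ⊢
      rw [wd_cons, map_mul, Lv_nil_mul, ih, ← yy_coe, Delta_yy, map_sum]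
      obtain ⟨k, hk⟩ : ∃ k, (n : ℕ) = k + 1 := ⟨(n : ℕ) - 1, by have := n.pos; omega⟩
      rw [hk, Finset.Nat.sum_antidiagonal_succ]
      simp only [Lv_tmul, cf_yy_succ_nil, zero_smul, Finset.sum_const_zero, add_zero]
      rw [yy, cf_one_nil, one_smul]
  exact LinearMap.congr_fun this P

/-- The pairing of a tensor with a pair of words. -/
def tc (a b : List ℕ+) : TT →ₗ[ℚ] ℚ := LinearMap.mul' ℚ ℚ ∘ₗ TensorProduct.map (cfL a) (cfL b)

theorem tc_tmul (a b : List ℕ+) (p q : NC ℕ+) : tc a b (p ⊗ₜ[ℚ] q) = cf p a * cf q b := by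
  simp only [tc, LinearMap.comp_apply, TensorProduct.map_tmul, LinearMap.mul'_apply]
  rfl

theorem tc_ext {x y : TT} (h : ∀ a b, tc a b x = tc a b y) : x = y := by
  let B := MonoidAlgebra.basis (FreeMonoid ℕ+) ℚ
  have key : ∀ (z : TT) (a b : List ℕ+),
      (B.tensorProduct B).repr z (FreeMonoid.ofList a, FreeMonoid.ofList b) = tc a b z := by
    intro z a b
    induction z using TensorProduct.induction_on with
    | zero => simp
    | tmul p q =>
      rw [Module.Basis.tensorProduct_repr_tmul_apply, tc_tmul, mul_comm]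
      rfl
    | add u v hu hv => rw [map_add, map_add, Finsupp.add_apply, hu, hv]
  apply (B.tensorProduct B).repr.injective
  ext ⟨a, b⟩
  exact (key x a b).trans ((h a b).trans (key y a b).symm)

end

end Pool.Agent.H4DM
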