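import Mathlib
import Pool.Agent.Lib.H4DMPrim

/-!
# Left multiples of primitive elements; the recursion for the stuffle coproduct
-/

set_option autoImplicit false

open Polynomial
open scoped TensorProduct

namespace Pool.Agent.H4DM

noncomputable section

/-- The weight of `y_n` is `n`. -/
abbrev wY : ℕ+ → ℕ := fun n => (n : ℕ)

/-- The weight of both letters `x₀`, `x₁` is `1`. -/
abbrev wX : Fin 2 → ℕ := fun _ => 1

theorem wY_pos (n : ℕ+) : 1 ≤ wY n := n.pos

theorem cf_mul_top {v : List ℕ+} {Φ : NC ℕ+} (hΦ : Hg wY (wt wY v) Φ) (a : NC ℕ+) :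
    cf (a * Φ) v = cf a [] * cf Φ v := by
  classical
  induction a using nc_induction with
  | hw l =>
    rcases l with _ | ⟨n, l⟩
    · rw [wd_nil, one_mul, cf_one_nil, one_mul]
    · rw [cf_wd, if_neg (by simp), zero_mul]
      by_contra h
      have h1 := (Hg_wd (w := wY) (n :: l)).mul hΦ v h
      have := wY_pos n
      rw [wt_cons] at h1
      omega
  | zero => simp
  | add a b ha hb => rw [add_mul, cf_add, ha, hb, cf_add]; ring
  | smul c a ha => rw [smul_mul_assoc, cf_smul, ha, cf_smul]; ring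

theorem Lv_mul_left {v : List ℕ+} {Φ : NC ℕ+} (hΦ : Hg wY (wt wY v) Φ) (x : TT) :
    Lv v (x * (Φ ⊗ₜ[ℚ] 1)) = cf Φ v • Lv [] x := by
  induction x using TensorProduct.induction_on with
  | zero => simp
  | tmul a b =>
    rw [Algebra.TensorProduct.tmul_mul_tmul, Lv_tmul, Lv_tmul, cf_mul_top hΦ, mul_one, smul_smul,
      mul_comm]
  | add u v hu hv => rw [add_mul, map_add, hu, hv, map_add, smul_add]

theorem Lv_mul_right {v : List ℕ+} (Φ : NC ℕ+) (x : TT) :
    Lv v (x * (1 ⊗ₜ[ℚ] Φ)) = Lv v x * Φ := by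
  induction x using TensorProduct.induction_on with
  | zero => simp
  | tmul a b =>
    rw [Algebra.TensorProduct.tmul_mul_tmul, Lv_tmul, Lv_tmul, mul_one, smul_mul_assoc]
  | add u v hu hv => rw [add_mul, map_add, hu, hv, map_add, add_mul]

theorem Lv_Delta_mul {v : List ℕ+} {Φ : NC ℕ+} (hΦ : Hg wY (wt wY v) Φ) (hP : Prim Φ)
    (R : NC ℕ+) : Lv v (stuffleCoproduct (R * Φ)) =
      cf Φ v • R + Lv v (stuffleCoproduct R) * Φ := by
  have hP' : stuffleCoproduct Φ = Φ ⊗ₜ[ℚ] 1 + 1 ⊗ₜ[ℚ] Φ := hP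
  rw [map_mul, hP', mul_add, map_add, Lv_mul_left hΦ, Lv_mul_right, Lv_nil_Delta]

theorem Prim.cf_nil {P : NC ℕ+} (hP : Prim P) : cf P [] = 0 := by
  have h1 := Lv_nil_Delta P
  have hP' : stuffleCoproduct P = P ⊗ₜ[ℚ] 1 + 1 ⊗ₜ[ℚ] P := hP
  rw [hP', map_add, Lv_tmul, Lv_tmul, cf_one_nil, one_smul] at h1
  have h2 : cf P [] • (1 : NC ℕ+) = 0 := by
    have h3 : cf P [] • (1 : NC ℕ+) + P = 0 + P := by rw [h1, zero_add]
    exact add_right_cancel h3
  have h4 := congrArg (fun q => cf q []) h2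
  simpa [cf_one_nil] using h4

theorem natDegree_Gr_mul {α : Type} {w : α → ℕ} {p q : NC α} (hp : p ≠ 0) (hq : q ≠ 0) :
    (Gr w (p * q)).natDegree = (Gr w p).natDegree + (Gr w q).natDegree := by
  rw [map_mul, Polynomial.natDegree_mul (Gr_ne_zero hp) (Gr_ne_zero hq)]

theorem natDegree_Gr_of_Hg {α : Type} {w : α → ℕ} {p : NC α} {n : ℕ} (h : Hg w n p)
    (hp : p ≠ 0) : (Gr w p).natDegree = n := by
  rw [h.Gr_eq, Polynomial.natDegree_monomial_eq n hp]

theorem prim_aux {v : List ℕ+} {Φ : NC ℕ+} (hΦ : Hg wY (wt wY v) Φ) (hP : Prim Φ)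
    (hv : cf Φ v ≠ 0) (N : ℕ) : ∀ (R : NC ℕ+) (k : ℕ), (Gr wY R).natDegree < N → 1 ≤ k →
      ((k : ℚ) * cf Φ v) • R + Lv v (stuffleCoproduct R) * Φ = 0 → R = 0 := by
  have hΦ0 : Φ ≠ 0 := by rintro rfl; exact hv rfl
  have hv0 : v ≠ [] := by rintro rfl; exact hv hP.cf_nil
  have hwv : 1 ≤ wt wY v := by
    rcases v with _ | ⟨a, v⟩
    · exact absurd rfl hv0
    · rw [wt_cons]; have := wY_pos a; omega
  induction N with
  | zero => intro R k h; omega
  | succ N ih =>
    intro R k hN hk h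
    have hkq : ((k : ℚ) * cf Φ v) ≠ 0 := mul_ne_zero (by positivity) hv
    set R' : NC ℕ+ := -(((k : ℚ) * cf Φ v)⁻¹ • Lv v (stuffleCoproduct R)) with hR'
    have hR : R = R' * Φ := by
      have h2 : ((k : ℚ) * cf Φ v) • R = -(Lv v (stuffleCoproduct R) * Φ) :=
        eq_neg_iff_add_eq_zero.mpr h
      have h3 : R = ((k : ℚ) * cf Φ v)⁻¹ • (((k : ℚ) * cf Φ v) • R) := by
        rw [smul_smul, inv_mul_cancel₀ hkq, one_smul]
      rw [h3, h2, hR', neg_mul, smul_mul_assoc, smul_neg]
    by_cases hR0 : R' = 0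
    · rw [hR, hR0, zero_mul]
    · exfalso
      apply hR0
      apply ih R' (k + 1) _ (by omega)
      · rw [hR, Lv_Delta_mul hΦ hP] at h
        have h5 : (((k + 1 : ℕ) : ℚ) * cf Φ v) • R' + Lv v (stuffleCoproduct R') * Φ = 0 ∨ Φ = 0 := by
          rw [← mul_eq_zero]
          rw [add_mul]
          rw [add_mul] at h
          rw [← h, smul_mul_assoc, smul_mul_assoc, ← add_assoc, ← add_smul]
          push_cast
          ring_nf
        exact h5.resolve_right hΦ0
      · have h6 := natDegree_Gr_mul (w := wY) hR0 hΦ0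
        rw [← hR, natDegree_Gr_of_Hg hΦ hΦ0] at h6
        omega

/-- A left multiple of a homogeneous primitive element which is primitive is a scalar multiple. -/
theorem prim_left_mul {Φ Q : NC ℕ+} {p : ℕ} (hΦ : Hg wY p Φ) (hΦ0 : Φ ≠ 0) (hP : Prim Φ)
    (hQ : Prim (Q * Φ)) : ∃ c : ℚ, Q * Φ = c • Φ := by
  obtain ⟨v, hv⟩ := exists_cf_ne hΦ0
  have hwv : wt wY v = p := hΦ v hv
  subst hwv
  have hv0 : v ≠ [] := by rintro rfl; exact hv hP.cf_nil
  set c : ℚ := cf (Q * Φ) v / cf Φ v with hc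
  refine ⟨c, ?_⟩
  have hR : Prim ((Q - c • 1) * Φ) := by
    rw [sub_mul, smul_mul_assoc, one_mul]
    exact hQ.sub (hP.smul c)
  have h0 : cf ((Q - c • 1) * Φ) v = 0 := by
    rw [sub_mul, smul_mul_assoc, one_mul, cf_sub, cf_smul, hc, div_mul_cancel₀ _ hv, sub_self]
  have h1 := Lv_Delta_mul hΦ hP (Q - c • 1)
  have hR' : stuffleCoproduct ((Q - c • 1) * Φ) =
    ((Q - c • 1) * Φ) ⊗ₜ[ℚ] 1 + 1 ⊗ₜ[ℚ] ((Q - c • 1) * Φ) := hR
  rw [hR', map_add, Lv_tmul, Lv_tmul, h0, zero_smul, cf_one_ne hv0, zero_smul, add_zero] at h1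
  have h2 : Q - c • 1 = 0 := by
    apply prim_aux hΦ hP hv _ (Q - c • 1) 1 (Nat.lt_succ_self _) le_rfl
    rw [Nat.cast_one, one_mul]
    exact h1.symm
  rw [sub_eq_zero.mp h2, smul_mul_assoc, one_mul]

theorem cf_wd_cons_mul (n i : ℕ+) (r : NC ℕ+) (a : List ℕ+) :
    cf (wd [n] * r) (i :: a) = if n = i then cf r a else 0 := by
  classical
  induction r using nc_induction with
  | hw l =>
    rw [← wd_cons, cf_wd, cf_wd]
    by_cases h : n = i
    · simp [h]
    · simp [h]
  | zero => simp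
  | add a b ha hb => rw [mul_add, cf_add, ha, hb, cf_add]; split_ifs <;> simp
  | smul c a ha => rw [mul_smul_comm, cf_smul, ha, cf_smul]; split_ifs <;> simp

theorem cf_yy_mul (p : ℕ) (i : ℕ+) (r : NC ℕ+) (a : List ℕ+) :
    cf (yy p * r) (i :: a) =
      (if p = 0 then cf r (i :: a) else 0) + (if p = (i : ℕ) then cf r a else 0) := by
  rcases p with _ | p
  · have : (0 : ℕ) ≠ (i : ℕ) := by have := i.pos; omega
    rw [yy, one_mul, if_pos rfl, if_neg this, add_zero]
  · rw [yy, cf_wd_cons_mul, if_neg (show ¬ (p + 1 = 0) by omega), zero_add]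
    by_cases h : p + 1 = (i : ℕ)
    · rw [if_pos h, if_pos]
      apply PNat.eq; exact h
    · rw [if_neg h, if_neg]
      intro h'
      apply h
      rw [← h']; rfl

theorem cf_yy_mul_nil (p : ℕ) (r : NC ℕ+) :
    cf (yy p * r) [] = if p = 0 then cf r [] else 0 := by
  rcases p with _ | p
  · rw [yy, one_mul, if_pos rfl]
  · rw [cf_mul_nil, cf_yy_succ_nil, zero_mul, if_neg (by omega)]

theorem sum_anti_ite (n u v : ℕ) (α β : ℚ) :
    ∑ x ∈ Finset.HasAntidiagonal.antidiagonal n,
      (if x.1 = u then α else 0) * (if x.2 = v then β else 0) = if u + v = n then α * β else 0 := by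
  by_cases h : u + v = n
  · rw [if_pos h, Finset.sum_eq_single (u, v)]
    · simp
    · rintro ⟨a, b⟩ hab hne
      rw [Finset.HasAntidiagonal.mem_antidiagonal] at hab
      simp only at hab ⊢
      by_cases h1 : a = u
      · rw [if_neg (c := b = v), mul_zero]
        intro h2; apply hne; rw [h1, h2]
      · rw [if_neg h1, zero_mul]
    · intro h'
      exfalso
      apply h'
      rw [Finset.HasAntidiagonal.mem_antidiagonal]
      exact h
  · rw [if_neg h]
    apply Finset.sum_eq_zero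
    rintro ⟨a, b⟩ hab
    rw [Finset.HasAntidiagonal.mem_antidiagonal] at hab
    simp only at hab ⊢
    by_cases h1 : a = u
    · rw [if_neg (c := b = v), mul_zero]
      intro h2; apply h; rw [← h1, ← h2]; exact hab
    · rw [if_neg h1, zero_mul]

/-- The pairing of `Δ_*(P)` with the pair of words `(a,b)`. -/
def dd (a b : List ℕ+) : NC ℕ+ →ₗ[ℚ] ℚ := tc a b ∘ₗ stuffleCoproduct.toLinearMap

theorem dd_apply (a b : List ℕ+) (P : NC ℕ+) : dd a b P = tc a b (stuffleCoproduct P) := rfl

theorem tc_Delta_mul_cons (n i j : ℕ+) (a b : List ℕ+) (z : TT) :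
    tc (i :: a) (j :: b) (stuffleCoproduct (wd [n]) * z) =
      (if n = i then tc a (j :: b) z else 0) + (if n = j then tc (i :: a) b z else 0) +
        (if n = i + j then tc a b z else 0) := by
  induction z using TensorProduct.induction_on with
  | zero => simp
  | tmul r s =>
    rw [Delta_wd_letter, Finset.sum_mul, map_sum]
    simp only [Algebra.TensorProduct.tmul_mul_tmul, tc_tmul, cf_yy_mul, add_mul, mul_add,
      Finset.sum_add_distrib, sum_anti_ite]
    have h0 : ¬ ((0 : ℕ) + 0 = (n : ℕ)) := by have := n.pos; omega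
    rw [if_neg h0]
    have h1 : ((i : ℕ) + 0 = (n : ℕ)) ↔ n = i := by
      rw [add_zero]; exact ⟨fun h => PNat.eq h.symm, fun h => by rw [h]⟩
    have h2 : (0 + (j : ℕ) = (n : ℕ)) ↔ n = j := by
      rw [zero_add]; exact ⟨fun h => PNat.eq h.symm, fun h => by rw [h]⟩
    have h3 : ((i : ℕ) + (j : ℕ) = (n : ℕ)) ↔ n = i + j :=
      ⟨fun h => PNat.eq (by rw [PNat.add_coe]; exact h.symm), fun h => by rw [h, PNat.add_coe]⟩
    simp only [h1, h2, h3]
    ring
  | add u v hu hv =>
    rw [mul_add, map_add, hu, hv, map_add, map_add, map_add]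
    split_ifs <;> ring

theorem tc_Delta_mul_nil_right (n i : ℕ+) (a : List ℕ+) (z : TT) :
    tc (i :: a) [] (stuffleCoproduct (wd [n]) * z) = if n = i then tc a [] z else 0 := by
  induction z using TensorProduct.induction_on with
  | zero => simp
  | tmul r s =>
    rw [Delta_wd_letter, Finset.sum_mul, map_sum]
    simp only [Algebra.TensorProduct.tmul_mul_tmul, tc_tmul, cf_yy_mul, cf_yy_mul_nil, add_mul,
      Finset.sum_add_distrib, sum_anti_ite]
    have h0 : ¬ ((0 : ℕ) + 0 = (n : ℕ)) := by have := n.pos; omega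
    rw [if_neg h0]
    have h1 : ((i : ℕ) + 0 = (n : ℕ)) ↔ n = i := by
      rw [add_zero]; exact ⟨fun h => PNat.eq h.symm, fun h => by rw [h]⟩
    simp only [h1]
    ring
  | add u v hu hv =>
    rw [mul_add, map_add, hu, hv, map_add]
    split_ifs <;> ring

theorem tc_one (a b : List ℕ+) : tc a b 1 = cf (1 : NC ℕ+) a * cf (1 : NC ℕ+) b := by
  rw [Algebra.TensorProduct.one_def, tc_tmul]

theorem lq1_wd_cons {α : Type} [DecidableEq α] (a b : α) (t : List α) :
    lq1 a (wd (b :: t)) = if b = a then wd t else 0 := by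
  by_cases h : b = a
  · subst h; rw [lq1_cons_self, if_pos rfl]
  · rw [lq1_cons_ne h, if_neg h]

theorem dd_cons_cons (i j : ℕ+) (a b : List ℕ+) (P : NC ℕ+) :
    dd (i :: a) (j :: b) P =
      dd a (j :: b) (lq1 i P) + dd (i :: a) b (lq1 j P) + dd a b (lq1 (i + j) P) := by
  have : dd (i :: a) (j :: b) =
      dd a (j :: b) ∘ₗ lq1 i + dd (i :: a) b ∘ₗ lq1 j + dd a b ∘ₗ lq1 (i + j) := by
    apply lin_ext
    intro l
    rcases l with _ | ⟨n, l⟩
    · simp only [LinearMap.add_apply, LinearMap.comp_apply, lq1_nil, map_zero, add_zero]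
      rw [dd_apply, wd_nil, map_one, tc_one, cf_one_cons, zero_mul]
    · simp only [LinearMap.add_apply, LinearMap.comp_apply, lq1_wd_cons]
      rw [dd_apply, wd_cons, map_mul, tc_Delta_mul_cons]
      simp only [dd_apply, apply_ite stuffleCoproduct, apply_ite (tc a (j :: b)),
        apply_ite (tc (i :: a) b), apply_ite (tc a b), map_zero]
  exact LinearMap.congr_fun this P

theorem dd_cons_nil (i : ℕ+) (a : List ℕ+) (P : NC ℕ+) :
    dd (i :: a) [] P = dd a [] (lq1 i P) := by
  have : dd (i :: a) [] = dd a [] ∘ₗ lq1 i := by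
    apply lin_ext
    intro l
    rcases l with _ | ⟨n, l⟩
    · simp only [LinearMap.comp_apply, lq1_nil, map_zero]
      rw [dd_apply, wd_nil, map_one, tc_one, cf_one_cons, zero_mul]
    · simp only [LinearMap.comp_apply, lq1_wd_cons]
      rw [dd_apply, wd_cons, map_mul, tc_Delta_mul_nil_right]
      simp only [dd_apply, apply_ite stuffleCoproduct, apply_ite (tc a []), map_zero]
  exact LinearMap.congr_fun this P

theorem tc_nil (b : List ℕ+) (x : TT) : tc [] b x = cf (Lv [] x) b := by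
  induction x using TensorProduct.induction_on with
  | zero => simp
  | tmul r s => rw [tc_tmul, Lv_tmul, cf_smul]
  | add u v hu hv => rw [map_add, hu, hv, map_add, cf_add]

theorem dd_nil_left (b : List ℕ+) (P : NC ℕ+) : dd [] b P = cf P b := by
  rw [dd_apply, tc_nil, Lv_nil_Delta]

theorem dd_nil_right (a : List ℕ+) (P : NC ℕ+) : dd a [] P = cf P a := by
  induction a generalizing P with
  | nil => exact dd_nil_left [] P
  | cons i a ih => rw [dd_cons_nil, ih, cf_lq1]

theorem prim_iff (P : NC ℕ+) : Prim P ↔ cf P [] = 0 ∧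
    ∀ (i j : ℕ+) (a b : List ℕ+), dd (i :: a) (j :: b) P = 0 := by
  constructor
  · intro hP
    refine ⟨hP.cf_nil, ?_⟩
    intro i j a b
    have hP' : stuffleCoproduct P = P ⊗ₜ[ℚ] 1 + 1 ⊗ₜ[ℚ] P := hP
    rw [dd_apply, hP', map_add, tc_tmul, tc_tmul, cf_one_cons, cf_one_cons]
    ring
  · rintro ⟨h0, h⟩
    unfold Prim
    apply tc_ext
    intro a b
    rw [map_add, tc_tmul, tc_tmul, ← dd_apply]
    rcases a with _ | ⟨i, a⟩
    · rw [dd_nil_left, cf_one_nil, h0]
      ring
    · rcases b with _ | ⟨j, b⟩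
      · rw [dd_nil_right, cf_one_nil, h0]
        ring
      · rw [h, cf_one_cons, cf_one_cons]
        ring

theorem dd_eq_zero (N : ℕ) : ∀ (a b : List ℕ+) (P : NC ℕ+), a.length + b.length ≤ N →
    (∀ l, wt wY l = wt wY a + wt wY b → cf P l = 0) → dd a b P = 0 := by
  induction N with
  | zero =>
    intro a b P hN h
    have ha : a = [] := List.length_eq_zero_iff.mp (by omega)
    have hb : b = [] := List.length_eq_zero_iff.mp (by omega)
    subst ha; subst hb
    rw [dd_nil_left]; exact h _ (by simp)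
  | succ N ih =>
    intro a b P hN h
    rcases a with _ | ⟨i, a⟩
    · rw [dd_nil_left]; exact h _ (by simp)
    · rcases b with _ | ⟨j, b⟩
      · rw [dd_nil_right]; exact h _ (by simp)
      · simp only [List.length_cons] at hN
        rw [dd_cons_cons, ih _ _ _ (by simp only [List.length_cons]; omega),
          ih _ _ _ (by simp only [List.length_cons]; omega), ih _ _ _ (by omega)]
        · ring
        · intro l hl
          rw [cf_lq1]
          apply h
          have hij : wY (i + j) = wY i + wY j := PNat.add_coe i j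
          simp only [wt_cons] at *
          omega
        · intro l hl
          rw [cf_lq1]
          apply h
          simp only [wt_cons] at *
          omega
        · intro l hl
          rw [cf_lq1]
          apply h
          simp only [wt_cons] at *
          omega

theorem Prim.comp {P : NC ℕ+} (hP : Prim P) (n : ℕ) : Prim (comp wY n P) := by
  rw [prim_iff] at *
  obtain ⟨h0, h⟩ := hP
  constructor
  · rw [cf_comp, h0]; split_ifs <;> rfl
  · intro i j a b
    by_cases hn : wt wY (i :: a) + wt wY (j :: b) = n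
    · have h1 : dd (i :: a) (j :: b) (P - Pool.Agent.H4DM.comp wY n P) = 0 := by
        apply dd_eq_zero _ _ _ _ le_rfl
        intro l hl
        rw [cf_sub, cf_comp, if_pos (by omega), sub_self]
      rw [map_sub, h, zero_sub, neg_eq_zero] at h1
      exact h1
    · apply dd_eq_zero _ _ _ _ le_rfl
      intro l hl
      rw [cf_comp, if_neg (by omega)]

end

end Pool.Agent.H4DM
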