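import Mathlib
import Pool.Agent.Lib.H4DMPrimB

/-!
# Lie elements and elements of `dm`: symmetry, derivations, gradings
-/

set_option autoImplicit false

open Polynomial
open scoped TensorProduct

namespace Pool.Agent.H4DM

noncomputable section

attribute [local instance] LieRing.ofAssociativeRing

/-- The anti-automorphism `x_i ↦ -x_i`. -/
def revL : NC (Fin 2) →ₗ[ℚ] NC (Fin 2) := linw (fun l => ((-1 : ℚ) ^ l.length) • wd l.reverse)

theorem revL_mul (p q : NC (Fin 2)) : revL (p * q) = revL q * revL p := by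
  induction p using nc_induction with
  | hw l =>
    induction q using nc_induction with
    | hw m =>
      rw [← wd_append, revL, linw_wd, linw_wd, linw_wd, List.length_append, List.reverse_append,
        wd_append, smul_mul_smul_comm, pow_add, mul_comm]
    | zero => simp
    | add a b ha hb => rw [mul_add, map_add, ha, hb, map_add, add_mul]
    | smul c a ha => rw [mul_smul_comm, map_smul, ha, map_smul, smul_mul_assoc]
  | zero => simp
  | add a b ha hb => rw [add_mul, map_add, ha, hb, map_add, mul_add]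
  | smul c a ha => rw [smul_mul_assoc, map_smul, ha, map_smul, mul_smul_comm]

theorem cf_revL (p : NC (Fin 2)) (l : List (Fin 2)) :
    cf (revL p) l = (-1 : ℚ) ^ l.length * cf p l.reverse := by
  induction p using nc_induction with
  | hw m =>
    rw [revL, linw_wd, cf_smul, cf_wd, cf_wd]
    by_cases h : m.reverse = l
    · have h2 : m = l.reverse := by rw [← h, List.reverse_reverse]
      rw [if_pos h, if_pos h2, ← h, List.length_reverse]
    · have h2 : ¬ (m = l.reverse) := by intro h3; apply h; rw [h3, List.reverse_reverse]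
      rw [if_neg h, if_neg h2]; ring
  | zero => simp
  | add a b ha hb => rw [map_add, cf_add, ha, hb, cf_add]; ring
  | smul c a ha => rw [map_smul, cf_smul, ha, cf_smul]; ring

theorem revL_lie {f : NC (Fin 2)} (hf : f ∈ Lie01) : revL f = -f := by
  induction hf using LieSubalgebra.lieSpan_induction with
  | mem x hx =>
    rcases hx with rfl | hx
    · rw [x0, revL, linw_wd]; simp
    · rw [Set.mem_singleton_iff] at hx
      subst hx
      rw [x1, revL, linw_wd]; simp
  | zero => simp
  | add a b _ _ ha hb => rw [map_add, ha, hb]; abel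
  | smul c a _ ha => rw [map_smul, ha, smul_neg]
  | lie a b _ _ ha hb =>
    rw [LieRing.of_associative_ring_bracket, map_sub, revL_mul, revL_mul, ha, hb]
    noncomm_ring

theorem cf_reverse {f : NC (Fin 2)} (hf : f ∈ Lie01) (l : List (Fin 2)) :
    cf f l.reverse = (-1 : ℚ) ^ (l.length + 1) * cf f l := by
  have h1 := cf_revL f l
  rw [revL_lie hf, cf_neg] at h1
  have h2 : ((-1 : ℚ) ^ l.length) * ((-1 : ℚ) ^ l.length) = 1 := by
    rw [← pow_add, ← two_mul, pow_mul]; norm_num
  have h3 : cf f l.reverse = (((-1 : ℚ) ^ l.length) * ((-1 : ℚ) ^ l.length)) * cf f l.reverse := by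
    rw [h2, one_mul]
  rw [h3, mul_assoc, ← h1, pow_succ]
  ring

theorem cf_lie_nil {f : NC (Fin 2)} (hf : f ∈ Lie01) : cf f [] = 0 := by
  have := cf_reverse hf []
  simp at this
  linarith

theorem d0_one : d0 1 = 0 := der_one _
theorem d1_one : d1 1 = 0 := der_one _

theorem d0_lie {f : NC (Fin 2)} (hf : f ∈ Lie01) : ∃ c : ℚ, d0 f = c • 1 := by
  induction hf using LieSubalgebra.lieSpan_induction with
  | mem x hx =>
    rcases hx with rfl | hx
    · exact ⟨1, by rw [d0_x0, one_smul]⟩
    · rw [Set.mem_singleton_iff] at hx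
      subst hx
      exact ⟨0, by rw [d0_x1, zero_smul]⟩
  | zero => exact ⟨0, by simp⟩
  | add a b _ _ ha hb =>
    obtain ⟨c, hc⟩ := ha
    obtain ⟨d, hd⟩ := hb
    exact ⟨c + d, by rw [map_add, hc, hd, add_smul]⟩
  | smul e a _ ha =>
    obtain ⟨c, hc⟩ := ha
    exact ⟨e * c, by rw [map_smul, hc, smul_smul]⟩
  | lie a b _ _ ha hb =>
    obtain ⟨c, hc⟩ := ha
    obtain ⟨d, hd⟩ := hb
    refine ⟨0, ?_⟩
    rw [LieRing.of_associative_ring_bracket, map_sub, d0_mul, d0_mul, hc, hd]
    simp only [smul_mul_assoc, mul_smul_comm, one_mul, mul_one, zero_smul]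
    abel

theorem d1_lie {f : NC (Fin 2)} (hf : f ∈ Lie01) : ∃ c : ℚ, d1 f = c • 1 := by
  induction hf using LieSubalgebra.lieSpan_induction with
  | mem x hx =>
    rcases hx with rfl | hx
    · exact ⟨0, by rw [d1_x0, zero_smul]⟩
    · rw [Set.mem_singleton_iff] at hx
      subst hx
      exact ⟨1, by rw [d1_x1, one_smul]⟩
  | zero => exact ⟨0, by simp⟩
  | add a b _ _ ha hb =>
    obtain ⟨c, hc⟩ := ha
    obtain ⟨d, hd⟩ := hb
    exact ⟨c + d, by rw [map_add, hc, hd, add_smul]⟩
  | smul e a _ ha =>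
    obtain ⟨c, hc⟩ := ha
    exact ⟨e * c, by rw [map_smul, hc, smul_smul]⟩
  | lie a b _ _ ha hb =>
    obtain ⟨c, hc⟩ := ha
    obtain ⟨d, hd⟩ := hb
    refine ⟨0, ?_⟩
    rw [LieRing.of_associative_ring_bracket, map_sub, d1_mul, d1_mul, hc, hd]
    simp only [smul_mul_assoc, mul_smul_comm, one_mul, mul_one, zero_smul]
    abel

theorem cf_wd_mul {α : Type} [DecidableEq α] (a : α) (r : NC α) (b : α) (l : List α) :
    cf (wd [a] * r) (b :: l) = if a = b then cf r l else 0 := by
  induction r using nc_induction with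
  | hw m =>
    rw [← wd_cons, cf_wd, cf_wd]
    by_cases h : a = b <;> simp [h]
  | zero => simp
  | add x y hx hy => rw [mul_add, cf_add, hx, hy, cf_add]; split_ifs <;> simp
  | smul c x hx => rw [mul_smul_comm, cf_smul, hx, cf_smul]; split_ifs <;> simp

theorem cf_wd_mul_nil {α : Type} (a : α) (r : NC α) : cf (wd [a] * r) [] = 0 := by
  classical
  rw [cf_mul_nil, cf_wd, if_neg (by simp), zero_mul]

theorem d0_wd_cons (a : Fin 2) (t : List (Fin 2)) :
    d0 (wd (a :: t)) = (if a = 0 then wd t else 0) + wd [a] * d0 (wd t) := by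
  rw [wd_cons, d0_mul]
  congr 1
  by_cases h : a = 0
  · subst h
    rw [if_pos rfl, show (wd [0] : NC (Fin 2)) = x0 from rfl, d0_x0, one_mul]
  · have : a = 1 := by
      have := a.isLt
      apply Fin.ext
      have h1 : (a : ℕ) ≠ 0 := fun h' => h (Fin.ext h')
      simp only [Fin.val_one]
      omega
    subst this
    rw [if_neg h, show (wd [1] : NC (Fin 2)) = x1 from rfl, d0_x1, zero_mul]

theorem d1_wd_cons (a : Fin 2) (t : List (Fin 2)) :
    d1 (wd (a :: t)) = (if a = 1 then wd t else 0) + wd [a] * d1 (wd t) := by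
  rw [wd_cons, d1_mul]
  congr 1
  by_cases h : a = 1
  · subst h
    rw [if_pos rfl, show (wd [1] : NC (Fin 2)) = x1 from rfl, d1_x1, one_mul]
  · have : a = 0 := by
      have := a.isLt
      apply Fin.ext
      have h1 : (a : ℕ) ≠ 1 := fun h' => h (Fin.ext h')
      simp only [Fin.val_zero]
      omega
    subst this
    rw [if_neg h, show (wd [0] : NC (Fin 2)) = x0 from rfl, d1_x0, zero_mul]

theorem cf_d0_nil (p : NC (Fin 2)) : cf (d0 p) [] = cf p [0] := by
  induction p using nc_induction with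
  | hw l =>
    rcases l with _ | ⟨a, t⟩
    · rw [wd_nil, d0_one, cf_one_cons]; rfl
    · rw [d0_wd_cons, cf_add, cf_wd_mul_nil, add_zero, cf_wd]
      by_cases h : a = 0
      · subst h
        rw [if_pos rfl, cf_wd]; simp
      · rw [if_neg h, if_neg (by simp [h])]; rfl
  | zero => simp
  | add a b ha hb => rw [map_add, cf_add, ha, hb, cf_add]
  | smul c a ha => rw [map_smul, cf_smul, ha, cf_smul]

theorem cf_d1_nil (p : NC (Fin 2)) : cf (d1 p) [] = cf p [1] := by
  induction p using nc_induction with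
  | hw l =>
    rcases l with _ | ⟨a, t⟩
    · rw [wd_nil, d1_one, cf_one_cons]; rfl
    · rw [d1_wd_cons, cf_add, cf_wd_mul_nil, add_zero, cf_wd]
      by_cases h : a = 1
      · subst h
        rw [if_pos rfl, cf_wd]; simp
      · rw [if_neg h, if_neg (by simp [h])]; rfl
  | zero => simp
  | add a b ha hb => rw [map_add, cf_add, ha, hb, cf_add]
  | smul c a ha => rw [map_smul, cf_smul, ha, cf_smul]

theorem d0_eq_zero {f : NC (Fin 2)} (hf : f ∈ Lie01) (h0 : cf f [0] = 0) : d0 f = 0 := by
  obtain ⟨c, hc⟩ := d0_lie hf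
  have h1 := cf_d0_nil f
  rw [hc, cf_smul, cf_one_nil, h0, mul_one] at h1
  rw [hc, h1, zero_smul]

theorem d1_eq_zero {f : NC (Fin 2)} (hf : f ∈ Lie01) (h0 : cf f [1] = 0) : d1 f = 0 := by
  obtain ⟨c, hc⟩ := d1_lie hf
  have h1 := cf_d1_nil f
  rw [hc, cf_smul, cf_one_nil, h0, mul_one] at h1
  rw [hc, h1, zero_smul]

/-- `lq1` and `d1`. -/
theorem lq1_d1 (a : Fin 2) (p : NC (Fin 2)) :
    lq1 a (d1 p) = lq1 a (lq1 1 p) + d1 (lq1 a p) := by
  induction p using nc_induction with
  | hw l =>
    rcases l with _ | ⟨b, t⟩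
    · rw [lq1_nil, lq1_nil, wd_nil, d1_one]; simp
    · have hc : cf (wd [b]) [] = 0 := by rw [cf_wd, if_neg (by simp)]
      rw [d1_wd_cons, map_add, lq1_mul, hc, zero_smul, add_zero, lq1_wd_cons a b [],
        lq1_wd_cons 1 b t, lq1_wd_cons a b t]
      by_cases hb : b = a
      · rw [if_pos hb, if_pos hb, wd_nil, one_mul]
      · rw [if_neg hb, if_neg hb, zero_mul, map_zero]
  | zero => simp
  | add x y hx hy => rw [map_add, map_add, hx, hy, map_add, map_add, map_add, map_add]; abel
  | smul c x hx =>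
    rw [map_smul, map_smul, hx, map_smul, map_smul, map_smul, map_smul, smul_add]

theorem cf_d1_cons (p : NC (Fin 2)) (a : Fin 2) (u : List (Fin 2)) :
    cf (d1 p) (a :: u) = cf p (1 :: a :: u) + cf (d1 (lq1 a p)) u := by
  rw [← cf_lq1, lq1_d1, cf_add, cf_lq1, cf_lq1]

/-! ### Gradings -/

theorem comp_mul {α : Type} (w : α → ℕ) (n : ℕ) (p q : NC α) :
    comp w n (p * q) = ∑ x ∈ Finset.HasAntidiagonal.antidiagonal n, comp w x.1 p * comp w x.2 q := by
  rw [comp_apply, map_mul, Polynomial.coeff_mul]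
  rfl

theorem comp_lie {f : NC (Fin 2)} (hf : f ∈ Lie01) (n : ℕ) : comp wX n f ∈ Lie01 := by
  induction hf using LieSubalgebra.lieSpan_induction generalizing n with
  | mem x hx =>
    have key : ∀ a : Fin 2, wd [a] ∈ Lie01 → comp wX n (wd [a]) ∈ Lie01 := by
      intro a ha
      rw [comp_wd]
      split_ifs
      · exact ha
      · exact Lie01.zero_mem
    rcases hx with rfl | hx
    · exact key 0 x0_mem
    · rw [Set.mem_singleton_iff] at hx
      subst hx
      exact key 1 x1_mem
  | zero => rw [map_zero]; exact Lie01.zero_mem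
  | add a b _ _ ha hb => rw [map_add]; exact Lie01.add_mem (ha n) (hb n)
  | smul c a _ ha => rw [map_smul]; exact Lie01.smul_mem c (ha n)
  | lie a b _ _ ha hb =>
    rw [LieRing.of_associative_ring_bracket, map_sub, comp_mul, comp_mul]
    have : ∑ x ∈ Finset.HasAntidiagonal.antidiagonal n, comp wX x.1 b * comp wX x.2 a =
        ∑ x ∈ Finset.HasAntidiagonal.antidiagonal n, comp wX x.2 b * comp wX x.1 a := by
      rw [← Finset.Nat.sum_antidiagonal_swap]
      rfl
    rw [this, ← Finset.sum_sub_distrib]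
    apply Lie01.sum_mem
    intro x _
    exact comm_mem (ha _) (hb _)

theorem wt_wX (l : List (Fin 2)) : wt wX l = l.length := by
  induction l with
  | nil => rfl
  | cons a l ih =>
    rw [wt_cons, ih, List.length_cons]
    show 1 + _ = _
    omega

theorem length_yw (t : List ℕ+) : (yw t).length = wt wY t := by
  induction t with
  | nil => rfl
  | cons n t ih =>
    rw [yw, List.length_append, List.length_replicate, List.length_cons, ih, wt_cons]
    have := n.pos
    show _ = (n : ℕ) + _
    omega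

theorem length_parse (l : List (Fin 2)) : wt wY (parse l).1 + (parse l).2 = l.length := by
  conv_rhs => rw [← unparse_parse l]
  rw [List.length_append, length_yw, List.length_replicate]

theorem wt_replicate (m : ℕ) (n : ℕ+) : wt wY (List.replicate m n) = m * n := by
  simp [wt]

theorem psiStar_comp (n : ℕ) (ψ : NC (Fin 2)) :
    psiStar (comp wX n ψ) = comp wY n (psiStar ψ) := by
  have h1 : piY ∘ₗ comp wX n = comp wY n ∘ₗ piY := by
    apply lin_ext
    intro l
    simp only [LinearMap.comp_apply]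
    rw [comp_wd, piY_word, wt_wX]
    have hl := length_parse l
    by_cases h : (parse l).2 = 0
    · rw [if_pos h, comp_wd]
      rw [h, add_zero] at hl
      rw [hl]
      split_ifs
      · rw [piY_word, if_pos h]
      · rw [map_zero]
    · rw [if_neg h, map_zero]
      split_ifs
      · rw [piY_word, if_neg h]
      · rw [map_zero]
  have h2 : corr ∘ₗ comp wX n = comp wY n ∘ₗ corr := by
    apply lin_ext
    intro l
    simp only [LinearMap.comp_apply]
    rw [comp_wd, wt_wX]
    have h3 : comp wY n (corr (wd l)) = if l.length = n then corr (wd l) else 0 := by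
      rw [corr, linw_wd]
      split_ifs with h4 h5 h5
      · rw [map_smul, comp_wd, wt_replicate, if_pos (by simpa using h5)]
      · rw [map_smul, comp_wd, wt_replicate, if_neg (by simpa using h5), smul_zero]
      · rw [map_zero]
      · rw [map_zero]
    rw [h3]
    split_ifs
    · rfl
    · rw [map_zero]
  have h1' := LinearMap.congr_fun h1 ψ
  have h2' := LinearMap.congr_fun h2 ψ
  simp only [LinearMap.comp_apply] at h1' h2'
  rw [psiStar, psiStar, h1', h2', map_add]

/-- `dm` is a graded subspace. -/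
theorem IsDM.comp {ψ : NC (Fin 2)} (h : IsDM ψ) (n : ℕ) : IsDM (comp wX n ψ) := by
  obtain ⟨h1, h2, h3, h4, h5⟩ := h
  refine ⟨comp_lie h1 n, ?_, ?_, ?_, ?_⟩
  · rw [cf_comp, h2]; split_ifs <;> rfl
  · rw [cf_comp, h3]; split_ifs <;> rfl
  · rw [cf_comp, h4]; split_ifs <;> rfl
  · rw [psiStar_comp]
    exact Prim.comp h5 n

theorem IsDM.sub {ψ g : NC (Fin 2)} (h : IsDM ψ) (h' : IsDM g) : IsDM (ψ - g) := by
  obtain ⟨h1, h2, h3, h4, h5⟩ := h
  obtain ⟨k1, k2, k3, k4, k5⟩ := h'
  refine ⟨Lie01.sub_mem h1 k1, ?_, ?_, ?_, ?_⟩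
  · rw [cf_sub, h2, k2, sub_zero]
  · rw [cf_sub, h3, k3, sub_zero]
  · rw [cf_sub, h4, k4, sub_zero]
  · have : psiStar (ψ - g) = psiStar ψ - psiStar g := by
      rw [psiStar, psiStar, psiStar, map_sub, map_sub]; abel
    rw [this]
    exact Prim.sub h5 k5

theorem IsDM.smul {ψ : NC (Fin 2)} (c : ℚ) (h : IsDM ψ) : IsDM (c • ψ) := by
  obtain ⟨h1, h2, h3, h4, h5⟩ := h
  refine ⟨Lie01.smul_mem c h1, ?_, ?_, ?_, ?_⟩
  · rw [cf_smul, h2, mul_zero]
  · rw [cf_smul, h3, mul_zero]
  · rw [cf_smul, h4, mul_zero]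
  · have : psiStar (c • ψ) = c • psiStar ψ := by
      rw [psiStar, psiStar, map_smul, map_smul, smul_add]
    rw [this]
    exact Prim.smul c h5

/-- The coefficients of `Th f`. -/
theorem cf_Th (f : NC (Fin 2)) (b : ℕ) (t : List ℕ+) :
    cf ((Th f).coeff b) t = cf f (yw t ++ List.replicate b 0) := by
  induction f using nc_induction with
  | hw l =>
    rw [Th, linw_wd, Polynomial.coeff_monomial, cf_wd]
    by_cases h : l = yw t ++ List.replicate b 0
    · rw [if_pos h, h, parse_unparse, if_pos rfl, cf_wd, if_pos rfl]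
    · rw [if_neg h]
      by_cases h2 : (parse l).2 = b
      · rw [if_pos h2, cf_wd, if_neg]
        intro h3
        apply h
        rw [← h2, ← h3, unparse_parse]
      · rw [if_neg h2]; rfl
  | zero => simp
  | add p q hp hq => rw [map_add, Polynomial.coeff_add, cf_add, hp, hq, cf_add]
  | smul c p hp => rw [map_smul, Polynomial.coeff_smul, cf_smul, hp, cf_smul]

theorem Hg_Th {f : NC (Fin 2)} {n : ℕ} (h : Hg wX n f) (b : ℕ) (t : List ℕ+)
    (ht : cf ((Th f).coeff b) t ≠ 0) : wt wY t + b = n := by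
  rw [cf_Th] at ht
  have := h _ ht
  rw [wt_wX, List.length_append, length_yw, List.length_replicate] at this
  exact this

theorem Th_coeff_le {f : NC (Fin 2)} {n : ℕ} (h : Hg wX n f) {b : ℕ}
    (hb : (Th f).coeff b ≠ 0) : b ≤ n := by
  obtain ⟨t, ht⟩ := exists_cf_ne hb
  have := Hg_Th h b t ht
  omega

theorem Hg_Th_coeff {f : NC (Fin 2)} {n : ℕ} (h : Hg wX n f) (b : ℕ) :
    Hg wY (n - b) ((Th f).coeff b) := by
  intro t ht
  have := Hg_Th h b t ht
  omega

/-! ### The recursion for the coefficients of elements of `dm` -/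

theorem dT_corr (f : NC (Fin 2)) : dT (corr f) = 0 := by
  have : dT ∘ₗ corr = 0 := by
    apply lin_ext
    intro l
    simp only [LinearMap.comp_apply, LinearMap.zero_apply]
    rw [corr, linw_wd]
    split_ifs
    · rw [map_smul]
      have : ∀ m : ℕ, dT (wd (List.replicate m 1)) = 0 := by
        intro m
        induction m with
        | zero => rw [List.replicate_zero, wd_nil, dT_one]
        | succ m ih =>
          rw [List.replicate_succ, wd_cons, dT_mul, ih, dT_letter]
          simp
      rw [this, smul_zero]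
    · rw [map_zero]
  exact LinearMap.congr_fun this f

theorem dm_rec {ψ : NC (Fin 2)} (h : IsDM ψ) (n : ℕ) :
    ((n : ℚ) + 1) • (Th ψ).coeff (n + 1) = -dT ((Th ψ).coeff n) := by
  obtain ⟨h1, h2, h3, h4, h5⟩ := h
  have h6 := Th_d0_coeff ψ n
  rw [d0_eq_zero h1 h2, map_zero, Polynomial.coeff_zero] at h6
  rw [eq_neg_iff_add_eq_zero, add_comm]
  exact h6.symm

theorem dm_prim {ψ : NC (Fin 2)} (h : IsDM ψ) (n : ℕ) : Prim ((Th ψ).coeff (n + 1)) := by
  have key : ∀ n : ℕ, Prim (dT ((Th ψ).coeff n)) := by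
    intro n
    induction n with
    | zero =>
      have h5 : Prim (psiStar ψ) := h.2.2.2.2
      have h6 := h5.dT
      rw [psiStar, map_add, dT_corr, add_zero, piY_eq] at h6
      exact h6
    | succ n ih =>
      apply Prim.dT
      have hr := dm_rec h n
      have hn : ((n : ℚ) + 1) ≠ 0 := by positivity
      have : (Th ψ).coeff (n + 1) = ((n : ℚ) + 1)⁻¹ • (-dT ((Th ψ).coeff n)) := by
        rw [← hr, smul_smul, inv_mul_cancel₀ hn, one_smul]
      rw [this]
      exact (ih.neg).smul _
  have hr := dm_rec h n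
  have hn : ((n : ℚ) + 1) ≠ 0 := by positivity
  have : (Th ψ).coeff (n + 1) = ((n : ℚ) + 1)⁻¹ • (-dT ((Th ψ).coeff n)) := by
    rw [← hr, smul_smul, inv_mul_cancel₀ hn, one_smul]
  rw [this]
  exact ((key n).neg).smul _

end

end Pool.Agent.H4DM
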