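import Mathlib
import Pool.Agent.Lib.H4DMLie

/-!
# Homogeneous elements of `dm` have words ending in `x₀²`
-/

set_option autoImplicit false

open Polynomial

namespace Pool.Agent.H4DM

noncomputable section

theorem cf_d1_ones (m : ℕ) (q : NC (Fin 2)) :
    cf (d1 q) (List.replicate m 1) = ((m : ℚ) + 1) * cf q (List.replicate (m + 1) 1) := by
  induction m generalizing q with
  | zero => rw [List.replicate_zero, cf_d1_nil]; simp
  | succ m ih =>
    rw [List.replicate_succ, cf_d1_cons, ih, cf_lq1, ← List.replicate_succ, ← List.replicate_succ]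
    push_cast
    ring

theorem cf_d1_ones_zero (m : ℕ) (q : NC (Fin 2)) (b : List (Fin 2)) :
    cf (d1 q) (List.replicate m 1 ++ 0 :: b) =
      ((m : ℚ) + 1) * cf q (List.replicate (m + 1) 1 ++ 0 :: b) +
        cf (d1 (lq (List.replicate m 1 ++ [0]) q)) b := by
  induction m generalizing q with
  | zero =>
    rw [List.replicate_zero, List.nil_append, List.nil_append, cf_d1_cons]
    simp [lq]
  | succ m ih =>
    rw [List.replicate_succ, List.cons_append, cf_d1_cons, ih, cf_lq1, List.cons_append, lq,
      ← List.cons_append, ← List.replicate_succ, ← List.cons_append, ← List.replicate_succ]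
    push_cast
    ring

theorem cf_d1_block (k : ℕ) (a b : List (Fin 2)) (p : NC (Fin 2))
    (h : ∀ a b, cf p (a ++ 0 :: (List.replicate k 1 ++ 0 :: b)) = 0) :
    cf (d1 p) (a ++ 0 :: (List.replicate k 1 ++ 0 :: b)) =
      ((k : ℚ) + 1) * cf p (a ++ 0 :: (List.replicate (k + 1) 1 ++ 0 :: b)) := by
  induction a generalizing p with
  | nil =>
    rw [List.nil_append, List.nil_append, cf_d1_cons, cf_d1_ones_zero, cf_lq1]
    have h1 : cf p (1 :: 0 :: (List.replicate k 1 ++ 0 :: b)) = 0 := h [1] b
    have h2 : lq (List.replicate k 1 ++ [0]) (lq1 0 p) = 0 := by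
      apply cf_ext
      intro l
      rw [cf_lq, cf_lq1, List.append_assoc]
      exact h [] l
    rw [h1, h2, map_zero, cf_zero]
    ring
  | cons c a ih =>
    rw [List.cons_append, cf_d1_cons, ih, cf_lq1]
    · have h1 : cf p (1 :: c :: (a ++ 0 :: (List.replicate k 1 ++ 0 :: b))) = 0 := h (1 :: c :: a) b
      rw [h1, zero_add]
      rfl
    · intro a' b'
      rw [cf_lq1]
      exact h (c :: a') b'

theorem no_two_zeros {p : NC (Fin 2)} (hd : d1 p = 0) (h : ∀ a b, cf p (a ++ 0 :: 0 :: b) = 0)
    (k : ℕ) : ∀ a b, cf p (a ++ 0 :: (List.replicate k 1 ++ 0 :: b)) = 0 := by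
  induction k with
  | zero => exact h
  | succ k ih =>
    intro a b
    have h1 := cf_d1_block k a b p ih
    rw [hd, cf_zero] at h1
    have h2 : ((k : ℚ) + 1) ≠ 0 := by positivity
    exact (mul_eq_zero.mp h1.symm).resolve_left h2

theorem ones_or_zero_left (b : List (Fin 2)) :
    (∃ k, b = List.replicate k 1) ∨ ∃ k c, b = List.replicate k 1 ++ 0 :: c := by
  induction b with
  | nil => exact Or.inl ⟨0, rfl⟩
  | cons a b ih =>
    by_cases ha : a = 0
    · subst ha
      exact Or.inr ⟨0, b, rfl⟩
    · have ha1 : a = 1 := by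
        have := a.isLt
        apply Fin.ext
        have h1 : (a : ℕ) ≠ 0 := fun h' => ha (Fin.ext h')
        simp only [Fin.val_one]
        omega
      subst ha1
      rcases ih with ⟨k, hk⟩ | ⟨k, c, hk⟩
      · exact Or.inl ⟨k + 1, by rw [hk, List.replicate_succ]⟩
      · exact Or.inr ⟨k + 1, c, by rw [hk, List.replicate_succ]; rfl⟩

theorem no_two_zeros' {p : NC (Fin 2)} (hd : d1 p = 0) (h : ∀ a b, cf p (a ++ 0 :: 0 :: b) = 0)
    (a b c : List (Fin 2)) : cf p (a ++ 0 :: (b ++ 0 :: c)) = 0 := by
  rcases ones_or_zero_left b with ⟨k, hk⟩ | ⟨k, b', hk⟩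
  · rw [hk]; exact no_two_zeros hd h k a c
  · rw [hk, List.append_assoc, List.cons_append]
    exact no_two_zeros hd h k a _

theorem ones_or_zero_right (l : List (Fin 2)) :
    (∃ m, l = List.replicate m 1) ∨ ∃ a j, l = a ++ 0 :: List.replicate j 1 := by
  induction l with
  | nil => exact Or.inl ⟨0, rfl⟩
  | cons c l ih =>
    rcases ih with ⟨m, hm⟩ | ⟨a, j, hj⟩
    · by_cases hc : c = 0
      · subst hc
        exact Or.inr ⟨[], m, by rw [hm]; rfl⟩
      · have hc1 : c = 1 := by
          have := c.isLt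
          apply Fin.ext
          have h1 : (c : ℕ) ≠ 0 := fun h' => hc (Fin.ext h')
          simp only [Fin.val_one]
          omega
        exact Or.inl ⟨m + 1, by rw [hm, hc1, List.replicate_succ]⟩
    · exact Or.inr ⟨c :: a, j, by rw [hj]; rfl⟩

theorem cf_d1_tail (j : ℕ) (a : List (Fin 2)) (p : NC (Fin 2))
    (h : ∀ a, cf p (a ++ 0 :: List.replicate j 1) = 0) :
    cf (d1 p) (a ++ 0 :: List.replicate j 1) =
      ((j : ℚ) + 1) * cf p (a ++ 0 :: List.replicate (j + 1) 1) := by
  induction a generalizing p with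
  | nil =>
    rw [List.nil_append, List.nil_append, cf_d1_cons, cf_d1_ones, cf_lq1]
    have h1 : cf p (1 :: 0 :: List.replicate j 1) = 0 := h [1]
    rw [h1]
    ring
  | cons c a ih =>
    rw [List.cons_append, cf_d1_cons, ih, cf_lq1]
    · have h1 : cf p (1 :: c :: (a ++ 0 :: List.replicate j 1)) = 0 := h (1 :: c :: a)
      rw [h1, zero_add]
      rfl
    · intro a'
      rw [cf_lq1]
      exact h (c :: a')

/-- An element killed by `∂/∂x₁` with no constant term and without words ending in `x₀` is zero. -/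
theorem eq_zero_of_d1 {f : NC (Fin 2)} (hd : d1 f = 0) (h0 : cf f [] = 0)
    (h : ∀ a, cf f (a ++ [0]) = 0) : f = 0 := by
  apply cf_ext
  intro l
  rw [cf_zero]
  rcases ones_or_zero_right l with ⟨m, hm⟩ | ⟨a, j, hj⟩
  · rw [hm]
    rcases m with _ | m
    · exact h0
    · have h1 := cf_d1_ones m f
      rw [hd, cf_zero] at h1
      have h2 : ((m : ℚ) + 1) ≠ 0 := by positivity
      exact (mul_eq_zero.mp h1.symm).resolve_left h2
  · rw [hj]
    clear hj l
    induction j generalizing a with
    | zero => exact h a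
    | succ j ih =>
      have h1 := cf_d1_tail j a f ih
      rw [hd, cf_zero] at h1
      have h2 : ((j : ℚ) + 1) ≠ 0 := by positivity
      exact (mul_eq_zero.mp h1.symm).resolve_left h2

theorem dd_eq_cf (u : List ℕ+) : ∀ (Q : NC ℕ+) (n : ℕ+) (v : List ℕ+), 3 ≤ (n : ℕ) →
    (∀ (u' : List ℕ+) (n' : ℕ+) (v' : List ℕ+), u'.length < u.length → 3 ≤ (n' : ℕ) →
      cf Q (u' ++ n' :: v') = 0) → dd u (n :: v) Q = cf Q (u ++ n :: v) := by
  induction u with
  | nil => intro Q n v _ _; rw [dd_nil_left]; rfl
  | cons i a ih =>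
    intro Q n v hn h
    have h1 : lq1 n Q = 0 := by
      apply cf_ext
      intro l
      rw [cf_lq1]
      exact h [] n l (by simp) hn
    have h2 : lq1 (i + n) Q = 0 := by
      apply cf_ext
      intro l
      rw [cf_lq1]
      exact h [] (i + n) l (by simp) (by rw [PNat.add_coe]; omega)
    rw [dd_cons_cons, h1, h2, map_zero, map_zero, add_zero, add_zero, ih _ n v hn, cf_lq1]
    · rfl
    · intro u' n' v' hu' hn'
      rw [cf_lq1]
      exact h (i :: u') n' v' (by simp only [List.length_cons]; omega) hn'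

/-- A primitive element without words starting with a letter `≥ 3` has no word containing one. -/
theorem prim_letters {P : NC ℕ+} (hP : Prim P)
    (h : ∀ (n : ℕ+) (v : List ℕ+), 3 ≤ (n : ℕ) → cf P (n :: v) = 0) (k : ℕ) :
    ∀ (u : List ℕ+) (n : ℕ+) (v : List ℕ+), u.length = k → 3 ≤ (n : ℕ) →
      cf P (u ++ n :: v) = 0 := by
  induction k using Nat.strong_induction_on with
  | _ k ih =>
    intro u n v hu hn
    rcases u with _ | ⟨i, a⟩
    · exact h n v hn
    · rw [← dd_eq_cf (i :: a) P n v hn]
      · exact ((prim_iff P).mp hP).2 i n a v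
      · intro u' n' v' hu' hn'
        exact ih u'.length (by omega) u' n' v' rfl hn'

theorem parse_double_zero (a b : List (Fin 2)) : 2 ≤ (parse (a ++ 0 :: 0 :: b)).2 ∨
    ∃ (u : List ℕ+) (n : ℕ+) (v : List ℕ+), 3 ≤ (n : ℕ) ∧
      (parse (a ++ 0 :: 0 :: b)).1 = u ++ n :: v := by
  induction a with
  | nil =>
    rw [List.nil_append]
    rcases hp : (parse b).1 with _ | ⟨n, t⟩
    · left
      rw [parse_zero_nil (by rw [parse_zero_nil hp]), parse_zero_nil hp]
      omega
    · right
      refine ⟨[], n + 1 + 1, t, ?_, ?_⟩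
      · have := n.pos
        rw [PNat.add_coe, PNat.add_coe, PNat.one_coe]
        omega
      · rw [parse_zero_cons (t := t) (n := n + 1) (by rw [parse_zero_cons hp])]
        rfl
  | cons c a ih =>
    rw [List.cons_append]
    set l := a ++ 0 :: 0 :: b with hl
    by_cases hc : c = 1
    · subst hc
      rw [parse_one]
      rcases ih with h | ⟨u, n, v, hn, huv⟩
      · left; exact h
      · right
        exact ⟨1 :: u, n, v, hn, by rw [huv]; rfl⟩
    · have hc0 : c = 0 := by
        have := c.isLt
        apply Fin.ext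
        have h1 : (c : ℕ) ≠ 1 := fun h' => hc (Fin.ext h')
        simp only [Fin.val_zero]
        omega
      subst hc0
      rcases ih with h | ⟨u, n, v, hn, huv⟩
      · left
        rcases hp : (parse l).1 with _ | ⟨m, t⟩
        · rw [parse_zero_nil hp]
          simp only
          omega
        · rw [parse_zero_cons hp]
          exact h
      · right
        rcases u with _ | ⟨m, u⟩
        · refine ⟨[], n + 1, v, ?_, ?_⟩
          · rw [PNat.add_coe, PNat.one_coe]; omega
          · rw [parse_zero_cons huv]; rfl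
        · refine ⟨(m + 1) :: u, n, v, hn, ?_⟩
          rw [List.cons_append] at huv
          rw [parse_zero_cons huv]; rfl

theorem cf_corr (f : NC (Fin 2)) (u : List ℕ+) (n : ℕ+) (v : List ℕ+) (hn : 2 ≤ (n : ℕ)) :
    cf (corr f) (u ++ n :: v) = 0 := by
  classical
  induction f using nc_induction with
  | hw l =>
    rw [corr, linw_wd]
    split_ifs
    · rw [cf_smul, cf_wd, if_neg, mul_zero]
      intro h
      have h1 : n ∈ List.replicate l.length (1 : ℕ+) := by rw [h]; simp
      have h2 := List.eq_of_mem_replicate h1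
      rw [h2] at hn
      simp at hn
    · rfl
  | zero => simp
  | add a b ha hb => rw [map_add, cf_add, ha, hb, add_zero]
  | smul c a ha => rw [map_smul, cf_smul, ha, mul_zero]

theorem cf_of_parse (f : NC (Fin 2)) (l : List (Fin 2)) :
    cf f l = cf ((Th f).coeff (parse l).2) (parse l).1 := by
  rw [cf_Th, unparse_parse]

theorem parse_append_zeros (l : List (Fin 2)) (k : ℕ) :
    parse (l ++ List.replicate k 0) = ((parse l).1, (parse l).2 + k) := by
  conv_lhs => rw [← unparse_parse l]
  rw [List.append_assoc, ← List.replicate_add, parse_unparse]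

theorem dd_one_ones (k : ℕ) : ∀ (Q : NC ℕ+), (∀ u v, cf Q (u ++ (1 + 1) :: v) = 0) →
    dd [1] (List.replicate k 1) Q = ((k : ℚ) + 1) * cf Q (List.replicate (k + 1) 1) := by
  induction k with
  | zero => intro Q _; rw [List.replicate_zero, dd_nil_right]; simp
  | succ k ih =>
    intro Q h
    have h1 : lq1 (1 + 1) Q = 0 := by
      apply cf_ext
      intro l
      rw [cf_lq1]
      exact h [] l
    rw [List.replicate_succ, dd_cons_cons, h1, map_zero, add_zero, dd_nil_left, ih, cf_lq1, cf_lq1,
      ← List.replicate_succ, ← List.replicate_succ]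
    · push_cast
      ring
    · intro u v
      rw [cf_lq1]
      exact h (1 :: u) v

theorem all_ones_or (t : List ℕ+) : t = List.replicate t.length 1 ∨
    ∃ (u : List ℕ+) (n : ℕ+) (v : List ℕ+), 2 ≤ (n : ℕ) ∧ t = u ++ n :: v := by
  induction t with
  | nil => left; rfl
  | cons m t ih =>
    by_cases hm : m = 1
    · rcases ih with h | ⟨u, n, v, hn, huv⟩
      · left
        rw [List.length_cons, List.replicate_succ, ← h, hm]
      · right
        exact ⟨m :: u, n, v, hn, by rw [huv]; rfl⟩
    · right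
      refine ⟨[], m, t, ?_, rfl⟩
      have := m.pos
      have h1 : (m : ℕ) ≠ 1 := fun h' => hm (PNat.eq h')
      omega

theorem dm_small {f : NC (Fin 2)} (hf : IsDM f) (l : List (Fin 2)) (hl : l.length ≤ 2) :
    cf f l = 0 := by
  obtain ⟨h1, h2, h3, h4, -⟩ := hf
  have key : ∀ a : Fin 2, cf f [a] = 0 := by
    intro a
    fin_cases a
    · exact h2
    · exact h3
  have h5 : cf f [1, 0] = 0 := by
    have := cf_reverse h1 [0, 1]
    simp only [List.reverse_cons, List.reverse_nil, List.nil_append, List.cons_append] at this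
    rw [this, h4, mul_zero]
  have h6 : ∀ a : Fin 2, cf f [a, a] = 0 := by
    intro a
    have := cf_reverse h1 [a, a]
    simp only [List.reverse_cons, List.reverse_nil, List.nil_append, List.cons_append,
      List.length_cons, List.length_nil] at this
    norm_num at this
    linarith
  have key2 : ∀ a b : Fin 2, cf f [a, b] = 0 := by
    intro a b
    fin_cases a <;> fin_cases b
    · exact h6 0
    · exact h4
    · exact h5
    · exact h6 1
  rcases l with _ | ⟨a, _ | ⟨b, _ | ⟨c, l⟩⟩⟩
  · exact cf_lie_nil h1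
  · exact key a
  · exact key2 a b
  · simp only [List.length_cons] at hl
    omega

/-- A nonzero element of `dm` contains a word ending in `x₀²`. -/
theorem lemmaC {f : NC (Fin 2)} (hf : IsDM f) (h : ∀ b, 2 ≤ b → (Th f).coeff b = 0) : f = 0 := by
  have hd : d1 f = 0 := d1_eq_zero hf.1 hf.2.2.1
  have hend : ∀ l k, cf f (l ++ List.replicate (k + 2) 0) = 0 := by
    intro l k
    rw [cf_of_parse, parse_append_zeros, h _ (by simp only; omega)]
    rfl
  have hstart : ∀ l, cf f (0 :: 0 :: l) = 0 := by
    intro l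
    have h1 := cf_reverse hf.1 (l.reverse ++ List.replicate 2 0)
    have h2 : (l.reverse ++ List.replicate 2 (0 : Fin 2)).reverse = 0 :: 0 :: l := by
      simp
    rw [h2, hend l.reverse 0, mul_zero] at h1
    exact h1
  have hfirst : ∀ (b : ℕ) (n : ℕ+) (v : List ℕ+), 3 ≤ (n : ℕ) →
      cf ((Th f).coeff b) (n :: v) = 0 := by
    intro b n v hn
    rw [cf_Th, yw]
    obtain ⟨k, hk⟩ : ∃ k, (n : ℕ) - 1 = k + 1 + 1 := ⟨(n : ℕ) - 3, by omega⟩
    rw [hk, List.replicate_succ, List.replicate_succ]
    exact hstart _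
  have h0 : ∀ (u : List ℕ+) (n : ℕ+) (v : List ℕ+), 3 ≤ (n : ℕ) →
      cf ((Th f).coeff 0) (u ++ n :: v) = 0 := by
    intro u n v hn
    have hP : Prim (psiStar f) := hf.2.2.2.2
    have h1 : cf (psiStar f) (u ++ n :: v) = 0 := by
      apply prim_letters hP _ u.length u n v rfl hn
      intro n v hn
      have := cf_corr f [] n v (by omega)
      rw [List.nil_append] at this
      rw [psiStar, cf_add, this, piY_eq, hfirst 0 n v hn, add_zero]
    rw [psiStar, cf_add, cf_corr f u n v (by omega), add_zero, piY_eq] at h1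
    exact h1
  have h1 : ∀ (u : List ℕ+) (n : ℕ+) (v : List ℕ+), 3 ≤ (n : ℕ) →
      cf ((Th f).coeff 1) (u ++ n :: v) = 0 := by
    intro u n v hn
    exact prim_letters (dm_prim hf 0) (hfirst 1) u.length u n v rfl hn
  have hno : ∀ a b, cf f (a ++ 0 :: 0 :: b) = 0 := by
    intro a b
    rw [cf_of_parse]
    rcases parse_double_zero a b with h2 | ⟨u, n, v, hn, huv⟩
    · rw [h _ h2]; rfl
    · rw [huv]
      have : (parse (a ++ 0 :: 0 :: b)).2 = 0 ∨ (parse (a ++ 0 :: 0 :: b)).2 = 1 ∨
        2 ≤ (parse (a ++ 0 :: 0 :: b)).2 := by omega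
      rcases this with h2 | h2 | h2
      · rw [h2]; exact h0 u n v hn
      · rw [h2]; exact h1 u n v hn
      · rw [h _ h2]; rfl
  have htwo := no_two_zeros' hd hno
  have hF1 : (Th f).coeff 1 = 0 := by
    have hlet : ∀ (u : List ℕ+) (n : ℕ+) (v : List ℕ+), 2 ≤ (n : ℕ) →
        cf ((Th f).coeff 1) (u ++ n :: v) = 0 := by
      intro u n v hn
      rw [cf_Th, yw_append, yw]
      obtain ⟨k, hk⟩ : ∃ k, (n : ℕ) - 1 = k + 1 := ⟨(n : ℕ) - 2, by omega⟩
      rw [hk, List.replicate_succ, List.append_assoc, List.cons_append, List.cons_append,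
        List.append_assoc]
      have h3 := htwo (yw u) (List.replicate k 0 ++ (1 :: yw v)) []
      rw [List.append_assoc] at h3
      exact h3
    apply cf_ext
    intro t
    rw [cf_zero]
    rcases all_ones_or t with ht | ⟨u, n, v, hn, huv⟩
    · by_contra hne
      have hlen : 2 ≤ t.length := by
        by_contra hlt
        apply hne
        rw [cf_Th]
        apply dm_small hf
        rw [List.length_append, length_yw, List.length_replicate, ht, wt_replicate]
        simp only [PNat.one_coe]
        omega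
      obtain ⟨k, hk⟩ : ∃ k, t.length = k + 1 + 1 := ⟨t.length - 2, by omega⟩
      rw [hk] at ht
      have h3 := dd_one_ones (k + 1) ((Th f).coeff 1) (fun u v => hlet u (1 + 1) v (by simp))
      rw [List.replicate_succ, ((prim_iff _).mp (dm_prim hf 0)).2 1 1 [] _, ← ht] at h3
      have h4 : (((k + 1 : ℕ) : ℚ) + 1) ≠ 0 := by positivity
      exact hne ((mul_eq_zero.mp h3.symm).resolve_left h4)
    · rw [huv]; exact hlet u n v hn
  apply eq_zero_of_d1 hd (cf_lie_nil hf.1)
  intro a
  rw [cf_of_parse]
  have h3 : parse (a ++ [0]) = ((parse a).1, (parse a).2 + 1) := parse_append_zeros a 1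
  rw [h3]
  simp only
  rcases Nat.eq_zero_or_pos (parse a).2 with h4 | h4
  · rw [h4, zero_add, hF1]; rfl
  · rw [h _ (by omega)]; rfl

theorem two_le_natDegree {f : NC (Fin 2)} (hf : IsDM f) (hne : f ≠ 0) :
    2 ≤ (Th f).natDegree := by
  by_contra hlt
  apply hne
  apply lemmaC hf
  intro b hb
  exact Polynomial.coeff_eq_zero_of_natDegree_lt (by omega)

end

end Pool.Agent.H4DM
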