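import Mathlib

/-!
# The free Lie algebra over `ℚ` embeds in the free associative algebra

Dynkin's argument: the canonical Lie homomorphism from `FreeLieAlgebra ℚ X` into any associative
algebra `W` with an algebra homomorphism to the endomorphisms of `FreeLieAlgebra ℚ X × ℚ`
extending the obvious rule is injective.  Applied to `MonoidAlgebra ℚ (FreeMonoid X)`.
-/

set_option autoImplicit false

namespace Pool.Agent.H4FreeLie

attribute [local instance] LieRing.ofAssociativeRing

universe u
variable (X : Type u)

/-- The free Lie algebra. -/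
abbrev FL := FreeLieAlgebra ℚ X

/-- The Lie subalgebra generated by the generators is everything. -/
theorem subalgebra_eq_top {X : Type u} (K : LieSubalgebra ℚ (FL X))
    (h : ∀ x, FreeLieAlgebra.of ℚ x ∈ K) (a : FL X) : a ∈ K := by
  let F : FL X →ₗ⁅ℚ⁆ K := FreeLieAlgebra.lift ℚ (fun x => (⟨FreeLieAlgebra.of ℚ x, h x⟩ : K))
  have h1 : K.incl.comp F = LieHom.id := by
    apply FreeLieAlgebra.hom_ext
    intro x
    simp [F]
  have h2 : K.incl.comp F a = a := by rw [h1]; rfl
  rw [← h2]
  exact (F a).2

theorem fl_induction {X : Type u} {p : FL X → Prop}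
    (of : ∀ x, p (FreeLieAlgebra.of ℚ x)) (zero : p 0)
    (add : ∀ a b, p a → p b → p (a + b)) (smul : ∀ (c : ℚ) a, p a → p (c • a))
    (lie : ∀ a b, p a → p b → p ⁅a, b⁆) (a : FL X) : p a := by
  let K : LieSubalgebra ℚ (FL X) :=
    { carrier := {a | p a}
      add_mem' := fun {a b} ha hb => add a b ha hb
      zero_mem' := zero
      smul_mem' := fun c a ha => smul c a ha
      lie_mem' := fun {a b} ha hb => lie a b ha hb }
  exact subalgebra_eq_top K of a

/-- The operator on `FL × ℚ` attached to a generator. -/
noncomputable def gen {X : Type u} (x : X) : Module.End ℚ (FL X × ℚ) :=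
  LinearMap.prod
    ((LieAlgebra.ad ℚ (FL X) (FreeLieAlgebra.of ℚ x)).comp (LinearMap.fst ℚ _ _) +
      (LinearMap.toSpanSingleton ℚ (FL X) (FreeLieAlgebra.of ℚ x)).comp (LinearMap.snd ℚ _ _))
    0

theorem gen_apply {X : Type u} (x : X) (a : FL X) (c : ℚ) :
    gen x (a, c) = (⁅FreeLieAlgebra.of ℚ x, a⁆ + c • FreeLieAlgebra.of ℚ x, 0) := by
  simp [gen]

/-- The Lie homomorphism into the endomorphisms. -/
noncomputable def big : FL X →ₗ⁅ℚ⁆ Module.End ℚ (FL X × ℚ) :=
  FreeLieAlgebra.lift ℚ (fun x => gen x)

theorem big_of (x : X) : big X (FreeLieAlgebra.of ℚ x) = gen x := by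
  simp [big]

/-- The degree derivation. -/
noncomputable def deg (a : FL X) : FL X := (big X a (0, 1)).1

theorem big_apply (a : FL X) : (∀ b : FL X, big X a (b, 0) = (⁅a, b⁆, 0)) ∧
    (big X a (0, 1)).2 = 0 := by
  induction a using fl_induction with
  | of x =>
    constructor
    · intro b; rw [big_of, gen_apply]; simp
    · rw [big_of, gen_apply]
  | zero =>
    refine ⟨fun b => ?_, ?_⟩
    · rw [map_zero, zero_lie]; rfl
    · rw [map_zero]; rfl
  | add a b ha hb =>
    constructor
    · intro c; simp [ha.1, hb.1]
    · simp [ha.2, hb.2]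
  | smul c a ha =>
    constructor
    · intro b; simp [ha.1]
    · simp [ha.2]
  | lie a b ha hb =>
    have ha' : big X a (0, 1) = (deg X a, 0) := Prod.ext rfl ha.2
    have hb' : big X b (0, 1) = (deg X b, 0) := Prod.ext rfl hb.2
    constructor
    · intro c
      rw [LieHom.map_lie, LieRing.of_associative_ring_bracket]
      simp only [LinearMap.sub_apply, Module.End.mul_apply, ha.1, hb.1]
      rw [lie_lie]
      simp
    · rw [LieHom.map_lie, LieRing.of_associative_ring_bracket]
      simp only [LinearMap.sub_apply, Module.End.mul_apply, ha', hb', ha.1, hb.1]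
      simp

theorem big_one (a : FL X) : big X a (0, 1) = (deg X a, 0) := Prod.ext rfl (big_apply X a).2

/-- `deg` as a linear map. -/
noncomputable def degL : Module.End ℚ (FL X) where
  toFun := deg X
  map_add' a b := by simp [deg]
  map_smul' c a := by simp [deg]

theorem degL_of (x : X) : degL X (FreeLieAlgebra.of ℚ x) = FreeLieAlgebra.of ℚ x := by
  change deg X _ = _
  rw [deg, big_of, gen_apply]; simp

theorem degL_lie (a b : FL X) : degL X ⁅a, b⁆ = ⁅degL X a, b⁆ + ⁅a, degL X b⁆ := by
  change deg X _ = ⁅deg X a, b⁆ + ⁅a, deg X b⁆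
  have := big_one X ⁅a, b⁆
  rw [LieHom.map_lie, LieRing.of_associative_ring_bracket] at this
  simp only [LinearMap.sub_apply, Module.End.mul_apply, big_one, (big_apply X _).1] at this
  have h := congrArg Prod.fst this
  simp only [Prod.fst_sub] at h
  rw [← h, ← lie_skew b (deg X a)]
  abel

/-- Every element is a sum of eigenvectors of `deg` with positive integer eigenvalues. -/
theorem mem_iSup (a : FL X) :
    a ∈ ⨆ n : ℕ, Module.End.eigenspace (degL X) ((n : ℚ) + 1) := by
  induction a using fl_induction with
  | of x =>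
    refine Submodule.mem_iSup_of_mem 0 ?_
    rw [Module.End.mem_eigenspace_iff, degL_of]; simp
  | zero => exact Submodule.zero_mem _
  | add a b ha hb => exact Submodule.add_mem _ ha hb
  | smul c a ha => exact Submodule.smul_mem _ _ ha
  | lie a b ha hb =>
    induction ha using Submodule.iSup_induction' with
    | zero => simp
    | add x y _ _ hx hy => rw [add_lie]; exact Submodule.add_mem _ hx hy
    | mem i x hx =>
      induction hb using Submodule.iSup_induction' with
      | zero => simp
      | add u v _ _ hu hv => rw [lie_add]; exact Submodule.add_mem _ hu hv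
      | mem j y hy =>
        refine Submodule.mem_iSup_of_mem (i + j + 1) ?_
        rw [Module.End.mem_eigenspace_iff] at hx hy ⊢
        rw [degL_lie, hx, hy, smul_lie, lie_smul, ← add_smul]
        congr 1
        push_cast
        ring

theorem degL_injective {a : FL X} (h : degL X a = 0) : a = 0 := by
  have hind := (Module.End.eigenspaces_iSupIndep (degL X)).comp
    (f := fun n : ℕ => ((n : ℚ) + 1)) (by
      intro a b hab
      have : (a : ℚ) = b := by simpa using hab
      exact_mod_cast this)
  have hz : a ∈ Module.End.eigenspace (degL X) (0 : ℚ) := by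
    rw [Module.End.mem_eigenspace_iff, h]; simp
  have hind2 := (Module.End.eigenspaces_iSupIndep (degL X))
  have hdisj := hind2 (0 : ℚ)
  have hle : (⨆ n : ℕ, Module.End.eigenspace (degL X) ((n : ℚ) + 1)) ≤
      ⨆ (j : ℚ) (_ : j ≠ 0), Module.End.eigenspace (degL X) j := by
    refine iSup_le fun n => ?_
    refine le_iSup₂_of_le ((n : ℚ) + 1) ?_ le_rfl
    positivity
  have hmem := hle (mem_iSup X a)
  have := Submodule.disjoint_def.mp hdisj a hz hmem
  exact this

/-- The canonical map to noncommutative polynomials. -/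
noncomputable def toNC : FL X →ₗ⁅ℚ⁆ MonoidAlgebra ℚ (FreeMonoid X) :=
  FreeLieAlgebra.lift ℚ (fun x => MonoidAlgebra.of ℚ (FreeMonoid X) (FreeMonoid.of x))

/-- The free Lie algebra over `ℚ` embeds in the algebra of noncommutative polynomials. -/
theorem toNC_injective : Function.Injective (toNC X) := by
  rw [injective_iff_map_eq_zero]
  intro a ha
  let P : MonoidAlgebra ℚ (FreeMonoid X) →ₐ[ℚ] Module.End ℚ (FL X × ℚ) :=
    MonoidAlgebra.lift ℚ _ (FreeMonoid X) (FreeMonoid.lift (fun x => gen x))
  have hP : (P.toLieHom).comp (toNC X) = big X := by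
    apply FreeLieAlgebra.hom_ext
    intro x
    rw [big_of]
    simp [toNC, P]
  have h1 : big X a = 0 := by
    rw [← hP]
    simp [ha]
  apply degL_injective X
  change (big X a (0, 1)).1 = 0
  rw [h1]
  rfl

end Pool.Agent.H4FreeLie
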