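import Mathlib
import Pool.Agent.Lib.H4DMPrimB
import Pool.Agent.Lib.H4Grade
import Pool.Agent.Lib.H4FreeLie

/-!
# From independence of the operators to freeness of the Lie algebra
-/

set_option autoImplicit false

open Polynomial

namespace Pool.Agent.H4DM

noncomputable section

attribute [local instance] LieRing.ofAssociativeRing

/-- `sOp` as a Lie homomorphism from the Ihara Lie algebra to endomorphisms. -/
def sOpL : IharaLie →ₗ⁅ℚ⁆ Module.End ℚ (NC (Fin 2)) where
  toFun f := sOp f.val
  map_add' a b := sOp_add a.val b.val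
  map_smul' c a := sOp_smul c a.val
  map_lie' := by
    intro a b
    rw [LieRing.of_associative_ring_bracket]
    exact sOp_ihBr a.val b.val

theorem cf_ihDer_nil (f h : NC (Fin 2)) (hf : cf f [] = 0) : cf (ihDer f h) [] = 0 := by
  induction h using nc_induction with
  | hw l =>
    rcases l with _ | ⟨a, l⟩
    · rw [wd_nil, ihDer_one]; rfl
    · rw [wd_cons, ihDer_mul, cf_add, cf_mul_nil, cf_mul_nil]
      have h1 : cf (ihDer f (wd [a])) [] = 0 := by
        have h0 : ihDer f (wd [a]) = if a = 1 then x1 * f - f * x1 else 0 := by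
          rw [ihDer, der_letter]
        rw [h0]
        split_ifs
        · rw [cf_sub, cf_mul_nil, cf_mul_nil, hf]; ring
        · rfl
      have h2 : cf (wd [a]) [] = 0 := by rw [cf_wd, if_neg (by simp)]
      rw [h1, h2]; ring
  | zero => simp
  | add a b ha hb => rw [map_add, cf_add, ha, hb, add_zero]
  | smul c a ha => rw [map_smul, cf_smul, ha, mul_zero]

theorem cf_sOp_nil (f h : NC (Fin 2)) (hf : cf f [] = 0) : cf (sOp f h) [] = 0 := by
  rw [sOp_apply, cf_add, cf_mul_nil, hf, cf_ihDer_nil f h hf]; ring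

theorem exists_length_bound {α : Type} (p : NC α) : ∃ N, ∀ l, N ≤ l.length → cf p l = 0 := by
  classical
  induction p using nc_induction with
  | hw m =>
    refine ⟨m.length + 1, fun l hl => ?_⟩
    rw [cf_wd, if_neg]
    rintro rfl
    omega
  | zero => exact ⟨0, fun _ _ => rfl⟩
  | add a b ha hb =>
    obtain ⟨N, hN⟩ := ha
    obtain ⟨M, hM⟩ := hb
    exact ⟨max N M, fun l hl => by
      rw [cf_add, hN l (le_trans (le_max_left _ _) hl), hM l (le_trans (le_max_right _ _) hl),
        add_zero]⟩
  | smul c a ha =>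
    obtain ⟨N, hN⟩ := ha
    exact ⟨N, fun l hl => by rw [cf_smul, hN l hl, mul_zero]⟩

section
variable {ι : Type} [Fintype ι] [DecidableEq ι]

theorem nc_decomp (P : NC ι) : P = (cf P []) • (1 : NC ι) + ∑ i, wd [i] * lq1 i P := by
  have : (LinearMap.id : NC ι →ₗ[ℚ] NC ι) =
      (LinearMap.toSpanSingleton ℚ (NC ι) 1) ∘ₗ (cfL []) +
        ∑ i, LinearMap.mulLeft ℚ (wd [i]) ∘ₗ lq1 i := by
    apply lin_ext
    intro l
    simp only [LinearMap.id_apply, LinearMap.add_apply, LinearMap.comp_apply,
      LinearMap.sum_apply, LinearMap.mulLeft_apply]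
    have h0 : (LinearMap.toSpanSingleton ℚ (NC ι) 1) ((cfL []) (wd l)) =
      cf (wd l) [] • (1 : NC ι) := rfl
    rw [h0]
    rcases l with _ | ⟨a, t⟩
    · simp only [lq1_nil, mul_zero, Finset.sum_const_zero, add_zero]
      rw [wd_nil, cf_one_nil, one_smul]
    · simp only [lq1_wd_cons]
      rw [cf_wd, if_neg (by simp), zero_smul, zero_add]
      have : ∀ i, wd [i] * (if a = i then wd t else 0) =
          if a = i then wd (a :: t) else (0 : NC ι) := by
        intro i
        split_ifs with h
        · subst h; rw [← wd_cons]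
        · rw [mul_zero]
      simp only [this]
      rw [Finset.sum_ite_eq]
      simp
  have h2 := LinearMap.congr_fun this P
  simp only [LinearMap.id_apply, LinearMap.add_apply, LinearMap.comp_apply,
      LinearMap.sum_apply, LinearMap.mulLeft_apply] at h2
  exact h2

/-- Evaluation of noncommutative polynomials on the operators `sOp (ψ i)`. -/
def evA (ψ : ι → IharaLie) : NC ι →ₐ[ℚ] Module.End ℚ (NC (Fin 2)) :=
  MonoidAlgebra.lift ℚ (Module.End ℚ (NC (Fin 2))) (FreeMonoid ι)
    (FreeMonoid.lift (fun i => sOp (ψ i).val))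

omit [Fintype ι] [DecidableEq ι] in
theorem evA_letter (ψ : ι → IharaLie) (i : ι) : evA ψ (wd [i]) = sOp (ψ i).val := by
  simp [evA, wd]

theorem evA_decomp (ψ : ι → IharaLie) (P : NC ι) :
    evA ψ P 1 = (cf P []) • 1 + ∑ i, sOp (ψ i).val (evA ψ (lq1 i P) 1) := by
  conv_lhs => rw [nc_decomp P]
  rw [map_add, map_smul, map_one (evA ψ), LinearMap.add_apply, LinearMap.smul_apply, map_sum,
    LinearMap.sum_apply, Module.End.one_apply]
  congr 1
  apply Finset.sum_congr rfl
  intro i _
  rw [map_mul, evA_letter]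
  rfl

theorem evA_injective (ψ : ι → IharaLie) (h0 : ∀ i, cf (ψ i).val [] = 0)
    (hind : ∀ h : ι → NC (Fin 2), ∑ i, sOp (ψ i).val (h i) = 0 → ∀ i, h i = 0)
    (N : ℕ) : ∀ P : NC ι, (∀ l, N ≤ l.length → cf P l = 0) → evA ψ P 1 = 0 → P = 0 := by
  induction N with
  | zero =>
    intro P hP _
    exact cf_ext (fun l => by rw [hP l (Nat.zero_le _)]; rfl)
  | succ N ih =>
    intro P hP he
    rw [evA_decomp] at he
    have h1 : cf P [] = 0 := by
      have h2 := congrArg (fun q => cf q []) he
      rw [cf_add, cf_smul, cf_one_nil, cf_sum,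
        Finset.sum_eq_zero (fun i _ => cf_sOp_nil _ _ (h0 i)), mul_one, add_zero] at h2
      exact h2
    rw [h1, zero_smul, zero_add] at he
    have h3 := hind _ he
    have h4 : ∀ i, lq1 i P = 0 := by
      intro i
      apply ih _ _ (h3 i)
      intro l hl
      rw [cf_lq1]
      exact hP _ (by simp only [List.length_cons]; omega)
    rw [nc_decomp P, h1, zero_smul, zero_add]
    apply Finset.sum_eq_zero
    intro i _
    rw [h4, mul_zero]

/-- If the operators `sOp (ψ i)` are jointly independent, then the `ψ i` freely generate a free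
Lie algebra under the Ihara bracket. -/
theorem lift_injective (ψ : ι → IharaLie) (h0 : ∀ i, cf (ψ i).val [] = 0)
    (hind : ∀ h : ι → NC (Fin 2), ∑ i, sOp (ψ i).val (h i) = 0 → ∀ i, h i = 0) :
    Function.Injective (FreeLieAlgebra.lift ℚ ψ) := by
  rw [injective_iff_map_eq_zero]
  intro a ha
  have hP : ((evA ψ).toLieHom).comp (H4FreeLie.toNC ι) = sOpL.comp (FreeLieAlgebra.lift ℚ ψ) := by
    apply FreeLieAlgebra.hom_ext
    intro x
    have h1 : (H4FreeLie.toNC ι) (FreeLieAlgebra.of ℚ x) = wd [x] := by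
      simp [H4FreeLie.toNC]; rfl
    have h2 : (FreeLieAlgebra.lift ℚ ψ) (FreeLieAlgebra.of ℚ x) = ψ x := by simp
    rw [LieHom.comp_apply, LieHom.comp_apply, h1, h2]
    exact evA_letter ψ x
  have h1 : evA ψ (H4FreeLie.toNC ι a) = 0 := by
    have := congrArg (fun F => F a) hP
    simp only [LieHom.comp_apply] at this
    rw [ha, map_zero] at this
    exact this
  apply H4FreeLie.toNC_injective ι
  rw [map_zero]
  obtain ⟨N, hN⟩ := exists_length_bound (H4FreeLie.toNC ι a : NC ι)
  exact evA_injective ψ h0 hind N _ hN (by rw [h1]; rfl)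

end

end

end Pool.Agent.H4DM
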