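import Mathlib
import Pool.Agent.Lib.H4DMLemmaC

/-!
# The key independence statement
-/

set_option autoImplicit false

open Polynomial

namespace Pool.Agent.H4DM

noncomputable section

theorem coeff_mul_next {R : Type*} [Ring R] (p q : R[X]) (hq : 1 ≤ q.natDegree) :
    (p * q).coeff (p.natDegree + q.natDegree - 1) =
      p.leadingCoeff * q.coeff (q.natDegree - 1) + p.nextCoeff * q.leadingCoeff := by
  have h1 : p * q = C p.leadingCoeff * (X ^ p.natDegree * q) + p.eraseLead * q := by
    conv_lhs => rw [← Polynomial.eraseLead_add_C_mul_X_pow p]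
    rw [add_mul, add_comm, mul_assoc]
  have h2 : p.natDegree + q.natDegree - 1 = (q.natDegree - 1) + p.natDegree := by omega
  rw [h1, Polynomial.coeff_add, Polynomial.coeff_C_mul]
  congr 1
  · rw [h2, Polynomial.coeff_X_pow_mul]
  · rcases Nat.eq_zero_or_pos p.natDegree with h | h
    · rw [Polynomial.nextCoeff, if_pos h, zero_mul]
      have : p.eraseLead = 0 := by
        have h3 := Polynomial.eq_C_of_natDegree_eq_zero h
        rw [h3]
        exact Polynomial.eraseLead_C _
      rw [this, zero_mul, Polynomial.coeff_zero]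
    · rw [Polynomial.nextCoeff, if_neg (by omega)]
      have h3 : p.natDegree + q.natDegree - 1 = (p.natDegree - 1) + q.natDegree := by omega
      have h4 : p.eraseLead.natDegree ≤ p.natDegree - 1 := Polynomial.eraseLead_natDegree_le p
      rw [h3, Polynomial.coeff_mul_add_eq_of_natDegree_le h4 le_rfl, Polynomial.eraseLead_coeff,
        if_neg (by omega)]
      rfl

theorem Th_ne_zero {h : NC (Fin 2)} (hh : h ≠ 0) : Th h ≠ 0 := by
  intro h0
  apply hh
  apply Th_injective
  rw [h0, map_zero]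

theorem coeff_eq {f g h k : NC (Fin 2)} (hs : sOp f h + sOp g k = 0) (n : ℕ) :
    (Th h * Th f).coeff n + delT f ((Th h).coeff n) +
      ((Th k * Th g).coeff n + delT g ((Th k).coeff n)) = 0 := by
  rw [← Th_sOp_coeff, ← Th_sOp_coeff, ← Polynomial.coeff_add, ← map_add, hs, map_zero,
    Polynomial.coeff_zero]

theorem sOp_ne_zero {f h : NC (Fin 2)} (hf : 1 ≤ (Th f).natDegree) (hh : h ≠ 0) :
    sOp f h ≠ 0 := by
  intro h0
  have h1 := Th_sOp_coeff f h ((Th h).natDegree + (Th f).natDegree)
  rw [h0, map_zero, Polynomial.coeff_zero, Polynomial.coeff_mul_degree_add_degree,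
    Polynomial.coeff_eq_zero_of_natDegree_lt (show (Th h).natDegree < _ by omega), map_zero,
    add_zero] at h1
  have hf0 : Th f ≠ 0 := by
    intro h2; rw [h2] at hf; simp at hf
  rcases mul_eq_zero.mp h1.symm with h2 | h2
  · exact Th_ne_zero hh (Polynomial.leadingCoeff_eq_zero.mp h2)
  · exact hf0 (Polynomial.leadingCoeff_eq_zero.mp h2)

theorem deg_le {f g h k : NC (Fin 2)} (hf : 1 ≤ (Th f).natDegree)
    (hh : h ≠ 0) (hs : sOp f h + sOp g k = 0) :
    (Th h).natDegree + (Th f).natDegree ≤ (Th k).natDegree + (Th g).natDegree := by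
  by_contra hlt
  push Not at hlt
  have h1 := coeff_eq hs ((Th h).natDegree + (Th f).natDegree)
  rw [Polynomial.coeff_mul_degree_add_degree,
    Polynomial.coeff_eq_zero_of_natDegree_lt (show (Th h).natDegree < _ by omega),
    Polynomial.coeff_eq_zero_of_natDegree_lt (show (Th k).natDegree < _ by omega),
    Polynomial.coeff_eq_zero_of_natDegree_lt
      (lt_of_le_of_lt (Polynomial.natDegree_mul_le (p := Th k) (q := Th g)) hlt),
    map_zero, map_zero, add_zero, add_zero, add_zero] at h1
  have hf0 : Th f ≠ 0 := by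
    intro h2; rw [h2] at hf; simp at hf
  rcases mul_eq_zero.mp h1 with h2 | h2
  · exact Th_ne_zero hh (Polynomial.leadingCoeff_eq_zero.mp h2)
  · exact hf0 (Polynomial.leadingCoeff_eq_zero.mp h2)

theorem Hg_nextCoeff {h : NC (Fin 2)} {n m : ℕ} (hh : Hg wX n h) (hm : m + (Th h).natDegree = n) :
    Hg wY (m + 1) (Th h).nextCoeff := by
  rw [Polynomial.nextCoeff]
  split_ifs with h0
  · exact Hg.zero _
  · intro t ht
    have := Hg_Th hh _ t ht
    omega

theorem key_aux {f g h k : NC (Fin 2)} (hf : IsDM f) (hg : IsDM g) {w w' n₁ n₂ : ℕ}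
    (hwf : Hg wX w f) (hwg : Hg wX w' g) (hf0 : f ≠ 0) (hg0 : g ≠ 0)
    (hh : Hg wX n₁ h) (hk : Hg wX n₂ k) (hh0 : h ≠ 0) (hk0 : k ≠ 0) (hN : w + n₁ = w' + n₂)
    (hs : sOp f h + sOp g k = 0)
    (hle : w + (Th g).natDegree ≤ w' + (Th f).natDegree) :
    w = w' ∧ (Th f).natDegree = (Th g).natDegree ∧
      ∃ c : ℚ, (Th g).leadingCoeff = c • (Th f).leadingCoeff := by
  have hβ := two_le_natDegree hf hf0
  have hγ := two_le_natDegree hg hg0
  have hs' : sOp g k + sOp f h = 0 := by rw [add_comm]; exact hs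
  have hdeg : (Th h).natDegree + (Th f).natDegree = (Th k).natDegree + (Th g).natDegree :=
    le_antisymm (deg_le (by omega) hh0 hs) (deg_le (by omega) hk0 hs')
  have hlF : (Th f).leadingCoeff ≠ 0 := by
    rw [Ne, Polynomial.leadingCoeff_eq_zero]; exact Th_ne_zero hf0
  have hlG : (Th g).leadingCoeff ≠ 0 := by
    rw [Ne, Polynomial.leadingCoeff_eq_zero]; exact Th_ne_zero hg0
  have hlH : (Th h).leadingCoeff ≠ 0 := by
    rw [Ne, Polynomial.leadingCoeff_eq_zero]; exact Th_ne_zero hh0
  have hlK : (Th k).leadingCoeff ≠ 0 := by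
    rw [Ne, Polynomial.leadingCoeff_eq_zero]; exact Th_ne_zero hk0
  have hleF : (Th f).natDegree ≤ w := Th_coeff_le hwf hlF
  have hleG : (Th g).natDegree ≤ w' := Th_coeff_le hwg hlG
  have hleH : (Th h).natDegree ≤ n₁ := Th_coeff_le hh hlH
  have hleK : (Th k).natDegree ≤ n₂ := Th_coeff_le hk hlK
  have hHF : Hg wY (w - (Th f).natDegree) (Th f).leadingCoeff := Hg_Th_coeff hwf _
  have hHG : Hg wY (w' - (Th g).natDegree) (Th g).leadingCoeff := Hg_Th_coeff hwg _
  have hHH : Hg wY (n₁ - (Th h).natDegree) (Th h).leadingCoeff := Hg_Th_coeff hh _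
  have hHK : Hg wY (n₂ - (Th k).natDegree) (Th k).leadingCoeff := Hg_Th_coeff hk _
  have hPF : ∀ i, 1 ≤ i → Prim ((Th f).coeff i) := by
    intro i hi
    obtain ⟨j, rfl⟩ : ∃ j, i = j + 1 := ⟨i - 1, by omega⟩
    exact dm_prim hf j
  have hPG : ∀ i, 1 ≤ i → Prim ((Th g).coeff i) := by
    intro i hi
    obtain ⟨j, rfl⟩ : ∃ j, i = j + 1 := ⟨i - 1, by omega⟩
    exact dm_prim hg j
  -- top coefficient
  have e1 := coeff_eq hs ((Th h).natDegree + (Th f).natDegree)
  rw [Polynomial.coeff_mul_degree_add_degree,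
    Polynomial.coeff_eq_zero_of_natDegree_lt (show (Th h).natDegree < _ by omega),
    Polynomial.coeff_eq_zero_of_natDegree_lt (show (Th k).natDegree < _ by omega),
    hdeg, Polynomial.coeff_mul_degree_add_degree,
    map_zero, map_zero, add_zero, add_zero] at e1
  obtain ⟨Q, hQ⟩ := left_quotient wY_pos hHH hHK (by omega) hlK e1
  obtain ⟨c, hc⟩ := prim_left_mul hHF hlF (hPF _ (by omega))
    (by rw [← hQ]; exact hPG _ (by omega))
  rw [← hQ] at hc
  have hc0 : c ≠ 0 := by
    rintro rfl
    rw [zero_smul] at hc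
    exact hlG hc
  have hp : w - (Th f).natDegree = w' - (Th g).natDegree := by
    apply Hg.unique (hHF.smul c) _ (by rw [← hc]; exact hlG)
    rw [← hc]; exact hHG
  have hm : n₁ - (Th h).natDegree = n₂ - (Th k).natDegree := by omega
  -- relation between the leading coefficients of `h` and `k`
  have e2 : (Th h).leadingCoeff = -(c • (Th k).leadingCoeff) := by
    rw [hc, mul_smul_comm, ← smul_mul_assoc, ← add_mul] at e1
    rcases mul_eq_zero.mp e1 with h2 | h2
    · exact eq_neg_of_add_eq_zero_left h2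
    · exact absurd h2 hlF
  -- next coefficient
  have e3 := coeff_eq hs ((Th h).natDegree + (Th f).natDegree - 1)
  rw [coeff_mul_next _ _ (by omega),
    Polynomial.coeff_eq_zero_of_natDegree_lt (show (Th h).natDegree < _ by omega),
    Polynomial.coeff_eq_zero_of_natDegree_lt (show (Th k).natDegree < _ by omega),
    hdeg, coeff_mul_next _ _ (by omega), map_zero, map_zero, add_zero, add_zero, e2, hc] at e3
  have e4 : ((Th h).nextCoeff + c • (Th k).nextCoeff) * (Th f).leadingCoeff +
      (Th k).leadingCoeff *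
        ((Th g).coeff ((Th g).natDegree - 1) - c • (Th f).coeff ((Th f).natDegree - 1)) = 0 := by
    rw [← e3]
    simp only [add_mul, mul_sub, smul_mul_assoc, mul_smul_comm, neg_mul]
    abel
  have hρ : Hg wY ((n₂ - (Th k).natDegree) + 1)
      ((Th h).nextCoeff + c • (Th k).nextCoeff) := by
    apply Hg.add
    · rw [← hm]
      exact Hg_nextCoeff hh (by omega)
    · exact (Hg_nextCoeff hk (by omega)).smul c
  obtain ⟨Q', hQ'⟩ := left_quotient wY_pos hρ hHK (by omega) hlK e4
  have hPκ : Prim ((Th g).coeff ((Th g).natDegree - 1) - c • (Th f).coeff ((Th f).natDegree - 1)) :=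
    (hPG _ (by omega)).sub ((hPF _ (by omega)).smul c)
  obtain ⟨c', hc'⟩ := prim_left_mul hHF hlF (hPF _ (by omega)) (by rw [← hQ']; exact hPκ)
  rw [← hQ'] at hc'
  have hκ : (Th g).coeff ((Th g).natDegree - 1) - c • (Th f).coeff ((Th f).natDegree - 1) = 0 := by
    by_contra hne
    have h1 : Hg wY (w - (Th f).natDegree + 1)
        ((Th g).coeff ((Th g).natDegree - 1) - c • (Th f).coeff ((Th f).natDegree - 1)) := by
      apply Hg.sub
      · intro t ht
        have := Hg_Th hwg _ t ht
        omega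
      · apply Hg.smul
        intro t ht
        have := Hg_Th hwf _ t ht
        omega
    have h2 : Hg wY (w - (Th f).natDegree)
        ((Th g).coeff ((Th g).natDegree - 1) - c • (Th f).coeff ((Th f).natDegree - 1)) := by
      rw [hc']; exact hHF.smul c'
    have := Hg.unique h1 h2 hne
    omega
  rw [sub_eq_zero] at hκ
  -- compare degrees through the recursion
  have r1 := dm_rec hf ((Th f).natDegree - 1)
  have r2 := dm_rec hg ((Th g).natDegree - 1)
  rw [hκ, map_smul, ← smul_neg, ← r1] at r2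
  have s1 : (Th f).natDegree - 1 + 1 = (Th f).natDegree := by omega
  have s2 : (Th g).natDegree - 1 + 1 = (Th g).natDegree := by omega
  rw [s1, s2] at r2
  change _ • (Th g).leadingCoeff = c • _ • (Th f).leadingCoeff at r2
  rw [hc, smul_smul, smul_smul, ← sub_eq_zero, ← sub_smul] at r2
  have r3 : (((((Th g).natDegree - 1 : ℕ) : ℚ) + 1) * c -
      c * ((((Th f).natDegree - 1 : ℕ) : ℚ) + 1)) = 0 :=
    (smul_eq_zero.mp r2).resolve_right hlF
  have r4 : (((Th g).natDegree - 1 : ℕ) : ℚ) = (((Th f).natDegree - 1 : ℕ) : ℚ) := by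
    have : c * ((((Th g).natDegree - 1 : ℕ) : ℚ) - (((Th f).natDegree - 1 : ℕ) : ℚ)) = 0 := by
      rw [← r3]; ring
    exact sub_eq_zero.mp ((mul_eq_zero.mp this).resolve_left hc0)
  have r5 : (Th g).natDegree - 1 = (Th f).natDegree - 1 := by exact_mod_cast r4
  exact ⟨by omega, by omega, c, hc⟩

theorem key {f g h k : NC (Fin 2)} (hf : IsDM f) (hg : IsDM g) {w w' n₁ n₂ : ℕ}
    (hwf : Hg wX w f) (hwg : Hg wX w' g) (hf0 : f ≠ 0) (hg0 : g ≠ 0)
    (hh : Hg wX n₁ h) (hk : Hg wX n₂ k) (hh0 : h ≠ 0) (hk0 : k ≠ 0) (hN : w + n₁ = w' + n₂)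
    (hs : sOp f h + sOp g k = 0) :
    w = w' ∧ (Th f).natDegree = (Th g).natDegree ∧
      ∃ c : ℚ, (Th g).leadingCoeff = c • (Th f).leadingCoeff := by
  rcases le_total (w + (Th g).natDegree) (w' + (Th f).natDegree) with hle | hle
  · exact key_aux hf hg hwf hwg hf0 hg0 hh hk hh0 hk0 hN hs hle
  · obtain ⟨h1, h2, c, hc⟩ := key_aux hg hf hwg hwf hg0 hf0 hk hh hk0 hh0 hN.symm
      (by rw [add_comm]; exact hs) hle
    refine ⟨h1.symm, h2.symm, c⁻¹, ?_⟩
    have hc0 : c ≠ 0 := by
      rintro rfl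
      rw [zero_smul, Polynomial.leadingCoeff_eq_zero] at hc
      exact Th_ne_zero hf0 hc
    rw [hc, smul_smul, inv_mul_cancel₀ hc0, one_smul]

/-! ### Reduction to top components -/

theorem comp_linear_graded {α β : Type} (w : α → ℕ) (w' : β → ℕ) (L : NC α →ₗ[ℚ] NC β) (i : ℕ)
    (hL : ∀ l, Hg w' (wt w l + i) (L (wd l))) {j : ℕ} {p : NC α} (hp : Hg w j p) :
    Hg w' (j + i) (L p) := by
  apply Hg_of_comp
  have : comp w' (j + i) ∘ₗ L = L ∘ₗ comp w j := by
    apply lin_ext
    intro l
    simp only [LinearMap.comp_apply]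
    rw [comp_wd]
    split_ifs with h
    · rw [← h]; exact (hL l).comp_eq
    · rw [map_zero]
      exact (hL l).comp_ne (by omega)
  have h2 := LinearMap.congr_fun this p
  simp only [LinearMap.comp_apply] at h2
  rw [h2, hp.comp_eq]

theorem Hg_ihDer {f h : NC (Fin 2)} {i j : ℕ} (hf : Hg wX i f) (hh : Hg wX j h) :
    Hg wX (j + i) (ihDer f h) := by
  apply comp_linear_graded wX wX (ihDer f) i _ hh
  intro l
  induction l with
  | nil => rw [wd_nil, ihDer_one]; exact Hg.zero _
  | cons a l ih =>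
    rw [wd_cons, ihDer_mul, wt_cons]
    have ha : Hg wX (1 + i) (ihDer f (wd [a])) := by
      have h0 : ihDer f (wd [a]) = if a = 1 then x1 * f - f * x1 else 0 := by
        rw [ihDer, der_letter]
      rw [h0]
      split_ifs
      · have h1 : Hg wX 1 x1 := Hg_wd (w := wX) [1]
        apply Hg.sub
        · exact h1.mul hf
        · have := hf.mul h1
          rwa [add_comm] at this
      · exact Hg.zero _
    apply Hg.add
    · have := ha.mul (Hg_wd (w := wX) l)
      have e : 1 + i + wt wX l = wX a + wt wX l + i := by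
        change 1 + i + wt wX l = 1 + wt wX l + i
        omega
      rwa [e] at this
    · have := (Hg_wd (w := wX) [a]).mul ih
      have e : wt wX [a] + (wt wX l + i) = wX a + wt wX l + i := by
        rw [wt_cons, wt_nil]; omega
      rwa [e] at this

theorem Hg_sOp {f h : NC (Fin 2)} {i j : ℕ} (hf : Hg wX i f) (hh : Hg wX j h) :
    Hg wX (i + j) (sOp f h) := by
  rw [sOp_apply]
  apply Hg.add (hf.mul hh)
  rw [add_comm]
  exact Hg_ihDer hf hh

theorem comp_zero_of_lt {α : Type} {w : α → ℕ} {p : NC α} {n : ℕ} (h : (Gr w p).natDegree < n) :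
    comp w n p = 0 := by
  rw [comp_apply]
  exact Polynomial.coeff_eq_zero_of_natDegree_lt h

theorem comp_sOp (f h : NC (Fin 2)) (N : ℕ) :
    comp wX N (sOp f h) =
      ∑ x ∈ Finset.HasAntidiagonal.antidiagonal N, sOp (comp wX x.1 f) (comp wX x.2 h) := by
  -- the right hand side as a sum over a big square
  set A := (Gr wX f).natDegree + N + 1 with hA
  set B := (Gr wX h).natDegree + N + 1 with hB
  have hf := sum_comp (w := wX) f A (by omega)
  have hh := sum_comp (w := wX) h B (by omega)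
  have h1 : sOp f h = ∑ i ∈ Finset.range A, ∑ j ∈ Finset.range B,
      sOp (comp wX i f) (comp wX j h) := by
    conv_lhs => rw [← hf, ← hh]
    have hadd : ∀ (s : Finset ℕ) (F : ℕ → NC (Fin 2)) (y : NC (Fin 2)),
        sOp (∑ i ∈ s, F i) y = ∑ i ∈ s, sOp (F i) y := by
      intro s F y
      classical
      induction s using Finset.induction_on with
      | empty =>
        rw [Finset.sum_empty, Finset.sum_empty]
        have : sOp (0 : NC (Fin 2)) = 0 := by
          have := sOp_smul 0 (0 : NC (Fin 2))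
          simpa using this
        rw [this]; rfl
      | insert a s ha ih =>
        rw [Finset.sum_insert ha, Finset.sum_insert ha, sOp_add, LinearMap.add_apply, ih]
    rw [hadd]
    apply Finset.sum_congr rfl
    intro i _
    rw [map_sum]
  rw [h1, map_sum]
  simp only [map_sum]
  have h2 : ∀ i j, comp wX N (sOp (comp wX i f) (comp wX j h)) =
      if i + j = N then sOp (comp wX i f) (comp wX j h) else 0 := by
    intro i j
    have := Hg_sOp (Hg_comp (w := wX) i f) (Hg_comp (w := wX) j h)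
    split_ifs with hij
    · rw [← hij]; exact this.comp_eq
    · exact this.comp_ne (fun h' => hij h'.symm)
  simp only [h2]
  rw [← Finset.sum_product', ← Finset.sum_filter]
  apply Finset.sum_congr _ (fun _ _ => rfl)
  ext ⟨i, j⟩
  rw [Finset.mem_filter, Finset.mem_product, Finset.mem_range, Finset.mem_range,
    Finset.HasAntidiagonal.mem_antidiagonal]
  simp only
  constructor
  · intro h; exact h.2
  · intro h; exact ⟨⟨by omega, by omega⟩, h⟩

theorem sOp_zero_right (f : NC (Fin 2)) : sOp f 0 = 0 := map_zero _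

theorem sOp_zero_left (h : NC (Fin 2)) : sOp 0 h = 0 := by
  have := sOp_smul 0 (0 : NC (Fin 2))
  rw [smul_zero, zero_smul] at this
  rw [this]; rfl

/-- The component of weight `N` of `sOp f h`, when `N` is at least the sum of the degrees. -/
theorem comp_sOp_top (f h : NC (Fin 2)) :
    comp wX ((Gr wX f).natDegree + (Gr wX h).natDegree) (sOp f h) =
      sOp (comp wX (Gr wX f).natDegree f) (comp wX (Gr wX h).natDegree h) := by
  rw [comp_sOp, Finset.sum_eq_single ((Gr wX f).natDegree, (Gr wX h).natDegree)]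
  · rintro ⟨i, j⟩ hij hne
    rw [Finset.HasAntidiagonal.mem_antidiagonal] at hij
    simp only at hij ⊢
    rcases lt_trichotomy i (Gr wX f).natDegree with h1 | h1 | h1
    · rw [comp_zero_of_lt (p := h) (n := j) (by omega), sOp_zero_right]
    · exfalso; apply hne; rw [Prod.mk.injEq]; omega
    · rw [comp_zero_of_lt (p := f) (n := i) h1, sOp_zero_left]
  · intro h'
    exfalso
    apply h'
    rw [Finset.HasAntidiagonal.mem_antidiagonal]

theorem comp_sOp_lt (f h : NC (Fin 2)) {N : ℕ}
    (hN : (Gr wX f).natDegree + (Gr wX h).natDegree < N) :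
    comp wX N (sOp f h) = 0 := by
  rw [comp_sOp]
  apply Finset.sum_eq_zero
  rintro ⟨i, j⟩ hij
  rw [Finset.HasAntidiagonal.mem_antidiagonal] at hij
  simp only at hij ⊢
  rcases lt_or_ge (Gr wX f).natDegree i with h1 | h1
  · rw [comp_zero_of_lt (p := f) (n := i) h1, sOp_zero_left]
  · rw [comp_zero_of_lt (p := h) (n := j) (by omega), sOp_zero_right]

theorem top_ne_zero {α : Type} {w : α → ℕ} {p : NC α} (hp : p ≠ 0) :
    comp w (Gr w p).natDegree p ≠ 0 := by
  rw [comp_apply]
  change (Gr w p).leadingCoeff ≠ 0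
  rw [Ne, Polynomial.leadingCoeff_eq_zero]
  exact Gr_ne_zero hp

/-- Two elements of `dm` whose top components do not have proportional leading data. -/
theorem indep_of_np {ψ g : NC (Fin 2)} (hψ : IsDM ψ) (hg : IsDM g) (hψ0 : ψ ≠ 0) (hg0 : g ≠ 0)
    (hnp : ¬ ((Gr wX ψ).natDegree = (Gr wX g).natDegree ∧
      (Th (comp wX (Gr wX ψ).natDegree ψ)).natDegree =
        (Th (comp wX (Gr wX g).natDegree g)).natDegree ∧
      ∃ c : ℚ, (Th (comp wX (Gr wX g).natDegree g)).leadingCoeff =
        c • (Th (comp wX (Gr wX ψ).natDegree ψ)).leadingCoeff))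
    {h k : NC (Fin 2)} (hs : sOp ψ h + sOp g k = 0) : h = 0 ∧ k = 0 := by
  have hd1 : 2 ≤ (Th ψ).natDegree := two_le_natDegree hψ hψ0
  have hd2 : 2 ≤ (Th g).natDegree := two_le_natDegree hg hg0
  by_cases hh0 : h = 0
  · refine ⟨hh0, ?_⟩
    by_contra hk0
    rw [hh0, sOp_zero_right, zero_add] at hs
    exact sOp_ne_zero (by omega) hk0 hs
  by_cases hk0 : k = 0
  · exfalso
    rw [hk0, sOp_zero_right, add_zero] at hs
    exact sOp_ne_zero (by omega) hh0 hs
  exfalso
  have tψ := top_ne_zero (w := wX) hψ0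
  have tg := top_ne_zero (w := wX) hg0
  have th := top_ne_zero (w := wX) hh0
  have tk := top_ne_zero (w := wX) hk0
  have dψ := two_le_natDegree (hψ.comp (Gr wX ψ).natDegree) tψ
  have dg := two_le_natDegree (hg.comp (Gr wX g).natDegree) tg
  rcases lt_trichotomy ((Gr wX ψ).natDegree + (Gr wX h).natDegree)
    ((Gr wX g).natDegree + (Gr wX k).natDegree) with hlt | heq | hlt
  · have h1 := congrArg (comp wX ((Gr wX g).natDegree + (Gr wX k).natDegree)) hs
    rw [map_add, comp_sOp_lt ψ h hlt, comp_sOp_top, map_zero, zero_add] at h1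
    exact sOp_ne_zero (by omega) tk h1
  · have h1 := congrArg (comp wX ((Gr wX ψ).natDegree + (Gr wX h).natDegree)) hs
    rw [map_add, comp_sOp_top, heq, comp_sOp_top, map_zero] at h1
    exact hnp (key (hψ.comp _) (hg.comp _) (Hg_comp _ _) (Hg_comp _ _) tψ tg (Hg_comp _ _)
      (Hg_comp _ _) th tk heq h1)
  · have h1 := congrArg (comp wX ((Gr wX ψ).natDegree + (Gr wX h).natDegree)) hs
    rw [map_add, comp_sOp_lt g k hlt, comp_sOp_top, map_zero, add_zero] at h1
    exact sOp_ne_zero (by omega) th h1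

theorem natDegree_Gr_sub_le {α : Type} {w : α → ℕ} (p q : NC α) :
    (Gr w (p - q)).natDegree ≤ max (Gr w p).natDegree (Gr w q).natDegree := by
  rw [map_sub]
  exact Polynomial.natDegree_sub_le _ _

theorem natDegree_Gr_smul_le {α : Type} {w : α → ℕ} (c : ℚ) (p : NC α) :
    (Gr w (c • p)).natDegree ≤ (Gr w p).natDegree := by
  rw [map_smul]
  exact Polynomial.natDegree_smul_le _ _

/-- **Key independence**: for linearly independent `ψ, g ∈ dm`, the operators `sOp ψ`, `sOp g`
have independent images and are injective. -/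
theorem indep {ψ g : NC (Fin 2)} (hψ : IsDM ψ) (hg : IsDM g) (hψ0 : ψ ≠ 0)
    (hli : ∀ c : ℚ, g ≠ c • ψ) {h k : NC (Fin 2)} (hs : sOp ψ h + sOp g k = 0) :
    h = 0 ∧ k = 0 := by
  have hg0 : g ≠ 0 := by
    intro h0; apply hli 0; rw [h0, zero_smul]
  by_cases hnp : ((Gr wX ψ).natDegree = (Gr wX g).natDegree ∧
      (Th (comp wX (Gr wX ψ).natDegree ψ)).natDegree =
        (Th (comp wX (Gr wX g).natDegree g)).natDegree ∧
      ∃ c : ℚ, (Th (comp wX (Gr wX g).natDegree g)).leadingCoeff =
        c • (Th (comp wX (Gr wX ψ).natDegree ψ)).leadingCoeff)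
  · obtain ⟨hw, hβ, c, hc⟩ := hnp
    have hg' : IsDM (g - c • ψ) := hg.sub (hψ.smul c)
    have hg'0 : g - c • ψ ≠ 0 := by
      rw [Ne, sub_eq_zero]; exact hli c
    have tψ := top_ne_zero (w := wX) hψ0
    have dψ := two_le_natDegree (hψ.comp (Gr wX ψ).natDegree) tψ
    have hs' : sOp ψ (h + c • k) + sOp (g - c • ψ) k = 0 := by
      have e : sOp (g - c • ψ) = sOp g - c • sOp ψ := by
        have h1 : g = (g - c • ψ) + c • ψ := by abel
        have h2 := congrArg sOp h1
        rw [sOp_add, sOp_smul] at h2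
        rw [h2]; abel
      rw [e, map_add, map_smul, LinearMap.sub_apply, LinearMap.smul_apply, ← hs]
      abel
    have hnp' : ¬ ((Gr wX ψ).natDegree = (Gr wX (g - c • ψ)).natDegree ∧
      (Th (comp wX (Gr wX ψ).natDegree ψ)).natDegree =
        (Th (comp wX (Gr wX (g - c • ψ)).natDegree (g - c • ψ))).natDegree ∧
      ∃ c' : ℚ, (Th (comp wX (Gr wX (g - c • ψ)).natDegree (g - c • ψ))).leadingCoeff =
        c' • (Th (comp wX (Gr wX ψ).natDegree ψ)).leadingCoeff) := by
      rintro ⟨h1, h2, -⟩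
      rw [← h1] at h2
      have h3 : (Th (comp wX (Gr wX ψ).natDegree (g - c • ψ))).coeff
          (Th (comp wX (Gr wX ψ).natDegree (g - c • ψ))).natDegree = 0 := by
        rw [← h2, map_sub, map_smul, map_sub, map_smul, Polynomial.coeff_sub,
          Polynomial.coeff_smul]
        have h4 : (Th (comp wX (Gr wX ψ).natDegree g)).coeff
            (Th (comp wX (Gr wX ψ).natDegree ψ)).natDegree =
            (Th (comp wX (Gr wX g).natDegree g)).leadingCoeff := by
          rw [hβ, hw]; rfl
        rw [h4, hc]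
        exact sub_self _
      have h5 : comp wX (Gr wX ψ).natDegree (g - c • ψ) ≠ 0 := by
        rw [h1]; exact top_ne_zero hg'0
      exact Th_ne_zero h5 (Polynomial.leadingCoeff_eq_zero.mp h3)
    obtain ⟨h1, h2⟩ := indep_of_np hψ hg' hψ0 hg'0 hnp' hs'
    rw [h2, smul_zero, add_zero] at h1
    exact ⟨h1, h2⟩
  · exact indep_of_np hψ hg hψ0 hg0 hnp hs

end

end Pool.Agent.H4DM
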