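import Mathlib
import Pool.Agent.Lib.H4DMKey
import Pool.Agent.Lib.H4DMFree

/-!
# Families of Lie elements with non-zero depth-one coefficient
-/

set_option autoImplicit false

open Polynomial

namespace Pool.Agent.H4DM

noncomputable section

/-! ### Right quotients -/

section rquot
variable {α : Type}

/-- Strip the last letter `m`. -/
def rq (m : α) : NC α →ₗ[ℚ] NC α := by
  classical
  exact linw (fun l => if l.getLast? = some m then wd l.dropLast else 0)

theorem rq_nil (m : α) : rq m (wd ([] : List α)) = 0 := by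
  classical
  rw [rq, linw_wd]; simp

theorem rq_concat [DecidableEq α] (m a : α) (l : List α) :
    rq m (wd (l ++ [a])) = if a = m then wd l else 0 := by
  rw [rq, linw_wd]
  simp

theorem cf_rq (m : α) (p : NC α) (l : List α) : cf (rq m p) l = cf p (l ++ [m]) := by
  classical
  induction p using nc_induction with
  | hw u =>
    rcases List.eq_nil_or_concat u with rfl | ⟨v, a, rfl⟩
    · rw [rq_nil, cf_wd, if_neg (by simp)]; rfl
    · rw [List.concat_eq_append, rq_concat]
      by_cases h : a = m
      · subst h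
        rw [if_pos rfl, cf_wd, cf_wd]
        simp
      · rw [if_neg h, cf_wd, if_neg]
        · rfl
        · intro h'
          apply h
          have := List.append_inj' h' rfl
          simpa using this.2
  | zero => simp
  | add x y hx hy => rw [map_add, cf_add, hx, hy, cf_add]
  | smul c x hx => rw [map_smul, cf_smul, hx, cf_smul]

theorem rq_mul (m : α) (p q : NC α) : rq m (p * q) = p * rq m q + (cf q []) • rq m p := by
  classical
  induction q using nc_induction with
  | hw u =>
    rcases List.eq_nil_or_concat u with rfl | ⟨v, a, rfl⟩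
    · rw [rq_nil, cf_wd, if_pos rfl, wd_nil]; simp
    · rw [List.concat_eq_append, cf_wd, if_neg (by simp), zero_smul, add_zero]
      induction p using nc_induction with
      | hw l =>
        rw [← wd_append, ← List.append_assoc, rq_concat, rq_concat]
        split_ifs
        · rw [wd_append]
        · rw [mul_zero]
      | zero => simp
      | add x y hx hy => rw [add_mul, map_add, hx, hy, add_mul]
      | smul c x hx => rw [smul_mul_assoc, map_smul, hx, smul_mul_assoc]
  | zero => simp
  | add x y hx hy => rw [mul_add, map_add, hx, hy, map_add, cf_add, add_smul]; noncomm_ring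
  | smul c x hx =>
    rw [mul_smul_comm, map_smul, hx, map_smul, cf_smul, smul_add, mul_smul_comm, mul_smul]

theorem eq_zero_of_rq {p : NC α} (h0 : cf p [] = 0) (h : ∀ m, rq m p = 0) : p = 0 := by
  apply cf_ext
  intro l
  rcases List.eq_nil_or_concat l with rfl | ⟨v, a, rfl⟩
  · rw [h0]; rfl
  · rw [List.concat_eq_append, ← cf_rq, h a]; rfl

end rquot

/-! ### The derivation `delT` and last letters -/

theorem delT_mul (f : NC (Fin 2)) (p q : NC ℕ+) : delT f (p * q) = delT f p * q + p * delT f q :=
  der_mul _ p q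

theorem delT_letter (f : NC (Fin 2)) (n : ℕ+) : delT f (wd [n]) =
    piY ((f * x0 ^ ((n : ℕ) - 1) - x0 ^ ((n : ℕ) - 1) * f) * x1) := by
  rw [delT, der_letter]

theorem delT_one_letter (f : NC (Fin 2)) : delT f (wd [1]) = 0 := by
  rw [delT_letter]
  simp

theorem delT_one (f : NC (Fin 2)) : delT f 1 = 0 := der_one _

theorem cf_piY (h : NC (Fin 2)) (t : List ℕ+) : cf (piY h) t = cf h (yw t) := by
  rw [piY_eq, cf_Th]; simp

theorem cf_mul_x0_pow (f : NC (Fin 2)) (k : ℕ) (l : List (Fin 2)) :
    cf (f * x0 ^ k) (l ++ List.replicate k 0) = cf f l := by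
  rw [← wd_replicate_zero]
  induction f using nc_induction with
  | hw u =>
    rw [← wd_append, cf_wd, cf_wd]
    simp
  | zero => simp
  | add x y hx hy => rw [add_mul, cf_add, hx, hy, cf_add]
  | smul c x hx => rw [smul_mul_assoc, cf_smul, hx, cf_smul]

theorem cf_mul_x1 (f : NC (Fin 2)) (l : List (Fin 2)) : cf (f * x1) (l ++ [1]) = cf f l := by
  rw [x1]
  induction f using nc_induction with
  | hw u =>
    rw [← wd_append, cf_wd, cf_wd]
    simp
  | zero => simp
  | add x y hx hy => rw [add_mul, cf_add, hx, hy, cf_add]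
  | smul c x hx => rw [smul_mul_assoc, cf_smul, hx, cf_smul]

theorem Hg_x0_pow (k : ℕ) : Hg wX k (x0 ^ k) := by
  rw [← wd_replicate_zero]
  have := Hg_wd (w := wX) (List.replicate k (0 : Fin 2))
  rwa [wt_wX, List.length_replicate] at this

theorem cf_x0_pow_mul (f : NC (Fin 2)) (k : ℕ) (l : List (Fin 2)) :
    cf (x0 ^ k * f) (List.replicate k 0 ++ l) = cf f l := by
  rw [← wd_replicate_zero]
  induction f using nc_induction with
  | hw u =>
    rw [← wd_append, cf_wd, cf_wd]
    simp
  | zero => simp
  | add x y hx hy => rw [mul_add, cf_add, hx, hy, cf_add]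
  | smul c x hx => rw [mul_smul_comm, cf_smul, hx, cf_smul]

theorem cf_mul_x0_pow_ne (f : NC (Fin 2)) (k : ℕ) (L : List (Fin 2))
    (h : ∀ L', L ≠ L' ++ List.replicate k 0) : cf (f * x0 ^ k) L = 0 := by
  rw [← wd_replicate_zero]
  induction f using nc_induction with
  | hw u =>
    rw [← wd_append, cf_wd, if_neg (fun h' => h u h'.symm)]
  | zero => simp
  | add x y hx hy => rw [add_mul, cf_add, hx, hy, add_zero]
  | smul c x hx => rw [smul_mul_assoc, cf_smul, hx, mul_zero]

theorem cf_x0_pow_mul_ne (f : NC (Fin 2)) (k : ℕ) (L : List (Fin 2))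
    (h : ∀ L', L ≠ List.replicate k 0 ++ L') : cf (x0 ^ k * f) L = 0 := by
  rw [← wd_replicate_zero]
  induction f using nc_induction with
  | hw u =>
    rw [← wd_append, cf_wd, if_neg (fun h' => h u h'.symm)]
  | zero => simp
  | add x y hx hy => rw [mul_add, cf_add, hx, hy, add_zero]
  | smul c x hx => rw [mul_smul_comm, cf_smul, hx, mul_zero]

theorem yw_single (m : ℕ+) : yw [m] = List.replicate ((m : ℕ) - 1) 0 ++ [1] := rfl

theorem rq_delT_letter {f : NC (Fin 2)} {w : ℕ} (hf : Hg wX w f)
    (hw0 : cf f (List.replicate w 0) = 0) (n m : ℕ+) (hm : w < (m : ℕ)) :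
    rq m (delT f (wd [n])) = if (n : ℕ) ≤ m then (Th f).coeff ((m : ℕ) - n) else 0 := by
  apply cf_ext
  intro l
  have hn := n.pos
  have hm0 := m.pos
  rw [cf_rq, delT_letter, cf_piY, yw_append, yw_single, ← List.append_assoc, cf_mul_x1, cf_sub]
  have h2 : cf (x0 ^ ((n : ℕ) - 1) * f) (yw l ++ List.replicate ((m : ℕ) - 1) 0) = 0 := by
    by_cases hL : ∀ L', yw l ++ List.replicate ((m : ℕ) - 1) 0 ≠
        List.replicate ((n : ℕ) - 1) 0 ++ L'
    · exact cf_x0_pow_mul_ne f _ _ hL
    · push Not at hL
      obtain ⟨L', hL'⟩ := hL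
      rw [hL', cf_x0_pow_mul]
      by_contra hne
      have hlen : L'.length = w := by
        have := hf _ hne
        rwa [wt_wX] at this
      apply hne
      have e1 : (m : ℕ) - 1 = ((m : ℕ) - 1 - w) + w := by omega
      rw [e1, List.replicate_add, ← List.append_assoc] at hL'
      have := List.append_inj' hL' (by rw [List.length_replicate, hlen])
      rw [← this.2]
      exact hw0
  rw [h2, sub_zero]
  by_cases hnm : (n : ℕ) ≤ m
  · rw [if_pos hnm, cf_Th]
    have e1 : (m : ℕ) - 1 = ((m : ℕ) - n) + ((n : ℕ) - 1) := by omega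
    rw [e1, List.replicate_add, ← List.append_assoc, cf_mul_x0_pow]
  · rw [if_neg hnm, cf_zero]
    apply cf_mul_x0_pow_ne
    intro L' hL'
    have e1 : (n : ℕ) - 1 = ((n : ℕ) - m) + ((m : ℕ) - 1) := by omega
    rw [e1, List.replicate_add, ← List.append_assoc] at hL'
    have h3 := (List.append_inj' hL' rfl).1
    have h4 : (parse (yw l)).2 = (parse (L' ++ List.replicate ((n : ℕ) - m) 0)).2 := by rw [h3]
    rw [parse_append_zeros] at h4
    have h5 : (parse (yw l)).2 = 0 := by
      have := parse_unparse l 0
      rw [List.replicate_zero, List.append_nil] at this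
      rw [this]
    rw [h5] at h4
    simp only at h4
    omega

theorem cf_delT_letter_nil (f : NC (Fin 2)) (n : ℕ+) : cf (delT f (wd [n])) [] = 0 := by
  rw [delT_letter, cf_piY, yw, cf_mul_nil]
  have : cf x1 [] = 0 := by rw [x1, cf_wd, if_neg (by simp)]
  rw [this, mul_zero]

theorem rq_letter (m n : ℕ+) : rq m (wd [n]) = if n = m then (1 : NC ℕ+) else 0 := by
  have := rq_concat m n ([] : List ℕ+)
  rw [List.nil_append] at this
  rw [this, wd_nil]

theorem rq_one (m : ℕ+) : rq m (1 : NC ℕ+) = 0 := by rw [← wd_nil, rq_nil]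

/-- The last letters of `delT f η`. -/
theorem rq_delT {f : NC (Fin 2)} {w : ℕ} (hf : Hg wX w f)
    (hw0 : cf f (List.replicate w 0) = 0) (m : ℕ+) (hm : w < (m : ℕ)) (η : NC ℕ+) :
    rq m (delT f η) = delT f (rq m η) +
      ∑ i ∈ Finset.range m, rq i.succPNat η * (Th f).coeff ((m : ℕ) - 1 - i) := by
  induction η using nc_induction with
  | hw u =>
    rcases List.eq_nil_or_concat u with rfl | ⟨v, a, rfl⟩
    · rw [wd_nil, delT_one, map_zero, rq_one, map_zero, zero_add]
      symm
      apply Finset.sum_eq_zero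
      intro i _
      rw [rq_one, zero_mul]
    · rw [List.concat_eq_append, wd_append, delT_mul, map_add, rq_mul, rq_mul m (wd v),
        cf_delT_letter_nil, zero_smul, add_zero, rq_mul m (wd v)]
      have h0 : cf (wd [a]) [] = 0 := by rw [cf_wd, if_neg (by simp)]
      rw [h0, zero_smul, zero_smul, add_zero, add_zero, rq_letter, rq_delT_letter hf hw0 a m hm]
      congr 1
      · split_ifs
        · rw [mul_one, mul_one]
        · rw [mul_zero, mul_zero, map_zero]
      · by_cases ha : (a : ℕ) ≤ m
        · rw [if_pos ha, Finset.sum_eq_single ((a : ℕ) - 1)]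
          · have e1 : ((a : ℕ) - 1).succPNat = a := by
              apply PNat.eq
              have := a.pos
              rw [Nat.succPNat_coe]
              omega
            have e2 : (m : ℕ) - 1 - ((a : ℕ) - 1) = (m : ℕ) - a := by
              have := a.pos; omega
            rw [e1, e2, rq_mul, h0, zero_smul, add_zero, rq_letter, if_pos rfl, mul_one]
          · intro i _ hi
            rw [rq_mul, h0, zero_smul, add_zero, rq_letter, if_neg, mul_zero, zero_mul]
            intro h'
            apply hi
            rw [h', Nat.succPNat_coe]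
            omega
          · intro h'
            exfalso
            apply h'
            rw [Finset.mem_range]
            have := a.pos
            omega
        · rw [if_neg ha, mul_zero]
          symm
          apply Finset.sum_eq_zero
          intro i hi
          rw [Finset.mem_range] at hi
          rw [rq_mul, h0, zero_smul, add_zero, rq_letter, if_neg, mul_zero, zero_mul]
          intro h'
          apply ha
          rw [h', Nat.succPNat_coe]
          omega
  | zero => simp
  | add x y hx hy =>
    rw [map_add, map_add, hx, hy, map_add, map_add]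
    simp only [map_add, add_mul, Finset.sum_add_distrib]
    abel
  | smul c x hx =>
    rw [map_smul, map_smul, hx, map_smul, map_smul, smul_add, Finset.smul_sum]
    simp only [map_smul, smul_mul_assoc]

theorem Th_coeff_ge {f : NC (Fin 2)} {w : ℕ} (hf : Hg wX w f)
    (hw0 : cf f (List.replicate w 0) = 0) {b : ℕ} (hb : w ≤ b) : (Th f).coeff b = 0 := by
  by_contra hne
  obtain ⟨t, ht⟩ := exists_cf_ne hne
  have h1 := Hg_Th hf b t ht
  have h2 : wt wY t = 0 := by omega
  have h3 : t = [] := by
    rcases t with _ | ⟨a, t⟩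
    · rfl
    · rw [wt_cons] at h2
      have := wY_pos a
      omega
  rw [cf_Th, h3] at ht
  apply ht
  have h4 : b = w := by omega
  rw [h4]
  exact hw0

/-- If `delT f η` has no last letter of index larger than the weight `w` of `f`, then `η` only
has the last letter `y₁`. -/
theorem rq_eq_zero_of {f : NC (Fin 2)} {w : ℕ} (hf : Hg wX w f) (hw2 : 2 ≤ w)
    (hw0 : cf f (List.replicate w 0) = 0) (hne : (Th f).coeff (w - 1) ≠ 0) {μ : ℕ} {η : NC ℕ+}
    (hη : Hg wY μ η) (h : ∀ m : ℕ+, w < (m : ℕ) → rq m (delT f η) = 0) (d : ℕ) :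
    ∀ n : ℕ+, 2 ≤ (n : ℕ) → μ < n + d → rq n η = 0 := by
  induction d with
  | zero =>
    intro n _ hd
    by_contra hne'
    obtain ⟨l, hl⟩ := exists_cf_ne hne'
    rw [cf_rq] at hl
    have := hη _ hl
    rw [wt_append, wt_cons] at this
    have e : wY n = (n : ℕ) := rfl
    omega
  | succ d ih =>
    intro n hn hd
    obtain ⟨k, hk⟩ : ∃ k, k = (n : ℕ) + w - 1 - 1 := ⟨_, rfl⟩
    have hm : ((k.succPNat : ℕ+) : ℕ) = n + w - 1 := by rw [Nat.succPNat_coe]; omega
    have h1 := rq_delT hf hw0 k.succPNat (by omega) η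
    rw [h _ (by omega), ih _ (by omega) (by omega), map_zero, zero_add, hm,
      Finset.sum_eq_single ((n : ℕ) - 1)] at h1
    · have e1 : ((n : ℕ) - 1).succPNat = n := by
        apply PNat.eq
        rw [Nat.succPNat_coe]
        omega
      have e2 : (n : ℕ) + w - 1 - 1 - ((n : ℕ) - 1) = w - 1 := by omega
      rw [e1, e2] at h1
      exact (mul_eq_zero.mp h1.symm).resolve_right hne
    · intro i _ hi
      rcases lt_or_gt_of_ne hi with h2 | h2
      · rw [Th_coeff_ge hf hw0 (by omega), mul_zero]
      · rw [ih i.succPNat (by rw [Nat.succPNat_coe]; omega) (by rw [Nat.succPNat_coe]; omega),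
          zero_mul]
    · intro h'
      exfalso
      apply h'
      rw [Finset.mem_range]
      omega

theorem rq_delT_weight {f : NC (Fin 2)} {w : ℕ} (hf : Hg wX w f) (hw2 : 2 ≤ w)
    (hw0 : cf f (List.replicate w 0) = 0) (hne : (Th f).coeff (w - 1) ≠ 0) {μ : ℕ} {η : NC ℕ+}
    (hη : Hg wY μ η) (h : ∀ m : ℕ+, w < (m : ℕ) → rq m (delT f η) = 0) (m : ℕ+)
    (hm : 2 ≤ (m : ℕ)) : rq m (delT f η) = 0 := by
  have h1 := rq_eq_zero_of hf hw2 hw0 hne hη h (μ + 1)
  have h2 : η = (cf η []) • 1 + rq 1 η * wd [1] := by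
    apply cf_ext
    intro l
    rcases List.eq_nil_or_concat l with rfl | ⟨v, a, rfl⟩
    · rw [cf_add, cf_smul, cf_one_nil, cf_mul_nil]
      have h0 : cf (wd [(1 : ℕ+)]) [] = 0 := by rw [cf_wd, if_neg (by simp)]
      rw [h0]; ring
    · rw [List.concat_eq_append, cf_add, cf_smul, cf_one_ne (by simp), mul_zero, zero_add,
        ← cf_rq, ← cf_rq, rq_mul, rq_letter]
      have h0 : cf (wd [(1 : ℕ+)]) [] = 0 := by rw [cf_wd, if_neg (by simp)]
      rw [h0, zero_smul, add_zero]
      by_cases ha : 1 = a
      · rw [if_pos ha, mul_one, ha]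
      · rw [if_neg ha, mul_zero]
        have ha2 : 2 ≤ (a : ℕ) := by
          have := a.pos
          have h3 : (a : ℕ) ≠ 1 := fun h' => ha (PNat.eq h'.symm)
          omega
        rw [h1 a ha2 (by omega)]
  rw [h2, map_add, map_smul, delT_one, smul_zero, zero_add, delT_mul, delT_one_letter, mul_zero,
    add_zero, rq_mul, rq_letter]
  have h0 : cf (wd [(1 : ℕ+)]) [] = 0 := by rw [cf_wd, if_neg (by simp)]
  rw [h0, zero_smul, add_zero, if_neg, mul_zero]
  rintro rfl
  simp at hm

end

end Pool.Agent.H4DM
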