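import Mathlib

/-!
Near-perfect matchings for symmetric relations of large degree (helper80).
-/

set_option autoImplicit false

namespace Pool.Agent.Lib.H80

open Finset

/-- `IsM R P`: the ordered pairs in `P` form a matching of the relation `R`. -/
def IsM {α : Type*} (R : α → α → Prop) (P : Finset (α × α)) : Prop :=
  (∀ p ∈ P, R p.1 p.2) ∧ (∀ p ∈ P, p.1 ≠ p.2) ∧
  ∀ p ∈ P, ∀ q ∈ P, p ≠ q → p.1 ≠ q.1 ∧ p.1 ≠ q.2 ∧ p.2 ≠ q.1 ∧ p.2 ≠ q.2

/-- The set of elements covered by `P`. -/
def cov {α : Type*} [DecidableEq α] (P : Finset (α × α)) : Finset α :=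
  P.biUnion (fun p => {p.1, p.2})

lemma mem_cov {α : Type*} [DecidableEq α] {P : Finset (α × α)} {a : α} :
    a ∈ cov P ↔ ∃ p ∈ P, a = p.1 ∨ a = p.2 := by
  simp [cov]

lemma card_cov_le {α : Type*} [DecidableEq α] (P : Finset (α × α)) : (cov P).card ≤ 2 * P.card := by
  unfold cov
  refine Finset.card_biUnion_le.trans ?_
  calc ∑ p ∈ P, ({p.1, p.2} : Finset α).card ≤ ∑ _p ∈ P, 2 :=
        Finset.sum_le_sum (fun p _ => Finset.card_le_two)
    _ = 2 * P.card := by rw [Finset.sum_const, smul_eq_mul, mul_comm]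

lemma IsM.card_cov {α : Type*} [DecidableEq α] {R : α → α → Prop} {P : Finset (α × α)}
    (h : IsM R P) : (cov P).card = 2 * P.card := by
  unfold cov
  rw [Finset.card_biUnion]
  · rw [Finset.sum_congr rfl (fun p hp => Finset.card_pair (h.2.1 p hp)), Finset.sum_const,
      smul_eq_mul, mul_comm]
  · intro p hp q hq hpq
    obtain ⟨h1, h2, h3, h4⟩ := h.2.2 p hp q hq hpq
    refine Finset.disjoint_left.2 ?_
    intro x hx hx'
    simp only [Finset.mem_insert, Finset.mem_singleton] at hx hx'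
    rcases hx with rfl | rfl <;> rcases hx' with h' | h'
    · exact h1 h'
    · exact h2 h'
    · exact h3 h'
    · exact h4 h'

lemma IsM.insert_pair {α : Type*} [DecidableEq α] {R : α → α → Prop} {P : Finset (α × α)}
    (h : IsM R P) {a b : α} (ha : a ∉ cov P) (hb : b ∉ cov P) (hab : a ≠ b) (hR : R a b) :
    IsM R (insert (a, b) P) ∧ (insert (a, b) P).card = P.card + 1 := by
  obtain ⟨h1, h2, h3⟩ := h
  have hna : ∀ p ∈ P, a ≠ p.1 ∧ a ≠ p.2 := fun p hp =>
    ⟨fun h => ha (mem_cov.2 ⟨p, hp, Or.inl h⟩), fun h => ha (mem_cov.2 ⟨p, hp, Or.inr h⟩)⟩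
  have hnb : ∀ p ∈ P, b ≠ p.1 ∧ b ≠ p.2 := fun p hp =>
    ⟨fun h => hb (mem_cov.2 ⟨p, hp, Or.inl h⟩), fun h => hb (mem_cov.2 ⟨p, hp, Or.inr h⟩)⟩
  refine ⟨⟨?_, ?_, ?_⟩, ?_⟩
  · intro p hp
    rcases Finset.mem_insert.1 hp with rfl | hp
    · exact hR
    · exact h1 p hp
  · intro p hp
    rcases Finset.mem_insert.1 hp with rfl | hp
    · exact hab
    · exact h2 p hp
  · intro p hp q hq hpq
    rcases Finset.mem_insert.1 hp with rfl | hp <;> rcases Finset.mem_insert.1 hq with rfl | hq
    · exact absurd rfl hpq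
    · exact ⟨(hna q hq).1, (hna q hq).2, (hnb q hq).1, (hnb q hq).2⟩
    · exact ⟨(hna p hp).1.symm, (hnb p hp).1.symm, (hna p hp).2.symm, (hnb p hp).2.symm⟩
    · exact h3 p hp q hq hpq
  · rw [Finset.card_insert_of_notMem]
    intro hmem
    exact (hna _ hmem).1 rfl

lemma IsM.erase_pair {α : Type*} [DecidableEq α] {R : α → α → Prop} {P : Finset (α × α)}
    (h : IsM R P) (p : α × α) : IsM R (P.erase p) := by
  obtain ⟨h1, h2, h3⟩ := h
  exact ⟨fun q hq => h1 q (Finset.mem_of_mem_erase hq),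
    fun q hq => h2 q (Finset.mem_of_mem_erase hq),
    fun q hq r hr => h3 q (Finset.mem_of_mem_erase hq) r (Finset.mem_of_mem_erase hr)⟩

/-- A symmetric relation on `t` points in which every point is related to at least `(t-1)/2`
other points has a matching leaving out at most one point. -/
theorem exists_near_perfect {α : Type*} [Fintype α] [DecidableEq α] (R : α → α → Prop)
    [DecidableRel R] (hsymm : ∀ a b, R a b → R b a)
    (hdeg : ∀ a, Fintype.card α ≤ 2 * (univ.filter (fun b => b ≠ a ∧ R a b)).card + 1) :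
    ∃ P, IsM R P ∧ (univ \ cov P).card ≤ 1 := by
  classical
  -- a matching of maximum size
  have hne : (univ.filter (fun P : Finset (α × α) => IsM R P)).Nonempty :=
    ⟨∅, by simp [IsM]⟩
  obtain ⟨P, hP, hmax⟩ := Finset.exists_max_image _ (fun P : Finset (α × α) => P.card) hne
  simp only [Finset.mem_filter, Finset.mem_univ, true_and] at hP hmax
  refine ⟨P, hP, ?_⟩
  by_contra hcon
  push Not at hcon
  have hcov := hP.card_cov
  have h2 : 1 < (univ \ cov P).card := hcon
  have hbig : 2 * P.card + 1 < Fintype.card α := by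
    rw [Finset.card_sdiff_of_subset (Finset.subset_univ _), Finset.card_univ] at h2
    omega
  obtain ⟨a, ha, b, hb, hab⟩ := Finset.one_lt_card.1 h2
  simp only [Finset.mem_sdiff, Finset.mem_univ, true_and] at ha hb
  -- neighbours of uncovered points are covered
  have hnb : ∀ x, x ∉ cov P → ∀ y, y ≠ x → R x y → y ∈ cov P := by
    intro x hx y hyx hR
    by_contra hy
    obtain ⟨hM, hc⟩ := hP.insert_pair hx hy hyx.symm hR
    have := hmax _ hM
    omega
  -- no augmentation of length three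
  have haug : ∀ x y, x ∉ cov P → y ∉ cov P → x ≠ y → ∀ p ∈ P, ¬ (R x p.1 ∧ R y p.2) := by
    rintro x y hx hy hxy p hp ⟨h1, h2⟩
    have hMe := hP.erase_pair p
    have hxc : x ∉ cov (P.erase p) := fun h => by
      obtain ⟨q, hq, hq'⟩ := mem_cov.1 h
      exact hx (mem_cov.2 ⟨q, Finset.mem_of_mem_erase hq, hq'⟩)
    have hyc : y ∉ cov (P.erase p) := fun h => by
      obtain ⟨q, hq, hq'⟩ := mem_cov.1 h
      exact hy (mem_cov.2 ⟨q, Finset.mem_of_mem_erase hq, hq'⟩)
    have hp1 : p.1 ∉ cov (P.erase p) := fun h => by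
      obtain ⟨q, hq, hq'⟩ := mem_cov.1 h
      have := hP.2.2 p hp q (Finset.mem_of_mem_erase hq) (Finset.ne_of_mem_erase hq).symm
      rcases hq' with h' | h'
      · exact this.1 h'
      · exact this.2.1 h'
    have hp2 : p.2 ∉ cov (P.erase p) := fun h => by
      obtain ⟨q, hq, hq'⟩ := mem_cov.1 h
      have := hP.2.2 p hp q (Finset.mem_of_mem_erase hq) (Finset.ne_of_mem_erase hq).symm
      rcases hq' with h' | h'
      · exact this.2.2.1 h'
      · exact this.2.2.2 h'
    have hxp1 : x ≠ p.1 := fun h => hx (mem_cov.2 ⟨p, hp, Or.inl h⟩)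
    have hxp2 : x ≠ p.2 := fun h => hx (mem_cov.2 ⟨p, hp, Or.inr h⟩)
    have hyp1 : y ≠ p.1 := fun h => hy (mem_cov.2 ⟨p, hp, Or.inl h⟩)
    have hyp2 : y ≠ p.2 := fun h => hy (mem_cov.2 ⟨p, hp, Or.inr h⟩)
    obtain ⟨hM1, hc1⟩ := hMe.insert_pair hxc hp1 hxp1 h1
    have hyc' : y ∉ cov (insert (x, p.1) (P.erase p)) := fun h => by
      obtain ⟨q, hq, hq'⟩ := mem_cov.1 h
      rcases Finset.mem_insert.1 hq with rfl | hq
      · rcases hq' with h' | h'
        · exact hxy h'.symm
        · exact hyp1 h'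
      · exact hyc (mem_cov.2 ⟨q, hq, hq'⟩)
    have hp2' : p.2 ∉ cov (insert (x, p.1) (P.erase p)) := fun h => by
      obtain ⟨q, hq, hq'⟩ := mem_cov.1 h
      rcases Finset.mem_insert.1 hq with rfl | hq
      · rcases hq' with h' | h'
        · exact hxp2 h'.symm
        · exact hP.2.1 p hp h'.symm
      · exact hp2 (mem_cov.2 ⟨q, hq, hq'⟩)
    obtain ⟨hM2, hc2⟩ := hM1.insert_pair hyc' hp2' hyp2 h2
    have h3 := hmax _ hM2
    have h4 : (P.erase p).card = P.card - 1 := Finset.card_erase_of_mem hp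
    have h5 : 0 < P.card := Finset.card_pos.2 ⟨p, hp⟩
    omega
  -- counting
  have hdegle : ∀ x, x ∉ cov P → (univ.filter (fun y => y ≠ x ∧ R x y)).card ≤
      ∑ p ∈ P, ((if R x p.1 then 1 else 0) + (if R x p.2 then 1 else 0)) := by
    intro x hx
    have hsub : (univ.filter (fun y => y ≠ x ∧ R x y)) ⊆
        P.biUnion (fun p => ({p.1, p.2} : Finset α).filter (fun y => R x y)) := by
      intro y hy
      simp only [Finset.mem_filter, Finset.mem_univ, true_and] at hy
      have := hnb x hx y hy.1 hy.2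
      obtain ⟨p, hp, hyp⟩ := mem_cov.1 this
      simp only [Finset.mem_biUnion, Finset.mem_filter, Finset.mem_insert, Finset.mem_singleton]
      exact ⟨p, hp, hyp, hy.2⟩
    refine (Finset.card_le_card hsub).trans (Finset.card_biUnion_le.trans ?_)
    refine Finset.sum_le_sum (fun p _ => ?_)
    have : ({p.1, p.2} : Finset α).filter (fun y => R x y) =
        (if R x p.1 then {p.1} else ∅) ∪ (if R x p.2 then {p.2} else ∅) := by
      ext y
      simp only [Finset.mem_filter, Finset.mem_insert, Finset.mem_singleton, Finset.mem_union]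
      constructor
      · rintro ⟨rfl | rfl, hR⟩
        · left; simp [hR]
        · right; simp [hR]
      · rintro (h | h)
        · split_ifs at h with hR
          · simp only [Finset.mem_singleton] at h; subst h; exact ⟨Or.inl rfl, hR⟩
          · simp at h
        · split_ifs at h with hR
          · simp only [Finset.mem_singleton] at h; subst h; exact ⟨Or.inr rfl, hR⟩
          · simp at h
    rw [this]
    refine (Finset.card_union_le _ _).trans ?_
    split_ifs <;> simp
  have hsum : ∑ p ∈ P, ((if R a p.1 then 1 else 0) + (if R a p.2 then 1 else 0)) +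
      ∑ p ∈ P, ((if R b p.1 then 1 else 0) + (if R b p.2 then 1 else 0)) ≤ 2 * P.card := by
    rw [← Finset.sum_add_distrib]
    calc ∑ p ∈ P, (((if R a p.1 then 1 else 0) + (if R a p.2 then 1 else 0)) +
          ((if R b p.1 then 1 else 0) + (if R b p.2 then 1 else 0))) ≤ ∑ _p ∈ P, 2 := by
          refine Finset.sum_le_sum (fun p hp => ?_)
          have e1 := haug a b ha hb hab p hp
          have e2 := haug b a hb ha hab.symm p hp
          by_cases r1 : R a p.1 <;> by_cases r2 : R a p.2 <;> by_cases r3 : R b p.1 <;>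
            by_cases r4 : R b p.2 <;> simp_all
      _ = 2 * P.card := by rw [Finset.sum_const, smul_eq_mul, mul_comm]
  have d1 := hdegle a ha
  have d2 := hdegle b hb
  have g1 := hdeg a
  have g2 := hdeg b
  omega

end Pool.Agent.Lib.H80
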