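import Mathlib

/-!
Basic tools for clique minors and colourings, relative to a vertex set (helper80).
-/

set_option autoImplicit false

namespace Pool.Agent.Lib.H80

open SimpleGraph Finset

variable {V : Type*}

/-- `HasK G m`: the graph `G` has a `K_m` minor, given by `m` pairwise disjoint connected vertex sets,
each two of them joined by an edge. -/
def HasK (G : SimpleGraph V) (m : ℕ) : Prop :=
  ∃ f : Fin m → Set V,
    (∀ i, (G.induce (f i)).Connected) ∧
    (∀ i j, i ≠ j → Disjoint (f i) (f j)) ∧
    (∀ i j, i ≠ j → ∃ u ∈ f i, ∃ v ∈ f j, G.Adj u v)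

/-- A `K_ι` model inside the set `S`. -/
def Model (G : SimpleGraph V) (S : Set V) (ι : Type*) : Prop :=
  ∃ f : ι → Set V,
    (∀ i, f i ⊆ S) ∧
    (∀ i, (G.induce (f i)).Connected) ∧
    (∀ i j, i ≠ j → Disjoint (f i) (f j)) ∧
    (∀ i j, i ≠ j → ∃ u ∈ f i, ∃ v ∈ f j, G.Adj u v)

/-- Colourability of the subgraph induced by `S`. -/
def ColOn (G : SimpleGraph V) (S : Set V) (k : ℕ) : Prop :=
  ∃ c : V → ℕ, (∀ v ∈ S, c v < k) ∧ ∀ u ∈ S, ∀ v ∈ S, G.Adj u v → c u ≠ c v

/-- Hadwiger's conjecture for the subgraph induced by `S`. -/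
def HCOn (G : SimpleGraph V) (S : Set V) : Prop :=
  ∀ k, ¬ ColOn G S k → Model G S (Fin (k + 1))

/-- Hadwiger's conjecture up to an additive error `d`, for the subgraph induced by `S`. -/
def HCOnD (G : SimpleGraph V) (d : ℕ) (S : Set V) : Prop :=
  ∀ k, ¬ ColOn G S (k + d) → Model G S (Fin (k + 1))

lemma Model.of_card {G : SimpleGraph V} {S : Set V} {ι κ : Type*} [Fintype ι] [Fintype κ]
    (h : Model G S ι) (hc : Fintype.card κ ≤ Fintype.card ι) : Model G S κ := by
  classical
  obtain ⟨f, h1, h2, h3, h4⟩ := h
  obtain ⟨e⟩ := Function.Embedding.nonempty_of_card_le hc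
  exact ⟨fun i => f (e i), fun i => h1 _, fun i => h2 _,
    fun i j hij => h3 _ _ (fun h => hij (e.injective h)),
    fun i j hij => h4 _ _ (fun h => hij (e.injective h))⟩

lemma Model.mono {G : SimpleGraph V} {S T : Set V} {ι : Type*} (h : Model G S ι) (hST : S ⊆ T) :
    Model G T ι := by
  obtain ⟨f, h1, h2, h3, h4⟩ := h
  exact ⟨f, fun i => (h1 i).trans hST, h2, h3, h4⟩

lemma Model.hasK {G : SimpleGraph V} {S : Set V} {m : ℕ} (h : Model G S (Fin m)) : HasK G m := by
  obtain ⟨f, _, h2, h3, h4⟩ := h
  exact ⟨f, h2, h3, h4⟩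

lemma colOn_univ {G : SimpleGraph V} {k : ℕ} : ColOn G Set.univ k ↔ G.Colorable k := by
  constructor
  · rintro ⟨c, h1, h2⟩
    exact ⟨SimpleGraph.Coloring.mk (fun v => (⟨c v, h1 v trivial⟩ : Fin k)) (by
      intro u v huv h
      exact h2 u trivial v trivial huv (by simpa using h))⟩
  · rintro ⟨C⟩
    refine ⟨fun v => (C v : ℕ), fun v _ => (C v).isLt, fun u _ v _ huv h => ?_⟩
    exact C.valid huv (Fin.ext h)

lemma ColOn.of_fintype {G : SimpleGraph V} {S : Set V} {ι : Type*} [Fintype ι] {k : ℕ}
    (c : V → ι) (hc : ∀ u ∈ S, ∀ v ∈ S, G.Adj u v → c u ≠ c v) (hk : Fintype.card ι ≤ k) :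
    ColOn G S k := by
  classical
  refine ⟨fun v => (Fintype.equivFin ι (c v) : ℕ), fun v _ => lt_of_lt_of_le (Fin.isLt _) hk, ?_⟩
  intro u hu v hv huv h
  exact hc u hu v hv huv ((Fintype.equivFin ι).injective (Fin.ext h))

lemma ColOn.of_rel {G : SimpleGraph V} {S : Set V} {ι : Type*} [Fintype ι] {k : ℕ}
    (P : V → ι → Prop) (hex : ∀ v ∈ S, ∃ i, P v i)
    (hP : ∀ u ∈ S, ∀ v ∈ S, ∀ i, P u i → P v i → ¬ G.Adj u v) (hk : Fintype.card ι ≤ k) :
    ColOn G S k := by
  classical
  refine ⟨fun v => if h : ∃ i, P v i then (Fintype.equivFin ι h.choose : ℕ) else 0, ?_, ?_⟩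
  · intro v hv
    have h := hex v hv
    simp only [h, dif_pos]
    exact lt_of_lt_of_le (Fin.isLt _) hk
  · intro u hu v hv huv h
    have h1 := hex u hu
    have h2 := hex v hv
    simp only [h1, h2, dif_pos] at h
    have h3 := (Fintype.equivFin ι).injective (Fin.ext h)
    exact hP u hu v hv h1.choose h1.choose_spec (h3 ▸ h2.choose_spec) huv

lemma ColOn.mono {G : SimpleGraph V} {S : Set V} {k l : ℕ} (h : ColOn G S k) (hkl : k ≤ l) :
    ColOn G S l := by
  obtain ⟨c, h1, h2⟩ := h
  exact ⟨c, fun v hv => lt_of_lt_of_le (h1 v hv) hkl, h2⟩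

/-- `Dom G a b`: the edge `ab` is dominating. -/
def Dom (G : SimpleGraph V) (a b : V) : Prop :=
  G.Adj a b ∧ ∀ w, w ≠ a → w ≠ b → G.Adj w a ∨ G.Adj w b

/-- Peeling off a family of disjoint dominating edges which is coloured with as many colours. -/
theorem hcOnD_univ_of_dom {G : SimpleGraph V} {d : ℕ} {ι : Type*} [Fintype ι] (a b : ι → V)
    (hd : ∀ i, Dom G (a i) (b i))
    (hdis : ∀ i j, i ≠ j → a i ≠ a j ∧ a i ≠ b j ∧ b i ≠ a j ∧ b i ≠ b j)
    (S : Set V) (hSa : ∀ i, a i ∉ S) (hSb : ∀ i, b i ∉ S)
    (hcol : ColOn G Sᶜ (Fintype.card ι))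
    (hS : HCOnD G d S) : HCOnD G d Set.univ := by
  classical
  obtain ⟨c, hclt, hc⟩ := hcol
  intro k hk
  set r := Fintype.card ι with hr
  have hDmodel : Model G Set.univ ι := by
    refine ⟨fun i => {a i, b i}, fun i => Set.subset_univ _, fun i => ?_, ?_, ?_⟩
    · exact induce_pair_connected_of_adj (hd i).1
    · intro i j hij
      obtain ⟨h1, h2, h3, h4⟩ := hdis i j hij
      rw [Set.disjoint_left]
      rintro x (rfl | rfl) (h | h)
      · exact h1 h
      · exact h2 h
      · exact h3 h
      · exact h4 h
    · intro i j hij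
      obtain ⟨h1, h2, h3, h4⟩ := hdis i j hij
      rcases (hd j).2 (a i) h1 h2 with h | h
      · exact ⟨a i, by simp, a j, by simp, h⟩
      · exact ⟨a i, by simp, b j, by simp, h⟩
  rcases lt_or_ge k r with hkr | hkr
  · exact hDmodel.of_card (by simpa [← hr] using hkr)
  · have hnc : ¬ ColOn G S (k - r + d) := by
      rintro ⟨c', h1, h2⟩
      apply hk
      refine ⟨fun v => if v ∈ S then c' v else (k - r + d) + c v, ?_, ?_⟩
      · intro v _
        by_cases hv : v ∈ S
        · simp only [hv, if_true]
          exact lt_of_lt_of_le (h1 v hv) (by omega)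
        · simp only [hv, if_false]
          have := hclt v hv
          omega
      · intro u _ v _ huv
        by_cases hu : u ∈ S <;> by_cases hv : v ∈ S
        · simp only [hu, hv, if_true]; exact h2 u hu v hv huv
        · simp only [hu, hv, if_true, if_false]
          have := h1 u hu
          omega
        · simp only [hu, hv, if_true, if_false]
          have := h1 v hv
          omega
        · simp only [hu, hv, if_false]
          intro h
          have h' : c u = c v := by omega
          exact hc u hu v hv huv h'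
    obtain ⟨f, f1, f2, f3, f4⟩ := hS (k - r) hnc
    have hmod : Model G Set.univ (Fin (k - r + 1) ⊕ ι) := by
      have hmem : ∀ i, ∀ w ∈ f i, ∀ j, w ≠ a j ∧ w ≠ b j := by
        intro i w hw j
        constructor
        · rintro rfl; exact hSa j (f1 i hw)
        · rintro rfl; exact hSb j (f1 i hw)
      have hne : ∀ i, ∃ w, w ∈ f i := by
        intro i
        obtain ⟨⟨w, hw⟩⟩ := (f2 i).nonempty
        exact ⟨w, hw⟩
      refine ⟨Sum.elim f (fun j => {a j, b j}), fun i => Set.subset_univ _, ?_, ?_, ?_⟩
      · rintro (i | j)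
        · exact f2 i
        · exact induce_pair_connected_of_adj (hd j).1
      · rintro (i | i) (j | j) hij
        · exact f3 i j (by simpa using hij)
        · simp only [Sum.elim_inl, Sum.elim_inr]
          rw [Set.disjoint_left]
          rintro x hx (h | h)
          · exact (hmem i x hx j).1 h
          · exact (hmem i x hx j).2 h
        · simp only [Sum.elim_inl, Sum.elim_inr]
          rw [Set.disjoint_left]
          rintro x (h | h) hx
          · exact (hmem j x hx i).1 h
          · exact (hmem j x hx i).2 h
        · simp only [Sum.elim_inr]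
          obtain ⟨h1, h2, h3, h4⟩ := hdis i j (by simpa using hij)
          rw [Set.disjoint_left]
          rintro x (rfl | rfl) (h | h)
          · exact h1 h
          · exact h2 h
          · exact h3 h
          · exact h4 h
      · rintro (i | i) (j | j) hij
        · exact f4 i j (by simpa using hij)
        · obtain ⟨w, hw⟩ := hne i
          rcases (hd j).2 w (hmem i w hw j).1 (hmem i w hw j).2 with h | h
          · exact ⟨w, hw, a j, by simp, h⟩
          · exact ⟨w, hw, b j, by simp, h⟩
        · obtain ⟨w, hw⟩ := hne j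
          rcases (hd i).2 w (hmem j w hw i).1 (hmem j w hw i).2 with h | h
          · exact ⟨a i, by simp, w, hw, h.symm⟩
          · exact ⟨b i, by simp, w, hw, h.symm⟩
        · obtain ⟨h1, h2, h3, h4⟩ := hdis i j (by simpa using hij)
          rcases (hd j).2 (a i) h1 h2 with h | h
          · exact ⟨a i, by simp, a j, by simp, h⟩
          · exact ⟨a i, by simp, b j, by simp, h⟩
    refine hmod.of_card ?_
    simp only [Fintype.card_fin, Fintype.card_sum]
    omega

theorem hcOn_univ_of_dom {G : SimpleGraph V} {ι : Type*} [Fintype ι] (a b : ι → V)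
    (hd : ∀ i, Dom G (a i) (b i))
    (hdis : ∀ i j, i ≠ j → a i ≠ a j ∧ a i ≠ b j ∧ b i ≠ a j ∧ b i ≠ b j)
    (S : Set V) (hSa : ∀ i, a i ∉ S) (hSb : ∀ i, b i ∉ S)
    (hcol : ColOn G Sᶜ (Fintype.card ι))
    (hS : HCOn G S) : HCOn G Set.univ :=
  hcOnD_univ_of_dom (d := 0) a b hd hdis S hSa hSb hcol hS

lemma conn_singleton (G : SimpleGraph V) (v : V) : (G.induce ({v} : Set V)).Connected := by
  have : Subsingleton ↥({v} : Set V) := Set.subsingleton_coe _ |>.mpr Set.subsingleton_singleton
  have : Nonempty ↥({v} : Set V) := ⟨⟨v, rfl⟩⟩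
  exact ⟨Preconnected.of_subsingleton⟩

/-- The vertices of a clique form a model. -/
lemma model_clique {G : SimpleGraph V} (U : Finset V) (hU : ∀ u ∈ U, ∀ v ∈ U, u ≠ v → G.Adj u v)
    {S : Set V} (hS : ∀ u ∈ U, u ∈ S) : Model G S U := by
  classical
  refine ⟨fun u => {(u : V)}, ?_, ?_, ?_, ?_⟩
  · rintro ⟨u, hu⟩ x rfl
    exact hS _ hu
  · rintro ⟨u, hu⟩
    exact conn_singleton G u
  · rintro ⟨u, hu⟩ ⟨v, hv⟩ huv
    simp only [ne_eq, Subtype.mk.injEq] at huv
    simpa using huv
  · rintro ⟨u, hu⟩ ⟨v, hv⟩ huv
    simp only [ne_eq, Subtype.mk.injEq] at huv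
    exact ⟨u, rfl, v, rfl, hU u hu v hv huv⟩

/-- A clique satisfies Hadwiger's conjecture. -/
lemma hcOn_clique {G : SimpleGraph V} (U : Finset V)
    (hU : ∀ u ∈ U, ∀ v ∈ U, u ≠ v → G.Adj u v) : HCOn G (U : Set V) := by
  classical
  intro k hk
  have hlt : k < U.card := by
    by_contra hcon
    push Not at hcon
    apply hk
    refine ⟨fun v => if h : v ∈ U then (Fintype.equivFin U ⟨v, h⟩ : ℕ) else 0, ?_, ?_⟩
    · intro v hv
      have hv' : v ∈ U := hv
      simp only [hv', dif_pos]
      have := (Fintype.equivFin U ⟨v, hv'⟩).isLt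
      simp only [Fintype.card_coe] at this
      omega
    · intro u hu v hv huv h
      have hu' : u ∈ U := hu
      have hv' : v ∈ U := hv
      simp only [hu', hv', dif_pos] at h
      have := (Fintype.equivFin U).injective (Fin.ext h)
      simp only [Subtype.mk.injEq] at this
      exact huv.ne this
  refine (model_clique U hU (S := (U : Set V)) (fun u hu => hu)).of_card ?_
  simp only [Fintype.card_fin, Fintype.card_coe]
  omega

/-- A clique together with two nonadjacent vertices satisfies Hadwiger's conjecture. -/
lemma hcOn_clique_pair {G : SimpleGraph V} [DecidableEq V] (U : Finset V)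
    (hU : ∀ u ∈ U, ∀ v ∈ U, u ≠ v → G.Adj u v) (w w' : V) (hw : w ∉ U) (hw' : w' ∉ U)
    (hww : ¬ G.Adj w w') : HCOn G ((insert w (insert w' U) : Finset V) : Set V) := by
  classical
  intro k hk
  -- a colour for every vertex of `U`
  set e := Fintype.equivFin U with he
  let col : V → ℕ := fun v => if h : v ∈ U then (e ⟨v, h⟩ : ℕ) else 0
  have hcol_lt : ∀ v ∈ U, col v < U.card := by
    intro v hv
    simp only [col, hv, dif_pos]
    have := (e ⟨v, hv⟩).isLt
    simpa only [Fintype.card_coe] using this
  have hcol_inj : ∀ u ∈ U, ∀ v ∈ U, col u = col v → u = v := by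
    intro u hu v hv h
    simp only [col, hu, hv, dif_pos] at h
    have := e.injective (Fin.ext h)
    simpa using this
  by_cases hz : (∀ u ∈ U, G.Adj w u) ∨ (∀ u ∈ U, G.Adj w' u)
  · -- a clique of size `|U| + 1`
    obtain ⟨z, hzU, hzn, hzadj⟩ : ∃ z, z ∉ U ∧ (z = w ∨ z = w') ∧ ∀ u ∈ U, G.Adj z u := by
      rcases hz with h | h
      · exact ⟨w, hw, Or.inl rfl, h⟩
      · exact ⟨w', hw', Or.inr rfl, h⟩
    have hlt : k < U.card + 1 := by
      by_contra hcon
      push Not at hcon
      apply hk
      refine ⟨fun v => if v ∈ U then col v else U.card, ?_, ?_⟩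
      · intro v hv
        by_cases h : v ∈ U
        · simp only [h, if_true]
          have := hcol_lt v h
          omega
        · simp only [h, if_false]
          omega
      · intro u hu v hv huv h
        by_cases h1 : u ∈ U <;> by_cases h2 : v ∈ U
        · simp only [h1, h2, if_true] at h
          exact huv.ne (hcol_inj u h1 v h2 h)
        · simp only [h1, h2, if_true, if_false] at h
          have := hcol_lt u h1
          omega
        · simp only [h1, h2, if_true, if_false] at h
          have := hcol_lt v h2
          omega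
        · simp only [Finset.coe_insert, Set.mem_insert_iff, Finset.mem_coe, h1, h2, or_false]
            at hu hv
          rcases hu with rfl | rfl <;> rcases hv with rfl | rfl
          · exact huv.ne rfl
          · exact hww huv
          · exact hww huv.symm
          · exact huv.ne rfl
    have hcl : ∀ u ∈ insert z U, ∀ v ∈ insert z U, u ≠ v → G.Adj u v := by
      intro u hu v hv huv
      simp only [Finset.mem_insert] at hu hv
      rcases hu with rfl | hu <;> rcases hv with rfl | hv
      · exact absurd rfl huv
      · exact hzadj v hv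
      · exact (hzadj u hu).symm
      · exact hU u hu v hv huv
    refine (model_clique (insert z U) hcl
      (S := ((insert w (insert w' U) : Finset V) : Set V)) ?_).of_card ?_
    · intro u hu
      simp only [Finset.mem_insert] at hu
      simp only [Finset.coe_insert, Set.mem_insert_iff, Finset.mem_coe]
      rcases hu with rfl | hu
      · rcases hzn with h | h
        · exact Or.inl h
        · exact Or.inr (Or.inl h)
      · exact Or.inr (Or.inr hu)
    · simp only [Fintype.card_fin, Fintype.card_coe, Finset.card_insert_of_notMem hzU]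
      omega
  · push Not at hz
    obtain ⟨⟨x, hx, hwx⟩, ⟨x', hx', hwx'⟩⟩ := hz
    have hlt : k < U.card := by
      by_contra hcon
      push Not at hcon
      apply hk
      have hww' : w ≠ w' ∨ w = w' := ne_or_eq _ _
      refine ⟨fun v => if v ∈ U then col v else if v = w then col x else col x', ?_, ?_⟩
      · intro v hv
        have h1 := hcol_lt x hx
        have h2 := hcol_lt x' hx'
        by_cases h : v ∈ U
        · simp only [h, if_true]
          have := hcol_lt v h
          omega
        · simp only [h, if_false]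
          split_ifs <;> omega
      · have key : ∀ u, u ∉ U → u ∈ ((insert w (insert w' U) : Finset V) : Set V) → ∀ v ∈ U,
            G.Adj u v → (if u = w then col x else col x') ≠ col v := by
          intro u hu hus v hv huv h
          simp only [Finset.coe_insert, Set.mem_insert_iff, Finset.mem_coe, hu, or_false] at hus
          by_cases huw : u = w
          · simp only [huw, if_true] at h
            have := hcol_inj x hx v hv h
            subst this
            subst huw
            exact hwx huv
          · simp only [huw, if_false] at h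
            have := hcol_inj x' hx' v hv h
            subst this
            rcases hus with rfl | rfl
            · exact huw rfl
            · exact hwx' huv
        intro u hu v hv huv h
        by_cases h1 : u ∈ U <;> by_cases h2 : v ∈ U
        · simp only [h1, h2, if_true] at h
          exact huv.ne (hcol_inj u h1 v h2 h)
        · simp only [h1, h2, if_true, if_false] at h
          exact key v h2 hv u h1 huv.symm h.symm
        · simp only [h1, h2, if_true, if_false] at h
          exact key u h1 hu v h2 huv h
        · simp only [Finset.coe_insert, Set.mem_insert_iff, Finset.mem_coe, h1, h2, or_false]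
            at hu hv
          rcases hu with rfl | rfl <;> rcases hv with rfl | rfl
          · exact huv.ne rfl
          · exact hww huv
          · exact hww huv.symm
          · exact huv.ne rfl
    refine (model_clique U hU (S := ((insert w (insert w' U) : Finset V) : Set V)) ?_).of_card ?_
    · intro u hu
      simp [hu]
    · simp only [Fintype.card_fin, Fintype.card_coe]
      omega

end Pool.Agent.Lib.H80
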