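import Mathlib
import Pool.Agent.Lib.H80HC
import Pool.Agent.Lib.H80Gallai

/-!
Smallest counterexamples to weak forms of Hadwiger's conjecture (helper80).
-/

set_option autoImplicit false

namespace Pool.Agent.Lib.H80

open SimpleGraph Finset

variable {V : Type*}

/-- `h(G) ≥ χ(G) - d`: if `G` has no proper colouring with `k + d` colours then it has a
`K_{k+1}` minor. -/
def HadD (G : SimpleGraph V) (d : ℕ) : Prop := ∀ k, ¬ G.Colorable (k + d) → HasK G (k + 1)

lemma colOn_iff_induce {G : SimpleGraph V} {S : Set V} {k : ℕ} :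
    ColOn G S k ↔ (G.induce S).Colorable k := by
  classical
  constructor
  · rintro ⟨c, h1, h2⟩
    exact ⟨SimpleGraph.Coloring.mk (fun v => (⟨c v.1, h1 v.1 v.2⟩ : Fin k)) (by
      intro u v huv h
      exact h2 u.1 u.2 v.1 v.2 huv (by simpa using h))⟩
  · rintro ⟨C⟩
    refine ⟨fun v => if h : v ∈ S then (C ⟨v, h⟩ : ℕ) else 0, fun v hv => ?_,
      fun u hu v hv huv h => ?_⟩
    · simp only [hv, dif_pos]
      exact (C ⟨v, hv⟩).isLt
    · simp only [hu, hv, dif_pos] at h
      have huv' : (G.induce S).Adj ⟨u, hu⟩ ⟨v, hv⟩ := huv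
      exact C.valid huv' (Fin.ext h)

lemma model_of_hasK_induce {G : SimpleGraph V} {S : Set V} {m : ℕ} (h : HasK (G.induce S) m) :
    Model G S (Fin m) := by
  obtain ⟨f, h1, h2, h3⟩ := h
  refine ⟨fun i => Subtype.val '' f i, ?_, ?_, ?_, ?_⟩
  · rintro i x ⟨y, -, rfl⟩
    exact y.2
  · intro i
    let φ : (G.induce S).induce (f i) →g G.induce (Subtype.val '' f i) :=
      { toFun := fun x => ⟨x.1.1, Set.mem_image_of_mem _ x.2⟩
        map_rel' := by
          intro x y h
          exact h }
    refine (h1 i).map φ ?_
    rintro ⟨y, x, hx, rfl⟩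
    exact ⟨⟨x, hx⟩, rfl⟩
  · intro i j hij
    exact (Set.disjoint_image_iff Subtype.val_injective).2 (h2 i j hij)
  · intro i j hij
    obtain ⟨u, hu, v, hv, huv⟩ := h3 i j hij
    exact ⟨u.1, Set.mem_image_of_mem _ hu, v.1, Set.mem_image_of_mem _ hv, huv⟩

lemma hcOnD_of_hadD {G : SimpleGraph V} {S : Set V} {d : ℕ} (h : HadD (G.induce S) d) :
    HCOnD G d S := fun k hk => model_of_hasK_induce (h k (fun hc => hk (colOn_iff_induce.2 hc)))

lemma hadD_of_hcOnD {G : SimpleGraph V} {d : ℕ} (h : HCOnD G d Set.univ) : HadD G d :=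
  fun k hk => (h k (fun hc => hk (colOn_univ.1 hc))).hasK

/-- Adding a universal vertex. -/
lemma hcOnD_of_universal {G : SimpleGraph V} {d : ℕ} (x : V) (hx : ∀ v, v ≠ x → G.Adj v x)
    (h : HCOnD G d ({x}ᶜ : Set V)) : HCOnD G d Set.univ := by
  classical
  intro k hk
  rcases k with _ | k
  · refine ⟨fun _ => {x}, fun _ => Set.subset_univ _, fun _ => conn_singleton G x, ?_, ?_⟩
    · intro i j hij
      exact absurd (Subsingleton.elim (α := Fin 1) i j) hij
    · intro i j hij
      exact absurd (Subsingleton.elim (α := Fin 1) i j) hij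
  · have hnc : ¬ ColOn G ({x}ᶜ : Set V) (k + d) := by
      rintro ⟨c, h1, h2⟩
      apply hk
      refine ⟨fun v => if v = x then k + d else c v, ?_, ?_⟩
      · intro v _
        by_cases hv : v = x
        · simp only [hv, if_true]
          omega
        · simp only [hv, if_false]
          have := h1 v hv
          omega
      · intro u _ v _ huv
        by_cases hu : u = x <;> by_cases hv : v = x
        · subst hu; subst hv
          exact absurd rfl huv.ne
        · simp only [hu, hv, if_true, if_false]
          have := h1 v hv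
          omega
        · simp only [hu, hv, if_true, if_false]
          have := h1 u hu
          omega
        · simp only [hu, hv, if_false]
          exact h2 u hu v hv huv
    obtain ⟨f, f1, f2, f3, f4⟩ := h k hnc
    have hxf : ∀ i, x ∉ f i := fun i hxi => f1 i hxi rfl
    have hne : ∀ i, ∃ w, w ∈ f i := by
      intro i
      obtain ⟨⟨w, hw⟩⟩ := (f2 i).nonempty
      exact ⟨w, hw⟩
    have hmod : Model G Set.univ (Fin (k + 1) ⊕ Unit) := by
      refine ⟨Sum.elim f (fun _ => {x}), fun _ => Set.subset_univ _, ?_, ?_, ?_⟩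
      · rintro (i | i)
        · exact f2 i
        · exact conn_singleton G x
      · rintro (i | i) (j | j) hij
        · exact f3 i j (by simpa using hij)
        · simpa using hxf i
        · simpa using hxf j
        · exact absurd rfl hij
      · rintro (i | i) (j | j) hij
        · exact f4 i j (by simpa using hij)
        · obtain ⟨w, hw⟩ := hne i
          exact ⟨w, hw, x, rfl, hx w (fun h => hxf i (h ▸ hw))⟩
        · obtain ⟨w, hw⟩ := hne j
          exact ⟨x, rfl, w, hw, (hx w (fun h => hxf j (h ▸ hw))).symm⟩
        · exact absurd rfl hij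
    refine hmod.of_card ?_
    simp

/-- A graph all of whose proper induced subgraphs satisfy `h ≥ χ - d` but which fails it itself has
a connected complement and at least `2 χ - 1` vertices. -/
theorem min_counterexample [Fintype V] {G : SimpleGraph V} {d : ℕ}
    (hmin : ∀ S : Set V, S ≠ Set.univ → HadD (G.induce S) d) (hbad : ¬ HadD G d) :
    Gᶜ.Connected ∧ ∀ k, ¬ G.Colorable k → 2 * k + 1 ≤ Fintype.card V := by
  classical
  have hbad' := hbad
  unfold HadD at hbad'
  push Not at hbad'
  obtain ⟨k, hk, hK⟩ := hbad'
  set m := k + d with hm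
  -- every vertex can be isolated
  have hcrit : ∀ a, ∃ P : V → Fin (m + 1), Proper G P ∧ a ∈ Sing P := by
    intro a
    have h1 : (G.induce ({a}ᶜ : Set V)).Colorable m := by
      by_contra hc
      have h2 := hmin ({a}ᶜ : Set V) (by
        intro h
        have : a ∈ ({a}ᶜ : Set V) := by rw [h]; trivial
        exact this rfl) k hc
      exact hK ((model_of_hasK_induce h2).mono (Set.subset_univ _)).hasK
    obtain ⟨c, c1, c2⟩ := colOn_iff_induce.2 h1
    refine ⟨fun v => if h : v = a then Fin.last m else ⟨c v, Nat.lt_succ_of_lt (c1 v h)⟩, ?_, ?_⟩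
    · intro u v huv h
      by_cases hu : u = a <;> by_cases hv : v = a
      · subst hu; subst hv
        exact huv.ne rfl
      · simp only [hu, hv, dif_pos, dif_neg, not_false_eq_true, Fin.ext_iff, Fin.val_last] at h
        have := c1 v hv
        omega
      · simp only [hu, hv, dif_pos, dif_neg, not_false_eq_true, Fin.ext_iff, Fin.val_last] at h
        have := c1 u hu
        omega
      · simp only [hu, hv, dif_neg, not_false_eq_true, Fin.ext_iff] at h
        exact c2 u hu v hv huv h
    · rw [mem_sing]
      intro w hw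
      by_contra hwa
      simp only [hwa, dif_pos, dif_neg, not_false_eq_true, Fin.ext_iff, Fin.val_last] at hw
      have := c1 w hwa
      omega
  have hne : Nonempty V := by
    by_contra hempty
    rw [not_nonempty_iff] at hempty
    exact hk ⟨SimpleGraph.Coloring.mk (fun v => isEmptyElim v) (fun {v} => isEmptyElim v)⟩
  have hne' := hne
  obtain ⟨a0⟩ := hne
  have hcol : G.Colorable (m + 1) := by
    obtain ⟨P, hP, -⟩ := hcrit a0
    exact ⟨SimpleGraph.Coloring.mk P (fun {u v} huv => hP u v huv)⟩
  -- connectedness
  have hconn : Gᶜ.Preconnected := by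
    by_contra hdis
    unfold SimpleGraph.Preconnected at hdis
    push Not at hdis
    obtain ⟨x0, y0, hxy⟩ := hdis
    have hAB : ∀ a b, Gᶜ.Reachable x0 a → ¬ Gᶜ.Reachable x0 b → G.Adj a b := by
      intro a b ha hb
      by_contra hab
      have hne : a ≠ b := by
        rintro rfl
        exact hb ha
      exact hb (ha.trans (SimpleGraph.Adj.reachable ⟨hne, hab⟩))
    have hunif : ∀ x, (∀ v, v ≠ x → G.Adj v x) → False := by
      intro x hx
      apply hbad
      apply hadD_of_hcOnD
      apply hcOnD_of_universal x hx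
      apply hcOnD_of_hadD
      apply hmin
      intro h
      have : x ∈ ({x}ᶜ : Set V) := by rw [h]; trivial
      exact this rfl
    by_cases hA : ∀ a a', Gᶜ.Reachable x0 a → Gᶜ.Reachable x0 a' → a ≠ a' → G.Adj a a'
    · apply hunif x0
      intro v hv
      by_cases hvr : Gᶜ.Reachable x0 v
      · exact hA v x0 hvr (SimpleGraph.Reachable.refl _) hv
      · exact (hAB x0 v (SimpleGraph.Reachable.refl _) hvr).symm
    by_cases hB : ∀ a a', ¬ Gᶜ.Reachable x0 a → ¬ Gᶜ.Reachable x0 a' → a ≠ a' → G.Adj a a'
    · apply hunif y0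
      intro v hv
      by_cases hvr : Gᶜ.Reachable x0 v
      · exact hAB v y0 hvr hxy
      · exact hB v y0 hvr hxy hv
    push Not at hA hB
    obtain ⟨u, u', hu, hu', huu, hnu⟩ := hA
    obtain ⟨v, v', hv, hv', hvv, hnv⟩ := hB
    have hdomAB : ∀ a b, Gᶜ.Reachable x0 a → ¬ Gᶜ.Reachable x0 b → Dom G a b := by
      intro a b ha hb
      refine ⟨hAB a b ha hb, ?_⟩
      intro w _ _
      by_cases hw : Gᶜ.Reachable x0 w
      · exact Or.inr (hAB w b hw hb)
      · exact Or.inl (hAB a w ha hw).symm
    have hneAB : ∀ a b, Gᶜ.Reachable x0 a → ¬ Gᶜ.Reachable x0 b → a ≠ b := by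
      rintro a b ha hb rfl
      exact hb ha
    apply hbad
    apply hadD_of_hcOnD
    refine hcOnD_univ_of_dom (ι := Bool) (fun i => if i then u else u') (fun i => if i then v else v')
      ?_ ?_ ({u, u', v, v'}ᶜ : Set V) ?_ ?_ ?_ ?_
    · intro i
      cases i
      · simpa using hdomAB u' v' hu' hv'
      · simpa using hdomAB u v hu hv
    · intro i j hij
      cases i <;> cases j
      · exact absurd rfl hij
      · simp only [Bool.false_eq_true, if_false, if_true]
        exact ⟨huu.symm, hneAB _ _ hu' hv, (hneAB _ _ hu hv').symm, hvv.symm⟩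
      · simp only [Bool.false_eq_true, if_false, if_true]
        exact ⟨huu, hneAB _ _ hu hv', (hneAB _ _ hu' hv).symm, hvv⟩
      · exact absurd rfl hij
    · intro i
      cases i <;> simp
    · intro i
      cases i <;> simp
    · refine ColOn.of_rel (ι := Bool) (fun x i => if i then (x = u ∨ x = u') else (x = v ∨ x = v'))
        ?_ ?_ le_rfl
      · intro x hx
        simp only [compl_compl, Set.mem_insert_iff, Set.mem_singleton_iff] at hx
        rcases hx with h | h | h | h
        · exact ⟨true, by simp [h]⟩
        · exact ⟨true, by simp [h]⟩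
        · exact ⟨false, by simp [h]⟩
        · exact ⟨false, by simp [h]⟩
      · rintro x - y - i h1 h2 hxy'
        cases i
        · simp only [Bool.false_eq_true, if_false] at h1 h2
          rcases h1 with rfl | rfl <;> rcases h2 with rfl | rfl
          · exact hxy'.ne rfl
          · exact hnv hxy'
          · exact hnv hxy'.symm
          · exact hxy'.ne rfl
        · simp only [if_true] at h1 h2
          rcases h1 with rfl | rfl <;> rcases h2 with rfl | rfl
          · exact hxy'.ne rfl
          · exact hnu hxy'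
          · exact hnu hxy'.symm
          · exact hxy'.ne rfl
    · apply hcOnD_of_hadD
      apply hmin
      intro h
      have : u ∈ ({u, u', v, v'}ᶜ : Set V) := by rw [h]; trivial
      exact this (by simp)
  refine ⟨⟨hconn⟩, ?_⟩
  intro k' hk'
  have h1 : k' ≤ m := by
    by_contra hcon
    push Not at hcon
    exact hk' (hcol.mono hcon)
  obtain ⟨c, hc, hcs⟩ := gallai_core hk hcol hconn (Or.inr hcrit)
  have := card_of_sing hk hc
  omega

end Pool.Agent.Lib.H80
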