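import Mathlib
import Pool.Agent.Lib.H80HC
import Pool.Agent.Lib.H80Match

/-!
Pairing the edges of a maximal matching of the complement (helper80).
-/

set_option autoImplicit false

namespace Pool.Agent.Lib.H80

open SimpleGraph Finset

variable {V : Type*}

lemma Dom.symm {G : SimpleGraph V} {a b : V} (h : Dom G a b) : Dom G b a :=
  ⟨h.1.symm, fun w h1 h2 => (h.2 w h2 h1).symm⟩

/-- Two pairs are compatible when they can be turned into two dominating edges. -/
def Compat (G : SimpleGraph V) (e f : V × V) : Prop :=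
  (Dom G e.1 f.1 ∧ Dom G e.2 f.2) ∨ (Dom G e.1 f.2 ∧ Dom G e.2 f.1)

lemma Compat.symm {G : SimpleGraph V} {e f : V × V} (h : Compat G e f) : Compat G f e := by
  rcases h with h | h
  · exact Or.inl ⟨h.1.symm, h.2.symm⟩
  · exact Or.inr ⟨h.2.symm, h.1.symm⟩

/-- If every edge of a maximal matching of the complement is compatible with about half of the
others then Hadwiger's conjecture holds. -/
theorem hcOn_of_compat {G : SimpleGraph V} [Fintype V] [DecidableEq V] (M : Finset (V × V))
    (hM : IsM (fun u v => ¬ G.Adj u v) M)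
    (hmax : ∀ u v, u ∉ cov M → v ∉ cov M → u ≠ v → G.Adj u v)
    [DecidableRel (Compat G)]
    (hdeg : ∀ e ∈ M, M.card ≤ 2 * (M.filter (fun f => f ≠ e ∧ Compat G e f)).card + 1) :
    HCOn G Set.univ := by
  classical
  obtain ⟨P, hP, hP1⟩ := exists_near_perfect (α := M) (fun e f => Compat G e.1 f.1)
    (fun a b h => h.symm) (by
      intro a
      have h := hdeg a.1 a.2
      have hc : (univ.filter (fun b : M => b ≠ a ∧ Compat G a.1 b.1)).card =
          (M.filter (fun f => f ≠ a.1 ∧ Compat G a.1 f)).card := by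
        rw [← Finset.card_map (Function.Embedding.subtype _)]
        congr 1
        ext x
        simp only [Finset.mem_map, Finset.mem_filter, Finset.mem_univ, true_and,
          Function.Embedding.subtype_apply, Subtype.exists, exists_and_right, exists_eq_right]
        constructor
        · rintro ⟨⟨hx, h1⟩, h2⟩
          exact ⟨hx, fun h => h1 (Subtype.ext h), h2⟩
        · rintro ⟨hx, h1, h2⟩
          exact ⟨⟨hx, fun h => h1 (congrArg Subtype.val h)⟩, h2⟩
      rw [Fintype.card_coe, hc]
      exact h)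
  -- membership in an edge of the matching
  have hmemM : ∀ e f : M, ∀ x : V, (x = e.1.1 ∨ x = e.1.2) → (x = f.1.1 ∨ x = f.1.2) → e = f := by
    intro e f x h1 h2
    by_contra hne
    obtain ⟨g1, g2, g3, g4⟩ := hM.2.2 e.1 e.2 f.1 f.2 (fun h => hne (Subtype.ext h))
    rcases h1 with rfl | rfl <;> rcases h2 with h2 | h2
    · exact g1 h2
    · exact g2 h2
    · exact g3 h2
    · exact g4 h2
  have hne12 : ∀ e : M, e.1.1 ≠ e.1.2 := fun e => hM.2.1 e.1 e.2
  have hnadj : ∀ e : M, ¬ G.Adj e.1.1 e.1.2 := fun e => hM.1 e.1 e.2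
  -- the two dominating edges of a pair
  let str : M × M → Prop := fun p => Dom G p.1.1.1 p.2.1.1 ∧ Dom G p.1.1.2 p.2.1.2
  let A : P × Bool → V := fun i => if i.2 then i.1.1.1.1.1 else i.1.1.1.1.2
  let B : P × Bool → V := fun i =>
    if str i.1.1 then (if i.2 then i.1.1.2.1.1 else i.1.1.2.1.2)
    else (if i.2 then i.1.1.2.1.2 else i.1.1.2.1.1)
  have hA : ∀ i, A i = i.1.1.1.1.1 ∨ A i = i.1.1.1.1.2 := by
    intro i
    simp only [A]
    split_ifs
    · exact Or.inl rfl
    · exact Or.inr rfl
  have hB : ∀ i, B i = i.1.1.2.1.1 ∨ B i = i.1.1.2.1.2 := by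
    intro i
    simp only [B]
    split_ifs
    · exact Or.inl rfl
    · exact Or.inr rfl
    · exact Or.inr rfl
    · exact Or.inl rfl
  have hPne : ∀ p : P, p.1.1 ≠ p.1.2 := fun p => hP.2.1 p.1 p.2
  have hdom : ∀ i, Dom G (A i) (B i) := by
    rintro ⟨⟨p, hp⟩, b⟩
    have hR := hP.1 p hp
    by_cases hs : str p
    · cases b
      · simpa [A, B, hs] using hs.2
      · simpa [A, B, hs] using hs.1
    · rcases hR with h | h
      · exact absurd h hs
      · cases b
        · simpa [A, B, hs] using h.2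
        · simpa [A, B, hs] using h.1
  have hdis : ∀ i j, i ≠ j → A i ≠ A j ∧ A i ≠ B j ∧ B i ≠ A j ∧ B i ≠ B j := by
    rintro ⟨p, b⟩ ⟨q, b'⟩ hij
    by_cases hpq : p = q
    · subst hpq
      have hbb : b ≠ b' := fun h => hij (by rw [h])
      refine ⟨?_, ?_, ?_, ?_⟩
      · cases b <;> cases b' <;> simp [A] at hbb ⊢
        · exact (hne12 _).symm
        · exact hne12 _
      · intro h
        exact hPne p (hmemM _ _ _ (hA (p, b)) (by rw [h]; exact hB (p, b')))
      · intro h
        exact hPne p (hmemM _ _ _ (hA (p, b')) (by rw [← h]; exact hB (p, b)))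
      · by_cases hs : str p.1
        · cases b <;> cases b' <;> simp [B, hs] at hbb ⊢
          · exact (hne12 _).symm
          · exact hne12 _
        · cases b <;> cases b' <;> simp [B, hs] at hbb ⊢
          · exact hne12 _
          · exact (hne12 _).symm
    · obtain ⟨g1, g2, g3, g4⟩ := hP.2.2 p.1 p.2 q.1 q.2 (fun h => hpq (Subtype.ext h))
      refine ⟨?_, ?_, ?_, ?_⟩
      · intro h
        exact g1 (hmemM _ _ _ (hA (p, b)) (by rw [h]; exact hA (q, b')))
      · intro h
        exact g2 (hmemM _ _ _ (hA (p, b)) (by rw [h]; exact hB (q, b')))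
      · intro h
        exact g3 (hmemM _ _ _ (hB (p, b)) (by rw [h]; exact hA (q, b')))
      · intro h
        exact g4 (hmemM _ _ _ (hB (p, b)) (by rw [h]; exact hB (q, b')))
  -- the remaining set
  let S : Set V := {x | ¬ ∃ i : P × Bool, (x = i.1.1.1.1.1 ∨ x = i.1.1.1.1.2) ∨
    (x = i.1.1.2.1.1 ∨ x = i.1.1.2.1.2)}
  have hSA : ∀ i, A i ∉ S := fun i h => h ⟨i, Or.inl (hA i)⟩
  have hSB : ∀ i, B i ∉ S := fun i h => h ⟨i, Or.inr (hB i)⟩
  -- the colouring of the complement of `S`
  have hcolex : ∀ x, x ∉ S → ∃ i : P × Bool,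
      (i.2 = true ∧ (x = i.1.1.1.1.1 ∨ x = i.1.1.1.1.2)) ∨
      (i.2 = false ∧ (x = i.1.1.2.1.1 ∨ x = i.1.1.2.1.2)) := by
    intro x hx
    simp only [S, Set.mem_ofPred_eq, not_not] at hx
    obtain ⟨i, h | h⟩ := hx
    · exact ⟨(i.1, true), Or.inl ⟨rfl, h⟩⟩
    · exact ⟨(i.1, false), Or.inr ⟨rfl, h⟩⟩
  refine hcOn_univ_of_dom A B hdom hdis S hSA hSB ?_ ?_
  · refine ColOn.of_rel (fun x (i : P × Bool) =>
      (i.2 = true ∧ (x = i.1.1.1.1.1 ∨ x = i.1.1.1.1.2)) ∨
      (i.2 = false ∧ (x = i.1.1.2.1.1 ∨ x = i.1.1.2.1.2))) hcolex ?_ le_rfl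
    rintro u - v - i h1 h2 huv
    rcases h1 with ⟨t1, h1⟩ | ⟨t1, h1⟩ <;> rcases h2 with ⟨t2, h2⟩ | ⟨t2, h2⟩
    · rcases h1 with h1 | h1 <;> rcases h2 with h2 | h2
      · exact huv.ne (h1.trans h2.symm)
      · rw [h1, h2] at huv; exact hnadj _ huv
      · rw [h1, h2] at huv; exact hnadj _ huv.symm
      · exact huv.ne (h1.trans h2.symm)
    · rw [t1] at t2; exact absurd t2 (by decide)
    · rw [t1] at t2; exact absurd t2 (by decide)
    · rcases h1 with h1 | h1 <;> rcases h2 with h2 | h2
      · exact huv.ne (h1.trans h2.symm)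
      · rw [h1, h2] at huv; exact hnadj _ huv
      · rw [h1, h2] at huv; exact hnadj _ huv.symm
      · exact huv.ne (h1.trans h2.symm)
  · -- the remaining set is a clique or a clique and a nonadjacent pair
    have hUcl : ∀ u ∈ univ \ cov M, ∀ v ∈ univ \ cov M, u ≠ v → G.Adj u v := by
      intro u hu v hv huv
      simp only [Finset.mem_sdiff, Finset.mem_univ, true_and] at hu hv
      exact hmax u v hu hv huv
    by_cases hemp : univ \ cov P = ∅
    · have hSU : S = ((univ \ cov M : Finset V) : Set V) := by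
        ext x
        simp only [S, Set.mem_ofPred_eq, Finset.coe_sdiff, Finset.coe_univ, Set.mem_sdiff,
          Set.mem_univ, true_and, Finset.mem_coe]
        constructor
        · intro h hx
          obtain ⟨e, he, hxe⟩ := mem_cov.1 hx
          have : (⟨e, he⟩ : M) ∈ cov P := by
            by_contra hne
            have : (⟨e, he⟩ : M) ∈ univ \ cov P := by simp [hne]
            rw [hemp] at this
            simp at this
          obtain ⟨p, hp, h1 | h1⟩ := mem_cov.1 this
          · exact h ⟨(⟨p, hp⟩, true), Or.inl (by rw [← h1]; exact hxe)⟩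
          · exact h ⟨(⟨p, hp⟩, true), Or.inr (by rw [← h1]; exact hxe)⟩
        · rintro hx ⟨i, h | h⟩
          · exact hx (mem_cov.2 ⟨_, i.1.1.1.2, h⟩)
          · exact hx (mem_cov.2 ⟨_, i.1.1.2.2, h⟩)
      rw [hSU]
      exact hcOn_clique _ hUcl
    · obtain ⟨e0, he0⟩ := Finset.nonempty_iff_ne_empty.2 hemp
      have huniq : ∀ e, e ∉ cov P → e = e0 := by
        intro e he
        have : e ∈ univ \ cov P := by simp [he]
        exact Finset.card_le_one.1 hP1 e this e0 he0
      have he0' : e0 ∉ cov P := by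
        simpa using he0
      have hSU : S = ((insert e0.1.1 (insert e0.1.2 (univ \ cov M)) : Finset V) : Set V) := by
        ext x
        simp only [S, Set.mem_ofPred_eq, Finset.coe_insert, Finset.coe_sdiff, Finset.coe_univ,
          Set.mem_insert_iff, Set.mem_sdiff, Set.mem_univ, true_and, Finset.mem_coe]
        constructor
        · intro h
          by_cases hx : x ∈ cov M
          · obtain ⟨e, he, hxe⟩ := mem_cov.1 hx
            by_cases hc : (⟨e, he⟩ : M) ∈ cov P
            · exfalso
              obtain ⟨p, hp, h1 | h1⟩ := mem_cov.1 hc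
              · exact h ⟨(⟨p, hp⟩, true), Or.inl (by rw [← h1]; exact hxe)⟩
              · exact h ⟨(⟨p, hp⟩, true), Or.inr (by rw [← h1]; exact hxe)⟩
            · have h2 := huniq _ hc
              rw [← h2]
              rcases hxe with h3 | h3
              · exact Or.inl h3
              · exact Or.inr (Or.inl h3)
          · exact Or.inr (Or.inr hx)
        · intro hx
          rintro ⟨i, hi⟩
          have hfin : ∀ f : M, f ∈ cov P → ¬ (x = f.1.1 ∨ x = f.1.2) := by
            intro f hf hxf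
            rcases hx with h | h | h
            · exact he0' (hmemM e0 f x (Or.inl h) hxf ▸ hf)
            · exact he0' (hmemM e0 f x (Or.inr h) hxf ▸ hf)
            · exact h (mem_cov.2 ⟨_, f.2, hxf⟩)
          rcases hi with h | h
          · exact hfin i.1.1.1 (mem_cov.2 ⟨_, i.1.2, Or.inl rfl⟩) h
          · exact hfin i.1.1.2 (mem_cov.2 ⟨_, i.1.2, Or.inr rfl⟩) h
      rw [hSU]
      refine hcOn_clique_pair _ hUcl _ _ ?_ ?_ (hnadj e0)
      · simp only [Finset.mem_sdiff, Finset.mem_univ, true_and, not_not]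
        exact mem_cov.2 ⟨_, e0.2, Or.inl rfl⟩
      · simp only [Finset.mem_sdiff, Finset.mem_univ, true_and, not_not]
        exact mem_cov.2 ⟨_, e0.2, Or.inr rfl⟩

end Pool.Agent.Lib.H80
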