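import Mathlib
import Pool.Agent.Lib.H80Compat

/-!
Dense graphs: every vertex has few non-neighbours (helper80).
-/

set_option autoImplicit false

namespace Pool.Agent.Lib.H80

open SimpleGraph Finset

variable {V : Type*}

/-- Non-neighbours of a vertex. -/
lemma card_nonDom_le {G : SimpleGraph V} [Fintype V] [DecidableEq V] [DecidableRel G.Adj] {d : ℕ}
    (hd : ∀ v, (univ.filter (fun w => w ≠ v ∧ ¬ G.Adj v w)).card ≤ d) (u : V)
    (B : Finset V) (hB : ∀ w ∈ B, w ≠ u ∧ ¬ Dom G u w) : B.card ≤ d ^ 2 := by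
  classical
  set N : V → Finset V := fun v => univ.filter (fun w => w ≠ v ∧ ¬ G.Adj v w) with hN
  have hsub : B ⊆ N u ∪ (N u).biUnion (fun z => (N z).erase u) := by
    intro w hw
    obtain ⟨hwu, hnd⟩ := hB w hw
    simp only [Finset.mem_union, Finset.mem_biUnion, Finset.mem_erase, hN, Finset.mem_filter,
      Finset.mem_univ, true_and]
    by_cases hadj : G.Adj u w
    · right
      unfold Dom at hnd
      push Not at hnd
      obtain ⟨z, hzu, hzw, h1, h2⟩ := hnd hadj
      exact ⟨z, ⟨hzu, fun h => h1 h.symm⟩, hwu, hzw.symm, h2⟩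
    · left
      exact ⟨hwu, hadj⟩
  have hNz : ∀ z ∈ N u, ((N z).erase u).card ≤ d - 1 := by
    intro z hz
    have hu : u ∈ N z := by
      simp only [hN, Finset.mem_filter, Finset.mem_univ, true_and] at hz ⊢
      exact ⟨hz.1.symm, fun h => hz.2 h.symm⟩
    rw [Finset.card_erase_of_mem hu]
    exact Nat.sub_le_sub_right (hd z) 1
  have h1 : ((N u).biUnion (fun z => (N z).erase u)).card ≤ d * (d - 1) := by
    refine (Finset.card_biUnion_le_card_mul _ _ (d - 1) hNz).trans ?_
    exact Nat.mul_le_mul_right _ (hd u)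
  have h2 : (N u).card ≤ d := hd u
  have h3 : B.card ≤ d + d * (d - 1) :=
    (Finset.card_le_card hsub).trans ((Finset.card_union_le _ _).trans (Nat.add_le_add h2 h1))
  rcases Nat.eq_zero_or_pos d with rfl | hpos
  · simpa using h3
  · have : d + d * (d - 1) = d ^ 2 := by
      obtain ⟨e, rfl⟩ : ∃ e, d = e + 1 := ⟨d - 1, by omega⟩
      simp only [Nat.add_sub_cancel]
      ring
    omega

lemma sum_inter_le {α : Type*} [DecidableEq α] {R : α → α → Prop} {P I : Finset (α × α)}
    (hP : IsM R P) (hI : I ⊆ P) (B : Finset α) :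
    ∑ f ∈ I, (({f.1, f.2} : Finset α) ∩ B).card ≤ B.card := by
  classical
  rw [← Finset.card_biUnion]
  · refine Finset.card_le_card ?_
    intro x hx
    simp only [Finset.mem_biUnion, Finset.mem_inter] at hx
    obtain ⟨f, -, -, h⟩ := hx
    exact h
  · intro p hp q hq hpq
    obtain ⟨h1, h2, h3, h4⟩ := hP.2.2 p (hI hp) q (hI hq) hpq
    refine Finset.disjoint_left.2 ?_
    intro x hx hx'
    simp only [Finset.mem_inter, Finset.mem_insert, Finset.mem_singleton] at hx hx'
    rcases hx.1 with rfl | rfl <;> rcases hx'.1 with h' | h'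
    · exact h1 h'
    · exact h2 h'
    · exact h3 h'
    · exact h4 h'

/-- Hadwiger's conjecture for graphs in which every vertex has at most `d` non-neighbours and whose
complement has a matching with `2 d ^ 2 - 1` edges. -/
theorem hcOn_of_dense {G : SimpleGraph V} [Fintype V] [DecidableEq V] [DecidableRel G.Adj] {d : ℕ}
    (hd : ∀ v, (univ.filter (fun w => w ≠ v ∧ ¬ G.Adj v w)).card ≤ d)
    (P0 : Finset (V × V)) (hP0 : IsM (fun u v => ¬ G.Adj u v) P0)
    (hcard : 2 * d ^ 2 ≤ P0.card + 1) : HCOn G Set.univ := by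
  classical
  have hne : (univ.filter (fun P : Finset (V × V) => IsM (fun u v => ¬ G.Adj u v) P)).Nonempty :=
    ⟨P0, by simp [hP0]⟩
  obtain ⟨P, hP, hPmax⟩ := Finset.exists_max_image _ (fun P : Finset (V × V) => P.card) hne
  simp only [Finset.mem_filter, Finset.mem_univ, true_and] at hP hPmax
  have hcardP : 2 * d ^ 2 ≤ P.card + 1 := hcard.trans (Nat.add_le_add_right (hPmax P0 hP0) 1)
  have hmax : ∀ u v, u ∉ cov P → v ∉ cov P → u ≠ v → G.Adj u v := by
    intro u v hu hv huv
    by_contra hadj
    obtain ⟨h1, h2⟩ := hP.insert_pair hu hv huv hadj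
    have := hPmax _ h1
    omega
  refine hcOn_of_compat P hP hmax ?_
  intro e he
  set B : V → Finset V := fun u => univ.filter (fun w => w ≠ u ∧ ¬ Dom G u w) with hB
  have hBcard : ∀ u, (B u).card ≤ d ^ 2 := fun u => card_nonDom_le hd u _ (by
    intro w hw
    simpa [hB] using hw)
  have hne12 := hP.2.1 e he
  have hnadj := hP.1 e he
  have hm1 : e.2 ∈ B e.1 := by
    simp only [hB, Finset.mem_filter, Finset.mem_univ, true_and]
    exact ⟨hne12.symm, fun h => hnadj h.1⟩
  have hm2 : e.1 ∈ B e.2 := by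
    simp only [hB, Finset.mem_filter, Finset.mem_univ, true_and]
    exact ⟨hne12, fun h => hnadj h.1.symm⟩
  set I := P.filter (fun f => f ≠ e ∧ ¬ Compat G e f) with hI
  have hIsub : I ⊆ P := Finset.filter_subset _ _
  have hsum : ∑ f ∈ I, 2 ≤ ∑ f ∈ I, ((({f.1, f.2} : Finset V) ∩ ((B e.1).erase e.2)).card +
      (({f.1, f.2} : Finset V) ∩ ((B e.2).erase e.1)).card) := by
    refine Finset.sum_le_sum ?_
    intro f hf
    simp only [hI, Finset.mem_filter] at hf
    obtain ⟨hfP, hfe, hnc⟩ := hf
    obtain ⟨g1, g2, g3, g4⟩ := hP.2.2 f hfP e he hfe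
    have hf12 := hP.2.1 f hfP
    -- membership facts
    have m1 : ∀ x ∈ ({f.1, f.2} : Finset V), ¬ Dom G e.1 x → x ∈ (B e.1).erase e.2 := by
      intro x hx hnd
      simp only [Finset.mem_insert, Finset.mem_singleton] at hx
      simp only [Finset.mem_erase, hB, Finset.mem_filter, Finset.mem_univ, true_and]
      rcases hx with rfl | rfl
      · exact ⟨g2, g1, hnd⟩
      · exact ⟨g4, g3, hnd⟩
    have m2 : ∀ x ∈ ({f.1, f.2} : Finset V), ¬ Dom G e.2 x → x ∈ (B e.2).erase e.1 := by
      intro x hx hnd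
      simp only [Finset.mem_insert, Finset.mem_singleton] at hx
      simp only [Finset.mem_erase, hB, Finset.mem_filter, Finset.mem_univ, true_and]
      rcases hx with rfl | rfl
      · exact ⟨g1, g2, hnd⟩
      · exact ⟨g3, g4, hnd⟩
    have two : ∀ (T : Finset V), f.1 ∈ T → f.2 ∈ T → 2 ≤ (({f.1, f.2} : Finset V) ∩ T).card := by
      intro T h1 h2
      have : ({f.1, f.2} : Finset V) ∩ T = {f.1, f.2} := by
        rw [Finset.inter_eq_left]
        intro x hx
        simp only [Finset.mem_insert, Finset.mem_singleton] at hx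
        rcases hx with rfl | rfl
        · exact h1
        · exact h2
      rw [this, Finset.card_pair hf12]
    have one : ∀ (T : Finset V), (f.1 ∈ T ∨ f.2 ∈ T) → 1 ≤ (({f.1, f.2} : Finset V) ∩ T).card := by
      intro T h
      rw [Nat.one_le_iff_ne_zero, ← Nat.pos_iff_ne_zero, Finset.card_pos]
      rcases h with h | h
      · exact ⟨f.1, by simp [h]⟩
      · exact ⟨f.2, by simp [h]⟩
    have i1 : f.1 ∈ ({f.1, f.2} : Finset V) := by simp
    have i2 : f.2 ∈ ({f.1, f.2} : Finset V) := by simp
    unfold Compat at hnc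
    push Not at hnc
    obtain ⟨n1, n2⟩ := hnc
    by_cases d1 : Dom G e.1 f.1
    · have d2 := n1 d1
      by_cases d3 : Dom G e.1 f.2
      · have d4 := n2 d3
        have := two _ (m2 _ i1 d4) (m2 _ i2 d2)
        omega
      · have a1 := one _ (Or.inr (m1 _ i2 d3))
        have a2 := one _ (Or.inr (m2 _ i2 d2))
        omega
    · by_cases d3 : Dom G e.1 f.2
      · have d4 := n2 d3
        have a1 := one _ (Or.inl (m1 _ i1 d1))
        have a2 := one _ (Or.inl (m2 _ i1 d4))
        omega
      · have := two _ (m1 _ i1 d1) (m1 _ i2 d3)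
        omega
  rw [Finset.sum_add_distrib, Finset.sum_const, smul_eq_mul] at hsum
  have s1 := sum_inter_le hP hIsub ((B e.1).erase e.2)
  have s2 := sum_inter_le hP hIsub ((B e.2).erase e.1)
  rw [Finset.card_erase_of_mem hm1] at s1
  rw [Finset.card_erase_of_mem hm2] at s2
  have c1 := hBcard e.1
  have c2 := hBcard e.2
  have p1 : 0 < (B e.1).card := Finset.card_pos.2 ⟨_, hm1⟩
  have p2 : 0 < (B e.2).card := Finset.card_pos.2 ⟨_, hm2⟩
  have hsplit : P.card = (P.filter (fun f => f ≠ e ∧ Compat G e f)).card + I.card + 1 := by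
    have h1 : P = insert e (P.filter (fun f => f ≠ e ∧ Compat G e f) ∪ I) := by
      ext f
      simp only [hI, Finset.mem_insert, Finset.mem_union, Finset.mem_filter]
      constructor
      · intro hf
        by_cases hfe : f = e
        · exact Or.inl hfe
        · by_cases hc : Compat G e f
          · exact Or.inr (Or.inl ⟨hf, hfe, hc⟩)
          · exact Or.inr (Or.inr ⟨hf, hfe, hc⟩)
      · rintro (rfl | h | h)
        · exact he
        · exact h.1
        · exact h.1
    have h2 : e ∉ (P.filter (fun f => f ≠ e ∧ Compat G e f) ∪ I) := by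
      simp [hI]
    have h3 : Disjoint (P.filter (fun f => f ≠ e ∧ Compat G e f)) I := by
      rw [Finset.disjoint_left]
      intro f hf hf'
      simp only [hI, Finset.mem_filter] at hf hf'
      exact hf'.2.2 hf.2.2
    conv_lhs => rw [h1]
    rw [Finset.card_insert_of_notMem h2, Finset.card_union_of_disjoint h3]
  omega

/-- From a matching subgraph to a set of ordered pairs. -/
lemma exists_isM_of_matching {G : SimpleGraph V} [Fintype V] (M : Gᶜ.Subgraph)
    (hM : M.IsMatching) : ∃ P : Finset (V × V), IsM (fun u v => ¬ G.Adj u v) P ∧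
      P.card = M.edgeSet.ncard := by
  classical
  have hfin : M.edgeSet.Finite := Set.toFinite _
  have hex : ∀ e : Sym2 V, ∃ p : V × V, s(p.1, p.2) = e := by
    intro e
    induction e with
    | _ a b => exact ⟨(a, b), rfl⟩
  choose r hr using hex
  have hinj : Function.Injective r := by
    intro e e' h
    rw [← hr e, ← hr e', h]
  refine ⟨hfin.toFinset.image r, ⟨?_, ?_, ?_⟩, ?_⟩
  · intro p hp
    simp only [Finset.mem_image, Set.Finite.mem_toFinset] at hp
    obtain ⟨e, he, rfl⟩ := hp
    rw [← hr e, SimpleGraph.Subgraph.mem_edgeSet] at he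
    exact (M.adj_sub he).2
  · intro p hp
    simp only [Finset.mem_image, Set.Finite.mem_toFinset] at hp
    obtain ⟨e, he, rfl⟩ := hp
    rw [← hr e, SimpleGraph.Subgraph.mem_edgeSet] at he
    exact (M.adj_sub he).ne
  · intro p hp q hq hpq
    simp only [Finset.mem_image, Set.Finite.mem_toFinset] at hp hq
    obtain ⟨e, he, rfl⟩ := hp
    obtain ⟨e', he', rfl⟩ := hq
    have hne : e ≠ e' := fun h => hpq (by rw [h])
    have a1 := he
    have a2 := he'
    rw [← hr e, SimpleGraph.Subgraph.mem_edgeSet] at a1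
    rw [← hr e', SimpleGraph.Subgraph.mem_edgeSet] at a2
    have key : ∀ x y z, M.Adj x y → M.Adj x z → y = z := by
      intro x y z h1 h2
      obtain ⟨w, -, hw⟩ := hM (M.edge_vert h1)
      rw [hw y h1, hw z h2]
    have fin : ∀ x y z w, s(x, y) = e → s(z, w) = e' → M.Adj x y → M.Adj z w → x ≠ z := by
      rintro x y z w h1 h2 h3 h4 rfl
      have := key _ _ _ h3 h4
      subst this
      exact hne (h1.symm.trans h2)
    refine ⟨?_, ?_, ?_, ?_⟩
    · exact fin _ _ _ _ (hr e) (hr e') a1 a2
    · exact fin _ _ _ _ (hr e) (by rw [Sym2.eq_swap]; exact hr e') a1 a2.symm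
    · exact fin _ _ _ _ (by rw [Sym2.eq_swap]; exact hr e) (hr e') a1.symm a2
    · exact fin _ _ _ _ (by rw [Sym2.eq_swap]; exact hr e) (by rw [Sym2.eq_swap]; exact hr e')
        a1.symm a2.symm
  · rw [Finset.card_image_of_injective _ hinj, Set.ncard_eq_toFinset_card _ hfin]

end Pool.Agent.Lib.H80
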