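import Mathlib

/-!
Finite product spaces with the uniform measure: independence, exponential moments and the
symmetric Lovasz local lemma (variable version).
-/

set_option autoImplicit false

namespace Pool.Agent.LLL94

open Finset

section

variable {V : Type*} [Fintype V] [DecidableEq V] {Ω : V → Type*} [∀ v, Fintype (Ω v)]

/-- `f` depends only on the coordinates in `U`. -/
def Dep {β : Type*} (U : Finset V) (f : (∀ v, Ω v) → β) : Prop :=
  ∀ ω ω' : ∀ v, Ω v, (∀ v ∈ U, ω v = ω' v) → f ω = f ω'

/-- Use `a` on `U` and `b` off `U`. -/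
def mix (U : Finset V) (a b : ∀ v, Ω v) : ∀ v, Ω v := fun v => if v ∈ U then a v else b v

omit [Fintype V] [∀ v, Fintype (Ω v)] in
lemma mix_mix (U : Finset V) (a b : ∀ v, Ω v) : mix U (mix U a b) (mix U b a) = a := by
  funext v
  by_cases h : v ∈ U <;> simp [mix, h]

omit [Fintype V] [DecidableEq V] [∀ v, Fintype (Ω v)] in
lemma Dep.mono {β : Type*} {U U' : Finset V} {f : (∀ v, Ω v) → β} (h : Dep U f) (hU : U ⊆ U') :
    Dep U' f := fun ω ω' H => h ω ω' fun v hv => H v (hU hv)

/-- The sum over the whole space. -/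
noncomputable def Sm (f : (∀ v, Ω v) → ℝ) : ℝ := ∑ ω : (∀ v, Ω v), f ω

/-- Expectation for the uniform measure. -/
noncomputable def Ex (f : (∀ v, Ω v) → ℝ) : ℝ := Sm f / (Fintype.card (∀ v, Ω v) : ℝ)

/-- Independence. -/
lemma Sm_mul {U W : Finset V} (hUW : Disjoint U W) {f g : (∀ v, Ω v) → ℝ}
    (hf : Dep U f) (hg : Dep W g) :
    Sm (fun ω => f ω * g ω) * (Fintype.card (∀ v, Ω v) : ℝ) = Sm f * Sm g := by
  classical
  unfold Sm
  rw [Finset.sum_mul_sum, ← Finset.sum_product']
  have h1 : (∑ ω : (∀ v, Ω v), f ω * g ω) * (Fintype.card (∀ v, Ω v) : ℝ)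
      = ∑ x ∈ (Finset.univ : Finset (∀ v, Ω v)) ×ˢ (Finset.univ : Finset (∀ v, Ω v)),
        f x.1 * g x.1 := by
    rw [Finset.sum_product]
    simp only [Finset.sum_const, Finset.card_univ, nsmul_eq_mul]
    rw [Finset.sum_mul]
    exact Finset.sum_congr rfl fun x _ => by ring
  rw [h1]
  refine Finset.sum_bij' (fun x _ => (mix U x.1 x.2, mix U x.2 x.1))
    (fun x _ => (mix U x.1 x.2, mix U x.2 x.1)) ?_ ?_ ?_ ?_ ?_
  · intro x _; simp
  · intro x _; simp
  · intro x _; simp [mix_mix]
  · intro x _; simp [mix_mix]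
  · rintro ⟨a, b⟩ _
    have e1 : f (mix U a b) = f a := by
      apply hf
      intro v hv
      simp [mix, hv]
    have e2 : g (mix U b a) = g a := by
      apply hg
      intro v hv
      have : v ∉ U := fun h => (Finset.disjoint_left.mp hUW h) hv
      simp [mix, this]
    simp only [e1, e2]

lemma card_pos_real [∀ v, Nonempty (Ω v)] : (0 : ℝ) < (Fintype.card (∀ v, Ω v) : ℝ) := by
  exact_mod_cast Fintype.card_pos

lemma Ex_mul [∀ v, Nonempty (Ω v)] {U W : Finset V} (hUW : Disjoint U W)
    {f g : (∀ v, Ω v) → ℝ} (hf : Dep U f) (hg : Dep W g) :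
    Ex (fun ω => f ω * g ω) = Ex f * Ex g := by
  have h := Sm_mul hUW hf hg
  have hc := card_pos_real (V := V) (Ω := Ω)
  unfold Ex
  rw [div_mul_div_comm, ← h]
  field_simp

lemma Ex_const [∀ v, Nonempty (Ω v)] (c : ℝ) : Ex (fun _ : (∀ v, Ω v) => c) = c := by
  have hc := card_pos_real (V := V) (Ω := Ω)
  unfold Ex Sm
  simp only [Finset.sum_const, Finset.card_univ, nsmul_eq_mul]
  field_simp

lemma Ex_mono {f g : (∀ v, Ω v) → ℝ} (h : ∀ ω, f ω ≤ g ω) : Ex f ≤ Ex g := by
  unfold Ex Sm
  gcongr
  exact h _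

lemma Ex_add (f g : (∀ v, Ω v) → ℝ) : Ex (fun ω => f ω + g ω) = Ex f + Ex g := by
  unfold Ex Sm
  rw [Finset.sum_add_distrib, add_div]

lemma Ex_sub (f g : (∀ v, Ω v) → ℝ) : Ex (fun ω => f ω - g ω) = Ex f - Ex g := by
  unfold Ex Sm
  rw [Finset.sum_sub_distrib, sub_div]

lemma Ex_smul (c : ℝ) (f : (∀ v, Ω v) → ℝ) : Ex (fun ω => c * f ω) = c * Ex f := by
  unfold Ex Sm
  rw [← Finset.mul_sum, mul_div_assoc]

lemma Ex_sum {ι : Type*} (s : Finset ι) (f : ι → (∀ v, Ω v) → ℝ) :
    Ex (fun ω => ∑ i ∈ s, f i ω) = ∑ i ∈ s, Ex (f i) := by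
  unfold Ex Sm
  rw [Finset.sum_comm, Finset.sum_div]

lemma Ex_nonneg {f : (∀ v, Ω v) → ℝ} (h : ∀ ω, 0 ≤ f ω) : 0 ≤ Ex f := by
  unfold Ex Sm
  exact div_nonneg (Finset.sum_nonneg fun _ _ => h _) (by positivity)

/-- Probability of an event. -/
noncomputable def Pr (A : (∀ v, Ω v) → Prop) : ℝ := by
  classical
  exact Ex fun ω => if A ω then 1 else 0

lemma Pr_def (A : (∀ v, Ω v) → Prop) [DecidablePred A] :
    Pr A = Ex fun ω => if A ω then (1 : ℝ) else 0 := by
  unfold Pr
  congr 1
  funext ω
  by_cases h : A ω <;> simp [h]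

lemma Pr_nonneg (A : (∀ v, Ω v) → Prop) : 0 ≤ Pr A := by
  classical
  rw [Pr_def]
  apply Ex_nonneg
  intro ω
  split_ifs <;> norm_num

lemma Pr_mono {A B : (∀ v, Ω v) → Prop} (h : ∀ ω, A ω → B ω) : Pr A ≤ Pr B := by
  classical
  rw [Pr_def, Pr_def]
  apply Ex_mono
  intro ω
  by_cases hA : A ω
  · simp [hA, h ω hA]
  · simp only [hA, if_false]
    split_ifs <;> norm_num

lemma Pr_and [∀ v, Nonempty (Ω v)] {U W : Finset V} (hUW : Disjoint U W)
    {A B : (∀ v, Ω v) → Prop} (hA : Dep U A) (hB : Dep W B) :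
    Pr (fun ω => A ω ∧ B ω) = Pr A * Pr B := by
  classical
  rw [Pr_def, Pr_def, Pr_def, ← Ex_mul hUW]
  · congr 1
    funext ω
    by_cases h1 : A ω <;> by_cases h2 : B ω <;> simp [h1, h2]
  · intro ω ω' h
    have := hA ω ω' h
    simp [this]
  · intro ω ω' h
    have := hB ω ω' h
    simp [this]

lemma Pr_true [∀ v, Nonempty (Ω v)] : Pr (fun _ : (∀ v, Ω v) => True) = 1 := by
  classical
  rw [Pr_def]
  simp [Ex_const]

/-- Markov's inequality. -/
lemma Pr_le_of_markov {A : (∀ v, Ω v) → Prop} {f : (∀ v, Ω v) → ℝ} (hf : ∀ ω, 0 ≤ f ω)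
    {K : ℝ} (hK : 0 < K) (h : ∀ ω, A ω → K ≤ f ω) : Pr A ≤ Ex f / K := by
  classical
  rw [Pr_def, le_div_iff₀ hK, mul_comm, ← Ex_smul]
  apply Ex_mono
  intro ω
  by_cases hA : A ω
  · simp [hA, h ω hA]
  · simp [hA, hf ω]

/-- Expectation of a product of functions depending on pairwise disjoint sets. -/
lemma Ex_prod [∀ v, Nonempty (Ω v)] {ι : Type*} [DecidableEq ι] (s : Finset ι)
    (U : ι → Finset V) (hU : ∀ i ∈ s, ∀ j ∈ s, i ≠ j → Disjoint (U i) (U j))
    (f : ι → (∀ v, Ω v) → ℝ) (hf : ∀ i ∈ s, Dep (U i) (f i)) :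
    Ex (fun ω => ∏ i ∈ s, f i ω) = ∏ i ∈ s, Ex (f i) := by
  induction s using Finset.induction_on with
  | empty => simp [Ex_const]
  | insert a s ha ih =>
    have e : (fun ω => ∏ i ∈ insert a s, f i ω) = fun ω => f a ω * ∏ i ∈ s, f i ω := by
      funext ω; rw [Finset.prod_insert ha]
    rw [e, Ex_mul (U := U a) (W := s.biUnion U), ih, Finset.prod_insert ha]
    · intro i hi j hj hij
      exact hU i (Finset.mem_insert_of_mem hi) j (Finset.mem_insert_of_mem hj) hij
    · intro i hi
      exact hf i (Finset.mem_insert_of_mem hi)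
    · rw [Finset.disjoint_biUnion_right]
      intro i hi
      apply hU a (Finset.mem_insert_self _ _) i (Finset.mem_insert_of_mem hi)
      rintro rfl
      exact ha hi
    · exact hf a (Finset.mem_insert_self _ _)
    · intro ω ω' h
      apply Finset.prod_congr rfl
      intro i hi
      apply hf i (Finset.mem_insert_of_mem hi)
      intro v hv
      exact h v (Finset.mem_biUnion.mpr ⟨i, hi, hv⟩)

/-- Expectation of a function of one coordinate. -/
lemma Ex_coord [∀ v, Nonempty (Ω v)] (p : V) (f : Ω p → ℝ) :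
    Ex (fun ω : (∀ v, Ω v) => f (ω p)) = (∑ a : Ω p, f a) / (Fintype.card (Ω p) : ℝ) := by
  classical
  let F : ∀ v, Ω v → ℝ := fun v a => if h : v = p then f (h ▸ a) else 1
  have h1 : ∀ ω : (∀ v, Ω v), f (ω p) = ∏ v, F v (ω v) := by
    intro ω
    rw [Finset.prod_eq_single p]
    · simp [F]
    · intro b _ hb
      simp [F, hb]
    · intro h
      exact absurd (Finset.mem_univ _) h
  have h2 : ∑ ω : (∀ v, Ω v), f (ω p) = ∏ v, ∑ a : Ω v, F v a := by
    rw [Finset.prod_univ_sum, Fintype.piFinset_univ]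
    exact Finset.sum_congr rfl fun ω _ => h1 ω
  have h3 : ∏ v, ∑ a : Ω v, F v a
      = (∑ a : Ω p, f a) * ∏ v ∈ Finset.univ.erase p, (Fintype.card (Ω v) : ℝ) := by
    rw [← Finset.mul_prod_erase _ _ (Finset.mem_univ p)]
    congr 1
    · simp [F]
    · apply Finset.prod_congr rfl
      intro v hv
      have hvp : v ≠ p := (Finset.mem_erase.mp hv).1
      simp [F, hvp]
  have h4 : (Fintype.card (∀ v, Ω v) : ℝ)
      = (Fintype.card (Ω p) : ℝ) * ∏ v ∈ Finset.univ.erase p, (Fintype.card (Ω v) : ℝ) := by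
    rw [Fintype.card_pi]
    push_cast
    rw [← Finset.mul_prod_erase _ _ (Finset.mem_univ p)]
  unfold Ex Sm
  rw [h2, h3, h4]
  have hpos : (0 : ℝ) < ∏ v ∈ Finset.univ.erase p, (Fintype.card (Ω v) : ℝ) := by
    apply Finset.prod_pos
    intro v _
    exact_mod_cast Fintype.card_pos
  rw [mul_div_mul_right _ _ hpos.ne']

end

section LLL

variable {V : Type*} [Fintype V] [DecidableEq V] {Ω : V → Type*} [∀ v, Fintype (Ω v)]
  [∀ v, Nonempty (Ω v)]

/-- The symmetric Lovasz local lemma, variable version. -/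
theorem lll {E : Type*} [DecidableEq E] (F : Finset E) (A : E → (∀ v, Ω v) → Prop)
    (vbl : E → Finset V) (hdep : ∀ e ∈ F, Dep (vbl e) (A e))
    (d : ℕ) (hd : 1 ≤ d)
    (hdeg : ∀ e ∈ F, ∀ S ⊆ F, (∀ f ∈ S, ¬ Disjoint (vbl e) (vbl f)) → S.card ≤ d)
    (hp : ∀ e ∈ F, 4 * (d : ℝ) * Pr (A e) ≤ 1) :
    ∃ ω, ∀ e ∈ F, ¬ A e ω := by
  classical
  have hd0 : (0 : ℝ) < d := by exact_mod_cast hd
  -- the good set avoiding all events of `S`
  let G : Finset E → (∀ v, Ω v) → Prop := fun S ω => ∀ f ∈ S, ¬ A f ω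
  have hGins : ∀ (S : Finset E) (f : E), Pr (G (insert f S)) = Pr (G S) - Pr (fun ω => A f ω ∧ G S ω) := by
    intro S f
    rw [Pr_def, Pr_def, Pr_def, ← Ex_sub]
    congr 1
    funext ω
    by_cases h1 : A f ω <;> by_cases h2 : G S ω
    · have : ¬ G (insert f S) ω := fun h => h f (Finset.mem_insert_self _ _) h1
      simp [h1, h2, this]
    · have : ¬ G (insert f S) ω := fun h => h f (Finset.mem_insert_self _ _) h1
      simp [h2, this]
    · have : G (insert f S) ω := by
        intro g hg
        rcases Finset.mem_insert.mp hg with rfl | hg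
        · exact h1
        · exact h2 g hg
      simp [h1, h2, this]
    · have : ¬ G (insert f S) ω := fun h => h2 fun g hg => h g (Finset.mem_insert_of_mem hg)
      simp [h2, this]
  -- union bound
  have hunion : ∀ (S1 S2 : Finset E),
      Pr (G S2) - ∑ f ∈ S1, Pr (fun ω => A f ω ∧ G S2 ω) ≤ Pr (G (S1 ∪ S2)) := by
    intro S1 S2
    rw [Pr_def, Pr_def]
    have e : (∑ f ∈ S1, Pr (fun ω => A f ω ∧ G S2 ω))
        = Ex (fun ω => ∑ f ∈ S1, if (A f ω ∧ G S2 ω) then (1 : ℝ) else 0) := by
      rw [Ex_sum]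
      exact Finset.sum_congr rfl fun f _ => Pr_def _
    rw [e, ← Ex_sub]
    apply Ex_mono
    intro ω
    have hnn : 0 ≤ ∑ f ∈ S1, (if (A f ω ∧ G S2 ω) then (1 : ℝ) else 0) :=
      Finset.sum_nonneg fun f _ => by split_ifs <;> norm_num
    by_cases h2 : G S2 ω
    · by_cases h3 : G (S1 ∪ S2) ω
      · simp only [h2, h3, if_true]
        have : 0 ≤ ∑ f ∈ S1, (if (A f ω ∧ G S2 ω) then (1 : ℝ) else 0) := hnn
        simp only [h2, and_true] at this ⊢
        linarith
      · -- some `f ∈ S1` has `A f ω`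
        have : ∃ f ∈ S1, A f ω := by
          by_contra hcon
          push Not at hcon
          apply h3
          intro g hg
          rcases Finset.mem_union.mp hg with hg | hg
          · exact hcon g hg
          · exact h2 g hg
        obtain ⟨f, hf, hAf⟩ := this
        have hle : (1 : ℝ) ≤ ∑ f ∈ S1, (if (A f ω ∧ G S2 ω) then (1 : ℝ) else 0) := by
          have := Finset.single_le_sum
            (f := fun f => (if (A f ω ∧ G S2 ω) then (1 : ℝ) else 0))
            (fun g _ => by split_ifs <;> norm_num) hf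
          simpa [hAf, h2] using this
        simp only [h3, if_false]
        rw [if_pos h2]
        linarith
    · have h3 : ¬ G (S1 ∪ S2) ω := fun h => h2 fun g hg => h g (Finset.mem_union_right _ hg)
      simp only [h3, if_false]
      rw [if_neg h2]
      linarith
  -- main claim by strong induction on the size
  have main : ∀ n : ℕ, ∀ S ⊆ F, S.card = n → 0 < Pr (G S) ∧
      ∀ e ∈ F, 2 * (d : ℝ) * Pr (fun ω => A e ω ∧ G S ω) ≤ Pr (G S) := by
    intro n
    induction n using Nat.strong_induction_on with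
    | _ n ih =>
      intro S hSF hSn
      -- positivity
      have hpos : 0 < Pr (G S) := by
        rcases S.eq_empty_or_nonempty with rfl | ⟨f, hf⟩
        · have : G ∅ = fun _ => True := by
            funext ω
            simp [G]
          rw [this, Pr_true]
          norm_num
        · have hS' : S = insert f (S.erase f) := (Finset.insert_erase hf).symm
          have hlt : (S.erase f).card < n := by
            rw [← hSn]
            exact Finset.card_erase_lt_of_mem hf
          have hsub : S.erase f ⊆ F := (Finset.erase_subset _ _).trans hSF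
          obtain ⟨h1, h2⟩ := ih _ hlt (S.erase f) hsub rfl
          have h3 := h2 f (hSF hf)
          rw [hS', hGins]
          have hnn := Pr_nonneg (fun ω => A f ω ∧ G (S.erase f) ω)
          have hd1 : (1 : ℝ) ≤ d := by exact_mod_cast hd
          nlinarith
      refine ⟨hpos, ?_⟩
      intro e he
      -- split S
      let S1 := S.filter fun f => ¬ Disjoint (vbl e) (vbl f)
      let S2 := S.filter fun f => Disjoint (vbl e) (vbl f)
      have hS12 : S1 ∪ S2 = S := by
        ext f
        simp only [S1, S2, Finset.mem_union, Finset.mem_filter]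
        tauto
      have hS1c : S1.card ≤ d := by
        apply hdeg e he S1 ((Finset.filter_subset _ _).trans hSF)
        intro f hf
        exact (Finset.mem_filter.mp hf).2
      have hS2F : S2 ⊆ F := (Finset.filter_subset _ _).trans hSF
      -- numerator
      have hnum : Pr (fun ω => A e ω ∧ G S ω) ≤ Pr (A e) * Pr (G S2) := by
        rw [← Pr_and (U := vbl e) (W := S2.biUnion vbl)]
        · apply Pr_mono
          rintro ω ⟨h1, h2⟩
          exact ⟨h1, fun f hf => h2 f (Finset.filter_subset _ _ hf)⟩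
        · rw [Finset.disjoint_biUnion_right]
          intro f hf
          exact (Finset.mem_filter.mp hf).2
        · exact hdep e he
        · intro ω ω' h
          simp only [G, eq_iff_iff]
          constructor
          · intro H f hf hA
            apply H f hf
            rw [hdep f (hS2F hf) ω ω' fun v hv => h v (Finset.mem_biUnion.mpr ⟨f, hf, hv⟩)]
            exact hA
          · intro H f hf hA
            apply H f hf
            rw [← hdep f (hS2F hf) ω ω' fun v hv => h v (Finset.mem_biUnion.mpr ⟨f, hf, hv⟩)]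
            exact hA
      have hpe := hp e he
      have hG2nn := Pr_nonneg (G S2)
      have hnum2 : 4 * (d : ℝ) * Pr (fun ω => A e ω ∧ G S ω) ≤ Pr (G S2) := by
        calc 4 * (d : ℝ) * Pr (fun ω => A e ω ∧ G S ω)
            ≤ 4 * (d : ℝ) * (Pr (A e) * Pr (G S2)) := by gcongr
          _ = (4 * (d : ℝ) * Pr (A e)) * Pr (G S2) := by ring
          _ ≤ 1 * Pr (G S2) := by gcongr
          _ = Pr (G S2) := one_mul _
      -- denominator
      have hden : Pr (G S2) ≤ 2 * Pr (G S) := by
        rcases S1.eq_empty_or_nonempty with hS1e | hS1ne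
        · have : S2 = S := by
            rw [← hS12, hS1e]
            simp
          rw [this]
          linarith
        · have hlt : S2.card < n := by
            rw [← hSn, ← hS12]
            rw [Finset.card_union_of_disjoint]
            · have := Finset.card_pos.mpr hS1ne
              omega
            · rw [Finset.disjoint_left]
              intro f h1 h2
              exact (Finset.mem_filter.mp h1).2 (Finset.mem_filter.mp h2).2
          obtain ⟨_, h2⟩ := ih _ hlt S2 hS2F rfl
          have hu := hunion S1 S2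
          rw [hS12] at hu
          have hsum : 2 * (d : ℝ) * ∑ f ∈ S1, Pr (fun ω => A f ω ∧ G S2 ω) ≤ d * Pr (G S2) := by
            rw [Finset.mul_sum]
            calc ∑ f ∈ S1, 2 * (d : ℝ) * Pr (fun ω => A f ω ∧ G S2 ω)
                ≤ ∑ f ∈ S1, Pr (G S2) := by
                  apply Finset.sum_le_sum
                  intro f hf
                  exact h2 f (hSF (Finset.filter_subset _ _ hf))
              _ = (S1.card : ℝ) * Pr (G S2) := by simp
              _ ≤ d * Pr (G S2) := by
                  gcongr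
          have hsum2 : 2 * ∑ f ∈ S1, Pr (fun ω => A f ω ∧ G S2 ω) ≤ Pr (G S2) := by
            by_contra hcon
            push Not at hcon
            have := mul_lt_mul_of_pos_left hcon hd0
            nlinarith
          linarith
      nlinarith
  obtain ⟨hpos, _⟩ := main F.card F (Finset.Subset.refl _) rfl
  by_contra hcon
  push Not at hcon
  have : Pr (G F) ≤ 0 := by
    rw [Pr_def]
    have : (fun ω => if G F ω then (1 : ℝ) else 0) = fun _ => 0 := by
      funext ω
      have : ¬ G F ω := by
        intro h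
        obtain ⟨e, he, hA⟩ := hcon ω
        exact h e he hA
      simp [this]
    rw [this, Ex_const]
  linarith

end LLL

end Pool.Agent.LLL94
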