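import Mathlib

/-!
# The Delta-system lemma for uncountable families of finite sets

Every uncountable family of finite sets has an uncountable subfamily which is a Delta-system.
-/

namespace Pool.Agent.Lib.DeltaSystem

open Set

variable {α ι : Type*}

/-- Delta-system lemma for sets of a fixed finite cardinality. -/
theorem deltaSystem_card [DecidableEq α] (n : ℕ) : ∀ (f : ι → Finset α) (S : Set ι),
    ¬ S.Countable → (∀ i ∈ S, (f i).card = n) →
    ∃ (R : Finset α) (T : Set ι), T ⊆ S ∧ ¬ T.Countable ∧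
      ∀ i ∈ T, ∀ j ∈ T, i ≠ j → f i ∩ f j = R := by
  induction n with
  | zero =>
    intro f S hS hcard
    refine ⟨∅, S, Subset.rfl, hS, ?_⟩
    intro i hi j _ _
    have : f i = ∅ := Finset.card_eq_zero.1 (hcard i hi)
    simp [this]
  | succ n ih =>
    intro f S hS hcard
    by_cases h : ∃ x, ¬ {i ∈ S | x ∈ f i}.Countable
    · obtain ⟨x, hx⟩ := h
      obtain ⟨R, T, hTS, hT, hR⟩ := ih (fun i => (f i).erase x) {i ∈ S | x ∈ f i} hx (by
        rintro i ⟨hi, hxi⟩
        rw [Finset.card_erase_of_mem hxi, hcard i hi]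
        rfl)
      refine ⟨insert x R, T, fun i hi => (hTS hi).1, hT, ?_⟩
      intro i hi j hj hij
      have h1 := hR i hi j hj hij
      have hxi : x ∈ f i := (hTS hi).2
      have hxj : x ∈ f j := (hTS hj).2
      rw [← h1]
      ext y
      simp only [Finset.mem_inter, Finset.mem_insert, Finset.mem_erase]
      by_cases hy : y = x
      · subst hy; simp [hxi, hxj]
      · simp [hy]
    · push Not at h
      -- a maximal pairwise disjoint subfamily
      obtain ⟨T, hTmax⟩ := zorn_subset {T : Set ι | T ⊆ S ∧ ∀ i ∈ T, ∀ j ∈ T, i ≠ j →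
          f i ∩ f j = ∅} (by
        intro c hc hchain
        refine ⟨⋃₀ c, ⟨?_, ?_⟩, fun s hs => subset_sUnion_of_mem hs⟩
        · exact sUnion_subset fun t ht => (hc ht).1
        · rintro i ⟨s, hs, his⟩ j ⟨t, ht, hjt⟩ hij
          rcases hchain.total hs ht with hst | hts
          · exact (hc ht).2 i (hst his) j hjt hij
          · exact (hc hs).2 i his j (hts hjt) hij)
      obtain ⟨⟨hTS, hTd⟩, hmax⟩ := hTmax
      refine ⟨∅, T, hTS, ?_, hTd⟩
      intro hTc
      have hU : (⋃ i ∈ T, (f i : Set α)).Countable :=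
        hTc.biUnion fun i _ => (f i).countable_toSet
      have hbad : (⋃ x ∈ (⋃ i ∈ T, (f i : Set α)), {i ∈ S | x ∈ f i}).Countable :=
        hU.biUnion fun x _ => h x
      have hne : (S \ ((⋃ x ∈ (⋃ i ∈ T, (f i : Set α)), {i ∈ S | x ∈ f i}) ∪ T)).Nonempty := by
        rw [Set.nonempty_iff_ne_empty, ne_eq, Set.sdiff_eq_empty]
        intro hsub
        exact hS ((hbad.union hTc).mono hsub)
      obtain ⟨i, hiS, hi⟩ := hne
      have hi1 : i ∉ T := fun h' => hi (Or.inr h')
      have hi2 : ∀ j ∈ T, f i ∩ f j = ∅ := by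
        intro j hj
        rw [Finset.eq_empty_iff_forall_notMem]
        intro x hx
        rw [Finset.mem_inter] at hx
        refine hi (Or.inl ?_)
        simp only [mem_iUnion, Finset.mem_coe, exists_prop, mem_ofPred_eq]
        exact ⟨x, ⟨j, hj, hx.2⟩, hiS, hx.1⟩
      have hins : insert i T ∈ {T : Set ι | T ⊆ S ∧ ∀ i ∈ T, ∀ j ∈ T, i ≠ j →
          f i ∩ f j = ∅} := by
        refine ⟨insert_subset hiS hTS, ?_⟩
        rintro a (rfl | ha) b (rfl | hb) hab
        · exact absurd rfl hab
        · exact hi2 b hb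
        · rw [Finset.inter_comm]; exact hi2 a ha
        · exact hTd a ha b hb hab
      exact hi1 (hmax hins (subset_insert i T) (mem_insert i T))

/-- **Delta-system lemma** (indexed version): an uncountable family of finite sets has an
uncountable subfamily any two distinct members of which have the same intersection `R`. -/
theorem deltaSystem [DecidableEq α] (f : ι → Finset α) (S : Set ι) (hS : ¬ S.Countable) :
    ∃ (R : Finset α) (T : Set ι), T ⊆ S ∧ ¬ T.Countable ∧
      ∀ i ∈ T, ∀ j ∈ T, i ≠ j → f i ∩ f j = R := by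
  have : ∃ n : ℕ, ¬ {i ∈ S | (f i).card = n}.Countable := by
    by_contra hcon
    push Not at hcon
    apply hS
    have : S ⊆ ⋃ n : ℕ, {i ∈ S | (f i).card = n} := by
      intro i hi
      simp only [mem_iUnion, mem_ofPred_eq]
      exact ⟨_, hi, rfl⟩
    exact (countable_iUnion hcon).mono this
  obtain ⟨n, hn⟩ := this
  obtain ⟨R, T, hT, hT2, hT3⟩ := deltaSystem_card n f _ hn (fun i hi => hi.2)
  exact ⟨R, T, fun i hi => (hT hi).1, hT2, hT3⟩

end Pool.Agent.Lib.DeltaSystem
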