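import Mathlib
import Pool.Agent.Lib.H4DepthOne

/-!
# Families of Lie elements with non-zero depth-one coefficient: independence
-/

set_option autoImplicit false

open Polynomial

namespace Pool.Agent.H4DM

noncomputable section

theorem cf_mul_single {α : Type} (p q : NC α) (a : α) :
    cf (p * q) [a] = cf p [a] * cf q [] + cf p [] * cf q [a] := by
  classical
  induction p using nc_induction with
  | hw l =>
    induction q using nc_induction with
    | hw m =>
      rw [← wd_append, cf_wd, cf_wd, cf_wd, cf_wd, cf_wd]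
      rcases l with _ | ⟨b, l⟩
      · simp
      · rcases m with _ | ⟨c, m⟩
        · simp
        · have h1 : ¬ (b :: l ++ c :: m = [a]) := by
            intro h
            have := congrArg List.length h
            simp at this
          rw [if_neg h1]
          simp
    | zero => simp
    | add x y hx hy => rw [mul_add, cf_add, hx, hy, cf_add, cf_add]; ring
    | smul c x hx => rw [mul_smul_comm, cf_smul, hx, cf_smul, cf_smul]; ring
  | zero => simp
  | add x y hx hy => rw [add_mul, cf_add, hx, hy, cf_add, cf_add]; ring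
  | smul c x hx => rw [smul_mul_assoc, cf_smul, hx, cf_smul, cf_smul]; ring

theorem cf_dT_letter_nil (n : ℕ+) : cf (dT (wd [n])) [] = 0 := by
  rw [dT_letter, cf_smul]
  rcases h : (n : ℕ) - 1 with _ | k
  · simp
  · rw [cf_yy_succ_nil, mul_zero]

theorem cf_dT_nil (P : NC ℕ+) : cf (dT P) [] = 0 := by
  induction P using nc_induction with
  | hw l =>
    rcases l with _ | ⟨a, l⟩
    · rw [wd_nil, dT_one]; rfl
    · rw [wd_cons, dT_mul, cf_add, cf_mul_nil, cf_mul_nil, cf_dT_letter_nil]
      have h0 : cf (wd [a]) [] = 0 := by rw [cf_wd, if_neg (by simp)]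
      rw [h0]; ring
  | zero => simp
  | add x y hx hy => rw [map_add, cf_add, hx, hy, add_zero]
  | smul c x hx => rw [map_smul, cf_smul, hx, mul_zero]

theorem cf_dT_single (P : NC ℕ+) (n : ℕ+) : cf (dT P) [n] = (n : ℚ) * cf P [n + 1] := by
  induction P using nc_induction with
  | hw l =>
    rcases l with _ | ⟨a, l⟩
    · rw [wd_nil, dT_one, cf_one_cons]; simp
    · rw [wd_cons, dT_mul, cf_add, cf_mul_single, cf_mul_single, cf_mul_single, cf_dT_letter_nil,
        cf_dT_nil]
      have h0 : cf (wd [a]) [] = 0 := by rw [cf_wd, if_neg (by simp)]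
      rw [h0]
      have h1 : cf (dT (wd [a])) [n] = (n : ℚ) * cf (wd [a]) [n + 1] := by
        rw [dT_letter, cf_smul, cf_wd]
        by_cases h : a = n + 1
        · subst h
          rw [if_pos rfl, PNat.add_coe, PNat.one_coe, Nat.add_sub_cancel, yy_coe, cf_wd,
            if_pos rfl]
        · rw [if_neg (by simpa using h), mul_zero]
          rcases hk : (a : ℕ) - 1 with _ | k
          · simp
          · rw [yy, cf_wd, if_neg, mul_zero]
            intro h'
            apply h
            have h2 : k.succPNat = n := by simpa using h'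
            apply PNat.eq
            rw [← h2, PNat.add_coe, PNat.one_coe, Nat.succPNat_coe]
            omega
      rw [h1]; ring
  | zero => simp
  | add x y hx hy => rw [map_add, cf_add, hx, hy, cf_add]; ring
  | smul c x hx => rw [map_smul, cf_smul, hx, cf_smul]; ring

/-- The coefficients of depth one of a Lie element. -/
theorem depth_one_coeff {f : NC (Fin 2)} {w : ℕ} (hLie : f ∈ Lie01) (h0 : cf f [0] = 0)
    (k : ℕ) (hk : k + 1 ≤ w) :
    (k.factorial : ℚ) * cf ((Th f).coeff (w - (k + 1))) [k.succPNat] =
      (-1) ^ k * ((w - 1).descFactorial k : ℚ) * cf ((Th f).coeff (w - 1)) [1] := by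
  induction k with
  | zero => simp; rfl
  | succ k ih =>
    have h1 := ih (by omega)
    have h2 := Th_d0_coeff f (w - (k + 1 + 1))
    rw [d0_eq_zero hLie h0, map_zero, Polynomial.coeff_zero] at h2
    have h3 := congrArg (fun p => cf p [k.succPNat]) h2
    simp only [cf_zero, cf_add, cf_smul, cf_dT_single] at h3
    have e1 : w - (k + 1 + 1) + 1 = w - (k + 1) := by omega
    have e2 : k.succPNat + 1 = (k + 1).succPNat := by
      apply PNat.eq; rw [PNat.add_coe, Nat.succPNat_coe, Nat.succPNat_coe, PNat.one_coe]
    have e3 : ((w - (k + 1 + 1) : ℕ) : ℚ) + 1 = ((w - 1 - k : ℕ) : ℚ) := by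
      have : w - (k + 1 + 1) + 1 = w - 1 - k := by omega
      rw [← this]; push_cast; rfl
    rw [e1, e2, e3, Nat.succPNat_coe] at h3
    rw [Nat.factorial_succ, Nat.descFactorial_succ]
    push_cast at h3 ⊢
    have h4 : ((k : ℚ) + 1) * cf ((Th f).coeff (w - (k + 1 + 1))) [(k + 1).succPNat] =
        -(((w - 1 - k : ℕ) : ℚ) * cf ((Th f).coeff (w - (k + 1))) [k.succPNat]) := by
      linarith
    calc ((k : ℚ) + 1) * (k.factorial : ℚ) *
          cf ((Th f).coeff (w - (k + 1 + 1))) [(k + 1).succPNat]
        = (k.factorial : ℚ) * (((k : ℚ) + 1) *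
          cf ((Th f).coeff (w - (k + 1 + 1))) [(k + 1).succPNat]) := by ring
      _ = -(((w - 1 - k : ℕ) : ℚ)) * ((k.factorial : ℚ) *
          cf ((Th f).coeff (w - (k + 1))) [k.succPNat]) := by rw [h4]; ring
      _ = _ := by rw [h1]; ring

variable {q : ℕ}

/-- A Vandermonde type statement. -/
theorem vandermonde_desc (v : Fin q → ℕ) (hv : Function.Injective v) (x : Fin q → ℚ)
    (h : ∀ k : Fin q, ∑ j, ((v j).descFactorial k : ℚ) * x j = 0) : x = 0 := by
  have hdet := Matrix.det_eval_matrixOfPolynomials_eq_det_vandermonde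
    (fun j : Fin q => ((v j : ℕ) : ℚ)) (fun k : Fin q => descPochhammer ℚ (k : ℕ))
    (fun k => descPochhammer_natDegree ℚ k) (fun k => monic_descPochhammer ℚ k)
  have hne : (Matrix.vandermonde (fun j : Fin q => ((v j : ℕ) : ℚ))).det ≠ 0 := by
    rw [Matrix.det_vandermonde_ne_zero_iff]
    intro a b hab
    apply hv
    have hab' : ((v a : ℕ) : ℚ) = ((v b : ℕ) : ℚ) := hab
    exact_mod_cast hab'
  rw [hdet] at hne
  apply Matrix.eq_zero_of_vecMul_eq_zero hne
  funext k
  rw [Matrix.vecMul, dotProduct]
  simp only [Matrix.of_apply, descPochhammer_eval_eq_descFactorial]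
  rw [Pi.zero_apply, ← h k]
  apply Finset.sum_congr rfl
  intro j _
  ring

/-- The homogeneous case. -/
theorem depth_one_indep_homog (f : Fin q → NC (Fin 2)) (w : Fin q → ℕ)
    (hLie : ∀ i, f i ∈ Lie01) (hhom : ∀ i, Hg wX (w i) (f i)) (hw : Function.Injective w)
    (hq : ∀ i, q ≤ w i) (hw2 : ∀ i, 2 ≤ w i)
    (hne : ∀ i, cf (f i) (List.replicate (w i - 1) 0 ++ [1]) ≠ 0)
    (h : Fin q → NC (Fin 2)) (M : ℕ) (hh : ∀ i l, cf (h i) l ≠ 0 → l.length + w i = M)
    (hs : ∑ i, sOp (f i) (h i) = 0) : ∀ i, h i = 0 := by
  -- basic facts on the `f i`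
  have hrep : ∀ i, cf (f i) (List.replicate (w i) 0) = 0 := by
    intro i
    have h1 := cf_reverse (hLie i) (List.replicate (w i) 0)
    have key : ∀ n : ℕ, 2 ≤ n → ∀ g : NC (Fin 2), g ∈ Lie01 → cf g (List.replicate n 0) = 0 := by
      intro n hn g hg
      obtain ⟨c, hc⟩ := d0_lie hg
      have h2 := Th_d0_coeff g (n - 1)
      have h3 := congrArg (fun p => cf p []) h2
      simp only [cf_add, cf_smul, cf_dT_nil, zero_add] at h3
      have e1 : n - 1 + 1 = n := by omega
      rw [hc, cf_Th, cf_smul, e1, cf_Th] at h3
      simp only [yw, List.nil_append] at h3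
      rw [cf_one_ne (by
        intro h'
        have := congrArg List.length h'
        simp at this
        omega), mul_zero] at h3
      have h4 : (((n - 1 : ℕ) : ℚ) + 1) ≠ 0 := by positivity
      exact (mul_eq_zero.mp h3.symm).resolve_left h4
    exact key (w i) (hw2 i) (f i) (hLie i)
  have hf0 : ∀ i, cf (f i) [0] = 0 := by
    intro i
    by_contra h1
    have := hhom i _ h1
    rw [wt_wX] at this
    have := hw2 i
    simp at *
    omega
  have hlead : ∀ i, cf ((Th (f i)).coeff (w i - 1)) [1] ≠ 0 := by
    intro i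
    rw [cf_Th]
    have h1 := cf_reverse (hLie i) (List.replicate (w i - 1) 0 ++ [1])
    have h2 : (List.replicate (w i - 1) (0 : Fin 2) ++ [1]).reverse =
        yw [1] ++ List.replicate (w i - 1) 0 := by
      simp [yw]
    rw [h2] at h1
    rw [h1]
    exact mul_ne_zero (pow_ne_zero _ (by norm_num)) (hne i)
  have hlead' : ∀ i, (Th (f i)).coeff (w i - 1) ≠ 0 := by
    intro i h1
    apply hlead i
    rw [h1]; rfl
  have hFt : ∀ i b t, cf ((Th (f i)).coeff b) t ≠ 0 → wt wY t + b = w i :=
    fun i b t ht => Hg_Th (hhom i) b t ht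
  have hHt : ∀ i b t, cf ((Th (h i)).coeff b) t ≠ 0 → wt wY t + b + w i = M := by
    intro i b t ht
    rw [cf_Th] at ht
    have h1 := hh i _ ht
    rw [List.length_append, length_yw, List.length_replicate] at h1
    exact h1
  have hFnil : ∀ i b, cf ((Th (f i)).coeff b) [] = 0 := by
    intro i b
    by_contra h1
    have h2 := hFt i b [] h1
    rw [wt_nil, zero_add] at h2
    apply h1
    rw [cf_Th, yw, List.nil_append, h2]
    exact hrep i
  -- suppose some `h i` is nonzero
  by_contra hcon
  push Not at hcon
  obtain ⟨i₀, hi₀⟩ := hcon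
  classical
  obtain ⟨i₁, hi₁mem, hi₁⟩ := Finset.exists_max_image
    (Finset.univ.filter (fun i => h i ≠ 0)) (fun i => (Th (h i)).natDegree + w i)
    ⟨i₀, by simp [hi₀]⟩
  rw [Finset.mem_filter] at hi₁mem
  set N := (Th (h i₁)).natDegree + w i₁ with hN
  have hbound : ∀ i s, (Th (h i)).coeff s ≠ 0 → s + w i ≤ N := by
    intro i s hs1
    have h1 : h i ≠ 0 := by
      rintro h2
      rw [h2, map_zero, Polynomial.coeff_zero] at hs1
      exact hs1 rfl
    have h2 := hi₁ i (by simp [h1])
    have h3 := Polynomial.le_natDegree_of_ne_zero hs1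
    omega
  -- the leading coefficients
  set η : Fin q → NC ℕ+ := fun i => if w i ≤ N then (Th (h i)).coeff (N - w i) else 0 with hη
  have hη₁ : η i₁ ≠ 0 := by
    rw [hη]
    simp only
    rw [if_pos (by omega)]
    have e1 : N - w i₁ = (Th (h i₁)).natDegree := by omega
    rw [e1]
    change (Th (h i₁)).leadingCoeff ≠ 0
    rw [Ne, Polynomial.leadingCoeff_eq_zero]
    exact Th_ne_zero hi₁mem.2
  -- the equations
  have heq : ∀ n, ∑ i, ((Th (h i) * Th (f i)).coeff n + delT (f i) ((Th (h i)).coeff n)) = 0 := by
    intro n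
    have h1 : ∑ i, (Th (sOp (f i) (h i))).coeff n = 0 := by
      rw [← Polynomial.finsetSum_coeff, ← map_sum, hs, map_zero, Polynomial.coeff_zero]
    rw [← h1]
    apply Finset.sum_congr rfl
    intro i _
    rw [Th_sOp_coeff]
  have claimB : ∀ (m : ℕ+) (n : ℕ) (i : Fin q), N < n + m →
      rq m ((Th (h i) * Th (f i)).coeff n) = 0 := by
    intro m n i hn
    rw [Polynomial.coeff_mul, map_sum]
    apply Finset.sum_eq_zero
    rintro ⟨s, t⟩ hst
    rw [Finset.HasAntidiagonal.mem_antidiagonal] at hst
    simp only at hst ⊢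
    rw [rq_mul, hFnil, zero_smul, add_zero]
    by_cases h1 : (Th (h i)).coeff s = 0
    · rw [h1, zero_mul]
    · have h2 := hbound i s h1
      have h3 : rq m ((Th (f i)).coeff t) = 0 := by
        by_contra h4
        obtain ⟨l, hl⟩ := exists_cf_ne h4
        rw [cf_rq] at hl
        have h5 := hFt i t _ hl
        rw [wt_append, wt_cons, wt_nil] at h5
        have e : wY m = (m : ℕ) := rfl
        omega
      rw [h3, mul_zero]
  have claimA : ∀ (m : ℕ+) (n : ℕ) (i : Fin q), n + m = N → (m : ℕ) ≤ w i →
      rq m ((Th (h i) * Th (f i)).coeff n) = (cf ((Th (f i)).coeff (w i - m)) [m]) • η i := by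
    intro m n i hn hm
    rw [Polynomial.coeff_mul, map_sum]
    by_cases hwN : w i ≤ N
    · rw [Finset.sum_eq_single (N - w i, w i - m)]
      · simp only
        rw [rq_mul, hFnil, zero_smul, add_zero]
        have h1 : rq m ((Th (f i)).coeff (w i - m)) =
            (cf ((Th (f i)).coeff (w i - m)) [m]) • (1 : NC ℕ+) := by
          apply cf_ext
          intro l
          rw [cf_rq, cf_smul]
          rcases l with _ | ⟨a, l⟩
          · rw [cf_one_nil, mul_one]; rfl
          · rw [cf_one_cons, mul_zero]
            by_contra h4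
            have h5 := hFt i _ _ h4
            rw [wt_append, wt_cons, wt_cons, wt_nil] at h5
            have e : wY m = (m : ℕ) := rfl
            have e2 := wY_pos a
            omega
        rw [h1, mul_smul_comm, mul_one, hη]
        simp only
        rw [if_pos hwN]
      · rintro ⟨s, t⟩ hst hne'
        rw [Finset.HasAntidiagonal.mem_antidiagonal] at hst
        simp only at hst ⊢
        rw [rq_mul, hFnil, zero_smul, add_zero]
        by_cases h1 : (Th (h i)).coeff s = 0
        · rw [h1, zero_mul]
        · have h2 := hbound i s h1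
          have h3 : rq m ((Th (f i)).coeff t) = 0 := by
            by_contra h4
            obtain ⟨l, hl⟩ := exists_cf_ne h4
            rw [cf_rq] at hl
            have h5 := hFt i t _ hl
            rw [wt_append, wt_cons, wt_nil] at h5
            have e : wY m = (m : ℕ) := rfl
            apply hne'
            rw [Prod.mk.injEq]
            omega
          rw [h3, mul_zero]
      · intro h'
        exfalso
        apply h'
        rw [Finset.HasAntidiagonal.mem_antidiagonal]
        simp only
        omega
    · rw [hη]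
      simp only
      rw [if_neg hwN, smul_zero]
      apply Finset.sum_eq_zero
      rintro ⟨s, t⟩ _
      simp only
      have h1 : (Th (h i)).coeff s = 0 := by
        by_contra h2
        have := hbound i s h2
        omega
      rw [h1, zero_mul, map_zero]
  -- the derivation terms do not contribute
  have claimD : ∀ (m : ℕ+) (n : ℕ) (i : Fin q), n + m = N → (m : ℕ) ≤ q →
      rq m (delT (f i) ((Th (h i)).coeff n)) = 0 := by
    intro m n i hn hm
    have hmi : (m : ℕ) ≤ w i := le_trans hm (hq i)
    rcases Nat.lt_or_ge (m : ℕ) (w i) with h1 | h1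
    · have h2 : (Th (h i)).coeff n = 0 := by
        by_contra h3
        have := hbound i n h3
        omega
      rw [h2, map_zero, map_zero]
    · have hmw : (m : ℕ) = w i := le_antisymm hmi h1
      have hHg : Hg wY (M - w i - n) ((Th (h i)).coeff n) := by
        intro t ht
        have := hHt i n t ht
        omega
      apply rq_delT_weight (hhom i) (hw2 i) (hrep i) (hlead' i) hHg
      · intro m' hm'
        have h3 := congrArg (rq m') (heq n)
        rw [map_sum, map_zero, Finset.sum_eq_single i] at h3
        · rw [map_add, claimB m' n i (by omega), zero_add] at h3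
          exact h3
        · intro j _ hji
          have hwj : w j ≠ w i := fun h' => hji (hw h')
          have h4 : (Th (h j)).coeff n = 0 := by
            by_contra h5
            have := hbound j n h5
            have := hq j
            omega
          rw [map_add, claimB m' n j (by omega), h4, map_zero, map_zero, add_zero]
        · intro h'
          exact absurd (Finset.mem_univ i) h'
      · have := hw2 i
        omega
  have hNq : q ≤ N := by
    have := hq i₁
    omega
  have hlin : ∀ m : ℕ+, (m : ℕ) ≤ q →
      ∑ i, (cf ((Th (f i)).coeff (w i - m)) [m]) • η i = 0 := by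
    intro m hm
    have h1 := congrArg (rq m) (heq (N - m))
    rw [map_sum, map_zero] at h1
    rw [← h1]
    apply Finset.sum_congr rfl
    intro i _
    rw [map_add, claimA m (N - m) i (by omega) (le_trans hm (hq i)),
      claimD m (N - m) i (by omega) hm, add_zero]
  apply hη₁
  apply cf_ext
  intro l
  rw [cf_zero]
  have hx : (fun i => cf ((Th (f i)).coeff (w i - 1)) [1] * cf (η i) l) = 0 := by
    apply vandermonde_desc (fun i => w i - 1)
    · intro a b hab
      apply hw
      simp only at hab
      have := hw2 a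
      have := hw2 b
      omega
    · intro k
      have h1 := congrArg (fun p => cf p l) (hlin (k : ℕ).succPNat (by
        rw [Nat.succPNat_coe]; exact k.isLt))
      simp only [cf_zero] at h1
      rw [cf_sum] at h1
      simp only [cf_smul, Nat.succPNat_coe] at h1
      have h2 : ∀ i, ((w i - 1).descFactorial k : ℚ) *
          (cf ((Th (f i)).coeff (w i - 1)) [1] * cf (η i) l) =
          ((-1) ^ (k : ℕ) * ((k : ℕ).factorial : ℚ)) *
          (cf ((Th (f i)).coeff (w i - (k : ℕ).succ)) [(k : ℕ).succPNat] * cf (η i) l) := by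
        intro i
        have h3 := depth_one_coeff (hLie i) (hf0 i) (w := w i) (k : ℕ)
          (le_trans k.isLt (hq i))
        have h4 : ((-1 : ℚ) ^ (k : ℕ)) * ((-1 : ℚ) ^ (k : ℕ)) = 1 := by
          rw [← pow_add, ← two_mul, pow_mul]; norm_num
        calc ((w i - 1).descFactorial k : ℚ) *
              (cf ((Th (f i)).coeff (w i - 1)) [1] * cf (η i) l)
            = (((-1 : ℚ) ^ (k : ℕ)) * ((-1 : ℚ) ^ (k : ℕ))) *
              (((w i - 1).descFactorial k : ℚ) * cf ((Th (f i)).coeff (w i - 1)) [1]) *
                cf (η i) l := by rw [h4]; ring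
          _ = ((-1 : ℚ) ^ (k : ℕ)) * ((-1) ^ (k : ℕ) * ((w i - 1).descFactorial k : ℚ) *
                cf ((Th (f i)).coeff (w i - 1)) [1]) * cf (η i) l := by ring
          _ = _ := by rw [← h3]; simp only [Nat.succ_eq_add_one]; ring
      simp only [h2]
      rw [← Finset.mul_sum, h1, mul_zero]
  have h2 := congrFun hx i₁
  simp only [Pi.zero_apply] at h2
  exact (mul_eq_zero.mp h2).resolve_left (hlead i₁)

end

end Pool.Agent.H4DM
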