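import Pool.Agent.Lib.H4VanCyc

/-!
# The counting theorem for MP_178164_nt (helper4)
-/

open Polynomial

namespace Pool.Agent.H4Van

/-- the coefficient of `(X - z)^a` in the Taylor expansion of `f` at `z` -/
noncomputable def cf (z : ℂ) (a : ℕ) (f : ℤ[X]) : ℂ :=
  (taylor z (f.map (Int.castRingHom ℂ))).coeff a

lemma cf_sub (z : ℂ) (a : ℕ) (f g : ℤ[X]) : cf z a (f - g) = cf z a f - cf z a g := by
  simp [cf]

lemma cf_key {z : ℂ} {g : ℤ[X]} (hg : aeval z g = 0) (a : ℕ) (h : ℤ[X]) :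
    cf z a (g ^ a * h) = aeval z (derivative g) ^ a * aeval z h := by
  have e1 : ∀ f : ℤ[X], eval z (f.map (Int.castRingHom ℂ)) = aeval z f := by
    intro f
    rw [eval_map, aeval_def]
    rfl
  have h0 : (taylor z (g.map (Int.castRingHom ℂ))).coeff 0 = 0 := by
    rw [taylor_coeff_zero, e1, hg]
  obtain ⟨q, hq⟩ := X_dvd_iff.2 h0
  have h1 : q.coeff 0 = aeval z (derivative g) := by
    have := taylor_coeff_one z (g.map (Int.castRingHom ℂ))
    rw [hq, coeff_X_mul, derivative_map, e1] at this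
    exact this
  have h2 : (taylor z (h.map (Int.castRingHom ℂ))).coeff 0 = aeval z h := by
    rw [taylor_coeff_zero, e1]
  rw [cf, Polynomial.map_mul, Polynomial.map_pow, taylor_mul, taylor_pow, hq, mul_pow, mul_assoc]
  have h3 : (X ^ a * (q ^ a * taylor z (h.map (Int.castRingHom ℂ)))).coeff a =
      (q ^ a * taylor z (h.map (Int.castRingHom ℂ))).coeff 0 := by
    have := coeff_X_pow_mul (q ^ a * taylor z (h.map (Int.castRingHom ℂ))) a 0
    simpa using this
  rw [h3, mul_coeff_zero, h2, coeff_zero_eq_eval_zero (q ^ a), eval_pow,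
    ← coeff_zero_eq_eval_zero, h1]

lemma cf_eq_sum (z : ℂ) (a n : ℕ) (f : ℤ[X]) (hf : f.natDegree ≤ n) :
    cf z a f = ∑ i ∈ Finset.range (n + 1),
      ((f.coeff i : ℤ) : ℂ) * (z ^ (i - a) * (i.choose a : ℂ)) := by
  have h : f.map (Int.castRingHom ℂ) =
      ∑ i ∈ Finset.range (n + 1), C (((f.coeff i : ℤ) : ℂ)) * X ^ i := by
    conv_lhs => rw [as_sum_range_C_mul_X_pow' f (Nat.lt_succ_of_le hf)]
    rw [Polynomial.map_sum]
    apply Finset.sum_congr rfl
    intro i _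
    simp
  rw [cf, h, map_sum, finsetSum_coeff]
  apply Finset.sum_congr rfl
  intro i _
  rw [taylor_mul, taylor_C, taylor_pow, taylor_X, coeff_C_mul, coeff_X_add_C_pow]

lemma sum_range_choose' (a N : ℕ) : ∑ i ∈ Finset.range N, i.choose a = N.choose (a + 1) := by
  induction N with
  | zero => simp
  | succ N ih => rw [Finset.sum_range_succ, ih, Nat.choose_succ_succ, add_comm]

lemma norm_cf_le {z : ℂ} (hz : ‖z‖ = 1) (a n : ℕ) (f : ℤ[X]) (hf : f.natDegree ≤ n) (B : ℝ)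
    (hB : ∀ i, |((f.coeff i : ℤ) : ℝ)| ≤ B) :
    ‖cf z a f‖ ≤ B * ((n + 1).choose (a + 1) : ℕ) := by
  rw [cf_eq_sum z a n f hf]
  refine (norm_sum_le _ _).trans ?_
  have h : ∀ i ∈ Finset.range (n + 1),
      ‖((f.coeff i : ℤ) : ℂ) * (z ^ (i - a) * (i.choose a : ℂ))‖ ≤ B * (i.choose a : ℝ) := by
    intro i _
    rw [norm_mul, norm_mul, norm_pow, hz, one_pow, one_mul]
    have h1 : ‖((f.coeff i : ℤ) : ℂ)‖ = |((f.coeff i : ℤ) : ℝ)| := by
      rw [Complex.norm_intCast]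
    have h2 : ‖(i.choose a : ℂ)‖ = (i.choose a : ℝ) := by simp
    rw [h1, h2]
    exact mul_le_mul_of_nonneg_right (hB i) (by positivity)
  refine (Finset.sum_le_sum h).trans ?_
  rw [← Finset.mul_sum, ← sum_range_choose' a (n + 1)]
  push_cast
  exact le_rfl

lemma cf_conj (z : ℂ) (a : ℕ) (f : ℤ[X]) :
    cf ((starRingEnd ℂ) z) a f = (starRingEnd ℂ) (cf z a f) := by
  rw [cf_eq_sum _ a f.natDegree f le_rfl, cf_eq_sum z a f.natDegree f le_rfl, map_sum]
  apply Finset.sum_congr rfl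
  intro i _
  simp

/-- real coordinates of the complex numbers `cf z a f` -/
noncomputable def rc (z : ℂ) (a : ℕ) (f : ℤ[X]) : ℝ :=
  if 0 ≤ z.im then (cf z a f).re else (cf z a f).im

lemma rc_sub (z : ℂ) (a : ℕ) (f g : ℤ[X]) : rc z a (f - g) = rc z a f - rc z a g := by
  unfold rc
  split_ifs <;> simp [cf_sub]

lemma abs_rc_le (z : ℂ) (a : ℕ) (f : ℤ[X]) : |rc z a f| ≤ ‖cf z a f‖ := by
  unfold rc
  split_ifs
  · exact Complex.abs_re_le_norm _
  · exact Complex.abs_im_le_norm _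

lemma norm_sq_cf_le (z : ℂ) (a : ℕ) (f : ℤ[X]) :
    ‖cf z a f‖ ^ 2 ≤ rc z a f ^ 2 + rc ((starRingEnd ℂ) z) a f ^ 2 := by
  rw [Complex.sq_norm, Complex.normSq_apply]
  unfold rc
  rw [cf_conj]
  simp only [Complex.conj_im, Complex.conj_re]
  rcases lt_trichotomy z.im 0 with h | h | h
  · rw [if_neg (not_le.2 h), if_pos (by linarith)]
    nlinarith
  · rw [if_pos h.ge, if_pos (by linarith)]
    have hz : (starRingEnd ℂ) z = z := by
      apply Complex.ext <;> simp [h]
    have h2 := cf_conj z a f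
    rw [hz] at h2
    have h3 := congrArg Complex.im h2
    rw [Complex.conj_im] at h3
    have h4 : (cf z a f).im = 0 := by linarith
    rw [h4]
    nlinarith [sq_nonneg (cf z a f).re]
  · rw [if_pos h.le, if_neg (by linarith)]
    nlinarith

/-- the bound below which the norms force divisibility -/
noncomputable def Rb (V : ℕ) (m : ℕ → ℕ) (d a : ℕ) : ℝ :=
  nrm d (derivative (cyclotomic d ℤ)) ^ a * ∏ e ∈ Finset.Ioc d V, nrm d (cyclotomic e ℤ) ^ m e

lemma cyc_deriv_not_dvd {d : ℕ} (hd : 0 < d) :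
    ¬ cyclotomic d ℤ ∣ derivative (cyclotomic d ℤ) := by
  intro h
  have h0 : 0 < (cyclotomic d ℤ).natDegree := by
    rw [natDegree_cyclotomic]; exact Nat.totient_pos.2 hd
  have h1 : derivative (cyclotomic d ℤ) ≠ 0 := by
    intro h2
    have := derivative_eq_zero.1 h2
    omega
  have h2 := natDegree_le_of_dvd h h1
  have h3 := natDegree_derivative_lt h0.ne'
  omega

lemma one_le_Rb {V : ℕ} (m : ℕ → ℕ) {d : ℕ} (hd : 0 < d) (a : ℕ) : 1 ≤ Rb V m d a := by
  unfold Rb
  have h1 : 1 ≤ nrm d (derivative (cyclotomic d ℤ)) ^ a :=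
    one_le_pow₀ (one_le_nrm hd (cyc_deriv_not_dvd hd))
  have h2 : 1 ≤ ∏ e ∈ Finset.Ioc d V, nrm d (cyclotomic e ℤ) ^ m e := by
    have h3 : ∏ e ∈ Finset.Ioc d V, (1 : ℝ) ≤ ∏ e ∈ Finset.Ioc d V,
        nrm d (cyclotomic e ℤ) ^ m e := by
      apply Finset.prod_le_prod
      · intro i _; exact zero_le_one
      · intro i hi
        rw [Finset.mem_Ioc] at hi
        exact one_le_pow₀ (one_le_nrm_cyc hd (by omega) (by omega))
    simpa using h3
  exact one_le_mul_of_one_le_of_one_le h1 h2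

lemma key (V : ℕ) (m : ℕ → ℕ) (Δ : ℤ[X])
    (h : ∀ d ∈ Finset.Icc 1 V, ∀ a < m d,
      ∏ z ∈ primitiveRoots d ℂ, ‖cf z a Δ‖ < Rb V m d a) :
    ∏ d ∈ Finset.Icc 1 V, cyclotomic d ℤ ^ m d ∣ Δ := by
  have main : ∀ j ≤ V, ∏ d ∈ Finset.Ioc (V - j) V, cyclotomic d ℤ ^ m d ∣ Δ := by
    intro j
    induction j with
    | zero => intro _; simp
    | succ j ih =>
      intro hj
      have ih' := ih (by omega)
      set d := V - j with hd
      have hd1 : 1 ≤ d := by omega
      have hI : Finset.Ioc (V - (j + 1)) V = insert d (Finset.Ioc d V) := by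
        ext x; simp only [Finset.mem_Ioc, Finset.mem_insert]; omega
      rw [hI, Finset.prod_insert (by simp)]
      set H := ∏ e ∈ Finset.Ioc d V, cyclotomic e ℤ ^ m e with hH
      have inner : ∀ a ≤ m d, cyclotomic d ℤ ^ a * H ∣ Δ := by
        intro a
        induction a with
        | zero => intro _; simpa using ih'
        | succ a iha =>
          intro ha
          obtain ⟨q, hq⟩ := iha (by omega)
          have h1 := h d (Finset.mem_Icc.2 ⟨hd1, by omega⟩) a (by omega)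
          have h2 : ∏ z ∈ primitiveRoots d ℂ, ‖cf z a Δ‖ =
              Rb V m d a * nrm d q := by
            have h3 : ∀ z ∈ primitiveRoots d ℂ, ‖cf z a Δ‖ =
                ‖aeval z (derivative (cyclotomic d ℤ) ^ a * H * q)‖ := by
              intro z hz
              rw [mem_primitiveRoots hd1] at hz
              rw [hq, mul_assoc, cf_key (aeval_cyc_self hd1 hz)]
              simp only [map_mul, map_pow, mul_assoc]
            rw [Finset.prod_congr rfl h3]
            change nrm d _ = _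
            rw [nrm_mul, nrm_mul, nrm_pow, hH, nrm_prod, Rb]
            simp only [nrm_pow]
          rw [h2] at h1
          have h4 : nrm d q < 1 := by
            by_contra h5
            have h6 := one_le_Rb (V := V) m (d := d) hd1 a
            nlinarith
          have h5 : cyclotomic d ℤ ∣ q := by
            by_contra h6
            exact absurd (one_le_nrm hd1 h6) (not_le.2 h4)
          obtain ⟨r, hr⟩ := h5
          refine ⟨r, ?_⟩
          rw [hq, hr, pow_succ]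
          ring
      exact inner (m d) le_rfl
  have h0 := main V le_rfl
  have hI : Finset.Ioc (V - V) V = Finset.Icc 1 V := by
    ext x; simp only [Finset.mem_Ioc, Finset.mem_Icc]; omega
  rwa [hI] at h0

lemma coeff_ofFn' {N : ℕ} (v : Fin N → ℤ) (i : ℕ) :
    (ofFn N v).coeff i = if h : i < N then v ⟨i, h⟩ else 0 := by
  split_ifs with h
  · exact ofFn_coeff_eq_val_of_lt v h
  · exact ofFn_coeff_eq_zero_of_ge v (not_lt.1 h)

/-- the members of the family -/
noncomputable def fam (n D R : ℕ) (x : (Fin (n + 1) → Fin 2) × (Fin D → Fin R)) : ℤ[X] :=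
  C (R : ℤ) * ofFn (n + 1) (fun i => ((x.1 i : ℕ) : ℤ)) + ofFn D (fun i => ((x.2 i : ℕ) : ℤ))

lemma fam_natDegree {n D R : ℕ} (hD : D ≤ n + 1) (x : (Fin (n + 1) → Fin 2) × (Fin D → Fin R)) :
    (fam n D R x).natDegree ≤ n := by
  rw [natDegree_le_iff_coeff_eq_zero]
  intro i hi
  rw [fam, coeff_add, coeff_C_mul, coeff_ofFn', coeff_ofFn', dif_neg (by omega), dif_neg (by omega)]
  simp

lemma fam_coeff {n D R : ℕ} (x : (Fin (n + 1) → Fin 2) × (Fin D → Fin R)) (i : ℕ) :
    |(((fam n D R x).coeff i : ℤ) : ℝ)| ≤ 2 * R := by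
  have h1 : (0 : ℤ) ≤ (fam n D R x).coeff i ∧ (fam n D R x).coeff i ≤ 2 * R := by
    rw [fam, coeff_add, coeff_C_mul, coeff_ofFn', coeff_ofFn']
    have hR : (0 : ℤ) ≤ R := by positivity
    have h2 : (0 : ℤ) ≤ (if h : i < n + 1 then (((x.1 ⟨i, h⟩ : Fin 2) : ℕ) : ℤ) else 0) ∧
        (if h : i < n + 1 then (((x.1 ⟨i, h⟩ : Fin 2) : ℕ) : ℤ) else 0) ≤ 1 := by
      split_ifs with h
      · have := (x.1 ⟨i, h⟩).2
        omega
      · simp
    have h3 : (0 : ℤ) ≤ (if h : i < D then (((x.2 ⟨i, h⟩ : Fin R) : ℕ) : ℤ) else 0) ∧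
        (if h : i < D then (((x.2 ⟨i, h⟩ : Fin R) : ℕ) : ℤ) else 0) ≤ R := by
      split_ifs with h
      · have := (x.2 ⟨i, h⟩).2
        omega
      · simp
    constructor
    · nlinarith [h2.1, h3.1]
    · nlinarith [h2.2, h3.2]
  rw [abs_of_nonneg (by exact_mod_cast h1.1)]
  exact_mod_cast h1.2

lemma cell_mem {B s r : ℝ} (hs : 0 < s) (hr : |r| ≤ B) :
    ⌊r / s⌋ ∈ Finset.Ico (-((⌊B / s⌋₊ + 1 : ℕ) : ℤ)) ((⌊B / s⌋₊ + 1 : ℕ) : ℤ) := by
  have hB : 0 ≤ B := (abs_nonneg r).trans hr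
  have h1 : |r / s| ≤ B / s := by
    rw [abs_div, abs_of_pos hs]
    exact div_le_div_of_nonneg_right hr hs.le
  rw [abs_le] at h1
  have h2 : B / s < (⌊B / s⌋₊ : ℝ) + 1 := Nat.lt_floor_add_one _
  rw [Finset.mem_Ico]
  constructor
  · rw [Int.le_floor]
    push_cast
    linarith
  · rw [Int.floor_lt]
    push_cast
    linarith

lemma abs_sub_lt_of_floor {r t s : ℝ} (hs : 0 < s) (h : ⌊r / s⌋ = ⌊t / s⌋) : |r - t| < s := by
  have h1 := Int.abs_sub_lt_one_of_floor_eq_floor h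
  rw [← sub_div, abs_div, abs_of_pos hs, div_lt_one hs] at h1
  exact h1

open Finset in
theorem count (n V : ℕ) (m : ℕ → ℕ)
    (hD : ∑ d ∈ Icc 1 V, d.totient * m d ≤ n + 1)
    (hmain : (16 : ℝ) ^ (∑ d ∈ Icc 1 V, d.totient * m d) *
       ∏ d ∈ Icc 1 V, ∏ a ∈ range (m d), (((n + 1).choose (a + 1) : ℕ) : ℝ) ^ (d.totient)
       < 2 ^ (n + 1) * ∏ d ∈ Icc 1 V, ∏ a ∈ range (m d), Rb V m d a) :
    ∃ P : ℤ[X], P ≠ 0 ∧ P.natDegree ≤ n ∧
      (∀ i, P.coeff i = -1 ∨ P.coeff i = 0 ∨ P.coeff i = 1) ∧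
      ∏ d ∈ Icc 1 V, cyclotomic d ℤ ^ m d ∣ P := by
  classical
  set D := ∑ d ∈ Icc 1 V, d.totient * m d with hDdef
  -- the scales
  let s : ℕ → ℕ → ℝ := fun d a => (Rb V m d a) ^ (1 / (d.totient : ℝ)) / 2
  have hspos : ∀ d ∈ Icc 1 V, ∀ a, 0 < s d a := by
    intro d hd a
    rw [mem_Icc] at hd
    have := one_le_Rb (V := V) m (d := d) (by omega) a
    have h2 : 0 < Rb V m d a := by linarith
    have := Real.rpow_pos_of_pos h2 (1 / (d.totient : ℝ))
    simp only [s]
    linarith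
  have hspow : ∀ d ∈ Icc 1 V, ∀ a, (2 * s d a) ^ d.totient = Rb V m d a := by
    intro d hd a
    rw [mem_Icc] at hd
    have h1 := one_le_Rb (V := V) m (d := d) (by omega) a
    have h2 : (0 : ℝ) ≤ Rb V m d a := by linarith
    have h3 : 2 * s d a = (Rb V m d a) ^ (1 / (d.totient : ℝ)) := by
      simp only [s]; ring
    rw [h3, one_div, Real.rpow_inv_natCast_pow h2 (Nat.totient_pos.2 (by omega)).ne']
  obtain ⟨R, hR1, hRs⟩ : ∃ R : ℕ, 1 ≤ R ∧ ∀ d ∈ Icc 1 V, ∀ a ∈ range (m d), s d a ≤ R := by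
    refine ⟨⌈∑ d ∈ Icc 1 V, ∑ a ∈ range (m d), s d a⌉₊ + 1, by omega, ?_⟩
    intro d hd a ha
    have h1 : s d a ≤ ∑ a ∈ range (m d), s d a :=
      single_le_sum (f := fun a => s d a) (fun a _ => (hspos d hd a).le) ha
    have h2 : ∑ a ∈ range (m d), s d a ≤ ∑ d ∈ Icc 1 V, ∑ a ∈ range (m d), s d a :=
      single_le_sum (f := fun d => ∑ a ∈ range (m d), s d a)
        (fun d hd => sum_nonneg fun a _ => (hspos d hd a).le) hd
    have h3 := Nat.le_ceil (∑ d ∈ Icc 1 V, ∑ a ∈ range (m d), s d a)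
    push_cast
    linarith
  have hRpos : (0 : ℝ) < R := by exact_mod_cast hR1
  -- binomials
  let cb : ℕ → ℝ := fun a => (((n + 1).choose (a + 1) : ℕ) : ℝ)
  have hmd : ∀ d ∈ Icc 1 V, m d ≤ n + 1 := by
    intro d hd
    have h1 : d.totient * m d ≤ D :=
      single_le_sum (f := fun d => d.totient * m d) (fun _ _ => Nat.zero_le _) hd
    rw [mem_Icc] at hd
    have h2 : 1 ≤ d.totient := Nat.totient_pos.2 (by omega)
    nlinarith
  have hcb : ∀ d ∈ Icc 1 V, ∀ a ∈ range (m d), 1 ≤ cb a := by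
    intro d hd a ha
    have h1 := hmd d hd
    rw [mem_range] at ha
    have h2 : 0 < (n + 1).choose (a + 1) := Nat.choose_pos (by omega)
    simp only [cb]
    exact_mod_cast h2
  let B : ℕ → ℝ := fun a => 2 * R * cb a
  let K : ℕ → ℕ → ℕ := fun d a => ⌊B a / s d a⌋₊ + 1
  have hK : ∀ d ∈ Icc 1 V, ∀ a ∈ range (m d), (2 * (K d a : ℝ)) ≤ 8 * R * cb a / s d a := by
    intro d hd a ha
    have h1 := hspos d hd a
    have h2 := hRs d hd a ha
    have h3 := hcb d hd a ha
    have h4 : 1 ≤ B a / s d a := by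
      rw [le_div_iff₀ h1, one_mul]
      simp only [B]
      nlinarith
    have h5 : ((⌊B a / s d a⌋₊ : ℕ) : ℝ) ≤ B a / s d a := Nat.floor_le (by linarith)
    have h6 : 8 * R * cb a / s d a = 4 * (B a / s d a) := by simp only [B]; ring
    rw [h6]
    simp only [K]
    push_cast
    linarith
  let S : Finset (Σ _ : ℕ, ℕ × ℂ) := (Icc 1 V).sigma fun d => range (m d) ×ˢ primitiveRoots d ℂ
  let cell : (Σ _ : ℕ, ℕ × ℂ) → ℤ[X] → ℤ := fun x F => ⌊rc x.2.2 x.2.1 F / s x.1 x.2.1⌋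
  let T := S.pi fun x => Ico (-(K x.1 x.2.1 : ℤ)) (K x.1 x.2.1 : ℤ)
  let Φ : ((Fin (n + 1) → Fin 2) × (Fin D → Fin R)) → ((x : (Σ _ : ℕ, ℕ × ℂ)) → x ∈ S → ℤ) :=
    fun AU x _ => cell x (fam n D R AU)
  have hmemS : ∀ x : (Σ _ : ℕ, ℕ × ℂ), x ∈ S ↔
      x.1 ∈ Icc 1 V ∧ x.2.1 ∈ range (m x.1) ∧ x.2.2 ∈ primitiveRoots x.1 ℂ := by
    intro x
    simp only [S, mem_sigma, mem_product]
  have hmaps : ∀ AU ∈ (univ : Finset ((Fin (n + 1) → Fin 2) × (Fin D → Fin R))), Φ AU ∈ T := by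
    intro AU _
    rw [mem_pi]
    intro x hx
    rw [hmemS] at hx
    obtain ⟨hx1, hx2, hx3⟩ := hx
    have hd : 0 < x.1 := by rw [mem_Icc] at hx1; omega
    rw [mem_primitiveRoots hd] at hx3
    have hz : ‖x.2.2‖ = 1 := hx3.norm'_eq_one hd.ne'
    apply cell_mem (hspos _ hx1 _)
    refine (abs_rc_le _ _ _).trans ?_
    exact norm_cf_le hz x.2.1 n _ (fam_natDegree hD AU) _ (fam_coeff AU)
  have hcardT : (T.card : ℝ) ≤ (16 * R) ^ D *
      (∏ d ∈ Icc 1 V, ∏ a ∈ range (m d), cb a ^ (d.totient)) /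
      ∏ d ∈ Icc 1 V, ∏ a ∈ range (m d), Rb V m d a := by
    have h1 : (T.card : ℝ) = ∏ x ∈ S, (2 * (K x.1 x.2.1 : ℝ)) := by
      simp only [T, card_pi]
      push_cast
      apply prod_congr rfl
      intro x _
      rw [Int.card_Ico]
      have : ((K x.1 x.2.1 : ℤ) - -(K x.1 x.2.1 : ℤ)).toNat = 2 * K x.1 x.2.1 := by omega
      rw [this]
      push_cast
      ring
    have h2 : ∏ x ∈ S, (2 * (K x.1 x.2.1 : ℝ)) ≤ ∏ x ∈ S, (8 * R * cb x.2.1 / s x.1 x.2.1) := by
      apply prod_le_prod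
      · intro x _; positivity
      · intro x hx
        rw [hmemS] at hx
        exact hK _ hx.1 _ hx.2.1
    have h3 : ∏ x ∈ S, (8 * R * cb x.2.1 / s x.1 x.2.1) =
        ∏ d ∈ Icc 1 V, ∏ a ∈ range (m d), (8 * R * cb a / s d a) ^ d.totient := by
      simp only [S]
      rw [prod_sigma]
      apply prod_congr rfl
      intro d hd
      rw [prod_product]
      apply prod_congr rfl
      intro a _
      rw [mem_Icc] at hd
      simp only [prod_const]
      rw [card_prim (by omega)]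
    have h4 : ∏ d ∈ Icc 1 V, ∏ a ∈ range (m d), (8 * R * cb a / s d a) ^ d.totient =
        ∏ d ∈ Icc 1 V, ∏ a ∈ range (m d),
          ((16 * R) ^ d.totient * cb a ^ d.totient / Rb V m d a) := by
      apply prod_congr rfl
      intro d hd
      apply prod_congr rfl
      intro a _
      rw [← hspow d hd a]
      have := hspos d hd a
      rw [← mul_pow, ← div_pow]
      congr 1
      field_simp
      ring
    rw [h1]
    refine h2.trans (le_of_eq ?_)
    rw [h3, h4]
    simp only [prod_div_distrib, prod_mul_distrib, prod_const, card_range]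
    congr 2
    rw [hDdef, ← prod_pow_eq_pow_sum]
    apply prod_congr rfl
    intro d _
    rw [pow_mul]
  have hcard : T.card < (univ : Finset ((Fin (n + 1) → Fin 2) × (Fin D → Fin R))).card := by
    have h1 : (univ : Finset ((Fin (n + 1) → Fin 2) × (Fin D → Fin R))).card =
        2 ^ (n + 1) * R ^ D := by
      rw [card_univ, Fintype.card_prod, Fintype.card_fun, Fintype.card_fun]
      simp
    rw [h1]
    have h2 : (0 : ℝ) < ∏ d ∈ Icc 1 V, ∏ a ∈ range (m d), Rb V m d a := by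
      apply prod_pos
      intro d hd
      apply prod_pos
      intro a _
      rw [mem_Icc] at hd
      have := one_le_Rb (V := V) m (d := d) (by omega) a
      linarith
    have h3 : (16 * (R : ℝ)) ^ D *
      (∏ d ∈ Icc 1 V, ∏ a ∈ range (m d), cb a ^ (d.totient)) /
      ∏ d ∈ Icc 1 V, ∏ a ∈ range (m d), Rb V m d a < 2 ^ (n + 1) * R ^ D := by
      rw [div_lt_iff₀ h2, mul_pow]
      have h4 : (0 : ℝ) < (R : ℝ) ^ D := by positivity
      have h5 := mul_lt_mul_of_pos_left hmain h4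
      simp only [cb]
      nlinarith
    have h4 := lt_of_le_of_lt hcardT h3
    exact_mod_cast h4
  obtain ⟨x, _, y, _, hxy, heq⟩ := exists_ne_map_eq_of_card_lt_of_maps_to hcard hmaps
  -- the difference
  set Δ := fam n D R x - fam n D R y with hΔ
  have hrc : ∀ d ∈ Icc 1 V, ∀ a ∈ range (m d), ∀ z ∈ primitiveRoots d ℂ, |rc z a Δ| < s d a := by
    intro d hd a ha z hz
    have h1 : (⟨d, a, z⟩ : (Σ _ : ℕ, ℕ × ℂ)) ∈ S := (hmemS _).2 ⟨hd, ha, hz⟩
    have h2 := congrFun (congrFun heq ⟨d, a, z⟩) h1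
    rw [hΔ, rc_sub]
    exact abs_sub_lt_of_floor (hspos d hd a) h2
  have hG : ∏ d ∈ Icc 1 V, cyclotomic d ℤ ^ m d ∣ Δ := by
    apply key
    intro d hd a ha
    have ha' : a ∈ range (m d) := mem_range.2 ha
    have hd0 : 0 < d := by rw [mem_Icc] at hd; omega
    have h1 : ∀ z ∈ primitiveRoots d ℂ, ‖cf z a Δ‖ ≤ (3 / 4) * (2 * s d a) := by
      intro z hz
      have hz' : (starRingEnd ℂ) z ∈ primitiveRoots d ℂ := by
        rw [mem_primitiveRoots hd0] at hz ⊢
        exact hz.map_of_injective (f := (starRingEnd ℂ)) (RingHom.injective _)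
      have h2 := hrc d hd a ha' z hz
      have h3 := hrc d hd a ha' _ hz'
      have h4 := norm_sq_cf_le z a Δ
      have h5 := hspos d hd a
      have h6 : rc z a Δ ^ 2 < s d a ^ 2 := sq_lt_sq' (by linarith [(abs_lt.1 h2).1]) (abs_lt.1 h2).2
      have h7 : rc ((starRingEnd ℂ) z) a Δ ^ 2 < s d a ^ 2 :=
        sq_lt_sq' (by linarith [(abs_lt.1 h3).1]) (abs_lt.1 h3).2
      by_contra h8
      rw [not_le] at h8
      nlinarith [norm_nonneg (cf z a Δ)]
    have h2 : ∏ z ∈ primitiveRoots d ℂ, ‖cf z a Δ‖ ≤ ((3 / 4) * (2 * s d a)) ^ d.totient := by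
      rw [← card_prim hd0, ← prod_const]
      exact prod_le_prod (fun z _ => norm_nonneg _) h1
    refine lt_of_le_of_lt h2 ?_
    rw [mul_pow, hspow d hd a]
    have h3 := one_le_Rb (V := V) m (d := d) hd0 a
    have h4 : ((3 : ℝ) / 4) ^ d.totient < 1 :=
      pow_lt_one₀ (by norm_num) (by norm_num) (Nat.totient_pos.2 hd0).ne'
    nlinarith
  -- division by G
  set G := ∏ d ∈ Icc 1 V, cyclotomic d ℤ ^ m d with hGdef
  have hGm : G.Monic := monic_prod_of_monic _ _ fun d _ => (cyclotomic.monic d ℤ).pow _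
  have hGdeg : G.natDegree = D := by
    rw [hGdef, natDegree_prod_of_monic _ _ fun d _ => (cyclotomic.monic d ℤ).pow _]
    apply sum_congr rfl
    intro d _
    rw [(cyclotomic.monic d ℤ).natDegree_pow, natDegree_cyclotomic, mul_comm]
  set A := ofFn (n + 1) (fun i => ((x.1 i : ℕ) : ℤ)) - ofFn (n + 1) (fun i => ((y.1 i : ℕ) : ℤ))
    with hA
  set U := ofFn D (fun i => ((x.2 i : ℕ) : ℤ)) - ofFn D (fun i => ((y.2 i : ℕ) : ℤ)) with hU
  have hΔ2 : Δ = C (R : ℤ) * A + U := by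
    rw [hΔ, hA, hU, fam, fam]
    ring
  have hmod : C (R : ℤ) * (A %ₘ G) + U = 0 := by
    have h1 : G ∣ C (R : ℤ) * (A %ₘ G) + U := by
      have h2 : C (R : ℤ) * (A %ₘ G) + U = Δ - G * (C (R : ℤ) * (A /ₘ G)) := by
        have := modByMonic_add_div A G
        rw [hΔ2]
        linear_combination (C (R : ℤ)) * this
      rw [h2]
      exact dvd_sub hG (dvd_mul_right _ _)
    by_contra h3
    refine hGm.not_dvd_of_degree_lt h3 ?_ h1
    have h4 : degree (C (R : ℤ) * (A %ₘ G)) < degree G := by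
      have hRne : (R : ℤ) ≠ 0 := by omega
      rw [degree_C_mul hRne]
      exact degree_modByMonic_lt A hGm
    have h5 : degree U < degree G := by
      rw [degree_eq_natDegree hGm.ne_zero, hGdeg, hU]
      exact lt_of_le_of_lt (degree_sub_le _ _) (max_lt (ofFn_degree_lt _) (ofFn_degree_lt _))
    exact lt_of_le_of_lt (degree_add_le _ _) (max_lt h4 h5)
  have hU0 : ∀ i, U.coeff i = 0 := by
    intro i
    apply Int.eq_zero_of_abs_lt_dvd (m := (R : ℤ))
    · have h1 : U = C (R : ℤ) * (-(A %ₘ G)) := by linear_combination hmod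
      rw [h1, coeff_C_mul]
      exact dvd_mul_right _ _
    · rw [hU, coeff_sub, coeff_ofFn', coeff_ofFn']
      split_ifs with h
      · have h1 := (x.2 ⟨i, h⟩).2
        have h2 := (y.2 ⟨i, h⟩).2
        rw [abs_lt]
        constructor <;> omega
      · simp
        omega
  have hU00 : U = 0 := by ext i; simpa using hU0 i
  have hA0 : A %ₘ G = 0 := by
    rw [hU00, add_zero] at hmod
    have h1 : (C (R : ℤ) : ℤ[X]) ≠ 0 := by
      rw [Ne, C_eq_zero]
      omega
    exact (mul_eq_zero.1 hmod).resolve_left h1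
  have hdvd : G ∣ A := (modByMonic_eq_zero_iff_dvd hGm).1 hA0
  have hx2 : x.2 = y.2 := by
    funext i
    have h1 := hU0 i
    rw [hU, coeff_sub, coeff_ofFn', coeff_ofFn', dif_pos i.2, dif_pos i.2] at h1
    apply Fin.ext
    simp only [Fin.eta] at h1
    omega
  refine ⟨A, ?_, ?_, ?_, hdvd⟩
  · intro h0
    apply hxy
    refine Prod.ext ?_ hx2
    funext i
    have h1 : A.coeff i = 0 := by rw [h0, coeff_zero]
    rw [hA, coeff_sub, coeff_ofFn', coeff_ofFn', dif_pos i.2, dif_pos i.2] at h1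
    apply Fin.ext
    simp only [Fin.eta] at h1
    omega
  · rw [natDegree_le_iff_coeff_eq_zero]
    intro i hi
    rw [hA, coeff_sub, coeff_ofFn', coeff_ofFn', dif_neg (by omega), dif_neg (by omega), sub_zero]
  · intro i
    rw [hA, coeff_sub, coeff_ofFn', coeff_ofFn']
    split_ifs with h
    · have h1 := (x.1 ⟨i, h⟩).2
      have h2 := (y.1 ⟨i, h⟩).2
      omega
    · simp

end Pool.Agent.H4Van
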