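import Mathlib

/-!
# Norms of integer polynomials at primitive roots of unity (helper4)

Tools for MP_178164_nt: the product `nrm d f` of `|f(z)|` over the primitive `d`-th roots of unity,
integrality, resultants of cyclotomic polynomials and the discriminant.
-/

open Polynomial

namespace Pool.Agent.H4Van

/-- product of `|f(z)|` over the primitive `d`-th roots of unity `z`. -/
noncomputable def nrm (d : ℕ) (f : ℤ[X]) : ℝ := ∏ z ∈ primitiveRoots d ℂ, ‖aeval z f‖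

lemma nrm_nonneg (d : ℕ) (f : ℤ[X]) : 0 ≤ nrm d f :=
  Finset.prod_nonneg fun _ _ => norm_nonneg _

lemma nrm_mul (d : ℕ) (f g : ℤ[X]) : nrm d (f * g) = nrm d f * nrm d g := by
  simp only [nrm, map_mul, norm_mul, Finset.prod_mul_distrib]

lemma nrm_one (d : ℕ) : nrm d 1 = 1 := by simp [nrm]

lemma nrm_pow (d : ℕ) (f : ℤ[X]) (a : ℕ) : nrm d (f ^ a) = nrm d f ^ a := by
  simp only [nrm, map_pow, norm_pow, Finset.prod_pow]

lemma nrm_prod {ι : Type*} (d : ℕ) (s : Finset ι) (f : ι → ℤ[X]) :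
    nrm d (∏ i ∈ s, f i) = ∏ i ∈ s, nrm d (f i) := by
  classical
  induction s using Finset.induction_on with
  | empty => simp [nrm_one]
  | insert a s ha ih => rw [Finset.prod_insert ha, Finset.prod_insert ha, nrm_mul, ih]

lemma card_prim {d : ℕ} (hd : 0 < d) : (primitiveRoots d ℂ).card = d.totient := by
  have : NeZero d := ⟨hd.ne'⟩
  exact (Complex.isPrimitiveRoot_exp d hd.ne').card_primitiveRoots

lemma nrm_C {d : ℕ} (hd : 0 < d) (c : ℤ) : nrm d (C c) = |(c : ℝ)| ^ d.totient := by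
  simp [nrm, card_prim hd]

lemma prod_eq_resultant {d : ℕ} (hd : 0 < d) (f : ℤ[X]) :
    ∏ z ∈ primitiveRoots d ℂ, aeval z f = ((resultant (cyclotomic d ℤ) f : ℤ) : ℂ) := by
  have h1 : (cyclotomic d ℂ).Splits := IsAlgClosed.splits _
  have : NeZero ((d : ℕ) : ℂ) := ⟨by exact_mod_cast hd.ne'⟩
  have h2 := resultant_eq_prod_eval (cyclotomic d ℂ) (f.map (Int.castRingHom ℂ)) f.natDegree
    natDegree_map_le h1
  rw [(cyclotomic.monic d ℂ).leadingCoeff, one_pow, one_mul,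
    cyclotomic.roots_eq_primitiveRoots_val] at h2
  have h3 : resultant (cyclotomic d ℂ) (f.map (Int.castRingHom ℂ)) (cyclotomic d ℂ).natDegree
      f.natDegree = ((resultant (cyclotomic d ℤ) f : ℤ) : ℂ) := by
    rw [← map_cyclotomic_int d ℂ, resultant_map_map]
    simp only [eq_intCast]
    congr 2
    rw [map_cyclotomic_int, natDegree_cyclotomic, natDegree_cyclotomic]
  rw [← h3, h2]
  rw [Finset.prod]
  congr 1
  apply Multiset.map_congr rfl
  intro x _
  rw [aeval_def, eval_map]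
  rfl

lemma nrm_eq_int {d : ℕ} (hd : 0 < d) (f : ℤ[X]) :
    nrm d f = |((resultant (cyclotomic d ℤ) f : ℤ) : ℝ)| := by
  have h := congrArg norm (prod_eq_resultant hd f)
  rw [norm_prod] at h
  rw [nrm, h]
  simp

lemma cyc_dvd_of_root {d : ℕ} (hd : 0 < d) {f : ℤ[X]} {z : ℂ} (hz : IsPrimitiveRoot z d)
    (h : aeval z f = 0) : cyclotomic d ℤ ∣ f := by
  rw [cyclotomic_eq_minpoly hz hd]
  exact minpoly.isIntegrallyClosed_dvd (hz.isIntegral hd) h

lemma nrm_eq_zero_iff {d : ℕ} (hd : 0 < d) (f : ℤ[X]) : nrm d f = 0 ↔ cyclotomic d ℤ ∣ f := by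
  constructor
  · intro h
    rw [nrm, Finset.prod_eq_zero_iff] at h
    obtain ⟨z, hz, h0⟩ := h
    rw [mem_primitiveRoots hd] at hz
    exact cyc_dvd_of_root hd hz (by simpa using h0)
  · rintro ⟨g, rfl⟩
    have hz := Complex.isPrimitiveRoot_exp d hd.ne'
    rw [nrm]
    apply Finset.prod_eq_zero ((mem_primitiveRoots hd).2 hz)
    rw [map_mul, norm_mul]
    have : NeZero ((d : ℕ) : ℂ) := ⟨by exact_mod_cast hd.ne'⟩
    have : aeval (Complex.exp (2 * Real.pi * Complex.I / d)) (cyclotomic d ℤ) = 0 := by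
      have h1 : IsRoot (cyclotomic d ℂ) (Complex.exp (2 * Real.pi * Complex.I / d)) :=
        isRoot_cyclotomic_iff.2 hz
      rw [← map_cyclotomic_int, IsRoot.def, eval_map] at h1
      rw [aeval_def]
      exact h1
    rw [this]
    simp

lemma one_le_nrm {d : ℕ} (hd : 0 < d) {f : ℤ[X]} (h : ¬ cyclotomic d ℤ ∣ f) : 1 ≤ nrm d f := by
  have h0 : nrm d f ≠ 0 := fun h1 => h ((nrm_eq_zero_iff hd f).1 h1)
  rw [nrm_eq_int hd] at h0 ⊢
  have h1 : resultant (cyclotomic d ℤ) f ≠ 0 := by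
    intro h2; apply h0; rw [h2]; simp
  have h2 : (1 : ℤ) ≤ |resultant (cyclotomic d ℤ) f| := Int.one_le_abs h1
  exact_mod_cast h2

lemma cyc_not_dvd {d e : ℕ} (hd : 0 < d) (he : 0 < e) (h : d ≠ e) :
    ¬ cyclotomic d ℤ ∣ cyclotomic e ℤ := by
  intro hdvd
  have h1 : cyclotomic e ℤ = cyclotomic d ℤ := by
    have hi := cyclotomic.irreducible he
    have hd' := cyclotomic.irreducible hd
    have := (hd'.dvd_irreducible_iff_associated hi).1 hdvd
    exact (eq_of_monic_of_associated (cyclotomic.monic d ℤ) (cyclotomic.monic e ℤ) this).symm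
  exact h (cyclotomic_injective h1.symm)

lemma one_le_nrm_cyc {d e : ℕ} (hd : 0 < d) (he : 0 < e) (h : d ≠ e) :
    1 ≤ nrm d (cyclotomic e ℤ) := one_le_nrm hd (cyc_not_dvd hd he h)

lemma aeval_cyc_self {d : ℕ} (hd : 0 < d) {z : ℂ} (hz : IsPrimitiveRoot z d) :
    aeval z (cyclotomic d ℤ) = 0 := by
  have : NeZero ((d : ℕ) : ℂ) := ⟨by exact_mod_cast hd.ne'⟩
  have h1 : IsRoot (cyclotomic d ℂ) z := isRoot_cyclotomic_iff.2 hz
  rw [← map_cyclotomic_int, IsRoot.def, eval_map] at h1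
  rw [aeval_def]
  exact h1

lemma nrm_congr {d : ℕ} (hd : 0 < d) {f g : ℤ[X]} (h : cyclotomic d ℤ ∣ f - g) :
    nrm d f = nrm d g := by
  obtain ⟨q, hq⟩ := h
  unfold nrm
  apply Finset.prod_congr rfl
  intro z hz
  rw [mem_primitiveRoots hd] at hz
  have : aeval z f - aeval z g = 0 := by
    rw [← map_sub, hq, map_mul, aeval_cyc_self hd hz, zero_mul]
  rw [sub_eq_zero.1 this]

lemma cyc_mod_p {p : ℕ} [hp : Fact p.Prime] (e : ℕ) (j : ℕ) :
    ∃ t, 1 ≤ t ∧ cyclotomic (e * p ^ (j + 1)) (ZMod p) = cyclotomic e (ZMod p) ^ t := by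
  have step : ∀ n : ℕ, ∃ t, 1 ≤ t ∧ cyclotomic (n * p) (ZMod p) = cyclotomic n (ZMod p) ^ t := by
    intro n
    by_cases h : p ∣ n
    · exact ⟨p, hp.out.one_lt.le, cyclotomic_mul_prime_dvd_eq_pow (ZMod p) h⟩
    · refine ⟨p - 1, ?_, cyclotomic_mul_prime_eq_pow_of_not_dvd (ZMod p) h⟩
      have := hp.out.two_le
      omega
  induction j with
  | zero => simpa using step e
  | succ j ih =>
    obtain ⟨t, ht, h⟩ := ih
    obtain ⟨u, hu, h'⟩ := step (e * p ^ (j + 1))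
    refine ⟨t * u, Nat.mul_pos ht hu, ?_⟩
    rw [pow_succ, ← mul_assoc, h', h, ← pow_mul]

lemma nrm_cyc_prime_pow {e p : ℕ} (he : 0 < e) (hp : p.Prime) (j : ℕ) :
    (p : ℝ) ^ e.totient ≤ nrm e (cyclotomic (e * p ^ (j + 1)) ℤ) := by
  have : Fact p.Prime := ⟨hp⟩
  obtain ⟨t, ht, h⟩ := cyc_mod_p (p := p) e j
  have hd : 0 < e * p ^ (j + 1) := Nat.mul_pos he (pow_pos hp.pos _)
  have hne : e ≠ e * p ^ (j + 1) := by
    have h1 : 1 < p ^ (j + 1) := Nat.one_lt_pow (by omega) hp.one_lt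
    intro h2
    have h3 : e * 1 < e * p ^ (j + 1) := Nat.mul_lt_mul_of_pos_left h1 he
    omega
  have h1 : (C (p : ℤ)) ∣ cyclotomic (e * p ^ (j + 1)) ℤ - cyclotomic e ℤ ^ t := by
    rw [C_dvd_iff_dvd_coeff]
    intro i
    have h2 : ((cyclotomic (e * p ^ (j + 1)) ℤ - cyclotomic e ℤ ^ t).map
        (Int.castRingHom (ZMod p))).coeff i = 0 := by
      rw [Polynomial.map_sub, Polynomial.map_pow, map_cyclotomic_int, map_cyclotomic_int, h]
      simp
    rw [coeff_map, eq_intCast, ZMod.intCast_zmod_eq_zero_iff_dvd] at h2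
    exact h2
  obtain ⟨W, hW⟩ := h1
  have h3 : nrm e (cyclotomic (e * p ^ (j + 1)) ℤ) = nrm e (C (p : ℤ) * W) := by
    apply nrm_congr he
    have : cyclotomic (e * p ^ (j + 1)) ℤ - C (p : ℤ) * W = cyclotomic e ℤ ^ t := by
      rw [← hW]; ring
    rw [this]
    exact dvd_pow_self _ (by omega)
  have h4 : ¬ cyclotomic e ℤ ∣ W := by
    intro h5
    apply cyc_not_dvd he hd hne
    have : cyclotomic (e * p ^ (j + 1)) ℤ = cyclotomic e ℤ ^ t + C (p : ℤ) * W := by
      rw [← hW]; ring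
    rw [this]
    exact dvd_add (dvd_pow_self _ (by omega)) (h5.mul_left _)
  rw [h3, nrm_mul, nrm_C he]
  have h6 := one_le_nrm he h4
  have h7 : (0 : ℝ) ≤ (p : ℝ) ^ e.totient := by positivity
  simp only [Int.cast_natCast, Nat.abs_cast]
  nlinarith

/-! ### the discriminant -/

section disc
variable {d : ℕ} [NeZero d] {K : Type} [Field K] [NumberField K] [IsCyclotomicExtension {d} ℚ K]
  {ζ : K} (hζ : IsPrimitiveRoot ζ d)

include hζ in
lemma nrm_eq_norm (f : ℤ[X]) : nrm d f = |((Algebra.norm ℚ (aeval ζ f) : ℚ) : ℝ)| := by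
  have hirr : Irreducible (cyclotomic d ℚ) := cyclotomic.irreducible_rat (NeZero.pos _)
  have h1 := Algebra.norm_eq_prod_embeddings ℚ ℂ (aeval ζ f)
  have h2 : (∏ σ : K →ₐ[ℚ] ℂ, σ (aeval ζ f)) = ∏ z ∈ primitiveRoots d ℂ, aeval z f := by
    rw [← Finset.prod_attach (primitiveRoots d ℂ), ← Finset.univ_eq_attach]
    refine Fintype.prod_equiv (hζ.embeddingsEquivPrimitiveRoots ℂ hirr) _ _ fun σ => ?_
    rw [IsPrimitiveRoot.embeddingsEquivPrimitiveRoots_apply_coe]
    have h3 : σ (aeval ζ f) = aeval (σ ζ) f := by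
      rw [aeval_def, aeval_def]
      erw [hom_eval₂ f (algebraMap ℤ K) (σ : K →+* ℂ) ζ]
      congr 1
      exact RingHom.ext_int _ _
    exact h3
  rw [h2] at h1
  have h3 : ((Algebra.norm ℚ (aeval ζ f) : ℚ) : ℂ) = ∏ z ∈ primitiveRoots d ℂ, aeval z f := h1
  have h4 := congrArg norm h3
  rw [norm_prod] at h4
  rw [nrm, ← h4]
  have h5 : (((Algebra.norm ℚ (aeval ζ f) : ℚ)) : ℂ) = (((Algebra.norm ℚ (aeval ζ f) : ℚ) : ℝ) : ℂ) := by
    push_cast; rfl
  rw [h5, Complex.norm_real, Real.norm_eq_abs]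

lemma discr_rat :
    ((NumberField.discr K : ℤ) : ℚ) = Algebra.discr ℚ (hζ.powerBasis ℚ).basis := by
  let pB₁ := hζ.integralPowerBasis
  have h0 : ((NumberField.discr K : ℤ) : ℚ) = algebraMap ℤ ℚ (NumberField.discr K) := rfl
  rw [h0, ← NumberField.discr_eq_discr _ pB₁.basis, ← Algebra.discr_localizationLocalization ℤ
    (nonZeroDivisors ℤ) K]
  have : pB₁.dim = (IsPrimitiveRoot.powerBasis ℚ hζ).dim := by
    rw [← PowerBasis.finrank, ← PowerBasis.finrank]
    exact NumberField.RingOfIntegers.rank K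
  rw [← Algebra.discr_reindex _ _ (finCongr this)]
  congr 1
  ext i
  have h9 : ∀ j, pB₁.basis j = pB₁.gen ^ (j : ℕ) := fun j => pB₁.basis_eq_pow j
  have h8 : pB₁.gen = hζ.toInteger := IsPrimitiveRoot.integralPowerBasis_gen hζ
  rw [Function.comp_apply, Module.Basis.localizationLocalization_apply, h9, h8]
  rw [(IsPrimitiveRoot.powerBasis ℚ hζ).basis_eq_pow i, IsPrimitiveRoot.powerBasis_gen, map_pow]
  rfl

include hζ in
lemma nrm_deriv_aux : nrm d (derivative (cyclotomic d ℤ)) = ((NumberField.discr K).natAbs : ℝ) := by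
  have hirr : Irreducible (cyclotomic d ℚ) := cyclotomic.irreducible_rat (NeZero.pos _)
  rw [nrm_eq_norm hζ]
  have h1 := Algebra.discr_powerBasis_eq_norm ℚ (hζ.powerBasis ℚ)
  rw [← discr_rat hζ] at h1
  rw [IsPrimitiveRoot.powerBasis_gen, ← hζ.minpoly_eq_cyclotomic_of_irreducible hirr,
    ← map_cyclotomic_int d ℚ, derivative_map] at h1
  have h2 : aeval ζ (Polynomial.map (Int.castRingHom ℚ) (derivative (cyclotomic d ℤ))) =
      aeval ζ (derivative (cyclotomic d ℤ)) := by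
    rw [aeval_def, aeval_def, eval₂_map]
    congr 1
    exact RingHom.ext_int _ _
  rw [h2] at h1
  have h3 := congrArg (fun q : ℚ => |(q : ℝ)|) h1
  simp only [Rat.cast_intCast, Rat.cast_mul, Rat.cast_pow, Rat.cast_neg, Rat.cast_one, abs_mul,
    abs_pow, abs_neg, abs_one, one_pow, one_mul] at h3
  rw [← h3]
  rw [Nat.cast_natAbs]
  simp

end disc

lemma nrm_deriv {d : ℕ} (hd : 0 < d) :
    nrm d (derivative (cyclotomic d ℤ)) =
      ((d ^ d.totient / ∏ p ∈ d.primeFactors, p ^ (d.totient / (p - 1)) : ℕ) : ℝ) := by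
  have : NeZero d := ⟨hd.ne'⟩
  have : NeZero ((d : ℕ) : ℚ) := ⟨by exact_mod_cast hd.ne'⟩
  have : IsCyclotomicExtension {d} ℚ (CyclotomicField d ℚ) :=
    CyclotomicField.isCyclotomicExtension d ℚ
  have : NumberField (CyclotomicField d ℚ) := IsCyclotomicExtension.numberField {d} ℚ _
  rw [nrm_deriv_aux (IsCyclotomicExtension.zeta_spec d ℚ (CyclotomicField d ℚ)),
    IsCyclotomicExtension.Rat.natAbs_discr d (CyclotomicField d ℚ)]

end Pool.Agent.H4Van
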