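import Pool.Agent.Lib.H4VanParam

/-!
# Asymptotics for MP_178164_nt (helper4)
-/

open Polynomial Finset Filter

namespace Pool.Agent.H4Van

lemma step {k n : ℕ} {L l : ℝ} (hL : L = Real.log k) (hl : l = Real.log L) (h1 : 100 ≤ l)
    (h2 : 1000 * l ≤ L) (hn : 1000 * ((k : ℝ) ^ 2 * L / l) ≤ n) :
    ∃ P : ℤ[X], P ≠ 0 ∧ P.natDegree ≤ n ∧
      (∀ i, P.coeff i = -1 ∨ P.coeff i = 0 ∨ P.coeff i = 1) ∧ (X - 1) ^ k ∣ P := by
  have hl0 : 0 < l := by linarith
  have hL0 : 0 < L := by linarith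
  have hL1 : 100000 ≤ L := by linarith
  have hlog2 : Real.log 2 < 0.6931471808 := Real.log_two_lt_d9
  have hlog2' : 0.6931471803 < Real.log 2 := Real.log_two_gt_d9
  have hk0 : 0 < k := by
    rcases Nat.eq_zero_or_pos k with h | h
    · rw [h] at hL; simp at hL; linarith
    · exact h
  have hkr : (0 : ℝ) < k := by exact_mod_cast hk0
  have hkr1 : (1 : ℝ) ≤ k := by exact_mod_cast hk0
  have hLk : L ≤ k := by
    rw [hL]
    have := Real.log_le_sub_one_of_pos hkr
    linarith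
  -- V
  set V := ⌊(k : ℝ) / L⌋₊ with hVdef
  have hkL1 : 1 ≤ (k : ℝ) / L := by rw [le_div_iff₀ hL0]; linarith
  have hV1 : 1 ≤ V := Nat.le_floor (by simpa using hkL1)
  have hV1r : (1 : ℝ) ≤ V := by exact_mod_cast hV1
  have hVle : (V : ℝ) ≤ k / L := Nat.floor_le (by positivity)
  have hVgt : (k : ℝ) / L < V + 1 := Nat.lt_floor_add_one _
  have hVlek : (V : ℝ) ≤ k := by
    refine hVle.trans ?_
    rw [div_le_iff₀ hL0]
    nlinarith
  have hlV : Real.log V ≤ L := by
    rw [hL]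
    exact Real.log_le_log (by linarith) hVlek
  have hlV0 : 0 ≤ Real.log V := Real.log_natCast_nonneg V
  have hlV' : L - Real.log 2 - l ≤ Real.log V := by
    have h3 : (k : ℝ) / L ≤ 2 * V := by linarith
    have h4 := Real.log_le_log (by positivity) h3
    rw [Real.log_div hkr.ne' hL0.ne', Real.log_mul (by norm_num) (by linarith), ← hL, ← hl] at h4
    linarith
  -- J
  set J := ⌊l / Real.log 2⌋₊ with hJdef
  have hl2pos : 0 < Real.log 2 := by linarith
  have hJle : (J : ℝ) * Real.log 2 ≤ l := by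
    have : (J : ℝ) ≤ l / Real.log 2 := Nat.floor_le (by positivity)
    rwa [le_div_iff₀ hl2pos] at this
  have hJgt : l / 2 ≤ J := by
    have h3 : l / Real.log 2 < J + 1 := Nat.lt_floor_add_one _
    have h4 : l ≤ l / Real.log 2 := by
      rw [le_div_iff₀ hl2pos]
      nlinarith
    linarith
  have hJ1 : 1 ≤ J := by
    have : (1 : ℝ) ≤ J := by linarith
    exact_mod_cast this
  have hJr : (0 : ℝ) < J := by exact_mod_cast hJ1
  have h2J : (2 : ℝ) ^ J ≤ L := by
    have h3 : (2 : ℝ) ^ J = Real.exp (J * Real.log 2) := by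
      rw [Real.exp_nat_mul, Real.exp_log (by norm_num)]
    rw [h3]
    calc Real.exp (J * Real.log 2) ≤ Real.exp l := Real.exp_le_exp.2 hJle
      _ = L := by rw [hl, Real.exp_log hL0]
  have hJV : ys J ≤ V := by
    have h3 : Real.log (ys J : ℕ) ≤ Real.log V := by
      rw [log_ys]
      have : (2 : ℝ) ^ J * Real.log 2 ≤ L * Real.log 2 :=
        mul_le_mul_of_nonneg_right h2J hl2pos.le
      nlinarith
    have h4 : (0 : ℝ) < (ys J : ℕ) := by
      have := two_le_ys J
      exact_mod_cast (by omega : 0 < ys J)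
    have h5 := (Real.log_le_log_iff h4 (by linarith)).1 h3
    exact_mod_cast h5
  -- T
  set T := ⌈L⌉₊ with hTdef
  have hTL : L ≤ T := Nat.le_ceil L
  have hTlt : (T : ℝ) < L + 1 := Nat.ceil_lt_add_one hL0.le
  have hT1 : 1 ≤ T := by
    have : (1 : ℝ) ≤ T := by linarith
    exact_mod_cast this
  have hTr : (0 : ℝ) < T := by linarith
  have hlT : Real.log T ≤ Real.log 2 + l := by
    rw [hl, ← Real.log_mul (by norm_num) hL0.ne']
    exact Real.log_le_log hTr (by linarith)
  have hVT : Real.log V / T ≤ 1 := by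
    rw [div_le_one hTr]
    linarith
  -- q
  set q := (k : ℝ) ^ 2 * L / l with hq
  have hq0 : 1000 * (k : ℝ) ^ 2 ≤ q := by
    rw [hq, le_div_iff₀ hl0]
    have : 0 ≤ (k : ℝ) ^ 2 := sq_nonneg _
    nlinarith
  have hk2 : (1 : ℝ) ≤ (k : ℝ) ^ 2 := one_le_pow₀ hkr1
  have hq1 : 1000 ≤ q := by linarith
  -- n'
  set n' := ⌈1000 * q⌉₊ with hn'
  have hn'n : n' ≤ n := Nat.ceil_le.2 hn
  have hNge : 1000 * q ≤ n' := Nat.le_ceil _
  have hNlt : (n' : ℝ) < 1000 * q + 1 := Nat.ceil_lt_add_one (by linarith)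
  set N : ℝ := ((n' + 1 : ℕ) : ℝ) with hN
  have hNeq : N = n' + 1 := by rw [hN]; push_cast; ring
  have hN1 : 1 ≤ N := by rw [hNeq]; linarith [(Nat.cast_nonneg n' : (0 : ℝ) ≤ n')]
  have hN1100 : N ≤ 2048 * q := by rw [hNeq]; linarith
  have hlogN : Real.log N ≤ 8 + 2 * L + l := by
    have h3 := Real.log_le_log (by linarith) hN1100
    have h4 : Real.log (2048 * q) = Real.log 2048 + Real.log q := by
      rw [Real.log_mul (by norm_num) (by linarith)]
    have h5 : Real.log 2048 = 11 * Real.log 2 := by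
      rw [show (2048 : ℝ) = 2 ^ 11 by norm_num, Real.log_pow]; norm_num
    have h6 : Real.log q = 2 * L + l - Real.log l := by
      rw [hq, Real.log_div (by positivity) hl0.ne', Real.log_mul (by positivity) hL0.ne',
        Real.log_pow, ← hL, ← hl]
      push_cast
      ring
    have h7 : 0 ≤ Real.log l := Real.log_nonneg (by linarith)
    rw [h4, h5, h6] at h3
    linarith
  have hlogN0 : 0 ≤ Real.log N := Real.log_nonneg hN1
  have h16 : Real.log 16 = 4 * Real.log 2 := by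
    rw [show (16 : ℝ) = 2 ^ 4 by norm_num, Real.log_pow]; norm_num
  have hE := En_mm_le (k := k) (J := J) (V := V) (T := T) (N := N) (Θ := 8 * l) hk0 hJ1 hV1 hT1
    hJV hN1 (by linarith) (by rw [← hL]; linarith)
  -- the five terms
  have hlV3 : 1 + 2 * Real.log V ≤ 3 * L := by linarith
  have hlV30 : 0 ≤ 1 + 2 * Real.log V := by linarith
  have t1 : 8 * l * ((k : ℝ) ^ 2 * (4 * (1 + 2 * Real.log V) / ((J : ℝ) ^ 2 * Real.log 2))) ≤
      600 * q := by
    have e1 : 4 * (1 + 2 * Real.log V) / ((J : ℝ) ^ 2 * Real.log 2) ≤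
        4 * (3 * L) / ((l / 2) ^ 2 * (69 / 100)) := by
      apply div_le_div₀ (by positivity) (by linarith) (by positivity)
      apply mul_le_mul _ (by linarith) (by norm_num) (by positivity)
      exact pow_le_pow_left₀ (by positivity) hJgt 2
    calc 8 * l * ((k : ℝ) ^ 2 * (4 * (1 + 2 * Real.log V) / ((J : ℝ) ^ 2 * Real.log 2))) ≤
        8 * l * ((k : ℝ) ^ 2 * (4 * (3 * L) / ((l / 2) ^ 2 * (69 / 100)))) := by
          apply mul_le_mul_of_nonneg_left _ (by positivity)
          exact mul_le_mul_of_nonneg_left e1 (sq_nonneg _)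
      _ = 38400 / 69 * q := by rw [hq]; field_simp; ring
      _ ≤ 600 * q := by linarith
  have t2 : (k : ℝ) ^ 2 * ((1 + 2 * Real.log V) / (J * Real.log 2)) ≤ 10 * q := by
    have e1 : (1 + 2 * Real.log V) / (J * Real.log 2) ≤ (3 * L) / ((l / 2) * (69 / 100)) := by
      apply div_le_div₀ (by positivity) (by linarith) (by positivity)
      exact mul_le_mul hJgt (by linarith) (by norm_num) (by positivity)
    calc (k : ℝ) ^ 2 * ((1 + 2 * Real.log V) / (J * Real.log 2)) ≤
        (k : ℝ) ^ 2 * ((3 * L) / ((l / 2) * (69 / 100))) :=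
          mul_le_mul_of_nonneg_left e1 (sq_nonneg _)
      _ = 600 / 69 * q := by rw [hq]; field_simp; ring
      _ ≤ 10 * q := by linarith
  have t3 : k * V * (2 * Real.log 16 + 1 + Real.log N + Real.log V) ≤ q := by
    have e1 : 2 * Real.log 16 + 1 + Real.log N + Real.log V ≤ 4 * L := by
      rw [h16]
      linarith
    have e2 : 0 ≤ 2 * Real.log 16 + 1 + Real.log N + Real.log V := by
      rw [h16]
      linarith
    calc k * V * (2 * Real.log 16 + 1 + Real.log N + Real.log V) ≤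
        k * (k / L) * (4 * L) := by
          apply mul_le_mul _ e1 e2 (by positivity)
          exact mul_le_mul_of_nonneg_left hVle hkr.le
      _ = 4 * (k : ℝ) ^ 2 := by field_simp
      _ ≤ q := by linarith
  have t4 : 2 * (k : ℝ) ^ 2 * (16 * (1 + 2 * Real.log V) / J) ≤ 192 * q := by
    have e1 : 16 * (1 + 2 * Real.log V) / J ≤ 16 * (3 * L) / (l / 2) := by
      apply div_le_div₀ (by positivity) (by linarith) (by positivity) hJgt
    calc 2 * (k : ℝ) ^ 2 * (16 * (1 + 2 * Real.log V) / J) ≤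
        2 * (k : ℝ) ^ 2 * (16 * (3 * L) / (l / 2)) :=
          mul_le_mul_of_nonneg_left e1 (by positivity)
      _ = 192 * q := by rw [hq]; field_simp; ring
      _ ≤ 192 * q := le_rfl
  have t5 : 4 * (V : ℝ) ^ 2 * ((1 + Real.log V) * Real.log V) ≤ q := by
    have e1 : (1 + Real.log V) * Real.log V ≤ (2 * L) * L := by
      apply mul_le_mul (by linarith) hlV hlV0 (by positivity)
    have e2 : (V : ℝ) ^ 2 ≤ (k / L) ^ 2 := pow_le_pow_left₀ (by positivity) hVle 2
    calc 4 * (V : ℝ) ^ 2 * ((1 + Real.log V) * Real.log V) ≤ 4 * (k / L) ^ 2 * ((2 * L) * L) := by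
          apply mul_le_mul _ e1 (by positivity) (by positivity)
          linarith
      _ = 8 * (k : ℝ) ^ 2 := by field_simp; ring
      _ ≤ q := by linarith
  have hE2 : En N V (mm k J) < N * Real.log 2 := by
    have e1 : 2 * En N V (mm k J) ≤ 804 * q := by linarith
    have e2 : 1000 * q * (69 / 100) ≤ N * Real.log 2 := by
      apply mul_le_mul _ (by linarith) (by norm_num) (by linarith)
      rw [hNeq]; linarith
    linarith
  have hD : ∑ d ∈ Icc 1 V, d.totient * mm k J d ≤ n' + 1 := by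
    have e1 := sum_totient_mm_le k J V
    have e2 : (k : ℝ) * V ≤ N := by
      have : (k : ℝ) * V ≤ k * k := mul_le_mul_of_nonneg_left hVlek hkr.le
      rw [hNeq]
      nlinarith
    have e3 : ((∑ d ∈ Icc 1 V, d.totient * mm k J d : ℕ) : ℝ) ≤ ((n' + 1 : ℕ) : ℝ) := by
      push_cast at e1 ⊢
      rw [hNeq] at e2
      linarith
    exact_mod_cast e3
  obtain ⟨P, hP0, hPn, hPc, hPd⟩ := count_log n' V (mm k J) hD hE2
  refine ⟨P, hP0, hPn.trans hn'n, hPc, ?_⟩
  refine dvd_trans ?_ hPd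
  have h3 : cyclotomic 1 ℤ ^ mm k J 1 ∣ ∏ d ∈ Icc 1 V, cyclotomic d ℤ ^ mm k J d :=
    dvd_prod_of_mem (fun d => cyclotomic d ℤ ^ mm k J d) (mem_Icc.2 ⟨le_rfl, hV1⟩)
  rwa [mm_one hJ1, cyclotomic_one] at h3

theorem poly_of_large : ∃ K0 : ℕ, ∀ k : ℕ, K0 ≤ k → ∀ n : ℕ,
    1000 * ((k : ℝ) ^ 2 * Real.log k / Real.log (Real.log k)) ≤ n →
    ∃ P : ℤ[X], P ≠ 0 ∧ P.natDegree ≤ n ∧
      (∀ i, P.coeff i = -1 ∨ P.coeff i = 0 ∨ P.coeff i = 1) ∧ (X - 1) ^ k ∣ P := by
  have hlogt : Tendsto (fun k : ℕ => Real.log (k : ℝ)) atTop atTop :=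
    Real.tendsto_log_atTop.comp tendsto_natCast_atTop_atTop
  have e1 : ∀ᶠ x : ℝ in atTop, 100 ≤ Real.log x := Real.tendsto_log_atTop.eventually_ge_atTop 100
  have e2 : ∀ᶠ x : ℝ in atTop, 1000 * Real.log x ≤ x := by
    have h := Real.isLittleO_log_id_atTop.bound (by norm_num : (0 : ℝ) < 1 / 1000)
    filter_upwards [h, eventually_ge_atTop (1 : ℝ)] with x hx hx1
    rw [Real.norm_eq_abs, Real.norm_eq_abs, id, abs_of_nonneg (Real.log_nonneg hx1),
      abs_of_nonneg (by linarith)] at hx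
    linarith
  have e3 := hlogt.eventually (e1.and e2)
  obtain ⟨K0, hK0⟩ := eventually_atTop.1 e3
  refine ⟨K0, fun k hk n hn => ?_⟩
  obtain ⟨h1, h2⟩ := hK0 k hk
  exact step rfl rfl h1 h2 hn

end Pool.Agent.H4Van
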