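import Pool.Agent.Lib.H4VanRough

/-!
# Choice of the multiplicities for MP_178164_nt (helper4)
-/

open Polynomial Finset
open ArithmeticFunction (vonMangoldt)

namespace Pool.Agent.H4Van

/-- the multiplicities -/
noncomputable def mm (k J d : ℕ) : ℕ := ⌊(k : ℝ) * hh J d / d⌋₊

lemma mm_one {k J : ℕ} (hJ : 1 ≤ J) : mm k J 1 = k := by
  unfold mm
  rw [hh_one hJ]
  simp

lemma mul_mm_le (k J : ℕ) {d : ℕ} (hd : 0 < d) : (d : ℝ) * mm k J d ≤ k * hh J d := by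
  have hdr : (0 : ℝ) < d := by exact_mod_cast hd
  have h : (mm k J d : ℝ) ≤ (k : ℝ) * hh J d / d := Nat.floor_le (by
    have := hh_nonneg J d
    positivity)
  rw [le_div_iff₀ hdr] at h
  linarith

lemma le_mul_mm (k J : ℕ) {d : ℕ} (hd : 0 < d) : (k : ℝ) * hh J d - d ≤ (d : ℝ) * mm k J d := by
  have hdr : (0 : ℝ) < d := by exact_mod_cast hd
  have h : (k : ℝ) * hh J d / d < (mm k J d : ℝ) + 1 := Nat.lt_floor_add_one _
  rw [div_lt_iff₀ hdr] at h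
  linarith

lemma totient_mul_mm_le (k J : ℕ) {d : ℕ} (hd : 0 < d) : (d.totient : ℝ) * mm k J d ≤ k := by
  have h1 := mul_mm_le k J hd
  have h2 : (d.totient : ℝ) ≤ d := by exact_mod_cast Nat.totient_le d
  have h3 := hh_le_one J d
  have h4 : (0 : ℝ) ≤ mm k J d := Nat.cast_nonneg _
  have h5 : (0 : ℝ) ≤ k := Nat.cast_nonneg _
  nlinarith

lemma sum_totient_mm_le (k J V : ℕ) : ∑ d ∈ Icc 1 V, (d.totient : ℝ) * mm k J d ≤ k * V := by
  calc ∑ d ∈ Icc 1 V, (d.totient : ℝ) * mm k J d ≤ ∑ d ∈ Icc 1 V, (k : ℝ) := by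
        apply sum_le_sum
        intro d hd
        rw [mem_Icc] at hd
        exact totient_mul_mm_le k J hd.1
    _ = k * V := by simp [mul_comm]

lemma sum_wt_mm_le (k J V : ℕ) : ∑ d ∈ Icc 1 V, wt d * ((d : ℝ) * mm k J d) ≤
    k * ∑ d ∈ Icc 1 V, hh J d / (d : ℝ) := by
  rw [mul_sum]
  apply sum_le_sum
  intro d hd
  rw [mem_Icc] at hd
  have h1 := mul_mm_le k J hd.1
  have h2 := wt_le d
  have h3 : (0 : ℝ) ≤ (d : ℝ) * mm k J d := by positivity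
  calc wt d * ((d : ℝ) * mm k J d) ≤ (1 / d) * (k * hh J d) :=
        mul_le_mul h2 h1 h3 (by positivity)
    _ = k * (hh J d / (d : ℝ)) := by ring

lemma sum_wt_mm_sq_le (k J V : ℕ) : ∑ d ∈ Icc 1 V, wt d * ((d : ℝ) * mm k J d) ^ 2 ≤
    (k : ℝ) ^ 2 * ∑ d ∈ Icc 1 V, hh J d ^ 2 / (d : ℝ) := by
  rw [mul_sum]
  apply sum_le_sum
  intro d hd
  rw [mem_Icc] at hd
  have h1 := mul_mm_le k J hd.1
  have h2 := wt_le d
  have h3 : (0 : ℝ) ≤ (d : ℝ) * mm k J d := by positivity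
  have h4 : ((d : ℝ) * mm k J d) ^ 2 ≤ (k * hh J d) ^ 2 := pow_le_pow_left₀ h3 h1 2
  calc wt d * ((d : ℝ) * mm k J d) ^ 2 ≤ (1 / d) * (k * hh J d) ^ 2 :=
        mul_le_mul h2 h4 (sq_nonneg _) (by positivity)
    _ = (k : ℝ) ^ 2 * (hh J d ^ 2 / (d : ℝ)) := by ring

lemma Dir_mm_le (k J V : ℕ) (hV : 1 ≤ V) :
    Dir V (fun d => (d : ℝ) * mm k J d) ≤
      2 * (k : ℝ) ^ 2 * Dir V (hh J) + 4 * (V : ℝ) ^ 2 * ((1 + Real.log V) * Real.log V) := by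
  have hV0 : 0 ≤ Real.log V := Real.log_natCast_nonneg V
  have hLb : ∀ b : ℕ, (0 : ℝ) ≤ vonMangoldt b / (b : ℝ) := fun b =>
    div_nonneg ArithmeticFunction.vonMangoldt_nonneg (Nat.cast_nonneg _)
  have h1 : ∀ d ∈ Icc 1 V, ∀ b ∈ Icc 1 (V / d),
      wt d * (vonMangoldt b / (b : ℝ)) *
        ((d : ℝ) * mm k J d - ((d * b : ℕ) : ℝ) * mm k J (d * b)) ^ 2 ≤
      2 * (k : ℝ) ^ 2 * (wt d * (vonMangoldt b / (b : ℝ)) * (hh J d - hh J (d * b)) ^ 2) +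
        2 * (V : ℝ) ^ 2 * ((1 / d) * (vonMangoldt b / (b : ℝ))) := by
    intro d hd b hb
    rw [mem_Icc] at hd hb
    have hdb : d * b ≤ V := (Nat.mul_le_mul_left d hb.2).trans (Nat.mul_div_le V d)
    have hdb0 : 0 < d * b := Nat.mul_pos hd.1 hb.1
    have hdV : (d : ℝ) ≤ V := by exact_mod_cast hd.2
    have hdbV : ((d * b : ℕ) : ℝ) ≤ V := by exact_mod_cast hdb
    have a1 := mul_mm_le k J hd.1
    have a2 := le_mul_mm k J hd.1
    have a3 := mul_mm_le k J hdb0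
    have a4 := le_mul_mm k J hdb0
    have hVr : (0 : ℝ) ≤ V := Nat.cast_nonneg _
    set x := (d : ℝ) * mm k J d
    set y := ((d * b : ℕ) : ℝ) * mm k J (d * b)
    set hx := hh J d
    set hy := hh J (d * b)
    have e1 : |(x - y) - k * (hx - hy)| ≤ V := by
      rw [abs_le]
      constructor
      · nlinarith
      · nlinarith
    have e2 : ((x - y) - k * (hx - hy)) ^ 2 ≤ (V : ℝ) ^ 2 := by
      rw [← sq_abs]
      exact pow_le_pow_left₀ (abs_nonneg _) e1 2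
    have e3 : (x - y) ^ 2 ≤ 2 * (k : ℝ) ^ 2 * (hx - hy) ^ 2 + 2 * (V : ℝ) ^ 2 := by
      nlinarith [sq_nonneg ((x - y) - 2 * (k * (hx - hy)))]
    have hw := wt_nonneg d
    have hwl := wt_le d
    have hL := hLb b
    calc wt d * (vonMangoldt b / (b : ℝ)) * (x - y) ^ 2 ≤
        wt d * (vonMangoldt b / (b : ℝ)) * (2 * (k : ℝ) ^ 2 * (hx - hy) ^ 2 + 2 * (V : ℝ) ^ 2) :=
          mul_le_mul_of_nonneg_left e3 (mul_nonneg hw hL)
      _ = 2 * (k : ℝ) ^ 2 * (wt d * (vonMangoldt b / (b : ℝ)) * (hx - hy) ^ 2) +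
          2 * (V : ℝ) ^ 2 * (wt d * (vonMangoldt b / (b : ℝ))) := by ring
      _ ≤ _ := by
          have := mul_le_mul_of_nonneg_left (mul_le_mul_of_nonneg_right hwl hL)
            (by positivity : (0 : ℝ) ≤ 2 * (V : ℝ) ^ 2)
          linarith
  have h2 : Dir V (fun d => (d : ℝ) * mm k J d) ≤
      ∑ d ∈ Icc 1 V, ∑ b ∈ Icc 1 (V / d),
        (2 * (k : ℝ) ^ 2 * (wt d * (vonMangoldt b / (b : ℝ)) * (hh J d - hh J (d * b)) ^ 2) +
        2 * (V : ℝ) ^ 2 * ((1 / d) * (vonMangoldt b / (b : ℝ)))) := by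
    unfold Dir
    exact sum_le_sum fun d hd => sum_le_sum fun b hb => h1 d hd b hb
  have h3 : ∑ d ∈ Icc 1 V, ∑ b ∈ Icc 1 (V / d),
        (2 * (k : ℝ) ^ 2 * (wt d * (vonMangoldt b / (b : ℝ)) * (hh J d - hh J (d * b)) ^ 2) +
        2 * (V : ℝ) ^ 2 * ((1 / d) * (vonMangoldt b / (b : ℝ)))) =
      2 * (k : ℝ) ^ 2 * Dir V (hh J) +
        2 * (V : ℝ) ^ 2 * ∑ d ∈ Icc 1 V, (1 / (d : ℝ)) * ∑ b ∈ Icc 1 (V / d),
          (vonMangoldt b / (b : ℝ)) := by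
    unfold Dir
    simp only [mul_sum, ← sum_add_distrib]
  have h4 : ∑ d ∈ Icc 1 V, (1 / (d : ℝ)) * ∑ b ∈ Icc 1 (V / d), (vonMangoldt b / (b : ℝ)) ≤
      (1 + Real.log V) * (2 * Real.log V) := by
    calc ∑ d ∈ Icc 1 V, (1 / (d : ℝ)) * ∑ b ∈ Icc 1 (V / d), (vonMangoldt b / (b : ℝ)) ≤
        ∑ d ∈ Icc 1 V, (1 / (d : ℝ)) * (2 * Real.log V) := by
          apply sum_le_sum
          intro d _
          apply mul_le_mul_of_nonneg_left _ (by positivity)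
          refine le_trans ?_ (sum_vM_div_le hV)
          apply sum_le_sum_of_subset_of_nonneg
          · exact Icc_subset_Icc_right (Nat.div_le_self _ _)
          · intro b _ _
            exact hLb b
      _ = (∑ d ∈ Icc 1 V, 1 / (d : ℝ)) * (2 * Real.log V) := by rw [sum_mul]
      _ ≤ _ := mul_le_mul_of_nonneg_right (sum_inv_le V) (by positivity)
  have h5 := mul_le_mul_of_nonneg_left h4 (by positivity : (0 : ℝ) ≤ 2 * (V : ℝ) ^ 2)
  rw [h3] at h2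
  linarith

lemma En_mm_le {k J V T : ℕ} {N Θ : ℝ} (hk : 1 ≤ k) (hJ : 1 ≤ J) (hV : 1 ≤ V) (hT : 1 ≤ T)
    (hJV : ys J ≤ V) (hN : 1 ≤ N) (hΘ0 : 0 ≤ Θ)
    (hΘ : Real.log N - Real.log k - Real.log V + (5 / 2 + Real.log 2) +
      (4 * Real.log T + Real.log V / T) ≤ Θ) :
    2 * En N V (mm k J) ≤
      Θ * ((k : ℝ) ^ 2 * (4 * (1 + 2 * Real.log V) / ((J : ℝ) ^ 2 * Real.log 2))) +
      (k : ℝ) ^ 2 * ((1 + 2 * Real.log V) / (J * Real.log 2)) +
      k * V * (2 * Real.log 16 + 1 + Real.log N + Real.log V) +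
      2 * (k : ℝ) ^ 2 * (16 * (1 + 2 * Real.log V) / J) +
      4 * (V : ℝ) ^ 2 * ((1 + Real.log V) * Real.log V) := by
  have hkr : (0 : ℝ) < k := by exact_mod_cast hk
  have hV0 : 0 ≤ Real.log V := Real.log_natCast_nonneg V
  have hN0 : 0 ≤ Real.log N := Real.log_nonneg hN
  have h16 : 0 ≤ Real.log 16 := Real.log_nonneg (by norm_num)
  have hs := star (N := N) (V := V) hkr (mm k J)
  have h1 : (∑ d ∈ Icc 1 V, wt d * ((d : ℝ) * mm k J d) ^ 2 *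
        (Real.log N - Real.log k - Real.log V + (5 / 2 + Real.log 2) + kap d)) ≤
      Θ * ((k : ℝ) ^ 2 * (4 * (1 + 2 * Real.log V) / ((J : ℝ) ^ 2 * Real.log 2))) := by
    calc (∑ d ∈ Icc 1 V, wt d * ((d : ℝ) * mm k J d) ^ 2 *
        (Real.log N - Real.log k - Real.log V + (5 / 2 + Real.log 2) + kap d)) ≤
        ∑ d ∈ Icc 1 V, wt d * ((d : ℝ) * mm k J d) ^ 2 * Θ := by
          apply sum_le_sum
          intro d hd
          rw [mem_Icc] at hd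
          apply mul_le_mul_of_nonneg_left _ (mul_nonneg (wt_nonneg d) (sq_nonneg _))
          have := kap_le hd.1 hd.2 hT
          linarith
      _ = Θ * ∑ d ∈ Icc 1 V, wt d * ((d : ℝ) * mm k J d) ^ 2 := by rw [← sum_mul, mul_comm]
      _ ≤ _ := by
          apply mul_le_mul_of_nonneg_left _ hΘ0
          refine (sum_wt_mm_sq_le k J V).trans ?_
          exact mul_le_mul_of_nonneg_left (H2_le hJ hJV) (by positivity)
  have h2 : k * (∑ d ∈ Icc 1 V, wt d * ((d : ℝ) * mm k J d)) ≤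
      (k : ℝ) ^ 2 * ((1 + 2 * Real.log V) / (J * Real.log 2)) := by
    calc k * (∑ d ∈ Icc 1 V, wt d * ((d : ℝ) * mm k J d)) ≤
        k * (k * ∑ d ∈ Icc 1 V, hh J d / (d : ℝ)) :=
          mul_le_mul_of_nonneg_left (sum_wt_mm_le k J V) hkr.le
      _ = (k : ℝ) ^ 2 * ∑ d ∈ Icc 1 V, hh J d / (d : ℝ) := by ring
      _ ≤ _ := mul_le_mul_of_nonneg_left (H1_le hJ hJV) (by positivity)
  have h3 : (∑ d ∈ Icc 1 V, (d.totient : ℝ) * mm k J d) *
      (2 * Real.log 16 + 1 + Real.log N + Real.log V) ≤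
      k * V * (2 * Real.log 16 + 1 + Real.log N + Real.log V) :=
    mul_le_mul_of_nonneg_right (sum_totient_mm_le k J V) (by positivity)
  have h4 := Dir_mm_le k J V hV
  have h5 : 2 * (k : ℝ) ^ 2 * Dir V (hh J) ≤ 2 * (k : ℝ) ^ 2 * (16 * (1 + 2 * Real.log V) / J) :=
    mul_le_mul_of_nonneg_left (Dir_hh_le hJ hJV) (by positivity)
  linarith

end Pool.Agent.H4Van
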