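import Pool.Agent.Lib.H4VanStar

/-!
# Sums over rough numbers and prime powers for MP_178164_nt (helper4)
-/

open Finset
open ArithmeticFunction (vonMangoldt)

namespace Pool.Agent.H4Van

/-- all prime factors exceed `y` -/
def Rough (y d : ℕ) : Prop := ∀ p, p.Prime → p ∣ d → y < p

lemma rough_one (y : ℕ) : Rough y 1 := fun _ hp h => absurd (Nat.dvd_one.1 h) hp.one_lt.ne'

open Classical in
/-- indicator of rough numbers -/
noncomputable def rf (y d : ℕ) : ℝ := if Rough y d then 1 else 0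

/-- indicator of a small least prime factor -/
noncomputable def sf (y b : ℕ) : ℝ := if b.minFac ≤ y then 1 else 0

lemma rf_nonneg (y d : ℕ) : 0 ≤ rf y d := by unfold rf; split_ifs <;> norm_num
lemma sf_nonneg (y b : ℕ) : 0 ≤ sf y b := by unfold sf; split_ifs <;> norm_num
lemma rf_le_one (y d : ℕ) : rf y d ≤ 1 := by unfold rf; split_ifs <;> norm_num
lemma sf_le_one (y b : ℕ) : sf y b ≤ 1 := by unfold sf; split_ifs <;> norm_num

lemma sum_inv_le (V : ℕ) : ∑ d ∈ Icc 1 V, 1 / (d : ℝ) ≤ 1 + Real.log V := by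
  have h := harmonic_le_one_add_log V
  rw [harmonic_eq_sum_Icc] at h
  push_cast at h
  simpa only [one_div] using h

lemma log_le_sum_inv (y : ℕ) (hy : 1 ≤ y) : Real.log y ≤ ∑ d ∈ Icc 1 y, 1 / (d : ℝ) := by
  have h := log_add_one_le_harmonic y
  rw [harmonic_eq_sum_Icc] at h
  push_cast at h
  have h2 : Real.log y ≤ Real.log ((y : ℝ) + 1) := by
    apply Real.log_le_log
    · exact_mod_cast hy
    · linarith
  simp only [one_div]
  linarith

lemma rough_inj {y m d m' d' : ℕ} (hm0 : 0 < m) (hm : m ≤ y) (hm0' : 0 < m') (hm' : m' ≤ y)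
    (hd : Rough y d) (hd' : Rough y d') (h : m * d = m' * d') : m = m' := by
  have key : ∀ {a b c e : ℕ}, 0 < a → a ≤ y → Rough y e → a * b = c * e → a ∣ c := by
    intro a b c e ha hay he h
    have h1 : Nat.Coprime a e := by
      rw [Nat.coprime_iff_gcd_eq_one]
      by_contra h2
      obtain ⟨p, hp, hpd⟩ := Nat.exists_prime_and_dvd h2
      have h3 := Nat.le_of_dvd ha (hpd.trans (Nat.gcd_dvd_left a e))
      have h4 := he p hp (hpd.trans (Nat.gcd_dvd_right a e))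
      omega
    exact h1.dvd_of_dvd_mul_right (h ▸ dvd_mul_right a b)
  exact Nat.dvd_antisymm (key hm0 hm hd' h) (key hm0' hm' hd h.symm)

lemma rho_le {V y : ℕ} (hy : 2 ≤ y) (hyV : y ≤ V) :
    ∑ d ∈ Icc 1 V, rf y d / (d : ℝ) ≤ (1 + 2 * Real.log V) / Real.log y := by
  classical
  have hyr : (1 : ℝ) < y := by exact_mod_cast hy
  have hly : 0 < Real.log y := Real.log_pos hyr
  rw [le_div_iff₀ hly]
  have h0 : ∑ d ∈ Icc 1 V, rf y d / (d : ℝ) = ∑ d ∈ (Icc 1 V).filter (Rough y), 1 / (d : ℝ) := by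
    rw [sum_filter]
    apply sum_congr rfl
    intro d _
    unfold rf
    split_ifs <;> simp
  set R := (Icc 1 V).filter (Rough y) with hR
  have h1 : (∑ d ∈ R, 1 / (d : ℝ)) * ∑ m ∈ Icc 1 y, 1 / (m : ℝ) ≤
      ∑ e ∈ Icc 1 (y * V), 1 / (e : ℝ) := by
    have hinj : Set.InjOn (fun x : ℕ × ℕ => x.2 * x.1) (R ×ˢ Icc 1 y : Finset (ℕ × ℕ)) := by
      rintro ⟨d, m⟩ h ⟨d', m'⟩ h' heq
      simp only [coe_product, Set.mem_prod, mem_coe, hR, mem_filter, mem_Icc] at h h'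
      simp only at heq
      obtain ⟨⟨⟨h1, h2⟩, h3⟩, h4, h5⟩ := h
      obtain ⟨⟨⟨h1', h2'⟩, h3'⟩, h4', h5'⟩ := h'
      have hmm : m = m' := rough_inj (by omega) h5 (by omega) h5' h3 h3' heq
      subst hmm
      have := Nat.eq_of_mul_eq_mul_left (by omega : 0 < m) heq
      rw [this]
    have h2 : (∑ d ∈ R, 1 / (d : ℝ)) * ∑ m ∈ Icc 1 y, 1 / (m : ℝ) =
        ∑ e ∈ (R ×ˢ Icc 1 y).image (fun x : ℕ × ℕ => x.2 * x.1), 1 / (e : ℝ) := by
      rw [sum_image hinj, sum_mul_sum, ← sum_product']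
      apply sum_congr rfl
      rintro ⟨d, m⟩ _
      simp only
      push_cast
      rw [div_mul_div_comm, mul_comm (d : ℝ)]
      ring
    rw [h2]
    apply sum_le_sum_of_subset_of_nonneg
    · intro e he
      rw [mem_image] at he
      obtain ⟨⟨d, m⟩, h, rfl⟩ := he
      simp only [mem_product, hR, mem_filter, mem_Icc] at h
      rw [mem_Icc]
      obtain ⟨⟨⟨h1, h2⟩, h3⟩, h4, h5⟩ := h
      exact ⟨Nat.mul_pos h4 h1, Nat.mul_le_mul h5 h2⟩
    · intro e _ _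
      positivity
  have h2 : ∑ e ∈ Icc 1 (y * V), 1 / (e : ℝ) ≤ 1 + Real.log ((y * V : ℕ) : ℝ) :=
    sum_inv_le _
  have h3 : Real.log ((y * V : ℕ) : ℝ) ≤ 2 * Real.log V := by
    have hVr : (0 : ℝ) < V := by exact_mod_cast (by omega : 0 < V)
    push_cast
    rw [Real.log_mul (by positivity) hVr.ne']
    have : Real.log y ≤ Real.log V := Real.log_le_log (by positivity) (by exact_mod_cast hyV)
    linarith
  have h4 := log_le_sum_inv y (by omega)
  have h5 : 0 ≤ ∑ d ∈ R, 1 / (d : ℝ) := sum_nonneg fun d _ => by positivity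
  rw [h0]
  calc (∑ d ∈ R, 1 / (d : ℝ)) * Real.log y ≤
      (∑ d ∈ R, 1 / (d : ℝ)) * ∑ m ∈ Icc 1 y, 1 / (m : ℝ) := mul_le_mul_of_nonneg_left h4 h5
    _ ≤ _ := by linarith

/-- primes up to `y`: `∑ log p/(p-1) ≤ 4 log y` -/
lemma sum_primes_le {y : ℕ} (hy : 1 ≤ y) :
    ∑ p ∈ (Icc 1 y).filter Nat.Prime, Real.log p / ((p : ℝ) - 1) ≤ 4 * Real.log y := by
  have h1 : ∑ p ∈ (Icc 1 y).filter Nat.Prime, Real.log p / ((p : ℝ) - 1) ≤
      ∑ p ∈ (Icc 1 y).filter Nat.Prime, 2 * (vonMangoldt p / (p : ℝ)) := by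
    apply sum_le_sum
    intro p hp
    rw [mem_filter] at hp
    have hp2 : (2 : ℝ) ≤ p := by exact_mod_cast hp.2.two_le
    rw [ArithmeticFunction.vonMangoldt_apply_prime hp.2, ← mul_div_assoc,
      div_le_div_iff₀ (by linarith) (by linarith)]
    have : 0 ≤ Real.log p := Real.log_nonneg (by linarith)
    nlinarith
  refine h1.trans ?_
  have h2 : ∑ p ∈ (Icc 1 y).filter Nat.Prime, 2 * (vonMangoldt p / (p : ℝ)) ≤
      ∑ p ∈ Icc 1 y, 2 * (vonMangoldt p / (p : ℝ)) := by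
    apply sum_le_sum_of_subset_of_nonneg (filter_subset _ _)
    intro p _ _
    have : (0 : ℝ) ≤ vonMangoldt p := ArithmeticFunction.vonMangoldt_nonneg
    positivity
  refine h2.trans ?_
  rw [← mul_sum]
  linarith [sum_vM_div_le hy]

lemma geom_le {p : ℝ} (hp : 2 ≤ p) (K : ℕ) : ∑ k ∈ Icc 1 K, 1 / p ^ k ≤ 1 / (p - 1) := by
  have h : ∑ k ∈ Icc 1 K, 1 / p ^ k = 1 / (p - 1) * (1 - 1 / p ^ K) := by
    induction K with
    | zero => simp
    | succ K ih =>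
      rw [sum_Icc_succ_top (by omega), ih]
      have : p - 1 ≠ 0 := by linarith
      have : p ≠ 0 := by linarith
      field_simp
      ring
  rw [h]
  have h1 : 0 < 1 / (p - 1) := by apply one_div_pos.2; linarith
  have h2 : 0 ≤ 1 / p ^ K := by positivity
  nlinarith

lemma beta_le {V y : ℕ} (hy : 1 ≤ y) :
    ∑ b ∈ Icc 1 V, sf y b * (vonMangoldt b / (b : ℝ)) ≤ 4 * Real.log y := by
  have h1 : ∑ b ∈ Icc 1 V, sf y b * (vonMangoldt b / (b : ℝ)) =
      ∑ b ∈ Ioc 0 ⌊(V : ℝ)⌋₊ with IsPrimePow b, sf y b * (vonMangoldt b / (b : ℝ)) := by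
    rw [Nat.floor_natCast, sum_filter]
    have : Icc 1 V = Ioc 0 V := by ext i; simp only [mem_Icc, mem_Ioc]; omega
    rw [this]
    apply sum_congr rfl
    intro b _
    split_ifs with h
    · rfl
    · rw [ArithmeticFunction.vonMangoldt_eq_zero_iff.2 h]; simp
  rw [h1, Chebyshev.sum_PrimePow_eq_sum_sum _ (by positivity)]
  set K := ⌊Real.log (V : ℝ) / Real.log 2⌋₊
  have h2 : ∀ k ∈ Icc 1 K, ∑ p ∈ Ioc 0 ⌊(V : ℝ) ^ ((1 : ℝ) / (k : ℝ))⌋₊ with p.Prime,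
      sf y (p ^ k) * (vonMangoldt (p ^ k) / (((p ^ k : ℕ)) : ℝ)) ≤
      ∑ p ∈ (Icc 1 y).filter Nat.Prime, Real.log p * (1 / (p : ℝ) ^ k) := by
    intro k hk
    rw [mem_Icc] at hk
    have h3 : ∑ p ∈ Ioc 0 ⌊(V : ℝ) ^ ((1 : ℝ) / (k : ℝ))⌋₊ with p.Prime,
      sf y (p ^ k) * (vonMangoldt (p ^ k) / (((p ^ k : ℕ)) : ℝ)) =
      ∑ p ∈ (Ioc 0 ⌊(V : ℝ) ^ ((1 : ℝ) / (k : ℝ))⌋₊).filter (fun p => p.Prime ∧ p ≤ y),
        Real.log p * (1 / (p : ℝ) ^ k) := by
      rw [sum_filter, sum_filter]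
      apply sum_congr rfl
      intro p _
      by_cases hp : p.Prime
      · rw [if_pos hp, ArithmeticFunction.vonMangoldt_apply_pow (by omega),
          ArithmeticFunction.vonMangoldt_apply_prime hp, sf, hp.pow_minFac (by omega)]
        by_cases hpy : p ≤ y
        · rw [if_pos hpy, if_pos ⟨hp, hpy⟩]
          push_cast
          ring
        · rw [if_neg hpy, if_neg (fun h => hpy h.2), zero_mul]
      · rw [if_neg hp, if_neg (fun h => hp h.1)]
    rw [h3]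
    apply sum_le_sum_of_subset_of_nonneg
    · intro p hp
      rw [mem_filter] at hp ⊢
      exact ⟨mem_Icc.2 ⟨hp.2.1.one_lt.le, hp.2.2⟩, hp.2.1⟩
    · intro p hp _
      rw [mem_filter, mem_Icc] at hp
      have : (1 : ℝ) ≤ p := by exact_mod_cast hp.1.1
      have := Real.log_nonneg this
      positivity
  refine (sum_le_sum h2).trans ?_
  rw [sum_comm]
  refine le_trans ?_ (sum_primes_le hy)
  apply sum_le_sum
  intro p hp
  rw [mem_filter] at hp
  have hp2 : (2 : ℝ) ≤ p := by exact_mod_cast hp.2.two_le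
  have hl : 0 ≤ Real.log p := Real.log_nonneg (by linarith)
  rw [← mul_sum, div_eq_mul_one_div]
  exact mul_le_mul_of_nonneg_left (geom_le hp2 K) hl

lemma kap_le {d V T : ℕ} (hd : 0 < d) (hdV : d ≤ V) (hT : 1 ≤ T) :
    kap d ≤ 4 * Real.log T + Real.log V / T := by
  classical
  have hTr : (0 : ℝ) < T := by exact_mod_cast hT
  unfold kap
  have h1 : ∑ p ∈ d.primeFactors, Real.log p / ((p : ℝ) - 1) =
      ∑ p ∈ d.primeFactors.filter (fun p => p ≤ T), Real.log p / ((p : ℝ) - 1) +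
      ∑ p ∈ d.primeFactors.filter (fun p => ¬ p ≤ T), Real.log p / ((p : ℝ) - 1) :=
    (sum_filter_add_sum_filter_not _ _ _).symm
  have h2 : ∑ p ∈ d.primeFactors.filter (fun p => p ≤ T), Real.log p / ((p : ℝ) - 1) ≤
      4 * Real.log T := by
    refine le_trans ?_ (sum_primes_le hT)
    apply sum_le_sum_of_subset_of_nonneg
    · intro p hp
      rw [mem_filter] at hp ⊢
      have := Nat.prime_of_mem_primeFactors hp.1
      exact ⟨mem_Icc.2 ⟨this.one_lt.le, hp.2⟩, this⟩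
    · intro p hp _
      rw [mem_filter] at hp
      have hp2 : (2 : ℝ) ≤ p := by exact_mod_cast hp.2.two_le
      exact div_nonneg (Real.log_nonneg (by linarith)) (by linarith)
  have h3 : ∑ p ∈ d.primeFactors.filter (fun p => ¬ p ≤ T), Real.log p / ((p : ℝ) - 1) ≤
      ∑ p ∈ d.primeFactors, Real.log p / T := by
    have h4 : ∑ p ∈ d.primeFactors.filter (fun p => ¬ p ≤ T), Real.log p / ((p : ℝ) - 1) ≤
        ∑ p ∈ d.primeFactors.filter (fun p => ¬ p ≤ T), Real.log p / T := by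
      apply sum_le_sum
      intro p hp
      rw [mem_filter] at hp
      have hp2 : (2 : ℝ) ≤ p := by exact_mod_cast (Nat.prime_of_mem_primeFactors hp.1).two_le
      have hpT : (T : ℝ) ≤ (p : ℝ) - 1 := by
        have : T + 1 ≤ p := by omega
        have : ((T + 1 : ℕ) : ℝ) ≤ p := by exact_mod_cast this
        push_cast at this
        linarith
      exact div_le_div_of_nonneg_left (Real.log_nonneg (by linarith)) hTr hpT
    refine h4.trans ?_
    apply sum_le_sum_of_subset_of_nonneg (filter_subset _ _)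
    intro p hp _
    have hp2 : (2 : ℝ) ≤ p := by exact_mod_cast (Nat.prime_of_mem_primeFactors hp).two_le
    exact div_nonneg (Real.log_nonneg (by linarith)) hTr.le
  have h5 : ∑ p ∈ d.primeFactors, Real.log p / T ≤ Real.log V / T := by
    rw [← sum_div]
    apply div_le_div_of_nonneg_right _ hTr.le
    have h0 : ∀ p ∈ d.primeFactors, (p : ℝ) ≠ 0 := by
      intro p hp
      have := (Nat.prime_of_mem_primeFactors hp).pos
      positivity
    rw [← Real.log_prod h0, ← Nat.cast_prod]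
    have h6 : ∏ p ∈ d.primeFactors, p ≤ V :=
      (Nat.le_of_dvd hd (Nat.prod_primeFactors_dvd d)).trans hdV
    have h7 : 0 < ∏ p ∈ d.primeFactors, p :=
      prod_pos fun p hp => (Nat.prime_of_mem_primeFactors hp).pos
    apply Real.log_le_log
    · exact_mod_cast h7
    · exact_mod_cast h6
  linarith

/-! ### the profile -/

/-- the scales `2^(2^s)` -/
def ys (s : ℕ) : ℕ := 2 ^ (2 ^ s)

/-- the profile -/
noncomputable def hh (J d : ℕ) : ℝ := (∑ s ∈ Icc 1 J, rf (ys s) d) / J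

lemma hh_nonneg (J d : ℕ) : 0 ≤ hh J d :=
  div_nonneg (sum_nonneg fun _ _ => rf_nonneg _ _) (Nat.cast_nonneg _)

lemma hh_le_one (J d : ℕ) : hh J d ≤ 1 := by
  unfold hh
  apply div_le_one_of_le₀ _ (Nat.cast_nonneg _)
  calc ∑ s ∈ Icc 1 J, rf (ys s) d ≤ ∑ s ∈ Icc 1 J, (1 : ℝ) := sum_le_sum fun _ _ => rf_le_one _ _
    _ = J := by simp

lemma hh_one {J : ℕ} (hJ : 1 ≤ J) : hh J 1 = 1 := by
  unfold hh
  have h : ∀ s ∈ Icc 1 J, rf (ys s) 1 = 1 := by
    intro s _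
    unfold rf
    rw [if_pos (rough_one _)]
  rw [sum_congr rfl h]
  have : (J : ℝ) ≠ 0 := by positivity
  simp [this]

lemma sq_sum_le (J : ℕ) (a : ℕ → ℝ) :
    (∑ s ∈ Icc 1 J, a s) ^ 2 ≤ 2 * ∑ s ∈ Icc 1 J, ∑ t ∈ Icc 1 s, a s * a t := by
  induction J with
  | zero => simp
  | succ J ih =>
    rw [sum_Icc_succ_top (by omega), sum_Icc_succ_top (by omega), ← mul_sum,
      sum_Icc_succ_top (by omega)]
    nlinarith [sq_nonneg (a (J + 1))]

lemma log_ys (s : ℕ) : Real.log (ys s : ℕ) = 2 ^ s * Real.log 2 := by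
  unfold ys
  push_cast
  rw [Real.log_pow]
  push_cast
  ring

lemma two_le_ys (s : ℕ) : 2 ≤ ys s := by
  unfold ys
  calc 2 = 2 ^ 1 := by norm_num
    _ ≤ 2 ^ (2 ^ s) := Nat.pow_le_pow_right (by norm_num) Nat.one_le_two_pow

lemma ys_mono {s t : ℕ} (h : s ≤ t) : ys s ≤ ys t :=
  Nat.pow_le_pow_right (by norm_num) (Nat.pow_le_pow_right (by norm_num) h)

/-- the sum over rough numbers, abbreviated -/
lemma rho_ys_le {V J s : ℕ} (hJV : ys J ≤ V) (hs : s ∈ Icc 1 J) :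
    ∑ d ∈ Icc 1 V, rf (ys s) d / (d : ℝ) ≤ (1 + 2 * Real.log V) / (2 ^ s * Real.log 2) := by
  rw [mem_Icc] at hs
  have h := rho_le (V := V) (two_le_ys s) ((ys_mono hs.2).trans hJV)
  rwa [log_ys] at h

lemma sum_half_pow (J : ℕ) : ∑ s ∈ Icc 1 J, 1 / (2 : ℝ) ^ s ≤ 1 := by
  have := geom_le (p := 2) le_rfl J
  norm_num at this ⊢
  exact this

lemma sum_s_half_pow (J : ℕ) : ∑ s ∈ Icc 1 J, (s : ℝ) / (2 : ℝ) ^ s ≤ 2 := by
  have h : ∑ s ∈ Icc 1 J, (s : ℝ) / (2 : ℝ) ^ s = 2 - ((J : ℝ) + 2) / 2 ^ J := by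
    induction J with
    | zero => simp
    | succ J ih =>
      rw [sum_Icc_succ_top (by omega), ih]
      push_cast
      field_simp
      ring
  rw [h]
  have : 0 ≤ ((J : ℝ) + 2) / 2 ^ J := by positivity
  linarith

lemma sum_two_pow (s : ℕ) : ∑ t ∈ Icc 1 s, (2 : ℝ) ^ t ≤ 2 * 2 ^ s := by
  induction s with
  | zero => simp
  | succ s ih => rw [sum_Icc_succ_top (by omega), pow_succ]; linarith

lemma H1_le {V J : ℕ} (hJ : 1 ≤ J) (hJV : ys J ≤ V) :
    ∑ d ∈ Icc 1 V, hh J d / (d : ℝ) ≤ (1 + 2 * Real.log V) / (J * Real.log 2) := by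
  have hJr : (0 : ℝ) < J := by exact_mod_cast hJ
  have hl2 : 0 < Real.log 2 := Real.log_pos (by norm_num)
  have hV0 : 0 ≤ 1 + 2 * Real.log V := by
    have := Real.log_natCast_nonneg V
    linarith
  have h1 : ∑ d ∈ Icc 1 V, hh J d / (d : ℝ) =
      (1 / J) * ∑ s ∈ Icc 1 J, ∑ d ∈ Icc 1 V, rf (ys s) d / (d : ℝ) := by
    rw [sum_comm, mul_sum]
    apply sum_congr rfl
    intro d _
    rw [hh, ← sum_div]
    ring
  rw [h1]
  have h2 : ∑ s ∈ Icc 1 J, ∑ d ∈ Icc 1 V, rf (ys s) d / (d : ℝ) ≤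
      (1 + 2 * Real.log V) / Real.log 2 := by
    calc ∑ s ∈ Icc 1 J, ∑ d ∈ Icc 1 V, rf (ys s) d / (d : ℝ) ≤
        ∑ s ∈ Icc 1 J, (1 + 2 * Real.log V) / (2 ^ s * Real.log 2) :=
          sum_le_sum fun s hs => rho_ys_le hJV hs
      _ = (1 + 2 * Real.log V) / Real.log 2 * ∑ s ∈ Icc 1 J, 1 / (2 : ℝ) ^ s := by
          rw [mul_sum]
          apply sum_congr rfl
          intro s _
          field_simp
      _ ≤ (1 + 2 * Real.log V) / Real.log 2 * 1 :=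
          mul_le_mul_of_nonneg_left (sum_half_pow J) (by positivity)
      _ = _ := mul_one _
  calc (1 / J : ℝ) * ∑ s ∈ Icc 1 J, ∑ d ∈ Icc 1 V, rf (ys s) d / (d : ℝ) ≤
      (1 / J : ℝ) * ((1 + 2 * Real.log V) / Real.log 2) :=
        mul_le_mul_of_nonneg_left h2 (by positivity)
    _ = _ := by field_simp

lemma hh_sq_le (J d : ℕ) (hJ : 1 ≤ J) :
    hh J d ^ 2 ≤ (2 / (J : ℝ) ^ 2) * ∑ s ∈ Icc 1 J, (s : ℝ) * rf (ys s) d := by
  have hJr : (0 : ℝ) < J := by exact_mod_cast hJ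
  have h1 := sq_sum_le J (fun s => rf (ys s) d)
  have h2 : ∑ s ∈ Icc 1 J, ∑ t ∈ Icc 1 s, rf (ys s) d * rf (ys t) d ≤
      ∑ s ∈ Icc 1 J, (s : ℝ) * rf (ys s) d := by
    apply sum_le_sum
    intro s _
    rw [← mul_sum, mul_comm]
    apply mul_le_mul_of_nonneg_right _ (rf_nonneg _ _)
    calc ∑ t ∈ Icc 1 s, rf (ys t) d ≤ ∑ t ∈ Icc 1 s, (1 : ℝ) :=
          sum_le_sum fun _ _ => rf_le_one _ _
      _ = s := by simp
  unfold hh
  rw [div_pow, div_mul_eq_mul_div]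
  apply div_le_div_of_nonneg_right _ (by positivity)
  linarith

lemma H2_le {V J : ℕ} (hJ : 1 ≤ J) (hJV : ys J ≤ V) :
    ∑ d ∈ Icc 1 V, hh J d ^ 2 / (d : ℝ) ≤
      4 * (1 + 2 * Real.log V) / ((J : ℝ) ^ 2 * Real.log 2) := by
  have hJr : (0 : ℝ) < J := by exact_mod_cast hJ
  have hl2 : 0 < Real.log 2 := Real.log_pos (by norm_num)
  have hV0 : 0 ≤ 1 + 2 * Real.log V := by
    have := Real.log_natCast_nonneg V
    linarith
  have h1 : ∑ d ∈ Icc 1 V, hh J d ^ 2 / (d : ℝ) ≤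
      ∑ d ∈ Icc 1 V, (2 / (J : ℝ) ^ 2) * (∑ s ∈ Icc 1 J, (s : ℝ) * rf (ys s) d) / (d : ℝ) := by
    apply sum_le_sum
    intro d _
    exact div_le_div_of_nonneg_right (hh_sq_le J d hJ) (Nat.cast_nonneg _)
  have h2 : ∑ d ∈ Icc 1 V, (2 / (J : ℝ) ^ 2) * (∑ s ∈ Icc 1 J, (s : ℝ) * rf (ys s) d) / (d : ℝ) =
      (2 / (J : ℝ) ^ 2) * ∑ s ∈ Icc 1 J, (s : ℝ) * ∑ d ∈ Icc 1 V, rf (ys s) d / (d : ℝ) := by
    simp only [mul_sum, sum_div]
    rw [sum_comm]
    apply sum_congr rfl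
    intro s _
    apply sum_congr rfl
    intro d _
    ring
  have h3 : ∑ s ∈ Icc 1 J, (s : ℝ) * ∑ d ∈ Icc 1 V, rf (ys s) d / (d : ℝ) ≤
      2 * ((1 + 2 * Real.log V) / Real.log 2) := by
    calc ∑ s ∈ Icc 1 J, (s : ℝ) * ∑ d ∈ Icc 1 V, rf (ys s) d / (d : ℝ) ≤
        ∑ s ∈ Icc 1 J, (s : ℝ) * ((1 + 2 * Real.log V) / (2 ^ s * Real.log 2)) :=
          sum_le_sum fun s hs => mul_le_mul_of_nonneg_left (rho_ys_le hJV hs) (Nat.cast_nonneg _)
      _ = (1 + 2 * Real.log V) / Real.log 2 * ∑ s ∈ Icc 1 J, (s : ℝ) / (2 : ℝ) ^ s := by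
          rw [mul_sum]
          apply sum_congr rfl
          intro s _
          field_simp
      _ ≤ (1 + 2 * Real.log V) / Real.log 2 * 2 :=
          mul_le_mul_of_nonneg_left (sum_s_half_pow J) (by positivity)
      _ = _ := mul_comm _ _
  calc ∑ d ∈ Icc 1 V, hh J d ^ 2 / (d : ℝ) ≤
      (2 / (J : ℝ) ^ 2) * ∑ s ∈ Icc 1 J, (s : ℝ) * ∑ d ∈ Icc 1 V, rf (ys s) d / (d : ℝ) :=
        h1.trans h2.le
    _ ≤ (2 / (J : ℝ) ^ 2) * (2 * ((1 + 2 * Real.log V) / Real.log 2)) :=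
        mul_le_mul_of_nonneg_left h3 (by positivity)
    _ = _ := by field_simp; ring

lemma rf_mul_primePow {y d b : ℕ} (hb : IsPrimePow b) :
    rf y d - rf y (d * b) = rf y d * sf y b := by
  obtain ⟨p, k, hp, hk, rfl⟩ := (isPrimePow_nat_iff b).1 hb
  unfold rf sf
  rw [hp.pow_minFac (by omega)]
  have h1 : Rough y (d * p ^ k) ↔ Rough y d ∧ ¬ p ≤ y := by
    constructor
    · intro h
      refine ⟨fun q hq hqd => h q hq (hqd.mul_right _), ?_⟩
      have := h p hp ((dvd_pow_self p (by omega)).mul_left d)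
      omega
    · rintro ⟨h, h'⟩ q hq hqd
      rcases (Nat.Prime.dvd_mul hq).1 hqd with h2 | h2
      · exact h q hq h2
      · have := (Nat.prime_dvd_prime_iff_eq hq hp).1 (hq.dvd_of_dvd_pow h2)
        omega
  by_cases hd : Rough y d <;> by_cases hpy : p ≤ y <;> simp [h1, hd, hpy]

lemma hh_diff_sq_le {J d b : ℕ} (hJ : 1 ≤ J) (hb : IsPrimePow b) :
    (hh J d - hh J (d * b)) ^ 2 ≤
      (2 / (J : ℝ) ^ 2) * ∑ s ∈ Icc 1 J, ∑ t ∈ Icc 1 s, rf (ys s) d * sf (ys t) b := by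
  have hJr : (0 : ℝ) < J := by exact_mod_cast hJ
  have h0 : hh J d - hh J (d * b) = (∑ s ∈ Icc 1 J, rf (ys s) d * sf (ys s) b) / J := by
    unfold hh
    rw [← sub_div, ← sum_sub_distrib]
    congr 1
    apply sum_congr rfl
    intro s _
    exact rf_mul_primePow hb
  have h1 := sq_sum_le J (fun s => rf (ys s) d * sf (ys s) b)
  have h2 : ∑ s ∈ Icc 1 J, ∑ t ∈ Icc 1 s, rf (ys s) d * sf (ys s) b * (rf (ys t) d * sf (ys t) b) ≤
      ∑ s ∈ Icc 1 J, ∑ t ∈ Icc 1 s, rf (ys s) d * sf (ys t) b := by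
    apply sum_le_sum
    intro s _
    apply sum_le_sum
    intro t _
    have e1 := rf_nonneg (ys s) d
    have e2 := sf_nonneg (ys t) b
    have e3 := rf_le_one (ys t) d
    have e4 := sf_le_one (ys s) b
    have e5 := rf_nonneg (ys t) d
    have e6 := sf_nonneg (ys s) b
    have e7 : sf (ys s) b * rf (ys t) d ≤ 1 := mul_le_one₀ e4 e5 e3
    calc rf (ys s) d * sf (ys s) b * (rf (ys t) d * sf (ys t) b) =
        (sf (ys s) b * rf (ys t) d) * (rf (ys s) d * sf (ys t) b) := by ring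
      _ ≤ 1 * (rf (ys s) d * sf (ys t) b) := mul_le_mul_of_nonneg_right e7 (mul_nonneg e1 e2)
      _ = _ := one_mul _
  rw [h0, div_pow, div_mul_eq_mul_div]
  apply div_le_div_of_nonneg_right _ (by positivity)
  linarith

lemma Dir_hh_le {V J : ℕ} (hJ : 1 ≤ J) (hJV : ys J ≤ V) :
    Dir V (hh J) ≤ 16 * (1 + 2 * Real.log V) / J := by
  have hJr : (0 : ℝ) < J := by exact_mod_cast hJ
  have hl2 : 0 < Real.log 2 := Real.log_pos (by norm_num)
  have hV0 : 0 ≤ 1 + 2 * Real.log V := by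
    have := Real.log_natCast_nonneg V
    linarith
  have hterm : ∀ d b : ℕ, wt d * (vonMangoldt b / (b : ℝ)) * (hh J d - hh J (d * b)) ^ 2 ≤
      (1 / (d : ℝ)) * (vonMangoldt b / (b : ℝ)) *
        ((2 / (J : ℝ) ^ 2) * ∑ s ∈ Icc 1 J, ∑ t ∈ Icc 1 s, rf (ys s) d * sf (ys t) b) := by
    intro d b
    have hL : (0 : ℝ) ≤ vonMangoldt b / (b : ℝ) :=
      div_nonneg ArithmeticFunction.vonMangoldt_nonneg (Nat.cast_nonneg _)
    by_cases hb : IsPrimePow b
    · apply mul_le_mul _ (hh_diff_sq_le hJ hb) (sq_nonneg _) (by positivity)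
      exact mul_le_mul_of_nonneg_right (wt_le d) hL
    · rw [ArithmeticFunction.vonMangoldt_eq_zero_iff.2 hb]; simp
  have hnn : ∀ d b : ℕ, 0 ≤ (1 / (d : ℝ)) * (vonMangoldt b / (b : ℝ)) *
        ((2 / (J : ℝ) ^ 2) * ∑ s ∈ Icc 1 J, ∑ t ∈ Icc 1 s, rf (ys s) d * sf (ys t) b) := by
    intro d b
    have hL : (0 : ℝ) ≤ vonMangoldt b / (b : ℝ) :=
      div_nonneg ArithmeticFunction.vonMangoldt_nonneg (Nat.cast_nonneg _)
    have : 0 ≤ ∑ s ∈ Icc 1 J, ∑ t ∈ Icc 1 s, rf (ys s) d * sf (ys t) b :=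
      sum_nonneg fun s _ => sum_nonneg fun t _ => mul_nonneg (rf_nonneg _ _) (sf_nonneg _ _)
    positivity
  have h1 : Dir V (hh J) ≤ ∑ d ∈ Icc 1 V, ∑ b ∈ Icc 1 V, (1 / (d : ℝ)) *
      (vonMangoldt b / (b : ℝ)) *
        ((2 / (J : ℝ) ^ 2) * ∑ s ∈ Icc 1 J, ∑ t ∈ Icc 1 s, rf (ys s) d * sf (ys t) b) := by
    unfold Dir
    apply sum_le_sum
    intro d _
    refine (sum_le_sum fun b _ => hterm d b).trans ?_
    apply sum_le_sum_of_subset_of_nonneg
    · apply Icc_subset_Icc_right (Nat.div_le_self _ _)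
    · intro b _ _
      exact hnn d b
  have h2 : ∑ d ∈ Icc 1 V, ∑ b ∈ Icc 1 V, (1 / (d : ℝ)) *
      (vonMangoldt b / (b : ℝ)) *
        ((2 / (J : ℝ) ^ 2) * ∑ s ∈ Icc 1 J, ∑ t ∈ Icc 1 s, rf (ys s) d * sf (ys t) b) =
      (2 / (J : ℝ) ^ 2) * ∑ s ∈ Icc 1 J, (∑ d ∈ Icc 1 V, rf (ys s) d / (d : ℝ)) *
        ∑ t ∈ Icc 1 s, ∑ b ∈ Icc 1 V, sf (ys t) b * (vonMangoldt b / (b : ℝ)) := by
    have e1 : ∀ s ∈ Icc 1 J, (∑ d ∈ Icc 1 V, rf (ys s) d / (d : ℝ)) *
        ∑ t ∈ Icc 1 s, ∑ b ∈ Icc 1 V, sf (ys t) b * (vonMangoldt b / (b : ℝ)) =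
        ∑ d ∈ Icc 1 V, ∑ b ∈ Icc 1 V, ∑ t ∈ Icc 1 s,
          (1 / (d : ℝ)) * (vonMangoldt b / (b : ℝ)) * (rf (ys s) d * sf (ys t) b) := by
      intro s _
      rw [sum_comm (s := Icc 1 s), sum_mul_sum]
      apply sum_congr rfl
      intro d _
      apply sum_congr rfl
      intro b _
      rw [mul_sum]
      apply sum_congr rfl
      intro t _
      ring
    rw [sum_congr rfl e1, sum_comm (s := Icc 1 J), mul_sum]
    apply sum_congr rfl
    intro d _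
    rw [sum_comm (s := Icc 1 J), mul_sum]
    apply sum_congr rfl
    intro b _
    simp only [mul_sum]
    apply sum_congr rfl
    intro s _
    apply sum_congr rfl
    intro t _
    ring
  have h3 : ∀ s ∈ Icc 1 J, (∑ d ∈ Icc 1 V, rf (ys s) d / (d : ℝ)) *
        ∑ t ∈ Icc 1 s, ∑ b ∈ Icc 1 V, sf (ys t) b * (vonMangoldt b / (b : ℝ)) ≤
        8 * (1 + 2 * Real.log V) := by
    intro s hs
    have e1 := rho_ys_le hJV hs
    have e2 : ∑ t ∈ Icc 1 s, ∑ b ∈ Icc 1 V, sf (ys t) b * (vonMangoldt b / (b : ℝ)) ≤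
        8 * 2 ^ s * Real.log 2 := by
      calc ∑ t ∈ Icc 1 s, ∑ b ∈ Icc 1 V, sf (ys t) b * (vonMangoldt b / (b : ℝ)) ≤
          ∑ t ∈ Icc 1 s, 4 * (2 ^ t * Real.log 2) := by
            apply sum_le_sum
            intro t _
            have := beta_le (V := V) (y := ys t) (by have := two_le_ys t; omega)
            rwa [log_ys] at this
        _ = 4 * Real.log 2 * ∑ t ∈ Icc 1 s, (2 : ℝ) ^ t := by
            rw [mul_sum]
            apply sum_congr rfl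
            intro t _
            ring
        _ ≤ 4 * Real.log 2 * (2 * 2 ^ s) := mul_le_mul_of_nonneg_left (sum_two_pow s) (by positivity)
        _ = _ := by ring
    have e3 : 0 ≤ ∑ d ∈ Icc 1 V, rf (ys s) d / (d : ℝ) :=
      sum_nonneg fun d _ => div_nonneg (rf_nonneg _ _) (Nat.cast_nonneg _)
    calc (∑ d ∈ Icc 1 V, rf (ys s) d / (d : ℝ)) *
        ∑ t ∈ Icc 1 s, ∑ b ∈ Icc 1 V, sf (ys t) b * (vonMangoldt b / (b : ℝ)) ≤
        (∑ d ∈ Icc 1 V, rf (ys s) d / (d : ℝ)) * (8 * 2 ^ s * Real.log 2) :=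
          mul_le_mul_of_nonneg_left e2 e3
      _ ≤ (1 + 2 * Real.log V) / (2 ^ s * Real.log 2) * (8 * 2 ^ s * Real.log 2) :=
          mul_le_mul_of_nonneg_right e1 (by positivity)
      _ = _ := by field_simp
  rw [h2] at h1
  have h4 := sum_le_sum h3
  rw [sum_const, Nat.card_Icc, nsmul_eq_mul] at h4
  have h5 := mul_le_mul_of_nonneg_left h4 (by positivity : (0 : ℝ) ≤ 2 / (J : ℝ) ^ 2)
  refine h1.trans (h5.trans (le_of_eq ?_))
  have : ((J + 1 - 1 : ℕ) : ℝ) = J := by simp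
  rw [this]
  field_simp
  ring

end Pool.Agent.H4Van
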