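import Pool.Agent.Lib.H4VanSums

/-!
# The quadratic form inequality for MP_178164_nt (helper4)
-/

open Finset
open ArithmeticFunction (vonMangoldt)

namespace Pool.Agent.H4Van

lemma log_factorial_eq (x : ℕ) :
    Real.log (x.factorial : ℝ) = ∑ b ∈ Icc 1 x, vonMangoldt b * ((x / b : ℕ) : ℝ) := by
  have h1 := ArithmeticFunction.sum_Ioc_mul_zeta_eq_sum (R := ℝ) vonMangoldt x
  rw [ArithmeticFunction.vonMangoldt_mul_zeta] at h1
  have h2 : Icc 1 x = Ioc 0 x := by
    ext i; simp only [mem_Icc, mem_Ioc]; omega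
  rw [h2, ← h1]
  clear h1 h2
  induction x with
  | zero => simp
  | succ x ih =>
    have h3 : Ioc 0 (x + 1) = insert (x + 1) (Ioc 0 x) := by
      ext i; simp only [mem_insert, mem_Ioc]; omega
    rw [h3, sum_insert (by simp), Nat.factorial_succ, Nat.cast_mul,
      Real.log_mul (by positivity) (by positivity), ih, ArithmeticFunction.log_apply]

lemma sum_vM_div_ge {x : ℕ} (hx : 1 ≤ x) :
    Real.log x - 1 ≤ ∑ b ∈ Icc 1 x, vonMangoldt b / (b : ℝ) := by
  have hxr : (0 : ℝ) < x := by exact_mod_cast hx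
  have h1 : Real.log (x.factorial : ℝ) ≤ x * ∑ b ∈ Icc 1 x, vonMangoldt b / (b : ℝ) := by
    rw [log_factorial_eq, mul_sum]
    apply sum_le_sum
    intro b _
    have h2 : ((x / b : ℕ) : ℝ) ≤ (x : ℝ) / b := Nat.cast_div_le
    have h3 : (0 : ℝ) ≤ vonMangoldt b := ArithmeticFunction.vonMangoldt_nonneg
    have h4 : (x : ℝ) * (vonMangoldt b / (b : ℝ)) = vonMangoldt b * ((x : ℝ) / b) := by ring
    rw [h4]
    exact mul_le_mul_of_nonneg_left h2 h3
  have h2 : (x : ℝ) ^ x / (x.factorial : ℝ) ≤ Real.exp x := Real.pow_div_factorial_le_exp x hxr.le x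
  have hf : (0 : ℝ) < (x.factorial : ℝ) := by exact_mod_cast x.factorial_pos
  have h5 := Real.log_le_log (by positivity) h2
  rw [Real.log_div (by positivity) hf.ne', Real.log_pow, Real.log_exp] at h5
  have h6 : (x : ℝ) * (Real.log x - 1) ≤ x * ∑ b ∈ Icc 1 x, vonMangoldt b / (b : ℝ) := by linarith
  exact le_of_mul_le_mul_left h6 hxr

lemma sum_vM_div_le {x : ℕ} (hx : 1 ≤ x) :
    ∑ b ∈ Icc 1 x, vonMangoldt b / (b : ℝ) ≤ 2 * Real.log x := by
  have hxr : (0 : ℝ) < x := by exact_mod_cast hx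
  have h1 : (x : ℝ) / 2 * ∑ b ∈ Icc 1 x, vonMangoldt b / (b : ℝ) ≤ Real.log (x.factorial : ℝ) := by
    rw [log_factorial_eq, mul_sum]
    apply sum_le_sum
    intro b hb
    rw [mem_Icc] at hb
    have hbr : (0 : ℝ) < b := by exact_mod_cast (by omega : 0 < b)
    have h2 : (x : ℝ) / b ≤ 2 * ((x / b : ℕ) : ℝ) := by
      rw [div_le_iff₀ hbr]
      have h3 : 1 ≤ x / b := (Nat.one_le_div_iff (by omega)).2 hb.2
      have h4 : x < b * (x / b + 1) := by
        have := Nat.lt_mul_div_succ x (by omega : 0 < b)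
        simpa using this
      have h5 : x ≤ 2 * (x / b) * b := by nlinarith
      exact_mod_cast h5
    have h3 : (0 : ℝ) ≤ vonMangoldt b := ArithmeticFunction.vonMangoldt_nonneg
    have h4 : (x : ℝ) / 2 * (vonMangoldt b / (b : ℝ)) = vonMangoldt b * ((x : ℝ) / b / 2) := by ring
    rw [h4]
    exact mul_le_mul_of_nonneg_left (by linarith) h3
  have h2 : Real.log (x.factorial : ℝ) ≤ x * Real.log x := by
    rw [← Real.log_pow]
    apply Real.log_le_log
    · exact_mod_cast x.factorial_pos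
    · exact_mod_cast Nat.factorial_le_pow x
  have h3 : (x : ℝ) / 2 * ∑ b ∈ Icc 1 x, vonMangoldt b / (b : ℝ) ≤ (x : ℝ) / 2 * (2 * Real.log x) := by
    linarith
  exact le_of_mul_le_mul_left h3 (by positivity)

lemma sum_pairs (V : ℕ) (f : ℕ → ℕ → ℝ) :
    ∑ d ∈ Icc 1 V, ∑ b ∈ Icc 1 (V / d), f d b =
      ∑ e ∈ Icc 1 V, ∑ x ∈ e.divisorsAntidiagonal, f x.1 x.2 := by
  rw [sum_sigma', sum_sigma']
  refine sum_bij' (fun x _ => ⟨x.1 * x.2, (x.1, x.2)⟩) (fun y _ => ⟨y.2.1, y.2.2⟩) ?_ ?_ ?_ ?_ ?_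
  · rintro ⟨d, b⟩ h
    simp only [mem_sigma, mem_Icc] at h
    simp only [mem_sigma, mem_Icc, Nat.mem_divisorsAntidiagonal]
    obtain ⟨⟨h1, h2⟩, h3, h4⟩ := h
    have h5 : d * b ≤ V := (Nat.mul_le_mul_left d h4).trans (Nat.mul_div_le V d)
    have h6 : 0 < d * b := Nat.mul_pos h1 h3
    exact ⟨⟨h6, h5⟩, trivial, h6.ne'⟩
  · rintro ⟨e, d, b⟩ h
    simp only [mem_sigma, mem_Icc, Nat.mem_divisorsAntidiagonal] at h
    simp only [mem_sigma, mem_Icc]
    obtain ⟨⟨h1, h2⟩, h3, h4⟩ := h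
    subst h3
    have hd : 0 < d := Nat.pos_of_ne_zero (left_ne_zero_of_mul h4)
    have hb : 0 < b := Nat.pos_of_ne_zero (right_ne_zero_of_mul h4)
    refine ⟨⟨hd, ?_⟩, hb, ?_⟩
    · exact (Nat.le_mul_of_pos_right d hb).trans h2
    · rw [Nat.le_div_iff_mul_le hd, mul_comm]; exact h2
  · rintro ⟨d, b⟩ _
    rfl
  · rintro ⟨e, d, b⟩ h
    simp only [mem_sigma, mem_Icc, Nat.mem_divisorsAntidiagonal] at h
    obtain ⟨_, h3, _⟩ := h
    subst h3
    rfl
  · rintro ⟨d, b⟩ _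
    rfl

lemma totient_mul_le (d b : ℕ) : (d * b).totient ≤ b * d.totient := by
  rcases Nat.eq_zero_or_pos d with h | hd
  · subst h; simp
  rcases Nat.eq_zero_or_pos b with h | hb
  · subst h; simp
  have h1 := Nat.totient_gcd_mul_totient_mul d b
  set g := d.gcd b with hg
  have hgpos : 0 < g := Nat.gcd_pos_of_pos_left b hd
  have hgb : g ∣ b := Nat.gcd_dvd_right d b
  -- φ b * g ≤ b * φ g
  have h2 : b.totient * g ≤ b * g.totient := by
    have e1 := Nat.totient_mul_prod_primeFactors b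
    have e2 := Nat.totient_mul_prod_primeFactors g
    have e3 : b.primeFactors = g.primeFactors ∪ (b.primeFactors \ g.primeFactors) := by
      rw [union_sdiff_of_subset (Nat.primeFactors_mono hgb hb.ne')]
    have e4 : ∏ p ∈ b.primeFactors, p = (∏ p ∈ g.primeFactors, p) *
        ∏ p ∈ b.primeFactors \ g.primeFactors, p := by
      conv_lhs => rw [e3]
      rw [prod_union disjoint_sdiff]
    have e5 : ∏ p ∈ b.primeFactors, (p - 1) = (∏ p ∈ g.primeFactors, (p - 1)) *
        ∏ p ∈ b.primeFactors \ g.primeFactors, (p - 1) := by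
      conv_lhs => rw [e3]
      rw [prod_union disjoint_sdiff]
    have e6 : ∏ p ∈ b.primeFactors \ g.primeFactors, (p - 1) ≤
        ∏ p ∈ b.primeFactors \ g.primeFactors, p := prod_le_prod' fun p _ => Nat.sub_le _ _
    have e7 : 0 < (∏ p ∈ g.primeFactors, p) :=
      prod_pos fun p hp => (Nat.prime_of_mem_primeFactors hp).pos
    have e8 : 0 < ∏ p ∈ b.primeFactors \ g.primeFactors, p :=
      prod_pos fun p hp => (Nat.prime_of_mem_primeFactors (mem_sdiff.1 hp).1).pos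
    rw [e4, e5] at e1
    set P := ∏ p ∈ g.primeFactors, p
    set P' := ∏ p ∈ g.primeFactors, (p - 1)
    set Q := ∏ p ∈ b.primeFactors \ g.primeFactors, p
    set Q' := ∏ p ∈ b.primeFactors \ g.primeFactors, (p - 1)
    -- φ b * (P Q) = b * (P' Q'), φ g * P = g * P'
    have h3 : (b.totient * g) * (P * Q) ≤ (b * g.totient) * (P * Q) := by
      calc (b.totient * g) * (P * Q) = (b.totient * (P * Q)) * g := by ring
        _ = b * (P' * Q') * g := by rw [e1]
        _ = b * (g * P') * Q' := by ring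
        _ = b * (g.totient * P) * Q' := by rw [e2]
        _ ≤ b * (g.totient * P) * Q := Nat.mul_le_mul_left _ e6
        _ = (b * g.totient) * (P * Q) := by ring
    exact Nat.le_of_mul_le_mul_right h3 (Nat.mul_pos e7 e8)
  have hgt : 0 < g.totient := Nat.totient_pos.2 hgpos
  have h3 : g.totient * (d * b).totient ≤ g.totient * (b * d.totient) := by
    rw [h1]
    calc d.totient * b.totient * g = d.totient * (b.totient * g) := by ring
      _ ≤ d.totient * (b * g.totient) := Nat.mul_le_mul_left _ h2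
      _ = g.totient * (b * d.totient) := by ring
  exact Nat.le_of_mul_le_mul_left h3 hgt

/-- the weight `φ(d)/d²` -/
noncomputable def wt (d : ℕ) : ℝ := (d.totient : ℝ) / (d : ℝ) ^ 2

lemma wt_nonneg (d : ℕ) : 0 ≤ wt d := by unfold wt; positivity

lemma wt_le (d : ℕ) : wt d ≤ 1 / d := by
  unfold wt
  rcases Nat.eq_zero_or_pos d with h | hd
  · subst h; simp
  have hdr : (0 : ℝ) < d := by exact_mod_cast hd
  rw [div_le_div_iff₀ (by positivity) hdr]
  have : (d.totient : ℝ) ≤ d := by exact_mod_cast Nat.totient_le d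
  nlinarith

lemma wt_mul_le {d b : ℕ} (hd : 0 < d) (hb : 0 < b) : wt (d * b) ≤ wt d / b := by
  unfold wt
  have hdr : (0 : ℝ) < d := by exact_mod_cast hd
  have hbr : (0 : ℝ) < b := by exact_mod_cast hb
  have h1 : ((d * b).totient : ℝ) ≤ b * d.totient := by exact_mod_cast totient_mul_le d b
  rw [div_div, div_le_div_iff₀ (by positivity) (by positivity)]
  push_cast
  have h2 := mul_le_mul_of_nonneg_right h1 (by positivity : (0 : ℝ) ≤ (d : ℝ) ^ 2 * b)
  calc ((d * b).totient : ℝ) * ((d : ℝ) ^ 2 * b) ≤ b * d.totient * ((d : ℝ) ^ 2 * b) := h2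
    _ = d.totient * ((d : ℝ) * b) ^ 2 := by ring

/-- the Dirichlet form -/
noncomputable def Dir (V : ℕ) (X : ℕ → ℝ) : ℝ :=
  ∑ d ∈ Icc 1 V, ∑ b ∈ Icc 1 (V / d), wt d * (vonMangoldt b / (b : ℝ)) * (X d - X (d * b)) ^ 2

lemma cross_sum (V : ℕ) (X : ℕ → ℝ) :
    ∑ e ∈ Icc 1 V, wt e * X e ^ 2 * Real.log e ≤
      ∑ d ∈ Icc 1 V, ∑ b ∈ Icc 1 (V / d), wt d * (vonMangoldt b / (b : ℝ)) * X (d * b) ^ 2 := by
  rw [sum_pairs V fun d b => wt d * (vonMangoldt b / (b : ℝ)) * X (d * b) ^ 2]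
  apply sum_le_sum
  intro e he
  rw [mem_Icc] at he
  rw [← ArithmeticFunction.vonMangoldt_sum, ← Nat.sum_divisorsAntidiagonal' (fun _ b => vonMangoldt b),
    mul_sum]
  apply sum_le_sum
  rintro ⟨d, b⟩ hx
  rw [Nat.mem_divisorsAntidiagonal] at hx
  simp only at hx ⊢
  obtain ⟨h3, h4⟩ := hx
  subst h3
  have hd : 0 < d := Nat.pos_of_ne_zero (left_ne_zero_of_mul h4)
  have hb : 0 < b := Nat.pos_of_ne_zero (right_ne_zero_of_mul h4)
  have h5 := wt_mul_le hd hb
  have h6 : (0 : ℝ) ≤ vonMangoldt b * X (d * b) ^ 2 :=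
    mul_nonneg ArithmeticFunction.vonMangoldt_nonneg (sq_nonneg _)
  have h7 := mul_le_mul_of_nonneg_right h5 h6
  calc wt (d * b) * X (d * b) ^ 2 * vonMangoldt b = wt (d * b) * (vonMangoldt b * X (d * b) ^ 2) := by
        ring
    _ ≤ wt d / b * (vonMangoldt b * X (d * b) ^ 2) := h7
    _ = wt d * (vonMangoldt b / (b : ℝ)) * X (d * b) ^ 2 := by ring

lemma sum_vM_floor {V d : ℕ} (hd : 0 < d) (hdV : d ≤ V) :
    Real.log V - Real.log d - (Real.log 2 + 1) ≤
      ∑ b ∈ Icc 1 (V / d), vonMangoldt b / (b : ℝ) := by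
  have hdr : (0 : ℝ) < d := by exact_mod_cast hd
  have hVr : (0 : ℝ) < V := by exact_mod_cast hd.trans_le hdV
  have h1 : 1 ≤ V / d := (Nat.one_le_div_iff hd).2 hdV
  have h2 := sum_vM_div_ge h1
  have h3 : (V : ℝ) / d ≤ 2 * ((V / d : ℕ) : ℝ) := by
    rw [div_le_iff₀ hdr]
    have h4 : V < d * (V / d + 1) := by
      have := Nat.lt_mul_div_succ V hd
      simpa using this
    have h5 : V ≤ 2 * (V / d) * d := by nlinarith
    exact_mod_cast h5
  have h4 := Real.log_le_log (by positivity) h3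
  have h5 : (0 : ℝ) < ((V / d : ℕ) : ℝ) := by exact_mod_cast h1
  rw [Real.log_div hVr.ne' hdr.ne', Real.log_mul (by norm_num) h5.ne'] at h4
  linarith

lemma neg_sq_log_le {k X : ℝ} (hk : 0 < k) (hX : 0 < X) :
    -(X ^ 2 * Real.log X) ≤ -(X ^ 2 * Real.log k) + k * X := by
  have h1 : Real.log (k / X) ≤ k / X := by
    have := Real.log_le_sub_one_of_pos (x := k / X) (by positivity)
    linarith
  rw [Real.log_div hk.ne' hX.ne'] at h1
  have h2 := mul_le_mul_of_nonneg_left h1 (sq_nonneg X)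
  have h3 : X ^ 2 * (k / X) = k * X := by field_simp
  rw [h3] at h2
  linarith

theorem star {N k : ℝ} {V : ℕ} (hk : 0 < k) (m : ℕ → ℕ) :
    2 * En N V m ≤
      (∑ d ∈ Icc 1 V, wt d * ((d : ℝ) * m d) ^ 2 *
        (Real.log N - Real.log k - Real.log V + (5 / 2 + Real.log 2) + kap d)) +
      k * (∑ d ∈ Icc 1 V, wt d * ((d : ℝ) * m d)) +
      (∑ d ∈ Icc 1 V, (d.totient : ℝ) * m d) * (2 * Real.log 16 + 1 + Real.log N + Real.log V) +
      Dir V (fun d => (d : ℝ) * m d) := by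
  set X : ℕ → ℝ := fun d => (d : ℝ) * m d with hX
  -- the cross terms
  have hcross : 2 * (∑ d ∈ Icc 1 V, ∑ b ∈ Icc 1 (V / d),
      (d.totient : ℝ) * (m d : ℝ) * (m (d * b) : ℝ) * vonMangoldt b) =
      (∑ d ∈ Icc 1 V, wt d * X d ^ 2 * ∑ b ∈ Icc 1 (V / d), vonMangoldt b / (b : ℝ)) +
      (∑ d ∈ Icc 1 V, ∑ b ∈ Icc 1 (V / d), wt d * (vonMangoldt b / (b : ℝ)) * X (d * b) ^ 2) -
      Dir V X := by
    rw [Dir]
    simp only [mul_sum, ← sum_add_distrib, ← sum_sub_distrib]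
    apply sum_congr rfl
    intro d hd
    apply sum_congr rfl
    intro b hb
    rw [mem_Icc] at hd hb
    have hdr : (0 : ℝ) < d := by exact_mod_cast hd.1
    have hbr : (0 : ℝ) < b := by exact_mod_cast hb.1
    simp only [hX, wt]
    push_cast
    field_simp
    ring
  have h1 : ∑ d ∈ Icc 1 V, wt d * X d ^ 2 * (Real.log V - Real.log d - (Real.log 2 + 1)) ≤
      ∑ d ∈ Icc 1 V, wt d * X d ^ 2 * ∑ b ∈ Icc 1 (V / d), vonMangoldt b / (b : ℝ) := by
    apply sum_le_sum
    intro d hd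
    rw [mem_Icc] at hd
    exact mul_le_mul_of_nonneg_left (sum_vM_floor hd.1 hd.2)
      (mul_nonneg (wt_nonneg d) (sq_nonneg _))
  have h2 := cross_sum V X
  have h3 : 2 * (∑ d ∈ Icc 1 V, (d.totient : ℝ) * ((m d : ℝ) * Real.log 16 +
    ((m d : ℝ) * (m d + 1) / 2 * (1 + Real.log N) -
      ((m d : ℝ) ^ 2 / 2 * Real.log (m d) - (m d : ℝ) ^ 2 / 4)) -
    (m d : ℝ) * ((m d : ℝ) - 1) / 2 * (Real.log d - kap d))) ≤
      ∑ d ∈ Icc 1 V, (wt d * X d ^ 2 * (Real.log N - Real.log k + 3 / 2 + kap d) +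
        k * (wt d * X d) +
        (d.totient : ℝ) * m d * (2 * Real.log 16 + 1 + Real.log N + Real.log V)) := by
    rw [mul_sum]
    apply sum_le_sum
    intro d hd
    rw [mem_Icc] at hd
    have hdr : (0 : ℝ) < d := by exact_mod_cast hd.1
    have hφ : (0 : ℝ) ≤ (d.totient : ℝ) := Nat.cast_nonneg _
    have hM : (0 : ℝ) ≤ (m d : ℝ) := Nat.cast_nonneg _
    have hκ := kap_nonneg d
    have hlV : Real.log d ≤ Real.log V := Real.log_le_log hdr (by exact_mod_cast hd.2)
    have e1 : wt d * X d ^ 2 = (d.totient : ℝ) * (m d : ℝ) ^ 2 := by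
      simp only [hX, wt]; field_simp
    have e2 : -((d.totient : ℝ) * (m d : ℝ) ^ 2 * (Real.log (m d) + Real.log d)) ≤
        -(wt d * X d ^ 2 * Real.log k) + k * (wt d * X d) := by
      rcases Nat.eq_zero_or_pos (m d) with h0 | h0
      · have : X d = 0 := by simp only [hX, h0]; simp
        rw [h0, this]; simp
      · have hMr : (0 : ℝ) < (m d : ℝ) := by exact_mod_cast h0
        have hXp : 0 < X d := by simp only [hX]; positivity
        have e3 : Real.log (m d) + Real.log d = Real.log (X d) := by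
          simp only [hX]
          rw [Real.log_mul hdr.ne' hMr.ne']
          ring
        have e4 := mul_le_mul_of_nonneg_left (neg_sq_log_le hk hXp) (wt_nonneg d)
        rw [e3, ← e1]
        linarith
    have e5 : (d.totient : ℝ) * (m d : ℝ) * (Real.log d - kap d) ≤
        (d.totient : ℝ) * (m d : ℝ) * Real.log V :=
      mul_le_mul_of_nonneg_left (by linarith) (mul_nonneg hφ hM)
    have e6 : wt d * X d ^ 2 * (Real.log N - Real.log k + 3 / 2 + kap d) =
        (d.totient : ℝ) * (m d : ℝ) ^ 2 * (Real.log N + 3 / 2 + kap d) -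
          wt d * X d ^ 2 * Real.log k := by
      rw [← e1]; ring
    rw [e6]
    nlinarith
  have h4 : ∑ d ∈ Icc 1 V, (wt d * X d ^ 2 * (Real.log N - Real.log k + 3 / 2 + kap d) +
        k * (wt d * X d) +
        (d.totient : ℝ) * m d * (2 * Real.log 16 + 1 + Real.log N + Real.log V)) -
        ∑ d ∈ Icc 1 V, wt d * X d ^ 2 * (Real.log V - Real.log d - (Real.log 2 + 1)) -
        ∑ e ∈ Icc 1 V, wt e * X e ^ 2 * Real.log e =
      (∑ d ∈ Icc 1 V, wt d * X d ^ 2 *
        (Real.log N - Real.log k - Real.log V + (5 / 2 + Real.log 2) + kap d)) +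
      k * (∑ d ∈ Icc 1 V, wt d * X d) +
      (∑ d ∈ Icc 1 V, (d.totient : ℝ) * m d) *
        (2 * Real.log 16 + 1 + Real.log N + Real.log V) := by
    rw [mul_sum, sum_mul, ← sum_sub_distrib, ← sum_sub_distrib, ← sum_add_distrib,
      ← sum_add_distrib]
    apply sum_congr rfl
    intro d _
    ring
  unfold En
  linarith

end Pool.Agent.H4Van
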