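import Pool.Agent.Lib.H4VanCount

/-!
# Sums over integers and the quadratic form for MP_178164_nt (helper4)
-/

open Polynomial Finset
open ArithmeticFunction (vonMangoldt)

namespace Pool.Agent.H4Van

/-- `∑ log p / (p - 1)` over the primes dividing `d` -/
noncomputable def kap (d : ℕ) : ℝ := ∑ p ∈ d.primeFactors, Real.log p / ((p : ℝ) - 1)

lemma kap_nonneg (d : ℕ) : 0 ≤ kap d := by
  apply sum_nonneg
  intro p hp
  have hp1 := (Nat.prime_of_mem_primeFactors hp).one_lt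
  have : (1 : ℝ) < p := by exact_mod_cast hp1
  exact div_nonneg (Real.log_nonneg this.le) (by linarith)

lemma log_nrm_deriv {d : ℕ} (hd : 0 < d) :
    Real.log (nrm d (derivative (cyclotomic d ℤ))) = d.totient * (Real.log d - kap d) := by
  have hdr : (0 : ℝ) < d := by exact_mod_cast hd
  have h0 : ∀ p ∈ d.primeFactors, ((p ^ (d.totient / (p - 1)) : ℕ) : ℝ) ≠ 0 := by
    intro p hp
    have := (Nat.prime_of_mem_primeFactors hp).pos
    positivity
  have h1 : ((∏ p ∈ d.primeFactors, p ^ (d.totient / (p - 1)) : ℕ) : ℝ) ≠ 0 := by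
    rw [Nat.cast_prod]
    exact prod_ne_zero_iff.2 h0
  rw [nrm_deriv hd, Nat.cast_div (Nat.prod_primeFactors_pow_totient_ediv_dvd hd) h1,
    Real.log_div (by positivity) h1, Nat.cast_pow, Real.log_pow, Nat.cast_prod, Real.log_prod h0,
    mul_sub, kap, mul_sum]
  congr 1
  apply sum_congr rfl
  intro p hp
  have hpp := Nat.prime_of_mem_primeFactors hp
  have h2 : (p - 1) ∣ d.totient := by
    rw [← Nat.totient_prime hpp]
    exact Nat.totient_dvd_of_dvd (Nat.dvd_of_mem_primeFactors hp)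
  have h3 : (((p - 1 : ℕ)) : ℝ) = (p : ℝ) - 1 := by
    rw [Nat.cast_sub hpp.one_lt.le, Nat.cast_one]
  have h4 : (((p - 1 : ℕ)) : ℝ) ≠ 0 := by
    have := hpp.one_lt
    have : p - 1 ≠ 0 := by omega
    exact_mod_cast this
  rw [Nat.cast_pow, Real.log_pow, Nat.cast_div h2 h4, h3]
  ring

lemma log_nrm_cyc {d b : ℕ} (hd : 0 < d) (hb : 1 < b) :
    d.totient * vonMangoldt b ≤ Real.log (nrm d (cyclotomic (d * b) ℤ)) := by
  have hne : d ≠ d * b := by
    intro h
    have : d * 1 < d * b := Nat.mul_lt_mul_of_pos_left hb hd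
    omega
  by_cases h : IsPrimePow b
  · obtain ⟨p, k, hp, hk, rfl⟩ := (isPrimePow_nat_iff b).1 h
    obtain ⟨j, rfl⟩ : ∃ j, k = j + 1 := ⟨k - 1, by omega⟩
    rw [ArithmeticFunction.vonMangoldt_apply_pow (by omega),
      ArithmeticFunction.vonMangoldt_apply_prime hp]
    have h1 := nrm_cyc_prime_pow hd hp j
    have h2 : (0 : ℝ) < (p : ℝ) ^ d.totient := by
      have := hp.pos
      positivity
    have h3 := Real.log_le_log h2 h1
    rwa [Real.log_pow] at h3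
  · rw [ArithmeticFunction.vonMangoldt_eq_zero_iff.2 h, mul_zero]
    exact Real.log_nonneg (one_le_nrm_cyc hd (by positivity) hne)

/-! ### binomial coefficients -/

lemma log_choose_le {N j : ℕ} (hj : 1 ≤ j) (hjN : j ≤ N) :
    Real.log ((N.choose j : ℕ) : ℝ) ≤ j * (1 + Real.log N - Real.log j) := by
  have hN : 1 ≤ N := hj.trans hjN
  have hjr : (0 : ℝ) < j := by exact_mod_cast hj
  have hNr : (0 : ℝ) < N := by exact_mod_cast hN
  have h1 : ((N.choose j : ℕ) : ℝ) ≤ (N : ℝ) ^ j / (j.factorial : ℝ) := Nat.choose_le_pow_div j N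
  have h2 : (j : ℝ) ^ j / (j.factorial : ℝ) ≤ Real.exp j := Real.pow_div_factorial_le_exp j hjr.le j
  have h3 : (0 : ℝ) < ((N.choose j : ℕ) : ℝ) := by exact_mod_cast Nat.choose_pos hjN
  have hf : (0 : ℝ) < (j.factorial : ℝ) := by exact_mod_cast j.factorial_pos
  have h4 := Real.log_le_log h3 h1
  rw [Real.log_div (by positivity) hf.ne', Real.log_pow] at h4
  have h5 := Real.log_le_log (by positivity) h2
  rw [Real.log_div (by positivity) hf.ne', Real.log_pow, Real.log_exp] at h5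
  linarith

lemma sum_mul_log (m : ℕ) :
    (m : ℝ) ^ 2 / 2 * Real.log m - (m : ℝ) ^ 2 / 4 ≤ ∑ j ∈ Icc 1 m, (j : ℝ) * Real.log j := by
  induction m with
  | zero => simp
  | succ m ih =>
    rw [sum_Icc_succ_top (by omega)]
    rcases Nat.eq_zero_or_pos m with h | h
    · subst h; simp
    · have hm : (0 : ℝ) < m := by exact_mod_cast h
      have h1 : Real.log ((m : ℝ) + 1) - Real.log m ≤ 1 / m := by
        rw [← Real.log_div (by positivity) hm.ne']
        have := Real.log_le_sub_one_of_pos (x := ((m : ℝ) + 1) / m) (by positivity)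
        have h2 : ((m : ℝ) + 1) / m - 1 = 1 / m := by field_simp; ring
        linarith
      have h2 : 0 ≤ Real.log ((m : ℝ) + 1) := Real.log_nonneg (by linarith)
      have h3 : (m : ℝ) ^ 2 * (Real.log ((m : ℝ) + 1) - Real.log m) ≤ m := by
        have := mul_le_mul_of_nonneg_left h1 (sq_nonneg (m : ℝ))
        have h4 : (m : ℝ) ^ 2 * (1 / m) = m := by field_simp
        linarith
      push_cast
      nlinarith

lemma sum_log_choose {N m : ℕ} (hm : m ≤ N) :
    ∑ a ∈ range m, Real.log (((N.choose (a + 1) : ℕ)) : ℝ) ≤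
      (m : ℝ) * (m + 1) / 2 * (1 + Real.log N) - ((m : ℝ) ^ 2 / 2 * Real.log m - (m : ℝ) ^ 2 / 4) := by
  have h1 : ∑ a ∈ range m, Real.log (((N.choose (a + 1) : ℕ)) : ℝ) ≤
      ∑ a ∈ range m, (((a + 1 : ℕ) : ℝ) * (1 + Real.log N - Real.log ((a + 1 : ℕ) : ℝ))) := by
    apply sum_le_sum
    intro a ha
    rw [mem_range] at ha
    exact log_choose_le (by omega) (by omega)
  refine h1.trans ?_
  have h2 : ∑ a ∈ range m, (((a + 1 : ℕ) : ℝ) * (1 + Real.log N - Real.log ((a + 1 : ℕ) : ℝ))) =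
      ∑ j ∈ Icc 1 m, ((j : ℝ) * (1 + Real.log N - Real.log j)) := by
    rw [range_eq_Ico, sum_Ico_add' (fun j : ℕ => (j : ℝ) * (1 + Real.log N - Real.log j)) 0 m 1]
    rfl
  have h3 : ∑ j ∈ Icc 1 m, ((j : ℝ) * (1 + Real.log N - Real.log j)) =
      (∑ j ∈ Icc 1 m, (j : ℝ)) * (1 + Real.log N) - ∑ j ∈ Icc 1 m, (j : ℝ) * Real.log j := by
    rw [sum_mul, ← sum_sub_distrib]
    apply sum_congr rfl
    intro j _
    ring
  have h4 : ∑ j ∈ Icc 1 m, (j : ℝ) = (m : ℝ) * (m + 1) / 2 := by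
    clear h1 h2 h3 hm
    induction m with
    | zero => simp
    | succ m ih => rw [sum_Icc_succ_top (by omega), ih]; push_cast; ring
  rw [h2, h3, h4]
  linarith [sum_mul_log m]

/-! ### the logarithmic form of the counting theorem -/

lemma sum_Ioc_log_nrm_ge {V : ℕ} (m : ℕ → ℕ) {d : ℕ} (hd : 0 < d) :
    ∑ b ∈ Icc 1 (V / d), (d.totient : ℝ) * (m (d * b) : ℝ) * vonMangoldt b ≤
      ∑ e ∈ Ioc d V, (m e : ℝ) * Real.log (nrm d (cyclotomic e ℤ)) := by
  have h1 : ∑ b ∈ Icc 1 (V / d), (d.totient : ℝ) * (m (d * b) : ℝ) * vonMangoldt b =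
      ∑ b ∈ Ioc 1 (V / d), (d.totient : ℝ) * (m (d * b) : ℝ) * vonMangoldt b := by
    symm
    apply sum_subset
    · intro b hb
      rw [mem_Ioc] at hb
      rw [mem_Icc]
      omega
    · intro b hb hb'
      rw [mem_Icc] at hb
      rw [mem_Ioc] at hb'
      have : b = 1 := by omega
      rw [this, ArithmeticFunction.vonMangoldt_apply_one, mul_zero]
  rw [h1]
  have h2 : ∑ b ∈ Ioc 1 (V / d), (d.totient : ℝ) * (m (d * b) : ℝ) * vonMangoldt b ≤
      ∑ b ∈ Ioc 1 (V / d), (m (d * b) : ℝ) * Real.log (nrm d (cyclotomic (d * b) ℤ)) := by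
    apply sum_le_sum
    intro b hb
    rw [mem_Ioc] at hb
    have := log_nrm_cyc hd hb.1
    have h3 : (0 : ℝ) ≤ (m (d * b) : ℝ) := Nat.cast_nonneg _
    nlinarith
  refine h2.trans ?_
  have hinj : Set.InjOn (fun b => d * b) (Ioc 1 (V / d) : Set ℕ) := by
    intro x _ y _ hxy
    exact Nat.eq_of_mul_eq_mul_left hd hxy
  rw [← sum_image (f := fun e => (m e : ℝ) * Real.log (nrm d (cyclotomic e ℤ))) hinj]
  apply sum_le_sum_of_subset_of_nonneg
  · intro e he
    rw [mem_image] at he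
    obtain ⟨b, hb, rfl⟩ := he
    rw [mem_Ioc] at hb ⊢
    constructor
    · nlinarith
    · exact (Nat.mul_le_mul_left d hb.2).trans (Nat.mul_div_le V d)
  · intro e he _
    rw [mem_Ioc] at he
    exact mul_nonneg (Nat.cast_nonneg _)
      (Real.log_nonneg (one_le_nrm_cyc hd (by omega) (by omega)))

lemma log_Rb_sum_ge {V : ℕ} (m : ℕ → ℕ) {d : ℕ} (hd : 0 < d) :
    (m d : ℝ) * ((m d : ℝ) - 1) / 2 * (d.totient * (Real.log d - kap d)) +
      ∑ b ∈ Icc 1 (V / d), (d.totient : ℝ) * (m d : ℝ) * (m (d * b) : ℝ) * vonMangoldt b ≤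
      ∑ a ∈ range (m d), Real.log (Rb V m d a) := by
  have hlog : ∀ a, Real.log (Rb V m d a) = a * (d.totient * (Real.log d - kap d)) +
      ∑ e ∈ Ioc d V, (m e : ℝ) * Real.log (nrm d (cyclotomic e ℤ)) := by
    intro a
    have h1 : nrm d (derivative (cyclotomic d ℤ)) ^ a ≠ 0 := by
      have := one_le_nrm hd (cyc_deriv_not_dvd hd)
      positivity
    have h2 : ∀ e ∈ Ioc d V, nrm d (cyclotomic e ℤ) ^ m e ≠ 0 := by
      intro e he
      rw [mem_Ioc] at he
      have := one_le_nrm_cyc (d := d) (e := e) hd (by omega) (by omega)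
      positivity
    rw [Rb, Real.log_mul h1 (prod_ne_zero_iff.2 h2), Real.log_pow, log_nrm_deriv hd,
      Real.log_prod h2]
    simp only [Real.log_pow]
  simp only [hlog]
  rw [sum_add_distrib, ← sum_mul, sum_const, card_range, nsmul_eq_mul]
  have h3 : ∑ a ∈ range (m d), (a : ℝ) = (m d : ℝ) * ((m d : ℝ) - 1) / 2 := by
    induction m d with
    | zero => simp
    | succ k ih => rw [sum_range_succ, ih]; push_cast; ring
  rw [h3]
  have h4 : ∑ b ∈ Icc 1 (V / d), (d.totient : ℝ) * (m d : ℝ) * (m (d * b) : ℝ) * vonMangoldt b =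
      (m d : ℝ) * ∑ b ∈ Icc 1 (V / d), (d.totient : ℝ) * (m (d * b) : ℝ) * vonMangoldt b := by
    rw [mul_sum]
    apply sum_congr rfl
    intro b _
    ring
  rw [h4]
  have h5 := mul_le_mul_of_nonneg_left (sum_Ioc_log_nrm_ge (V := V) m hd)
    (Nat.cast_nonneg (m d) : (0 : ℝ) ≤ (m d : ℝ))
  linarith

/-- the exponent in the counting theorem -/
noncomputable def En (N : ℝ) (V : ℕ) (m : ℕ → ℕ) : ℝ :=
  ∑ d ∈ Icc 1 V, (d.totient : ℝ) * ((m d : ℝ) * Real.log 16 +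
    ((m d : ℝ) * (m d + 1) / 2 * (1 + Real.log N) -
      ((m d : ℝ) ^ 2 / 2 * Real.log (m d) - (m d : ℝ) ^ 2 / 4)) -
    (m d : ℝ) * ((m d : ℝ) - 1) / 2 * (Real.log d - kap d)) -
  ∑ d ∈ Icc 1 V, ∑ b ∈ Icc 1 (V / d),
    (d.totient : ℝ) * (m d : ℝ) * (m (d * b) : ℝ) * vonMangoldt b

theorem count_log (n V : ℕ) (m : ℕ → ℕ)
    (hD : ∑ d ∈ Icc 1 V, d.totient * m d ≤ n + 1)
    (hE : En ((n + 1 : ℕ) : ℝ) V m < ((n + 1 : ℕ) : ℝ) * Real.log 2) :
    ∃ P : ℤ[X], P ≠ 0 ∧ P.natDegree ≤ n ∧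
      (∀ i, P.coeff i = -1 ∨ P.coeff i = 0 ∨ P.coeff i = 1) ∧
      ∏ d ∈ Icc 1 V, cyclotomic d ℤ ^ m d ∣ P := by
  apply count n V m hD
  have hmd : ∀ d ∈ Icc 1 V, m d ≤ n + 1 := by
    intro d hd
    have h1 : d.totient * m d ≤ ∑ d ∈ Icc 1 V, d.totient * m d :=
      single_le_sum (f := fun d => d.totient * m d) (fun _ _ => Nat.zero_le _) hd
    rw [mem_Icc] at hd
    have h2 : 1 ≤ d.totient := Nat.totient_pos.2 (by omega)
    nlinarith
  have hc : ∀ d ∈ Icc 1 V, ∀ a ∈ range (m d),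
      (((n + 1).choose (a + 1) : ℕ) : ℝ) ^ d.totient ≠ 0 := by
    intro d hd a ha
    have h1 := hmd d hd
    rw [mem_range] at ha
    have h2 : 0 < (n + 1).choose (a + 1) := Nat.choose_pos (by omega)
    have h3 : (0 : ℝ) < (((n + 1).choose (a + 1) : ℕ) : ℝ) := by exact_mod_cast h2
    positivity
  have hr : ∀ d ∈ Icc 1 V, ∀ a ∈ range (m d), Rb V m d a ≠ 0 := by
    intro d hd a _
    rw [mem_Icc] at hd
    have := one_le_Rb (V := V) m (d := d) (by omega) a
    positivity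
  have hc' : ∀ d ∈ Icc 1 V, ∏ a ∈ range (m d), (((n + 1).choose (a + 1) : ℕ) : ℝ) ^ d.totient ≠ 0 :=
    fun d hd => prod_ne_zero_iff.2 (hc d hd)
  have hr' : ∀ d ∈ Icc 1 V, ∏ a ∈ range (m d), Rb V m d a ≠ 0 :=
    fun d hd => prod_ne_zero_iff.2 (hr d hd)
  have hc'' := prod_ne_zero_iff.2 hc'
  have hr'' := prod_ne_zero_iff.2 hr'
  have hrpos : 0 < ∏ d ∈ Icc 1 V, ∏ a ∈ range (m d), Rb V m d a := by
    apply prod_pos
    intro d hd
    apply prod_pos
    intro a _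
    rw [mem_Icc] at hd
    have := one_le_Rb (V := V) m (d := d) (by omega) a
    linarith
  rw [← Real.log_lt_log_iff (by positivity) (by positivity), Real.log_mul (by positivity) hc'',
    Real.log_mul (by positivity) hr'', Real.log_pow, Real.log_pow, Real.log_prod hc',
    Real.log_prod hr']
  have e1 : ∑ d ∈ Icc 1 V,
      Real.log (∏ a ∈ range (m d), (((n + 1).choose (a + 1) : ℕ) : ℝ) ^ d.totient) ≤
      ∑ d ∈ Icc 1 V, (d.totient : ℝ) * ((m d : ℝ) * (m d + 1) / 2 *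
        (1 + Real.log ((n + 1 : ℕ) : ℝ)) -
        ((m d : ℝ) ^ 2 / 2 * Real.log (m d) - (m d : ℝ) ^ 2 / 4)) := by
    apply sum_le_sum
    intro d hd
    rw [Real.log_prod (hc d hd)]
    simp only [Real.log_pow]
    rw [← mul_sum]
    exact mul_le_mul_of_nonneg_left (sum_log_choose (hmd d hd)) (Nat.cast_nonneg _)
  have e2 : ∑ d ∈ Icc 1 V, ((m d : ℝ) * ((m d : ℝ) - 1) / 2 *
      (d.totient * (Real.log d - kap d)) +
      ∑ b ∈ Icc 1 (V / d), (d.totient : ℝ) * (m d : ℝ) * (m (d * b) : ℝ) * vonMangoldt b) ≤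
      ∑ d ∈ Icc 1 V, Real.log (∏ a ∈ range (m d), Rb V m d a) := by
    apply sum_le_sum
    intro d hd
    rw [Real.log_prod (hr d hd)]
    rw [mem_Icc] at hd
    exact log_Rb_sum_ge m (by omega)
  have e3 : (((∑ d ∈ Icc 1 V, d.totient * m d : ℕ)) : ℝ) * Real.log 16 =
      ∑ d ∈ Icc 1 V, (d.totient : ℝ) * ((m d : ℝ) * Real.log 16) := by
    push_cast
    rw [sum_mul]
    apply sum_congr rfl
    intro d _
    ring
  have e4 : En ((n + 1 : ℕ) : ℝ) V m =
      ∑ d ∈ Icc 1 V, (d.totient : ℝ) * ((m d : ℝ) * Real.log 16) +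
      ∑ d ∈ Icc 1 V, (d.totient : ℝ) * ((m d : ℝ) * (m d + 1) / 2 *
        (1 + Real.log ((n + 1 : ℕ) : ℝ)) -
        ((m d : ℝ) ^ 2 / 2 * Real.log (m d) - (m d : ℝ) ^ 2 / 4)) -
      ∑ d ∈ Icc 1 V, ((m d : ℝ) * ((m d : ℝ) - 1) / 2 *
      (d.totient * (Real.log d - kap d)) +
      ∑ b ∈ Icc 1 (V / d), (d.totient : ℝ) * (m d : ℝ) * (m (d * b) : ℝ) * vonMangoldt b) := by
    rw [En]
    simp only [← sum_add_distrib, ← sum_sub_distrib]
    apply sum_congr rfl
    intro d _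
    ring
  rw [e3]
  rw [e4] at hE
  linarith

end Pool.Agent.H4Van
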