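import Mathlib
import Pool.Agent.Lib.H58FracMaxGeo

/-!
Final conversion to real sums and Euclidean gradients
(helper file for MP_2332c1_an, author helper58).
-/

open scoped ENNReal Pointwise
open Finset MeasureTheory

namespace Pool.Agent.Lib.H58FracMax

variable {d : ℕ}

/-- discrete gradient -/
noncomputable def gradE (g : (Fin d → ℤ) → ℝ) (n : Fin d → ℤ) : EuclideanSpace ℝ (Fin d) :=
  WithLp.toLp 2 (fun i => g (n + Pi.single i 1) - g n)

lemma norm_gradE_le (g : (Fin d → ℤ) → ℝ) (n : Fin d → ℤ) :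
    ‖gradE g n‖ ≤ ∑ i, |g (n + e i) - g n| := by
  have h1 : ‖gradE g n‖ ^ 2 ≤ (∑ i, |g (n + e i) - g n|) ^ 2 := by
    rw [EuclideanSpace.norm_sq_eq]
    have h2 : ∀ i, ‖(gradE g n) i‖ ^ 2 = |g (n + e i) - g n| ^ 2 := fun i => rfl
    simp_rw [h2]
    exact Finset.sum_sq_le_sq_sum_of_nonneg fun i _ => abs_nonneg _
  exact le_of_sq_le_sq h1 (Finset.sum_nonneg fun i _ => abs_nonneg _)

lemma abs_le_norm_gradE (g : (Fin d → ℤ) → ℝ) (n : Fin d → ℤ) (i : Fin d) :
    |g (n + e i) - g n| ≤ ‖gradE g n‖ := by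
  have h1 : |g (n + e i) - g n| = ‖(gradE g n) i‖ := rfl
  rw [h1]
  exact PiLp.norm_apply_le (gradE g n) i

/-- Final theorem for a good family. -/
theorem finalBound (hd : 1 ≤ d) {α β q : ℝ} (hα0 : 0 ≤ α) (hα1 : α < 1) (hαβ : α ≤ β)
    (hβ0 : 0 < β) (hβd : β < d) (hq : q = d / (d - β + α)) {C : ℝ}
    {𝒟 : (Fin d → ℤ) → Set (Finset (Fin d → ℤ))} (hG : Good 𝒟 C) :
    ∃ C' : ℝ, ∀ f : (Fin d → ℤ) → ℝ, Summable f → ∀ M : (Fin d → ℤ) → ℝ,
      (∀ n, IsLUB {a | ∃ B ∈ 𝒟 n, a = avg (1 - β / d) (fun m => |f m|) B} (M n)) →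
      Summable (fun n => ‖gradE M n‖ ^ q) ∧
      (∑' n, ‖gradE M n‖ ^ q) ^ (1 / q) ≤
        C' * (∑' n, ‖gradE f n‖) ^ (1 - α) * (∑' n, |f n|) ^ α := by
  obtain ⟨C₁, hC₁, hmain⟩ := abstractBound hd hα0 hα1 hαβ hβ0 hβd hq hG
  have hdpos : (0 : ℝ) < d := by exact_mod_cast hd
  have hden : 0 < (d : ℝ) - β + α := by linarith
  have hq1 : 1 ≤ q := by
    rw [hq, le_div_iff₀ hden]; linarith
  have hq0 : 0 < q := by linarith
  refine ⟨d * (C₁.toReal * (d : ℝ) ^ (1 - α)), fun f hf M hM => ?_⟩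
  set u : (Fin d → ℤ) → ℝ := fun m => |f m| with hu
  have hu0 : ∀ m, 0 ≤ u m := fun m => abs_nonneg _
  have hus : Summable u := hf.abs
  -- summability of the gradient of f
  have hgf : Summable (fun n => ‖gradE f n‖) := by
    refine Summable.of_nonneg_of_le (fun _ => norm_nonneg _) (norm_gradE_le f) ?_
    refine summable_sum fun i _ => ?_
    have h2 : Summable (fun n => f (n + e i)) := hf.comp_injective (add_left_injective (e i))
    exact (h2.sub hf).abs
  set A : ℝ := ∑' n, ‖gradE f n‖ with hA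
  set U : ℝ := ∑' n, |f n| with hU
  have hA0 : 0 ≤ A := tsum_nonneg fun _ => norm_nonneg _
  have hU0 : 0 ≤ U := tsum_nonneg fun _ => abs_nonneg _
  have hvar : var u ≤ ENNReal.ofReal (d * A) := by
    unfold var
    calc ∑' n : Fin d → ℤ, ∑ i, ENNReal.ofReal |u n - u (n + e i)|
        ≤ ∑' n : Fin d → ℤ, ∑ _i : Fin d, ENNReal.ofReal ‖gradE f n‖ := by
          refine ENNReal.tsum_le_tsum fun n => Finset.sum_le_sum fun i _ => ?_
          refine ENNReal.ofReal_le_ofReal ?_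
          refine le_trans ?_ (abs_le_norm_gradE f n i)
          rw [abs_sub_comm]
          exact abs_abs_sub_abs_le _ _
      _ = ∑' n : Fin d → ℤ, ENNReal.ofReal (d * ‖gradE f n‖) := by
          refine tsum_congr fun n => ?_
          rw [Finset.sum_const, Finset.card_univ, Fintype.card_fin, nsmul_eq_mul,
            ENNReal.ofReal_mul hdpos.le, ENNReal.ofReal_natCast]
      _ = ENNReal.ofReal (d * A) := by
          rw [← ENNReal.ofReal_tsum_of_nonneg (fun n => by positivity) (hgf.mul_left _), tsum_mul_left]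
  have hmass : mass u = ENNReal.ofReal U := by
    unfold mass
    rw [← ENNReal.ofReal_tsum_of_nonneg hu0 hus]
  set W : ℝ≥0∞ := C₁ * (ENNReal.ofReal (d * A) ^ (1 - α) * ENNReal.ofReal U ^ α) with hW
  have hWt : W ≠ ⊤ := by
    refine ENNReal.mul_ne_top hC₁ (ENNReal.mul_ne_top ?_ ?_)
    · exact ENNReal.rpow_ne_top_of_nonneg (by linarith) ENNReal.ofReal_ne_top
    · exact ENNReal.rpow_ne_top_of_nonneg hα0 ENNReal.ofReal_ne_top
  have hi : ∀ i, ∑' n, ENNReal.ofReal |M (n + e i) - M n| ^ q ≤ W ^ q := by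
    intro i
    refine (hmain u hu0 hus M hM i).trans ?_
    refine ENNReal.rpow_le_rpow ?_ hq0.le
    rw [hW, hmass]
    gcongr
  -- the gradient of M
  have h1 : ∑' n, ENNReal.ofReal (‖gradE M n‖ ^ q) ≤ ((d : ℝ≥0∞) * W) ^ q := by
    calc ∑' n, ENNReal.ofReal (‖gradE M n‖ ^ q)
        ≤ ∑' n : Fin d → ℤ, (d : ℝ≥0∞) ^ (q - 1) * ∑ i, ENNReal.ofReal |M (n + e i) - M n| ^ q := by
          refine ENNReal.tsum_le_tsum fun n => ?_
          rw [← ENNReal.ofReal_rpow_of_nonneg (norm_nonneg _) hq0.le]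
          calc ENNReal.ofReal ‖gradE M n‖ ^ q
              ≤ (∑ i, ENNReal.ofReal |M (n + e i) - M n|) ^ q := by
                refine ENNReal.rpow_le_rpow ?_ hq0.le
                rw [← ENNReal.ofReal_sum_of_nonneg (fun i _ => abs_nonneg _)]
                exact ENNReal.ofReal_le_ofReal (norm_gradE_le M n)
            _ ≤ _ := by
                have := ENNReal.rpow_sum_le_const_mul_sum_rpow (Finset.univ : Finset (Fin d))
                  (fun i => ENNReal.ofReal |M (n + e i) - M n|) hq1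
                simpa using this
      _ = (d : ℝ≥0∞) ^ (q - 1) * ∑ i, ∑' n : Fin d → ℤ, ENNReal.ofReal |M (n + e i) - M n| ^ q := by
          rw [ENNReal.tsum_mul_left, Summable.tsum_finsetSum (fun _ _ => ENNReal.summable)]
      _ ≤ (d : ℝ≥0∞) ^ (q - 1) * ∑ _i : Fin d, W ^ q := by
          gcongr with i _
          exact hi i
      _ = (d : ℝ≥0∞) ^ q * W ^ q := by
          rw [Finset.sum_const, Finset.card_univ, Fintype.card_fin, nsmul_eq_mul, ← mul_assoc]
          congr 1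
          have hd0 : (d : ℝ≥0∞) ≠ 0 := by
            have : d ≠ 0 := by omega
            exact_mod_cast this
          conv_lhs => enter [2]; rw [← ENNReal.rpow_one (d : ℝ≥0∞)]
          rw [← ENNReal.rpow_add _ _ hd0 (ENNReal.natCast_ne_top d), sub_add_cancel]
      _ = ((d : ℝ≥0∞) * W) ^ q := (ENNReal.mul_rpow_of_nonneg (d : ℝ≥0∞) W hq0.le).symm
  have hdW : (d : ℝ≥0∞) * W ≠ ⊤ := ENNReal.mul_ne_top (ENNReal.natCast_ne_top d) hWt
  have hfin : ∑' n, ENNReal.ofReal (‖gradE M n‖ ^ q) ≠ ⊤ :=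
    ne_top_of_le_ne_top (ENNReal.rpow_ne_top_of_nonneg hq0.le hdW) h1
  have hsum : Summable (fun n => ‖gradE M n‖ ^ q) := by
    have h2 : ∀ n, 0 ≤ ‖gradE M n‖ ^ q := fun n => by positivity
    have h3 := ENNReal.summable_toReal hfin
    refine h3.congr fun n => ?_
    rw [ENNReal.toReal_ofReal (h2 n)]
  refine ⟨hsum, ?_⟩
  have h2 : ∑' n, ‖gradE M n‖ ^ q ≤ ((d : ℝ≥0∞) * W).toReal ^ q := by
    rw [← ENNReal.ofReal_tsum_of_nonneg (fun n => by positivity) hsum] at h1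
    have h3 := ENNReal.toReal_mono (ENNReal.rpow_ne_top_of_nonneg hq0.le hdW) h1
    rw [ENNReal.toReal_ofReal (tsum_nonneg fun n => by positivity), ← ENNReal.toReal_rpow] at h3
    exact h3
  have h3 : ((d : ℝ≥0∞) * W).toReal
      = d * (C₁.toReal * (d : ℝ) ^ (1 - α)) * A ^ (1 - α) * U ^ α := by
    rw [hW, ENNReal.toReal_mul, ENNReal.toReal_mul, ENNReal.toReal_mul, ENNReal.toReal_natCast,
      ← ENNReal.toReal_rpow, ← ENNReal.toReal_rpow, ENNReal.toReal_ofReal (by positivity),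
      ENNReal.toReal_ofReal hU0, Real.mul_rpow hdpos.le hA0]
    ring
  calc (∑' n, ‖gradE M n‖ ^ q) ^ (1 / q) ≤ (((d : ℝ≥0∞) * W).toReal ^ q) ^ (1 / q) := by
        apply Real.rpow_le_rpow (tsum_nonneg fun n => by positivity) h2 (by positivity)
    _ = ((d : ℝ≥0∞) * W).toReal := by
        rw [← Real.rpow_mul ENNReal.toReal_nonneg, mul_one_div_cancel hq0.ne', Real.rpow_one]
    _ = _ := h3

/-- The closure of a bounded open convex set containing `0` is a body. -/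
lemma exists_body {Ω : Set (Fin d → ℝ)} (hΩo : IsOpen Ω) (hΩb : Bornology.IsBounded Ω)
    (hΩc : Convex ℝ Ω) (h0 : (0 : Fin d → ℝ) ∈ Ω) : ∃ ρ R, Body (closure Ω) ρ R := by
  obtain ⟨ε, hε, hball⟩ := Metric.isOpen_iff.mp hΩo 0 h0
  obtain ⟨R, hR⟩ := hΩb.closure.subset_closedBall (0 : Fin d → ℝ)
  refine ⟨ε / 2, R, hΩc.closure, by positivity, ?_, ?_⟩
  · intro y hy
    refine subset_closure (hball ?_)
    rw [mem_ball_zero_iff]
    refine lt_of_le_of_lt ((pi_norm_le_iff_of_nonneg (by positivity)).mpr hy) (by linarith)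
  · intro y hy i
    have h1 := hR hy
    rw [mem_closedBall_zero_iff] at h1
    exact (norm_le_pi_norm y i).trans h1

lemma avg_le_tsum {s : ℝ} (hs : 0 ≤ s) {u : (Fin d → ℤ) → ℝ} (hu : ∀ m, 0 ≤ u m)
    (hsu : Summable u) (B : Finset (Fin d → ℤ)) : avg s u B ≤ ∑' m, u m := by
  unfold avg
  have h1 : ∑ m ∈ B, u m ≤ ∑' m, u m := hsu.sum_le_tsum B fun m _ => hu m
  have h0 : 0 ≤ ∑ m ∈ B, u m := Finset.sum_nonneg fun m _ => hu m
  rcases B.eq_empty_or_nonempty with h | h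
  · subst h
    simp
    exact tsum_nonneg hu
  · have h2 : (1 : ℝ) ≤ B.card := by exact_mod_cast h.card_pos
    have h3 : (B.card : ℝ) ^ (-s) ≤ 1 := Real.rpow_le_one_of_one_le_of_nonpos h2 (by linarith)
    calc (B.card : ℝ) ^ (-s) * ∑ m ∈ B, u m ≤ 1 * ∑ m ∈ B, u m := by gcongr
      _ ≤ _ := by rw [one_mul]; exact h1

end Pool.Agent.Lib.H58FracMax
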