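import Mathlib
import Pool.Agent.Lib.H80HC
import Pool.Agent.Lib.H80Match

/-!
Clique minors in lexicographic products (helper80).
-/

set_option autoImplicit false

namespace Pool.Agent.Lib.H80

open SimpleGraph Finset

/-- The lexicographic product `F[H]`: two pairs are adjacent when their first coordinates are
adjacent in `F`, or their first coordinates are equal and the second ones adjacent in `H`. -/
def Lex {V W : Type*} (F : SimpleGraph V) (H : SimpleGraph W) : SimpleGraph (V × W) where
  Adj p q := F.Adj p.1 q.1 ∨ (p.1 = q.1 ∧ H.Adj p.2 q.2)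
  symm := ⟨fun p q h => by
    rcases h with h | h
    · exact Or.inl h.symm
    · exact Or.inr ⟨h.1.symm, h.2.symm⟩⟩
  loopless := ⟨fun p h => by
    rcases h with h | h
    · exact h.ne rfl
    · exact h.2.ne rfl⟩

variable {V W : Type*}

lemma lex_adj {F : SimpleGraph V} {H : SimpleGraph W} {p q : V × W} :
    (Lex F H).Adj p q ↔ F.Adj p.1 q.1 ∨ (p.1 = q.1 ∧ H.Adj p.2 q.2) := Iff.rfl

/-- A copy of a connected set of `F` inside `F[H]`. -/
lemma lex_connected {F : SimpleGraph V} (H : SimpleGraph W) {B : Set V} (w : W)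
    (hB : (F.induce B).Connected) : ((Lex F H).induce (B ×ˢ {w})).Connected := by
  let φ : F.induce B →g (Lex F H).induce (B ×ˢ {w}) :=
    { toFun := fun x => ⟨(x.1, w), by simp⟩
      map_rel' := by
        intro x y h
        exact Or.inl h }
  refine hB.map φ ?_
  rintro ⟨⟨x, w'⟩, hx, hw⟩
  simp only [Set.mem_singleton_iff] at hw
  subst hw
  exact ⟨⟨x, hx⟩, rfl⟩

/-- A maximal matching of the complement bounds the chromatic number. -/
lemma colorable_of_matching {H : SimpleGraph W} [Fintype W] [DecidableEq W]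
    {P : Finset (W × W)} (hP : IsM (fun u v => ¬ H.Adj u v) P) :
    H.Colorable (P.card + (univ \ cov P).card) := by
  classical
  rw [← colOn_univ]
  refine ColOn.of_rel (ι := P ⊕ (univ \ cov P : Finset W))
    (fun x i => Sum.elim (fun p : P => x = p.1.1 ∨ x = p.1.2)
      (fun u : (univ \ cov P : Finset W) => x = u.1) i) ?_ ?_ ?_
  · intro x _
    by_cases hx : x ∈ cov P
    · obtain ⟨p, hp, h⟩ := mem_cov.1 hx
      exact ⟨Sum.inl ⟨p, hp⟩, h⟩
    · exact ⟨Sum.inr ⟨x, by simp [hx]⟩, rfl⟩
  · rintro u - v - (p | w) h1 h2 huv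
    · simp only [Sum.elim_inl] at h1 h2
      have := hP.1 p.1 p.2
      rcases h1 with rfl | rfl <;> rcases h2 with rfl | rfl
      · exact huv.ne rfl
      · exact this huv
      · exact this huv.symm
      · exact huv.ne rfl
    · simp only [Sum.elim_inr] at h1 h2
      exact huv.ne (h1.trans h2.symm)
  · simp only [Fintype.card_sum, Fintype.card_coe]
    exact le_rfl

/-- `h(F[H]) ≥ h(F) χ(H)` when `h(F) ≥ 2`. -/
theorem model_lex {F : SimpleGraph V} {H : SimpleGraph W} [Fintype W] {r : ℕ}
    (hF : HasK F (r + 2)) {k : ℕ} (hk : ¬ H.Colorable k) :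
    Model (Lex F H) Set.univ (Fin ((r + 2) * (k + 1))) := by
  classical
  obtain ⟨B, B1, B2, B3⟩ := hF
  -- a maximal matching of the complement of `H`
  have hne : (univ.filter (fun P : Finset (W × W) => IsM (fun u v => ¬ H.Adj u v) P)).Nonempty :=
    ⟨∅, by simp [IsM]⟩
  obtain ⟨P, hP, hPmax⟩ := Finset.exists_max_image _ (fun P : Finset (W × W) => P.card) hne
  simp only [Finset.mem_filter, Finset.mem_univ, true_and] at hP hPmax
  have hmax : ∀ u v, u ∉ cov P → v ∉ cov P → u ≠ v → H.Adj u v := by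
    intro u v hu hv huv
    by_contra hadj
    obtain ⟨h1, h2⟩ := hP.insert_pair hu hv huv hadj
    have := hPmax _ h1
    omega
  have hcard : k + 1 ≤ P.card + (univ \ cov P).card := by
    by_contra hcon
    push Not at hcon
    exact hk ((colorable_of_matching hP).mono (by omega))
  set U := (univ \ cov P : Finset W) with hU
  have hUmem : ∀ u : U, u.1 ∉ cov P := by
    intro u
    exact (Finset.mem_sdiff.1 u.2).2
  have hnext : ∀ i : Fin (r + 2), i + 1 ≠ i := by
    intro i h
    simp at h
  have hBne : ∀ i, ∃ x, x ∈ B i := by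
    intro i
    obtain ⟨⟨x, hx⟩⟩ := (B1 i).nonempty
    exact ⟨x, hx⟩
  -- the branch sets
  let D : Fin (r + 2) × (P ⊕ U) → Set (V × W) := fun j =>
    Sum.elim (fun p : P => (B j.1 ×ˢ {p.1.1}) ∪ (B (j.1 + 1) ×ˢ {p.1.2}))
      (fun u : U => B j.1 ×ˢ {u.1}) j.2
  -- every branch set contains the cell of its first coordinate
  have hcell : ∀ j : Fin (r + 2) × (P ⊕ U), ∃ w, B j.1 ×ˢ {w} ⊆ D j := by
    rintro ⟨i, p | u⟩
    · exact ⟨p.1.1, Set.subset_union_left⟩
    · exact ⟨u.1, le_rfl⟩
  have hcellinl : ∀ (i : Fin (r + 2)) (p : P), ∃ w, B (i + 1) ×ˢ {w} ⊆ D (i, Sum.inl p) :=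
    fun i p => ⟨p.1.2, Set.subset_union_right⟩
  have hadj : ∀ i i' : Fin (r + 2), i ≠ i' → ∀ w w' : W, ∀ S T : Set (V × W),
      B i ×ˢ {w} ⊆ S → B i' ×ˢ {w'} ⊆ T → ∃ x ∈ S, ∃ y ∈ T, (Lex F H).Adj x y := by
    intro i i' hii w w' S T hS hT
    obtain ⟨x, hx, y, hy, hxy⟩ := B3 i i' hii
    exact ⟨(x, w), hS (by simp [hx]), (y, w'), hT (by simp [hy]), Or.inl hxy⟩
  have hmod : Model (Lex F H) Set.univ (Fin (r + 2) × (P ⊕ U)) := by
    refine ⟨D, fun j => Set.subset_univ _, ?_, ?_, ?_⟩
    · rintro ⟨i, p | u⟩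
      · obtain ⟨x, hx, y, hy, hxy⟩ := B3 i (i + 1) (hnext i).symm
        refine connected_induce_union (v := (x, p.1.1)) (w := (y, p.1.2))
          (lex_connected H _ (B1 i)).preconnected
          (lex_connected H _ (B1 (i + 1))).preconnected ?_ ?_ (Or.inl hxy)
        · simp [hx]
        · simp [hy]
      · exact lex_connected H _ (B1 i)
    · -- disjointness
      have hBdis : ∀ i i' : Fin (r + 2), ∀ x : V, x ∈ B i → x ∈ B i' → i = i' := by
        intro i i' x h1 h2
        by_contra hne
        exact Set.disjoint_left.1 (B2 i i' hne) h1 h2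
      have hPsame : ∀ p q : P, ∀ w : W, (w = p.1.1 ∨ w = p.1.2) → (w = q.1.1 ∨ w = q.1.2) →
          p = q := by
        intro e f x h1 h2
        by_contra hne
        obtain ⟨g1, g2, g3, g4⟩ := hP.2.2 e.1 e.2 f.1 f.2 (fun h => hne (Subtype.ext h))
        rcases h1 with rfl | rfl <;> rcases h2 with h2 | h2
        · exact g1 h2
        · exact g2 h2
        · exact g3 h2
        · exact g4 h2
      rintro ⟨i, a⟩ ⟨j, b⟩ hne
      rw [Set.disjoint_left]
      rintro ⟨x, w⟩ h1 h2
      apply hne
      rcases a with p | u <;> rcases b with q | v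
      · simp only [D, Sum.elim_inl, Set.mem_union, Set.mem_prod, Set.mem_singleton_iff] at h1 h2
        have hpq : p = q := hPsame p q w (by tauto) (by tauto)
        subst hpq
        have h12 := hP.2.1 p.1 p.2
        rcases h1 with ⟨h1, h1'⟩ | ⟨h1, h1'⟩ <;> rcases h2 with ⟨h2, h2'⟩ | ⟨h2, h2'⟩
        · rw [hBdis i j x h1 h2]
        · exact absurd (h1'.symm.trans h2') h12
        · exact absurd (h2'.symm.trans h1') h12
        · have := hBdis _ _ x h1 h2
          rw [add_left_inj] at this
          rw [this]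
      · simp only [D, Sum.elim_inl, Sum.elim_inr, Set.mem_union, Set.mem_prod,
          Set.mem_singleton_iff] at h1 h2
        exact absurd (mem_cov.2 ⟨p.1, p.2, by rw [← h2.2]; tauto⟩) (hUmem v)
      · simp only [D, Sum.elim_inl, Sum.elim_inr, Set.mem_union, Set.mem_prod,
          Set.mem_singleton_iff] at h1 h2
        exact absurd (mem_cov.2 ⟨q.1, q.2, by rw [← h1.2]; tauto⟩) (hUmem u)
      · simp only [D, Sum.elim_inr, Set.mem_prod, Set.mem_singleton_iff] at h1 h2
        have e1 := hBdis i j x h1.1 h2.1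
        have e2 : u = v := Subtype.ext (h1.2.symm.trans h2.2)
        rw [e1, e2]
    · rintro ⟨i, a⟩ ⟨j, b⟩ hne
      by_cases hij : i = j
      · subst hij
        rcases a with p | u
        · obtain ⟨w, hw⟩ := hcellinl i p
          obtain ⟨w', hw'⟩ := hcell (i, b)
          exact hadj (i + 1) i (hnext i) w w' _ _ hw hw'
        · rcases b with q | v
          · obtain ⟨w, hw⟩ := hcell (i, Sum.inr u)
            obtain ⟨w', hw'⟩ := hcellinl i q
            exact hadj i (i + 1) (hnext i).symm w w' _ _ hw hw'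
          · have huv : u ≠ v := fun h => hne (by rw [h])
            obtain ⟨x, hx⟩ := hBne i
            refine ⟨(x, u.1), ?_, (x, v.1), ?_, Or.inr ⟨rfl, ?_⟩⟩
            · simp [D, hx]
            · simp [D, hx]
            · exact hmax _ _ (hUmem u) (hUmem v) (fun h => huv (Subtype.ext h))
      · obtain ⟨w, hw⟩ := hcell (i, a)
        obtain ⟨w', hw'⟩ := hcell (j, b)
        exact hadj i j hij w w' _ _ hw hw'
  refine hmod.of_card ?_
  simp only [Fintype.card_fin, Fintype.card_prod, Fintype.card_sum, Fintype.card_coe]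
  exact Nat.mul_le_mul_left _ hcard

/-- Hadwiger's conjecture for lexicographic products. -/
theorem hadwiger_lex {F : SimpleGraph V} {H : SimpleGraph W} [Fintype W] {r : ℕ}
    (hr : 2 ≤ r) (hFc : F.Colorable r) (hF : HasK F r) {k : ℕ} (hk : ¬ (Lex F H).Colorable k) :
    HasK (Lex F H) (k + 1) := by
  classical
  obtain ⟨s, rfl⟩ : ∃ s, r = s + 2 := ⟨r - 2, by omega⟩
  -- the chromatic number of `H`
  have hHc : ∃ c, H.Colorable c := ⟨_, H.colorable_of_fintype⟩
  let c := Nat.find hHc
  have hc : H.Colorable c := Nat.find_spec hHc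
  have hcmin : ∀ m < c, ¬ H.Colorable m := fun m hm => Nat.find_min hHc hm
  have hlexc : (Lex F H).Colorable ((s + 2) * c) := by
    obtain ⟨CF⟩ := hFc
    obtain ⟨CH⟩ := hc
    have C : (Lex F H).Coloring (Fin (s + 2) × Fin c) := SimpleGraph.Coloring.mk
      (fun p => (CF p.1, CH p.2)) (by
        intro p q hpq h
        simp only [Prod.mk.injEq] at h
        rcases hpq with hpq | hpq
        · exact CF.valid hpq h.1
        · exact CH.valid hpq.2 h.2)
    have := C.colorable
    simpa using this
  have hlt : k < (s + 2) * c := by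
    by_contra hcon
    push Not at hcon
    exact hk (hlexc.mono hcon)
  have hcpos : 0 < c := by
    rcases Nat.eq_zero_or_pos c with h | h
    · rw [h] at hlt
      omega
    · exact h
  have := model_lex hF (hcmin (c - 1) (by omega))
  refine (this.of_card (κ := Fin (k + 1)) ?_).hasK
  simp only [Fintype.card_fin]
  have : c - 1 + 1 = c := by omega
  rw [this]
  exact hlt

end Pool.Agent.Lib.H80
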