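import Mathlib
import Pool.Agent.Lib.H80Gallai
import Pool.Agent.Lib.H80Lex

/-!
Vertex-transitive graphs (helper80).
-/

set_option autoImplicit false

namespace Pool.Agent.Lib.H80

open SimpleGraph Finset

variable {V W : Type*}

/-- Clique minors are transported by injective homomorphisms. -/
lemma HasK.map {G : SimpleGraph V} {H : SimpleGraph W} (f : G →g H)
    (hf : Function.Injective f) {m : ℕ} (h : HasK G m) : HasK H m := by
  obtain ⟨B, B1, B2, B3⟩ := h
  refine ⟨fun i => f '' B i, ?_, ?_, ?_⟩
  · intro i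
    let φ : G.induce (B i) →g H.induce (f '' B i) :=
      { toFun := fun x => ⟨f x.1, Set.mem_image_of_mem _ x.2⟩
        map_rel' := by
          intro x y h
          exact f.map_adj h }
    refine (B1 i).map φ ?_
    rintro ⟨y, x, hx, rfl⟩
    exact ⟨⟨x, hx⟩, rfl⟩
  · intro i j hij
    exact (Set.disjoint_image_iff hf).2 (B2 i j hij)
  · intro i j hij
    obtain ⟨u, hu, v, hv, huv⟩ := B3 i j hij
    exact ⟨f u, Set.mem_image_of_mem _ hu, f v, Set.mem_image_of_mem _ hv, f.map_adj huv⟩

lemma hasK_top {ι : Type*} [Fintype ι] : HasK (⊤ : SimpleGraph ι) (Fintype.card ι) := by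
  classical
  refine ⟨fun i => {(Fintype.equivFin ι).symm i}, fun i => conn_singleton _ _, ?_, ?_⟩
  · intro i j hij
    simpa using hij
  · intro i j hij
    refine ⟨_, rfl, _, rfl, ?_⟩
    simpa using hij

/-- Automorphisms also act on the complement. -/
lemma reachable_compl_iso {G : SimpleGraph V} (φ : G ≃g G) {x y : V} (h : Gᶜ.Reachable x y) :
    Gᶜ.Reachable (φ x) (φ y) := by
  let ψ : Gᶜ →g Gᶜ :=
    { toFun := φ
      map_rel' := by
        intro a b hab
        refine ⟨fun h => hab.1 (φ.injective h), fun h => hab.2 ?_⟩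
        exact φ.map_adj_iff.1 h }
  exact h.map ψ

/-- Hadwiger's conjecture for vertex-transitive graphs whose complement is disconnected. -/
theorem hadwiger_vt_disconnected [Fintype V] {G : SimpleGraph V}
    (htr : ∀ u v, ∃ φ : G ≃g G, φ u = v) (hdis : ¬ Gᶜ.Preconnected) {k : ℕ}
    (hk : ¬ G.Colorable k) : HasK G (k + 1) := by
  classical
  unfold SimpleGraph.Preconnected at hdis
  push Not at hdis
  obtain ⟨x0, y0, hxy⟩ := hdis
  have : Fintype Gᶜ.ConnectedComponent := Fintype.ofFinite _
  set C0 := Gᶜ.connectedComponentMk x0 with hC0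
  have hφ : ∀ C : Gᶜ.ConnectedComponent, ∃ φ : G ≃g G, Gᶜ.connectedComponentMk (φ x0) = C := by
    intro C
    induction C using SimpleGraph.ConnectedComponent.ind with
    | _ v =>
      obtain ⟨φ, hφ⟩ := htr x0 v
      exact ⟨φ, by rw [hφ]⟩
  choose φ hφ using hφ
  have hcomp : ∀ C : Gᶜ.ConnectedComponent, ∀ x : C0.supp,
      Gᶜ.connectedComponentMk (φ C x.1) = C := by
    intro C x
    rw [← hφ C]
    have hx : Gᶜ.Reachable x.1 x0 := by
      exact SimpleGraph.ConnectedComponent.eq.1 x.2
    rw [SimpleGraph.ConnectedComponent.eq]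
    rw [hφ C]
    exact reachable_compl_iso (φ C) hx
  have hadj : ∀ p q : Gᶜ.ConnectedComponent × C0.supp,
      (Lex (⊤ : SimpleGraph Gᶜ.ConnectedComponent) (G.induce C0.supp)).Adj p q ↔
        G.Adj (φ p.1 p.2.1) (φ q.1 q.2.1) := by
    intro p q
    rw [lex_adj]
    by_cases hpq : p.1 = q.1
    · rw [hpq]
      simp only [top_adj, ne_eq, not_true_eq_false, true_and, false_or, comap_adj,
        Function.Embedding.subtype_apply]
      exact (φ q.1).map_adj_iff.symm
    · simp only [top_adj, ne_eq, hpq, not_false_eq_true, true_or, true_iff]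
      by_contra hna
      apply hpq
      rw [← hcomp p.1 p.2, ← hcomp q.1 q.2, SimpleGraph.ConnectedComponent.eq]
      by_cases he : φ p.1 p.2.1 = φ q.1 q.2.1
      · rw [he]
      · exact SimpleGraph.Adj.reachable ⟨he, hna⟩
  have hinj : Function.Injective
      (fun p : Gᶜ.ConnectedComponent × C0.supp => φ p.1 p.2.1) := by
    intro p q h
    have h' : φ p.1 p.2.1 = φ q.1 q.2.1 := h
    have h1 : p.1 = q.1 := by
      rw [← hcomp p.1 p.2, ← hcomp q.1 q.2, h']
    rw [h1] at h'
    have h2 := (φ q.1).injective h'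
    exact Prod.ext h1 (Subtype.ext h2)
  have hsurj : Function.Surjective
      (fun p : Gᶜ.ConnectedComponent × C0.supp => φ p.1 p.2.1) := by
    intro v
    set C := Gᶜ.connectedComponentMk v with hC
    have hv : (φ C).symm v ∈ C0.supp := by
      rw [SimpleGraph.ConnectedComponent.mem_supp_iff, hC0, SimpleGraph.ConnectedComponent.eq]
      have h1 : Gᶜ.Reachable v (φ C x0) := by
        rw [← SimpleGraph.ConnectedComponent.eq, ← hC, hφ C]
      have h2 := reachable_compl_iso (φ C).symm h1
      simpa using h2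
    exact ⟨(C, ⟨_, hv⟩), by simp⟩
  let f : Lex (⊤ : SimpleGraph Gᶜ.ConnectedComponent) (G.induce C0.supp) →g G :=
    { toFun := fun p => φ p.1 p.2.1
      map_rel' := by
        intro p q h
        exact (hadj p q).1 h }
  have hcol : ¬ (Lex (⊤ : SimpleGraph Gᶜ.ConnectedComponent) (G.induce C0.supp)).Colorable k := by
    rintro ⟨C⟩
    apply hk
    let e := Equiv.ofBijective _ ⟨hinj, hsurj⟩
    refine ⟨SimpleGraph.Coloring.mk (fun v => C (e.symm v)) ?_⟩
    intro u v huv
    apply C.valid
    rw [hadj]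
    have e1 : ∀ v, φ (e.symm v).1 (e.symm v).2.1 = v := fun v => e.apply_symm_apply v
    rw [e1, e1]
    exact huv
  have hcard : 2 ≤ Fintype.card Gᶜ.ConnectedComponent := by
    apply Fintype.one_lt_card_iff.2
    exact ⟨Gᶜ.connectedComponentMk x0, Gᶜ.connectedComponentMk y0, fun h =>
      hxy (SimpleGraph.ConnectedComponent.eq.1 h)⟩
  have := hadwiger_lex (F := (⊤ : SimpleGraph Gᶜ.ConnectedComponent)) hcard
    (SimpleGraph.colorable_of_fintype _) hasK_top hcol
  exact this.map f hinj

/-- Hadwiger's conjecture for vertex-transitive graphs of large chromatic number. -/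
theorem hadwiger_vt [Fintype V] {G : SimpleGraph V}
    (htr : ∀ u v, ∃ φ : G ≃g G, φ u = v)
    (hbig : ¬ Gᶜ.Preconnected ∨ ¬ G.Colorable ((Fintype.card V + 1) / 2)) {k : ℕ}
    (hk : ¬ G.Colorable k) : HasK G (k + 1) := by
  classical
  by_cases hconn : Gᶜ.Preconnected
  swap
  · exact hadwiger_vt_disconnected htr hconn hk
  · exfalso
    rcases hbig with h | h
    · exact h hconn
    have hex : ∃ c, G.Colorable c := ⟨_, G.colorable_of_fintype⟩
    set χ := Nat.find hex with hχ
    have h1 : G.Colorable χ := Nat.find_spec hex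
    have h2 : (Fintype.card V + 1) / 2 < χ := by
      by_contra hcon
      push Not at hcon
      exact h (h1.mono hcon)
    obtain ⟨m, hm⟩ : ∃ m, χ = m + 1 := ⟨χ - 1, by omega⟩
    have h3 : ¬ G.Colorable m := by
      intro hc
      have := Nat.find_min' hex hc
      omega
    rw [hm] at h1
    have hcrit : (∃ c : V → Fin (m + 1), Proper G c ∧ (Sing c).card = 0) ∨
        ∀ a, ∃ P : V → Fin (m + 1), Proper G P ∧ a ∈ Sing P := by
      obtain ⟨C⟩ := h1
      by_cases h0 : (Sing (C : V → Fin (m + 1))).card = 0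
      · exact Or.inl ⟨C, fun u v huv => C.valid huv, h0⟩
      · right
        intro a
        obtain ⟨x, hx⟩ := Finset.card_pos.1 (Nat.pos_of_ne_zero h0)
        obtain ⟨φ, hφ⟩ := htr a x
        refine ⟨fun v => C (φ v), fun u v huv => C.valid (φ.map_adj_iff.2 huv), ?_⟩
        rw [mem_sing] at hx ⊢
        intro w hw
        rw [hφ] at hw
        have := hx _ hw
        rw [← hφ] at this
        exact φ.injective this
    obtain ⟨c, hc, hcs⟩ := gallai_core h3 h1 hconn hcrit
    have := card_of_sing h3 hc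
    omega

end Pool.Agent.Lib.H80
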