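import Mathlib
import Pool.Agent.Lib.H80Min
import Pool.Agent.Lib.H80VT

/-!
Cliques in smallest counterexamples (helper80).
-/

set_option autoImplicit false

namespace Pool.Agent.Lib.H80

open SimpleGraph Finset

variable {V : Type*}

/-- Gluing colourings along a clique. -/
lemma colOn_glue {G : SimpleGraph V} {m : ℕ} (Q : Finset V)
    (hQ : ∀ u ∈ Q, ∀ v ∈ Q, u ≠ v → G.Adj u v) {S T : Set V}
    (hS : ColOn G S m) (hT : ColOn G T m) (hQS : ∀ q ∈ Q, q ∈ S) (hQT : ∀ q ∈ Q, q ∈ T)
    (hsep : ∀ u ∈ S, u ∉ Q → ∀ v ∈ T, v ∉ S → ¬ G.Adj u v) : ColOn G (S ∪ T) m := by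
  classical
  obtain ⟨c1, a1, b1⟩ := hS
  obtain ⟨c2, a2, b2⟩ := hT
  have inj1 : ∀ u ∈ Q, ∀ v ∈ Q, c1 u = c1 v → u = v := by
    intro u hu v hv h
    by_contra hne
    exact b1 u (hQS u hu) v (hQS v hv) (hQ u hu v hv hne) h
  have inj2 : ∀ u ∈ Q, ∀ v ∈ Q, c2 u = c2 v → u = v := by
    intro u hu v hv h
    by_contra hne
    exact b2 u (hQT u hu) v (hQT v hv) (hQ u hu v hv hne) h
  -- the permutation of the colours
  let s : Finset (Fin m) := univ.filter (fun i => ∃ q ∈ Q, c2 q = i)
  let f : Fin m → ℕ := fun i => if h : ∃ q ∈ Q, c2 q = i then c1 h.choose else 0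
  have hf : ∀ q ∈ Q, ∀ i : Fin m, c2 q = i → f i = c1 q := by
    intro q hq i hi
    have h : ∃ q ∈ Q, c2 q = i := ⟨q, hq, hi⟩
    simp only [f, h, dif_pos]
    have h1 := h.choose_spec
    rw [inj2 _ h1.1 q hq (h1.2.trans hi.symm)]
  obtain ⟨g, hg⟩ := Finset.exists_equiv_extend_of_card_eq (α := Fin m) (β := ℕ) (t := range m)
    (by simp) (s := s) (f := f) (by
      intro x hx
      simp only [Finset.mem_image, s, Finset.mem_filter, Finset.mem_univ, true_and] at hx
      obtain ⟨i, ⟨q, hq, hqi⟩, rfl⟩ := hx
      rw [hf q hq i hqi, Finset.mem_range]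
      exact a1 q (hQS q hq)) (by
      intro i hi j hj hij
      simp only [s, Finset.coe_filter, Finset.mem_univ, true_and, Set.mem_ofPred_eq] at hi hj
      obtain ⟨q, hq, hqi⟩ := hi
      obtain ⟨r, hr, hrj⟩ := hj
      rw [hf q hq i hqi, hf r hr j hrj] at hij
      have := inj1 q hq r hr hij
      subst this
      exact Fin.ext (hqi.symm.trans hrj))
  let τ : ℕ → ℕ := fun n => if h : n < m then (g ⟨n, h⟩ : ℕ) else 0
  have hτlt : ∀ n, n < m → τ n < m := by
    intro n hn
    simp only [τ, hn, dif_pos]
    exact Finset.mem_range.1 (g ⟨n, hn⟩).2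
  have hτinj : ∀ n n', n < m → n' < m → τ n = τ n' → n = n' := by
    intro n n' hn hn' h
    simp only [τ, hn, hn', dif_pos] at h
    have := g.injective (Subtype.ext h)
    simpa using this
  have hτQ : ∀ q ∈ Q, τ (c2 q) = c1 q := by
    intro q hq
    have h := a2 q (hQT q hq)
    simp only [τ, h, dif_pos]
    rw [hg ⟨c2 q, h⟩ (by simp only [s, Finset.mem_filter, Finset.mem_univ, true_and]; exact ⟨q, hq, rfl⟩)]
    exact hf q hq _ rfl
  have hcross : ∀ u ∈ S, ∀ v ∈ T, v ∉ S → G.Adj u v → c1 u ≠ τ (c2 v) := by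
    intro u hu v hv hvS huv
    by_cases huQ : u ∈ Q
    · rw [← hτQ u huQ]
      intro h
      exact b2 u (hQT u huQ) v hv huv
        (hτinj _ _ (a2 u (hQT u huQ)) (a2 v hv) h)
    · exact absurd huv (hsep u hu huQ v hv hvS)
  refine ⟨fun v => if v ∈ S then c1 v else τ (c2 v), ?_, ?_⟩
  · intro v hv
    by_cases hvS : v ∈ S
    · simp only [hvS, if_true]
      exact a1 v hvS
    · simp only [hvS, if_false]
      rcases hv with hv | hv
      · exact absurd hv hvS
      · exact hτlt _ (a2 v hv)
  · intro u hu v hv huv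
    by_cases huS : u ∈ S <;> by_cases hvS : v ∈ S
    · simp only [huS, hvS, if_true]
      exact b1 u huS v hvS huv
    · simp only [huS, hvS, if_true, if_false]
      exact hcross u huS v (hv.resolve_left hvS) hvS huv
    · simp only [huS, hvS, if_true, if_false]
      exact (hcross v hvS u (hu.resolve_left huS) huS huv.symm).symm
    · simp only [huS, hvS, if_false]
      have h1 := hu.resolve_left huS
      have h2 := hv.resolve_left hvS
      intro h
      exact b2 u h1 v h2 huv (hτinj _ _ (a2 u h1) (a2 v h2) h)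

/-- A smallest graph with `h < χ - d` has no clique of size `χ - d - 1`. -/
theorem no_large_clique [Fintype V] {G : SimpleGraph V} {d k : ℕ}
    (hmin : ∀ S : Set V, S ≠ Set.univ → HadD (G.induce S) d) (hk : ¬ G.Colorable (k + d))
    (hK : ¬ HasK G (k + 1)) (Q : Finset V) (hQ : ∀ u ∈ Q, ∀ v ∈ Q, u ≠ v → G.Adj u v) :
    Q.card < k := by
  classical
  -- a proper subset is colourable with `k + d` colours
  have hcolS : ∀ S : Set V, S ≠ Set.univ → ColOn G S (k + d) := by
    intro S hS
    by_contra hc
    rw [colOn_iff_induce] at hc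
    exact hK ((model_of_hasK_induce (hmin S hS k hc)).mono (Set.subset_univ _)).hasK
  by_contra hcon
  push Not at hcon
  obtain ⟨Q', hQ', hQcard⟩ := Finset.exists_subset_card_eq hcon
  have hQc : ∀ u ∈ Q', ∀ v ∈ Q', u ≠ v → G.Adj u v := fun u hu v hv => hQ u (hQ' hu) v (hQ' hv)
  clear hQ' hQ hcon
  -- there is a vertex outside
  obtain ⟨v0, hv0⟩ : ∃ v, v ∉ Q' := by
    by_contra hall
    push Not at hall
    apply hk
    rw [← colOn_univ]
    refine ColOn.of_rel (ι := Q') (fun v i => v = i.1) (fun v _ => ⟨⟨v, hall v⟩, rfl⟩) ?_ ?_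
    · rintro u - v - i h1 h2 huv
      exact huv.ne (h1.trans h2.symm)
    · simp only [Fintype.card_coe, hQcard]
      omega
  -- a maximal connected set avoiding the clique
  have hne : (univ.filter (fun C : Finset V => (G.induce (C : Set V)).Connected ∧
      Disjoint C Q')).Nonempty := by
    refine ⟨{v0}, ?_⟩
    simp only [Finset.mem_filter, Finset.mem_univ, true_and]
    refine ⟨?_, by simpa using hv0⟩
    rw [Finset.coe_singleton]
    exact conn_singleton G v0
  obtain ⟨C, hC, hCmax⟩ := Finset.exists_max_image _ (fun C : Finset V => C.card) hne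
  simp only [Finset.mem_filter, Finset.mem_univ, true_and] at hC hCmax
  obtain ⟨hCconn, hCQ⟩ := hC
  obtain ⟨⟨c0, hc0⟩⟩ := hCconn.nonempty
  have hc0' : c0 ∈ C := hc0
  have hCne : ∀ x ∈ C, x ∉ Q' := fun x hx => Finset.disjoint_left.1 hCQ hx
  have hext : ∀ u, u ∉ C → u ∉ Q' → ∀ v ∈ C, ¬ G.Adj u v := by
    intro u hu huQ v hv huv
    have h1 := hCmax (insert u C) ⟨by
      rw [Finset.coe_insert, Set.insert_eq]
      exact connected_induce_union (conn_singleton G u).preconnected hCconn.preconnected
        (v := u) (w := v) rfl hv huv, by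
      rw [Finset.disjoint_insert_left]
      exact ⟨huQ, hCQ⟩⟩
    rw [Finset.card_insert_of_notMem hu] at h1
    omega
  by_cases hall : ∀ q ∈ Q', ∃ v ∈ C, G.Adj q v
  · apply hK
    have hmod : Model G Set.univ (Q' ⊕ Unit) := by
      refine ⟨Sum.elim (fun q => {q.1}) (fun _ => (C : Set V)), fun _ => Set.subset_univ _, ?_,
        ?_, ?_⟩
      · rintro (q | i)
        · exact conn_singleton G q.1
        · exact hCconn
      · rintro (q | i) (r | j) hij
        · simp only [ne_eq, Sum.inl.injEq] at hij
          simpa using fun h => hij (Subtype.ext h)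
        · simp only [Sum.elim_inl, Sum.elim_inr, Set.disjoint_singleton_left, Finset.mem_coe]
          exact fun h => hCne _ h q.2
        · simp only [Sum.elim_inl, Sum.elim_inr, Set.disjoint_singleton_right, Finset.mem_coe]
          exact fun h => hCne _ h r.2
        · exact absurd rfl hij
      · rintro (q | i) (r | j) hij
        · simp only [ne_eq, Sum.inl.injEq] at hij
          exact ⟨q.1, rfl, r.1, rfl, hQc _ q.2 _ r.2 (fun h => hij (Subtype.ext h))⟩
        · obtain ⟨v, hv, hqv⟩ := hall q.1 q.2
          exact ⟨q.1, rfl, v, hv, hqv⟩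
        · obtain ⟨v, hv, hqv⟩ := hall r.1 r.2
          exact ⟨v, hv, r.1, rfl, hqv.symm⟩
        · exact absurd rfl hij
    refine (hmod.of_card ?_).hasK
    simp [hQcard]
  · push Not at hall
    obtain ⟨q0, hq0, hq0C⟩ := hall
    apply hk
    rw [← colOn_univ]
    have h1 : ColOn G ((C : Set V)ᶜ) (k + d) := by
      apply hcolS
      intro h
      have : c0 ∈ ((C : Set V)ᶜ) := by rw [h]; trivial
      exact this hc0
    have h2 : ColOn G ((C : Set V) ∪ (Q'.erase q0 : Finset V)) (k + d) := by
      apply hcolS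
      intro h
      have : q0 ∈ ((C : Set V) ∪ (Q'.erase q0 : Finset V)) := by rw [h]; trivial
      rcases this with h' | h'
      · exact hCne q0 h' hq0
      · simp at h'
    have h3 := colOn_glue (Q'.erase q0) (fun u hu v hv =>
      hQc u (Finset.mem_of_mem_erase hu) v (Finset.mem_of_mem_erase hv)) h1 h2
      (by
        intro q hq h
        exact hCne q h (Finset.mem_of_mem_erase hq))
      (fun q hq => Or.inr hq)
      (by
        intro u hu huQ v hv hvS huv
        have hvC : v ∈ C := by
          by_contra hv'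
          exact hvS hv'
        have huC : u ∉ C := hu
        by_cases huQ' : u ∈ Q'
        · have : u = q0 := by
            by_contra hne
            exact huQ (Finset.mem_erase.2 ⟨hne, huQ'⟩)
          subst this
          exact hq0C v hvC huv
        · exact hext u huC huQ' v hvC huv)
    have h4 : ((C : Set V)ᶜ) ∪ ((C : Set V) ∪ (Q'.erase q0 : Finset V)) = Set.univ := by
      ext x
      simp only [Set.mem_union, Set.mem_compl_iff, Finset.mem_coe, Set.mem_univ, iff_true]
      by_cases hx : x ∈ C
      · exact Or.inr (Or.inl hx)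
      · exact Or.inl hx
    rwa [h4] at h3

/-- `h ≥ χ - d` holds for `G` provided every induced subgraph with connected complement and at least
`2 χ - 1` vertices satisfies `χ ≤ ω + d + 1`. -/
theorem hadD_of_cliques [Fintype V] {G : SimpleGraph V} {d : ℕ}
    (h : ∀ S : Finset V, (G.induce (S : Set V))ᶜ.Connected → ∀ m : ℕ, 2 * m + 1 ≤ S.card →
      ¬ (G.induce (S : Set V)).Colorable m → (G.induce (S : Set V)).Colorable (m + 1) →
      ∃ Q ⊆ S, (∀ u ∈ Q, ∀ v ∈ Q, u ≠ v → G.Adj u v) ∧ m ≤ Q.card + d) : HadD G d := by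
  classical
  by_contra hbad
  -- a smallest induced subgraph violating the bound
  have hex : (univ.filter (fun S : Finset V => ¬ HadD (G.induce (S : Set V)) d)).Nonempty := by
    refine ⟨univ, ?_⟩
    simp only [Finset.mem_filter, Finset.mem_univ, true_and]
    intro hU
    apply hbad
    apply hadD_of_hcOnD
    have := hcOnD_of_hadD hU
    simpa using this
  obtain ⟨S, hS, hSmin⟩ := Finset.exists_min_image _ (fun S : Finset V => S.card) hex
  simp only [Finset.mem_filter, Finset.mem_univ, true_and] at hS hSmin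
  have hmin : ∀ T : Set (S : Set V), T ≠ Set.univ → HadD ((G.induce (S : Set V)).induce T) d := by
    intro T hT
    by_contra hcon
    -- transfer to a subset of `V`
    let T' : Finset V := S.filter (fun v => ∃ h : v ∈ (S : Set V), (⟨v, h⟩ : (S : Set V)) ∈ T)
    have hT'S : T' ⊆ S := Finset.filter_subset _ _
    have hT'lt : T'.card < S.card := by
      apply Finset.card_lt_card
      rw [Finset.ssubset_iff_of_subset hT'S]
      obtain ⟨⟨x, hx⟩, hxT⟩ := (Set.ne_univ_iff_exists_notMem T).1 hT
      refine ⟨x, hx, ?_⟩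
      intro h
      simp only [T', Finset.mem_filter] at h
      obtain ⟨_, h1, h2⟩ := h
      exact hxT h2
    have hTT : HadD (G.induce (T' : Set V)) d := by
      by_contra hh
      have := hSmin T' hh
      omega
    apply hcon
    -- an isomorphism
    have hmem : ∀ x : (S : Set V), x ∈ T ↔ x.1 ∈ (T' : Set V) := by
      intro x
      simp only [T', Finset.coe_filter, Set.mem_ofPred_eq]
      constructor
      · intro hx
        exact ⟨x.2, x.2, hx⟩
      · rintro ⟨_, _, h2⟩
        exact h2
    let φ : (G.induce (T' : Set V)) →g ((G.induce (S : Set V)).induce T) :=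
      { toFun := fun x => ⟨⟨x.1, hT'S x.2⟩, (hmem ⟨x.1, hT'S x.2⟩).2 x.2⟩
        map_rel' := by
          intro x y hxy
          exact hxy }
    have hφ : Function.Injective φ := by
      intro x y hxy
      have := congrArg (fun z => z.1.1) hxy
      exact Subtype.ext this
    intro k hk
    refine HasK.map φ hφ (hTT k ?_)
    rintro ⟨C⟩
    apply hk
    refine ⟨SimpleGraph.Coloring.mk (fun x => C ⟨x.1.1, (hmem x.1).1 x.2⟩) ?_⟩
    intro x y hxy
    exact C.valid hxy
  obtain ⟨hconn, hcard⟩ := min_counterexample hmin hS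
  have hS' := hS
  unfold HadD at hS'
  push Not at hS'
  obtain ⟨k, hk, hK⟩ := hS'
  -- the chromatic number is `k + d + 1`
  obtain ⟨x0⟩ := hconn.nonempty
  have hcol : (G.induce (S : Set V)).Colorable (k + d + 1) := by
    have h1 : ColOn (G.induce (S : Set V)) ({x0}ᶜ : Set (S : Set V)) (k + d) := by
      by_contra hc
      rw [colOn_iff_induce] at hc
      refine hK ((model_of_hasK_induce (hmin _ ?_ k hc)).mono (Set.subset_univ _)).hasK
      intro h
      have : x0 ∈ ({x0}ᶜ : Set (S : Set V)) := by rw [h]; trivial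
      exact this rfl
    obtain ⟨c, c1, c2⟩ := h1
    rw [← colOn_univ]
    refine ⟨fun v => if v = x0 then k + d else c v, ?_, ?_⟩
    · intro v _
      by_cases hv : v = x0
      · simp only [hv, if_true]
        omega
      · simp only [hv, if_false]
        have := c1 v hv
        omega
    · intro u _ v _ huv
      by_cases hu : u = x0 <;> by_cases hv : v = x0
      · subst hu; subst hv
        exact absurd rfl huv.ne
      · simp only [hu, hv, if_true, if_false]
        have := c1 v hv
        omega
      · simp only [hu, hv, if_true, if_false]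
        have := c1 u hu
        omega
      · simp only [hu, hv, if_false]
        exact c2 u hu v hv huv
  have hc2 := hcard (k + d) hk
  have hcS : Fintype.card (S : Set V) = S.card := by simp
  rw [hcS] at hc2
  obtain ⟨Q, hQS, hQ, hQc⟩ := h S hconn (k + d) hc2 hk hcol
  have hρ : Function.Injective (fun x : (S : Set V) => x.1) := fun x y h => Subtype.ext h
  have h5 := no_large_clique hmin hk hK (Q.preimage (fun x : (S : Set V) => x.1) hρ.injOn) (by
      intro u hu v hv huv
      rw [Finset.mem_preimage] at hu hv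
      exact hQ _ hu _ hv (fun h => huv (Subtype.ext h)))
  have h6 : (Q.preimage (fun x : (S : Set V) => x.1) hρ.injOn).card = Q.card := by
    rw [← Finset.card_image_of_injective _ hρ]
    congr 1
    ext x
    simp only [Finset.mem_image, Finset.mem_preimage]
    constructor
    · rintro ⟨y, hy, rfl⟩
      exact hy
    · intro hx
      exact ⟨⟨x, hQS hx⟩, hx, rfl⟩
  omega

end Pool.Agent.Lib.H80
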