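import Mathlib

/-!
Infinite Ramsey theorem for finite subsets of a fixed size of the natural numbers,
proved with a non-principal ultrafilter.
-/

namespace Pool.Agent.Lib.InfRamsey

open Filter

variable {C : Type*}

/-- A finite colouring of the naturals is constant on a large set. -/
theorem exists_lim [Finite C] (U : Ultrafilter ℕ) (f : ℕ → C) :
    ∃ c, ∀ᶠ n in (U : Filter ℕ), f n = c := by
  have h : (⋃ c ∈ (Set.univ : Set C), f ⁻¹' {c}) ∈ U := by
    have : (⋃ c ∈ (Set.univ : Set C), f ⁻¹' {c}) = Set.univ := by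
      ext n; simp
    rw [this]; exact univ_mem
  rw [Ultrafilter.finite_biUnion_mem_iff Set.finite_univ] at h
  obtain ⟨c, -, hc⟩ := h
  exact ⟨c, hc⟩

/-- the limit colour along the hyperfilter -/
noncomputable def lim [Finite C] (f : ℕ → C) : C :=
  (exists_lim (hyperfilter ℕ) f).choose

theorem lim_spec [Finite C] (f : ℕ → C) :
    ∀ᶠ n in (hyperfilter ℕ : Filter ℕ), f n = lim f :=
  (exists_lim (hyperfilter ℕ) f).choose_spec

/-- iterated limit colour of a finite set missing `j` elements -/
noncomputable def ilim [Finite C] (χ : Finset ℕ → C) : ℕ → Finset ℕ → C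
  | 0, t => χ t
  | j + 1, t => lim (fun n => ilim χ j (insert n t))

/-- every finite piece of size at most `k` has limit colour `c` -/
def Good [Finite C] (χ : Finset ℕ → C) (k : ℕ) (c : C) (s : Finset ℕ) : Prop :=
  ∀ t ⊆ s, t.card ≤ k → ilim χ (k - t.card) t = c

theorem good_empty [Finite C] (χ : Finset ℕ → C) (k : ℕ) :
    Good χ k (ilim χ k ∅) ∅ := by
  intro t ht _
  have : t = ∅ := Finset.subset_empty.mp ht
  subst this; simp

theorem good_step [Finite C] (χ : Finset ℕ → C) (k : ℕ) (c : C) (s : Finset ℕ)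
    (hs : Good χ k c s) (N : ℕ) : ∃ n, N ≤ n ∧ n ∉ s ∧ (∀ m ∈ s, m < n) ∧
      Good χ k c (insert n s) := by
  have h1 : ∀ t ∈ s.powerset.filter (fun t => t.card < k),
      ∀ᶠ n in (hyperfilter ℕ : Filter ℕ), ilim χ (k - t.card - 1) (insert n t) = c := by
    intro t ht
    rw [Finset.mem_filter, Finset.mem_powerset] at ht
    obtain ⟨hts, htk⟩ := ht
    have h2 := hs t hts htk.le
    obtain ⟨j, hj⟩ : ∃ j, k - t.card = j + 1 := ⟨k - t.card - 1, by omega⟩
    rw [hj] at h2
    have h3 := lim_spec (fun n => ilim χ j (insert n t))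
    have h4 : k - t.card - 1 = j := by omega
    rw [h4]
    rw [ilim] at h2
    filter_upwards [h3] with n hn
    rw [hn, h2]
  have h5 : ∀ᶠ n in (hyperfilter ℕ : Filter ℕ),
      ∀ t ∈ s.powerset.filter (fun t => t.card < k),
        ilim χ (k - t.card - 1) (insert n t) = c := by
    rw [Filter.eventually_all_finset]
    exact h1
  have h6 : ∀ᶠ n in (hyperfilter ℕ : Filter ℕ), max N (s.sup id + 1) ≤ n := by
    have : (hyperfilter ℕ : Filter ℕ) ≤ atTop := by
      rw [← Nat.cofinite_eq_atTop]; exact hyperfilter_le_cofinite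
    exact this (eventually_ge_atTop _)
  obtain ⟨n, hn5, hn6⟩ := (h5.and h6).exists
  have hlt : ∀ m ∈ s, m < n := by
    intro m hm
    have : m ≤ s.sup id := Finset.le_sup (f := id) hm
    have := le_max_right N (s.sup id + 1)
    omega
  have hns : n ∉ s := fun h => lt_irrefl _ (hlt n h)
  refine ⟨n, le_trans (le_max_left _ _) hn6, hns, hlt, ?_⟩
  intro t ht htk
  by_cases hnt : n ∈ t
  · have h7 : t.erase n ⊆ s := by
      intro m hm
      rw [Finset.mem_erase] at hm
      have := ht hm.2
      rw [Finset.mem_insert] at this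
      tauto
    have h8 : (t.erase n).card + 1 = t.card := Finset.card_erase_add_one hnt
    have h9 := hn5 (t.erase n) (by
      rw [Finset.mem_filter, Finset.mem_powerset]; exact ⟨h7, by omega⟩)
    rw [Finset.insert_erase hnt] at h9
    have h10 : k - (t.erase n).card - 1 = k - t.card := by omega
    rw [h10] at h9
    exact h9
  · apply hs t _ htk
    intro m hm
    have := ht hm
    rw [Finset.mem_insert] at this
    rcases this with h | h
    · subst h; exact absurd hm hnt
    · exact h

/-- **Infinite Ramsey theorem** for `k`-element subsets of the naturals. -/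
theorem infinite_ramsey [Finite C] (k : ℕ) (χ : Finset ℕ → C) :
    ∃ φ : ℕ → ℕ, StrictMono φ ∧ ∃ c, ∀ t : Finset ℕ, t.card = k → χ (t.image φ) = c := by
  classical
  set c := ilim χ k ∅ with hc
  choose! g hg1 hg2 hg3 hg4 using (fun (s : Finset ℕ) (hs : Good χ k c s) =>
    good_step χ k c s hs 0)
  -- sequence of finite sets
  let S : ℕ → Finset ℕ := fun n => Nat.rec ∅ (fun _ s => insert (g s) s) n
  have hS0 : S 0 = ∅ := rfl
  have hSs : ∀ n, S (n + 1) = insert (g (S n)) (S n) := fun n => rfl
  have hgood : ∀ n, Good χ k c (S n) := by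
    intro n
    induction n with
    | zero => rw [hS0]; exact good_empty χ k
    | succ n ih => rw [hSs]; exact hg4 _ ih
  have hmono : ∀ m n, m ≤ n → S m ⊆ S n := by
    intro m n hmn
    induction n, hmn using Nat.le_induction with
    | base => exact subset_rfl
    | succ n _ ih => rw [hSs]; exact ih.trans (Finset.subset_insert _ _)
  let φ : ℕ → ℕ := fun n => g (S n)
  have hφmem : ∀ m n, m < n → φ m ∈ S n := by
    intro m n hmn
    apply hmono (m + 1) n hmn
    rw [hSs]; exact Finset.mem_insert_self _ _
  have hφ : StrictMono φ := by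
    intro m n hmn
    exact hg3 (S n) (hgood n) _ (hφmem m n hmn)
  refine ⟨φ, hφ, c, ?_⟩
  intro t ht
  have h1 : t.image φ ⊆ S (t.sup id + 1) := by
    intro x hx
    rw [Finset.mem_image] at hx
    obtain ⟨m, hm, rfl⟩ := hx
    have : m ≤ t.sup id := Finset.le_sup (f := id) hm
    exact hφmem m (t.sup id + 1) (by omega)
  have h2 : (t.image φ).card = k := by
    rw [Finset.card_image_of_injective _ hφ.injective, ht]
  have h3 := hgood (t.sup id + 1) (t.image φ) h1 h2.le
  rw [h2, Nat.sub_self] at h3
  exact h3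

end Pool.Agent.Lib.InfRamsey
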