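import Mathlib

open Set unitInterval Topology

namespace Pool.Agent.Lib

section Union

variable {X : Type*} [TopologicalSpace X] {U V : Set X}

/-- Two paths with the same endpoints lying in a simply connected set are homotopic. -/
lemma homotopic_of_subset (hU : IsSimplyConnected U) {x y : X} (p q : Path x y)
    (hp : ∀ t, p t ∈ U) (hq : ∀ t, q t ∈ U) : p.Homotopic q := by
  haveI := hU.simplyConnectedSpace
  have hx : x ∈ U := by simpa using hp 0
  have hy : y ∈ U := by simpa using hp 1
  let p' : Path (⟨x, hx⟩ : U) ⟨y, hy⟩ :=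
    { toFun := fun t => ⟨p t, hp t⟩
      source' := by simp
      target' := by simp }
  let q' : Path (⟨x, hx⟩ : U) ⟨y, hy⟩ :=
    { toFun := fun t => ⟨q t, hq t⟩
      source' := by simp
      target' := by simp }
  have h : p'.Homotopic q' := SimplyConnectedSpace.paths_homotopic p' q'
  exact h.map ⟨Subtype.val, continuous_subtype_val⟩

lemma exists_path_in (hU : IsPathConnected U) {x y : X} (hx : x ∈ U) (hy : y ∈ U) :
    ∃ p : Path x y, ∀ t, p t ∈ U := by
  have h := hU.joinedIn x hx y hy
  exact ⟨h.somePath, h.somePath_mem⟩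

/-- A space which is the union of two simply connected open sets with path connected intersection
is simply connected. -/
theorem simplyConnectedSpace_of_union (hU : IsOpen U) (hV : IsOpen V) (hUV : U ∪ V = univ)
    (hUs : IsSimplyConnected U) (hVs : IsSimplyConnected V) (hI : IsPathConnected (U ∩ V)) :
    SimplyConnectedSpace X := by
  have hI' := hI
  obtain ⟨b, hb, -⟩ := hI'
  have hD : ∀ x : X, ∃ δ : Path b x, (∀ p : Path b x, (∀ t, p t ∈ U) → p.Homotopic δ) ∧
      (∀ p : Path b x, (∀ t, p t ∈ V) → p.Homotopic δ) := by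
    intro x
    have hx : x ∈ U ∪ V := by rw [hUV]; trivial
    by_cases hxU : x ∈ U
    · by_cases hxV : x ∈ V
      · obtain ⟨δ, hδ⟩ := exists_path_in hI hb ⟨hxU, hxV⟩
        exact ⟨δ, fun p hp => homotopic_of_subset hUs p δ hp (fun t => (hδ t).1),
          fun p hp => homotopic_of_subset hVs p δ hp (fun t => (hδ t).2)⟩
      · obtain ⟨δ, hδ⟩ := exists_path_in hUs.isPathConnected hb.1 hxU
        refine ⟨δ, fun p hp => homotopic_of_subset hUs p δ hp hδ, fun p hp => ?_⟩
        exact absurd (by simpa using hp 1) hxV
    · have hxV : x ∈ V := by rcases hx with h | h; exact absurd h hxU; exact h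
      obtain ⟨δ, hδ⟩ := exists_path_in hVs.isPathConnected hb.2 hxV
      refine ⟨δ, fun p hp => ?_, fun p hp => homotopic_of_subset hVs p δ hp hδ⟩
      exact absurd (by simpa using hp 1) hxU
  choose δ hδU hδV using hD
  -- local claim
  have hloc : ∀ (W : Set X), IsPathConnected W → b ∈ W →
      (∀ x, ∀ p : Path b x, (∀ t, p t ∈ W) → p.Homotopic (δ x)) →
      ∀ {x y : X} (γ : Path x y), (∀ t, γ t ∈ W) → ((δ x).trans γ).Homotopic (δ y) := by
    intro W hW hbW hδW x y γ hγ
    have hx : x ∈ W := by simpa using hγ 0
    obtain ⟨p, hp⟩ := exists_path_in hW hbW hx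
    have h1 : (p.trans γ).Homotopic (δ y) := by
      apply hδW
      intro t
      rw [Path.trans_apply]
      split_ifs
      · exact hp _
      · exact hγ _
    exact ((Path.Homotopic.symm (hδW x p hp)).hcomp (Path.Homotopic.refl γ)).trans h1
  have hglob : ∀ {x y : X} (γ : Path x y), ((δ x).trans γ).Homotopic (δ y) := by
    intro x y γ
    obtain ⟨t, ht0, hmono, ⟨N, hN⟩, hsub⟩ := exists_monotone_Icc_subset_open_cover_unitInterval
      (c := fun i : Bool => γ ⁻¹' (if i then U else V))
      (by intro i; cases i
          · simpa using hV.preimage γ.continuous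
          · simpa using hU.preimage γ.continuous)
      (by
        intro s _
        have : γ s ∈ U ∪ V := by rw [hUV]; trivial
        rcases this with h | h
        · exact mem_iUnion.2 ⟨true, by simpa using h⟩
        · exact mem_iUnion.2 ⟨false, by simpa using h⟩)
    have key : ∀ n, ((δ (γ 0)).trans (γ.subpath 0 (t n))).Homotopic (δ (γ (t n))) := by
      intro n
      induction n with
      | zero =>
        rw [ht0, Path.subpath_self]
        exact ⟨Path.Homotopy.transRefl _⟩
      | succ n ih =>
        have h1 : ((γ.subpath 0 (t n)).trans (γ.subpath (t n) (t (n + 1)))).Homotopic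
            (γ.subpath 0 (t (n + 1))) := ⟨Path.Homotopy.subpathTransSubpath γ _ _ _⟩
        have h2 : ((δ (γ (t n))).trans (γ.subpath (t n) (t (n + 1)))).Homotopic
            (δ (γ (t (n + 1)))) := by
          obtain ⟨i, hi⟩ := hsub n
          have hr : ∀ s, γ.subpath (t n) (t (n + 1)) s ∈ (if i then U else V) := by
            intro s
            have h3 : γ.subpath (t n) (t (n + 1)) s ∈ range (γ.subpath (t n) (t (n + 1))) :=
              ⟨s, rfl⟩
            rw [Path.range_subpath_of_le γ _ _ (hmono (Nat.le_succ n))] at h3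
            obtain ⟨r, hr, hr2⟩ := h3
            rw [← hr2]
            exact hi hr
          cases i
          · exact hloc V hVs.isPathConnected hb.2 hδV _ (by simpa using hr)
          · exact hloc U hUs.isPathConnected hb.1 hδU _ (by simpa using hr)
        have h3 : ((δ (γ 0)).trans (γ.subpath 0 (t (n + 1)))).Homotopic
            ((δ (γ 0)).trans ((γ.subpath 0 (t n)).trans (γ.subpath (t n) (t (n + 1))))) :=
          (Path.Homotopic.refl _).hcomp (Path.Homotopic.symm h1)
        have h4 : (((δ (γ 0)).trans (γ.subpath 0 (t n))).trans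
            (γ.subpath (t n) (t (n + 1)))).Homotopic
            ((δ (γ 0)).trans ((γ.subpath 0 (t n)).trans (γ.subpath (t n) (t (n + 1))))) :=
          ⟨Path.Homotopy.transAssoc _ _ _⟩
        exact (h3.trans (Path.Homotopic.symm h4)).trans
          ((ih.hcomp (Path.Homotopic.refl _)).trans h2)
    have hk := key N
    rw [hN N le_rfl] at hk
    rw [Path.subpath_zero_one] at hk
    have hcast : ∀ (x' y' : X) (hx : x' = x) (hy : y' = y),
        ((δ x').trans (γ.cast hx hy)).Homotopic (δ y') → ((δ x).trans γ).Homotopic (δ y) := by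
      rintro _ _ rfl rfl h
      exact h
    exact hcast _ _ γ.source γ.target hk
  rw [simply_connected_iff_paths_homotopic']
  refine ⟨?_, fun {x y} p q => ?_⟩
  · exact ⟨⟨b⟩, fun x y => ⟨(δ x).symm.trans (δ y)⟩⟩
  · have h1 : ((δ x).trans p).Homotopic ((δ x).trans q) :=
      (hglob p).trans (Path.Homotopic.symm (hglob q))
    rw [← Path.Homotopic.Quotient.eq] at h1 ⊢
    rw [Path.Homotopic.Quotient.mk_trans, Path.Homotopic.Quotient.mk_trans] at h1
    have h2 := congrArg (fun z => (Path.Homotopic.Quotient.mk (δ x)).symm.trans z) h1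
    simp only [← Path.Homotopic.Quotient.trans_assoc, Path.Homotopic.Quotient.symm_trans,
      Path.Homotopic.Quotient.refl_trans] at h2
    exact h2

end Union

section Sphere

open Metric Module

variable {E : Type*} [NormedAddCommGroup E] [InnerProductSpace ℝ E]

lemma isSimplyConnected_compl_point {n : ℕ} [Fact (finrank ℝ E = n + 1)]
    (v : sphere (0 : E) 1) : IsSimplyConnected ({v}ᶜ : Set (sphere (0 : E) 1)) := by
  have h1 : (stereographic' n v).source = {v}ᶜ := stereographic'_source v
  have h2 : (stereographic' n v).target = univ := stereographic'_target v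
  have h3 : SimplyConnectedSpace (stereographic' n v).source := by
    have e := (stereographic' n v).toHomeomorphSourceTarget
    have e2 : (stereographic' n v).target ≃ₜ EuclideanSpace ℝ (Fin n) :=
      (Homeomorph.setCongr h2).trans (Homeomorph.Set.univ _)
    exact (e.trans e2).toHomotopyEquiv.simplyConnectedSpace
  rw [← h1]
  exact h3

lemma isPathConnected_compl_two_points {n : ℕ} [Fact (finrank ℝ E = n + 1)] (hn : 2 ≤ n)
    (v w : sphere (0 : E) 1) (hvw : w ≠ v) :
    IsPathConnected ({v}ᶜ ∩ {w}ᶜ : Set (sphere (0 : E) 1)) := by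
  have h1 : (stereographic' n v).source = {v}ᶜ := stereographic'_source v
  have h2 : (stereographic' n v).target = univ := stereographic'_target v
  set e := stereographic' n v with he
  have h3 : IsPathConnected ({e w}ᶜ : Set (EuclideanSpace ℝ (Fin n))) := by
    apply isPathConnected_compl_singleton_of_one_lt_rank
    rw [← finrank_eq_rank, finrank_euclideanSpace_fin]
    exact_mod_cast hn
  have h4 : ({v}ᶜ ∩ {w}ᶜ : Set (sphere (0 : E) 1)) = e.symm '' {e w}ᶜ := by
    ext x
    constructor
    · rintro ⟨hx1, hx2⟩
      have hx : x ∈ e.source := by rw [h1]; exact hx1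
      refine ⟨e x, ?_, e.left_inv hx⟩
      intro h
      apply hx2
      have hw : w ∈ e.source := by rw [h1]; exact hvw
      exact e.injOn hx hw h
    · rintro ⟨z, hz, rfl⟩
      have hz2 : z ∈ e.target := by rw [h2]; trivial
      have h5 : e.symm z ∈ e.source := e.map_target hz2
      refine ⟨by rw [← h1]; exact h5, ?_⟩
      intro h
      apply hz
      have h6 : e.symm z = w := h
      have h7 := e.right_inv hz2
      rw [h6] at h7
      exact h7.symm
  rw [h4]
  apply h3.image'
  apply e.continuousOn_symm.mono
  rw [h2]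
  exact subset_univ _

/-- The unit sphere of an `(n + 1)`-dimensional inner product space is simply connected if
`2 ≤ n`. -/
theorem simplyConnectedSpace_sphere {n : ℕ} [Fact (finrank ℝ E = n + 1)] (hn : 2 ≤ n) :
    SimplyConnectedSpace (sphere (0 : E) 1) := by
  have hfin : finrank ℝ E = n + 1 := Fact.out
  haveI : Nontrivial E := nontrivial_of_finrank_pos (R := ℝ) (by rw [hfin]; omega)
  obtain ⟨v⟩ : Nonempty (sphere (0 : E) 1) := by
    obtain ⟨x, hx⟩ := (NormedSpace.sphere_nonempty (E := E) (x := 0) (r := 1)).2 zero_le_one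
    exact ⟨⟨x, hx⟩⟩
  have hne : -v ≠ v := (ne_neg_of_mem_unit_sphere ℝ v).symm
  apply simplyConnectedSpace_of_union (U := {v}ᶜ) (V := {-v}ᶜ)
    isOpen_compl_singleton isOpen_compl_singleton
  · ext x
    simp only [mem_union, mem_compl_iff, mem_singleton_iff, mem_univ, iff_true]
    by_contra h
    push Not at h
    exact hne (h.2.symm.trans h.1)
  · exact isSimplyConnected_compl_point (n := n) v
  · exact isSimplyConnected_compl_point (n := n) (-v)
  · exact isPathConnected_compl_two_points hn v (-v) hne

end Sphere

end Pool.Agent.Lib
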